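import Pool.Agent.IT.Stmts

/-!
INJ: the arithmetic of the iterated torus knots. The logarithmic derivative `uS D` of the first term
and the ratio `rS D` (up to a constant) of the second to the first term of the expansion of the
coloured Jones function determine the data `D`. Everything is written in `X = exp (2 z)`; a function
which is periodic under `z ↦ z + π i / p` is a series supported on the multiples of `p`.
-/

open PowerSeries Finset

namespace Pool.Agent.IT

namespace Inj

lemma nml_two_le {p : ℕ} {q : ℤ} {K : List (ℕ × ℤ)} (h : Nml ((p, q) :: K)) : 2 ≤ p := by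
  cases K with
  | nil => exact h.1
  | cons x K => exact h.1

lemma nml_cop {p : ℕ} {q : ℤ} {K : List (ℕ × ℤ)} (h : Nml ((p, q) :: K)) :
    Nat.Coprime p q.natAbs := by
  cases K with
  | nil => exact h.2.1
  | cons x K => exact h.2.1

lemma nml_tail {p : ℕ} {q : ℤ} {K : List (ℕ × ℤ)} (h : Nml ((p, q) :: K)) : Nml K := by
  cases K with
  | nil => trivial
  | cons x K => exact h.2.2

lemma nml_pos {p : ℕ} {q : ℤ} {K : List (ℕ × ℤ)} (h : Nml ((p, q) :: K)) :
    0 < q.natAbs := by
  have h1 := nml_two_le h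
  have h2 := nml_cop h
  rcases Nat.eq_zero_or_pos q.natAbs with h0 | h0
  · rw [h0, Nat.coprime_zero_right] at h2
    omega
  · exact h0

lemma coeff_nc (k : ℕ) (f : PowerSeries ℚ) (n : ℕ) :
    coeff n ((k : PowerSeries ℚ) * f) = k * coeff n f := by
  rw [← map_natCast (C : ℚ →+* PowerSeries ℚ), coeff_C_mul]

lemma coeff_ic (k : ℤ) (f : PowerSeries ℚ) (n : ℕ) :
    coeff n ((k : PowerSeries ℚ) * f) = k * coeff n f := by
  rw [← map_intCast (C : ℚ →+* PowerSeries ℚ), coeff_C_mul]

lemma coeff_Cs (b n : ℕ) : coeff n (Cs b) = if n = 0 then -1 else if b ∣ n then -2 else 0 := by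
  simp [Cs]

lemma coeff_ex (p n : ℕ) (f : PowerSeries ℚ) :
    coeff n (ex p f) = if p ∣ n then coeff (n / p) f else 0 := by
  simp [ex]

/-- `f` is supported on the multiples of `p`. -/
def Sup (p : ℕ) (f : PowerSeries ℚ) : Prop := ∀ n, ¬ p ∣ n → coeff n f = 0

lemma Sup.mul {p : ℕ} {f g : PowerSeries ℚ} (hf : Sup p f) (hg : Sup p g) : Sup p (f * g) := by
  intro n hn
  rw [coeff_mul]
  refine sum_eq_zero fun x hx => ?_
  rw [HasAntidiagonal.mem_antidiagonal] at hx
  by_cases h1 : p ∣ x.1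
  · have h2 : ¬ p ∣ x.2 := fun h2 => hn (hx ▸ dvd_add h1 h2)
    rw [hg _ h2, mul_zero]
  · rw [hf _ h1, zero_mul]

lemma Sup.add {p : ℕ} {f g : PowerSeries ℚ} (hf : Sup p f) (hg : Sup p g) : Sup p (f + g) := by
  intro n hn
  rw [map_add, hf n hn, hg n hn, add_zero]

lemma Sup.sub {p : ℕ} {f g : PowerSeries ℚ} (hf : Sup p f) (hg : Sup p g) : Sup p (f - g) := by
  intro n hn
  rw [map_sub, hf n hn, hg n hn, sub_zero]

lemma Sup.nc {p : ℕ} {f : PowerSeries ℚ} (hf : Sup p f) (k : ℕ) :
    Sup p ((k : PowerSeries ℚ) * f) := by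
  intro n hn
  rw [coeff_nc, hf n hn, mul_zero]

lemma Sup.ic {p : ℕ} {f : PowerSeries ℚ} (hf : Sup p f) (k : ℤ) :
    Sup p ((k : PowerSeries ℚ) * f) := by
  intro n hn
  rw [coeff_ic, hf n hn, mul_zero]

lemma sup_ex (p : ℕ) (f : PowerSeries ℚ) : Sup p (ex p f) := by
  intro n hn
  rw [coeff_ex, if_neg hn]

lemma sup_Cs {p b : ℕ} (h : p ∣ b) : Sup p (Cs b) := by
  intro n hn
  have h0 : n ≠ 0 := fun h0 => hn (h0 ▸ dvd_zero p)
  rw [coeff_Cs, if_neg h0, if_neg (fun h1 => hn (h.trans h1))]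

lemma coeff_ex_mul {p : ℕ} (hp : 0 < p) (f : PowerSeries ℚ) (n : ℕ) :
    coeff (p * n) (ex p f) = coeff n f := by
  rw [coeff_ex, if_pos (dvd_mul_right p n), Nat.mul_div_cancel_left n hp]

lemma ex_mul {p : ℕ} (hp : 0 < p) (f g : PowerSeries ℚ) (n : ℕ) :
    coeff (p * n) (ex p f * ex p g) = coeff n (f * g) := by
  rw [coeff_mul, coeff_mul]
  symm
  refine sum_of_injOn (fun x => (p * x.1, p * x.2)) ?_ ?_ ?_ ?_
  · intro x _ y _ h
    simp only [Prod.mk.injEq] at h
    exact Prod.ext (Nat.eq_of_mul_eq_mul_left hp h.1) (Nat.eq_of_mul_eq_mul_left hp h.2)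
  · intro x hx
    rw [mem_coe, HasAntidiagonal.mem_antidiagonal] at hx ⊢
    change p * x.1 + p * x.2 = p * n
    rw [← hx]
    ring
  · intro x hx h
    rw [HasAntidiagonal.mem_antidiagonal] at hx
    by_cases h1 : p ∣ x.1
    · have h2 : p ∣ x.2 := by
        have h3 : p ∣ x.1 + x.2 := hx ▸ dvd_mul_right p n
        exact (Nat.dvd_add_right h1).mp h3
      exfalso
      apply h
      obtain ⟨y, hy⟩ := h1
      obtain ⟨z, hz⟩ := h2
      refine ⟨(y, z), ?_, ?_⟩
      · rw [mem_coe, HasAntidiagonal.mem_antidiagonal]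
        rw [hy, hz, ← mul_add] at hx
        exact Nat.eq_of_mul_eq_mul_left hp hx
      · exact Prod.ext hy.symm hz.symm
    · rw [sup_ex p f _ h1, zero_mul]
  · intro x _
    rw [coeff_ex_mul hp, coeff_ex_mul hp]

lemma ex_sub (p : ℕ) (f g : PowerSeries ℚ) : ex p (f - g) = ex p f - ex p g := by
  ext n
  rw [map_sub, coeff_ex, coeff_ex, coeff_ex]
  split_ifs
  · rw [map_sub]
  · rw [sub_zero]

lemma ex_nc (p k : ℕ) (f : PowerSeries ℚ) :
    ex p ((k : PowerSeries ℚ) * f) = (k : PowerSeries ℚ) * ex p f := by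
  ext n
  rw [coeff_nc, coeff_ex, coeff_ex]
  split_ifs
  · rw [coeff_nc]
  · rw [mul_zero]

lemma ex_Cs {p : ℕ} (hp : 0 < p) (r : ℕ) : ex p (Cs r) = Cs (p * r) := by
  ext n
  rw [coeff_ex, coeff_Cs, coeff_Cs]
  by_cases h : p ∣ n
  · obtain ⟨m, rfl⟩ := h
    rw [if_pos (dvd_mul_right p m), Nat.mul_div_cancel_left m hp]
    have h1 : p * m = 0 ↔ m = 0 := by
      constructor
      · intro h
        rcases Nat.mul_eq_zero.mp h with h | h
        · omega
        · exact h
      · rintro rfl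
        simp
    have h2 : p * r ∣ p * m ↔ r ∣ m := Nat.mul_dvd_mul_iff_left hp
    simp only [h1, h2]
  · have h0 : n ≠ 0 := fun h0 => h (h0 ▸ dvd_zero p)
    rw [if_neg h, if_neg h0, if_neg (fun h1 => h ((dvd_mul_right p r).trans h1))]

/-- The relation of a pair of periods with the two series. -/
def Rel (p b : ℕ) (c : ℚ) (u r : PowerSeries ℚ) : Prop :=
  ∀ n, ¬ p ∣ n → coeff n u = b * coeff n (Cs b) ∧
    coeff n r = c * coeff n (Cs b * (u - (b : PowerSeries ℚ) * Cs b))

lemma Rel.w {p b : ℕ} {c : ℚ} {u r : PowerSeries ℚ} (h : Rel p b c u r) :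
    Sup p (u - (b : PowerSeries ℚ) * Cs b) := by
  intro n hn
  rw [map_sub, coeff_nc, (h n hn).1, sub_self]

/-- The outermost pair satisfies the relation. -/
lemma own {p : ℕ} {q : ℤ} {K : List (ℕ × ℤ)} (hp : 0 < p) :
    Rel p q.natAbs (q.sign / p) (uS ((p, q) :: K)) (rS ((p, q) :: K)) := by
  set b := q.natAbs with hb
  set U := ex p (uS K) with hU
  have hu : uS ((p, q) :: K) = (b : PowerSeries ℚ) * Cs b -
      ((p * b : ℕ) : PowerSeries ℚ) * Cs (p * b) + (p : PowerSeries ℚ) * U := rfl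
  have hr : rS ((p, q) :: K) = ex p (rS K) + (q.sign : PowerSeries ℚ) * Cs b * U -
      (q.sign : PowerSeries ℚ) * Cs (p * b) * uS ((p, q) :: K) := rfl
  have hw : uS ((p, q) :: K) - (b : PowerSeries ℚ) * Cs b =
      (p : PowerSeries ℚ) * U - ((p * b : ℕ) : PowerSeries ℚ) * Cs (p * b) := by
    rw [hu]; ring
  have hsw : Sup p (uS ((p, q) :: K) - (b : PowerSeries ℚ) * Cs b) := by
    rw [hw]
    exact ((sup_ex p _).nc p).sub ((sup_Cs (dvd_mul_right p b)).nc _)
  intro n hn
  constructor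
  · have := hsw n hn
    rw [map_sub, coeff_nc] at this
    linarith
  · have h1 : (p : PowerSeries ℚ) * rS ((p, q) :: K) =
        (q.sign : PowerSeries ℚ) * (Cs b * (uS ((p, q) :: K) - (b : PowerSeries ℚ) * Cs b)) +
        ((p : PowerSeries ℚ) * ex p (rS K) - (q.sign : PowerSeries ℚ) * ((p : PowerSeries ℚ) *
          (Cs (p * b) * (uS ((p, q) :: K) - (b : PowerSeries ℚ) * Cs b)))) := by
      rw [hr, hu]
      push_cast
      ring
    have h2 : Sup p ((p : PowerSeries ℚ) * ex p (rS K) - (q.sign : PowerSeries ℚ) *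
        ((p : PowerSeries ℚ) *
          (Cs (p * b) * (uS ((p, q) :: K) - (b : PowerSeries ℚ) * Cs b)))) :=
      ((sup_ex p _).nc p).sub ((((sup_Cs (dvd_mul_right p b)).mul hsw).nc p).ic _)
    have h3 := congrArg (coeff n) h1
    rw [map_add, h2 n hn, add_zero, coeff_nc, coeff_ic] at h3
    have hpq : (p : ℚ) ≠ 0 := by exact_mod_cast hp.ne'
    field_simp
    linarith

/-- The dichotomy for two relations. -/
lemma dich {p b p' b' : ℕ} {c c' : ℚ} {u r : PowerSeries ℚ} (h : Rel p b c u r)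
    (h' : Rel p' b' c' u r) (hp : 2 ≤ p) (hp' : 2 ≤ p') (hc : Nat.Coprime p b)
    (hc' : Nat.Coprime p' b') (hb : 0 < b) (hb' : 0 < b') :
    (b = b' ∧ ¬ p ∣ b ∧ ¬ p' ∣ b) ∨ (p' ∣ b ∧ p ∣ b') := by
  have npb : ¬ p ∣ b := fun hd => by
    have := Nat.Coprime.eq_one_of_dvd hc hd
    omega
  have npb' : ¬ p' ∣ b' := fun hd => by
    have := Nat.Coprime.eq_one_of_dvd hc' hd
    omega
  have key : ∀ n, ¬ p ∣ n → ¬ p' ∣ n → (b ∣ n ∨ b' ∣ n) → b = b' := by
    intro n hn hn' hd
    have h1 := (h n hn).1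
    rw [(h' n hn').1, coeff_Cs, coeff_Cs] at h1
    have hn0 : n ≠ 0 := fun h0 => hn (h0 ▸ dvd_zero p)
    rw [if_neg hn0, if_neg hn0] at h1
    have hbq : (b : ℚ) ≠ 0 := by exact_mod_cast hb.ne'
    have hbq' : (b' : ℚ) ≠ 0 := by exact_mod_cast hb'.ne'
    by_cases h2 : b ∣ n
    · by_cases h3 : b' ∣ n
      · rw [if_pos h2, if_pos h3] at h1
        have : (b : ℚ) = b' := by linarith
        exact_mod_cast this
      · rw [if_pos h2, if_neg h3] at h1
        exfalso; apply hbq; linarith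
    · have h3 : b' ∣ n := hd.resolve_left h2
      rw [if_neg h2, if_pos h3] at h1
      exfalso; apply hbq'; linarith
  by_cases h1 : p' ∣ b
  · by_cases h2 : p ∣ b'
    · exact Or.inr ⟨h1, h2⟩
    · have := key b' h2 npb' (Or.inr dvd_rfl)
      exact absurd (this ▸ h1) npb'
  · have := key b npb h1 (Or.inl dvd_rfl)
    exact Or.inl ⟨this, npb, h1⟩

/-- The first case of the dichotomy. -/
lemma caseII {p b p' : ℕ} {c c' : ℚ} {u r : PowerSeries ℚ} (h : Rel p b c u r)
    (h' : Rel p' b c' u r) (hp : ¬ p ∣ b) (hp' : ¬ p' ∣ b) (hb : 0 < b)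
    (hu : coeff 0 u + b ≠ 0) : c = c' := by
  set w := u - (b : PowerSeries ℚ) * Cs b with hw
  have hc : coeff b (Cs b * w) = -2 * coeff 0 w := by
    rw [coeff_mul]
    rw [sum_eq_add (0, b) (b, 0)]
    · have h1 : coeff b w = 0 := h.w b hp
      change coeff 0 (Cs b) * coeff b w + coeff b (Cs b) * coeff 0 w = _
      rw [h1, coeff_Cs b b, if_neg hb.ne', if_pos dvd_rfl]
      ring
    · intro heq
      have := congrArg Prod.fst heq
      simp only at this
      omega
    · intro x hx hne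
      rw [HasAntidiagonal.mem_antidiagonal] at hx
      rw [coeff_Cs]
      have h1 : x.1 ≠ 0 := by
        intro h0
        apply hne.1
        refine Prod.ext h0 ?_
        change x.2 = b
        omega
      have h2 : x.1 ≠ b := by
        intro h0
        apply hne.2
        refine Prod.ext h0 ?_
        change x.2 = 0
        omega
      have h3 : ¬ b ∣ x.1 := by
        intro hd
        have := Nat.le_of_dvd (Nat.pos_of_ne_zero h1) hd
        omega
      rw [if_neg h1, if_neg h3, zero_mul]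
    · intro hx
      exact absurd (HasAntidiagonal.mem_antidiagonal.mpr (by simp)) hx
    · intro hx
      exact absurd (HasAntidiagonal.mem_antidiagonal.mpr (by simp)) hx
  have h0 : coeff 0 w = coeff 0 u + b := by
    rw [hw, map_sub, coeff_nc, coeff_Cs, if_pos rfl]
    ring
  have h1 := (h b hp).2
  rw [(h' b hp').2, ← hw, hc, h0] at h1
  have h2 : (c - c') * (coeff 0 u + b) = 0 := by linear_combination (1 / 2 : ℚ) * h1
  exact sub_eq_zero.mp ((mul_eq_zero.mp h2).resolve_right hu)

/-- One coefficient in the second case of the dichotomy. -/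
lemma coeff_caseI {p b p' b' : ℕ} {c c' : ℚ} {u r : PowerSeries ℚ} (h : Rel p b c u r)
    (h' : Rel p' b' c' u r) (hpb' : p ∣ b') (hpb : p' ∣ b) (npb : ¬ p ∣ b) (npb' : ¬ p' ∣ b')
    (hb : 0 < b) (hb' : 0 < b') :
    coeff (b + b') (Cs b * (u - (b : PowerSeries ℚ) * Cs b)) = 4 * b' := by
  set w := u - (b : PowerSeries ℚ) * Cs b with hw
  have hbb' : ¬ b ∣ b' := fun hd => npb' (hpb.trans hd)
  rw [coeff_mul, sum_eq_single (b, b')]
  · have h1 : coeff b' w = -2 * b' := by
      rw [hw, map_sub, coeff_nc, (h' b' npb').1, coeff_Cs, coeff_Cs, if_neg hb'.ne',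
        if_pos dvd_rfl, if_neg hb'.ne', if_neg hbb']
      ring
    change coeff b (Cs b) * coeff b' w = _
    rw [h1, coeff_Cs, if_neg hb.ne', if_pos dvd_rfl]
    ring
  · intro x hx hne
    rw [HasAntidiagonal.mem_antidiagonal] at hx
    by_cases hpx : p ∣ x.2
    · by_cases h0 : x.1 = 0
      · exfalso
        apply npb
        have h1 : x.2 = b + b' := by omega
        rw [h1] at hpx
        exact (Nat.dvd_add_left hpb').mp hpx
      · by_cases hd : b ∣ x.1
        · have hle := Nat.le_of_dvd (Nat.pos_of_ne_zero h0) hd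
          have hlt : x.2 < b' := by
            by_contra hge
            apply hne
            have h1 : x.1 = b := by omega
            have h2 : x.2 = b' := by omega
            exact Prod.ext h1 h2
          have h3 : ¬ p' ∣ x.2 := by
            intro h4
            apply npb'
            have h5 : p' ∣ x.1 + x.2 := dvd_add (hpb.trans hd) h4
            rw [hx] at h5
            exact (Nat.dvd_add_right hpb).mp h5
          have h6 : x.2 ≠ 0 := fun h0 => h3 (h0 ▸ dvd_zero p')
          have h7 : ¬ b' ∣ x.2 := by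
            intro h8
            have := Nat.le_of_dvd (Nat.pos_of_ne_zero h6) h8
            omega
          have h8 : ¬ b ∣ x.2 := by
            intro h9
            apply hbb'
            have h5 : b ∣ x.1 + x.2 := dvd_add hd h9
            rw [hx] at h5
            exact (Nat.dvd_add_right dvd_rfl).mp h5
          have h9 : coeff x.2 w = 0 := by
            rw [hw, map_sub, coeff_nc, (h' _ h3).1, coeff_Cs, coeff_Cs, if_neg h6, if_neg h7,
              if_neg h6, if_neg h8]
            ring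
          rw [h9, mul_zero]
        · rw [coeff_Cs, if_neg h0, if_neg hd, zero_mul]
    · rw [h.w _ hpx, mul_zero]
  · intro hx
    exact absurd (HasAntidiagonal.mem_antidiagonal.mpr (by rfl)) hx

/-- The second case of the dichotomy. -/
lemma caseI {p b p' b' : ℕ} {c c' : ℚ} {u r : PowerSeries ℚ} (h : Rel p b c u r)
    (h' : Rel p' b' c' u r) (hpb' : p ∣ b') (hpb : p' ∣ b) (npb : ¬ p ∣ b) (npb' : ¬ p' ∣ b')
    (hb : 0 < b) (hb' : 0 < b') : c * b' = c' * b := by
  have h1 := coeff_caseI h h' hpb' hpb npb npb' hb hb'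
  have h2 := coeff_caseI h' h hpb hpb' npb' npb hb' hb
  have n1 : ¬ p ∣ b + b' := fun hd => npb ((Nat.dvd_add_left hpb').mp hd)
  have n2 : ¬ p' ∣ b + b' := fun hd => npb' ((Nat.dvd_add_right hpb).mp hd)
  have h3 := (h _ n1).2
  rw [(h' _ n2).2, h1, add_comm b b', h2] at h3
  linarith

/-- The relation of another pair passes to the companion. -/
lemma descend {p p' r : ℕ} {q : ℤ} {K : List (ℕ × ℤ)} (hp : 0 < p) (hp' : 0 < p')
    (hcop : Nat.Coprime p p') (hq : q.natAbs = p' * r)
    (h : Rel p' (p * r) (q.sign / p') (uS ((p, q) :: K)) (rS ((p, q) :: K))) :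
    Rel p' r (q.sign * p / p') (uS K) (rS K) := by
  set b := q.natAbs with hb
  set U := ex p (uS K) with hU
  set V := ex p (Cs r) with hV
  have hVC : V = Cs (p * r) := ex_Cs hp r
  have hu : uS ((p, q) :: K) = (b : PowerSeries ℚ) * Cs b -
      ((p * b : ℕ) : PowerSeries ℚ) * Cs (p * b) + (p : PowerSeries ℚ) * U := rfl
  have hr : rS ((p, q) :: K) = ex p (rS K) + (q.sign : PowerSeries ℚ) * Cs b * U -
      (q.sign : PowerSeries ℚ) * Cs (p * b) * uS ((p, q) :: K) := rfl
  have hpb : p' ∣ b := hq ▸ dvd_mul_right p' r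
  have hpq : (p : ℚ) ≠ 0 := by exact_mod_cast hp.ne'
  have hpq' : (p' : ℚ) ≠ 0 := by exact_mod_cast hp'.ne'
  have npn : ∀ n, ¬ p' ∣ n → ¬ p' ∣ p * n := fun n hn hd =>
    hn (Nat.Coprime.dvd_of_dvd_mul_left hcop.symm hd)
  have sC : Sup p' (Cs b) := sup_Cs hpb
  have sC2 : Sup p' (Cs (p * b)) := sup_Cs (hpb.mul_left p)
  have hu1 : ∀ n, ¬ p' ∣ n → coeff n (uS K) = r * coeff n (Cs r) := by
    intro n hn
    have h1 := (h _ (npn n hn)).1
    rw [hu, map_add, map_sub, coeff_nc, coeff_nc, coeff_nc, sC _ (npn n hn),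
      sC2 _ (npn n hn), ← hVC, hU, hV, coeff_ex_mul hp, coeff_ex_mul hp] at h1
    push_cast at h1
    have h2 : (p : ℚ) * coeff n (uS K) = p * (r * coeff n (Cs r)) := by linarith
    exact mul_left_cancel₀ hpq h2
  have sW : Sup p' (U - (r : PowerSeries ℚ) * V) := by
    have : U - (r : PowerSeries ℚ) * V = ex p (uS K - (r : PowerSeries ℚ) * Cs r) := by
      rw [ex_sub, ex_nc]
    rw [this]
    intro n hn
    rw [coeff_ex]
    split_ifs with hd
    · obtain ⟨m, rfl⟩ := hd
      rw [Nat.mul_div_cancel_left m hp, map_sub, coeff_nc,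
        hu1 m (fun h1 => hn (h1.mul_left p)), sub_self]
    · rfl
  intro n hn
  refine ⟨hu1 n hn, ?_⟩
  have h1 := (h _ (npn n hn)).2
  have e1 : (p' : PowerSeries ℚ) * (Cs b - (p : PowerSeries ℚ) * Cs (p * b)) *
      ((b : PowerSeries ℚ) * Cs (p * b) - (U - (r : PowerSeries ℚ) * V)) =
      (b : PowerSeries ℚ) * (Cs b - (p : PowerSeries ℚ) * Cs (p * b)) * V -
      (p' : PowerSeries ℚ) * ((Cs b - (p : PowerSeries ℚ) * Cs (p * b)) *
        (U - (b : PowerSeries ℚ) * Cs (p * b))) := by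
    have hbc : (b : PowerSeries ℚ) = (p' : PowerSeries ℚ) * (r : PowerSeries ℚ) := by
      rw [hq]; push_cast; ring
    rw [hbc]
    ring
  have s1 : Sup p' ((p' : PowerSeries ℚ) * (Cs b - (p : PowerSeries ℚ) * Cs (p * b)) *
      ((b : PowerSeries ℚ) * Cs (p * b) - (U - (r : PowerSeries ℚ) * V))) :=
    ((sC.sub (sC2.nc p)).nc p').mul ((sC2.nc b).sub sW)
  have e2 : (p' : PowerSeries ℚ) * rS ((p, q) :: K) -
      (q.sign : PowerSeries ℚ) * (Cs (p * r) * (uS ((p, q) :: K) -
        ((p * r : ℕ) : PowerSeries ℚ) * Cs (p * r))) =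
      (p' : PowerSeries ℚ) * ex p (rS K) -
      (q.sign : PowerSeries ℚ) * ((p : PowerSeries ℚ) * (V * (U - (r : PowerSeries ℚ) * V))) -
      (q.sign : PowerSeries ℚ) * ((p' : PowerSeries ℚ) *
        (Cs b - (p : PowerSeries ℚ) * Cs (p * b)) *
        ((b : PowerSeries ℚ) * Cs (p * b) - (U - (r : PowerSeries ℚ) * V))) := by
    rw [e1, hr, hu, ← hVC]
    push_cast
    ring
  have e3 := congrArg (coeff (p * n)) e2
  have hVW : coeff (p * n) (V * (U - (r : PowerSeries ℚ) * V)) =
      coeff n (Cs r * (uS K - (r : PowerSeries ℚ) * Cs r)) := by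
    rw [← ex_mul hp (Cs r) (uS K - (r : PowerSeries ℚ) * Cs r) n, ex_sub, ex_nc]
  simp only [map_sub] at e3
  rw [coeff_nc, coeff_ic, coeff_nc, coeff_ic, coeff_nc, coeff_ic, s1 _ (npn n hn), hVW,
    coeff_ex_mul hp, h1] at e3
  have e4 : (p' : ℚ) * (q.sign / p' * coeff (p * n) (Cs (p * r) * (uS ((p, q) :: K) -
      ((p * r : ℕ) : PowerSeries ℚ) * Cs (p * r)))) = q.sign * coeff (p * n) (Cs (p * r) *
      (uS ((p, q) :: K) - ((p * r : ℕ) : PowerSeries ℚ) * Cs (p * r))) := by
    field_simp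
  rw [e4] at e3
  field_simp
  linarith

lemma coeff_zero_uS_cons {p : ℕ} {q : ℤ} {K : List (ℕ × ℤ)} (hp : 0 < p) :
    coeff 0 (uS ((p, q) :: K)) = q.natAbs * (p - 1) + p * coeff 0 (uS K) := by
  have hu : uS ((p, q) :: K) = (q.natAbs : PowerSeries ℚ) * Cs q.natAbs -
      ((p * q.natAbs : ℕ) : PowerSeries ℚ) * Cs (p * q.natAbs) +
        (p : PowerSeries ℚ) * ex p (uS K) := rfl
  have h1 := coeff_ex_mul hp (uS K) 0
  rw [mul_zero] at h1
  rw [hu, map_add, map_sub, coeff_nc, coeff_nc, coeff_nc, h1, coeff_Cs, coeff_Cs, if_pos rfl,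
    if_pos rfl]
  push_cast
  ring

lemma coeff_zero_nil : coeff 0 (uS []) = -1 := by
  change coeff 0 (Cs 1) = -1
  rw [coeff_Cs, if_pos rfl]

lemma coeff_zero_pos {D : List (ℕ × ℤ)} (hD : Nml D) (hne : D ≠ []) : 0 < coeff 0 (uS D) := by
  induction D with
  | nil => exact absurd rfl hne
  | cons x K ih =>
    obtain ⟨p, q⟩ := x
    have h2 := nml_two_le hD
    have hq := nml_pos hD
    rw [coeff_zero_uS_cons (by omega)]
    have h2' : (2 : ℚ) ≤ p := by exact_mod_cast h2
    have hq' : (0 : ℚ) < q.natAbs := by exact_mod_cast hq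
    rcases K with _ | ⟨y, K⟩
    · rw [coeff_zero_nil]
      have h3 : p < q.natAbs := hD.2.2
      have h3' : (p : ℚ) + 1 ≤ q.natAbs := by exact_mod_cast h3
      nlinarith
    · have h3 := ih (nml_tail hD) (by simp)
      have h4 : (0 : ℚ) < p * coeff 0 (uS (y :: K)) := by positivity
      have h5 : (0 : ℚ) < q.natAbs * (p - 1) := mul_pos hq' (by linarith)
      linarith

lemma sign_sq {q : ℤ} (hq : 0 < q.natAbs) : q.sign = 1 ∨ q.sign = -1 := by
  have h0 : q ≠ 0 := by
    rintro rfl
    simp at hq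
  rcases lt_or_gt_of_ne h0 with h | h
  · exact Or.inr (Int.sign_eq_neg_one_of_neg h)
  · exact Or.inl (Int.sign_eq_one_of_pos h)

/-- Two signed positive rationals are equal only if the absolute values are equal. -/
lemma sign_eq {s t : ℤ} (hs : s = 1 ∨ s = -1) (ht : t = 1 ∨ t = -1) {x y : ℚ} (hx : 0 < x)
    (hy : 0 < y) (h : (s : ℚ) * x = t * y) : s = t ∧ x = y := by
  rcases hs with rfl | rfl <;> rcases ht with rfl | rfl
  · exact ⟨rfl, by push_cast at h; linarith⟩
  · exfalso; push_cast at h; linarith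
  · exfalso; push_cast at h; linarith
  · exact ⟨rfl, by push_cast at h; linarith⟩

/-- In the second case the companion is trivial. -/
lemma companion {p p' r : ℕ} {q : ℤ} {K : List (ℕ × ℤ)} (hN : Nml ((p, q) :: K))
    (hp' : 2 ≤ p') (hr : 0 < r) (h1 : Nat.Coprime p p') (h2 : Nat.Coprime p r)
    (h3 : Nat.Coprime p' r) (hq : q.natAbs = p' * r)
    (h : Rel p' (p * r) (q.sign / p') (uS ((p, q) :: K)) (rS ((p, q) :: K))) :
    K = [] ∧ r = 1 := by
  have hp := nml_two_le hN
  have hd := descend (by omega) (by omega) h1 hq h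
  have hpQ : (0 : ℚ) < p := by exact_mod_cast (by omega : 0 < p)
  have hpQ' : (0 : ℚ) < p' := by exact_mod_cast (by omega : 0 < p')
  have hrQ : (0 : ℚ) < r := by exact_mod_cast hr
  have hsq := sign_sq (nml_pos hN)
  rcases K with _ | ⟨⟨p2, q2⟩, K2⟩
  · refine ⟨rfl, ?_⟩
    have h4 : ¬ p' ∣ 1 := fun h => by
      have := Nat.le_of_dvd one_pos h
      omega
    have h5 := (hd 1 h4).1
    change coeff 1 (Cs 1) = _ at h5
    rw [coeff_Cs, coeff_Cs, if_neg one_ne_zero, if_pos (one_dvd _), if_neg one_ne_zero] at h5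
    by_cases h6 : r ∣ 1
    · exact Nat.dvd_one.mp h6
    · rw [if_neg h6] at h5
      norm_num at h5
  · exfalso
    have hN2 := nml_tail hN
    have hp2 := nml_two_le hN2
    have hc2 := nml_cop hN2
    have hb2 := nml_pos hN2
    have hown := own (q := q2) (K := K2) (show 0 < p2 by omega)
    have hpQ2 : (0 : ℚ) < p2 := by exact_mod_cast (by omega : 0 < p2)
    have hbQ2 : (0 : ℚ) < q2.natAbs := by exact_mod_cast hb2
    have hsq2 := sign_sq hb2
    rcases dich hown hd hp2 hp' hc2 h3 hb2 hr with ⟨e, n1, n2⟩ | ⟨d1, d2⟩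
    · rw [← e] at hd
      have h4 : (q2.sign : ℚ) / p2 = q.sign * p / p' := by
        refine caseII hown hd n1 n2 hb2 ?_
        have := coeff_zero_pos hN2 (by simp)
        linarith
      have h5 : (q2.sign : ℚ) * (1 / p2) = q.sign * (p / p') := by
        rw [mul_one_div, h4, mul_div_assoc]
      have h6 := (sign_eq hsq2 hsq (by positivity) (by positivity) h5).2
      have h7 : (p' : ℚ) = p * p2 := by
        field_simp at h6
        linarith
      have h8 : p' = p * p2 := by exact_mod_cast h7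
      have h9 : p ∣ p' := h8 ▸ dvd_mul_right p p2
      have := Nat.Coprime.eq_one_of_dvd h1 h9
      omega
    · have n1 : ¬ p2 ∣ q2.natAbs := fun hd => by
        have := Nat.Coprime.eq_one_of_dvd hc2 hd
        omega
      have n2 : ¬ p' ∣ r := fun hd => by
        have := Nat.Coprime.eq_one_of_dvd h3 hd
        omega
      have h4 := caseI hown hd d2 d1 n1 n2 hb2 hr
      have h5 : (q2.sign : ℚ) * (r / p2) = q.sign * (p * q2.natAbs / p') := by
        have e1 : (q2.sign : ℚ) * (r / p2) = q2.sign / p2 * r := by ring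
        have e2 : (q.sign : ℚ) * (p * q2.natAbs / p') = q.sign * p / p' * q2.natAbs := by ring
        rw [e1, e2, h4]
      have h6 := (sign_eq hsq2 hsq (by positivity) (by positivity) h5).2
      have h7 : (r : ℚ) * p' = p * (p2 * q2.natAbs) := by
        field_simp at h6
        linarith
      have h8 : r * p' = p * (p2 * q2.natAbs) := by exact_mod_cast h7
      have h9 : p ∣ r * p' := h8 ▸ dvd_mul_right p _
      have := Nat.Coprime.eq_one_of_dvd (Nat.Coprime.mul_right h2 h1) h9
      omega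

/-- The two outermost pairs are equal. -/
lemma outer {p p' : ℕ} {q q' : ℤ} {K K' : List (ℕ × ℤ)} (hN : Nml ((p, q) :: K))
    (hN' : Nml ((p', q') :: K')) (hu : uS ((p, q) :: K) = uS ((p', q') :: K'))
    (hr : ∀ n, n ≠ 0 → coeff n (rS ((p, q) :: K)) = coeff n (rS ((p', q') :: K'))) :
    p = p' ∧ q = q' := by
  have hp := nml_two_le hN
  have hp' := nml_two_le hN'
  have hc := nml_cop hN
  have hc' := nml_cop hN'
  have hb := nml_pos hN
  have hb' := nml_pos hN'
  have hs := sign_sq hb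
  have hs' := sign_sq hb'
  have hpQ : (0 : ℚ) < p := by exact_mod_cast (by omega : 0 < p)
  have hpQ' : (0 : ℚ) < p' := by exact_mod_cast (by omega : 0 < p')
  have h1 := own (q := q) (K := K) (show 0 < p by omega)
  have h2' := own (q := q') (K := K') (show 0 < p' by omega)
  have h2 : Rel p' q'.natAbs (q'.sign / p') (uS ((p, q) :: K)) (rS ((p, q) :: K)) := by
    intro n hn
    rw [hu, hr n (fun h0 => hn (h0 ▸ dvd_zero p'))]
    exact h2' n hn
  have h1' : Rel p q.natAbs (q.sign / p) (uS ((p', q') :: K')) (rS ((p', q') :: K')) := by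
    intro n hn
    rw [← hu, ← hr n (fun h0 => hn (h0 ▸ dvd_zero p))]
    exact h1 n hn
  rcases dich h1 h2 hp hp' hc hc' hb hb' with ⟨e, n1, n2⟩ | ⟨d1, d2⟩
  · rw [← e] at h2
    have h4 : (q.sign : ℚ) / p = q'.sign / p' := by
      refine caseII h1 h2 n1 n2 hb ?_
      have := coeff_zero_pos hN (by simp)
      have hbQ : (0 : ℚ) < q.natAbs := by exact_mod_cast hb
      linarith
    have h5 : (q.sign : ℚ) * (1 / p) = q'.sign * (1 / p') := by
      rw [mul_one_div, h4, mul_one_div]
    obtain ⟨h6, h7⟩ := sign_eq hs hs' (by positivity) (by positivity) h5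
    have h8 : (p : ℚ) = p' := by
      field_simp at h7
      linarith
    refine ⟨by exact_mod_cast h8, ?_⟩
    rw [← Int.sign_mul_natAbs q, ← Int.sign_mul_natAbs q', h6, e]
  · exfalso
    have n1 : ¬ p ∣ q.natAbs := fun hd => by
      have := Nat.Coprime.eq_one_of_dvd hc hd
      omega
    have n2 : ¬ p' ∣ q'.natAbs := fun hd => by
      have := Nat.Coprime.eq_one_of_dvd hc' hd
      omega
    have h4 := caseI h1 h2 d2 d1 n1 n2 hb hb'
    have hbQ : (0 : ℚ) < q.natAbs := by exact_mod_cast hb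
    have hbQ' : (0 : ℚ) < q'.natAbs := by exact_mod_cast hb'
    have h5 : (q.sign : ℚ) * (q'.natAbs / p) = q'.sign * (q.natAbs / p') := by
      have e1 : (q.sign : ℚ) * (q'.natAbs / p) = q.sign / p * q'.natAbs := by ring
      have e2 : (q'.sign : ℚ) * (q.natAbs / p') = q'.sign / p' * q.natAbs := by ring
      rw [e1, e2, h4]
    obtain ⟨h6, h7⟩ := sign_eq hs hs' (by positivity) (by positivity) h5
    obtain ⟨r, hqr⟩ := d1
    obtain ⟨r', hqr'⟩ := d2
    have h8 : (p' : ℚ) * q'.natAbs = p * q.natAbs := by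
      field_simp at h7
      linarith
    have h9 : p' * q'.natAbs = p * q.natAbs := by exact_mod_cast h8
    have hrr : r' = r := by
      rw [hqr, hqr'] at h9
      have h10 : (p * p') * r' = (p * p') * r := by
        calc (p * p') * r' = p' * (p * r') := by ring
          _ = p * (p' * r) := h9
          _ = (p * p') * r := by ring
      exact Nat.eq_of_mul_eq_mul_left (Nat.mul_pos (by omega) (by omega)) h10
    subst hrr
    have hr0 : 0 < r' := by
      rcases Nat.eq_zero_or_pos r' with h0 | h0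
      · rw [h0, mul_zero] at hqr
        omega
      · exact h0
    have c1 : Nat.Coprime p p' := Nat.Coprime.coprime_mul_right_right (hqr ▸ hc)
    have c2 : Nat.Coprime p r' := Nat.Coprime.coprime_mul_left_right (hqr ▸ hc)
    have c3 : Nat.Coprime p' r' := Nat.Coprime.coprime_mul_left_right (hqr' ▸ hc')
    obtain ⟨k1, k2⟩ := companion hN hp' hr0 c1 c2 c3 hqr (by rw [hqr', ← h6] at h2; exact h2)
    obtain ⟨k3, k4⟩ := companion hN' hp hr0 c1.symm c3 c2 hqr'
      (by rw [hqr, h6] at h1'; exact h1')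
    subst k1
    subst k3
    have l1 : p < q.natAbs := hN.2.2
    have l2 : p' < q'.natAbs := hN'.2.2
    rw [hqr, k2] at l1
    rw [hqr', k2] at l2
    omega

lemma ex_inj {p : ℕ} (hp : 0 < p) {f g : PowerSeries ℚ} (h : ex p f = ex p g) : f = g := by
  ext n
  rw [← coeff_ex_mul hp f n, h, coeff_ex_mul hp]

/-- **Injectivity**, with the second series known up to its constant term. -/
theorem inj_of_coeff (D D' : List (ℕ × ℤ)) (hD : Nml D) (hD' : Nml D')
    (hu : uS D = uS D') (hr : ∀ n, n ≠ 0 → coeff n (rS D) = coeff n (rS D')) : D = D' := by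
  induction D generalizing D' with
  | nil =>
    rcases D' with _ | ⟨x, K'⟩
    · rfl
    · exfalso
      have h1 := coeff_zero_pos hD' (by simp)
      rw [← hu, coeff_zero_nil] at h1
      linarith
  | cons x K ih =>
    rcases D' with _ | ⟨x', K'⟩
    · exfalso
      have h1 := coeff_zero_pos hD (by simp)
      rw [hu, coeff_zero_nil] at h1
      linarith
    · obtain ⟨p, q⟩ := x
      obtain ⟨p', q'⟩ := x'
      obtain ⟨rfl, rfl⟩ := outer hD hD' hu hr
      have hp : 0 < p := by
        have := nml_two_le hD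
        omega
      have e1 : uS K = uS K' := by
        apply ex_inj hp
        have h1 : uS ((p, q) :: K) = (q.natAbs : PowerSeries ℚ) * Cs q.natAbs -
          ((p * q.natAbs : ℕ) : PowerSeries ℚ) * Cs (p * q.natAbs) +
            (p : PowerSeries ℚ) * ex p (uS K) := rfl
        have h2 : uS ((p, q) :: K') = (q.natAbs : PowerSeries ℚ) * Cs q.natAbs -
          ((p * q.natAbs : ℕ) : PowerSeries ℚ) * Cs (p * q.natAbs) +
            (p : PowerSeries ℚ) * ex p (uS K') := rfl
        rw [h1, h2] at hu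
        have h3 : (p : PowerSeries ℚ) * ex p (uS K) = (p : PowerSeries ℚ) * ex p (uS K') :=
          add_left_cancel hu
        ext n
        have h4 := congrArg (coeff n) h3
        rw [coeff_nc, coeff_nc] at h4
        exact mul_left_cancel₀ (by exact_mod_cast hp.ne') h4
      have e2 : ∀ n, n ≠ 0 → coeff n (rS K) = coeff n (rS K') := by
        intro n hn
        have h1 : rS ((p, q) :: K) = ex p (rS K) + (q.sign : PowerSeries ℚ) * Cs q.natAbs *
          ex p (uS K) - (q.sign : PowerSeries ℚ) * Cs (p * q.natAbs) * uS ((p, q) :: K) := rfl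
        have h2 : rS ((p, q) :: K') = ex p (rS K') + (q.sign : PowerSeries ℚ) * Cs q.natAbs *
          ex p (uS K') - (q.sign : PowerSeries ℚ) * Cs (p * q.natAbs) * uS ((p, q) :: K') := rfl
        have h3 := hr (p * n) (Nat.mul_ne_zero hp.ne' hn)
        rw [h1, h2, hu, e1, map_sub, map_add, map_sub, map_add, coeff_ex_mul hp,
          coeff_ex_mul hp] at h3
        linarith
      rw [ih K' (nml_tail hD) (nml_tail hD') e1 e2]

end Inj

/-- **Injectivity** (module INJ). -/
theorem inj : INJ_Stmt := fun D D' hD hD' hu hr =>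
  Inj.inj_of_coeff D D' hD hD' hu fun n _ => by rw [hr]

end Pool.Agent.IT
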