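import Pool.Agent.IT.Stmts

/-!
# Iterated torus knots: module ALGC

The trace of a matrix of finite order over the fraction field of `ℚ⟦X⟧`, if it is integral, is
constant.
-/

namespace Pool.Agent.IT
open PowerSeries

namespace ALGC

/-- A power series that is integral over `ℚ` is constant. -/
theorem integral_constant (f : ℚ⟦X⟧) (h : IsIntegral ℚ f) : f = C (constantCoeff f) := by
  set g : ℚ⟦X⟧ := f - C (constantCoeff f) with hg
  have hgc : constantCoeff g = 0 := by simp [hg]
  have hgi : IsIntegral ℚ g := by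
    refine h.sub ?_
    have : (C (constantCoeff f) : ℚ⟦X⟧) = algebraMap ℚ ℚ⟦X⟧ (constantCoeff f) := by
      rw [PowerSeries.algebraMap_apply]
      simp
    rw [this]
    exact isIntegral_algebraMap
  by_contra hne
  have hg0 : g ≠ 0 := fun h0 => hne (sub_eq_zero.1 h0)
  have hco : (minpoly ℚ g).coeff 0 ≠ 0 := minpoly.coeff_zero_ne_zero hgi hg0
  apply hco
  have h1 : Polynomial.aeval g (minpoly ℚ g) = 0 := minpoly.aeval ℚ g
  have h2 := congrArg (constantCoeff (R := ℚ)) h1
  rw [Polynomial.aeval_def, Polynomial.hom_eval₂, map_zero, hgc] at h2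
  rw [Polynomial.eval₂_at_zero] at h2
  simpa using h2

/-- The trace of a matrix of finite order over an algebraically closed field is a sum of roots of
unity. -/
theorem trace_integral {L : Type} [Field L] [IsAlgClosed L] [Algebra ℚ L] {m p : ℕ} (hp : 1 ≤ p)
    (Y : Matrix (Fin m) (Fin m) L) (hY : Y ^ p = 1) : IsIntegral ℚ Y.trace := by
  rw [Matrix.trace_eq_sum_roots_charpoly]
  refine IsIntegral.multiset_sum fun μ hμ => ?_
  have h1 : Y.charpoly.IsRoot μ := (Polynomial.mem_roots'.1 hμ).2
  have h2 : Module.End.HasEigenvalue (Matrix.toLin' Y) μ := by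
    rw [Module.End.hasEigenvalue_iff_isRoot_charpoly]
    rwa [Matrix.charpoly_toLin']
  obtain ⟨v, hv⟩ := h2.exists_hasEigenvector
  have h3 : μ ^ p = 1 := by
    have e1 := hv.pow_apply p
    have e2 : (Matrix.toLin' Y) ^ p = 1 := by
      rw [← Matrix.toLin'_pow, hY]
      exact Matrix.toLin'_one
    rw [e2] at e1
    have e3 : (1 - μ ^ p) • v = 0 := by
      rw [sub_smul, one_smul, ← e1]
      simp
    rcases smul_eq_zero.1 e3 with h | h
    · exact (sub_eq_zero.1 h).symm
    · exact absurd h hv.2
  refine IsIntegral.of_pow (n := p) (by omega) ?_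
  rw [h3]
  exact isIntegral_one

end ALGC

theorem algc : ALGC_Stmt := by
  intro m p Y hp hY f hf
  refine ALGC.integral_constant f ?_
  let L := AlgebraicClosure KQ
  let φ : KQ →+* L := algebraMap KQ L
  have h1 : (Y.map φ) ^ p = 1 := by
    have e := congrArg (φ.mapMatrix (m := Fin m)) hY
    rw [map_pow, map_one] at e
    exact e
  have h2 := ALGC.trace_integral hp (Y.map φ) h1
  have h3 : (Y.map φ).trace = φ (toK f) := by
    rw [hf]
    exact (AddMonoidHom.map_trace (φ : KQ →+ L) Y).symm
  rw [h3] at h2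
  let ψ : ℚ⟦X⟧ →ₐ[ℚ] L := (φ.comp toK).toRatAlgHom
  have hψ : Function.Injective ψ :=
    φ.injective.comp (IsFractionRing.injective ℚ⟦X⟧ KQ)
  exact (isIntegral_algHom_iff ψ hψ).1 h2

end Pool.Agent.IT
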