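import Pool.Agent.IT.Stmts

/-!
# Iterated torus knots, module ATP: matrices acting at one or two positions
-/

namespace Pool.Agent.IT
open Pool.Agent.LibH11
open scoped BigOperators

namespace ATP

variable {A : Type} [CommRing A] {ι : Type} [Fintype ι] [DecidableEq ι] {P : Type} [Fintype P]
  [DecidableEq P]

/-- the function with the values `p` at `x` and `y` -/
def u2 (s : P → ι) (x y : P) (p : ι × ι) : P → ι :=
  Function.update (Function.update s x p.1) y p.2

omit [Fintype ι] [DecidableEq ι] [Fintype P] in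
theorem u2_x (s : P → ι) {x y : P} (h : x ≠ y) (p : ι × ι) : u2 s x y p x = p.1 := by
  unfold u2
  rw [Function.update_of_ne h, Function.update_self]

omit [Fintype ι] [DecidableEq ι] [Fintype P] in
theorem u2_y (s : P → ι) (x y : P) (p : ι × ι) : u2 s x y p y = p.2 := by
  unfold u2
  rw [Function.update_self]

omit [Fintype ι] [DecidableEq ι] [Fintype P] in
theorem u2_of (s : P → ι) {x y z : P} (h : z ≠ x) (h' : z ≠ y) (p : ι × ι) :
    u2 s x y p z = s z := by
  unfold u2
  rw [Function.update_of_ne h', Function.update_of_ne h]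

omit [CommRing A] [Fintype ι] [DecidableEq ι] [Fintype P] [DecidableEq P] in
theorem atp_pos [CommRing A] (R : Matrix (ι × ι) (ι × ι) A) (x y : P) {s t : P → ι}
    (h : ∀ z, z ≠ x → z ≠ y → s z = t z) : atp R x y s t = R (s x, s y) (t x, t y) := by
  unfold atp
  rw [if_pos h]

omit [Fintype ι] [DecidableEq ι] [Fintype P] [DecidableEq P] in
theorem atp_neg (R : Matrix (ι × ι) (ι × ι) A) (x y : P) {s t : P → ι}
    (h : ¬ ∀ z, z ≠ x → z ≠ y → s z = t z) : atp R x y s t = 0 := by
  unfold atp
  rw [if_neg h]

omit [Fintype ι] [DecidableEq ι] [Fintype P] [DecidableEq P] in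
theorem at1_pos (X : Matrix ι ι A) (x : P) {s t : P → ι}
    (h : ∀ z, z ≠ x → s z = t z) : at1 X x s t = X (s x) (t x) := by
  unfold at1
  rw [if_pos h]

omit [Fintype ι] [DecidableEq ι] [Fintype P] [DecidableEq P] in
theorem at1_neg (X : Matrix ι ι A) (x : P) {s t : P → ι}
    (h : ¬ ∀ z, z ≠ x → s z = t z) : at1 X x s t = 0 := by
  unfold at1
  rw [if_neg h]

theorem atp_mul (R : Matrix (ι × ι) (ι × ι) A) {x y : P} (hxy : x ≠ y)
    (M : Matrix (P → ι) (P → ι) A) (s t : P → ι) :
    (atp R x y * M) s t = ∑ p : ι × ι, R (s x, s y) p * M (u2 s x y p) t := by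
  rw [Matrix.mul_apply]
  symm
  refine Finset.sum_of_injOn (fun p => u2 s x y p) ?_ ?_ ?_ ?_
  · intro p _ p' _ h
    have h1 := congrFun h x
    have h2 := congrFun h y
    simp only [u2_x s hxy, u2_y] at h1 h2
    exact Prod.ext h1 h2
  · intro p _
    simp
  · intro u _ hu
    rw [atp_neg, zero_mul]
    intro h
    apply hu
    refine ⟨(u x, u y), by simp, ?_⟩
    funext z
    simp only
    by_cases hzy : z = y
    · subst hzy
      exact u2_y s x z _
    · by_cases hzx : z = x
      · subst hzx
        exact u2_x s hzy _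
      · rw [u2_of s hzx hzy]
        exact h z hzx hzy
  · intro p _
    rw [atp_pos R x y (fun z hz hz' => (u2_of s hz hz' p).symm), u2_x s hxy, u2_y]

theorem at1_mul (X : Matrix ι ι A) (x : P) (M : Matrix (P → ι) (P → ι) A) (s t : P → ι) :
    (at1 X x * M) s t = ∑ a : ι, X (s x) a * M (Function.update s x a) t := by
  rw [Matrix.mul_apply]
  symm
  refine Finset.sum_of_injOn (fun a => Function.update s x a) ?_ ?_ ?_ ?_
  · intro a _ a' _ h
    have h1 := congrFun h x
    simpa using h1
  · intro a _
    simp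
  · intro u _ hu
    rw [at1_neg, zero_mul]
    intro h
    apply hu
    refine ⟨u x, by simp, ?_⟩
    funext z
    by_cases hzx : z = x
    · subst hzx
      simp
    · simp only [Function.update_of_ne hzx]
      exact h z hzx
  · intro a _
    rw [at1_pos X x (fun z hz => (Function.update_of_ne hz a s).symm), Function.update_self]

theorem mul1 (R S : Matrix (ι × ι) (ι × ι) A) {x y : P} (hxy : x ≠ y) :
    atp (R * S) x y = atp R x y * atp S x y := by
  ext s t
  rw [atp_mul R hxy]
  by_cases h : ∀ z, z ≠ x → z ≠ y → s z = t z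
  · rw [atp_pos _ x y h, Matrix.mul_apply]
    refine Finset.sum_congr rfl fun p _ => ?_
    rw [atp_pos S x y, u2_x s hxy, u2_y]
    intro z hz hz'
    rw [u2_of s hz hz']
    exact h z hz hz'
  · rw [atp_neg _ x y h]
    symm
    refine Finset.sum_eq_zero fun p _ => ?_
    rw [atp_neg S x y, mul_zero]
    intro h'
    apply h
    intro z hz hz'
    have := h' z hz hz'
    rwa [u2_of s hz hz'] at this

theorem one1 (x y : P) : atp (1 : Matrix (ι × ι) (ι × ι) A) x y = 1 := by
  classical
  ext s t
  by_cases h : ∀ z, z ≠ x → z ≠ y → s z = t z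
  · rw [atp_pos _ x y h, Matrix.one_apply, Matrix.one_apply]
    congr 1
    rw [Prod.mk.injEq, eq_iff_iff]
    constructor
    · rintro ⟨h1, h2⟩
      funext z
      by_cases hzx : z = x
      · rw [hzx]
        exact h1
      · by_cases hzy : z = y
        · rw [hzy]
          exact h2
        · exact h z hzx hzy
    · rintro rfl
      exact ⟨rfl, rfl⟩
  · rw [atp_neg _ x y h, Matrix.one_apply, if_neg]
    rintro rfl
    exact h fun _ _ _ => rfl

theorem mul2 (X Y : Matrix ι ι A) (x : P) : at1 (X * Y) x = at1 X x * at1 Y x := by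
  ext s t
  rw [at1_mul X x]
  by_cases h : ∀ z, z ≠ x → s z = t z
  · rw [at1_pos _ x h, Matrix.mul_apply]
    refine Finset.sum_congr rfl fun a _ => ?_
    rw [at1_pos Y x, Function.update_self]
    intro z hz
    rw [Function.update_of_ne hz]
    exact h z hz
  · rw [at1_neg _ x h]
    symm
    refine Finset.sum_eq_zero fun a _ => ?_
    rw [at1_neg Y x, mul_zero]
    intro h'
    apply h
    intro z hz
    have := h' z hz
    rwa [Function.update_of_ne hz] at this

theorem one2 (x : P) : at1 (1 : Matrix ι ι A) x = 1 := by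
  classical
  ext s t
  by_cases h : ∀ z, z ≠ x → s z = t z
  · rw [at1_pos _ x h, Matrix.one_apply, Matrix.one_apply]
    congr 1
    rw [eq_iff_iff]
    constructor
    · intro h1
      funext z
      by_cases hzx : z = x
      · rw [hzx]
        exact h1
      · exact h z hzx
    · rintro rfl
      rfl
  · rw [at1_neg _ x h, Matrix.one_apply, if_neg]
    rintro rfl
    exact h fun _ _ => rfl

theorem far_apply (R S : Matrix (ι × ι) (ι × ι) A) {x y z w : P} (hxy : x ≠ y) (hxz : x ≠ z)
    (hxw : x ≠ w) (hyz : y ≠ z) (hyw : y ≠ w) (s t : P → ι)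
    (C : Prop) [Decidable C] (hC : C ↔ ∀ v, v ≠ x → v ≠ y → v ≠ z → v ≠ w → s v = t v) :
    (atp R x y * atp S z w) s t =
      if C then R (s x, s y) (t x, t y) * S (s z, s w) (t z, t w) else 0 := by
  rw [atp_mul R hxy]
  by_cases h : C
  · rw [if_pos h, Finset.sum_eq_single (t x, t y)]
    · rw [atp_pos S z w, u2_of s hxz.symm hyz.symm, u2_of s hxw.symm hyw.symm]
      intro v hv hv'
      by_cases hvx : v = x
      · rw [hvx, u2_x s hxy]
      · by_cases hvy : v = y
        · rw [hvy, u2_y]
        · rw [u2_of s hvx hvy]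
          exact hC.1 h v hvx hvy hv hv'
    · intro p _ hp
      rw [atp_neg S z w, mul_zero]
      intro h'
      apply hp
      have h1 := h' x hxz hxw
      have h2 := h' y hyz hyw
      rw [u2_x s hxy] at h1
      rw [u2_y] at h2
      exact Prod.ext h1 h2
    · intro h'
      exact absurd (Finset.mem_univ _) h'
  · rw [if_neg h]
    refine Finset.sum_eq_zero fun p _ => ?_
    rw [atp_neg S z w, mul_zero]
    intro h'
    apply h
    rw [hC]
    intro v hvx hvy hvz hvw
    have := h' v hvz hvw
    rwa [u2_of s hvx hvy] at this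

theorem far (R S : Matrix (ι × ι) (ι × ι) A) {x y z w : P} (hxy : x ≠ y) (hxz : x ≠ z)
    (hxw : x ≠ w) (hyz : y ≠ z) (hyw : y ≠ w) (hzw : z ≠ w) :
    Commute (atp R x y) (atp S z w) := by
  classical
  rw [commute_iff_eq]
  ext s t
  rw [far_apply R S hxy hxz hxw hyz hyw s t
      (∀ v, v ≠ x → v ≠ y → v ≠ z → v ≠ w → s v = t v) Iff.rfl,
    far_apply S R hzw hxz.symm hyz.symm hxw.symm hyw.symm s t
      (∀ v, v ≠ x → v ≠ y → v ≠ z → v ≠ w → s v = t v)
      ⟨fun h v h1 h2 h3 h4 => h v h3 h4 h1 h2, fun h v h1 h2 h3 h4 => h v h3 h4 h1 h2⟩,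
    mul_comm]

theorem far1 (X : Matrix ι ι A) (R : Matrix (ι × ι) (ι × ι) A) {x y z : P} (hxy : x ≠ y)
    (hzx : z ≠ x) (hzy : z ≠ y) : Commute (at1 X z) (atp R x y) := by
  classical
  rw [commute_iff_eq]
  ext s t
  rw [at1_mul X z, atp_mul R hxy]
  by_cases h : ∀ v, v ≠ x → v ≠ y → v ≠ z → s v = t v
  · rw [Finset.sum_eq_single (t z), Finset.sum_eq_single (t x, t y)]
    · rw [at1_pos X z, atp_pos R x y, u2_of s hzx hzy, Function.update_of_ne hzx.symm,
        Function.update_of_ne hzy.symm, mul_comm]
      · intro v hv hv'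
        by_cases hvz : v = z
        · rw [hvz, Function.update_self]
        · rw [Function.update_of_ne hvz]
          exact h v hv hv' hvz
      · intro v hv
        by_cases hvx : v = x
        · rw [hvx, u2_x s hxy]
        · by_cases hvy : v = y
          · rw [hvy, u2_y]
          · rw [u2_of s hvx hvy]
            exact h v hvx hvy hv
    · intro p _ hp
      rw [at1_neg X z, mul_zero]
      intro h'
      apply hp
      have h1 := h' x hzx.symm
      have h2 := h' y hzy.symm
      rw [u2_x s hxy] at h1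
      rw [u2_y] at h2
      exact Prod.ext h1 h2
    · intro h'
      exact absurd (Finset.mem_univ _) h'
    · intro a _ ha
      rw [atp_neg R x y, mul_zero]
      intro h'
      apply ha
      have h1 := h' z hzx hzy
      rwa [Function.update_self] at h1
    · intro h'
      exact absurd (Finset.mem_univ _) h'
  · rw [Finset.sum_eq_zero, Finset.sum_eq_zero]
    · intro p _
      rw [at1_neg X z, mul_zero]
      intro h'
      apply h
      intro v hvx hvy hvz
      have := h' v hvz
      rwa [u2_of s hvx hvy] at this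
    · intro a _
      rw [atp_neg R x y, mul_zero]
      intro h'
      apply h
      intro v hvx hvy hvz
      have := h' v hvx hvy
      rwa [Function.update_of_ne hvz] at this

/-- the left side of the braid relation -/
theorem left_apply (R : Matrix (ι × ι) (ι × ι) A) {x y z : P} (hxy : x ≠ y) (hxz : x ≠ z)
    (hyz : y ≠ z) (s t : P → ι) (C : Prop) [Decidable C]
    (hC : C ↔ ∀ v, v ≠ x → v ≠ y → v ≠ z → s v = t v) :
    (atp R x y * atp R y z * atp R x y) s t = if C then
      ∑ a, ∑ b, ∑ c, R (s x, s y) (a, b) * R (b, s z) (c, t z) * R (a, c) (t x, t y) else 0 := by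
  rw [mul_assoc, atp_mul R hxy]
  have h1 : ∀ p : ι × ι, (atp R y z * atp R x y) (u2 s x y p) t = if C then
      ∑ c, R (p.2, s z) (c, t z) * R (p.1, c) (t x, t y) else 0 := by
    intro p
    rw [atp_mul R hyz, u2_y, u2_of s hxz.symm hyz.symm]
    by_cases h : C
    · rw [if_pos h, Fintype.sum_prod_type]
      refine Finset.sum_congr rfl fun c _ => ?_
      rw [Finset.sum_eq_single (t z)]
      · rw [atp_pos R x y, u2_of _ hxy hxz, u2_x _ hyz, u2_x s hxy]
        intro v hv hv'
        by_cases hvz : v = z
        · rw [hvz, u2_y]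
        · rw [u2_of _ hv' hvz, u2_of s hv hv']
          exact hC.1 h v hv hv' hvz
      · intro d _ hd
        rw [atp_neg R x y, mul_zero]
        intro h'
        apply hd
        have h2 := h' z hxz.symm hyz.symm
        rwa [u2_y] at h2
      · intro h'
        exact absurd (Finset.mem_univ _) h'
    · rw [if_neg h]
      refine Finset.sum_eq_zero fun q _ => ?_
      rw [atp_neg R x y, mul_zero]
      intro h'
      apply h
      rw [hC]
      intro v hvx hvy hvz
      have := h' v hvx hvy
      rwa [u2_of _ hvy hvz, u2_of s hvx hvy] at this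
  simp only [h1]
  by_cases h : C
  · simp only [if_pos h]
    rw [Fintype.sum_prod_type]
    refine Finset.sum_congr rfl fun a _ => Finset.sum_congr rfl fun b _ => ?_
    rw [Finset.mul_sum]
    exact Finset.sum_congr rfl fun c _ => by ring
  · simp only [if_neg h, mul_zero, Finset.sum_const_zero]

/-- the right side of the braid relation -/
theorem right_apply (R : Matrix (ι × ι) (ι × ι) A) {x y z : P} (hxy : x ≠ y) (hxz : x ≠ z)
    (hyz : y ≠ z) (s t : P → ι) (C : Prop) [Decidable C]
    (hC : C ↔ ∀ v, v ≠ x → v ≠ y → v ≠ z → s v = t v) :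
    (atp R y z * atp R x y * atp R y z) s t = if C then
      ∑ a, ∑ b, ∑ c, R (s y, s z) (b, c) * R (s x, b) (t x, a) * R (a, c) (t y, t z) else 0 := by
  rw [mul_assoc, atp_mul R hyz]
  have h1 : ∀ p : ι × ι, (atp R x y * atp R y z) (u2 s y z p) t = if C then
      ∑ a, R (s x, p.1) (t x, a) * R (a, p.2) (t y, t z) else 0 := by
    intro p
    rw [atp_mul R hxy, u2_of s hxy hxz, u2_x s hyz]
    by_cases h : C
    · rw [if_pos h, Fintype.sum_prod_type, Finset.sum_eq_single (t x)]
      · refine Finset.sum_congr rfl fun a _ => ?_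
        rw [atp_pos R y z, u2_y, u2_of _ hxz.symm hyz.symm, u2_y]
        intro v hv hv'
        by_cases hvx : v = x
        · rw [hvx, u2_x _ hxy]
        · rw [u2_of _ hvx hv, u2_of s hv hv']
          exact hC.1 h v hvx hv hv'
      · intro d _ hd
        refine Finset.sum_eq_zero fun q _ => ?_
        rw [atp_neg R y z, mul_zero]
        intro h'
        apply hd
        have h2 := h' x hxy hxz
        rwa [u2_x _ hxy] at h2
      · intro h'
        exact absurd (Finset.mem_univ _) h'
    · rw [if_neg h]
      refine Finset.sum_eq_zero fun q _ => ?_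
      rw [atp_neg R y z, mul_zero]
      intro h'
      apply h
      rw [hC]
      intro v hvx hvy hvz
      have := h' v hvy hvz
      rwa [u2_of _ hvx hvy, u2_of s hvy hvz] at this
  simp only [h1]
  by_cases h : C
  · simp only [if_pos h]
    rw [Fintype.sum_prod_type]
    simp only [Finset.mul_sum]
    have e1 : ∀ b : ι, ∑ c, ∑ a, R (s y, s z) (b, c) * (R (s x, b) (t x, a) *
        R (a, c) (t y, t z)) = ∑ a, ∑ c, R (s y, s z) (b, c) * (R (s x, b) (t x, a) *
        R (a, c) (t y, t z)) := fun b => Finset.sum_comm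
    simp only [e1]
    rw [Finset.sum_comm]
    refine Finset.sum_congr rfl fun a _ => Finset.sum_congr rfl fun b _ =>
      Finset.sum_congr rfl fun c _ => by ring
  · simp only [if_neg h, mul_zero, Finset.sum_const_zero]

end ATP

open ATP in
/-- Matrices acting at one or two positions. -/
theorem atp_mod : ATP_Stmt := by
  classical
  intro A _ ι _ _ P _ _ R S X Y x y z w hxy
  refine ⟨mul1 R S hxy, one1 x y, fun h1 h2 h3 h4 h5 => far R S hxy h1 h2 h3 h4 h5, mul2 X Y x,
    one2 x, fun h1 h2 => far1 X R hxy h1 h2, ?_⟩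
  intro hxz hyz hR
  ext s t
  rw [left_apply R hxy hxz hyz s t (∀ v, v ≠ x → v ≠ y → v ≠ z → s v = t v) Iff.rfl,
    right_apply R hxy hxz hyz s t (∀ v, v ≠ x → v ≠ y → v ≠ z → s v = t v) Iff.rfl]
  rw [hR]

end Pool.Agent.IT
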