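import Pool.Agent.IT.Stmts

/-!
Iterated torus knots: module BLK, the closure of a parallel word is the closure with block data.
-/

namespace Pool.Agent.IT
namespace BLK
open Pool.Agent.LibH11
open scoped BigOperators

variable {A : Type} [CommRing A] {ι : Type} [Fintype ι] [DecidableEq ι]

open Classical in
/-- The matrix that acts by `X` on the positions in the range of `f`. -/
noncomputable def emb {Q P : Type} (f : Q → P) (X : Matrix (Q → ι) (Q → ι) A) :
    Matrix (P → ι) (P → ι) A :=
  fun s t => if ∀ z, z ∉ Set.range f → s z = t z then X (s ∘ f) (t ∘ f) else 0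

theorem emb_one {Q P : Type} [Fintype Q] [DecidableEq Q] [Fintype P] [DecidableEq P] (f : Q → P) :
    emb f (1 : Matrix (Q → ι) (Q → ι) A) = 1 := by
  ext s t
  unfold emb
  by_cases h : s = t
  · subst h
    rw [if_pos (fun _ _ => rfl), Matrix.one_apply_eq, Matrix.one_apply_eq]
  · rw [Matrix.one_apply_ne h]
    split_ifs with h1
    · rw [Matrix.one_apply_ne]
      intro h2
      apply h
      funext z
      by_cases hz : z ∈ Set.range f
      · obtain ⟨q, rfl⟩ := hz
        exact congrFun h2 q
      · exact h1 z hz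
    · rfl

theorem emb_mul {Q P : Type} [Fintype Q] [DecidableEq Q] [Fintype P] [DecidableEq P] {f : Q → P}
    (hf : Function.Injective f) (X Y : Matrix (Q → ι) (Q → ι) A) :
    emb f (X * Y) = emb f X * emb f Y := by
  ext s t
  rw [Matrix.mul_apply]
  have hext : ∀ r : Q → ι, (Function.extend f r s) ∘ f = r := by
    intro r
    funext q
    exact hf.extend_apply r s q
  have hout : ∀ (r : Q → ι) (z : P), z ∉ Set.range f → Function.extend f r s z = s z := by
    intro r z hz
    exact Function.extend_apply' r s z (fun ⟨q, hq⟩ => hz ⟨q, hq⟩)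
  rw [← Finset.sum_of_injOn (s := Finset.univ) (t := Finset.univ)
    (f := fun r : Q → ι => emb f X s (Function.extend f r s) * emb f Y (Function.extend f r s) t)
    (g := fun u => emb f X s u * emb f Y u t) (fun r : Q → ι => Function.extend f r s)]
  · by_cases h : ∀ z, z ∉ Set.range f → s z = t z
    · have h1 : emb f (X * Y) s t = (X * Y) (s ∘ f) (t ∘ f) := if_pos h
      rw [h1, Matrix.mul_apply]
      apply Finset.sum_congr rfl
      intro r _
      have h2 : emb f X s (Function.extend f r s) = X (s ∘ f) r := by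
        unfold emb
        rw [if_pos (fun z hz => (hout r z hz).symm), hext]
      have h3 : emb f Y (Function.extend f r s) t = Y r (t ∘ f) := by
        unfold emb
        rw [if_pos (fun z hz => (hout r z hz).trans (h z hz)), hext]
      rw [h2, h3]
    · have h1 : emb f (X * Y) s t = 0 := if_neg h
      rw [h1]
      symm
      apply Finset.sum_eq_zero
      intro r _
      have h3 : emb f Y (Function.extend f r s) t = 0 := by
        unfold emb
        rw [if_neg]
        intro h4
        apply h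
        intro z hz
        rw [← h4 z hz, hout r z hz]
      rw [h3, mul_zero]
  · intro r _ r' _ h
    have h' : Function.extend f r s = Function.extend f r' s := h
    rw [← hext r, ← hext r', h']
  · intro r _
    exact Finset.mem_coe.mpr (Finset.mem_univ _)
  · intro u _ hu
    have : emb f X s u = 0 := by
      unfold emb
      rw [if_neg]
      intro h
      apply hu
      refine ⟨u ∘ f, Finset.mem_coe.mpr (Finset.mem_univ _), ?_⟩
      funext z
      by_cases hz : z ∈ Set.range f
      · obtain ⟨q, rfl⟩ := hz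
        exact hf.extend_apply _ _ _
      · rw [← h z hz]
        exact hout (u ∘ f) z hz
    rw [this, zero_mul]
  · intro r _
    rfl

theorem emb_atp {Q P : Type} {f : Q → P} (hf : Function.Injective f)
    (R : Matrix (ι × ι) (ι × ι) A) (x y : Q) : emb f (atp R x y) = atp R (f x) (f y) := by
  ext s t
  unfold emb atp
  by_cases h : ∀ z, z ≠ f x → z ≠ f y → s z = t z
  · rw [if_pos h, if_pos, if_pos]
    · rfl
    · intro q hx hy
      exact h (f q) (fun h' => hx (hf h')) (fun h' => hy (hf h'))
    · intro z hz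
      exact h z (fun h' => hz ⟨x, h'.symm⟩) (fun h' => hz ⟨y, h'.symm⟩)
  · rw [if_neg h]
    split_ifs with h1 h2
    · exfalso
      apply h
      intro z hx hy
      by_cases hz : z ∈ Set.range f
      · obtain ⟨q, rfl⟩ := hz
        exact h2 q (fun h' => hx (by rw [h'])) (fun h' => hy (by rw [h']))
      · exact h1 z hz
    · rfl
    · rfl

/-- The inclusion of an interval of positions. -/
def fk (k m N : ℕ) (h : k + m ≤ N) (j : Fin (m + 1)) : Fin (N + 1) := ⟨k + j, by omega⟩

theorem fk_inj {k m N : ℕ} (h : k + m ≤ N) : Function.Injective (fk k m N h) := by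
  intro a b hab
  have : k + (a : ℕ) = k + b := congrArg Fin.val hab
  exact Fin.ext (by omega)

theorem opl_shift (T : RData A ι) {k m N : ℕ} (h : k + m ≤ N) (x : ℕ × Bool) (hx : x.1 < m) :
    opl T N (x.1 + k, x.2) = emb (fk k m N h) (opl T m x) := by
  unfold opl
  rw [dif_pos hx, dif_pos (show (x.1 + k, x.2).1 < N by simp only; omega), emb_atp (fk_inj h)]
  have h1 : (⟨(x.1 + k, x.2).1, by simp only; omega⟩ : Fin (N + 1)) =
      fk k m N h ⟨x.1, Nat.lt_succ_of_lt hx⟩ := by
    apply Fin.ext
    simp only [fk]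
    omega
  have h2 : (⟨(x.1 + k, x.2).1 + 1, by simp only; omega⟩ : Fin (N + 1)) =
      fk k m N h ⟨x.1 + 1, Nat.succ_lt_succ hx⟩ := by
    apply Fin.ext
    simp only [fk]
    omega
  rw [h1, h2]

theorem op_nil (T : RData A ι) (n : ℕ) : op T n [] = 1 := rfl

theorem op_cons (T : RData A ι) (n : ℕ) (x : ℕ × Bool) (w : Word) :
    op T n (x :: w) = opl T n x * op T n w := by
  unfold op
  simp

theorem op_append (T : RData A ι) (n : ℕ) (u v : Word) :
    op T n (u ++ v) = op T n u * op T n v := by
  unfold op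
  simp

theorem op_shift (T : RData A ι) {k m N : ℕ} (h : k + m ≤ N) (u : Word) (hu : Bd m u) :
    op T N (shw k u) = emb (fk k m N h) (op T m u) := by
  induction u with
  | nil =>
    have : shw k [] = [] := rfl
    rw [this, op_nil, op_nil, emb_one]
  | cons x u ih =>
    have : shw k (x :: u) = (x.1 + k, x.2) :: shw k u := rfl
    rw [this, op_cons, op_cons, emb_mul (fk_inj h), ih (fun y hy => hu y (List.mem_cons_of_mem _ hy)),
      opl_shift T h x (hu x List.mem_cons_self)]

/-! ### Blocks -/

theorem blk_true (c i : ℕ) : blk (c + 1) (i, true) = shw ((c + 1) * i) (blk (c + 1) (0, true)) := by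
  unfold blk shw
  simp only [List.map_flatMap, List.map_map]
  apply List.flatMap_congr
  intro a ha
  apply List.map_congr_left
  intro b hb
  rw [List.mem_range] at ha hb
  simp only [Function.comp, Prod.mk.injEq, and_true]
  omega

theorem shw_iw (k : ℕ) (w : Word) : shw k (iw w) = iw (shw k w) := by
  unfold shw iw
  rw [List.map_reverse, List.map_map, List.map_map]
  rfl

theorem blk_false (p i : ℕ) : blk p (i, false) = iw (blk p (i, true)) := rfl

theorem blk_shift (c : ℕ) (x : ℕ × Bool) :
    blk (c + 1) x = shw ((c + 1) * x.1) (blk (c + 1) (0, x.2)) := by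
  rcases x with ⟨i, e⟩
  cases e
  · simp only
    rw [blk_false, blk_false, blk_true, shw_iw]
  · exact blk_true c i

theorem blk_bd (c : ℕ) (e : Bool) : Bd ((c + 1) + c) (blk (c + 1) (0, e)) := by
  have h : Bd ((c + 1) + c) (blk (c + 1) (0, true)) := by
    intro x hx
    unfold blk at hx
    rw [List.mem_flatMap] at hx
    obtain ⟨a, ha, hx⟩ := hx
    rw [List.mem_map] at hx
    obtain ⟨b, hb, rfl⟩ := hx
    rw [List.mem_range] at ha hb
    simp only
    omega
  cases e
  · rw [blk_false, bd_iw]
    exact h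
  · exact h

/-! ### The equivalence of the labels -/

/-- positions in blocks -/
def ee (c n : ℕ) : Fin (n + 1) × Fin (c + 1) ≃ Fin ((c + 1) * n + c + 1) :=
  finProdFinEquiv.trans (finCongr (by ring))

theorem ee_val (c n : ℕ) (k : Fin (n + 1)) (j : Fin (c + 1)) :
    ((ee c n (k, j) : Fin ((c + 1) * n + c + 1)) : ℕ) = j + (c + 1) * k := rfl

/-- labels in blocks -/
def ph (ι : Type) (c n : ℕ) : (Fin ((c + 1) * n + c + 1) → ι) ≃ (Fin (n + 1) → Fin (c + 1) → ι) :=
  (Equiv.arrowCongr (ee c n).symm (Equiv.refl ι)).trans (Equiv.curry _ _ _)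

theorem ph_apply (c n : ℕ) (s : Fin ((c + 1) * n + c + 1) → ι) (k : Fin (n + 1)) (j : Fin (c + 1)) :
    ph ι c n s k j = s (ee c n (k, j)) := rfl

theorem ph_eq_iff (c n : ℕ) (s t : Fin ((c + 1) * n + c + 1) → ι) (k : Fin (n + 1)) :
    ph ι c n s k = ph ι c n t k ↔ ∀ j, s (ee c n (k, j)) = t (ee c n (k, j)) :=
  ⟨fun h j => congrFun h j, fun h => funext h⟩

theorem append_ph (c n : ℕ) (s : Fin ((c + 1) * n + c + 1) → ι) (i : ℕ) (hi : i < n)
    (h : (c + 1) * i + ((c + 1) + c) ≤ (c + 1) * n + c) :
    (Fin.append (ph ι c n s ⟨i, Nat.lt_succ_of_lt hi⟩) (ph ι c n s ⟨i + 1, Nat.succ_lt_succ hi⟩) :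
      Fin ((c + 1) + (c + 1)) → ι) = s ∘ fk ((c + 1) * i) ((c + 1) + c) ((c + 1) * n + c) h := by
  funext j
  refine Fin.addCases (fun j => ?_) (fun j => ?_) j
  · rw [Fin.append_left, ph_apply]
    show _ = s _
    congr 1
    apply Fin.ext
    rw [ee_val]
    simp only [fk, Fin.val_castAdd]
    omega
  · rw [Fin.append_right, ph_apply]
    show _ = s _
    congr 1
    apply Fin.ext
    rw [ee_val]
    simp only [fk, Fin.val_natAdd]
    ring

theorem out_iff (c n : ℕ) (s t : Fin ((c + 1) * n + c + 1) → ι) (i : ℕ) (hi : i < n)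
    (h : (c + 1) * i + ((c + 1) + c) ≤ (c + 1) * n + c) :
    (∀ z, z ∉ Set.range (fk ((c + 1) * i) ((c + 1) + c) ((c + 1) * n + c) h) → s z = t z) ↔
      ∀ k : Fin (n + 1), k ≠ ⟨i, Nat.lt_succ_of_lt hi⟩ → k ≠ ⟨i + 1, Nat.succ_lt_succ hi⟩ →
        ph ι c n s k = ph ι c n t k := by
  constructor
  · intro H k h1 h2
    rw [ph_eq_iff]
    intro j
    apply H
    rintro ⟨l, hl⟩
    have hv := congrArg Fin.val hl
    rw [ee_val] at hv
    simp only [fk] at hv
    have hj := j.2
    have hl2 := l.2
    have h1' : (k : ℕ) ≠ i := fun h' => h1 (Fin.ext h')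
    have h2' : (k : ℕ) ≠ i + 1 := fun h' => h2 (Fin.ext h')
    rcases Nat.lt_or_ge (k : ℕ) i with h3 | h3
    · have : (c + 1) * ((k : ℕ) + 1) ≤ (c + 1) * i := Nat.mul_le_mul_left _ h3
      rw [Nat.mul_add] at this
      omega
    · have h4 : i + 2 ≤ (k : ℕ) := by omega
      have : (c + 1) * (i + 2) ≤ (c + 1) * (k : ℕ) := Nat.mul_le_mul_left _ h4
      rw [Nat.mul_add] at this
      omega
  · intro H z hz
    obtain ⟨⟨k, j⟩, rfl⟩ := (ee c n).surjective z
    refine (ph_eq_iff c n s t k).mp (H k ?_ ?_) j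
    · rintro rfl
      apply hz
      have hj := j.2
      refine ⟨⟨j, by omega⟩, ?_⟩
      apply Fin.ext
      rw [ee_val]
      simp only [fk]
      omega
    · rintro rfl
      apply hz
      have hj := j.2
      refine ⟨⟨(c + 1) + j, by omega⟩, ?_⟩
      apply Fin.ext
      rw [ee_val]
      simp only [fk]
      ring

theorem op_blk (T : RData A ι) (c n : ℕ) (x : ℕ × Bool) (hx : x.1 < n) :
    op T ((c + 1) * n + c) (blk (c + 1) x) =
      (opl (blkD T c) n x).submatrix (ph ι c n) (ph ι c n) := by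
  have h : (c + 1) * x.1 + ((c + 1) + c) ≤ (c + 1) * n + c := by
    have : (c + 1) * (x.1 + 1) ≤ (c + 1) * n := Nat.mul_le_mul_left _ hx
    rw [Nat.mul_add] at this
    omega
  rw [blk_shift, op_shift T h _ (blk_bd c x.2)]
  ext s t
  rw [Matrix.submatrix_apply]
  unfold opl
  rw [dif_pos hx]
  unfold emb atp
  by_cases H : ∀ k : Fin (n + 1), k ≠ ⟨x.1, Nat.lt_succ_of_lt hx⟩ →
      k ≠ ⟨x.1 + 1, Nat.succ_lt_succ hx⟩ → ph ι c n s k = ph ι c n t k
  · rw [if_pos ((out_iff c n s t x.1 hx h).mpr H), if_pos H, ← append_ph c n s x.1 hx h,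
      ← append_ph c n t x.1 hx h]
    rcases x with ⟨i, e⟩
    cases e
    · rfl
    · rfl
  · rw [if_neg H, if_neg (fun H' => H ((out_iff c n s t x.1 hx h).mp H'))]

theorem op_par (T : RData A ι) (c n : ℕ) (w : Word) (hw : Bd n w) :
    op T ((c + 1) * n + c) (par (c + 1) w) =
      (op (blkD T c) n w).submatrix (ph ι c n) (ph ι c n) := by
  induction w with
  | nil =>
    have : par (c + 1) [] = [] := rfl
    rw [this, op_nil, op_nil, Matrix.submatrix_one_equiv]
  | cons x w ih =>
    have : par (c + 1) (x :: w) = blk (c + 1) x ++ par (c + 1) w := rfl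
    rw [this, op_append, op_cons, ih (fun y hy => hw y (List.mem_cons_of_mem _ hy)),
      op_blk T c n x (hw x List.mem_cons_self), Matrix.submatrix_mul_equiv]

theorem op_first (T : RData A ι) (c n : ℕ) (v : Word) (hv : Bd c v) :
    op T ((c + 1) * n + c) v =
      (at1 (op T c v) (0 : Fin (n + 1))).submatrix (ph ι c n) (ph ι c n) := by
  have h : 0 + c ≤ (c + 1) * n + c := by omega
  have hs : shw 0 v = v := by
    unfold shw
    conv_rhs => rw [← List.map_id v]
    apply List.map_congr_left
    rintro ⟨i, e⟩ _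
    rfl
  rw [← hs, op_shift T h v hv, hs]
  ext s t
  rw [Matrix.submatrix_apply]
  unfold emb at1
  have h0 : ∀ s : Fin ((c + 1) * n + c + 1) → ι,
      s ∘ fk 0 c ((c + 1) * n + c) h = ph ι c n s 0 := by
    intro s
    funext j
    rw [ph_apply]
    show s _ = s _
    congr 1
    apply Fin.ext
    rw [ee_val]
    simp [fk]
  have hiff : (∀ z, z ∉ Set.range (fk 0 c ((c + 1) * n + c) h) → s z = t z) ↔
      ∀ k : Fin (n + 1), k ≠ 0 → ph ι c n s k = ph ι c n t k := by
    constructor
    · intro H k hk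
      rw [ph_eq_iff]
      intro j
      apply H
      rintro ⟨l, hl⟩
      have hv := congrArg Fin.val hl
      rw [ee_val] at hv
      simp only [fk] at hv
      have hj := j.2
      have hl2 := l.2
      have hk' : 1 ≤ (k : ℕ) := by
        rcases Nat.eq_zero_or_pos (k : ℕ) with h' | h'
        · exact absurd (Fin.ext h') hk
        · exact h'
      have : (c + 1) * 1 ≤ (c + 1) * (k : ℕ) := Nat.mul_le_mul_left _ hk'
      omega
    · intro H z hz
      obtain ⟨⟨k, j⟩, rfl⟩ := (ee c n).surjective z
      refine (ph_eq_iff c n s t k).mp (H k ?_) j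
      rintro rfl
      apply hz
      refine ⟨j, ?_⟩
      apply Fin.ext
      rw [ee_val]
      simp [fk]
  by_cases H : ∀ k : Fin (n + 1), k ≠ 0 → ph ι c n s k = ph ι c n t k
  · rw [if_pos (hiff.mpr H), if_pos H, h0, h0]
  · rw [if_neg H, if_neg (fun H' => H (hiff.mp H'))]

theorem kappa (T : RData A ι) (c n : ℕ) (s : Fin ((c + 1) * n + c + 1) → ι) :
    ∏ i, T.κ (s i) = ∏ k, (blkD T c).κ (ph ι c n s k) := by
  have : ∀ k, (blkD T c).κ (ph ι c n s k) = ∏ j, T.κ (s (ee c n (k, j))) := fun k => rfl
  simp only [this]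
  rw [← Fintype.prod_prod_type' (fun k j => T.κ (s (ee c n (k, j))))]
  exact (Equiv.prod_comp (ee c n) (fun i => T.κ (s i))).symm

end BLK

open Pool.Agent.LibH11 in
theorem blk_mod : BLK_Stmt := by
  intro A _ ι _ _ T c n w v hw hv
  unfold Jfr G
  rw [← Equiv.sum_comp (BLK.ph ι c n)]
  apply Finset.sum_congr rfl
  intro s _
  rw [BLK.op_append, BLK.op_par T c n w hw, BLK.op_first T c n v hv, Matrix.submatrix_mul_equiv,
    Matrix.submatrix_apply, ← BLK.kappa]

end Pool.Agent.IT
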