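import Pool.Agent.IT.Stmts

/-!
# Iterated torus knots: block data are the data of the tensor power (module BLKD)
-/

namespace Pool.Agent.IT
open Pool.Agent.LibH11
open scoped BigOperators

namespace BLKD

theorem blk_true (c : ℕ) : blk (c + 1) (0, true) = Cw 0 (c + 1) (c + 1) := by
  unfold blk Cw Dw
  refine List.flatMap_congr fun a _ => ?_
  refine List.map_congr_left fun b hb => ?_
  have hb' : b < c + 1 := List.mem_range.mp hb
  simp only [Prod.mk.injEq, and_true]
  omega

theorem blk_false (c : ℕ) : blk (c + 1) (0, false) = iw (Cw 0 (c + 1) (c + 1)) := by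
  rw [← blk_true]
  rfl

theorem app_left {ι : Type} {c : ℕ} (x y : Fin (c + 1) → ι) (i : Fin (c + 1))
    (h : (i : ℕ) < (c + 1) + (c + 1)) :
    (Fin.append x y : Fin ((c + 1) + (c + 1)) → ι) ⟨i, h⟩ = x i := by
  have : (⟨i, h⟩ : Fin ((c + 1) + (c + 1))) = Fin.castAdd (c + 1) i := rfl
  rw [this, Fin.append_left]

theorem app_right {ι : Type} {c : ℕ} (x y : Fin (c + 1) → ι) (j : Fin (c + 1))
    (h : c + 1 + (j : ℕ) < (c + 1) + (c + 1)) :
    (Fin.append x y : Fin ((c + 1) + (c + 1)) → ι) ⟨c + 1 + j, h⟩ = y j := by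
  have : (⟨c + 1 + j, h⟩ : Fin ((c + 1) + (c + 1))) = Fin.natAdd (c + 1) j := rfl
  rw [this, Fin.append_right]

theorem ext' {A ι : Type} {T T' : RData A ι} (h1 : T.R = T'.R) (h2 : T.R' = T'.R')
    (h3 : T.κ = T'.κ) : T = T' := by
  cases T
  cases T'
  simp only at h1 h2 h3
  subst h1 h2 h3
  rfl

end BLKD

open BLKD in
theorem blkd (hp : HEXP_Stmt) : BLKD_Stmt := by
  intro K _ s hs ι _ _ M hM c
  refine ext' ?_ ?_ ?_
  · funext x y
    obtain ⟨x1, x2⟩ := x
    obtain ⟨y1, y2⟩ := y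
    have h := (hp K s hs ι M hM c c ((c + 1) + c) (by omega)
      (Fin.append x1 x2 : Fin ((c + 1) + (c + 1)) → ι)
      (Fin.append y1 y2 : Fin ((c + 1) + (c + 1)) → ι)).1
    have e1 : (fun i : Fin (c + 1) =>
        (Fin.append x1 x2 : Fin ((c + 1) + (c + 1)) → ι) ⟨i, by omega⟩) = x1 := by
      funext i; exact app_left x1 x2 i _
    have e2 : (fun j : Fin (c + 1) =>
        (Fin.append x1 x2 : Fin ((c + 1) + (c + 1)) → ι) ⟨c + 1 + j, by omega⟩) = x2 := by
      funext i; exact app_right x1 x2 i _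
    have e3 : (fun i : Fin (c + 1) =>
        (Fin.append y1 y2 : Fin ((c + 1) + (c + 1)) → ι) ⟨i, by omega⟩) = y1 := by
      funext i; exact app_left y1 y2 i _
    have e4 : (fun j : Fin (c + 1) =>
        (Fin.append y1 y2 : Fin ((c + 1) + (c + 1)) → ι) ⟨c + 1 + j, by omega⟩) = y2 := by
      funext i; exact app_right y1 y2 i _
    change op (RD s M) ((c + 1) + c) (blk (c + 1) (0, true))
      (Fin.append x1 x2 : Fin ((c + 1) + (c + 1)) → ι)
      (Fin.append y1 y2 : Fin ((c + 1) + (c + 1)) → ι) =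
      Rm s (fpow s M (c + 1)) (fpow s M (c + 1)) (x1, x2) (y1, y2)
    rw [blk_true]
    refine h.trans ?_
    exact congrArg₂ (Rm s (fpow s M (c + 1)) (fpow s M (c + 1)))
      (Prod.ext e1 e2) (Prod.ext e3 e4)
  · funext x y
    obtain ⟨x1, x2⟩ := x
    obtain ⟨y1, y2⟩ := y
    have h := (hp K s hs ι M hM c c ((c + 1) + c) (by omega)
      (Fin.append y1 y2 : Fin ((c + 1) + (c + 1)) → ι)
      (Fin.append x1 x2 : Fin ((c + 1) + (c + 1)) → ι)).2
    have e1 : (fun i : Fin (c + 1) =>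
        (Fin.append x1 x2 : Fin ((c + 1) + (c + 1)) → ι) ⟨i, by omega⟩) = x1 := by
      funext i; exact app_left x1 x2 i _
    have e2 : (fun j : Fin (c + 1) =>
        (Fin.append x1 x2 : Fin ((c + 1) + (c + 1)) → ι) ⟨c + 1 + j, by omega⟩) = x2 := by
      funext i; exact app_right x1 x2 i _
    have e3 : (fun i : Fin (c + 1) =>
        (Fin.append y1 y2 : Fin ((c + 1) + (c + 1)) → ι) ⟨i, by omega⟩) = y1 := by
      funext i; exact app_left y1 y2 i _
    have e4 : (fun j : Fin (c + 1) =>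
        (Fin.append y1 y2 : Fin ((c + 1) + (c + 1)) → ι) ⟨c + 1 + j, by omega⟩) = y2 := by
      funext i; exact app_right y1 y2 i _
    change op (RD s M) ((c + 1) + c) (blk (c + 1) (0, false))
      (Fin.append x1 x2 : Fin ((c + 1) + (c + 1)) → ι)
      (Fin.append y1 y2 : Fin ((c + 1) + (c + 1)) → ι) =
      Rm' s (fpow s M (c + 1)) (fpow s M (c + 1)) (x1, x2) (y1, y2)
    rw [blk_false]
    refine h.trans ?_
    exact congrArg₂ (Rm' s (fpow s M (c + 1)) (fpow s M (c + 1)))
      (Prod.ext e1 e2) (Prod.ext e3 e4)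
  · funext x
    change ∏ i, s ^ (2 * M.wt (x i)) = s ^ (2 * ∑ i, M.wt (x i))
    have hs0 : s ≠ 0 := hs.1
    rw [Finset.mul_sum]
    have key : ∀ t : Finset (Fin (c + 1)),
        ∏ i ∈ t, s ^ (2 * M.wt (x i)) = s ^ (∑ i ∈ t, 2 * M.wt (x i)) := by
      intro t
      classical
      induction t using Finset.induction_on with
      | empty => simp
      | insert a t ha ih =>
        rw [Finset.prod_insert ha, Finset.sum_insert ha, ih, zpow_add₀ hs0]
    exact key Finset.univ

end Pool.Agent.IT
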