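import Pool.Agent.IT.Stmts

/-!
Iterated torus knots: commutators of the powers of `E` and `F`.
-/

namespace Pool.Agent.IT

namespace BRK

open Matrix

section

variable {K : Type} [Field K] {s : K} {ι : Type} [Fintype ι] [DecidableEq ι] {M : WM K ι}

theorem dE (h : Ok s M) (g : ℤ → K) :
    (diagonal fun a => g (M.wt a)) * M.E = M.E * diagonal fun a => g (M.wt a + 2) := by
  ext a b
  rw [diagonal_mul, mul_diagonal]
  by_cases hab : M.E a b = 0
  · rw [hab, mul_zero, zero_mul]
  · rw [h.wtE a b hab, mul_comm]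

theorem dF (h : Ok s M) (g : ℤ → K) :
    (diagonal fun a => g (M.wt a)) * M.F = M.F * diagonal fun a => g (M.wt a - 2) := by
  ext a b
  rw [diagonal_mul, mul_diagonal]
  by_cases hab : M.F a b = 0
  · rw [hab, mul_zero, zero_mul]
  · rw [h.wtF a b hab, mul_comm]

theorem dEpow (h : Ok s M) (n : ℕ) : ∀ g : ℤ → K,
    (diagonal fun a => g (M.wt a)) * M.E ^ n = M.E ^ n * diagonal fun a => g (M.wt a + 2 * n) := by
  induction n with
  | zero =>
    intro g
    simp
  | succ n ih =>
    intro g
    rw [pow_succ, ← mul_assoc, ih g, mul_assoc, dE h (fun w => g (w + 2 * n)), mul_assoc]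
    have e : (fun a => g (M.wt a + 2 + 2 * (n : ℤ))) =
        fun a => g (M.wt a + 2 * ((n + 1 : ℕ) : ℤ)) := by
      funext a
      congr 1
      push_cast
      ring
    rw [e]

theorem qid (hq : QNUM_Stmt) (hs : Gen s) (w n : ℤ) :
    qn s (w + n + 1) + qn s n * qn s w = qn s (n + 1) * qn s (w + 1) := by
  obtain ⟨-, -, -, h1, -, h2, -⟩ := hq K s hs
  have h := h2 (n + 1) w (w - n)
  rw [show n + 1 + w = w + n + 1 by ring, show n + 1 - w + (w - n) = 1 by ring, h1, mul_one,
    show n + 1 + (w - n) = w + 1 by ring, show w - (w - n) = n by ring] at h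
  rw [h]
  ring

theorem brkF (hq : QNUM_Stmt) (hs : Gen s) (h : Ok s M) (n : ℕ) :
    M.E * M.F ^ (n + 1) = M.F ^ (n + 1) * M.E +
      qn s (n + 1) • (M.F ^ n * diagonal fun a => qn s (M.wt a - n)) := by
  have hc : M.E * M.F = M.F * M.E + diagonal fun a => qn s (M.wt a) := by
    rw [← h.comm]
    abel
  induction n with
  | zero =>
    obtain ⟨-, -, -, h1, -⟩ := hq K s hs
    simp only [zero_add, pow_one, pow_zero, one_mul, Nat.cast_zero, sub_zero]
    rw [h1, one_smul, hc]
  | succ n ih =>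
    rw [pow_succ M.F (n + 1), ← mul_assoc, ih, add_mul, mul_assoc, hc, mul_add, smul_mul_assoc,
      mul_assoc, dF h (fun w => qn s (w - n)), ← mul_assoc (M.F ^ n), ← pow_succ,
      ← mul_assoc (M.F ^ (n + 1)) M.F, add_assoc, ← mul_smul_comm, ← mul_add, ← mul_smul_comm]
    congr 2
    ext a b
    rw [Matrix.add_apply, Matrix.smul_apply, Matrix.smul_apply]
    by_cases hab : a = b
    · subst hab
      rw [diagonal_apply_eq, diagonal_apply_eq, diagonal_apply_eq, smul_eq_mul, smul_eq_mul]
      have h2 := qid hq hs (M.wt a - n - 2) (n + 1)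
      rw [show M.wt a - n - 2 + (n + 1) + 1 = M.wt a by ring] at h2
      rw [show M.wt a - 2 - (n : ℤ) = M.wt a - n - 2 by ring]
      push_cast
      rw [show M.wt a - ((n : ℤ) + 1) = M.wt a - n - 2 + 1 by ring]
      exact h2
    · rw [diagonal_apply_ne _ hab, diagonal_apply_ne _ hab, diagonal_apply_ne _ hab]
      simp

theorem brkE (hq : QNUM_Stmt) (hs : Gen s) (h : Ok s M) (n : ℕ) :
    M.E ^ (n + 1) * M.F = M.F * M.E ^ (n + 1) +
      qn s (n + 1) • (M.E ^ n * diagonal fun a => qn s (M.wt a + n)) := by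
  have hc : M.E * M.F = M.F * M.E + diagonal fun a => qn s (M.wt a) := by
    rw [← h.comm]
    abel
  induction n with
  | zero =>
    obtain ⟨-, -, -, h1, -⟩ := hq K s hs
    simp only [zero_add, pow_one, pow_zero, one_mul, Nat.cast_zero, add_zero]
    rw [h1, one_smul, hc]
  | succ n ih =>
    rw [pow_succ' M.E (n + 1), mul_assoc, ih, mul_add, ← mul_assoc, hc, add_mul, mul_smul_comm,
      ← mul_assoc M.E, ← pow_succ', dEpow h (n + 1) (qn s), add_assoc, mul_assoc M.F,
      ← mul_smul_comm, ← mul_add, ← mul_smul_comm]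
    congr 2
    ext a b
    rw [Matrix.add_apply, Matrix.smul_apply, Matrix.smul_apply]
    by_cases hab : a = b
    · subst hab
      rw [diagonal_apply_eq, diagonal_apply_eq, diagonal_apply_eq, smul_eq_mul, smul_eq_mul]
      have h2 := qid hq hs (M.wt a + n) (n + 1)
      push_cast
      rw [show M.wt a + 2 * ((n : ℤ) + 1) = M.wt a + n + (n + 1) + 1 by ring,
        show M.wt a + ((n : ℤ) + 1) = M.wt a + n + 1 by ring]
      exact h2
    · rw [diagonal_apply_ne _ hab, diagonal_apply_ne _ hab, diagonal_apply_ne _ hab]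
      simp

end

end BRK

theorem brk (hq : QNUM_Stmt) : BRK_Stmt := by
  intro K _ s hs ι _ _ M h n
  exact ⟨BRK.brkF hq hs h n, BRK.brkE hq hs h n⟩

end Pool.Agent.IT
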