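import Pool.Agent.IT.Stmts

/-!
# Iterated torus knots: the invariant of a cable
-/

namespace Pool.Agent.IT

open Pool.Agent.LibH11
open scoped BigOperators
open PowerSeries

namespace CABJ

theorem bd_flat {N k : ℕ} {w : Word} (h : Bd N w) : Bd N (List.replicate k w).flatten := by
  intro x hx
  rw [List.mem_flatten] at hx
  obtain ⟨l, hl, hxl⟩ := hx
  rw [List.eq_of_mem_replicate hl] at hxl
  exact h x hxl

theorem bd_tor (p : ℕ) (r : ℤ) : Bd (p - 1) (tor p r) := by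
  have h1 : Bd (p - 1) ((List.range (p - 1)).map fun i => (i, true)) := by
    intro x hx
    rw [List.mem_map] at hx
    obtain ⟨i, hi, rfl⟩ := hx
    exact List.mem_range.mp hi
  unfold tor
  split_ifs
  · exact bd_flat h1
  · exact bd_flat (bd_iw.mpr h1)

theorem gcd_shift (p : ℕ) (q m : ℤ) (h : Int.gcd p q = 1) : Int.gcd p (q - p * m) = 1 := by
  rw [← Int.isCoprime_iff_gcd_eq_one] at h ⊢
  obtain ⟨a, b, hab⟩ := h
  exact ⟨a + b * m, b, by linear_combination hab⟩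

/-- all weights of the tensor power are small -/
theorem wt_lt (N c : ℕ) (x : Fin (c + 1) → Fin N) :
    (fpow sQ (V sQ N) (c + 1)).wt x < (((c + 1) * N : ℕ) : ℤ) := by
  show ∑ i, ((N : ℤ) - 1 - 2 * ((x i : ℕ) : ℤ)) < (((c + 1) * N : ℕ) : ℤ)
  have h1 : ∑ i : Fin (c + 1), ((N : ℤ) - 1 - 2 * ((x i : ℕ) : ℤ)) ≤
      ∑ _i : Fin (c + 1), ((N : ℤ) - 1) := by
    refine Finset.sum_le_sum fun i _ => ?_
    have : (0 : ℤ) ≤ ((x i : ℕ) : ℤ) := Int.natCast_nonneg _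
    linarith
  rw [Finset.sum_const, Finset.card_univ, Fintype.card_fin, nsmul_eq_mul] at h1
  push_cast at h1 ⊢
  nlinarith

theorem theta_zpow (he : ESER_Stmt) {θ : KQˣ} {N : ℕ} (h : (θ : KQ) = sQ ^ ((N : ℤ) ^ 2 - 1))
    (m : ℤ) : ((θ ^ m : KQˣ) : KQ) = toK (E (((N : ℚ) ^ 2 - 1) * m / 2)) := by
  rw [Units.val_zpow_eq_zpow_val, h, ← zpow_mul, he.2.2.2.1]
  congr 2
  push_cast
  ring

theorem toK_mul (he : ESER_Stmt) (a b : ℚ) : toK (E a) * toK (E b) = toK (E (a + b)) := by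
  rw [← map_mul, he.2.1]

end CABJ

open CABJ in
/-- CABJ: the invariant of a cable. -/
theorem cabj (he : ESER_Stmt) (hb : BLK_Stmt) (hd : BLKD_Stmt) (hc : CABSUM_Stmt)
    (ho : MOP_Stmt) (ht : TOR_Stmt) (hw : WRC_Stmt) (hv : VOK_Stmt) (hk : FPOWOK_Stmt) :
    CABJ_Stmt := by
  intro θ hθ N c n q w hw1 hw2 hg
  have hGen : Gen sQ := he.2.2.2.2.1
  have okV := (hv KQ sQ hGen).1
  have okP := hk KQ sQ hGen (Fin N) (V sQ N) (okV N) (c + 1)
  set r : ℤ := q - ((c + 1 : ℕ) : ℤ) * wr w with hr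
  have hg' : Int.gcd ((c + 1 : ℕ) : ℤ) q = 1 := by
    push_cast
    exact hg
  have hgr : Int.gcd ((c : ℤ) + 1) r = 1 := by
    have h1 := gcd_shift (c + 1) q (wr w) hg'
    rw [← hr] at h1
    push_cast at h1
    exact h1
  have hcab : cab (c + 1) q w = par (c + 1) w ++ tor (c + 1) r := rfl
  have hJ1 : Jfr (RD sQ (V sQ N)) ((c + 1) * n + c) (cab (c + 1) q w) =
      ∑ k ∈ Finset.range ((c + 1) * N),
        ((cc N (c + 1) k : KQ) * toK (E (r * (((k + 1 : ℚ) ^ 2 - 1) / (c + 1) -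
          ((N : ℚ) ^ 2 - 1)) / 2))) * Jfr (RD sQ (V sQ (k + 1))) n w := by
    rw [hcab, hb KQ (Fin N) (RD sQ (V sQ N)) c n w (tor (c + 1) r) hw1 (bd_tor (c + 1) r),
      hd KQ sQ hGen (Fin N) (V sQ N) (okV N) c,
      hc KQ sQ hGen (Fin (c + 1) → Fin N) (fpow sQ (V sQ N) (c + 1)) okP
        (op (RD sQ (V sQ N)) c (tor (c + 1) r))
        (ho KQ sQ hGen (Fin N) (V sQ N) (okV N) c (tor (c + 1) r)) n w hw2 ((c + 1) * N)
        (wt_lt N c)]
    refine Finset.sum_congr rfl fun k _ => ?_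
    rw [ht N c k r hgr]
  have hJ2 : ∀ k : ℕ, Jfr (RD sQ (V sQ (k + 1))) n w =
      toK (E ((((k + 1 : ℕ) : ℚ) ^ 2 - 1) * wr w / 2)) *
        J (RD sQ (V sQ (k + 1))) (θ (k + 1)) n w := by
    intro k
    unfold J
    rw [← theta_zpow he (hθ (k + 1)) (wr w), ← mul_assoc, ← Units.val_mul, ← zpow_add]
    simp
  have hL : J (RD sQ (V sQ N)) (θ N) ((c + 1) * n + c) (cab (c + 1) q w) =
      (((θ N) ^ (-wr (cab (c + 1) q w)) : KQˣ) : KQ) *
        Jfr (RD sQ (V sQ N)) ((c + 1) * n + c) (cab (c + 1) q w) := rfl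
  rw [hL, hJ1, theta_zpow he (hθ N), Finset.mul_sum]
  refine Finset.sum_congr rfl fun k _ => ?_
  rw [hJ2 k]
  have hexp : toK (E (((N : ℚ) ^ 2 - 1) * ((-wr (cab (c + 1) q w) : ℤ) : ℚ) / 2)) *
      (toK (E (r * (((k + 1 : ℚ) ^ 2 - 1) / (c + 1) - ((N : ℚ) ^ 2 - 1)) / 2)) *
      toK (E ((((k + 1 : ℕ) : ℚ) ^ 2 - 1) * wr w / 2))) =
      toK (E ((-(((N : ℚ) ^ 2 - 1) * (c + 1) * q) +
        ((k + 1 : ℚ) ^ 2 - 1) * q / (c + 1)) / 2)) := by
    rw [toK_mul he, toK_mul he, (hw c q w).2.2, hr]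
    congr 2
    have hc1 : (c : ℚ) + 1 ≠ 0 := by positivity
    push_cast
    field_simp
    ring
  rw [← hexp]
  ring

end Pool.Agent.IT
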