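import Pool.Agent.IT.Stmts

/-!
Iterated torus knots: the closure of a knot with an endomorphism inserted.
-/

namespace Pool.Agent.IT

open Pool.Agent.LibH11

namespace CABSUM

open Matrix

section

variable {K : Type} [Field K] {s : K} {ι κ : Type} [Fintype ι] [DecidableEq ι] [Fintype κ]
  [DecidableEq κ]

theorem mor_diag {M : WM K ι} {N : WM K κ} {g : Matrix κ ι K} (hg : Mor M N g) (φ : ℤ → K) :
    (diagonal fun a => φ (N.wt a)) * g = g * diagonal fun a => φ (M.wt a) := by
  ext a b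
  rw [diagonal_mul, mul_diagonal]
  by_cases hab : g a b = 0
  · rw [hab, mul_zero, zero_mul]
  · rw [hg.wt a b hab, mul_comm]

theorem inv_comm {g : Matrix κ ι K} {g' : Matrix ι κ K} (h1 : g * g' = 1) (h2 : g' * g = 1)
    {A : Matrix κ κ K} {B : Matrix ι ι K} (h : A * g = g * B) : g' * A = B * g' := by
  calc g' * A = g' * A * (g * g') := by rw [h1, Matrix.mul_one]
    _ = g' * (A * g) * g' := by simp only [Matrix.mul_assoc]
    _ = (g' * g) * B * g' := by rw [h]; simp only [Matrix.mul_assoc]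
    _ = B * g' := by rw [h2, Matrix.one_mul]

theorem mor_inv {M : WM K ι} {N : WM K κ} {g : Matrix κ ι K} {g' : Matrix ι κ K}
    (h1 : g * g' = 1) (h2 : g' * g = 1) (hg : Mor M N g) : Mor N M g' where
  wt := by
    intro b a hba
    classical
    have h := inv_comm h1 h2 (mor_diag hg fun w => if w = N.wt a then 1 else 0)
    have h3 := congrFun (congrFun h b) a
    rw [mul_diagonal, diagonal_mul, if_pos rfl, mul_one] at h3
    by_contra hne
    rw [if_neg hne, zero_mul] at h3
    exact hba h3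
  E := (inv_comm h1 h2 hg.E).symm
  F := (inv_comm h1 h2 hg.F).symm

theorem mor_comp {ν : Type} [Fintype ν] [DecidableEq ν] {M : WM K ι} {N : WM K κ} {L : WM K ν}
    {f : Matrix κ ι K} {g : Matrix ν κ K} (hf : Mor M N f) (hg : Mor N L g) :
    Mor M L (g * f) where
  wt := by
    intro b a hba
    rw [Matrix.mul_apply] at hba
    obtain ⟨c, -, hc⟩ := Finset.exists_ne_zero_of_sum_ne_zero hba
    rw [hg.wt b c (left_ne_zero_of_mul hc), hf.wt c a (right_ne_zero_of_mul hc)]
  E := by
    rw [← Matrix.mul_assoc, hg.E, Matrix.mul_assoc, hf.E, Matrix.mul_assoc]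
  F := by
    rw [← Matrix.mul_assoc, hg.F, Matrix.mul_assoc, hf.F, Matrix.mul_assoc]

theorem wtr_eq (M : WM K ι) (j : ℤ) (X : Matrix ι ι K) :
    wtr M j X = ((diagonal fun a => if M.wt a = j then (1 : K) else 0) * X).trace := by
  unfold wtr
  rw [Matrix.trace, Finset.sum_filter]
  refine Finset.sum_congr rfl fun a _ => ?_
  rw [Matrix.diag_apply, diagonal_mul]
  split_ifs <;> simp

theorem wtr_conj {M : WM K ι} {N : WM K κ} {g : Matrix κ ι K} {g' : Matrix ι κ K}
    (h1 : g * g' = 1) (h2 : g' * g = 1) (hg : Mor M N g) (j : ℤ) (X : Matrix κ κ K) :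
    wtr N j X = wtr M j (g' * X * g) := by
  rw [wtr_eq, wtr_eq]
  have h := inv_comm h1 h2 (mor_diag hg fun w => if w = j then (1 : K) else 0)
  calc _ = (((diagonal fun a => if N.wt a = j then (1 : K) else 0) * X) * (g * g')).trace := by
        rw [h1, Matrix.mul_one]
    _ = (g' * (((diagonal fun a => if N.wt a = j then (1 : K) else 0) * X) * g)).trace := by
        rw [← Matrix.mul_assoc, Matrix.trace_mul_comm]
    _ = _ := by
        rw [Matrix.mul_assoc, ← Matrix.mul_assoc g', h]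
        simp only [Matrix.mul_assoc]

theorem at1_smul (x : K) {P : Type} [Fintype P] [DecidableEq P] (y : P) :
    at1 (x • (1 : Matrix ι ι K)) y = x • (1 : Matrix (P → ι) (P → ι) K) := by
  classical
  ext u v
  unfold at1
  rw [Matrix.smul_apply, Matrix.smul_apply]
  by_cases h : u = v
  · subst h
    rw [if_pos (fun _ _ => rfl), Matrix.one_apply_eq, Matrix.one_apply_eq]
  · rw [Matrix.one_apply_ne h]
    split_ifs with h1
    · have h2 : u y ≠ v y := by
        intro h3
        apply h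
        funext z
        by_cases hz : z = y
        · rw [hz, h3]
        · exact h1 z hz
      rw [Matrix.one_apply_ne h2]
    · simp

theorem G_smul (T : RData K ι) (n : ℕ) (w : Word) (x : K) :
    G T n w (x • (1 : Matrix ι ι K)) = x * Jfr T n w := by
  unfold G Jfr
  rw [at1_smul, Finset.mul_sum]
  refine Finset.sum_congr rfl fun t _ => ?_
  rw [Matrix.mul_smul, Matrix.mul_one, Matrix.smul_apply, smul_eq_mul, mul_assoc]

end

theorem card_wt (a : ℕ) (j : ℤ) (hj : 0 ≤ j) :
    (Finset.univ.filter fun l : Fin a => (a : ℤ) - 1 - 2 * (l : ℕ) = j).card =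
      if j + 1 ≤ a ∧ ((a : ℤ) - 1 - j) % 2 = 0 then 1 else 0 := by
  split_ifs with h
  · rw [Finset.card_eq_one]
    refine ⟨⟨(((a : ℤ) - 1 - j) / 2).toNat, by omega⟩, ?_⟩
    ext l
    rw [Finset.mem_filter, Finset.mem_singleton, Fin.ext_iff]
    simp only [Finset.mem_univ, true_and]
    omega
  · rw [Finset.card_eq_zero, Finset.filter_eq_empty_iff]
    intro l _ hl
    have := l.2
    omega

theorem card_diff (a k : ℕ) :
    ((Finset.univ.filter fun l : Fin a => (a : ℤ) - 1 - 2 * (l : ℕ) = (k : ℤ)).card : ℤ) -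
      ((Finset.univ.filter fun l : Fin a => (a : ℤ) - 1 - 2 * (l : ℕ) = (k : ℤ) + 2).card : ℤ) =
      if a = k + 1 then 1 else 0 := by
  rw [card_wt a k (by omega), card_wt a (k + 2) (by omega)]
  split_ifs <;> omega

section

variable {K : Type} [Field K] {s : K}

theorem wtr_dsum {r : ℕ} (a : Fin r → ℕ)
    (X : Matrix (Σ i : Fin r, Fin (a i)) (Σ i : Fin r, Fin (a i)) K) (x : Fin r → K)
    (hx : ∀ i, X.submatrix (inc a i) (inc a i) = x i • (1 : Matrix (Fin (a i)) (Fin (a i)) K))
    (j : ℤ) : wtr (dsum s a) j X = ∑ i, x i *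
      ((Finset.univ.filter fun l : Fin (a i) => (a i : ℤ) - 1 - 2 * (l : ℕ) = j).card : K) := by
  unfold wtr
  rw [Finset.sum_filter, Fintype.sum_sigma]
  refine Finset.sum_congr rfl fun i _ => ?_
  have h1 : ∀ l : Fin (a i), X ⟨i, l⟩ ⟨i, l⟩ = x i := by
    intro l
    have h := congrFun (congrFun (hx i) l) l
    rw [Matrix.smul_apply, Matrix.one_apply_eq, smul_eq_mul, mul_one] at h
    exact h
  have h2 : ∀ l : Fin (a i), (if (dsum s a).wt ⟨i, l⟩ = j then X ⟨i, l⟩ ⟨i, l⟩ else 0) =
      x i * (if (a i : ℤ) - 1 - 2 * (l : ℕ) = j then 1 else 0) := by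
    intro l
    rw [h1 l]
    change (if (a i : ℤ) - 1 - 2 * (l : ℕ) = j then x i else 0) = _
    by_cases h : (a i : ℤ) - 1 - 2 * (l : ℕ) = j
    · rw [if_pos h, if_pos h, mul_one]
    · rw [if_neg h, if_neg h, mul_zero]
  rw [Finset.sum_congr rfl fun l _ => h2 l, ← Finset.mul_sum, Finset.sum_boole]

end

end CABSUM

open CABSUM in
theorem cabsum (hd : DEC_Stmt) (hn : NAT_Stmt) (hc : CONJ_Stmt) (ht : TYPE_Stmt)
    (hs : SCHUR_Stmt) (hu : SUBD_Stmt) (hv : VOK_Stmt) : CABSUM_Stmt := by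
  intro K _ s hgen ι _ _ M hM X hX n w hw b hb
  obtain ⟨r, a, g, g', ha, h1, h2, hg⟩ := hd K s hgen ι M hM
  have hok : Ok s (dsum s a) := (hv K s hgen).2 r a
  obtain ⟨n1, n2⟩ := hn K s hgen _ _ _ _ (dsum s a) (dsum s a) M M hok hok hM hM g g hg hg
  have hκ : ∀ c d, (RD s M).κ c * g c d = g c d * (RD s (dsum s a)).κ d := by
    intro c d
    by_cases hcd : g c d = 0
    · rw [hcd, mul_zero, zero_mul]
    · have h3 := hg.wt c d hcd
      change s ^ (2 * M.wt c) * g c d = g c d * s ^ (2 * (dsum s a).wt d)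
      rw [h3, mul_comm]
  have hG := hc K ι _ (RD s M) (RD s (dsum s a)) g g' h1 h2 n1 n2 hκ n w X
  obtain ⟨u1, u2, u3, u4⟩ := hu K s hgen r a
  have hX' : Mor (dsum s a) (dsum s a) (g' * X * g) := by
    rw [Matrix.mul_assoc]
    exact mor_comp (mor_comp hg hX) (mor_inv h1 h2 hg)
  have hT := ht K r a (RD s (dsum s a)) u1 u2 n w hw (g' * X * g)
  have hS : ∀ i, ∃ x : K, (g' * X * g).submatrix (inc a i) (inc a i) =
      x • (1 : Matrix (Fin (a i)) (Fin (a i)) K) := fun i => hs K s hgen (a i) _ (u4 _ hX' i)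
  choose x hx using hS
  have hlt : ∀ i, a i ≤ b := by
    intro i
    have h3 : ∃ c, g c ⟨i, ⟨0, ha i⟩⟩ ≠ 0 := by
      by_contra hcon
      push Not at hcon
      have h4 := congrFun (congrFun h2 ⟨i, ⟨0, ha i⟩⟩) ⟨i, ⟨0, ha i⟩⟩
      rw [Matrix.mul_apply, Matrix.one_apply_eq, Finset.sum_eq_zero] at h4
      · exact zero_ne_one h4
      · intro c _
        rw [hcon c, mul_zero]
    obtain ⟨c, hc'⟩ := h3
    have h4 := hg.wt c _ hc'
    have h5 := hb c
    rw [h4] at h5
    change (a i : ℤ) - 1 - 2 * ((0 : ℕ) : ℤ) < b at h5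
    omega
  rw [hG, hT]
  have e1 : ∀ i, G ((RD s (dsum s a)).sub (inc a i)) n w
      ((g' * X * g).submatrix (inc a i) (inc a i)) = x i * Jfr (RD s (V s (a i))) n w := by
    intro i
    rw [hx i, u3 i, G_smul]
  rw [Finset.sum_congr rfl fun i _ => e1 i]
  have e2 : ∀ k ∈ Finset.range b, (wtr M k X - wtr M (k + 2) X) *
      Jfr (RD s (V s (k + 1))) n w =
      ∑ i, if a i = k + 1 then x i * Jfr (RD s (V s (a i))) n w else 0 := by
    intro k _
    rw [wtr_conj h1 h2 hg, wtr_conj h1 h2 hg, wtr_dsum a _ x hx, wtr_dsum a _ x hx,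
      ← Finset.sum_sub_distrib, Finset.sum_mul]
    refine Finset.sum_congr rfl fun i _ => ?_
    rw [← mul_sub]
    have h3 := congrArg (fun z : ℤ => (z : K)) (card_diff (a i) k)
    push_cast at h3
    rw [h3]
    split_ifs with h4
    · rw [h4, mul_one]
    · rw [mul_zero, zero_mul]
  rw [Finset.sum_congr rfl e2, Finset.sum_comm]
  refine Finset.sum_congr rfl fun i _ => ?_
  rw [Finset.sum_eq_single (a i - 1)]
  · rw [if_pos]
    have := ha i
    omega
  · intro k _ hk
    rw [if_neg]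
    omega
  · intro hk
    exfalso
    apply hk
    rw [Finset.mem_range]
    have := ha i
    have := hlt i
    omega

end Pool.Agent.IT
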