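import Pool.Agent.IT.Stmts

/-!
# Iterated torus knots: the coloured Jones polynomials (CJ)
-/

namespace Pool.Agent.IT
open Pool.Agent.LibH11
open scoped BigOperators
open PowerSeries

namespace CJ

/-! ### Words -/

theorem bd_blk {p n : ℕ} (hp : 1 ≤ p) (y : ℕ × Bool) (hy : y.1 < n) :
    Bd (pn p n) (blk p y) := by
  have key : ∀ i : ℕ, i < n → Bd (pn p n) (blk p (i, true)) := by
    intro i hi x hx
    simp only [blk, List.mem_flatMap, List.mem_map, List.mem_range] at hx
    obtain ⟨a, ha, b, hb, rfl⟩ := hx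
    simp only
    unfold pn
    have h1 : p * (i + 1) ≤ p * n := Nat.mul_le_mul_left p hi
    have h2 : p * (i + 1) = p * i + p := by ring
    have h3 : p * (n + 1) = p * n + p := by ring
    omega
  rcases y with ⟨i, e⟩
  cases e
  · have h1 : blk p (i, false) = iw (blk p (i, true)) := rfl
    rw [h1, bd_iw]
    exact key i hy
  · exact key i hy

theorem bd_par {p n : ℕ} (hp : 1 ≤ p) (w : Word) (hw : Bd n w) : Bd (pn p n) (par p w) := by
  induction w with
  | nil => exact bd_nil _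
  | cons y w ih =>
    have h1 : par p (y :: w) = blk p y ++ par p w := rfl
    rw [h1]
    exact (bd_blk hp y (hw y List.mem_cons_self)).append
      (ih fun z hz => hw z (List.mem_cons_of_mem _ hz))

theorem bd_rt (p : ℕ) : Bd (p - 1) ((List.range (p - 1)).map fun i => (i, true)) := by
  intro x hx
  simp only [List.mem_map, List.mem_range] at hx
  obtain ⟨i, hi, rfl⟩ := hx
  exact hi

theorem bd_flatten_replicate {N : ℕ} (k : ℕ) (w : Word) (hw : Bd N w) :
    Bd N (List.replicate k w).flatten := by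
  induction k with
  | zero => exact bd_nil _
  | succ k ih =>
    rw [List.replicate_succ, List.flatten_cons]
    exact hw.append ih

theorem bd_tor (p : ℕ) (r : ℤ) : Bd (p - 1) (tor p r) := by
  unfold tor
  split_ifs
  · exact bd_flatten_replicate _ _ (bd_rt p)
  · exact bd_flatten_replicate _ _ (bd_iw.mpr (bd_rt p))

theorem bd_cab {p n : ℕ} (hp : 1 ≤ p) (q : ℤ) (w : Word) (hw : Bd n w) :
    Bd (pn p n) (cab p q w) := by
  unfold cab
  refine (bd_par hp w hw).append ((bd_tor p _).mono ?_)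
  unfold pn
  have h : p * 1 ≤ p * (n + 1) := Nat.mul_le_mul_left p (by omega)
  omega

theorem knot_word (K : Knot) : ∃ (n : ℕ) (w : Word) (h : IsKnot (ev n w)), Bd n w ∧
    K = closure (ev n w) h := by
  induction K using Quot.ind with
  | mk x =>
    obtain ⟨⟨n, b⟩, hb⟩ := x
    obtain ⟨w, hw, rfl⟩ := exists_word b
    exact ⟨n, w, hb, hw, rfl⟩

/-! ### The units -/

/-- `E a` as a unit -/
noncomputable def uE (he : ESER_Stmt) (a : ℚ) : ℚ⟦X⟧ˣ where
  val := E a
  inv := E (-a)
  val_inv := by rw [← he.2.1, add_neg_cancel, he.1]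
  inv_val := by rw [← he.2.1, neg_add_cancel, he.1]

theorem toK_inj : Function.Injective toK := IsFractionRing.injective ℚ⟦X⟧ KQ

/-! ### One label -/

theorem op_one {A : Type} [CommRing A] {ι : Type} [Fintype ι] [DecidableEq ι] [Unique ι]
    (T : RData A ι) (hR : ∀ x y, T.R x y = 1) (hR' : ∀ x y, T.R' x y = 1) (n : ℕ) (w : Word) :
    op T n w = 1 := by
  have hl : ∀ x : ℕ × Bool, opl T n x = 1 := by
    intro x
    unfold opl
    split_ifs with h h2
    · ext s t
      have hst : s = t := Subsingleton.elim s t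
      subst hst
      rw [Matrix.one_apply_eq]
      unfold atp
      rw [if_pos (fun _ _ _ => rfl), hR]
    · ext s t
      have hst : s = t := Subsingleton.elim s t
      subst hst
      rw [Matrix.one_apply_eq]
      unfold atp
      rw [if_pos (fun _ _ _ => rfl), hR']
    · rfl
  unfold op
  have : w.map (opl T n) = w.map (fun _ => 1) := List.map_congr_left (fun x _ => hl x)
  rw [this]
  simp

end CJ

open CJ

theorem cj (he : ESER_Stmt) (hl : LIFT_Stmt) (hg : GOODQ_Stmt) (hm : MARK_Stmt) (hf : FTB_Stmt)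
    (hj : JMAP_Stmt) (hc : CABJ_Stmt) (hs : SUMR_Stmt) : CJ_Stmt := by
  classical
  choose T hT1 hT2 hT3 hT4 using hl
  set θ : ℕ → ℚ⟦X⟧ˣ := fun N => uE he (((N : ℚ) ^ 2 - 1) / 2) with hθ
  have hgood : ∀ N, Good (T N) (θ N) := fun N => hg N (T N) (hT1 N) (θ N) rfl
  choose v hv using fun N => hm ℚ⟦X⟧ (Fin N) (T N) (θ N) (hgood N)
  -- the values over the fraction field
  set θ' : ℕ → KQˣ := fun N => Units.map (toK : ℚ⟦X⟧ →* KQ) (θ N) with hθ'
  have hθ'v : ∀ N : ℕ, ((θ' N : KQˣ) : KQ) = sQ ^ ((N : ℤ) ^ 2 - 1) := by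
    intro N
    have h1 : ((θ' N : KQˣ) : KQ) = toK (E (((N : ℚ) ^ 2 - 1) / 2)) := rfl
    rw [h1, he.2.2.2.1 ((N : ℤ) ^ 2 - 1)]
    push_cast
    rfl
  have hJ : ∀ (N n : ℕ) (w : Word), toK (J (T N) (θ N) n w) = J (RD sQ (V sQ N)) (θ' N) n w := by
    intro N n w
    have := (hj ℚ⟦X⟧ KQ toK (Fin N) (T N) (θ N) n w).2
    rw [this, hT1 N]
  have hmain0 : ∀ K, v 0 K = 0 := by
    intro K
    obtain ⟨n, w, h, hb, rfl⟩ := knot_word K
    rw [hv 0 n w h hb]
    unfold J Jfr
    rw [Finset.univ_eq_empty (α := Fin (n + 1) → Fin 0), Finset.sum_empty, mul_zero]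
  refine ⟨v, ?_, hmain0, ?_, ?_, ?_⟩
  · -- finite type
    intro N K K' hu
    refine hf (Fin N) (T N) (θ N) (hgood N) ?_ (v N) (hv N) K K' hu
    intro x y
    have c1 : constantCoeff (((θ N)⁻¹ : ℚ⟦X⟧ˣ) : ℚ⟦X⟧) = 1 := he.2.2.1 _
    have c2 : constantCoeff ((θ N : ℚ⟦X⟧ˣ) : ℚ⟦X⟧) = 1 := he.2.2.1 _
    rw [map_mul, map_mul, c1, c2, hT2, hT3]
  · -- one label
    intro K
    obtain ⟨n, w, h, hb, rfl⟩ := knot_word K
    rw [hv 1 n w h hb]
    have hwt : ∀ i : Fin 1, (V sQ 1).wt i = 0 := by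
      intro i
      simp [V]
    have haq : aq sQ 0 = 1 := by simp [aq, qfac]
    have haq' : aq' sQ 0 = 1 := by simp [aq', qfac]
    have hR : ∀ x y, (T 1).R x y = 1 := by
      intro x y
      apply toK_inj
      have h1 : toK ((T 1).R x y) = ((T 1).map toK).R x y := rfl
      rw [h1, hT1 1, map_one]
      have e1 : x.2 = y.1 := Subsingleton.elim _ _
      have e2 : x.1 = y.2 := Subsingleton.elim _ _
      simp only [RD, Rm, hwt, Fintype.card_fin, Finset.sum_range_one, pow_zero, haq, e1, e2,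
        Matrix.one_apply_eq, mul_one, mul_zero, zpow_zero]
    have hR' : ∀ x y, (T 1).R' x y = 1 := by
      intro x y
      apply toK_inj
      have h1 : toK ((T 1).R' x y) = ((T 1).map toK).R' x y := rfl
      rw [h1, hT1 1, map_one]
      have e1 : x.2 = y.1 := Subsingleton.elim _ _
      have e2 : x.1 = y.2 := Subsingleton.elim _ _
      simp only [RD, Rm', hwt, Fintype.card_fin, Finset.sum_range_one, pow_zero, haq', e1, e2,
        Matrix.one_apply_eq, mul_one, mul_zero, zpow_zero, neg_zero]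
    have hκ : ∀ i, (T 1).κ i = 1 := by
      intro i
      apply toK_inj
      have h1 : toK ((T 1).κ i) = ((T 1).map toK).κ i := rfl
      rw [h1, hT1 1, map_one]
      simp only [RD, hwt, mul_zero, zpow_zero]
    have hθ1 : θ 1 = 1 := by
      apply Units.ext
      have h1 : ((θ 1 : ℚ⟦X⟧ˣ) : ℚ⟦X⟧) = E ((((1 : ℕ) : ℚ) ^ 2 - 1) / 2) := rfl
      rw [h1]
      have h2 : ((((1 : ℕ) : ℚ) ^ 2 - 1) / 2) = 0 := by norm_num
      rw [h2, he.1]
      rfl
    unfold J Jfr
    rw [hθ1, one_zpow, Units.val_one, one_mul]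
    have : ∀ s : Fin (n + 1) → Fin 1, op (T 1) n w s s * ∏ i, (T 1).κ (s i) = 1 := by
      intro s
      rw [op_one (T 1) hR hR' n w, Matrix.one_apply_eq, one_mul]
      exact Finset.prod_eq_one (fun i _ => hκ _)
    rw [Finset.sum_congr rfl (fun s _ => this s)]
    simp
  · -- the unknot
    intro N
    have h1 : v N unknot = J (T N) (θ N) 0 [] := hv N 0 [] isKnot_nil (bd_nil 0)
    have hκ : ∀ i : Fin N, (T N).κ i = E ((N : ℚ) - 1 - 2 * (i : ℕ)) := by
      intro i
      apply toK_inj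
      have h1 : toK ((T N).κ i) = ((T N).map toK).κ i := rfl
      rw [h1, hT1 N]
      have h2 : (RD sQ (V sQ N)).κ i = sQ ^ (2 * ((N : ℤ) - 1 - 2 * (i : ℕ))) := rfl
      rw [h2, he.2.2.2.1]
      congr 2
      push_cast
      ring
    have h2 : J (T N) (θ N) 0 [] = ∑ i : Fin N, (T N).κ i := by
      unfold J Jfr
      rw [wr_nil, neg_zero, zpow_zero, Units.val_one, one_mul]
      have h3 : ∀ s : Fin (0 + 1) → Fin N, op (T N) 0 [] s s * ∏ i, (T N).κ (s i)
          = (T N).κ (s 0) := by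
        intro s
        have : op (T N) 0 [] = 1 := rfl
        rw [this, Matrix.one_apply_eq, one_mul]
        exact Fin.prod_univ_one _
      rw [Finset.sum_congr rfl (fun s _ => h3 s)]
      exact Fintype.sum_equiv (Equiv.funUnique (Fin 1) (Fin N))
        (fun s : Fin 1 → Fin N => (T N).κ (s 0)) _ (fun s => rfl)
    rw [h1, h2, Finset.sum_congr rfl (fun i _ => hκ i),
      Fin.sum_univ_eq_sum_range (fun i : ℕ => E ((N : ℚ) - 1 - 2 * (i : ℕ))) N]
    have key : ∀ M : ℕ, (E 1 - E (-1)) * ∑ i ∈ Finset.range M, E ((N : ℚ) - 1 - 2 * (i : ℕ))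
        = E N - E ((N : ℚ) - 2 * M) := by
      intro M
      induction M with
      | zero => simp
      | succ M ih =>
        rw [Finset.sum_range_succ, mul_add, ih, sub_mul, ← he.2.1, ← he.2.1]
        have e1 : (1 : ℚ) + ((N : ℚ) - 1 - 2 * M) = N - 2 * M := by ring
        have e2 : (-1 : ℚ) + ((N : ℚ) - 1 - 2 * M) = N - 2 * ((M + 1 : ℕ) : ℚ) := by
          push_cast; ring
        rw [e1, e2]
        ring
    rw [key N]
    congr 2
    ring
  · -- cables
    intro n w h p q h' hb hp hpq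
    obtain ⟨c, rfl⟩ : ∃ c, p = c + 1 := ⟨p - 1, by omega⟩
    have hb' : Bd (pn (c + 1) n) (cab (c + 1) q w) := bd_cab hp q w hb
    have hcast : ((c + 1 : ℕ) : ℤ) = (c : ℤ) + 1 := by push_cast; ring
    have hgcd : Int.gcd ((c : ℤ) + 1) q = 1 := by rw [← hcast]; exact hpq
    have h1 := hs ℚ⟦X⟧ E he.1 he.2.1 (fun N => v N (closure (ev n w) h)) (c + 1) q hp
      (hmain0 _) (fun N => v N (closure (ev (pn (c + 1) n) (cab (c + 1) q w)) h')) (by
        intro N
        apply toK_inj
        rw [hv N _ _ h' hb', hJ]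
        have h2 := hc θ' hθ'v N c n q w hb h hgcd
        have h3 : pn (c + 1) n = (c + 1) * n + c := rfl
        rw [h3, h2, map_sum]
        refine Finset.sum_congr rfl (fun k _ => ?_)
        rw [map_mul, map_mul, map_intCast, hv (k + 1) n w h hb, hJ]
        push_cast
        rfl)
    intro N hN
    exact h1 N hN

end Pool.Agent.IT
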