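import Pool.Agent.IT.TopStmts

/-!
Iterated torus knots, module PRM: the cable is connected if and only if the parameters are
relatively prime.
-/

namespace Pool.Agent.IT

open Pool.Agent.LibH11

namespace PRM

/-- the permutation of the natural numbers given by a word -/
def pw (w : Word) : Equiv.Perm ℕ := (w.map fun x => Equiv.swap x.1 (x.1 + 1)).prod

theorem pw_nil : pw [] = 1 := rfl

theorem pw_cons (x : ℕ × Bool) (w : Word) : pw (x :: w) = Equiv.swap x.1 (x.1 + 1) * pw w := by
  unfold pw
  rw [List.map_cons, List.prod_cons]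

theorem pw_append (u v : Word) : pw (u ++ v) = pw u * pw v := by
  unfold pw
  rw [List.map_append, List.prod_append]

theorem pw_single (x : ℕ × Bool) : pw [x] = Equiv.swap x.1 (x.1 + 1) := by
  rw [pw_cons, pw_nil, mul_one]

theorem pw_iw (w : Word) : pw (iw w) = (pw w)⁻¹ := by
  induction w with
  | nil => rw [iw_nil, pw_nil, inv_one]
  | cons x w ih =>
    have h1 : iw (x :: w) = iw w ++ [(x.1, !x.2)] := by
      unfold iw
      simp
    rw [h1, pw_append, ih, pw_single, pw_cons, mul_inv_rev, Equiv.swap_inv]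

theorem pw_replicate (k : ℕ) (w : Word) : pw (List.replicate k w).flatten = pw w ^ k := by
  induction k with
  | zero => rfl
  | succ k ih => rw [List.replicate_succ, List.flatten_cons, pw_append, ih, pow_succ']

/-- the permutation of the strands is given by `pw` -/
theorem perm_ev {N : ℕ} (w : Word) (hw : Bd N w) (x : Fin (N + 1)) :
    ((perm (ev N w) x : Fin (N + 1)) : ℕ) = pw w x := by
  induction w with
  | nil => simp [pw_nil]
  | cons y w ih =>
    have hw' : Bd N w := fun z hz => hw z (List.mem_cons_of_mem _ hz)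
    have hy : y.1 < N := hw y List.mem_cons_self
    have key : ∀ z : Fin (N + 1), ((perm (gen N y) z : Fin (N + 1)) : ℕ) =
        Equiv.swap y.1 (y.1 + 1) (z : ℕ) := by
      intro z
      have h1 : perm (gen N y) = Equiv.swap (⟨y.1, by omega⟩ : Fin (N + 1)) ⟨y.1 + 1, by omega⟩ := by
        rcases y with ⟨i, e⟩
        simp only at hy
        have h2 : perm (gen N (i, true)) =
            Equiv.swap (⟨i, by omega⟩ : Fin (N + 1)) ⟨i + 1, by omega⟩ := by
          rw [gen_true hy, perm_sg]
          rfl
        cases e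
        · rw [gen_false, map_inv, h2, Equiv.swap_inv]
        · exact h2
      rw [h1, Equiv.swap_apply_def, Equiv.swap_apply_def]
      simp only [Fin.ext_iff]
      split_ifs <;> rfl
    rw [ev_cons, map_mul, Equiv.Perm.mul_apply, key, ih hw', pw_cons, Equiv.Perm.mul_apply]

theorem Dw_succ (s m : ℕ) : Dw s (m + 1) = (s + m, true) :: Dw s m := by
  unfold Dw
  rw [List.range_succ_eq_map, List.map_cons, List.map_map]
  congr 1
  apply List.map_congr_left
  intro i _
  simp only [Function.comp]
  congr 1
  omega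

theorem Cw_succ (s a b : ℕ) : Cw s (a + 1) b = Cw s a b ++ Dw (s + a) b := by
  unfold Cw
  rw [List.range_succ, List.flatMap_append]
  simp

theorem pw_Dw (s m x : ℕ) :
    pw (Dw s m) x = if x = s then s + m else if s < x ∧ x ≤ s + m then x - 1 else x := by
  induction m with
  | zero =>
    have : Dw s 0 = [] := rfl
    rw [this, pw_nil]
    simp only [Equiv.Perm.one_apply]
    split_ifs <;> omega
  | succ m ih =>
    rw [Dw_succ, pw_cons, Equiv.Perm.mul_apply, ih, Equiv.swap_apply_def]
    simp only
    split_ifs <;> omega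

theorem pw_Cw (s a b x : ℕ) :
    pw (Cw s a b) x = if s ≤ x ∧ x < s + a then x + b else
      if s + a ≤ x ∧ x < s + a + b then x - a else x := by
  induction a generalizing x with
  | zero =>
    have : Cw s 0 b = [] := rfl
    rw [this, pw_nil]
    simp only [Equiv.Perm.one_apply]
    split_ifs <;> omega
  | succ a ih =>
    rw [Cw_succ, pw_append, Equiv.Perm.mul_apply, pw_Dw, ih]
    split_ifs <;> omega

theorem blk_true {p : ℕ} (hp : 1 ≤ p) (i : ℕ) : blk p (i, true) = Cw (p * i) p p := by
  unfold Cw Dw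
  change ((List.range p).flatMap fun a =>
    (List.range p).map fun b => (p * i + p - 1 + a - b, true)) = _
  congr 1
  funext a
  apply List.map_congr_left
  intro b _
  congr 1
  omega

theorem pw_blk {p : ℕ} (hp : 1 ≤ p) (y : ℕ × Bool) (k j : ℕ) (hj : j < p) :
    pw (blk p y) (p * k + j) = p * Equiv.swap y.1 (y.1 + 1) k + j := by
  have key : ∀ i k : ℕ, pw (blk p (i, true)) (p * k + j) = p * Equiv.swap i (i + 1) k + j := by
    intro i k
    rw [blk_true hp, pw_Cw, Equiv.swap_apply_def]
    have h1 : p * (i + 1) = p * i + p := by ring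
    rcases lt_trichotomy k i with h | h | h
    · have h2 : p * (k + 1) ≤ p * i := Nat.mul_le_mul_left p h
      have h3 : p * (k + 1) = p * k + p := by ring
      rw [if_neg (by omega), if_neg (by omega), if_neg (by omega), if_neg (by omega)]
    · subst h
      rw [if_pos (by omega), if_pos rfl]
      omega
    · rcases eq_or_ne k (i + 1) with h' | h'
      · subst h'
        rw [if_neg (by omega), if_pos (by omega), if_neg (by omega), if_pos rfl]
        omega
      · have h2 : p * (i + 2) ≤ p * k := Nat.mul_le_mul_left p (by omega)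
        have h3 : p * (i + 2) = p * i + p + p := by ring
        rw [if_neg (by omega), if_neg (by omega), if_neg (by omega), if_neg h']
  rcases y with ⟨i, e⟩
  cases e
  · have h1 : blk p (i, false) = iw (blk p (i, true)) := rfl
    rw [h1, pw_iw, Equiv.Perm.inv_eq_iff_eq, key]
    simp
  · exact key i k

theorem pw_par {p : ℕ} (hp : 1 ≤ p) (w : Word) (k j : ℕ) (hj : j < p) :
    pw (par p w) (p * k + j) = p * pw w k + j := by
  induction w with
  | nil => rfl
  | cons y w ih =>
    have h1 : par p (y :: w) = blk p y ++ par p w := rfl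
    rw [h1, pw_append, Equiv.Perm.mul_apply, ih, pw_blk hp _ _ _ hj, pw_cons,
      Equiv.Perm.mul_apply]

/-- the torus braid -/
def rt (m : ℕ) : Word := (List.range m).map fun i => (i, true)

theorem pw_rt (m x : ℕ) :
    pw (rt m) x = if x < m then x + 1 else if x = m then 0 else x := by
  induction m generalizing x with
  | zero =>
    have : rt 0 = [] := rfl
    rw [this, pw_nil]
    simp only [Equiv.Perm.one_apply]
    split_ifs <;> omega
  | succ m ih =>
    have h1 : rt (m + 1) = rt m ++ [(m, true)] := by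
      unfold rt
      rw [List.range_succ, List.map_append]
      rfl
    rw [h1, pw_append, Equiv.Perm.mul_apply, ih, pw_single, Equiv.swap_apply_def]
    simp only
    split_ifs <;> omega

theorem pw_rt_zmod {p : ℕ} (hp : 1 ≤ p) (j : ZMod p) :
    pw (rt (p - 1)) j.val = (j + 1).val := by
  have : NeZero p := ⟨by omega⟩
  have hj := ZMod.val_lt j
  rw [pw_rt, ZMod.val_add, ZMod.val_one_eq_one_mod, Nat.add_mod_mod]
  by_cases h : j.val < p - 1
  · rw [if_pos h, Nat.mod_eq_of_lt (by omega)]
  · rw [if_neg h, if_pos (by omega)]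
    have h2 : j.val + 1 = p := by omega
    rw [h2, Nat.mod_self]

theorem pw_rt_ge {p x : ℕ} (hx : p ≤ x) (hp : 1 ≤ p) : pw (rt (p - 1)) x = x := by
  rw [pw_rt, if_neg (by omega), if_neg (by omega)]

theorem tor_eq (p : ℕ) (r : ℤ) : pw (tor p r) = pw (rt (p - 1)) ^ r := by
  unfold tor
  by_cases h : 0 ≤ r
  · rw [if_pos h, pw_replicate]
    conv_rhs => rw [← Int.natAbs_of_nonneg h]
    rw [zpow_natCast]
    rfl
  · rw [if_neg h, pw_replicate, pw_iw, inv_pow]
    have h2 : r = - (r.natAbs : ℤ) := by omega
    conv_rhs => rw [h2]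
    rw [zpow_neg, zpow_natCast]
    rfl

theorem pw_tor_zmod {p : ℕ} (hp : 1 ≤ p) (r : ℤ) (j : ZMod p) :
    pw (tor p r) j.val = (j + (r : ZMod p)).val := by
  rw [tor_eq]
  induction r using Int.induction_on generalizing j with
  | zero => simp
  | succ i ih =>
    rw [zpow_add_one, Equiv.Perm.mul_apply, pw_rt_zmod hp, ih]
    congr 1
    push_cast
    ring
  | pred i ih =>
    rw [zpow_sub_one, Equiv.Perm.mul_apply]
    have h1 : (pw (rt (p - 1)))⁻¹ j.val = (j - 1).val := by
      rw [Equiv.Perm.inv_eq_iff_eq, pw_rt_zmod hp, sub_add_cancel]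
    rw [h1, ih]
    congr 1
    push_cast
    ring

theorem pw_tor_ge {p x : ℕ} (hx : p ≤ x) (hp : 1 ≤ p) (r : ℤ) : pw (tor p r) x = x := by
  rw [tor_eq]
  have h1 : Function.IsFixedPt (pw (rt (p - 1))) x := pw_rt_ge hx hp
  exact Equiv.Perm.zpow_apply_eq_self_of_apply_eq_self h1 r

/-- the permutation of a cable -/
theorem pw_cab {p : ℕ} (hp : 1 ≤ p) (q : ℤ) (w : Word) (k : ℕ) (j : ZMod p) :
    pw (cab p q w) (p * k + j.val) =
      p * pw w k + (if k = 0 then j + ((q - p * wr w : ℤ) : ZMod p) else j).val := by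
  have : NeZero p := ⟨by omega⟩
  have hj := ZMod.val_lt j
  unfold cab
  rw [pw_append, Equiv.Perm.mul_apply]
  by_cases hk : k = 0
  · subst hk
    rw [if_pos rfl]
    have h0 : pw (tor p (q - p * wr w)) (p * 0 + j.val) =
        p * 0 + (j + ((q - p * wr w : ℤ) : ZMod p)).val := by
      rw [mul_zero, zero_add, zero_add, pw_tor_zmod hp]
    rw [h0, pw_par hp _ _ _ (ZMod.val_lt _)]
  · rw [if_neg hk]
    have h1 : p * 1 ≤ p * k := Nat.mul_le_mul_left p (by omega)
    rw [pw_tor_ge (by omega) hp, pw_par hp _ _ _ hj]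

theorem bd_blk {p n : ℕ} (hp : 1 ≤ p) (y : ℕ × Bool) (hy : y.1 < n) :
    Bd (pn p n) (blk p y) := by
  have key : ∀ i : ℕ, i < n → Bd (pn p n) (blk p (i, true)) := by
    intro i hi
    rw [blk_true hp]
    intro x hx
    unfold Cw Dw at hx
    simp only [List.mem_flatMap, List.mem_map, List.mem_range] at hx
    obtain ⟨a, ha, b, hb, rfl⟩ := hx
    simp only
    unfold pn
    have h1 : p * (i + 1) ≤ p * n := Nat.mul_le_mul_left p hi
    have h2 : p * (i + 1) = p * i + p := by ring
    have h3 : p * (n + 1) = p * n + p := by ring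
    omega
  rcases y with ⟨i, e⟩
  cases e
  · have h1 : blk p (i, false) = iw (blk p (i, true)) := rfl
    rw [h1, bd_iw]
    exact key i hy
  · exact key i hy

theorem bd_par {p n : ℕ} (hp : 1 ≤ p) (w : Word) (hw : Bd n w) : Bd (pn p n) (par p w) := by
  induction w with
  | nil => exact bd_nil _
  | cons y w ih =>
    have h1 : par p (y :: w) = blk p y ++ par p w := rfl
    rw [h1]
    exact (bd_blk hp y (hw y List.mem_cons_self)).append
      (ih fun z hz => hw z (List.mem_cons_of_mem _ hz))

theorem bd_rt (p : ℕ) : Bd (p - 1) (rt (p - 1)) := by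
  intro x hx
  unfold rt at hx
  simp only [List.mem_map, List.mem_range] at hx
  obtain ⟨i, hi, rfl⟩ := hx
  exact hi

theorem bd_flatten_replicate {N : ℕ} (k : ℕ) (w : Word) (hw : Bd N w) :
    Bd N (List.replicate k w).flatten := by
  induction k with
  | zero => exact bd_nil _
  | succ k ih =>
    rw [List.replicate_succ, List.flatten_cons]
    exact hw.append ih

theorem bd_tor (p : ℕ) (r : ℤ) : Bd (p - 1) (tor p r) := by
  unfold tor
  split_ifs
  · exact bd_flatten_replicate _ _ (bd_rt p)
  · exact bd_flatten_replicate _ _ (bd_iw.mpr (bd_rt p))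

theorem bd_cab {p n : ℕ} (hp : 1 ≤ p) (q : ℤ) (w : Word) (hw : Bd n w) :
    Bd (pn p n) (cab p q w) := by
  unfold cab
  refine (bd_par hp w hw).append ((bd_tor p _).mono ?_)
  unfold pn
  have h : p * 1 ≤ p * (n + 1) := Nat.mul_le_mul_left p (by omega)
  omega

theorem pn_succ {p n : ℕ} (hp : 1 ≤ p) : pn p n + 1 = p * (n + 1) := by
  unfold pn
  have h : p * 1 ≤ p * (n + 1) := Nat.mul_le_mul_left p (by omega)
  omega

/-- the position of the strand `j` of the block `k` -/
def pos {p n : ℕ} (hp : 1 ≤ p) (k : Fin (n + 1)) (j : ZMod p) : Fin (pn p n + 1) :=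
  ⟨p * k + j.val, by
    have : NeZero p := ⟨by omega⟩
    rw [pn_succ hp]
    have h1 : p * ((k : ℕ) + 1) ≤ p * (n + 1) := Nat.mul_le_mul_left p k.2
    have h2 : p * ((k : ℕ) + 1) = p * k + p := by ring
    have := ZMod.val_lt j
    omega⟩

theorem pos_surj {p n : ℕ} (hp : 1 ≤ p) (x : Fin (pn p n + 1)) :
    ∃ (k : Fin (n + 1)) (j : ZMod p), pos hp k j = x := by
  have hx := x.2
  have h0 : (x : ℕ) < p * (n + 1) := by
    rw [← pn_succ hp]
    exact hx
  refine ⟨⟨(x : ℕ) / p, Nat.div_lt_of_lt_mul h0⟩, ((x : ℕ) : ZMod p), ?_⟩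
  apply Fin.ext
  unfold pos
  simp only
  rw [ZMod.val_natCast]
  exact Nat.div_add_mod _ _

theorem perm_cab {p n : ℕ} (hp : 1 ≤ p) (q : ℤ) (w : Word) (hw : Bd n w) (k : Fin (n + 1))
    (j : ZMod p) :
    perm (ev (pn p n) (cab p q w)) (pos hp k j) =
      pos hp (perm (ev n w) k)
        (if (k : ℕ) = 0 then j + ((q - p * wr w : ℤ) : ZMod p) else j) := by
  apply Fin.ext
  rw [perm_ev _ (bd_cab hp q w hw)]
  unfold pos
  simp only
  rw [pw_cab hp, perm_ev w hw]

end PRM

open PRM

/-- The cable is connected if and only if the parameters are relatively prime. -/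
theorem prm : PRM_Stmt := by
  intro p n q w hp hw hK
  have : NeZero p := ⟨by omega⟩
  set c : ZMod p := ((q - p * wr w : ℤ) : ZMod p) with hc
  have hcq : c = (q : ZMod p) := by
    rw [hc]
    push_cast
    simp
  set g := perm (ev (pn p n) (cab p q w)) with hg
  have hstep : ∀ (k : Fin (n + 1)) (j : ZMod p),
      g (pos hp k j) = pos hp (perm (ev n w) k) (if (k : ℕ) = 0 then j + c else j) :=
    fun k j => perm_cab hp q w hw k j
  constructor
  · intro hC
    by_contra hd
    have hd0 : Int.gcd p q ≠ 0 := by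
      intro h
      rw [Int.gcd_eq_zero_iff] at h
      omega
    set d := Int.gcd p q with hddef
    have : NeZero d := ⟨hd0⟩
    have hdp : d ∣ p := by
      have := Int.gcd_dvd_left (a := (p : ℤ)) (b := q)
      exact Int.natCast_dvd_natCast.mp this
    have hdq : (d : ℤ) ∣ q := Int.gcd_dvd_right (a := (p : ℤ)) (b := q)
    have hp2 : 2 ≤ p := by
      have := Nat.le_of_dvd (by omega) hdp
      omega
    have hf : ∀ x : Fin (pn p n + 1),
        (((g x : Fin (pn p n + 1)) : ℕ) : ZMod d) = ((x : ℕ) : ZMod d) := by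
      intro x
      obtain ⟨k, j, rfl⟩ := pos_surj hp x
      rw [hstep]
      unfold pos
      simp only
      have hpd : ((p : ℕ) : ZMod d) = 0 := (ZMod.natCast_eq_zero_iff _ _).mpr hdp
      push_cast
      rw [hpd, zero_mul, zero_mul, zero_add, zero_add]
      by_cases hk : (k : ℕ) = 0
      · rw [if_pos hk]
        rw [ZMod.natCast_val, ZMod.natCast_val]
        rw [ZMod.cast_add hdp]
        have h3 : (ZMod.cast c : ZMod d) = 0 := by
          rw [hcq, ZMod.cast_intCast hdp]
          exact (ZMod.intCast_zmod_eq_zero_iff_dvd _ _).mpr hdq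
        rw [h3, add_zero]
      · rw [if_neg hk]
    have hlt : 1 < pn p n + 1 := by
      rw [pn_succ hp]
      have h : p * 1 ≤ p * (n + 1) := Nat.mul_le_mul_left p (by omega)
      omega
    have h01 := hC (⟨0, by omega⟩ : Fin (pn p n + 1)) ⟨1, hlt⟩
    have h02 := sameCycle_map g (1 : Equiv.Perm (ZMod d))
      (fun x : Fin (pn p n + 1) => ((x : ℕ) : ZMod d)) (by
        intro x
        rw [hf x]) h01
    rw [Equiv.Perm.sameCycle_one] at h02
    simp only [Nat.cast_zero, Nat.cast_one] at h02
    have h1 : (1 : ZMod d) = 0 := h02.symm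
    have h3 : ((1 : ℕ) : ZMod d) = 0 := by
      rw [Nat.cast_one]
      exact h1
    rw [ZMod.natCast_eq_zero_iff] at h3
    exact hd (Nat.dvd_one.mp h3)
  · intro hgcd
    -- moving to the block 0
    have hmove : ∀ (m : ℕ) (k : Fin (n + 1)) (j : ZMod p), ((perm (ev n w)) ^ m) k = 0 →
        g.SameCycle (pos hp k j) (pos hp 0 j) := by
      intro m
      induction m with
      | zero =>
        intro k j hk
        rw [pow_zero, Equiv.Perm.one_apply] at hk
        rw [hk]
      | succ m ih =>
        intro k j hk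
        by_cases hk0 : (k : ℕ) = 0
        · have : k = 0 := Fin.ext hk0
          rw [this]
        · have h1 := ih (perm (ev n w) k) j (by
            rw [← Equiv.Perm.mul_apply, ← pow_succ]
            exact hk)
          have h2 := hstep k j
          rw [if_neg hk0] at h2
          rw [← h2] at h1
          exact Equiv.Perm.sameCycle_apply_left.mp h1
    have hmove' : ∀ (k : Fin (n + 1)) (j : ZMod p), g.SameCycle (pos hp k j) (pos hp 0 j) := by
      intro k j
      obtain ⟨m, hm⟩ := (hK k 0).exists_nat_pow_eq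
      exact hmove m k j hm
    have hrot : ∀ j : ZMod p, g.SameCycle (pos hp (0 : Fin (n + 1)) j) (pos hp 0 (j + c)) := by
      intro j
      have h2 := hstep 0 j
      rw [if_pos (by rfl)] at h2
      have h1 := hmove' (perm (ev n w) 0) (j + c)
      rw [← h2] at h1
      exact Equiv.Perm.sameCycle_apply_left.mp h1
    have hrot' : ∀ (m : ℕ), g.SameCycle (pos hp (0 : Fin (n + 1)) 0) (pos hp 0 ((m : ZMod p) * c)) := by
      intro m
      induction m with
      | zero =>
        rw [Nat.cast_zero, zero_mul]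
      | succ m ih =>
        have h1 : (((m + 1 : ℕ) : ZMod p)) * c = (m : ZMod p) * c + c := by
          push_cast
          ring
        rw [h1]
        exact ih.trans (hrot _)
    have hunit : IsUnit c := by
      rw [hcq]
      have h1 := Int.gcd_eq_gcd_ab (p : ℤ) q
      rw [hgcd] at h1
      have h2 : ((1 : ℤ) : ZMod p) = ((p * Int.gcdA p q + q * Int.gcdB p q : ℤ) : ZMod p) := by
        rw [← h1]
        rfl
      push_cast at h2
      rw [ZMod.natCast_self, zero_mul, zero_add] at h2
      exact IsUnit.of_mul_eq_one _ h2.symm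
    have hall : ∀ j : ZMod p, g.SameCycle (pos hp (0 : Fin (n + 1)) 0) (pos hp 0 j) := by
      intro j
      obtain ⟨u, hu⟩ := hunit
      have h1 := hrot' (j * (↑u⁻¹ : ZMod p)).val
      rw [ZMod.natCast_zmod_val, ← hu, mul_assoc, Units.inv_mul, mul_one] at h1
      exact h1
    intro x y
    obtain ⟨k, j, rfl⟩ := pos_surj hp x
    obtain ⟨k', j', rfl⟩ := pos_surj hp y
    exact ((hmove' k j).trans (hall j).symm).trans ((hall j').trans (hmove' k' j').symm)

end Pool.Agent.IT
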