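import Pool.Agent.IT.Stmts
import Pool.Agent.IT.Prm

set_option linter.unusedSectionVars false

/-!
# Module CLS: the classical limit of the traces of the torus braids
-/

namespace Pool.Agent.IT
open Pool.Agent.LibH11
open scoped BigOperators
open PowerSeries

namespace CLS

variable {ι : Type} [Fintype ι] [DecidableEq ι] (T : RData ℚ⟦X⟧ ι)

theorem perm_gen {N : ℕ} (y : ℕ × Bool) (hy : y.1 < N) :
    perm (gen N y) = Equiv.swap (⟨y.1, Nat.lt_succ_of_lt hy⟩ : Fin (N + 1))
      ⟨y.1 + 1, Nat.succ_lt_succ hy⟩ := by
  rcases y with ⟨i, e⟩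
  simp only at hy
  have h2 : perm (gen N (i, true)) =
      Equiv.swap (⟨i, Nat.lt_succ_of_lt hy⟩ : Fin (N + 1)) ⟨i + 1, Nat.succ_lt_succ hy⟩ := by
    rw [gen_true hy, perm_sg]
    rfl
  cases e
  · rw [gen_false, map_inv, h2, Equiv.swap_inv]
  · exact h2

/-- The constant coefficients of the matrix of a letter. -/
theorem cc_opl (hR : ∀ x y, constantCoeff (T.R x y) = if x.1 = y.2 ∧ x.2 = y.1 then 1 else 0)
    (hR' : ∀ x y, constantCoeff (T.R' x y) = if x.1 = y.2 ∧ x.2 = y.1 then 1 else 0)
    (N : ℕ) (y : ℕ × Bool) (s t : Fin (N + 1) → ι) :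
    constantCoeff (opl T N y s t) = if (fun z => s (perm (gen N y) z)) = t then 1 else 0 := by
  by_cases hy : y.1 < N
  · rw [perm_gen y hy]
    unfold opl
    rw [dif_pos hy]
    set a : Fin (N + 1) := ⟨y.1, Nat.lt_succ_of_lt hy⟩ with ha
    set b : Fin (N + 1) := ⟨y.1 + 1, Nat.succ_lt_succ hy⟩ with hb
    have hab : a ≠ b := by
      intro h
      have := congrArg Fin.val h
      simp [ha, hb] at this
    have key : ∀ Q : Matrix (ι × ι) (ι × ι) ℚ⟦X⟧,
        (∀ x y, constantCoeff (Q x y) = if x.1 = y.2 ∧ x.2 = y.1 then 1 else 0) →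
        constantCoeff (atp Q a b s t) =
        if (fun z => s (Equiv.swap a b z)) = t then (1 : ℚ) else 0 := by
      intro Q hQ
      unfold atp
      by_cases h1 : ∀ z, z ≠ a → z ≠ b → s z = t z
      · rw [if_pos h1, hQ]
        by_cases h2 : s a = t b ∧ s b = t a
        · rw [if_pos h2, if_pos]
          funext z
          by_cases hza : z = a
          · rw [hza, Equiv.swap_apply_left]
            exact h2.2
          · by_cases hzb : z = b
            · rw [hzb, Equiv.swap_apply_right]
              exact h2.1
            · rw [Equiv.swap_apply_of_ne_of_ne hza hzb]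
              exact h1 z hza hzb
        · rw [if_neg h2, if_neg]
          intro h3
          apply h2
          constructor
          · have := congrFun h3 b
            simp only [Equiv.swap_apply_right] at this
            exact this
          · have := congrFun h3 a
            simp only [Equiv.swap_apply_left] at this
            exact this
      · rw [if_neg h1, map_zero, if_neg]
        intro h3
        apply h1
        intro z hza hzb
        have := congrFun h3 z
        simp only [Equiv.swap_apply_of_ne_of_ne hza hzb] at this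
        exact this
    rcases y with ⟨i, e⟩
    cases e
    · exact key _ hR'
    · exact key _ hR
  · have h1 : gen N y = 1 := by
      rcases y with ⟨i, e⟩
      exact gen_of_ge (not_lt.mp hy) e
    rw [h1, map_one]
    unfold opl
    rw [dif_neg hy, Matrix.one_apply]
    have h2 : (fun z => s ((1 : Equiv.Perm (Fin (N + 1))) z)) = s := rfl
    rw [h2]
    split_ifs
    · exact map_one _
    · exact map_zero _

/-- The constant coefficients of the matrix of a word. -/
theorem cc_op (hR : ∀ x y, constantCoeff (T.R x y) = if x.1 = y.2 ∧ x.2 = y.1 then 1 else 0)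
    (hR' : ∀ x y, constantCoeff (T.R' x y) = if x.1 = y.2 ∧ x.2 = y.1 then 1 else 0)
    (N : ℕ) (w : Word) (s t : Fin (N + 1) → ι) :
    constantCoeff (op T N w s t) = if (fun z => s (perm (ev N w) z)) = t then 1 else 0 := by
  induction w generalizing s with
  | nil =>
    have h2 : (fun z => s (perm (ev N []) z)) = s := by
      rw [ev_nil, map_one]
      rfl
    rw [h2]
    unfold op
    rw [List.map_nil, List.prod_nil, Matrix.one_apply]
    split_ifs
    · exact map_one _
    · exact map_zero _
  | cons y w ih =>
    have h1 : op T N (y :: w) = opl T N y * op T N w := by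
      unfold op
      rw [List.map_cons, List.prod_cons]
    rw [h1, Matrix.mul_apply, map_sum]
    simp only [map_mul, ih, cc_opl T hR hR']
    rw [Finset.sum_eq_single (fun z => s (perm (gen N y) z))]
    · rw [if_pos rfl, one_mul, ev_cons, map_mul]
      rfl
    · intro u _ hu
      rw [if_neg (fun h => hu h.symm), zero_mul]
    · intro h
      exact absurd (Finset.mem_univ _) h

theorem isKnot_tor (c : ℕ) (r : ℤ) (hg : Int.gcd (c + 1) r = 1) : IsKnot (ev c (tor (c + 1) r)) := by
  have h1 := (prm (c + 1) 0 r [] (by omega) (bd_nil 0) isKnot_nil).mpr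
    (by rw [Nat.cast_succ]; exact hg)
  rw [cab_nil] at h1
  have h2 : pn (c + 1) 0 = c := by
    unfold pn
    simp
  rw [h2] at h1
  exact h1

theorem const_of_knot {c : ℕ} (b : Br c) (hb : IsKnot b) (s : Fin (c + 1) → ι)
    (h : (fun z => s (perm b z)) = s) (x : Fin (c + 1)) : s x = s 0 := by
  have h1 : ∀ z, s (perm b z) = s z := fun z => congrFun h z
  have h2 : ∀ (k : ℕ) (z), s ((perm b ^ k) z) = s z := by
    intro k
    induction k with
    | zero => intro z; rfl
    | succ k ih =>
      intro z
      rw [pow_succ', Equiv.Perm.mul_apply, h1, ih]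
  obtain ⟨k, hk⟩ := hb 0 x
  rcases Int.eq_nat_or_neg k with ⟨m, rfl | rfl⟩
  · rw [zpow_natCast] at hk
    rw [← hk, h2]
  · rw [zpow_neg, zpow_natCast] at hk
    have h3 : (perm b ^ m) x = 0 := by
      rw [← hk]
      simp
    rw [← h3, h2]

end CLS

open CLS in
theorem cls : CLS_Stmt := by
  intro ι _ _ T hR hR' f c r hg j
  have hk := isKnot_tor c r hg
  rw [map_sum]
  simp only [cc_op T hR hR']
  rw [Finset.sum_boole]
  congr 1
  symm
  apply Finset.card_bij (fun (i : ι) _ => (fun _ => i : Fin (c + 1) → ι))
  · intro i hi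
    simp only [Finset.mem_filter, Finset.mem_univ, true_and] at hi ⊢
    refine ⟨?_, trivial⟩
    rw [Finset.sum_const, Finset.card_univ, Fintype.card_fin, nsmul_eq_mul]
    push_cast
    exact hi
  · intro i _ i' _ h
    exact congrFun h 0
  · intro s hs
    simp only [Finset.mem_filter, Finset.mem_univ, true_and] at hs
    obtain ⟨h1, h2⟩ := hs
    have h3 : s = fun _ => s 0 := by
      funext x
      exact const_of_knot _ hk s h2 x
    refine ⟨s 0, ?_, h3.symm⟩
    simp only [Finset.mem_filter, Finset.mem_univ, true_and]
    rw [h3] at h1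
    rw [Finset.sum_const, Finset.card_univ, Fintype.card_fin, nsmul_eq_mul] at h1
    push_cast at h1
    exact h1

end Pool.Agent.IT
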