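import Pool.Agent.IT.Stmts

/-!
# Iterated torus knots: change of basis in the closure of a word
-/

namespace Pool.Agent.IT
open Pool.Agent.LibH11
open scoped BigOperators

namespace CONJ

variable {A : Type} [CommRing A] {ι ι' ι'' : Type} [Fintype ι] [DecidableEq ι] [Fintype ι']
  [DecidableEq ι'] {P : Type} [Fintype P] [DecidableEq P]

/-- The tensor power of a matrix. -/
def gg (P : Type) [Fintype P] (g : Matrix ι ι' A) : Matrix (P → ι) (P → ι') A :=
  fun s t => ∏ i, g (s i) (t i)

omit [Fintype ι] [DecidableEq ι] [DecidableEq ι'] in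
theorem gg_mul (g : Matrix ι ι' A) (h : Matrix ι' ι'' A) : gg P (g * h) = gg P g * gg P h := by
  ext s t
  simp only [gg, Matrix.mul_apply]
  rw [Finset.prod_univ_sum, Fintype.piFinset_univ]
  exact Finset.sum_congr rfl fun u _ => Finset.prod_mul_distrib

omit [Fintype ι] [DecidableEq P] in
theorem gg_one : gg P (1 : Matrix ι ι A) = 1 := by
  ext s t
  simp only [gg]
  by_cases h : s = t
  · subst h
    simp
  · rw [Matrix.one_apply_ne h]
    obtain ⟨i, hi⟩ := Function.ne_iff.mp h
    exact Finset.prod_eq_zero (Finset.mem_univ i) (Matrix.one_apply_ne hi)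

/-- Sums over the maps that agree with a given map off one point. -/
theorem sum_one (s : P → ι) (x : P) (F : (P → ι) → A) :
    (∑ u ∈ Finset.univ.filter (fun u : P → ι => ∀ z, z ≠ x → u z = s z), F u) =
      ∑ a : ι, F (Function.update s x a) := by
  symm
  refine Finset.sum_bij' (fun a _ => Function.update s x a) (fun u _ => u x) ?_ ?_ ?_ ?_ ?_
  · intro a _
    simp only [Finset.mem_filter, Finset.mem_univ, true_and]
    intro z hz
    rw [Function.update_of_ne hz]
  · intro u _
    exact Finset.mem_univ _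
  · intro a _
    simp
  · intro u hu
    simp only [Finset.mem_filter, Finset.mem_univ, true_and] at hu
    funext z
    by_cases hz : z = x
    · subst hz
      simp
    · rw [Function.update_of_ne hz, hu z hz]
  · intro a _
    rfl

/-- Sums over the maps that agree with a given map off two points. -/
theorem sum_two (s : P → ι) {x y : P} (hxy : x ≠ y) (F : (P → ι) → A) :
    (∑ u ∈ Finset.univ.filter (fun u : P → ι => ∀ z, z ≠ x → z ≠ y → u z = s z), F u) =
      ∑ a : ι × ι, F (Function.update (Function.update s x a.1) y a.2) := by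
  symm
  refine Finset.sum_bij' (fun a _ => Function.update (Function.update s x a.1) y a.2)
    (fun u _ => (u x, u y)) ?_ ?_ ?_ ?_ ?_
  · intro a _
    simp only [Finset.mem_filter, Finset.mem_univ, true_and]
    intro z hz hz'
    rw [Function.update_of_ne hz', Function.update_of_ne hz]
  · intro u _
    exact Finset.mem_univ _
  · intro a _
    simp [Function.update_of_ne hxy]
  · intro u hu
    simp only [Finset.mem_filter, Finset.mem_univ, true_and] at hu
    funext z
    by_cases hz' : z = y
    · subst hz'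
      simp
    · rw [Function.update_of_ne hz']
      by_cases hz : z = x
      · subst hz
        simp
      · rw [Function.update_of_ne hz, hu z hz hz']
  · intro a _
    rfl

omit [Fintype ι] [DecidableEq ι] [Fintype ι'] [DecidableEq ι'] in
theorem prod_one (g : Matrix ι ι' A) (s : P → ι) (t : P → ι') (x : P) (a : ι) (b : ι') :
    (∏ i, g (Function.update s x a i) (Function.update t x b i)) =
      g a b * ∏ i ∈ Finset.univ.erase x, g (s i) (t i) := by
  rw [← Finset.mul_prod_erase Finset.univ _ (Finset.mem_univ x)]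
  congr 1
  · simp
  · refine Finset.prod_congr rfl fun i hi => ?_
    have hi' := Finset.ne_of_mem_erase hi
    rw [Function.update_of_ne hi', Function.update_of_ne hi']

omit [Fintype ι] [DecidableEq ι] [Fintype ι'] [DecidableEq ι'] in
theorem prod_two (g : Matrix ι ι' A) (s : P → ι) (t : P → ι') {x y : P} (hxy : x ≠ y)
    (a b : ι) (c d : ι') :
    (∏ i, g (Function.update (Function.update s x a) y b i)
      (Function.update (Function.update t x c) y d i)) =
      g a c * g b d * ∏ i ∈ (Finset.univ.erase y).erase x, g (s i) (t i) := by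
  rw [prod_one, ← Finset.mul_prod_erase (Finset.univ.erase y) _
    (Finset.mem_erase.mpr ⟨hxy, Finset.mem_univ x⟩), mul_comm (g a c) (g b d), mul_assoc]
  congr 2
  · simp
  · refine Finset.prod_congr rfl fun i hi => ?_
    have hi' := Finset.ne_of_mem_erase hi
    rw [Function.update_of_ne hi', Function.update_of_ne hi']

theorem at1_gg {X : Matrix ι ι A} {Y : Matrix ι' ι' A} {g : Matrix ι ι' A} (h : X * g = g * Y)
    (x : P) : at1 X x * gg P g = gg P g * at1 Y x := by
  classical
  ext s t
  have h1 : (at1 X x * gg P g) s t =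
      (X * g) (s x) (t x) * ∏ i ∈ Finset.univ.erase x, g (s i) (t i) := by
    rw [Matrix.mul_apply]
    have h2 : ∀ u : P → ι, at1 X x s u * gg P g u t =
        if ∀ z, z ≠ x → u z = s z then X (s x) (u x) * ∏ i, g (u i) (t i) else 0 := by
      intro u
      unfold at1 gg
      by_cases hu : ∀ z, z ≠ x → s z = u z
      · rw [if_pos hu, if_pos fun z hz => (hu z hz).symm]
      · rw [if_neg hu, if_neg fun hu' => hu fun z hz => (hu' z hz).symm, zero_mul]
    rw [Finset.sum_congr rfl fun u _ => h2 u, ← Finset.sum_filter, sum_one, Matrix.mul_apply,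
      Finset.sum_mul]
    refine Finset.sum_congr rfl fun a _ => ?_
    have h3 := prod_one g s t x a (t x)
    rw [Function.update_eq_self] at h3
    rw [h3, Function.update_self, mul_assoc]
  have h2 : (gg P g * at1 Y x) s t =
      (g * Y) (s x) (t x) * ∏ i ∈ Finset.univ.erase x, g (s i) (t i) := by
    rw [Matrix.mul_apply]
    have h2 : ∀ u : P → ι', gg P g s u * at1 Y x u t =
        if ∀ z, z ≠ x → u z = t z then (∏ i, g (s i) (u i)) * Y (u x) (t x) else 0 := by
      intro u
      unfold at1 gg
      by_cases hu : ∀ z, z ≠ x → u z = t z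
      · rw [if_pos hu, if_pos hu]
      · rw [if_neg hu, if_neg hu, mul_zero]
    rw [Finset.sum_congr rfl fun u _ => h2 u, ← Finset.sum_filter, sum_one, Matrix.mul_apply,
      Finset.sum_mul]
    refine Finset.sum_congr rfl fun a _ => ?_
    have h3 := prod_one g s t x (s x) a
    rw [Function.update_eq_self] at h3
    rw [h3, Function.update_self]
    ring
  rw [h1, h2, h]

theorem atp_gg {X : Matrix (ι × ι) (ι × ι) A} {Y : Matrix (ι' × ι') (ι' × ι') A}
    {g : Matrix ι ι' A} (h : X * kr g g = kr g g * Y) {x y : P} (hxy : x ≠ y) :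
    atp X x y * gg P g = gg P g * atp Y x y := by
  classical
  ext s t
  have h1 : (atp X x y * gg P g) s t =
      (X * kr g g) (s x, s y) (t x, t y) *
        ∏ i ∈ (Finset.univ.erase y).erase x, g (s i) (t i) := by
    rw [Matrix.mul_apply]
    have h2 : ∀ u : P → ι, atp X x y s u * gg P g u t =
        if ∀ z, z ≠ x → z ≠ y → u z = s z then
          X (s x, s y) (u x, u y) * ∏ i, g (u i) (t i) else 0 := by
      intro u
      unfold atp gg
      by_cases hu : ∀ z, z ≠ x → z ≠ y → s z = u z
      · rw [if_pos hu, if_pos fun z hz hz' => (hu z hz hz').symm]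
      · rw [if_neg hu, if_neg fun hu' => hu fun z hz hz' => (hu' z hz hz').symm, zero_mul]
    rw [Finset.sum_congr rfl fun u _ => h2 u, ← Finset.sum_filter, sum_two s hxy,
      Matrix.mul_apply, Finset.sum_mul]
    refine Finset.sum_congr rfl fun a _ => ?_
    have h3 := prod_two g s t hxy a.1 a.2 (t x) (t y)
    rw [Function.update_eq_self, Function.update_eq_self] at h3
    rw [h3, Function.update_self, Function.update_of_ne hxy, Function.update_self]
    change _ = X (s x, s y) (a.1, a.2) * (g a.1 (t x) * g a.2 (t y)) * _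
    ring
  have h2 : (gg P g * atp Y x y) s t =
      (kr g g * Y) (s x, s y) (t x, t y) *
        ∏ i ∈ (Finset.univ.erase y).erase x, g (s i) (t i) := by
    rw [Matrix.mul_apply]
    have h2 : ∀ u : P → ι', gg P g s u * atp Y x y u t =
        if ∀ z, z ≠ x → z ≠ y → u z = t z then
          (∏ i, g (s i) (u i)) * Y (u x, u y) (t x, t y) else 0 := by
      intro u
      unfold atp gg
      by_cases hu : ∀ z, z ≠ x → z ≠ y → u z = t z
      · rw [if_pos hu, if_pos hu]
      · rw [if_neg hu, if_neg hu, mul_zero]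
    rw [Finset.sum_congr rfl fun u _ => h2 u, ← Finset.sum_filter, sum_two t hxy,
      Matrix.mul_apply, Finset.sum_mul]
    refine Finset.sum_congr rfl fun a _ => ?_
    have h3 := prod_two g s t hxy (s x) (s y) a.1 a.2
    rw [Function.update_eq_self, Function.update_eq_self] at h3
    rw [h3, Function.update_self, Function.update_of_ne hxy, Function.update_self]
    change _ = g (s x) a.1 * g (s y) a.2 * Y (a.1, a.2) (t x, t y) * _
    ring
  rw [h1, h2, h]

theorem opl_gg {T : RData A ι} {T' : RData A ι'} {g : Matrix ι ι' A}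
    (h1 : T.R * kr g g = kr g g * T'.R) (h2 : T.R' * kr g g = kr g g * T'.R') (n : ℕ)
    (x : ℕ × Bool) :
    opl T n x * gg (Fin (n + 1)) g = gg (Fin (n + 1)) g * opl T' n x := by
  unfold opl
  by_cases h : x.1 < n
  · rw [dif_pos h, dif_pos h]
    refine atp_gg ?_ ?_
    · by_cases hx : x.2 = true
      · rw [if_pos hx, if_pos hx]
        exact h1
      · rw [if_neg hx, if_neg hx]
        exact h2
    · intro h3
      have h4 := congrArg Fin.val h3
      simp at h4
  · rw [dif_neg h, dif_neg h, Matrix.one_mul, Matrix.mul_one]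

theorem op_gg {T : RData A ι} {T' : RData A ι'} {g : Matrix ι ι' A}
    (h1 : T.R * kr g g = kr g g * T'.R) (h2 : T.R' * kr g g = kr g g * T'.R') (n : ℕ)
    (w : Word) :
    op T n w * gg (Fin (n + 1)) g = gg (Fin (n + 1)) g * op T' n w := by
  induction w with
  | nil => simp [op]
  | cons x w ih =>
    have h3 : op T n (x :: w) = opl T n x * op T n w := by simp [op]
    have h4 : op T' n (x :: w) = opl T' n x * op T' n w := by simp [op]
    rw [h3, h4, Matrix.mul_assoc, ih, ← Matrix.mul_assoc, opl_gg h1 h2, Matrix.mul_assoc]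

omit [DecidableEq ι] in
theorem G_eq_trace [DecidableEq ι] (T : RData A ι) (n : ℕ) (w : Word) (X : Matrix ι ι A) :
    G T n w X = Matrix.trace (op T n w * at1 X (0 : Fin (n + 1)) *
      Matrix.diagonal fun s : Fin (n + 1) → ι => ∏ i, T.κ (s i)) := by
  unfold G Matrix.trace
  refine Finset.sum_congr rfl fun s _ => ?_
  rw [Matrix.diag_apply, Matrix.mul_diagonal]

theorem diag_gg {κ : ι → A} {κ' : ι' → A} {g : Matrix ι ι' A}
    (h : ∀ a b, κ a * g a b = g a b * κ' b) :
    (Matrix.diagonal fun s : P → ι => ∏ i, κ (s i)) * gg P g =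
      gg P g * Matrix.diagonal fun s : P → ι' => ∏ i, κ' (s i) := by
  ext s t
  rw [Matrix.diagonal_mul, Matrix.mul_diagonal]
  unfold gg
  rw [← Finset.prod_mul_distrib, ← Finset.prod_mul_distrib]
  exact Finset.prod_congr rfl fun i _ => h _ _

end CONJ

open CONJ in
theorem conj_mod : CONJ_Stmt := by
  intro A _ ι ι' _ _ _ _ T T' g g' hg hg' hR hR' hκ n w X
  rw [G_eq_trace, G_eq_trace]
  have h1 : gg (Fin (n + 1)) g * gg (Fin (n + 1)) g' = 1 := by
    rw [← gg_mul, hg, gg_one]
  have h2 : gg (Fin (n + 1)) g' * gg (Fin (n + 1)) g = 1 := by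
    rw [← gg_mul, hg', gg_one]
  have h3 : X * g = g * (g' * X * g) := by
    rw [← Matrix.mul_assoc, ← Matrix.mul_assoc, hg, Matrix.one_mul]
  have h4 : op T n w * at1 X (0 : Fin (n + 1)) *
      (Matrix.diagonal fun s : Fin (n + 1) → ι => ∏ i, T.κ (s i)) * gg (Fin (n + 1)) g =
      gg (Fin (n + 1)) g * (op T' n w * at1 (g' * X * g) (0 : Fin (n + 1)) *
        Matrix.diagonal fun s : Fin (n + 1) → ι' => ∏ i, T'.κ (s i)) := by
    rw [Matrix.mul_assoc, diag_gg hκ, Matrix.mul_assoc, ← Matrix.mul_assoc (at1 X 0),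
      at1_gg h3, Matrix.mul_assoc (gg _ g), ← Matrix.mul_assoc (op T n w), op_gg hR hR',
      Matrix.mul_assoc, ← Matrix.mul_assoc (op T' n w)]
  calc Matrix.trace (op T n w * at1 X (0 : Fin (n + 1)) *
        Matrix.diagonal fun s : Fin (n + 1) → ι => ∏ i, T.κ (s i))
      = Matrix.trace (op T n w * at1 X (0 : Fin (n + 1)) *
        (Matrix.diagonal fun s : Fin (n + 1) → ι => ∏ i, T.κ (s i)) * gg (Fin (n + 1)) g *
          gg (Fin (n + 1)) g') := by
        rw [Matrix.mul_assoc _ (gg _ g) (gg _ g'), h1, Matrix.mul_one]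
    _ = Matrix.trace (gg (Fin (n + 1)) g' * (gg (Fin (n + 1)) g *
        (op T' n w * at1 (g' * X * g) (0 : Fin (n + 1)) *
        Matrix.diagonal fun s : Fin (n + 1) → ι' => ∏ i, T'.κ (s i)))) := by
        rw [h4, Matrix.trace_mul_comm]
    _ = _ := by
        rw [← Matrix.mul_assoc, h2, Matrix.one_mul]

end Pool.Agent.IT
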