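import Pool.Agent.IT.Stmts

/-!
# Iterated torus knots: module CONJE, the heat operator and exponential functions
-/

namespace Pool.Agent.IT
open scoped BigOperators
open PowerSeries

namespace CONJE

/-- the derivative of a product with an exponential -/
theorem dz_ml (he : ESER_Stmt) (c : ℚ) :
    dz * ml (E c) = ml (E c) * (dz + c • (1 : ℚ⟦X⟧ →ₗ[ℚ] ℚ⟦X⟧)) := by
  obtain ⟨-, -, -, -, -, -, hdz, -, hmul, -⟩ := he
  refine LinearMap.ext fun f => ?_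
  rw [Module.End.mul_apply, Module.End.mul_apply]
  show dz (E c * f) = E c * ((dz + c • (1 : ℚ⟦X⟧ →ₗ[ℚ] ℚ⟦X⟧)) f)
  rw [hmul, hdz, LinearMap.add_apply, LinearMap.smul_apply, Module.End.one_apply, mul_add,
    smul_mul_assoc, mul_smul_comm, add_comm]

end CONJE

theorem conje (he : ESER_Stmt) (hx : XPA_Stmt) : CONJE_Stmt := by
  obtain ⟨h1, -, h3, -⟩ := hx
  intro a c F
  have hm := CONJE.dz_ml he c
  have hm2 : dz ^ 2 * ml (E c) = ml (E c) * (dz + c • (1 : ℚ⟦X⟧ →ₗ[ℚ] ℚ⟦X⟧)) ^ 2 := by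
    rw [pow_two, mul_assoc, hm, ← mul_assoc, hm, mul_assoc, ← pow_two]
  have hL : ml (E c) * ((a * c ^ 2) • (1 : ℚ⟦X⟧ →ₗ[ℚ] ℚ⟦X⟧) + (a • dz ^ 2 + (2 * a * c) • dz)) =
      (a • dz ^ 2) * ml (E c) := by
    rw [smul_mul_assoc, hm2, ← mul_smul_comm]
    congr 1
    have h4 : (dz + c • (1 : ℚ⟦X⟧ →ₗ[ℚ] ℚ⟦X⟧)) ^ 2 =
        dz ^ 2 + (2 * c) • dz + (c ^ 2) • (1 : ℚ⟦X⟧ →ₗ[ℚ] ℚ⟦X⟧) := by
      rw [pow_two, mul_add, add_mul, add_mul, ← pow_two, smul_mul_assoc, mul_smul_comm,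
        smul_mul_smul_comm, one_mul, mul_one, mul_one, ← pow_two]
      module
    rw [h4]
    module
  have hc1 : Commute ((a * c ^ 2) • (1 : ℚ⟦X⟧ →ₗ[ℚ] ℚ⟦X⟧)) (a • dz ^ 2 + (2 * a * c) • dz) :=
    (Commute.one_left _).smul_left _
  have hc2 : Commute (a • dz ^ 2) ((2 * a * c) • dz) :=
    (((Commute.refl dz).pow_left 2).smul_left _).smul_right _
  rw [← h3 _ _ _ hL F, h1 _ _ hc1 F, h1 _ _ hc2 F]
  rfl

end Pool.Agent.IT
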