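import Pool.Agent.IT.Stmts

/-!
# DBL: the double braiding on highest weight vectors
-/

namespace Pool.Agent.IT
open Pool.Agent.LibH11
open scoped BigOperators

namespace DBL

section

variable {K : Type} [Field K] {s : K} {a b : ℕ}

/-- Extension by zero of a function on `Fin a × Fin b`. -/
def ext (y : Fin a × Fin b → K) (i j : ℕ) : K :=
  if h : i < a ∧ j < b then y (⟨i, h.1⟩, ⟨j, h.2⟩) else 0

theorem ext_val (y : Fin a × Fin b → K) (x : Fin a × Fin b) : ext y x.1 x.2 = y x :=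
  dif_pos ⟨x.1.2, x.2.2⟩

theorem ext_of_lt (y : Fin a × Fin b → K) {i j : ℕ} (hi : i < a) (hj : j < b) :
    ext y i j = y (⟨i, hi⟩, ⟨j, hj⟩) := dif_pos ⟨hi, hj⟩

theorem ext_of_not (y : Fin a × Fin b → K) {i j : ℕ} (h : ¬ (i < a ∧ j < b)) :
    ext y i j = 0 := dif_neg h

theorem sum_ite_val (m : ℕ) (G : Fin a → K) :
    ∑ u : Fin a, (if m = (u : ℕ) then G u else 0) = if h : m < a then G ⟨m, h⟩ else 0 := by
  by_cases h : m < a
  · rw [dif_pos h, Finset.sum_eq_single ⟨m, h⟩]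
    · rw [if_pos rfl]
    · intro u _ hu
      rw [if_neg]
      intro hm
      exact hu (Fin.ext hm.symm)
    · intro hm
      exact absurd (Finset.mem_univ _) hm
  · rw [dif_neg h]
    refine Finset.sum_eq_zero fun u _ => ?_
    rw [if_neg]
    intro hm
    exact h (hm ▸ u.2)

/-- The relation between neighbouring coefficients of a highest weight vector. -/
theorem rel {y : Fin a × Fin b → K} (hE : (tens s (V s a) (V s b)).E.mulVec y = 0) {i j : ℕ}
    (hi : i < a) (hj : j < b) :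
    qn s ((a : ℤ) - ((i + 1 : ℕ) : ℤ)) * s ^ (2 * ((b : ℤ) - 1 - 2 * (j : ℤ))) * ext y (i + 1) j +
      qn s ((b : ℤ) - ((j + 1 : ℕ) : ℤ)) * ext y i (j + 1) = 0 := by
  have h := congrFun hE (⟨i, hi⟩, ⟨j, hj⟩)
  rw [Matrix.mulVec, dotProduct, Fintype.sum_prod_type] at h
  have h1 : ∀ u : Fin a, ∀ v : Fin b,
      (tens s (V s a) (V s b)).E (⟨i, hi⟩, ⟨j, hj⟩) (u, v) * y (u, v) =
      (if (j : ℕ) = (v : ℕ) then
        (if i + 1 = (u : ℕ) then qn s ((a : ℤ) - (u : ℕ)) *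
          s ^ (2 * ((b : ℤ) - 1 - 2 * (j : ℤ))) * ext y u j else 0) else 0) +
      (if (i : ℕ) = (u : ℕ) then
        (if j + 1 = (v : ℕ) then qn s ((b : ℤ) - (v : ℕ)) * ext y i v else 0) else 0) := by
    intro u v
    have e1 : (tens s (V s a) (V s b)).E (⟨i, hi⟩, ⟨j, hj⟩) (u, v) =
        (if (⟨j, hj⟩ : Fin b) = v then
          (if i + 1 = (u : ℕ) then qn s ((a : ℤ) - ((u : ℕ) : ℤ)) else 0) *
            s ^ (2 * ((b : ℤ) - 1 - 2 * ((v : ℕ) : ℤ))) else 0) +
        (if (⟨i, hi⟩ : Fin a) = u then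
          (if j + 1 = (v : ℕ) then qn s ((b : ℤ) - ((v : ℕ) : ℤ)) else 0) else 0) := rfl
    rw [e1, add_mul]
    have hj' : (⟨j, hj⟩ : Fin b) = v ↔ j = (v : ℕ) := by rw [Fin.ext_iff]
    have hi' : (⟨i, hi⟩ : Fin a) = u ↔ i = (u : ℕ) := by rw [Fin.ext_iff]
    congr 1
    · by_cases hv : j = (v : ℕ)
      · rw [if_pos (hj'.mpr hv), if_pos hv]
        by_cases hu : i + 1 = (u : ℕ)
        · rw [if_pos hu, if_pos hu, hv]
          have := ext_val y (u, v)
          rw [← this]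
        · rw [if_neg hu, if_neg hu, zero_mul, zero_mul]
      · rw [if_neg (fun h => hv (hj'.mp h)), if_neg hv, zero_mul]
    · by_cases hu : i = (u : ℕ)
      · rw [if_pos (hi'.mpr hu), if_pos hu]
        by_cases hv : j + 1 = (v : ℕ)
        · rw [if_pos hv, if_pos hv, hu]
          have := ext_val y (u, v)
          rw [← this]
        · rw [if_neg hv, if_neg hv, zero_mul]
      · rw [if_neg (fun h => hu (hi'.mp h)), if_neg hu, zero_mul]
  rw [Finset.sum_congr rfl fun u _ => Finset.sum_congr rfl fun v _ => h1 u v] at h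
  simp only [Finset.sum_add_distrib] at h
  have h2 : ∀ u : Fin a, (∑ v : Fin b, (if (j : ℕ) = (v : ℕ) then
        (if i + 1 = (u : ℕ) then qn s ((a : ℤ) - (u : ℕ)) *
          s ^ (2 * ((b : ℤ) - 1 - 2 * (j : ℤ))) * ext y u j else 0) else 0)) =
      if i + 1 = (u : ℕ) then qn s ((a : ℤ) - (u : ℕ)) *
          s ^ (2 * ((b : ℤ) - 1 - 2 * (j : ℤ))) * ext y u j else 0 := by
    intro u
    rw [sum_ite_val, dif_pos hj]
  have h3 : ∀ u : Fin a, (∑ v : Fin b, (if (i : ℕ) = (u : ℕ) then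
        (if j + 1 = (v : ℕ) then qn s ((b : ℤ) - (v : ℕ)) * ext y i v else 0) else 0)) =
      if (i : ℕ) = (u : ℕ) then (∑ v : Fin b,
        (if j + 1 = (v : ℕ) then qn s ((b : ℤ) - (v : ℕ)) * ext y i v else 0)) else 0 := by
    intro u
    by_cases hu : i = (u : ℕ)
    · simp only [if_pos hu]
    · simp only [if_neg hu, Finset.sum_const_zero]
  rw [Finset.sum_congr rfl fun u _ => h2 u, Finset.sum_congr rfl fun u _ => h3 u, sum_ite_val,
    sum_ite_val, dif_pos hi, sum_ite_val] at h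
  have h4 : (if h : i + 1 < a then qn s ((a : ℤ) - ((⟨i + 1, h⟩ : Fin a) : ℕ)) *
      s ^ (2 * ((b : ℤ) - 1 - 2 * (j : ℤ))) * ext y ((⟨i + 1, h⟩ : Fin a) : ℕ) j else 0) =
      qn s ((a : ℤ) - ((i + 1 : ℕ) : ℤ)) * s ^ (2 * ((b : ℤ) - 1 - 2 * (j : ℤ))) *
        ext y (i + 1) j := by
    by_cases hh : i + 1 < a
    · rw [dif_pos hh]
    · rw [dif_neg hh, ext_of_not y (fun h => hh h.1), mul_zero]
  have h5 : (if h : j + 1 < b then qn s ((b : ℤ) - ((⟨j + 1, h⟩ : Fin b) : ℕ)) *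
      ext y i ((⟨j + 1, h⟩ : Fin b) : ℕ) else 0) =
      qn s ((b : ℤ) - ((j + 1 : ℕ) : ℤ)) * ext y i (j + 1) := by
    by_cases hh : j + 1 < b
    · rw [dif_pos hh]
    · rw [dif_neg hh, ext_of_not y (fun h => hh h.2), mul_zero]
  rw [h4, h5] at h
  exact h

/-- A highest weight vector is determined by its first row. -/
theorem ext_zero (hq : ∀ w : ℤ, w ≠ 0 → qn s w ≠ 0) (hs : s ≠ 0) {y : Fin a × Fin b → K}
    (hE : (tens s (V s a) (V s b)).E.mulVec y = 0) (h0 : ∀ j, ext y 0 j = 0) :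
    ∀ i j, ext y i j = 0 := by
  intro i
  induction i with
  | zero => exact h0
  | succ i ih =>
    intro j
    by_cases hij : i + 1 < a ∧ j < b
    · have h := rel hE (i := i) (j := j) (by omega) hij.2
      rw [ih, mul_zero, add_zero] at h
      have h1 : qn s ((a : ℤ) - ((i + 1 : ℕ) : ℤ)) ≠ 0 := hq _ (by omega)
      have h2 : s ^ (2 * ((b : ℤ) - 1 - 2 * (j : ℤ))) ≠ 0 := zpow_ne_zero _ hs
      exact (mul_eq_zero.mp h).resolve_left (mul_ne_zero h1 h2)
    · exact ext_of_not y hij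

/-- The product formula. -/
theorem prod_rel (hs : s ≠ 0) {y : Fin a × Fin b → K}
    (hE : (tens s (V s a) (V s b)).E.mulVec y = 0) {l : ℕ} (hl : l < b) :
    ∀ i : ℕ, i ≤ l → i ≤ a →
    (∏ t ∈ Finset.range i, qn s ((a : ℤ) - 1 - t)) *
        s ^ (2 * ((i : ℤ) * ((b : ℤ) - 2 * l + i))) * ext y i (l - i) =
      (-1) ^ i * (∏ t ∈ Finset.range i, qn s ((b : ℤ) - l + t)) * ext y 0 l := by
  intro i
  induction i with
  | zero => intro _ _; simp
  | succ i ih =>
    intro h1 h2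
    have ih := ih (by omega) (by omega)
    have h := rel hE (i := i) (j := l - (i + 1)) (by omega) (by omega)
    have e1 : l - (i + 1) + 1 = l - i := by omega
    have e2 : ((l - (i + 1) : ℕ) : ℤ) = (l : ℤ) - (i + 1) := by omega
    rw [e1, e2] at h
    have e3 : (a : ℤ) - ((i + 1 : ℕ) : ℤ) = (a : ℤ) - 1 - i := by push_cast; ring
    have e4 : (b : ℤ) - ((l - i : ℕ) : ℤ) = (b : ℤ) - l + i := by omega
    rw [e3, e4] at h
    rw [Finset.prod_range_succ, Finset.prod_range_succ]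
    have e5 : (2 * (((i + 1 : ℕ) : ℤ) * ((b : ℤ) - 2 * l + ((i + 1 : ℕ) : ℤ)))) =
        2 * ((i : ℤ) * ((b : ℤ) - 2 * l + i)) + 2 * ((b : ℤ) - 1 - 2 * ((l : ℤ) - (i + 1))) := by
      push_cast; ring
    rw [e5, zpow_add₀ hs]
    generalize (∏ t ∈ Finset.range i, qn s ((a : ℤ) - 1 - t)) = PA at ih ⊢
    generalize (∏ t ∈ Finset.range i, qn s ((b : ℤ) - l + t)) = PB at ih ⊢
    generalize s ^ (2 * ((i : ℤ) * ((b : ℤ) - 2 * l + i))) = S1 at ih ⊢
    generalize s ^ (2 * ((b : ℤ) - 1 - 2 * ((l : ℤ) - (i + 1)))) = S2 at h ⊢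
    generalize qn s ((a : ℤ) - 1 - i) = A at h ⊢
    generalize qn s ((b : ℤ) - l + i) = B' at h ⊢
    linear_combination (PA * S1) * h - B' * ih

/-- The entry `(0, l)` of the braiding applied to a vector. -/
theorem braid_entry (y : Fin a × Fin b → K) {l : ℕ} (hl : l < a) (hb : 0 < b) :
    (Rm s (V s a) (V s b)).mulVec y (⟨0, hb⟩, ⟨l, hl⟩) =
      s ^ (((a : ℤ) - 1 - 2 * l) * ((b : ℤ) - 1)) * ext y l 0 := by
  have hF : ∀ n : ℕ, n ≠ 0 → ∀ c : Fin b, ((V s b).F ^ n) ⟨0, hb⟩ c = 0 := by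
    intro n hn c
    obtain ⟨m, rfl⟩ := Nat.exists_eq_succ_of_ne_zero hn
    rw [pow_succ', Matrix.mul_apply]
    refine Finset.sum_eq_zero fun t _ => ?_
    have h1 : (V s b).F ⟨0, hb⟩ t = 0 := by
      change (if (0 : ℕ) = (t : ℕ) + 1 then qn s (((0 : ℕ) : ℤ)) else 0) = 0
      rw [if_neg (by omega)]
    rw [h1, zero_mul]
  have haq : aq s 0 = 1 := by simp [aq, qfac]
  rw [Matrix.mulVec, dotProduct]
  have h1 : ∀ x : Fin a × Fin b, Rm s (V s a) (V s b) (⟨0, hb⟩, ⟨l, hl⟩) x * y x =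
      if x = (⟨l, hl⟩, ⟨0, hb⟩) then
        s ^ (((a : ℤ) - 1 - 2 * l) * ((b : ℤ) - 1)) * y (⟨l, hl⟩, ⟨0, hb⟩) else 0 := by
    intro x
    have e1 : Rm s (V s a) (V s b) (⟨0, hb⟩, ⟨l, hl⟩) x =
        s ^ (((a : ℤ) - 1 - 2 * (l : ℤ)) * ((b : ℤ) - 1 - 2 * ((0 : ℕ) : ℤ))) *
        ∑ n ∈ Finset.range (Fintype.card (Fin a)),
          aq s n * ((V s a).E ^ n) ⟨l, hl⟩ x.1 * ((V s b).F ^ n) ⟨0, hb⟩ x.2 := rfl
    rw [e1, Finset.sum_eq_single 0]
    · rw [haq, pow_zero, pow_zero, one_mul, Matrix.one_apply, Matrix.one_apply]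
      have e2 : ((b : ℤ) - 1 - 2 * ((0 : ℕ) : ℤ)) = (b : ℤ) - 1 := by simp
      rw [e2]
      by_cases hx : x = (⟨l, hl⟩, ⟨0, hb⟩)
      · rw [if_pos hx, hx, if_pos rfl, if_pos rfl, mul_one, mul_one]
      · rw [if_neg hx]
        by_cases hx1 : (⟨l, hl⟩ : Fin a) = x.1
        · by_cases hx2 : (⟨0, hb⟩ : Fin b) = x.2
          · exact absurd (Prod.ext hx1.symm hx2.symm) hx
          · rw [if_neg hx2, mul_zero, mul_zero, zero_mul]
        · rw [if_neg hx1, zero_mul, mul_zero, zero_mul]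
    · intro n _ hn
      rw [hF n hn, mul_zero]
    · intro h0
      exfalso
      apply h0
      rw [Finset.mem_range, Fintype.card_fin]
      omega
  rw [Finset.sum_congr rfl fun x _ => h1 x, Finset.sum_ite_eq' Finset.univ, if_pos
    (Finset.mem_univ _), ext_of_lt y hl hb]

/-- The weight of a label. -/
theorem wt_tens (x : Fin a × Fin b) :
    (tens s (V s a) (V s b)).wt x =
      ((a : ℤ) - 1 - 2 * ((x.1 : ℕ) : ℤ)) + ((b : ℤ) - 1 - 2 * ((x.2 : ℕ) : ℤ)) := rfl

/-- The braiding maps highest weight vectors to highest weight vectors. -/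
theorem braid_hw {k : ℤ} (hm : Mor (tens s (V s a) (V s b)) (tens s (V s b) (V s a))
    (Rm s (V s a) (V s b))) {y : Fin a × Fin b → K}
    (hw : ∀ x, y x ≠ 0 → (tens s (V s a) (V s b)).wt x = k)
    (hE : (tens s (V s a) (V s b)).E.mulVec y = 0) :
    (∀ x, (Rm s (V s a) (V s b)).mulVec y x ≠ 0 → (tens s (V s b) (V s a)).wt x = k) ∧
      (tens s (V s b) (V s a)).E.mulVec ((Rm s (V s a) (V s b)).mulVec y) = 0 := by
  constructor
  · intro x hx
    rw [Matrix.mulVec, dotProduct] at hx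
    obtain ⟨z, _, hz⟩ := Finset.exists_ne_zero_of_sum_ne_zero hx
    rw [hm.wt x z (left_ne_zero_of_mul hz)]
    exact hw z (right_ne_zero_of_mul hz)
  · rw [Matrix.mulVec_mulVec, hm.E, ← Matrix.mulVec_mulVec, hE, Matrix.mulVec_zero]

end

end DBL

open DBL in
theorem dbl (hq : QNUM_Stmt) (ht : QT_Stmt) (hv : VOK_Stmt) : DBL_Stmt := by
  intro K _ s hs a b k y hw hE
  have hs0 : s ≠ 0 := hs.1
  obtain ⟨-, hqn, hq0, -, -, -, -⟩ := hq K s hs
  have ha := (hv K s hs).1 a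
  have hb := (hv K s hs).1 b
  have hab := (ht K s hs (Fin a) (Fin b) (V s a) (V s b) ha hb).1
  have hba := (ht K s hs (Fin b) (Fin a) (V s b) (V s a) hb ha).1
  obtain ⟨hw1, hE1⟩ := braid_hw hab hw hE
  obtain ⟨hw2, hE2⟩ := braid_hw hba hw1 hE1
  rw [← Matrix.mulVec_mulVec]
  set z := (Rm s (V s a) (V s b)).mulVec y with hz
  set w := (Rm s (V s b) (V s a)).mulVec z with hwd
  set c : K := s ^ ((k + 1) ^ 2 - 1 - ((a : ℤ) ^ 2 - 1) - ((b : ℤ) ^ 2 - 1)) with hc
  -- the first rows agree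
  have key : ∀ j, ext w 0 j = c * ext y 0 j := by
    intro j
    by_cases hj : 0 < a ∧ j < b
    swap
    · rw [ext_of_not _ hj, ext_of_not _ hj, mul_zero]
    rw [ext_of_lt _ hj.1 hj.2, ext_of_lt _ hj.1 hj.2]
    by_cases hk : ((a : ℤ) - 1 - 2 * ((0 : ℕ) : ℤ)) + ((b : ℤ) - 1 - 2 * (j : ℤ)) = k
    swap
    · have h1 : w (⟨0, hj.1⟩, ⟨j, hj.2⟩) = 0 := by
        by_contra h
        exact hk (hw2 _ h)
      have h2 : y (⟨0, hj.1⟩, ⟨j, hj.2⟩) = 0 := by
        by_contra h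
        exact hk (hw _ h)
      rw [h1, h2, mul_zero]
    by_cases hja : j < a
    · -- the main case
      have p1 := prod_rel hs0 hE hj.2 j le_rfl hja.le
      have p2 := prod_rel hs0 hE1 hja j le_rfl hj.2.le
      rw [Nat.sub_self] at p1 p2
      have b1 := braid_entry (s := s) y hja (Nat.lt_of_le_of_lt (Nat.zero_le _) hj.2)
      have b2 := braid_entry (s := s) z hj.2 hj.1
      rw [← hz] at b1
      rw [← hwd] at b2
      rw [ext_of_lt z (Nat.lt_of_le_of_lt (Nat.zero_le _) hj.2) hja, b1] at p2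
      rw [ext_of_lt y hj.1 hj.2] at p1
      rw [b2]
      -- the products of quantum integers
      have r1 : (∏ t ∈ Finset.range j, qn s ((b : ℤ) - j + t)) =
          ∏ t ∈ Finset.range j, qn s ((b : ℤ) - 1 - t) := by
        rw [← Finset.prod_range_reflect]
        refine Finset.prod_congr rfl fun t ht => ?_
        have := Finset.mem_range.mp ht
        congr 1
        omega
      have r2 : (∏ t ∈ Finset.range j, qn s ((a : ℤ) - j + t)) =
          ∏ t ∈ Finset.range j, qn s ((a : ℤ) - 1 - t) := by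
        rw [← Finset.prod_range_reflect]
        refine Finset.prod_congr rfl fun t ht => ?_
        have := Finset.mem_range.mp ht
        congr 1
        omega
      rw [r1] at p1
      rw [r2] at p2
      have n1 : (∏ t ∈ Finset.range j, qn s ((a : ℤ) - 1 - t)) ≠ 0 := by
        refine Finset.prod_ne_zero_iff.mpr fun t ht => hqn _ ?_
        have := Finset.mem_range.mp ht
        omega
      have n2 : (∏ t ∈ Finset.range j, qn s ((b : ℤ) - 1 - t)) ≠ 0 := by
        refine Finset.prod_ne_zero_iff.mpr fun t ht => hqn _ ?_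
        have := Finset.mem_range.mp ht
        omega
      have e1 : (j : ℤ) * ((b : ℤ) - 2 * j + j) = j * (b - j) := by ring
      have e2 : (j : ℤ) * ((a : ℤ) - 2 * j + j) = j * (a - j) := by ring
      rw [e1] at p1
      rw [e2] at p2
      have hexp : c * s ^ (2 * ((j : ℤ) * (a - j))) * s ^ (2 * ((j : ℤ) * (b - j))) =
          s ^ (((b : ℤ) - 1 - 2 * j) * ((a : ℤ) - 1)) *
            s ^ (((a : ℤ) - 1 - 2 * j) * ((b : ℤ) - 1)) := by
        rw [hc, ← zpow_add₀ hs0, ← zpow_add₀ hs0, ← zpow_add₀ hs0]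
        congr 1
        rw [← hk]
        push_cast
        ring
      have m1 : s ^ (2 * ((j : ℤ) * (a - j))) ≠ 0 := zpow_ne_zero _ hs0
      have m2 : s ^ (2 * ((j : ℤ) * (b - j))) ≠ 0 := zpow_ne_zero _ hs0
      have hsq : ((-1 : K) ^ j) * (-1) ^ j = 1 := by
        rw [← mul_pow]; simp
      generalize (∏ t ∈ Finset.range j, qn s ((a : ℤ) - 1 - t)) = PA at p1 p2 n1
      generalize (∏ t ∈ Finset.range j, qn s ((b : ℤ) - 1 - t)) = PB at p1 p2 n2
      generalize s ^ (2 * ((j : ℤ) * (a - j))) = S1 at p2 hexp m1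
      generalize s ^ (2 * ((j : ℤ) * (b - j))) = S2 at p1 hexp m2
      generalize s ^ (((b : ℤ) - 1 - 2 * j) * ((a : ℤ) - 1)) = X1 at hexp ⊢
      generalize s ^ (((a : ℤ) - 1 - 2 * j) * ((b : ℤ) - 1)) = X2 at hexp p2
      generalize ext y j 0 = u at p1 p2
      generalize y (⟨0, hj.1⟩, ⟨j, hj.2⟩) = v at p1 ⊢
      generalize ext z j 0 = r at p2 ⊢
      generalize (-1 : K) ^ j = e at p1 p2 hsq
      have hne : PB * S1 * (PA * S2) ≠ 0 := by
        exact mul_ne_zero (mul_ne_zero n2 m1) (mul_ne_zero n1 m2)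
      apply mul_left_cancel₀ hne
      -- `p1 : PA * S2 * u = e * PB * v`, `p2 : PB * S1 * r = e * PA * (X2 * u)`
      calc PB * S1 * (PA * S2) * (X1 * r) = PA * S2 * X1 * (PB * S1 * r) := by ring
        _ = PA * S2 * X1 * (e * PA * (X2 * u)) := by rw [p2]
        _ = X1 * X2 * e * PA * (PA * S2 * u) := by ring
        _ = X1 * X2 * e * PA * (e * PB * v) := by rw [p1]
        _ = (e * e) * (X1 * X2) * PA * PB * v := by ring
        _ = (c * S1 * S2) * PA * PB * v := by rw [hsq, one_mul, ← hexp]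
        _ = PB * S1 * (PA * S2) * (c * v) := by ring
    · -- both vectors vanish
      have hv0 : ∀ v : Fin a × Fin b → K, (tens s (V s a) (V s b)).E.mulVec v = 0 →
          v (⟨0, hj.1⟩, ⟨j, hj.2⟩) = 0 := by
        intro v hv
        have p := prod_rel hs0 hv hj.2 a (by omega) le_rfl
        have h0 : (∏ t ∈ Finset.range a, qn s ((a : ℤ) - 1 - t)) = 0 := by
          refine Finset.prod_eq_zero (i := a - 1) (Finset.mem_range.mpr (by omega)) ?_
          have : (a : ℤ) - 1 - ((a - 1 : ℕ) : ℤ) = 0 := by omega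
          rw [this, hq0]
        rw [h0, zero_mul, zero_mul, ext_of_lt v hj.1 hj.2] at p
        have h1 : (-1 : K) ^ a * (∏ t ∈ Finset.range a, qn s ((b : ℤ) - j + t)) ≠ 0 := by
          refine mul_ne_zero (pow_ne_zero _ (by simp)) ?_
          refine Finset.prod_ne_zero_iff.mpr fun t ht => hqn _ ?_
          omega
        exact (mul_eq_zero.mp p.symm).resolve_left h1
      rw [hv0 w hE2, hv0 y hE, mul_zero]
  -- conclusion
  have hd : (tens s (V s a) (V s b)).E.mulVec (w - c • y) = 0 := by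
    rw [Matrix.mulVec_sub, Matrix.mulVec_smul, hE, hE2, smul_zero, sub_zero]
  have h0 : ∀ j, ext (w - c • y) 0 j = 0 := by
    intro j
    have h1 := key j
    by_cases hj : 0 < a ∧ j < b
    · rw [ext_of_lt _ hj.1 hj.2] at h1 ⊢
      rw [ext_of_lt _ hj.1 hj.2] at h1
      rw [Pi.sub_apply, Pi.smul_apply, smul_eq_mul, h1, sub_self]
    · exact ext_of_not _ hj
  have h1 := ext_zero hqn hs0 hd h0
  funext x
  have h2 := h1 x.1 x.2
  rw [ext_val, Pi.sub_apply, sub_eq_zero] at h2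
  exact h2

end Pool.Agent.IT
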