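import Pool.Agent.IT.Stmts

/-!
# DEC: complete reducibility of weight modules
-/

namespace Pool.Agent.IT
open Pool.Agent.LibH11
open scoped BigOperators

namespace DEC

open Module

variable {K : Type} [Field K] {s : K} {ι : Type} [Fintype ι] [DecidableEq ι]

/-- The highest weight vectors of weight `k`. -/
def Hw (M : WM K ι) (k : ℤ) : Submodule K (ι → K) where
  carrier := {v | (∀ a, v a ≠ 0 → M.wt a = k) ∧ M.E.mulVec v = 0}
  zero_mem' := ⟨fun a h => absurd rfl h, Matrix.mulVec_zero _⟩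
  add_mem' := by
    rintro u v ⟨h1, h2⟩ ⟨h3, h4⟩
    refine ⟨fun a h => ?_, ?_⟩
    · by_contra hne
      have h5 : u a = 0 := by
        by_contra h
        exact hne (h1 a h)
      have h6 : v a = 0 := by
        by_contra h
        exact hne (h3 a h)
      exact h (by rw [Pi.add_apply, h5, h6, add_zero])
    · rw [Matrix.mulVec_add, h2, h4, add_zero]
  smul_mem' := by
    rintro c v ⟨h1, h2⟩
    refine ⟨fun a h => h1 a fun h' => h ?_, ?_⟩
    · rw [Pi.smul_apply, h', smul_zero]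
    · rw [Matrix.mulVec_smul, h2, smul_zero]

/-- A bound of the weights. -/
theorem exists_bound (M : WM K ι) : ∃ b : ℕ, ∀ a, M.wt a < b := by
  refine ⟨(∑ a, (M.wt a).natAbs) + 1, fun a => ?_⟩
  have h := Finset.single_le_sum (f := fun a => (M.wt a).natAbs) (fun i _ => Nat.zero_le _)
    (Finset.mem_univ a)
  have h2 : (M.wt a).natAbs ≤ ∑ a, (M.wt a).natAbs := h
  rw [Nat.cast_succ]
  omega

/-- A basis of the highest weight vectors, over all weights. -/
theorem exists_family (M : WM K ι) : ∃ (r : ℕ) (k : Fin r → ℕ) (x : Fin r → ι → K),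
    (∀ i, (∀ a, x i a ≠ 0 → M.wt a = k i) ∧ M.E.mulVec (x i) = 0) ∧
    LinearIndependent K x ∧
    ∀ w : ℕ, ∀ v : ι → K, (∀ a, v a ≠ 0 → M.wt a = w) → M.E.mulVec v = 0 →
      v ∈ Submodule.span K (Set.range x) := by
  classical
  obtain ⟨b, hb⟩ := exists_bound M
  let J : Type := Σ k : Fin b, Fin (finrank K (Hw M (k : ℕ)))
  let x : J → ι → K := fun j => ((finBasis K (Hw M (j.1 : ℕ))) j.2 : ι → K)
  have hx : ∀ j : J, (∀ a, x j a ≠ 0 → M.wt a = ((j.1 : ℕ) : ℤ)) ∧ M.E.mulVec (x j) = 0 :=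
    fun j => ((finBasis K (Hw M (j.1 : ℕ))) j.2).2
  have hli : LinearIndependent K x := by
    rw [Fintype.linearIndependent_iff]
    intro c hc j0
    obtain ⟨k0, t0⟩ := j0
    have h1 : ∑ t, c ⟨k0, t⟩ • (finBasis K (Hw M (k0 : ℕ))) t = 0 := by
      apply Subtype.ext
      funext a
      rw [Submodule.coe_sum, Finset.sum_apply]
      show ∑ t, c ⟨k0, t⟩ * x ⟨k0, t⟩ a = 0
      by_cases ha : M.wt a = (k0 : ℕ)
      · have h2 := congrFun hc a
        rw [Finset.sum_apply, Fintype.sum_sigma, Finset.sum_eq_single k0] at h2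
        · exact h2
        · intro k _ hk
          refine Finset.sum_eq_zero fun t _ => ?_
          have h3 : x ⟨k, t⟩ a = 0 := by
            by_contra h
            have h4 := (hx ⟨k, t⟩).1 a h
            rw [ha] at h4
            exact hk (Fin.ext (by exact_mod_cast h4.symm))
          show c ⟨k, t⟩ * x ⟨k, t⟩ a = 0
          rw [h3, mul_zero]
        · intro h
          exact absurd (Finset.mem_univ _) h
      · refine Finset.sum_eq_zero fun t _ => ?_
        have h3 : x ⟨k0, t⟩ a = 0 := by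
          by_contra h
          exact ha ((hx ⟨k0, t⟩).1 a h)
        rw [h3, mul_zero]
    exact Fintype.linearIndependent_iff.1 (finBasis K (Hw M (k0 : ℕ))).linearIndependent _ h1 t0
  have hspan : ∀ w : ℕ, ∀ v : ι → K, (∀ a, v a ≠ 0 → M.wt a = w) → M.E.mulVec v = 0 →
      v ∈ Submodule.span K (Set.range x) := by
    intro w v hv hE
    by_cases h0 : v = 0
    · rw [h0]
      exact Submodule.zero_mem _
    · obtain ⟨a, ha⟩ := Function.ne_iff.1 h0
      have h1 := hv a ha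
      have h2 := hb a
      rw [h1] at h2
      have hw : w < b := by exact_mod_cast h2
      have h3 := (finBasis K (Hw M (w : ℕ))).sum_repr ⟨v, hv, hE⟩
      have h4 := congrArg Subtype.val h3
      rw [Submodule.coe_sum] at h4
      rw [← show _ = v from h4]
      refine Submodule.sum_mem _ fun t _ => ?_
      refine Submodule.smul_mem _ _ (Submodule.subset_span ⟨⟨⟨w, hw⟩, t⟩, rfl⟩)
  let e := Fintype.equivFin J
  refine ⟨Fintype.card J, fun i => (e.symm i).1, fun i => x (e.symm i), fun i => hx _,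
    hli.comp e.symm e.symm.injective, fun w v hv hE => ?_⟩
  have h := hspan w v hv hE
  have h2 : Set.range (fun i => x (e.symm i)) = Set.range x := e.symm.surjective.range_comp x
  rw [h2]
  exact h

/-! ### The strings of vectors -/

section

variable (s) (M : WM K ι) {r : ℕ} (k : Fin r → ℕ) (x : Fin r → ι → K)

/-- The vectors `F ^ l x / [l]!`. -/
def y (i : Fin r) (l : ℕ) : ι → K := (qfac s l)⁻¹ • (M.F ^ l).mulVec (x i)

/-- The matrix with these columns. -/
def gm (a : Fin r → ℕ) : Matrix ι (Σ i : Fin r, Fin (a i)) K := fun b p => y s M x p.1 p.2 b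

variable {s M k x}

theorem y_zero (i : Fin r) : y s M x i 0 = x i := by
  unfold y
  rw [pow_zero, Matrix.one_mulVec]
  simp [qfac]

theorem qfac_ne (hq : QNUM_Stmt) (hs : Gen s) (l : ℕ) : qfac s l ≠ 0 := by
  unfold qfac
  rw [Finset.prod_ne_zero_iff]
  intro i _
  exact (hq K s hs).2.1 _ (by omega)

theorem qfac_succ (l : ℕ) : qfac s (l + 1) = qfac s l * qn s ((l : ℤ) + 1) :=
  Finset.prod_range_succ _ _

theorem y_wt (hn : NILP_Stmt) (hM : Ok s M) (hx : ∀ i, ∀ a, x i a ≠ 0 → M.wt a = k i)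
    (i : Fin r) (l : ℕ) (b : ι) (h : y s M x i l b ≠ 0) : M.wt b = k i - 2 * l := by
  have h1 : (M.F ^ l).mulVec (x i) b ≠ 0 := fun h' => h (by
    show (qfac s l)⁻¹ * (M.F ^ l).mulVec (x i) b = 0
    rw [h', mul_zero])
  obtain ⟨c, _, hc⟩ := Finset.exists_ne_zero_of_sum_ne_zero h1
  have h2 := (hn K s ι M hM).2.1 l b c (left_ne_zero_of_mul hc)
  rw [h2, hx i c (right_ne_zero_of_mul hc)]

theorem y_E (hq : QNUM_Stmt) (hb : BRK_Stmt) (hs : Gen s) (hM : Ok s M)
    (hx : ∀ i, (∀ a, x i a ≠ 0 → M.wt a = k i) ∧ M.E.mulVec (x i) = 0) (i : Fin r) (l : ℕ) :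
    M.E.mulVec (y s M x i (l + 1)) = qn s ((k i : ℤ) - l) • y s M x i l := by
  have h1 := (hb K s hs ι M hM l).1
  have h2 : M.E.mulVec ((M.F ^ (l + 1)).mulVec (x i)) =
      (qn s ((l : ℤ) + 1) * qn s ((k i : ℤ) - l)) • (M.F ^ l).mulVec (x i) := by
    rw [Matrix.mulVec_mulVec, h1, Matrix.add_mulVec, ← Matrix.mulVec_mulVec, (hx i).2,
      Matrix.mulVec_zero, zero_add, Matrix.smul_mulVec, ← Matrix.mulVec_mulVec]
    have h3 : (Matrix.diagonal fun a => qn s (M.wt a - l)).mulVec (x i) =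
        qn s ((k i : ℤ) - l) • x i := by
      funext a
      rw [Matrix.mulVec_diagonal]
      show qn s (M.wt a - l) * x i a = qn s ((k i : ℤ) - l) * x i a
      by_cases h : x i a = 0
      · rw [h, mul_zero, mul_zero]
      · rw [(hx i).1 a h]
    rw [h3, Matrix.mulVec_smul, smul_smul]
  have h4 := qfac_ne hq hs l
  have h5 : qn s ((l : ℤ) + 1) ≠ 0 := (hq K s hs).2.1 _ (by omega)
  unfold y
  rw [Matrix.mulVec_smul, h2, qfac_succ, smul_smul, smul_smul]
  congr 1
  field_simp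

theorem y_F (hq : QNUM_Stmt) (hs : Gen s) (i : Fin r) (l : ℕ) :
    M.F.mulVec (y s M x i l) = qn s ((l : ℤ) + 1) • y s M x i (l + 1) := by
  have h4 := qfac_ne hq hs l
  have h5 : qn s ((l : ℤ) + 1) ≠ 0 := (hq K s hs).2.1 _ (by omega)
  unfold y
  rw [Matrix.mulVec_smul, Matrix.mulVec_mulVec, ← pow_succ', qfac_succ, smul_smul]
  congr 1
  field_simp

theorem y_top (hq : QNUM_Stmt) (hn : NILP_Stmt) (hb : BRK_Stmt) (hsj : SURJ_Stmt) (hs : Gen s)
    (hM : Ok s M) (hx : ∀ i, (∀ a, x i a ≠ 0 → M.wt a = k i) ∧ M.E.mulVec (x i) = 0)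
    (i : Fin r) : y s M x i (k i + 1) = 0 := by
  refine (hsj K s hs ι M hM).2.2 (-(k i : ℤ) - 2) (by omega) _ (fun b h => ?_) ?_
  · rw [y_wt hn hM (fun i => (hx i).1) i _ b h]
    push_cast
    ring
  · rw [y_E hq hb hs hM hx, sub_self, (hq K s hs).2.2.1, zero_smul]

/-- Entries of the products with the matrices of the direct sum. -/
theorem gm_mul_E (a : Fin r → ℕ) (ha : ∀ i, a i = k i + 1) (hq : QNUM_Stmt) (hb : BRK_Stmt)
    (hs : Gen s) (hM : Ok s M)
    (hx : ∀ i, (∀ a, x i a ≠ 0 → M.wt a = k i) ∧ M.E.mulVec (x i) = 0) :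
    M.E * gm s M x a = gm s M x a * (dsum s a).E := by
  funext b p
  obtain ⟨i, l⟩ := p
  have h1 : (M.E * gm s M x a) b ⟨i, l⟩ = M.E.mulVec (y s M x i l) b := rfl
  rw [h1, Matrix.mul_apply]
  rcases Nat.eq_zero_or_pos (l : ℕ) with h0 | h0
  · rw [h0, y_zero, (hx i).2]
    symm
    refine Finset.sum_eq_zero fun p _ => ?_
    have h2 : (dsum s a).E p ⟨i, l⟩ = 0 := by
      show (if p.1 = i ∧ (p.2 : ℕ) + 1 = l then qn s ((a i : ℤ) - (l : ℕ)) else 0) = 0
      rw [if_neg]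
      rintro ⟨_, h⟩
      omega
    rw [h2, mul_zero]
  · obtain ⟨l', hl'⟩ : ∃ l', (l : ℕ) = l' + 1 := ⟨(l : ℕ) - 1, by omega⟩
    have hlt : l' < a i := by
      have := l.2
      omega
    rw [Finset.sum_eq_single (⟨i, ⟨l', hlt⟩⟩ : Σ i : Fin r, Fin (a i))]
    · have h2 : (dsum s a).E ⟨i, ⟨l', hlt⟩⟩ ⟨i, l⟩ = qn s ((a i : ℤ) - (l : ℕ)) := by
        show (if i = i ∧ l' + 1 = (l : ℕ) then qn s ((a i : ℤ) - (l : ℕ)) else 0) = _
        rw [if_pos ⟨rfl, hl'.symm⟩]
      rw [h2, hl', y_E hq hb hs hM hx]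
      have h9 := ha i
      show qn s ((k i : ℤ) - l') * y s M x i l' b =
        y s M x i l' b * qn s ((a i : ℤ) - ((l' + 1 : ℕ) : ℤ))
      rw [mul_comm]
      congr 2
      omega
    · rintro ⟨i', l''⟩ _ hne
      have h2 : (dsum s a).E ⟨i', l''⟩ ⟨i, l⟩ = 0 := by
        show (if i' = i ∧ (l'' : ℕ) + 1 = l then qn s ((a i : ℤ) - (l : ℕ)) else 0) = 0
        rw [if_neg]
        rintro ⟨h3, h4⟩
        subst h3
        exact hne (by
          congr 1
          exact Fin.ext (by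
            show (l'' : ℕ) = l'
            omega))
      rw [h2, mul_zero]
    · intro h
      exact absurd (Finset.mem_univ _) h

theorem gm_mul_F (a : Fin r → ℕ) (ha : ∀ i, a i = k i + 1) (hq : QNUM_Stmt) (hn : NILP_Stmt)
    (hb : BRK_Stmt) (hsj : SURJ_Stmt) (hs : Gen s) (hM : Ok s M)
    (hx : ∀ i, (∀ a, x i a ≠ 0 → M.wt a = k i) ∧ M.E.mulVec (x i) = 0) :
    M.F * gm s M x a = gm s M x a * (dsum s a).F := by
  funext b p
  obtain ⟨i, l⟩ := p
  have h1 : (M.F * gm s M x a) b ⟨i, l⟩ = M.F.mulVec (y s M x i l) b := rfl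
  rw [h1, Matrix.mul_apply, y_F hq hs]
  by_cases hlt : (l : ℕ) + 1 < a i
  · rw [Finset.sum_eq_single (⟨i, ⟨(l : ℕ) + 1, hlt⟩⟩ : Σ i : Fin r, Fin (a i))]
    · have h2 : (dsum s a).F ⟨i, ⟨(l : ℕ) + 1, hlt⟩⟩ ⟨i, l⟩ =
          qn s (((l : ℕ) + 1 : ℕ) : ℤ) := by
        show (if i = i ∧ (l : ℕ) + 1 = (l : ℕ) + 1 then qn s (((l : ℕ) + 1 : ℕ) : ℤ) else 0) = _
        rw [if_pos ⟨rfl, rfl⟩]
      rw [h2]
      show qn s (((l : ℕ) : ℤ) + 1) * y s M x i ((l : ℕ) + 1) b =
        y s M x i ((l : ℕ) + 1) b * qn s (((l : ℕ) + 1 : ℕ) : ℤ)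
      rw [mul_comm, Nat.cast_succ]
    · rintro ⟨i', l''⟩ _ hne
      have h2 : (dsum s a).F ⟨i', l''⟩ ⟨i, l⟩ = 0 := by
        show (if i' = i ∧ (l'' : ℕ) = (l : ℕ) + 1 then qn s (((l'' : ℕ)) : ℤ) else 0) = 0
        rw [if_neg]
        rintro ⟨h3, h4⟩
        subst h3
        exact hne (by
          congr 1
          exact Fin.ext h4)
      rw [h2, mul_zero]
    · intro h
      exact absurd (Finset.mem_univ _) h
  · have h2 : (l : ℕ) + 1 = k i + 1 := by
      have := l.2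
      have := ha i
      omega
    rw [h2, y_top hq hn hb hsj hs hM hx]
    symm
    rw [smul_zero]
    refine Finset.sum_eq_zero fun p _ => ?_
    have h3 : (dsum s a).F p ⟨i, l⟩ = 0 := by
      show (if p.1 = i ∧ (p.2 : ℕ) = (l : ℕ) + 1 then qn s (((p.2 : ℕ)) : ℤ) else 0) = 0
      rw [if_neg]
      rintro ⟨h3, h4⟩
      have h5 := p.2.2
      have h6 : a p.1 = a i := by rw [h3]
      omega
    rw [h3, mul_zero]

theorem gm_wt (a : Fin r → ℕ) (ha : ∀ i, a i = k i + 1) (hn : NILP_Stmt) (hM : Ok s M)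
    (hx : ∀ i, (∀ a, x i a ≠ 0 → M.wt a = k i)) (b : ι) (p : Σ i : Fin r, Fin (a i))
    (h : gm s M x a b p ≠ 0) : M.wt b = (dsum s a).wt p := by
  rw [y_wt hn hM hx p.1 p.2 b h]
  show (k p.1 : ℤ) - 2 * ((p.2 : ℕ) : ℤ) = (a p.1 : ℤ) - 1 - 2 * ((p.2 : ℕ) : ℤ)
  have h9 := ha p.1
  omega

/-- Injectivity on the vectors killed by `E`. -/
theorem inj0 (a : Fin r → ℕ) (ha : ∀ i, a i = k i + 1) (hq : QNUM_Stmt) (hs : Gen s)
    (hli : LinearIndependent K x) (c : (Σ i : Fin r, Fin (a i)) → K)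
    (hE : (dsum s a).E.mulVec c = 0) (hg : (gm s M x a).mulVec c = 0) : c = 0 := by
  have h1 : ∀ (i : Fin r) (l : ℕ) (h : l + 1 < a i), c ⟨i, ⟨l + 1, h⟩⟩ = 0 := by
    intro i l h
    have h2 := congrFun hE ⟨i, ⟨l, Nat.lt_of_succ_lt h⟩⟩
    have h3 : (dsum s a).E.mulVec c ⟨i, ⟨l, Nat.lt_of_succ_lt h⟩⟩ =
        qn s ((a i : ℤ) - ((l + 1 : ℕ) : ℤ)) * c ⟨i, ⟨l + 1, h⟩⟩ := by
      show ∑ p, (dsum s a).E ⟨i, ⟨l, Nat.lt_of_succ_lt h⟩⟩ p * c p = _
      rw [Finset.sum_eq_single (⟨i, ⟨l + 1, h⟩⟩ : Σ i : Fin r, Fin (a i))]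
      · congr 1
        show (if i = i ∧ l + 1 = l + 1 then qn s ((a i : ℤ) - ((l + 1 : ℕ) : ℤ)) else 0) = _
        rw [if_pos ⟨rfl, rfl⟩]
      · rintro ⟨i', l''⟩ _ hne
        have h2 : (dsum s a).E ⟨i, ⟨l, Nat.lt_of_succ_lt h⟩⟩ ⟨i', l''⟩ = 0 := by
          show (if i = i' ∧ l + 1 = (l'' : ℕ) then qn s ((a i' : ℤ) - (l'' : ℕ)) else 0) = 0
          rw [if_neg]
          rintro ⟨h3, h4⟩
          subst h3
          exact hne (by
            congr 1
            exact Fin.ext h4.symm)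
        rw [h2, zero_mul]
      · intro h
        exact absurd (Finset.mem_univ _) h
    rw [h3] at h2
    refine (mul_eq_zero.1 h2).resolve_left ((hq K s hs).2.1 _ ?_)
    omega
  have h0 : ∀ i, 0 < a i := fun i => by rw [ha]; omega
  have h2 : ∑ i, c ⟨i, ⟨0, h0 i⟩⟩ • x i = 0 := by
    funext b
    have h3 := congrFun hg b
    have h4 : (gm s M x a).mulVec c b = ∑ i, ∑ l, y s M x i (l : Fin (a i)) b * c ⟨i, l⟩ := by
      show ∑ p : (Σ i : Fin r, Fin (a i)), gm s M x a b p * c p = _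
      rw [Fintype.sum_sigma]
      rfl
    rw [h4] at h3
    rw [Finset.sum_apply, ← h3]
    refine Finset.sum_congr rfl fun i _ => ?_
    rw [Finset.sum_eq_single (⟨0, h0 i⟩ : Fin (a i))]
    · show c ⟨i, ⟨0, h0 i⟩⟩ * x i b = y s M x i 0 b * c ⟨i, ⟨0, h0 i⟩⟩
      rw [y_zero, mul_comm]
    · rintro ⟨l, hl⟩ _ hne
      rcases l with _ | l
      · exact absurd rfl hne
      · rw [h1 i l hl, mul_zero]
    · intro h
      exact absurd (Finset.mem_univ _) h
  have h3 := Fintype.linearIndependent_iff.1 hli _ h2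
  funext p
  obtain ⟨i, ⟨l, hl⟩⟩ := p
  rcases l with _ | l
  · exact h3 i
  · exact h1 i l hl

theorem inj (a : Fin r → ℕ) (ha : ∀ i, a i = k i + 1) (hq : QNUM_Stmt) (hs : Gen s)
    (hli : LinearIndependent K x) (hgE : M.E * gm s M x a = gm s M x a * (dsum s a).E) (n : ℕ) :
    ∀ c : (Σ i : Fin r, Fin (a i)) → K, ((dsum s a).E ^ n).mulVec c = 0 →
      (gm s M x a).mulVec c = 0 → c = 0 := by
  induction n with
  | zero =>
    intro c h _
    rwa [pow_zero, Matrix.one_mulVec] at h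
  | succ n ih =>
    intro c h hg
    refine inj0 a ha hq hs hli c (ih _ ?_ ?_) hg
    · rw [Matrix.mulVec_mulVec, ← pow_succ, h]
    · rw [Matrix.mulVec_mulVec, ← hgE, ← Matrix.mulVec_mulVec, hg, Matrix.mulVec_zero]

/-- Surjectivity onto weight vectors. -/
theorem surj (a : Fin r → ℕ) (ha : ∀ i, a i = k i + 1) (hn : NILP_Stmt) (hv : VOK_Stmt)
    (hsj : SURJ_Stmt) (hs : Gen s) (hM : Ok s M)
    (hx : ∀ i, (∀ a, x i a ≠ 0 → M.wt a = k i) ∧ M.E.mulVec (x i) = 0)
    (hsp : ∀ w : ℕ, ∀ v : ι → K, (∀ a, v a ≠ 0 → M.wt a = w) → M.E.mulVec v = 0 →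
      v ∈ Submodule.span K (Set.range x))
    (hgE : M.E * gm s M x a = gm s M x a * (dsum s a).E)
    (hgF : M.F * gm s M x a = gm s M x a * (dsum s a).F)
    (B : ℕ) (hB : ∀ b, M.wt b < B) (n : ℕ) :
    ∀ w : ℤ, (B : ℤ) - n ≤ w → ∀ v : ι → K, (∀ b, v b ≠ 0 → M.wt b = w) →
      ∃ c, (gm s M x a).mulVec c = v := by
  have hD : Ok s (dsum s a) := (hv K s hs).2 r a
  have hgw : ∀ b p, gm s M x a b p ≠ 0 → M.wt b = (dsum s a).wt p :=
    fun b p => gm_wt a ha hn hM (fun i => (hx i).1) b p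
  induction n with
  | zero =>
    intro w hw v hv
    refine ⟨0, ?_⟩
    rw [Matrix.mulVec_zero]
    funext b
    by_contra h
    have h1 := hv b (Ne.symm h)
    have h2 := hB b
    push_cast at hw
    omega
  | succ n ih =>
    intro w hw v hv
    push_cast at hw
    rcases le_or_gt w (-1) with hw1 | hw1
    · obtain ⟨u, hu, hFu⟩ := (hsj K s hs ι M hM).2.1 w hw1 v hv
      obtain ⟨c, hc⟩ := ih (w + 2) (by omega) u hu
      refine ⟨(dsum s a).F.mulVec c, ?_⟩
      rw [Matrix.mulVec_mulVec, ← hgF, ← Matrix.mulVec_mulVec, hc, hFu]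
    · have hEv : ∀ b, M.E.mulVec v b ≠ 0 → M.wt b = w + 2 := by
        intro b hb
        obtain ⟨c, _, hc⟩ := Finset.exists_ne_zero_of_sum_ne_zero hb
        rw [hM.wtE b c (left_ne_zero_of_mul hc), hv c (right_ne_zero_of_mul hc)]
      obtain ⟨c, hc⟩ := ih (w + 2) (by omega) _ hEv
      obtain ⟨c', hc'⟩ : ∃ c' : (Σ i : Fin r, Fin (a i)) → K,
          c' = fun p => if (dsum s a).wt p = w + 2 then c p else 0 := ⟨_, rfl⟩
      have h1 : (gm s M x a).mulVec c' = M.E.mulVec v := by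
        funext b
        by_cases hb : M.wt b = w + 2
        · rw [← hc]
          refine Finset.sum_congr rfl fun p _ => ?_
          show gm s M x a b p * c' p = gm s M x a b p * c p
          by_cases h : gm s M x a b p = 0
          · rw [h, zero_mul, zero_mul]
          · rw [hc']
            simp only
            rw [if_pos (by rw [← hgw b p h, hb])]
        · have h2 : M.E.mulVec v b = 0 := by
            by_contra h
            exact hb (hEv b h)
          rw [h2]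
          refine Finset.sum_eq_zero fun p _ => ?_
          show gm s M x a b p * c' p = 0
          by_cases h : gm s M x a b p = 0
          · rw [h, zero_mul]
          · rw [hc']
            simp only
            rw [if_neg (by rw [← hgw b p h]; exact hb), mul_zero]
      obtain ⟨u, hu, hEu⟩ := (hsj K s hs _ (dsum s a) hD).1 (w + 2) (by omega) c' (fun p hp => by
        by_contra h
        rw [hc'] at hp
        simp only at hp
        rw [if_neg h] at hp
        exact hp rfl)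
      have h2 : ∀ b, (v - (gm s M x a).mulVec u) b ≠ 0 → M.wt b = ((w.toNat : ℕ) : ℤ) := by
        intro b hb
        rw [Int.toNat_of_nonneg (by omega)]
        by_contra hne
        have h3 : v b = 0 := by
          by_contra h
          exact hne (hv b h)
        have h4 : (gm s M x a).mulVec u b = 0 := by
          refine Finset.sum_eq_zero fun p _ => ?_
          show gm s M x a b p * u p = 0
          by_contra h
          have h5 := hgw b p (left_ne_zero_of_mul h)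
          have h6 := hu p (right_ne_zero_of_mul h)
          exact hne (by rw [h5, h6]; ring)
        exact hb (by rw [Pi.sub_apply, h3, h4, sub_zero])
      have h3 : M.E.mulVec (v - (gm s M x a).mulVec u) = 0 := by
        rw [Matrix.mulVec_sub, Matrix.mulVec_mulVec, hgE, ← Matrix.mulVec_mulVec, hEu, h1,
          sub_self]
      have h4 := hsp w.toNat _ h2 h3
      have h5 : Submodule.span K (Set.range x) ≤ LinearMap.range (gm s M x a).mulVecLin := by
        rw [Submodule.span_le]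
        rintro _ ⟨i, rfl⟩
        refine ⟨Pi.single ⟨i, ⟨0, by rw [ha]; omega⟩⟩ 1, ?_⟩
        rw [Matrix.mulVecLin_apply, Matrix.mulVec_single_one]
        funext b
        show y s M x i 0 b = x i b
        rw [y_zero]
      obtain ⟨c0, hc0⟩ := h5 h4
      rw [Matrix.mulVecLin_apply] at hc0
      refine ⟨c0 + u, ?_⟩
      rw [Matrix.mulVec_add, hc0, sub_add_cancel]

end

end DEC

theorem dec_mod (hq : QNUM_Stmt) (hn : NILP_Stmt) (hb : BRK_Stmt) (hv : VOK_Stmt)
    (hsj : SURJ_Stmt) : DEC_Stmt := by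
  intro K _ s hs ι _ _ M hM
  obtain ⟨r, k, x, hx, hli, hsp⟩ := DEC.exists_family M
  obtain ⟨B, hB⟩ := DEC.exists_bound M
  obtain ⟨a, ha⟩ : ∃ a : Fin r → ℕ, ∀ i, a i = k i + 1 := ⟨fun i => k i + 1, fun _ => rfl⟩
  have hgE := DEC.gm_mul_E a ha hq hb hs hM hx
  have hgF := DEC.gm_mul_F a ha hq hn hb hsj hs hM hx
  have hinj : ∀ c, (DEC.gm s M x a).mulVec c = 0 → c = 0 := by
    intro c hc
    refine DEC.inj a ha hq hs hli hgE (Fintype.card (Σ i : Fin r, Fin (a i))) c ?_ hc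
    rw [((hn K s _ (dsum s a) ((hv K s hs).2 r a)).2.2 _ le_rfl).1, Matrix.zero_mulVec]
  have hsur : ∀ b : ι, ∃ c, (DEC.gm s M x a).mulVec c = Pi.single b 1 := by
    intro b
    have h1 : (B : ℤ) - ((B : ℤ) - M.wt b).toNat ≤ M.wt b := by
      have := hB b
      omega
    refine DEC.surj a ha hn hv hsj hs hM hx hsp hgE hgF B hB _ (M.wt b) h1 _ fun b' h => ?_
    by_contra hne
    exact h (Pi.single_eq_of_ne (fun h' => hne (by rw [h'])) _)
  choose u hu using hsur
  obtain ⟨g', hg'⟩ : ∃ g' : Matrix (Σ i : Fin r, Fin (a i)) ι K, g' = fun p b => u b p :=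
    ⟨_, rfl⟩
  have h0 : DEC.gm s M x a * g' = 1 := by
    rw [hg']
    funext b' b
    have h1 := congrFun (hu b) b'
    show (DEC.gm s M x a).mulVec (u b) b' = _
    rw [h1, Matrix.one_apply, Pi.single_apply]
  refine ⟨r, a, DEC.gm s M x a, g', fun i => by rw [ha]; omega, h0, ?_,
    ⟨fun b p h => DEC.gm_wt a ha hn hM (fun i => (hx i).1) b p h, hgE, hgF⟩⟩
  obtain ⟨Z, hZ⟩ : ∃ Z : Matrix (Σ i : Fin r, Fin (a i)) (Σ i : Fin r, Fin (a i)) K,
      Z = g' * DEC.gm s M x a - 1 := ⟨_, rfl⟩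
  have h2 : DEC.gm s M x a * Z = 0 := by
    rw [hZ, Matrix.mul_sub, ← Matrix.mul_assoc, h0, Matrix.one_mul, Matrix.mul_one, sub_self]
  have h3 : Z = 0 := by
    funext p q
    have h1 : (DEC.gm s M x a).mulVec (fun p => Z p q) = 0 := by
      funext b
      exact congrFun (congrFun h2 b) q
    exact congrFun (hinj _ h1) p
  rw [hZ] at h3
  exact sub_eq_zero.1 h3

end Pool.Agent.IT
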