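import Pool.Agent.IT.Stmts

/-!
# Iterated torus knots: the exponential series
-/

namespace Pool.Agent.IT
open scoped BigOperators
open PowerSeries

namespace ESER

theorem E_eq (a : ℚ) : E a = rescale a (exp ℚ) := by
  ext n
  simp [E, coeff_mk, coeff_rescale, coeff_exp, div_eq_mul_inv]

theorem E_zero : E 0 = 1 := by
  ext n
  rw [E, coeff_mk, coeff_one]
  rcases n with _ | n <;> simp

theorem E_add (a b : ℚ) : E (a + b) = E a * E b := by
  rw [E_eq, E_eq, E_eq, exp_mul_exp_eq_exp_add]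

theorem E_const (a : ℚ) : constantCoeff (E a) = 1 := by
  rw [← coeff_zero_eq_constantCoeff_apply, E, coeff_mk]
  simp

theorem dl_eq (x : ℚ) (f : ℚ⟦X⟧) : dl x f = rescale x f := by
  ext n
  simp [dl, coeff_rescale, mul_comm]

theorem dz_eq (f : ℚ⟦X⟧) : dz f = derivative ℚ f := by
  ext n
  simp [dz, coeff_derivative]

theorem dl_E (x a : ℚ) : dl x (E a) = E (a * x) := by
  rw [dl_eq, E_eq, E_eq, rescale_rescale]

theorem dz_E (a : ℚ) : dz (E a) = a • E a := by
  ext n
  have h : ((n : ℚ) + 1) ≠ 0 := by positivity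
  have h' : ((n.factorial : ℕ) : ℚ) ≠ 0 := by exact_mod_cast n.factorial_ne_zero
  simp only [dz, E, LinearMap.coe_mk, AddHom.coe_mk, coeff_mk, coeff_smul, smul_eq_mul,
    Nat.factorial_succ, Nat.cast_mul, Nat.cast_add, Nat.cast_one]
  field_simp
  ring

theorem sQ_zpow (k : ℤ) : sQ ^ k = toK (E (k / 2)) := by
  have hE : ∀ a : ℚ, toK (E a) * toK (E (-a)) = 1 := by
    intro a
    rw [← map_mul, ← E_add, add_neg_cancel, E_zero, map_one]
  have hne : ∀ a : ℚ, toK (E a) ≠ 0 := fun a h => by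
    have := hE a
    rw [h, zero_mul] at this
    exact zero_ne_one this
  have hn : ∀ n : ℕ, sQ ^ n = toK (E (n / 2)) := by
    intro n
    induction n with
    | zero => rw [pow_zero, Nat.cast_zero, zero_div, E_zero, map_one]
    | succ n ih =>
      rw [pow_succ, ih, sQ, ← map_mul, ← E_add]
      congr 2
      push_cast
      ring
  obtain ⟨n, rfl | rfl⟩ := Int.eq_nat_or_neg k
  · rw [zpow_natCast, hn, Int.cast_natCast]
  · rw [zpow_neg, zpow_natCast, hn, Int.cast_neg, Int.cast_natCast, neg_div]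
    exact inv_eq_of_mul_eq_one_right (hE _)

theorem gen_sQ : Gen sQ := by
  refine ⟨?_, ?_⟩
  · intro h
    have h1 := sQ_zpow 0
    have h2 := sQ_zpow 2
    rw [h, zero_zpow 2 (by norm_num)] at h2
    have h3 : E (((2 : ℤ) : ℚ) / 2) = 0 := by
      apply (FaithfulSMul.algebraMap_injective ℚ⟦X⟧ KQ)
      rw [map_zero]
      exact h2.symm
    have h4 := E_const (((2 : ℤ) : ℚ) / 2)
    rw [h3, map_zero] at h4
    exact zero_ne_one h4
  · intro n hn h
    have h2 := sQ_zpow ((4 * n : ℕ) : ℤ)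
    rw [zpow_natCast, h] at h2
    have h3 : E ((((4 * n : ℕ) : ℤ) : ℚ) / 2) = 1 := by
      apply (FaithfulSMul.algebraMap_injective ℚ⟦X⟧ KQ)
      rw [map_one]
      exact h2.symm
    have h4 := congrArg (coeff 1) h3
    rw [E, coeff_mk, coeff_one] at h4
    have h5 : (0 : ℚ) < n := by exact_mod_cast hn
    norm_num at h4
    omega

end ESER

open ESER in
theorem eser : ESER_Stmt := by
  refine ⟨E_zero, E_add, E_const, sQ_zpow, gen_sQ, dl_E, dz_E, ?_, ?_, ?_⟩
  · intro x f g
    rw [dl_eq, dl_eq, dl_eq, map_mul]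
  · intro f g
    rw [dz_eq, dz_eq, dz_eq, Derivation.leibniz, smul_eq_mul, smul_eq_mul]
    ring
  · intro x f
    ext n
    simp only [dz, dl, LinearMap.coe_mk, AddHom.coe_mk, coeff_mk, coeff_smul, smul_eq_mul]
    ring

end Pool.Agent.IT
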