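import Pool.Agent.IT.Stmts

/-!
# EVB: evaluation of series in two variables
-/

namespace Pool.Agent.IT

open PowerSeries
open scoped BigOperators

namespace EVB

theorem coeff_dl (x : ℚ) (f : ℚ⟦X⟧) (n : ℕ) : coeff n (dl x f) = coeff n f * x ^ n := by
  change coeff n (PowerSeries.mk fun n => coeff n f * x ^ n) = _
  rw [PowerSeries.coeff_mk]

theorem coeff_dz (f : ℚ⟦X⟧) (n : ℕ) : coeff n (dz f) = coeff (n + 1) f * (n + 1) := by
  change coeff n (PowerSeries.mk fun n => coeff (n + 1) f * (n + 1)) = _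
  rw [PowerSeries.coeff_mk]

theorem coeff_cw (L : ℚ⟦X⟧ →ₗ[ℚ] ℚ⟦X⟧) (F : B) (k : ℕ) : coeff k (cw L F) = L (coeff k F) :=
  PowerSeries.coeff_mk _ _

theorem coeff_xp (L : ℚ⟦X⟧ →ₗ[ℚ] ℚ⟦X⟧) (F : B) (m : ℕ) : coeff m (xp L F) =
    ∑ j ∈ Finset.range (m + 1), ((j.factorial : ℚ)⁻¹) • (L ^ j) (coeff (m - j) F) :=
  PowerSeries.coeff_mk _ _

theorem coeff_evB (x : ℚ) (F : B) (m : ℕ) : coeff m (evB x F) =
    ∑ k ∈ Finset.range (m + 1), coeff (m - k) (coeff k F) * x ^ (m - k) :=
  PowerSeries.coeff_mk _ _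

theorem dl_mul (x : ℚ) (f g : ℚ⟦X⟧) : dl x (f * g) = dl x f * dl x g := by
  ext n
  rw [coeff_dl, coeff_mul, coeff_mul, Finset.sum_mul]
  refine Finset.sum_congr rfl fun p hp => ?_
  rw [coeff_dl, coeff_dl, ← Finset.HasAntidiagonal.mem_antidiagonal.mp hp, pow_add]
  ring

/-- the coefficients of `evB x F` up to `m` are those of a finite sum -/
theorem coeff_evB_eq (x : ℚ) (F : B) (m n : ℕ) (h : n ≤ m) : coeff n (evB x F) =
    coeff n (∑ k ∈ Finset.range (m + 1), (PowerSeries.X : ℚ⟦X⟧) ^ k * dl x (coeff k F)) := by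
  rw [coeff_evB, map_sum]
  have h1 : Finset.range (n + 1) ⊆ Finset.range (m + 1) := by
    intro k hk
    rw [Finset.mem_range] at hk ⊢
    omega
  rw [← Finset.sum_subset h1]
  · refine Finset.sum_congr rfl fun k hk => ?_
    rw [Finset.mem_range] at hk
    rw [coeff_X_pow_mul', if_pos (by omega), coeff_dl]
  · intro k _ hk
    rw [Finset.mem_range] at hk
    rw [coeff_X_pow_mul', if_neg (by omega)]

theorem coeff_mul_congr (a u v : ℚ⟦X⟧) (m : ℕ) (h : ∀ n ≤ m, coeff n u = coeff n v) :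
    coeff m (a * u) = coeff m (a * v) := by
  rw [coeff_mul, coeff_mul]
  refine Finset.sum_congr rfl fun p hp => ?_
  have h1 := Finset.HasAntidiagonal.mem_antidiagonal.mp hp
  rw [h p.2 (by omega)]

theorem coeff_dz_pow (j : ℕ) (f : ℚ⟦X⟧) (n : ℕ) :
    coeff n ((dz ^ j) f) = coeff (n + j) f * ((n + j).choose j * (j.factorial : ℚ)) := by
  induction j generalizing n f with
  | zero => simp
  | succ j ih =>
    rw [pow_succ, Module.End.mul_apply, ih, coeff_dz]
    have h1 : ((n + (j + 1)).choose (j + 1) : ℚ) * ((j + 1).factorial : ℚ) =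
        ((n + j + 1 : ℕ) : ℚ) * ((n + j).choose j * (j.factorial : ℚ)) := by
      have h2 : (n + j + 1) * (n + j).choose j = (n + j + 1).choose (j + 1) * (j + 1) :=
        Nat.add_one_mul_choose_eq (n + j) j
      have h3 : (n + (j + 1)).choose (j + 1) * (j + 1).factorial =
          (n + j + 1) * ((n + j).choose j * j.factorial) := by
        rw [Nat.factorial_succ, ← mul_assoc, ← mul_assoc]
        have h4 : n + (j + 1) = n + j + 1 := by omega
        rw [h4, ← h2]
      exact_mod_cast h3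
    rw [h1]
    have h4 : n + (j + 1) = n + j + 1 := by omega
    rw [h4]
    push_cast
    ring

theorem smul_dz_pow (t : ℚ) (j : ℕ) (f : ℚ⟦X⟧) :
    ((t • dz : ℚ⟦X⟧ →ₗ[ℚ] ℚ⟦X⟧) ^ j) f = t ^ j • (dz ^ j) f := by
  rw [smul_pow]
  rfl

theorem sum_reindex (m : ℕ) (g : ℕ → ℕ → ℚ) :
    ∑ k ∈ Finset.range (m + 1), ∑ j ∈ Finset.range (k + 1), g k j =
      ∑ l ∈ Finset.range (m + 1), ∑ j ∈ Finset.range (m - l + 1), g (l + j) j := by
  rw [Finset.sum_sigma', Finset.sum_sigma']
  refine Finset.sum_bij' (fun p _ => ⟨p.1 - p.2, p.2⟩) (fun p _ => ⟨p.1 + p.2, p.2⟩) ?_ ?_ ?_ ?_ ?_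
  · intro p hp
    simp only [Finset.mem_sigma, Finset.mem_range] at hp ⊢
    omega
  · intro p hp
    simp only [Finset.mem_sigma, Finset.mem_range] at hp ⊢
    omega
  · rintro ⟨k, j⟩ hp
    simp only [Finset.mem_sigma, Finset.mem_range] at hp
    have h1 : k - j + j = k := by omega
    simp only [h1]
  · rintro ⟨l, j⟩ hp
    have h1 : l + j - j = l := by omega
    simp only [h1]
  · rintro ⟨k, j⟩ hp
    simp only [Finset.mem_sigma, Finset.mem_range] at hp
    have h1 : k - j + j = k := by omega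
    simp only [h1]

theorem evB_sh (x t : ℚ) (F : B) : evB x (sh t F) = evB (x + t) F := by
  ext m
  rw [coeff_evB, coeff_evB]
  have h1 : ∀ k ∈ Finset.range (m + 1), coeff (m - k) (coeff k (sh t F)) * x ^ (m - k) =
      ∑ j ∈ Finset.range (k + 1), coeff (m - k + j) (coeff (k - j) F) *
        ((m - k + j).choose j * (t ^ j * x ^ (m - k))) := by
    intro k _
    rw [sh, coeff_xp, map_sum, Finset.sum_mul]
    refine Finset.sum_congr rfl fun j _ => ?_
    rw [smul_dz_pow, coeff_smul, coeff_smul, coeff_dz_pow]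
    have hj : (j.factorial : ℚ) ≠ 0 := by exact_mod_cast j.factorial_ne_zero
    simp only [smul_eq_mul]
    field_simp
  rw [Finset.sum_congr rfl h1, sum_reindex m fun k j => coeff (m - k + j) (coeff (k - j) F) *
        ((m - k + j).choose j * (t ^ j * x ^ (m - k)))]
  refine Finset.sum_congr rfl fun l hl => ?_
  rw [Finset.mem_range] at hl
  rw [add_comm x t, add_pow, Finset.mul_sum]
  refine Finset.sum_congr rfl fun j hj => ?_
  rw [Finset.mem_range] at hj
  have e1 : m - (l + j) + j = m - l := by omega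
  have e2 : l + j - j = l := by omega
  have e3 : m - (l + j) = m - l - j := by omega
  rw [e1, e2, e3]
  ring

end EVB

open EVB in
theorem evb (_he : ESER_Stmt) : EVB_Stmt := by
  refine ⟨?_, ?_, ?_, evB_sh, ?_, ?_⟩
  · intro x F F'
    ext m
    rw [map_add, coeff_evB, coeff_evB, coeff_evB, ← Finset.sum_add_distrib]
    refine Finset.sum_congr rfl fun k _ => ?_
    rw [map_add, map_add, add_mul]
  · intro x F F'
    ext m
    rw [map_sub, coeff_evB, coeff_evB, coeff_evB, ← Finset.sum_sub_distrib]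
    refine Finset.sum_congr rfl fun k _ => ?_
    rw [map_sub, map_sub, sub_mul]
  · intro x g F
    ext m
    rw [coeff_evB_eq x _ m m le_rfl, coeff_mul_congr (dl x g) _ _ m (coeff_evB_eq x F m),
      Finset.mul_sum]
    congr 1
    refine Finset.sum_congr rfl fun k _ => ?_
    have h1 : coeff k (cw (ml g) F) = g * coeff k F := coeff_cw _ _ _
    rw [h1, dl_mul]
    ring
  · intro x y F
    ext m
    rw [coeff_evB, coeff_evB]
    refine Finset.sum_congr rfl fun k _ => ?_
    rw [coeff_cw, coeff_dl, mul_pow]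
    ring
  · intro x F hF
    ext m
    rw [map_neg, coeff_evB, coeff_evB, ← Finset.sum_neg_distrib]
    refine Finset.sum_congr rfl fun k _ => ?_
    rcases Nat.even_or_odd (m - k) with h | h
    · rw [hF k (m - k) h]
      ring
    · rw [h.neg_pow]
      ring

end Pool.Agent.IT
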