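import Pool.Agent.IT.Stmts

/-!
# Iterated torus knots: the values of the solution of the functional equation
-/

namespace Pool.Agent.IT
open Pool.Agent.LibH11
open scoped BigOperators
open PowerSeries

namespace EVREC

/-- The functional equation at a value of the first variable. -/
theorem eval_funEq (he : ESER_Stmt) (hv : EVB_Stmt) {p : ℕ} {q : ℤ} {F F' : B}
    (h : FunEq p q F F') (x : ℚ) :
    E (p * q * x) * evB (x + 1) F' - E (-(p * q * x)) * evB (x - 1) F' =
      E (q * x) * evB (p * x + 1) F - E (-(q * x)) * evB (p * x - 1) F := by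
  obtain ⟨_, _, _, _, _, hdl, _⟩ := he
  obtain ⟨_, hsub, hml, hsh, hdlv, _⟩ := hv
  have h1 := congrArg (evB x) h
  rw [hsub, hsub, hml, hml, hml, hml, hsh, hsh, hdlv, hdlv, hsh, hsh, hdl, hdl, hdl, hdl] at h1
  rw [show -((p : ℚ) * q * x) = -((p : ℚ) * q) * x by ring,
    show -((q : ℚ) * x) = -(q : ℚ) * x by ring, show (x - 1 : ℚ) = x + -1 by ring,
    show ((p : ℚ) * x + 1 : ℚ) = x * p + 1 by ring,
    show ((p : ℚ) * x - 1 : ℚ) = x * p + -1 by ring]
  exact h1

theorem E_ne (he : ESER_Stmt) (a : ℚ) : E a ≠ 0 := by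
  intro h
  have h1 := he.2.2.1 a
  rw [h, map_zero] at h1
  exact zero_ne_one h1

theorem two_ne : (2 : ℚ⟦X⟧) ≠ 0 := by
  intro h
  have h1 := congrArg (constantCoeff (R := ℚ)) h
  rw [map_ofNat, map_zero] at h1
  exact two_ne_zero h1

end EVREC

open EVREC in
theorem evrec (he : ESER_Stmt) (hv : EVB_Stmt) : EVREC_Stmt := by
  intro p q F F' JK JC hp hF hF' hfe hrec hK1 hC0 hC1 hval
  have hodd := hv.2.2.2.2.2
  have h0 : evB 0 F' = 0 := by
    have h1 := hodd 0 F' hF'
    rw [neg_zero] at h1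
    have h2 : (2 : ℚ⟦X⟧) * evB 0 F' = 0 := by linear_combination h1
    rcases mul_eq_zero.mp h2 with h3 | h3
    · exact absurd h3 two_ne
    · exact h3
  have h1 : evB 1 F' = X := by
    have h2 := eval_funEq he hv hfe 0
    rw [mul_zero, mul_zero, mul_zero, neg_zero, he.1, one_mul, one_mul, one_mul, one_mul,
      zero_add, zero_sub, hodd 1 F' hF', hodd 1 F hF] at h2
    have h3 := hval 1
    rw [Nat.cast_one, hK1, mul_one] at h3
    rw [h3] at h2
    have h4 : (2 : ℚ⟦X⟧) * (evB 1 F' - X) = 0 := by linear_combination h2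
    rcases mul_eq_zero.mp h4 with h5 | h5
    · exact absurd h5 two_ne
    · exact sub_eq_zero.mp h5
  have hstep : ∀ N : ℕ, evB (N : ℚ) F' = X * JC N ∧ evB ((N + 1 : ℕ) : ℚ) F' = X * JC (N + 1) := by
    intro N
    induction N with
    | zero =>
      constructor
      · rw [Nat.cast_zero, h0, hC0, mul_zero]
      · rw [Nat.cast_one, h1, hC1, mul_one]
    | succ N ih =>
      refine ⟨ih.2, ?_⟩
      have h2 := eval_funEq he hv hfe ((N + 1 : ℕ) : ℚ)
      have h3 := hrec (N + 1) (Nat.succ_le_succ (Nat.zero_le N))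
      have h4 : (((N + 1 : ℕ) : ℚ) + 1) = ((N + 1 + 1 : ℕ) : ℚ) := by push_cast; ring
      have h5 : (((N + 1 : ℕ) : ℚ) - 1) = (N : ℚ) := by push_cast; ring
      have h6 : ((p : ℚ) * ((N + 1 : ℕ) : ℚ) + 1) = ((p * (N + 1) + 1 : ℕ) : ℚ) := by
        push_cast; ring
      have h7 : ((p : ℚ) * ((N + 1 : ℕ) : ℚ) - 1) = ((p * (N + 1) - 1 : ℕ) : ℚ) := by
        have h8 : 1 ≤ p * (N + 1) := Nat.mul_pos hp (Nat.succ_pos N)
        rw [Nat.cast_sub h8]
        push_cast
        ring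
      rw [h4, h5, h6, h7, hval, hval, ih.1] at h2
      rw [Nat.add_sub_cancel] at h3
      have h8 : E ((p : ℚ) * q * ((N + 1 : ℕ) : ℚ)) *
          (evB ((N + 1 + 1 : ℕ) : ℚ) F' - X * JC (N + 1 + 1)) = 0 := by
        linear_combination h2 - X * h3
      rcases mul_eq_zero.mp h8 with h9 | h9
      · exact absurd h9 (E_ne he _)
      · exact sub_eq_zero.mp h9
  intro N
  exact (hstep N).1

end Pool.Agent.IT
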