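import Pool.Agent.IT.Stmts

/-!
# Iterated torus knots: tensor powers are weight modules
-/

namespace Pool.Agent.IT
open scoped BigOperators

namespace FPOWOK

variable {K : Type} [Field K] {s : K}

/-- The relations of a weight module are transported along a bijection of the labels. -/
theorem ok_equiv {ι κ : Type} [Fintype ι] [DecidableEq ι] [Fintype κ] [DecidableEq κ]
    (e : ι ≃ κ) (M : WM K κ) (N : WM K ι) (hN : Ok s N) (hwt : ∀ x, M.wt (e x) = N.wt x)
    (hE : ∀ x y, M.E (e x) (e y) = N.E x y) (hF : ∀ x y, M.F (e x) (e y) = N.F x y) :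
    Ok s M := by
  have E' : ∀ a b, M.E a b = N.E (e.symm a) (e.symm b) := fun a b => by
    rw [← hE, e.apply_symm_apply, e.apply_symm_apply]
  have F' : ∀ a b, M.F a b = N.F (e.symm a) (e.symm b) := fun a b => by
    rw [← hF, e.apply_symm_apply, e.apply_symm_apply]
  have W' : ∀ a, M.wt a = N.wt (e.symm a) := fun a => by
    rw [← hwt, e.apply_symm_apply]
  refine ⟨?_, ?_, ?_⟩
  · intro a b h
    rw [W', W']
    exact hN.wtE _ _ (by rw [← E']; exact h)
  · intro a b h
    rw [W', W']
    exact hN.wtF _ _ (by rw [← F']; exact h)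
  · ext a b
    have h := congrFun (congrFun hN.comm (e.symm a)) (e.symm b)
    rw [Matrix.sub_apply, Matrix.mul_apply, Matrix.mul_apply, Matrix.diagonal_apply] at h
    rw [Matrix.sub_apply, Matrix.mul_apply, Matrix.mul_apply, Matrix.diagonal_apply]
    have h1 : ∑ j, M.E a j * M.F j b = ∑ j, N.E (e.symm a) j * N.F j (e.symm b) := by
      rw [← Equiv.sum_comp e.symm]
      exact Finset.sum_congr rfl fun j _ => by rw [E', F']
    have h2 : ∑ j, M.F a j * M.E j b = ∑ j, N.F (e.symm a) j * N.E j (e.symm b) := by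
      rw [← Equiv.sum_comp e.symm]
      exact Finset.sum_congr rfl fun j _ => by rw [E', F']
    rw [h1, h2, h, W' a]
    simp only [EmbeddingLike.apply_eq_iff_eq]

/-- The empty tensor power. -/
theorem ok_zero {ι : Type} [Fintype ι] [DecidableEq ι] (M : WM K ι) : Ok s (fpow s M 0) := by
  have hE : (fpow s M 0).E = 0 := by
    ext x y
    simp [fpow]
  have hF : (fpow s M 0).F = 0 := by
    ext x y
    simp [fpow]
  refine ⟨?_, ?_, ?_⟩
  · intro a b h
    rw [hE] at h
    exact absurd rfl h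
  · intro a b h
    rw [hF] at h
    exact absurd rfl h
  · rw [hE, hF]
    ext a b
    rw [Matrix.diagonal_apply]
    simp [fpow, qn]

end FPOWOK

open FPOWOK in
theorem fpowok (ht : TENSOK_Stmt) (hf : FPOWT_Stmt) : FPOWOK_Stmt := by
  intro K _ s hs ι _ _ M hM c
  obtain ⟨hA, hB⟩ := hf K s hs ι M
  have h1 : Ok s (fpow s M 1) := by
    refine ok_equiv (Equiv.funUnique (Fin 1) ι).symm (fpow s M 1) M hM ?_ ?_ ?_
    · intro x
      exact (hB _ (fun _ => x)).1
    · intro x y
      exact (hB _ _).2.1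
    · intro x y
      exact (hB _ _).2.2
  induction c with
  | zero => exact ok_zero M
  | succ c ih =>
    have h2 : Ok s (tens s (fpow s M c) (fpow s M 1)) :=
      (ht K s hs (Fin c → ι) (Fin 1 → ι) (Fin c → ι) (Fin 1 → ι) (fpow s M c) (fpow s M 1)
        (fpow s M c) (fpow s M 1) ih h1).1
    refine ok_equiv (Fin.appendEquiv c 1) (fpow s M (c + 1)) _ h2 ?_ ?_ ?_
    · rintro ⟨x, y⟩
      exact (hA c 1 x x y y).1
    · rintro ⟨x, y⟩ ⟨u, v⟩
      exact (hA c 1 x u y v).2.1
    · rintro ⟨x, y⟩ ⟨u, v⟩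
      exact (hA c 1 x u y v).2.2

end Pool.Agent.IT
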