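import Pool.Agent.IT.Stmts

/-!
# FPOWT: tensor powers are tensor products of tensor powers
-/

set_option linter.unusedSectionVars false

namespace Pool.Agent.IT
open Pool.Agent.LibH11
open scoped BigOperators

namespace FPOWT

variable {ι : Type} {a b : ℕ}

/-- the condition on the labels, first part -/
theorem cond_left (x u : Fin a → ι) (y v : Fin b → ι) (i : Fin a) :
    (∀ l, l ≠ Fin.castAdd b i → (Fin.append x y : Fin (a + b) → ι) l = Fin.append u v l) ↔
      (y = v ∧ ∀ l, l ≠ i → x l = u l) := by
  constructor
  · intro h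
    refine ⟨funext fun j => ?_, fun l hl => ?_⟩
    · have h1 := h (Fin.natAdd a j) (by
        intro he
        have := congrArg Fin.val he
        simp only [Fin.val_natAdd, Fin.val_castAdd] at this
        have := i.2
        omega)
      rwa [Fin.append_right, Fin.append_right] at h1
    · have h1 := h (Fin.castAdd b l) (by
        intro he
        exact hl (Fin.castAdd_injective a b he))
      rwa [Fin.append_left, Fin.append_left] at h1
  · rintro ⟨rfl, h⟩ l hl
    induction l using Fin.addCases with
    | left l =>
      rw [Fin.append_left, Fin.append_left]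
      exact h l fun he => hl (by rw [he])
    | right l => rw [Fin.append_right, Fin.append_right]

/-- the condition on the labels, second part -/
theorem cond_right (x u : Fin a → ι) (y v : Fin b → ι) (j : Fin b) :
    (∀ l, l ≠ Fin.natAdd a j → (Fin.append x y : Fin (a + b) → ι) l = Fin.append u v l) ↔
      (x = u ∧ ∀ l, l ≠ j → y l = v l) := by
  constructor
  · intro h
    refine ⟨funext fun i => ?_, fun l hl => ?_⟩
    · have h1 := h (Fin.castAdd b i) (by
        intro he
        have := congrArg Fin.val he
        simp only [Fin.val_natAdd, Fin.val_castAdd] at this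
        have := i.2
        omega)
      rwa [Fin.append_left, Fin.append_left] at h1
    · have h1 := h (Fin.natAdd a l) (by
        intro he
        exact hl (Fin.natAdd_injective b a he))
      rwa [Fin.append_right, Fin.append_right] at h1
  · rintro ⟨rfl, h⟩ l hl
    induction l using Fin.addCases with
    | left l => rw [Fin.append_left, Fin.append_left]
    | right l =>
      rw [Fin.append_right, Fin.append_right]
      exact h l fun he => hl (by rw [he])

variable (wt : ι → ℤ)

theorem gt_left (u : Fin a → ι) (v : Fin b → ι) (i : Fin a) :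
    ∑ l ∈ Finset.univ.filter (fun l => Fin.castAdd b i < l),
      wt ((Fin.append u v : Fin (a + b) → ι) l) =
    ∑ l ∈ Finset.univ.filter (fun l => i < l), wt (u l) + ∑ j, wt (v j) := by
  rw [Finset.sum_filter, Fin.sum_univ_add, Finset.sum_filter]
  congr 1
  · refine Finset.sum_congr rfl fun l _ => ?_
    rw [Fin.append_left]
    exact if_congr (by simp only [Fin.lt_def, Fin.val_castAdd]) rfl rfl
  · refine Finset.sum_congr rfl fun l _ => ?_
    rw [Fin.append_right, if_pos]
    simp only [Fin.lt_def, Fin.val_castAdd, Fin.val_natAdd]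
    have := i.2
    omega

theorem gt_right (u : Fin a → ι) (v : Fin b → ι) (j : Fin b) :
    ∑ l ∈ Finset.univ.filter (fun l => Fin.natAdd a j < l),
      wt ((Fin.append u v : Fin (a + b) → ι) l) =
    ∑ l ∈ Finset.univ.filter (fun l => j < l), wt (v l) := by
  rw [Finset.sum_filter, Fin.sum_univ_add, Finset.sum_filter]
  rw [Finset.sum_eq_zero, zero_add]
  · refine Finset.sum_congr rfl fun l _ => ?_
    rw [Fin.append_right]
    exact if_congr (by simp only [Fin.lt_def, Fin.val_natAdd]; omega) rfl rfl
  · intro l _
    rw [if_neg]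
    simp only [Fin.lt_def, Fin.val_castAdd, Fin.val_natAdd]
    have := l.2
    omega

theorem lt_left (u : Fin a → ι) (v : Fin b → ι) (i : Fin a) :
    ∑ l ∈ Finset.univ.filter (fun l => l < Fin.castAdd b i),
      wt ((Fin.append u v : Fin (a + b) → ι) l) =
    ∑ l ∈ Finset.univ.filter (fun l => l < i), wt (u l) := by
  rw [Finset.sum_filter, Fin.sum_univ_add, Finset.sum_filter]
  rw [add_comm, Finset.sum_eq_zero, zero_add]
  · refine Finset.sum_congr rfl fun l _ => ?_
    rw [Fin.append_left]
    exact if_congr (by simp only [Fin.lt_def, Fin.val_castAdd]) rfl rfl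
  · intro l _
    rw [if_neg]
    simp only [Fin.lt_def, Fin.val_castAdd, Fin.val_natAdd]
    have := i.2
    omega

theorem lt_right (u : Fin a → ι) (v : Fin b → ι) (j : Fin b) :
    ∑ l ∈ Finset.univ.filter (fun l => l < Fin.natAdd a j),
      wt ((Fin.append u v : Fin (a + b) → ι) l) =
    ∑ i, wt (u i) + ∑ l ∈ Finset.univ.filter (fun l => l < j), wt (v l) := by
  rw [Finset.sum_filter, Fin.sum_univ_add, Finset.sum_filter]
  congr 1
  · refine Finset.sum_congr rfl fun l _ => ?_
    rw [Fin.append_left, if_pos]
    simp only [Fin.lt_def, Fin.val_castAdd, Fin.val_natAdd]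
    have := l.2
    omega
  · refine Finset.sum_congr rfl fun l _ => ?_
    rw [Fin.append_right]
    exact if_congr (by simp only [Fin.lt_def, Fin.val_natAdd]; omega) rfl rfl

variable {K : Type} [Field K] {s : K} [Fintype ι] [DecidableEq ι]

theorem E_eq (hs : s ≠ 0) (M : WM K ι) (x u : Fin a → ι) (y v : Fin b → ι) :
    (fpow s M (a + b)).E (Fin.append x y) (Fin.append u v) =
      (tens s (fpow s M a) (fpow s M b)).E (x, y) (u, v) := by
  simp only [fpow, tens]
  rw [Fin.sum_univ_add]
  congr 1
  · by_cases hyv : y = v
    · rw [if_pos hyv, Finset.sum_mul]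
      refine Finset.sum_congr rfl fun i _ => ?_
      rw [Fin.append_left, Fin.append_left, gt_left]
      by_cases hc : ∀ l, l ≠ i → x l = u l
      · rw [if_pos ((cond_left x u y v i).2 ⟨hyv, hc⟩), if_pos hc, mul_add,
          zpow_add₀ hs, mul_assoc]
      · rw [if_neg fun h => hc ((cond_left x u y v i).1 h).2, if_neg hc, zero_mul]
    · rw [if_neg hyv]
      refine Finset.sum_eq_zero fun i _ => ?_
      rw [if_neg fun h => hyv ((cond_left x u y v i).1 h).1]
  · by_cases hxu : x = u
    · rw [if_pos hxu]
      refine Finset.sum_congr rfl fun j _ => ?_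
      rw [Fin.append_right, Fin.append_right, gt_right]
      by_cases hc : ∀ l, l ≠ j → y l = v l
      · rw [if_pos ((cond_right x u y v j).2 ⟨hxu, hc⟩), if_pos hc]
      · rw [if_neg fun h => hc ((cond_right x u y v j).1 h).2, if_neg hc]
    · rw [if_neg hxu]
      refine Finset.sum_eq_zero fun j _ => ?_
      rw [if_neg fun h => hxu ((cond_right x u y v j).1 h).1]

theorem F_eq (hs : s ≠ 0) (M : WM K ι) (x u : Fin a → ι) (y v : Fin b → ι) :
    (fpow s M (a + b)).F (Fin.append x y) (Fin.append u v) =
      (tens s (fpow s M a) (fpow s M b)).F (x, y) (u, v) := by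
  simp only [fpow, tens]
  rw [Fin.sum_univ_add]
  congr 1
  · by_cases hyv : y = v
    · rw [if_pos hyv]
      refine Finset.sum_congr rfl fun i _ => ?_
      rw [Fin.append_left, Fin.append_left, lt_left]
      by_cases hc : ∀ l, l ≠ i → x l = u l
      · rw [if_pos ((cond_left x u y v i).2 ⟨hyv, hc⟩), if_pos hc]
      · rw [if_neg fun h => hc ((cond_left x u y v i).1 h).2, if_neg hc]
    · rw [if_neg hyv]
      refine Finset.sum_eq_zero fun i _ => ?_
      rw [if_neg fun h => hyv ((cond_left x u y v i).1 h).1]
  · by_cases hxu : x = u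
    · rw [if_pos hxu, Finset.mul_sum]
      refine Finset.sum_congr rfl fun j _ => ?_
      rw [Fin.append_right, Fin.append_right, lt_right]
      by_cases hc : ∀ l, l ≠ j → y l = v l
      · rw [if_pos ((cond_right x u y v j).2 ⟨hxu, hc⟩), if_pos hc, mul_add, neg_add,
          zpow_add₀ hs, mul_assoc]
      · rw [if_neg fun h => hc ((cond_right x u y v j).1 h).2, if_neg hc, mul_zero]
    · rw [if_neg hxu]
      refine Finset.sum_eq_zero fun j _ => ?_
      rw [if_neg fun h => hxu ((cond_right x u y v j).1 h).1]

end FPOWT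

/-- **Module FPOWT.** -/
theorem fpowt : FPOWT_Stmt := by
  intro K _ s hs ι _ _ M
  refine ⟨fun a b x u y v => ⟨?_, FPOWT.E_eq hs.1 M x u y v, FPOWT.F_eq hs.1 M x u y v⟩,
    fun x u => ⟨?_, ?_, ?_⟩⟩
  · simp only [fpow, tens]
    rw [Fin.sum_univ_add]
    simp only [Fin.append_left, Fin.append_right]
  · simp [fpow]
  · have h : ∀ l : Fin 1, l ≠ 0 → x l = u l := fun l hl => absurd (Subsingleton.elim l 0) hl
    simp only [fpow, Fin.sum_univ_one]
    rw [if_pos h]
    have h0 : Finset.univ.filter (fun l : Fin 1 => 0 < l) = ∅ := by decide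
    rw [h0]
    simp
  · have h : ∀ l : Fin 1, l ≠ 0 → x l = u l := fun l hl => absurd (Subsingleton.elim l 0) hl
    simp only [fpow, Fin.sum_univ_one]
    rw [if_pos h]
    have h0 : Finset.univ.filter (fun l : Fin 1 => l < 0) = ∅ := by decide
    rw [h0]
    simp

end Pool.Agent.IT
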