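import Pool.Agent.IT.Stmts

/-!
# Iterated torus knots: the coefficients of the invariants are of finite type
-/

namespace Pool.Agent.IT
open Pool.Agent.LibH11
open scoped BigOperators
open PowerSeries

namespace FTB

variable {n : ℕ}

/-! ### Restriction to knots -/

theorem vanishes_ite {A : Type*} [AddCommGroup A] : ∀ {k : ℕ} {f : Br n → A}, Vanishes k f →
    ∀ Q : Equiv.Perm (Fin (n + 1)) → Prop, [DecidablePred Q] →
      Vanishes k (fun b => if Q (perm b) then f b else 0) := by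
  intro k
  induction k with
  | zero => intro f hf Q _ b; simp only [hf b, ite_self]
  | succ k ih =>
    intro f hf Q _ a i
    have := ih (hf a i) (fun g => Q (perm (a * sg i) * g))
    refine (congrArg (Vanishes k) ?_).mp this
    funext x
    have h1 : perm (a * sg i * x) = perm (a * sg i) * perm x := map_mul _ _ _
    have h2 : perm (a * (sg i)⁻¹ * x) = perm (a * sg i) * perm x := by
      rw [map_mul, map_mul, map_mul, map_inv]; simp [perm_sg]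
    beta_reduce
    rw [h1, h2]
    by_cases hQ : Q (perm (a * sg i) * perm x)
    · rw [if_pos hQ, if_pos hQ, if_pos hQ]
    · rw [if_neg hQ, if_neg hQ, if_neg hQ, sub_zero]

open Classical in
theorem onBraids_eq {A : Type*} [AddCommGroup A] {v : Knot → A} {f : Br n → A}
    (hf : ∀ (b : Br n) (h : IsKnot b), v (closure b h) = f b) :
    onBraids v n = fun b : Br n =>
      if (fun g : Equiv.Perm (Fin (n + 1)) => ∀ x y, g.SameCycle x y) (perm b) then f b else 0 := by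
  funext b
  unfold onBraids
  by_cases h : IsKnot b
  · rw [dif_pos h]; exact (hf b h).trans (if_pos h).symm
  · rw [dif_neg h]; exact (if_neg h).symm

/-! ### The scalar factor -/

/-- The homomorphism that sends every generator to the inverse of `θ`. -/
noncomputable def sc (n : ℕ) (θ : ℚ⟦X⟧ˣ) : Br n →* ℚ⟦X⟧ˣ :=
  liftBr (fun _ => θ⁻¹) (fun _ _ _ => rfl) (fun _ _ _ => rfl)

theorem sc_sg (θ : ℚ⟦X⟧ˣ) (i : Fin n) : sc n θ (sg i) = θ⁻¹ := by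
  unfold sc
  rw [liftBr_sg]

theorem sc_ev (θ : ℚ⟦X⟧ˣ) : ∀ w : Word, Bd n w → sc n θ (ev n w) = θ ^ (-wr w) := by
  intro w
  induction w with
  | nil =>
    intro _
    rw [ev_nil, map_one]
    simp [wr]
  | cons x w ih =>
    intro hw
    have hx : x.1 < n := hw x List.mem_cons_self
    have hw' : Bd n w := fun y hy => hw y (List.mem_cons_of_mem _ hy)
    have e1 : wr (x :: w) = (if x.2 then (1 : ℤ) else -1) + wr w := by
      unfold wr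
      rw [List.map_cons, List.sum_cons]
    rw [ev_cons, map_mul, ih hw', e1, neg_add, zpow_add]
    congr 1
    obtain ⟨i, e⟩ := x
    cases e
    · rw [gen_false, map_inv, gen_true hx, sc_sg]
      simp
    · rw [gen_true hx, sc_sg]
      simp

/-! ### The closing functional -/

variable {ι : Type} [Fintype ι] [DecidableEq ι]

/-- The weighted trace. -/
noncomputable def tw (T : RData ℚ⟦X⟧ ι) (n : ℕ)
    (M : Matrix (Fin (n + 1) → ι) (Fin (n + 1) → ι) ℚ⟦X⟧) : ℚ⟦X⟧ :=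
  ∑ s : Fin (n + 1) → ι, M s s * ∏ i, T.κ (s i)

theorem tw_sub (T : RData ℚ⟦X⟧ ι) (M N : Matrix (Fin (n + 1) → ι) (Fin (n + 1) → ι) ℚ⟦X⟧) :
    tw T n (M - N) = tw T n M - tw T n N := by
  unfold tw
  rw [← Finset.sum_sub_distrib]
  refine Finset.sum_congr rfl fun s _ => ?_
  rw [Matrix.sub_apply, sub_mul]

theorem tw_smul (T : RData ℚ⟦X⟧ ι) (c : ℚ⟦X⟧)
    (M : Matrix (Fin (n + 1) → ι) (Fin (n + 1) → ι) ℚ⟦X⟧) :
    tw T n (c • M) = c * tw T n M := by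
  unfold tw
  rw [Finset.mul_sum]
  refine Finset.sum_congr rfl fun s _ => ?_
  rw [Matrix.smul_apply, smul_eq_mul, mul_assoc]

/-- The two resolutions of a double point agree modulo `X`. -/
theorem dvd_diff (T : RData ℚ⟦X⟧ ι) (θ : ℚ⟦X⟧ˣ)
    (hc : ∀ x y, constantCoeff (((θ⁻¹ : ℚ⟦X⟧ˣ) : ℚ⟦X⟧) * T.R x y) =
      constantCoeff ((θ : ℚ⟦X⟧) * T.R' x y)) (i : Fin n) :
    ∃ Y : Matrix (Fin (n + 1) → ι) (Fin (n + 1) → ι) ℚ⟦X⟧,
      ((θ⁻¹ : ℚ⟦X⟧ˣ) : ℚ⟦X⟧) • opl T n ((i : ℕ), true) - (θ : ℚ⟦X⟧) • opl T n ((i : ℕ), false) =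
        (X : ℚ⟦X⟧) • Y := by
  have h : ∀ s t, (X : ℚ⟦X⟧) ∣ (((θ⁻¹ : ℚ⟦X⟧ˣ) : ℚ⟦X⟧) • opl T n ((i : ℕ), true) -
      (θ : ℚ⟦X⟧) • opl T n ((i : ℕ), false)) s t := by
    intro s t
    rw [Matrix.sub_apply, Matrix.smul_apply, Matrix.smul_apply, smul_eq_mul, smul_eq_mul]
    unfold opl
    rw [dif_pos i.2, dif_pos i.2]
    unfold atp
    simp only [if_true, Bool.false_eq_true, if_false]
    split_ifs with h1
    · rw [X_dvd_iff, map_sub, hc, sub_self]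
    · simp
  choose Y hY using h
  refine ⟨Matrix.of Y, ?_⟩
  ext1 s t
  rw [hY s t, Matrix.smul_apply, smul_eq_mul, Matrix.of_apply]

theorem vanishes_coeff (T : RData ℚ⟦X⟧ ι) (θ : ℚ⟦X⟧ˣ)
    (hc : ∀ x y, constantCoeff (((θ⁻¹ : ℚ⟦X⟧ˣ) : ℚ⟦X⟧) * T.R x y) =
      constantCoeff ((θ : ℚ⟦X⟧) * T.R' x y))
    (ρ : Br n →* (Matrix (Fin (n + 1) → ι) (Fin (n + 1) → ι) ℚ⟦X⟧)ˣ)
    (hρ : ∀ w : Word, ((ρ (ev n w) : (Matrix (Fin (n + 1) → ι) (Fin (n + 1) → ι) ℚ⟦X⟧)ˣ) :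
        Matrix (Fin (n + 1) → ι) (Fin (n + 1) → ι) ℚ⟦X⟧) = op T n w) :
    ∀ (k : ℕ) (M : Matrix (Fin (n + 1) → ι) (Fin (n + 1) → ι) ℚ⟦X⟧),
      Vanishes (k + 1) (fun b : Br n => coeff k
        (((sc n θ b : ℚ⟦X⟧ˣ) : ℚ⟦X⟧) * tw T n (M * (ρ b).val))) := by
  have e1 : ∀ i : Fin n, (ρ (sg i)).val = opl T n ((i : ℕ), true) := by
    intro i
    have := hρ [((i : ℕ), true)]
    rw [ev_single, gen_true i.2] at this
    rw [show (sg i : Br n) = sg ⟨(i : ℕ), i.2⟩ from rfl, this]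
    simp [op]
  have e2 : ∀ i : Fin n, (ρ (sg i)⁻¹).val = opl T n ((i : ℕ), false) := by
    intro i
    have := hρ [((i : ℕ), false)]
    rw [ev_single, gen_false, gen_true i.2] at this
    rw [show (sg i : Br n) = sg ⟨(i : ℕ), i.2⟩ from rfl, this]
    simp [op]
  have key : ∀ (M : Matrix (Fin (n + 1) → ι) (Fin (n + 1) → ι) ℚ⟦X⟧)
      (a : Br n) (i : Fin n), ∃ B : Matrix (Fin (n + 1) → ι) (Fin (n + 1) → ι) ℚ⟦X⟧, ∀ x : Br n,
      ((sc n θ (a * sg i * x) : ℚ⟦X⟧ˣ) : ℚ⟦X⟧) * tw T n (M * (ρ (a * sg i * x)).val) -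
        ((sc n θ (a * (sg i)⁻¹ * x) : ℚ⟦X⟧ˣ) : ℚ⟦X⟧) * tw T n (M * (ρ (a * (sg i)⁻¹ * x)).val) =
        X * (((sc n θ x : ℚ⟦X⟧ˣ) : ℚ⟦X⟧) * tw T n (B * (ρ x).val)) := by
    intro M a i
    obtain ⟨Y, hY⟩ := dvd_diff T θ hc i
    refine ⟨((sc n θ a : ℚ⟦X⟧ˣ) : ℚ⟦X⟧) • (M * (ρ a).val * Y), fun x => ?_⟩
    have h1 : ((sc n θ (a * sg i * x) : ℚ⟦X⟧ˣ) : ℚ⟦X⟧) =
        ((sc n θ x : ℚ⟦X⟧ˣ) : ℚ⟦X⟧) * ((sc n θ a : ℚ⟦X⟧ˣ) : ℚ⟦X⟧) * ((θ⁻¹ : ℚ⟦X⟧ˣ) : ℚ⟦X⟧) := by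
      rw [map_mul, map_mul, sc_sg, Units.val_mul, Units.val_mul]
      ring
    have h2 : ((sc n θ (a * (sg i)⁻¹ * x) : ℚ⟦X⟧ˣ) : ℚ⟦X⟧) =
        ((sc n θ x : ℚ⟦X⟧ˣ) : ℚ⟦X⟧) * ((sc n θ a : ℚ⟦X⟧ˣ) : ℚ⟦X⟧) * (θ : ℚ⟦X⟧) := by
      rw [map_mul, map_mul, map_inv, sc_sg, inv_inv, Units.val_mul, Units.val_mul]
      ring
    have h3 : (ρ (a * sg i * x)).val = (ρ a).val * opl T n ((i : ℕ), true) * (ρ x).val := by
      rw [map_mul, map_mul, Units.val_mul, Units.val_mul, e1]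
    have h4 : (ρ (a * (sg i)⁻¹ * x)).val = (ρ a).val * opl T n ((i : ℕ), false) * (ρ x).val := by
      rw [map_mul, map_mul, Units.val_mul, Units.val_mul, e2]
    rw [h1, h2, h3, h4]
    have h5 : ((θ⁻¹ : ℚ⟦X⟧ˣ) : ℚ⟦X⟧) * tw T n (M * ((ρ a).val * opl T n ((i : ℕ), true) *
        (ρ x).val)) - (θ : ℚ⟦X⟧) * tw T n (M * ((ρ a).val * opl T n ((i : ℕ), false) *
        (ρ x).val)) = X * tw T n (M * (ρ a).val * Y * (ρ x).val) := by
      rw [← tw_smul, ← tw_smul, ← tw_sub, ← tw_smul]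
      congr 1
      have h6 : (X : ℚ⟦X⟧) • (M * (ρ a).val * Y * (ρ x).val) =
          M * (ρ a).val * ((X : ℚ⟦X⟧) • Y) * (ρ x).val := by
        rw [Matrix.mul_smul, Matrix.smul_mul]
      rw [h6, ← hY, Matrix.mul_sub, Matrix.sub_mul, Matrix.mul_smul, Matrix.mul_smul,
        Matrix.smul_mul, Matrix.smul_mul]
      simp only [Matrix.mul_assoc]
    have h7 : tw T n ((((sc n θ a : ℚ⟦X⟧ˣ) : ℚ⟦X⟧) • (M * (ρ a).val * Y)) * (ρ x).val) =
        ((sc n θ a : ℚ⟦X⟧ˣ) : ℚ⟦X⟧) * tw T n (M * (ρ a).val * Y * (ρ x).val) := by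
      rw [Matrix.smul_mul, tw_smul]
    rw [h7]
    calc _ = ((sc n θ x : ℚ⟦X⟧ˣ) : ℚ⟦X⟧) * ((sc n θ a : ℚ⟦X⟧ˣ) : ℚ⟦X⟧) *
        (((θ⁻¹ : ℚ⟦X⟧ˣ) : ℚ⟦X⟧) * tw T n (M * ((ρ a).val * opl T n ((i : ℕ), true) *
        (ρ x).val)) - (θ : ℚ⟦X⟧) * tw T n (M * ((ρ a).val * opl T n ((i : ℕ), false) *
        (ρ x).val))) := by ring
      _ = _ := by rw [h5]; ring
  intro k
  induction k with
  | zero =>
    intro M a i x
    obtain ⟨B, hB⟩ := key M a i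
    simp only
    rw [← map_sub, hB, coeff_zero_X_mul]
  | succ k ih =>
    intro M a i
    obtain ⟨B, hB⟩ := key M a i
    refine (congrArg (Vanishes (k + 1)) ?_).mp (ih B)
    funext x
    rw [← map_sub, hB, coeff_succ_X_mul]

end FTB

/-- FTB: the coefficients of the invariant are of finite type. -/
theorem ftb (hr : REP_Stmt) : FTB_Stmt := by
  intro ι _ _ T θ hT hc v hv K K' hK
  have hord : ∀ k : ℕ, HasOrderLE (fun K => coeff k (v K)) k := by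
    intro k n
    classical
    obtain ⟨ρ, hρ⟩ := hr ℚ⟦X⟧ ι T θ hT n
    rw [FTB.onBraids_eq (f := fun b => coeff k (((FTB.sc n θ b : ℚ⟦X⟧ˣ) : ℚ⟦X⟧) *
      FTB.tw T n (1 * (ρ b).val)))]
    · exact FTB.vanishes_ite (FTB.vanishes_coeff T θ hc ρ hρ k 1)
        (fun g : Equiv.Perm (Fin (n + 1)) => ∀ x y, g.SameCycle x y)
    · intro b h
      obtain ⟨w, hw, rfl⟩ := exists_word b
      rw [hv n w h hw, FTB.sc_ev θ w hw, one_mul, hρ]
      rfl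
  ext k
  exact hK (fun K => coeff k (v K)) ⟨k, hord k⟩

end Pool.Agent.IT
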