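import Pool.Agent.IT.Stmts
import Pool.Agent.IT.Prm

/-!
# Iterated torus knots, module FULL: the full twist on highest weight vectors
-/

namespace Pool.Agent.IT
open Pool.Agent.LibH11
open scoped BigOperators Kronecker

namespace FULL

variable {K : Type} [Field K] {s : K}

/-! ### Kronecker products -/

theorem kr_eq {A ι ι' κ κ' : Type} [Mul A] (f : Matrix ι ι' A) (g : Matrix κ κ' A) :
    kr f g = Matrix.kroneckerMap (· * ·) f g := rfl

theorem kr_mul {A : Type} [CommRing A] {ι ι' ι'' κ κ' κ'' : Type} [Fintype ι'] [Fintype κ']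
    (f : Matrix ι ι' A) (f' : Matrix ι' ι'' A) (g : Matrix κ κ' A) (g' : Matrix κ' κ'' A) :
    kr (f * f') (g * g') = kr f g * kr f' g' := by
  rw [kr_eq, kr_eq, kr_eq]
  exact Matrix.mul_kronecker_mul f f' g g'

theorem kr_one {A : Type} [CommRing A] {ι κ : Type} [DecidableEq ι] [DecidableEq κ] :
    kr (1 : Matrix ι ι A) (1 : Matrix κ κ A) = 1 := by
  rw [kr_eq]
  exact Matrix.one_kronecker_one

theorem kr_sum {A : Type} [CommRing A] {ι ι' κ κ' σ : Type} (t : Finset σ)
    (f : σ → Matrix ι ι' A) (g : Matrix κ κ' A) :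
    kr (∑ i ∈ t, f i) g = ∑ i ∈ t, kr (f i) g := by
  ext x y
  simp only [kr, Matrix.sum_apply, Finset.sum_mul]

/-! ### Morphisms -/

section Mor

variable {ι κ ν : Type} [Fintype ι] [DecidableEq ι] [Fintype κ] [DecidableEq κ] [Fintype ν]
  [DecidableEq ν]

omit [DecidableEq ι] [DecidableEq κ] [DecidableEq ν] in
theorem mor_mul {M : WM K ι} {N : WM K κ} {L : WM K ν} {f : Matrix κ ι K} {g : Matrix ν κ K}
    (hf : Mor M N f) (hg : Mor N L g) : Mor M L (g * f) where
  wt := by
    intro b a h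
    rw [Matrix.mul_apply] at h
    obtain ⟨c, _, hc⟩ := Finset.exists_ne_zero_of_sum_ne_zero h
    rw [hg.wt b c (left_ne_zero_of_mul hc), hf.wt c a (right_ne_zero_of_mul hc)]
  E := by
    rw [← Matrix.mul_assoc, hg.E, Matrix.mul_assoc, hf.E, Matrix.mul_assoc]
  F := by
    rw [← Matrix.mul_assoc, hg.F, Matrix.mul_assoc, hf.F, Matrix.mul_assoc]

theorem mor_inv {M : WM K ι} {N : WM K κ} {f : Matrix κ ι K} {f' : Matrix ι κ K}
    (hf : Mor M N f) (h1 : f * f' = 1) (h2 : f' * f = 1) : Mor N M f' where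
  wt := by
    intro b a h
    classical
    by_contra hne
    let dM : Matrix ι ι K := Matrix.diagonal fun i => if M.wt i = N.wt a then 1 else 0
    let dN : Matrix κ κ K := Matrix.diagonal fun i => if N.wt i = N.wt a then 1 else 0
    have h3 : dN * f = f * dM := by
      ext i j
      simp only [dN, dM]
      rw [Matrix.diagonal_mul, Matrix.mul_diagonal]
      by_cases hij : f i j = 0
      · rw [hij, mul_zero, zero_mul]
      · rw [hf.wt i j hij, mul_comm]
    have h4 : f' * dN = dM * f' := by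
      calc f' * dN = f' * dN * (f * f') := by rw [h1, Matrix.mul_one]
        _ = f' * (dN * f) * f' := by simp only [Matrix.mul_assoc]
        _ = f' * (f * dM) * f' := by rw [h3]
        _ = f' * f * dM * f' := by simp only [Matrix.mul_assoc]
        _ = dM * f' := by rw [h2, Matrix.one_mul]
    have h5 := congrFun (congrFun h4 b) a
    simp only [dN, dM] at h5
    rw [Matrix.mul_diagonal, Matrix.diagonal_mul, if_pos rfl, mul_one, if_neg hne, zero_mul] at h5
    exact h h5
  E := by
    calc M.E * f' = (f' * f) * M.E * f' := by rw [h2, Matrix.one_mul]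
      _ = f' * (f * M.E) * f' := by simp only [Matrix.mul_assoc]
      _ = f' * (N.E * f) * f' := by rw [hf.E]
      _ = f' * N.E * (f * f') := by simp only [Matrix.mul_assoc]
      _ = f' * N.E := by rw [h1, Matrix.mul_one]
  F := by
    calc M.F * f' = (f' * f) * M.F * f' := by rw [h2, Matrix.one_mul]
      _ = f' * (f * M.F) * f' := by simp only [Matrix.mul_assoc]
      _ = f' * (N.F * f) * f' := by rw [hf.F]
      _ = f' * N.F * (f * f') := by simp only [Matrix.mul_assoc]
      _ = f' * N.F := by rw [h1, Matrix.mul_one]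

/-- `y` is a highest weight vector of weight `k` (or zero) -/
def HW (M : WM K ι) (k : ℤ) (y : ι → K) : Prop :=
  (∀ x, y x ≠ 0 → M.wt x = k) ∧ M.E.mulVec y = 0

omit [DecidableEq ι] [DecidableEq κ] in
theorem HW.map {M : WM K ι} {N : WM K κ} {f : Matrix κ ι K} (hf : Mor M N f) {k : ℤ} {y : ι → K}
    (hy : HW M k y) : HW N k (f.mulVec y) := by
  constructor
  · intro x hx
    rw [Matrix.mulVec, dotProduct] at hx
    obtain ⟨z, _, hz⟩ := Finset.exists_ne_zero_of_sum_ne_zero hx
    rw [hf.wt x z (left_ne_zero_of_mul hz), hy.1 z (right_ne_zero_of_mul hz)]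
  · rw [Matrix.mulVec_mulVec, hf.E, ← Matrix.mulVec_mulVec, hy.2, Matrix.mulVec_zero]

end Mor

/-! ### The simple modules -/

/-- quantum integers are not zero -/
theorem qn_ne (hs : Gen s) {w : ℤ} (hw : 0 < w) : qn s w ≠ 0 := by
  obtain ⟨n, rfl⟩ := Int.eq_ofNat_of_zero_le hw.le
  have hn : 0 < n := by exact_mod_cast hw
  have key : ∀ m : ℕ, 0 < m → s ^ (2 * (m : ℤ)) - s ^ (-(2 * (m : ℤ))) ≠ 0 := by
    intro m hm h
    rw [sub_eq_zero] at h
    apply hs.2 m hm
    have h1 : s ^ (2 * (m : ℤ)) * s ^ (2 * (m : ℤ)) = s ^ (-(2 * (m : ℤ))) * s ^ (2 * (m : ℤ)) := by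
      rw [← h]
    rw [← zpow_add₀ hs.1, ← zpow_add₀ hs.1, neg_add_cancel, zpow_zero] at h1
    rw [← h1, ← zpow_natCast]
    congr 1
    push_cast
    ring
  unfold qn
  refine div_ne_zero (key n hn) ?_
  have h2 := key 1 one_pos
  simpa using h2

/-- a morphism from a simple module which kills the highest weight vector is zero -/
theorem mor_zero (hs : Gen s) {κ : Type} [Fintype κ] [DecidableEq κ] {N : WM K κ} {a : ℕ}
    {f : Matrix κ (Fin a) K} (hf : Mor (V s a) N f) (h0 : ∀ (h : 0 < a) x, f x ⟨0, h⟩ = 0) :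
    f = 0 := by
  have key : ∀ (j : ℕ) (hj : j < a) (x : κ), f x ⟨j, hj⟩ = 0 := by
    intro j
    induction j with
    | zero => exact fun hj x => h0 hj x
    | succ j ih =>
      intro hj x
      have hj' : j < a := by omega
      have h1 := congrFun (congrFun hf.F x) ⟨j, hj'⟩
      rw [Matrix.mul_apply, Matrix.mul_apply] at h1
      have h2 : ∑ i, N.F x i * f i ⟨j, hj'⟩ = 0 :=
        Finset.sum_eq_zero fun i _ => by rw [ih hj' i, mul_zero]
      rw [h2] at h1
      have h3 : ∑ i : Fin a, f x i * (V s a).F i ⟨j, hj'⟩ = f x ⟨j + 1, hj⟩ * qn s ((j : ℤ) + 1) := by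
        rw [Finset.sum_eq_single (⟨j + 1, hj⟩ : Fin a)]
        · congr 1
          simp [V]
        · intro b _ hb
          have : (V s a).F b ⟨j, hj'⟩ = 0 := by
            simp only [V]
            rw [if_neg]
            intro h
            apply hb
            exact Fin.ext h
          rw [this, mul_zero]
        · intro h
          exact absurd (Finset.mem_univ _) h
      rw [h3] at h1
      rcases mul_eq_zero.1 h1.symm with h4 | h4
      · exact h4
      · exact absurd h4 (qn_ne hs (by omega))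
  ext x j
  exact key j.1 j.2 x

/-- the matrix of the inclusion of a summand -/
def inM {r : ℕ} (a : Fin r → ℕ) (i : Fin r) : Matrix (Σ i : Fin r, Fin (a i)) (Fin (a i)) K :=
  fun x j => if x = ⟨i, j⟩ then 1 else 0

theorem inM_mul {r : ℕ} (a : Fin r → ℕ) (i : Fin r) {ν : Type}
    (X : Matrix (Fin (a i)) ν K) (x : Σ i : Fin r, Fin (a i)) (y : ν) :
    ((inM a i : Matrix _ _ K) * X) x y = if h : x.1 = i then X (h ▸ x.2) y else 0 := by
  rw [Matrix.mul_apply]
  obtain ⟨i', l⟩ := x
  by_cases h : i' = i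
  · subst h
    rw [dif_pos rfl, Finset.sum_eq_single l]
    · simp [inM]
    · intro b _ hb
      have : (inM a i' : Matrix _ _ K) ⟨i', l⟩ b = 0 := by
        unfold inM
        rw [if_neg]
        intro h
        apply hb
        simpa using h.symm
      rw [this, zero_mul]
    · intro h
      exact absurd (Finset.mem_univ _) h
  · rw [dif_neg h]
    refine Finset.sum_eq_zero fun b _ => ?_
    have : (inM a i : Matrix _ _ K) ⟨i', l⟩ b = 0 := by
      unfold inM
      rw [if_neg]
      intro h'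
      apply h
      exact congrArg Sigma.fst h'
    rw [this, zero_mul]

theorem mul_inM {r : ℕ} (a : Fin r → ℕ) (i : Fin r) {ν : Type}
    (X : Matrix ν (Σ i : Fin r, Fin (a i)) K) (x : ν) (j : Fin (a i)) :
    (X * (inM a i : Matrix _ _ K)) x j = X x ⟨i, j⟩ := by
  rw [Matrix.mul_apply, Finset.sum_eq_single (⟨i, j⟩ : Σ i : Fin r, Fin (a i))]
  · simp [inM]
  · intro b _ hb
    unfold inM
    rw [if_neg hb, mul_zero]
  · intro h
    exact absurd (Finset.mem_univ _) h

theorem mor_in {r : ℕ} (a : Fin r → ℕ) (i : Fin r) :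
    Mor (V s (a i)) (dsum s a) (inM a i) where
  wt := by
    intro b j h
    unfold inM at h
    have hb : b = ⟨i, j⟩ := by
      by_contra hne
      rw [if_neg hne] at h
      exact h rfl
    rw [hb]
    rfl
  E := by
    ext x j
    rw [mul_inM, inM_mul]
    obtain ⟨i', l⟩ := x
    by_cases h : i' = i
    · subst h
      rw [dif_pos rfl]
      simp [dsum, V]
    · rw [dif_neg h]
      simp [dsum, h]
  F := by
    ext x j
    rw [mul_inM, inM_mul]
    obtain ⟨i', l⟩ := x
    by_cases h : i' = i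
    · subst h
      rw [dif_pos rfl]
      simp [dsum, V]
    · rw [dif_neg h]
      simp [dsum, h]

theorem inMT_mul {r : ℕ} (a : Fin r → ℕ) (i : Fin r) {ν : Type}
    (X : Matrix (Σ i : Fin r, Fin (a i)) ν K) (j : Fin (a i)) (y : ν) :
    ((inM a i : Matrix _ _ K).transpose * X) j y = X ⟨i, j⟩ y := by
  rw [Matrix.mul_apply, Finset.sum_eq_single (⟨i, j⟩ : Σ i : Fin r, Fin (a i))]
  · simp [inM]
  · intro b _ hb
    rw [Matrix.transpose_apply]
    unfold inM
    rw [if_neg hb, zero_mul]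
  · intro h
    exact absurd (Finset.mem_univ _) h

theorem mul_inMT {r : ℕ} (a : Fin r → ℕ) (i : Fin r) {ν : Type}
    (X : Matrix ν (Fin (a i)) K) (y : ν) (x : Σ i : Fin r, Fin (a i)) :
    (X * (inM a i : Matrix _ _ K).transpose) y x = if h : x.1 = i then X y (h ▸ x.2) else 0 := by
  have h1 := inM_mul a i X.transpose x y
  rw [← Matrix.transpose_apply (X * (inM a i : Matrix _ _ K).transpose) x y,
    Matrix.transpose_mul, Matrix.transpose_transpose, h1]
  rfl

theorem mor_inT {r : ℕ} (a : Fin r → ℕ) (i : Fin r) :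
    Mor (dsum s a) (V s (a i)) (inM a i).transpose where
  wt := by
    intro j b h
    rw [Matrix.transpose_apply] at h
    unfold inM at h
    have hb : b = ⟨i, j⟩ := by
      by_contra hne
      rw [if_neg hne] at h
      exact h rfl
    rw [hb]
    rfl
  E := by
    ext j x
    rw [mul_inMT, inMT_mul]
    obtain ⟨i', l⟩ := x
    by_cases h : i' = i
    · subst h
      rw [dif_pos rfl]
      simp [dsum, V]
    · rw [dif_neg h]
      simp [dsum, Ne.symm h]
  F := by
    ext j x
    rw [mul_inMT, inMT_mul]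
    obtain ⟨i', l⟩ := x
    by_cases h : i' = i
    · subst h
      rw [dif_pos rfl]
      simp [dsum, V]
    · rw [dif_neg h]
      simp [dsum, Ne.symm h]

theorem sum_in {r : ℕ} (a : Fin r → ℕ) :
    ∑ i, (inM a i : Matrix _ _ K) * (inM a i : Matrix _ _ K).transpose = 1 := by
  ext x y
  rw [Matrix.sum_apply, Finset.sum_eq_single x.1]
  · rw [inM_mul, dif_pos rfl, Matrix.transpose_apply, Matrix.one_apply]
    unfold inM
    by_cases h : x = y
    · subst h
      simp
    · rw [if_neg h, if_neg (Ne.symm h)]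
  · intro i _ hi
    rw [inM_mul, dif_neg (Ne.symm hi)]
  · intro h
    exact absurd (Finset.mem_univ _) h

/-! ### One strand -/

/-- the identification of `M` with `fpow M 1` -/
def oneM {ι : Type} [DecidableEq ι] : Matrix (Fin 1 → ι) ι K := fun u b => if u 0 = b then 1 else 0

theorem oneM_mul {ι : Type} [Fintype ι] [DecidableEq ι] {ν : Type} (X : Matrix ι ν K)
    (u : Fin 1 → ι) (y : ν) : ((oneM : Matrix (Fin 1 → ι) ι K) * X) u y = X (u 0) y := by
  rw [Matrix.mul_apply, Finset.sum_eq_single (u 0)]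
  · simp [oneM]
  · intro b _ hb
    unfold oneM
    rw [if_neg (Ne.symm hb), zero_mul]
  · intro h
    exact absurd (Finset.mem_univ _) h

theorem mul_oneM {ι : Type} [Fintype ι] [DecidableEq ι] {ν : Type} (X : Matrix ν (Fin 1 → ι) K)
    (x : ν) (b : ι) : (X * (oneM : Matrix (Fin 1 → ι) ι K)) x b = X x (fun _ => b) := by
  rw [Matrix.mul_apply, Finset.sum_eq_single (fun _ => b)]
  · simp [oneM]
  · intro u _ hu
    unfold oneM
    rw [if_neg, mul_zero]
    intro h
    apply hu
    funext i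
    rw [← h]
    congr 1
    exact Subsingleton.elim _ _
  · intro h
    exact absurd (Finset.mem_univ _) h

theorem oneM_inv {ι : Type} [Fintype ι] [DecidableEq ι] :
    (oneM : Matrix (Fin 1 → ι) ι K) * (oneM : Matrix (Fin 1 → ι) ι K).transpose = 1 := by
  ext u v
  rw [oneM_mul, Matrix.transpose_apply, Matrix.one_apply]
  unfold oneM
  by_cases h : u = v
  · subst h
    rw [if_pos rfl, if_pos rfl]
  · rw [if_neg h, if_neg]
    intro h'
    apply h
    funext i
    have : i = 0 := Subsingleton.elim _ _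
    rw [this]
    exact h'.symm

theorem oneM_inv' {ι : Type} [Fintype ι] [DecidableEq ι] :
    (oneM : Matrix (Fin 1 → ι) ι K).transpose * (oneM : Matrix (Fin 1 → ι) ι K) = 1 := by
  ext u v
  rw [mul_oneM, Matrix.transpose_apply, Matrix.one_apply]
  unfold oneM
  by_cases h : u = v
  · subst h
    simp
  · rw [if_neg h, if_neg (Ne.symm h)]

theorem mor_one (hs : Gen s) (hf : FPOWT_Stmt) {ι : Type} [Fintype ι] [DecidableEq ι]
    (M : WM K ι) : Mor M (fpow s M 1) oneM where
  wt := by
    intro u b h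
    have hb : u 0 = b := by
      by_contra hne
      unfold oneM at h
      rw [if_neg hne] at h
      exact h rfl
    rw [((hf K s hs ι M).2 u u).1, hb]
  E := by
    ext u b
    rw [mul_oneM, oneM_mul, ((hf K s hs ι M).2 u _).2.1]
  F := by
    ext u b
    rw [mul_oneM, oneM_mul, ((hf K s hs ι M).2 u _).2.2]

/-! ### Operators on the first strands -/

section Strands

variable {A : Type} [CommRing A] {ι : Type} [Fintype ι] [DecidableEq ι]

/-- the labels of `c + 1` strands and of one more strand -/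
abbrev ap (ι : Type) (c : ℕ) : (Fin (c + 1) → ι) × (Fin 1 → ι) ≃ (Fin (c + 1 + 1) → ι) :=
  Fin.appendEquiv (c + 1) 1

omit [Fintype ι] [DecidableEq ι] in
theorem ap_apply (c : ℕ) (x : Fin (c + 1) → ι) (u : Fin 1 → ι) :
    ap ι c (x, u) = Fin.append x u := rfl

theorem opl_ap (T : RData A ι) (c : ℕ) (x : ℕ × Bool) (hx : x.1 < c) :
    (opl T (c + 1) x).submatrix (ap ι c) (ap ι c) = kr (opl T c x) 1 := by
  classical
  obtain ⟨i, e⟩ := x
  simp only at hx
  ext ⟨x1, u1⟩ ⟨x2, u2⟩
  rw [Matrix.submatrix_apply, ap_apply, ap_apply]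
  unfold opl kr
  rw [dif_pos (by simp only; omega), dif_pos (by simp only; omega)]
  simp only
  have h1 : (⟨i, Nat.lt_succ_of_lt (Nat.lt_succ_of_lt hx)⟩ : Fin (c + 1 + 1)) =
      Fin.castAdd 1 (⟨i, Nat.lt_succ_of_lt hx⟩ : Fin (c + 1)) := rfl
  have h2 : (⟨i + 1, Nat.succ_lt_succ (Nat.lt_succ_of_lt hx)⟩ : Fin (c + 1 + 1)) =
      Fin.castAdd 1 (⟨i + 1, Nat.succ_lt_succ hx⟩ : Fin (c + 1)) := rfl
  unfold atp
  rw [Matrix.one_apply]
  by_cases hu : u1 = u2
  · subst hu
    rw [if_pos rfl, mul_one]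
    have hc : (∀ z : Fin (c + 1 + 1), z ≠ ⟨i, Nat.lt_succ_of_lt (Nat.lt_succ_of_lt hx)⟩ →
        z ≠ ⟨i + 1, Nat.succ_lt_succ (Nat.lt_succ_of_lt hx)⟩ →
        (Fin.append x1 u1 : Fin (c + 1 + 1) → ι) z = (Fin.append x2 u1 : Fin (c + 1 + 1) → ι) z) ↔
        (∀ z : Fin (c + 1), z ≠ ⟨i, Nat.lt_succ_of_lt hx⟩ → z ≠ ⟨i + 1, Nat.succ_lt_succ hx⟩ →
          x1 z = x2 z) := by
      constructor
      · intro h z hz hz'
        have h3 := h (Fin.castAdd 1 z) (by
          rw [h1]
          intro h'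
          exact hz (Fin.castAdd_injective _ _ h')) (by
          rw [h2]
          intro h'
          exact hz' (Fin.castAdd_injective _ _ h'))
        rwa [Fin.append_left, Fin.append_left] at h3
      · intro h z
        refine Fin.addCases (motive := fun z => z ≠ ⟨i, Nat.lt_succ_of_lt (Nat.lt_succ_of_lt hx)⟩ →
          z ≠ ⟨i + 1, Nat.succ_lt_succ (Nat.lt_succ_of_lt hx)⟩ →
          (Fin.append x1 u1 : Fin (c + 1 + 1) → ι) z =
            (Fin.append x2 u1 : Fin (c + 1 + 1) → ι) z) ?_ ?_ z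
        · intro z hz hz'
          rw [Fin.append_left, Fin.append_left]
          refine h z ?_ ?_
          · rintro rfl
            exact hz rfl
          · rintro rfl
            exact hz' rfl
        · intro z _ _
          rw [Fin.append_right, Fin.append_right]
    by_cases h : (∀ z : Fin (c + 1), z ≠ ⟨i, Nat.lt_succ_of_lt hx⟩ →
        z ≠ ⟨i + 1, Nat.succ_lt_succ hx⟩ → x1 z = x2 z)
    · rw [if_pos (hc.2 h), if_pos h, h1, h2]
      simp only [Fin.append_left]
    · rw [if_neg (fun h' => h (hc.1 h')), if_neg h]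
  · rw [if_neg hu, mul_zero, if_neg]
    intro h
    apply hu
    funext z
    have h3 := h (Fin.natAdd (c + 1) z) (by
      rw [h1]
      intro h'
      have := congrArg Fin.val h'
      simp at this
      omega) (by
      rw [h2]
      intro h'
      have := congrArg Fin.val h'
      simp at this
      omega)
    rwa [Fin.append_right, Fin.append_right] at h3

theorem op_cons (T : RData A ι) (n : ℕ) (x : ℕ × Bool) (w : Word) :
    op T n (x :: w) = opl T n x * op T n w := by
  unfold op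
  rw [List.map_cons, List.prod_cons]

theorem op_append (T : RData A ι) (n : ℕ) (u w : Word) :
    op T n (u ++ w) = op T n u * op T n w := by
  unfold op
  rw [List.map_append, List.prod_append]

theorem op_ap (T : RData A ι) (c : ℕ) (w : Word) (hw : Bd c w) :
    (op T (c + 1) w).submatrix (ap ι c) (ap ι c) = kr (op T c w) 1 := by
  induction w with
  | nil =>
    have h1 : op T (c + 1) [] = 1 := rfl
    have h2 : op T c [] = 1 := rfl
    rw [h1, h2, kr_one, Matrix.submatrix_one_equiv]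
  | cons x w ih =>
    have hw' : Bd c w := fun z hz => hw z (List.mem_cons_of_mem _ hz)
    rw [op_cons, op_cons, ← Matrix.submatrix_mul_equiv _ _ _ (ap ι c) _,
      opl_ap T c x (hw x List.mem_cons_self), ih hw', ← kr_mul, Matrix.mul_one]

/-- the first label and the other labels -/
def ep (ι : Type) (c : ℕ) : (Fin (c + 1 + 1) → ι) ≃ (Fin 1 → ι) × (Fin (c + 1) → ι) where
  toFun Z := (fun i => Z ⟨i, by omega⟩, fun j => Z ⟨0 + 1 + j, by omega⟩)
  invFun p := fun k => if h : (k : ℕ) < 1 then p.1 ⟨k, h⟩ else p.2 ⟨k - 1, by omega⟩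
  left_inv Z := by
    funext k
    by_cases h : (k : ℕ) < 1
    · simp only
      rw [dif_pos h]
    · simp only
      rw [dif_neg h]
      congr 1
      apply Fin.ext
      simp only
      omega
  right_inv p := by
    obtain ⟨u, v⟩ := p
    apply Prod.ext
    · funext i
      simp only
      rw [dif_pos (by omega)]
    · funext j
      simp only
      rw [dif_neg (by omega)]
      congr 1
      apply Fin.ext
      simp only
      omega

end Strands

theorem cw_one_left (c : ℕ) : Cw 0 (0 + 1) (c + 1) = Dw 0 (c + 1) := by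
  unfold Cw
  rw [List.range_succ]
  simp

theorem cw_one_right (c : ℕ) : Cw 0 (c + 1) (0 + 1) = Aw 0 (c + 1) := by
  have h : ∀ r : ℕ, Dw (0 + r) (0 + 1) = [(0 + r, true)] := by
    intro r
    simp [Dw]
  unfold Cw Aw
  simp only [h]
  rw [List.map_eq_flatMap]

/-- The last strand goes around all other strands. -/
theorem twist (hs : Gen s) (hp : HEXP_Stmt) {ι : Type} [Fintype ι] [DecidableEq ι] (M : WM K ι)
    (hM : Ok s M) (c : ℕ) :
    (op (RD s M) (c + 1) (Dw 0 (c + 1)) * op (RD s M) (c + 1) (Aw 0 (c + 1))).submatrix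
      (ap ι c) (ap ι c) = Rm s (fpow s M 1) (fpow s M (c + 1)) *
        Rm s (fpow s M (c + 1)) (fpow s M 1) := by
  ext ⟨x1, x2⟩ ⟨y1, y2⟩
  rw [Matrix.submatrix_apply, Matrix.mul_apply, Matrix.mul_apply, ap_apply, ap_apply,
    ← (ep ι c).sum_comp]
  refine Finset.sum_congr rfl fun Z _ => ?_
  congr 1
  · rw [← cw_one_left]
    have h := (hp K s hs ι M hM 0 c (c + 1) (by omega) (Fin.append x1 x2) Z).1
    rw [h]
    have e1 : (fun i : Fin (c + 1) => (Fin.append x1 x2 : Fin (c + 1 + 1) → ι) ⟨i, by omega⟩) =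
        x1 := by
      funext i
      exact Fin.append_left x1 x2 i
    have e2 : (fun j : Fin (0 + 1) =>
        (Fin.append x1 x2 : Fin (c + 1 + 1) → ι) ⟨c + 1 + j, by omega⟩) = x2 := by
      funext i
      exact Fin.append_right x1 x2 i
    rw [e1, e2]
    rfl
  · rw [← cw_one_right]
    have h := (hp K s hs ι M hM c 0 (c + 1) (by omega) Z (Fin.append y1 y2)).1
    rw [h]
    have e1 : (fun i : Fin (c + 1) => (Fin.append y1 y2 : Fin (c + 1 + 1) → ι) ⟨i, by omega⟩) =
        y1 := by
      funext i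
      exact Fin.append_left y1 y2 i
    have e2 : (fun j : Fin (0 + 1) =>
        (Fin.append y1 y2 : Fin (c + 1 + 1) → ι) ⟨c + 1 + j, by omega⟩) = y2 := by
      funext i
      exact Fin.append_right y1 y2 i
    rw [e1, e2]
    rfl

theorem op_congr (hr : REP_Stmt) (hg : GOOD_Stmt) (hs : Gen s) (N n : ℕ) {u w : Word}
    (h : ev n u = ev n w) : op (RD s (V s N)) n u = op (RD s (V s N)) n w := by
  have hG := hg K s hs N (Units.mk0 (s ^ ((N : ℤ) ^ 2 - 1)) (zpow_ne_zero _ hs.1)) rfl
  obtain ⟨ρ, hρ⟩ := hr K (Fin N) (RD s (V s N)) _ hG n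
  rw [← hρ u, ← hρ w, h]

/-- a morphism that multiplies the highest weight vector by a scalar -/
theorem mor_scal (hs : Gen s) {κ : Type} [Fintype κ] [DecidableEq κ] {N : WM K κ} {a : ℕ}
    {f g : Matrix κ (Fin a) K} (hf : Mor (V s a) N f) (hg : Mor (V s a) N g) (l : K)
    (h0 : ∀ (h : 0 < a) x, f x ⟨0, h⟩ = l * g x ⟨0, h⟩) : f = l • g := by
  have h1 : Mor (V s a) N (f - l • g) :=
    { wt := by
        intro b x h
        by_contra hne
        apply h
        have e1 : f b x = 0 := by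
          by_contra h'
          exact hne (hf.wt b x h')
        have e2 : g b x = 0 := by
          by_contra h'
          exact hne (hg.wt b x h')
        rw [Matrix.sub_apply, Matrix.smul_apply, e1, e2, smul_zero, sub_zero]
      E := by rw [Matrix.mul_sub, Matrix.sub_mul, Matrix.mul_smul, Matrix.smul_mul, hf.E, hg.E]
      F := by rw [Matrix.mul_sub, Matrix.sub_mul, Matrix.mul_smul, Matrix.smul_mul, hf.F, hg.F] }
  have h2 := mor_zero hs h1 (by
    intro h x
    rw [Matrix.sub_apply, Matrix.smul_apply, h0 h x, smul_eq_mul, sub_self])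
  exact sub_eq_zero.1 h2

/-- the highest weight vector of a simple module -/
theorem hw_top (a : ℕ) (h : 0 < a) :
    HW (V s a) ((a : ℤ) - 1) (Pi.single (⟨0, h⟩ : Fin a) 1) := by
  constructor
  · intro x hx
    have : x = ⟨0, h⟩ := by
      by_contra hne
      exact hx (Pi.single_eq_of_ne hne _)
    rw [this]
    simp [V]
  · rw [Matrix.mulVec_single_one]
    funext x
    simp [V, Matrix.col]

/-- one strand -/
theorem base (hs : Gen s) (hf : FPOWT_Stmt) (N : ℕ) (k : ℤ) (y : (Fin (0 + 1) → Fin N) → K)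
    (hy1 : ∀ x, y x ≠ 0 → (fpow s (V s N) (0 + 1)).wt x = k)
    (hy2 : (fpow s (V s N) (0 + 1)).E.mulVec y = 0) (x : Fin (0 + 1) → Fin N) (hx : y x ≠ 0) :
    k = (N : ℤ) - 1 := by
  have hwt := hy1 x hx
  have h1 := ((hf K s hs (Fin N) (V s N)).2 x x).1
  have h2 : (fpow s (V s N) (0 + 1)).wt x = (V s N).wt (x 0) := h1
  rw [h2] at hwt
  have hx0 : ((x 0 : Fin N) : ℕ) = 0 := by
    by_contra hne
    obtain ⟨j, hj⟩ : ∃ j : ℕ, ((x 0 : Fin N) : ℕ) = j + 1 := Nat.exists_eq_succ_of_ne_zero hne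
    have hjN : j + 1 < N := by
      rw [← hj]
      exact (x 0).2
    have h3 := congrFun hy2 (fun _ => (⟨j, by omega⟩ : Fin N))
    rw [Matrix.mulVec, dotProduct, Finset.sum_eq_single x] at h3
    · have h4 : (fpow s (V s N) (0 + 1)).E (fun _ => (⟨j, by omega⟩ : Fin N)) x =
          qn s ((N : ℤ) - (j + 1 : ℕ)) := by
        have h5 := ((hf K s hs (Fin N) (V s N)).2 (fun _ => (⟨j, by omega⟩ : Fin N)) x).2.1
        have h6 : (fpow s (V s N) (0 + 1)).E (fun _ => (⟨j, by omega⟩ : Fin N)) x =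
          (V s N).E ⟨j, by omega⟩ (x 0) := h5
        rw [h6]
        simp only [V]
        rw [if_pos hj.symm, hj]
      rw [h4] at h3
      rcases mul_eq_zero.1 h3 with h7 | h7
      · exact qn_ne hs (by push_cast; omega) h7
      · exact hx h7
    · intro u _ hu
      have h5 := ((hf K s hs (Fin N) (V s N)).2 (fun _ => (⟨j, by omega⟩ : Fin N)) u).2.1
      have h6 : (fpow s (V s N) (0 + 1)).E (fun _ => (⟨j, by omega⟩ : Fin N)) u =
        (V s N).E ⟨j, by omega⟩ (u 0) := h5
      rw [h6]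
      simp only [V]
      rw [if_neg, zero_mul]
      intro h7
      apply hu
      funext i
      have hi : i = 0 := Subsingleton.elim (α := Fin 1) _ _
      rw [hi]
      apply Fin.ext
      rw [hj]
      exact h7.symm
    · intro h
      exact absurd (Finset.mem_univ _) h
  rw [← hwt]
  simp [V, hx0]

end FULL

open FULL in
/-- The full twist on highest weight vectors. -/
theorem full (ho : MOP_Stmt) (hd : DEC_Stmt) (hn : NAT_Stmt) (hb : DBL_Stmt) (hp : HEXP_Stmt)
    (hw : TWG_Stmt) (hr : REP_Stmt) (hg : GOOD_Stmt) (ht : TENSOK_Stmt) (hf : FPOWT_Stmt)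
    (hk : FPOWOK_Stmt) (hv : VOK_Stmt) : FULL_Stmt := by
  intro K _ s hs N c
  induction c with
  | zero =>
    intro k y hy1 hy2
    have h1 : tor (0 + 1) (((0 : ℕ) : ℤ) + 1) = [] := by simp [tor]
    rw [h1]
    have h2 : op (RD s (V s N)) 0 [] = 1 := rfl
    rw [h2, Matrix.one_mulVec]
    funext x
    rw [Pi.smul_apply, smul_eq_mul]
    by_cases hx : y x = 0
    · rw [hx, mul_zero]
    · have hk' := base hs hf N k y hy1 hy2 x hx
      have h3 : (k + 1) ^ 2 - 1 - (((0 : ℕ) : ℤ) + 1) * ((N : ℤ) ^ 2 - 1) = 0 := by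
        rw [hk']
        push_cast
        ring
      rw [h3, zpow_zero, one_mul]
  | succ c ih =>
    intro k y hy1 hy2
    have hVN : Ok s (V s N) := (hv K s hs).1 N
    have hW : Ok s (fpow s (V s N) (c + 1)) := hk K s hs _ _ hVN (c + 1)
    have hV1 : Ok s (fpow s (V s N) 1) := hk K s hs _ _ hVN 1
    obtain ⟨r, a, g, g', ha, hgg, hgg', hgM⟩ := hd K s hs _ _ hW
    obtain ⟨T0, hT0⟩ : ∃ T0, T0 = op (RD s (V s N)) c (tor (c + 1) ((c : ℤ) + 1)) := ⟨_, rfl⟩
    have hT0M : Mor (fpow s (V s N) (c + 1)) (fpow s (V s N) (c + 1)) T0 := by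
      rw [hT0]
      exact ho K s hs _ _ hVN c _
    obtain ⟨T1, hT1⟩ : ∃ T1 : Matrix ((Fin (c + 1) → Fin N) × (Fin 1 → Fin N))
        ((Fin (c + 1) → Fin N) × (Fin 1 → Fin N)) K, T1 = kr T0 1 := ⟨_, rfl⟩
    obtain ⟨RR, hRR⟩ : ∃ RR : Matrix ((Fin (c + 1) → Fin N) × (Fin 1 → Fin N))
        ((Fin (c + 1) → Fin N) × (Fin 1 → Fin N)) K,
        RR = Rm s (fpow s (V s N) 1) (fpow s (V s N) (c + 1)) *
          Rm s (fpow s (V s N) (c + 1)) (fpow s (V s N) 1) := ⟨_, rfl⟩
    -- the matrix of the full twist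
    have hop : (op (RD s (V s N)) (c + 1) (tor (c + 1 + 1) (((c + 1 : ℕ) : ℤ) + 1))).submatrix
        (ap (Fin N) c) (ap (Fin N) c) = T1 * RR := by
      have h1 : ev (c + 1) (tor (c + 1 + 1) (((c + 1 : ℕ) : ℤ) + 1)) =
          ev (c + 1) (tor (c + 1) ((c : ℤ) + 1) ++ (Dw 0 (c + 1) ++ Aw 0 (c + 1))) := by
        have h2 := hw (c + 1) (c + 1) le_rfl
        rw [h2, ev_append, ev_append, mul_assoc]
        push_cast
        rfl
      rw [op_congr hr hg hs N (c + 1) h1, op_append, op_append,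
        ← Matrix.submatrix_mul_equiv _ _ _ (ap (Fin N) c) _,
        op_ap _ c _ (by
          have := PRM.bd_tor (c + 1) ((c : ℤ) + 1)
          exact this),
        twist hs hp _ hVN c, ← hT0, hT1, hRR]
    -- the pieces
    obtain ⟨gi, hgid⟩ : ∃ gi : ∀ i, Matrix (Fin (c + 1) → Fin N) (Fin (a i)) K,
        gi = fun i => g * (inM a i : Matrix (Σ i : Fin r, Fin (a i)) (Fin (a i)) K) := ⟨_, rfl⟩
    obtain ⟨gj, hgjd⟩ : ∃ gj : ∀ i, Matrix (Fin (a i)) (Fin (c + 1) → Fin N) K,
        gj = fun i => (inM a i : Matrix (Σ i : Fin r, Fin (a i)) (Fin (a i)) K).transpose * g' :=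
      ⟨_, rfl⟩
    obtain ⟨G, hG⟩ : ∃ G : ∀ i, Matrix ((Fin (c + 1) → Fin N) × (Fin 1 → Fin N))
        (Fin (a i) × Fin N) K, G = fun i => kr (gi i) oneM := ⟨_, rfl⟩
    obtain ⟨H, hH⟩ : ∃ H : ∀ i, Matrix (Fin (a i) × Fin N)
        ((Fin (c + 1) → Fin N) × (Fin 1 → Fin N)) K,
        H = fun i => kr (gj i) (oneM : Matrix (Fin 1 → Fin N) (Fin N) K).transpose := ⟨_, rfl⟩
    have hgs : ∑ i, gi i * gj i = 1 := by
      have h2 : ∀ i, gi i * gj i = g * ((inM a i : Matrix (Σ i : Fin r, Fin (a i)) (Fin (a i)) K) *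
          (inM a i : Matrix (Σ i : Fin r, Fin (a i)) (Fin (a i)) K).transpose) * g' := by
        intro i
        rw [hgid, hgjd]
        simp only [Matrix.mul_assoc]
      simp only [h2]
      rw [← Matrix.sum_mul, ← Matrix.mul_sum, sum_in, Matrix.mul_one, hgg]
    have hGH : ∑ i, G i * H i = 1 := by
      have h1 : ∀ i, G i * H i = kr (gi i * gj i)
          (1 : Matrix (Fin 1 → Fin N) (Fin 1 → Fin N) K) := by
        intro i
        rw [hG, hH]
        simp only
        rw [← kr_mul, oneM_inv]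
      simp only [h1]
      rw [← kr_sum, hgs, kr_one]
    have hgi : ∀ i, Mor (V s (a i)) (fpow s (V s N) (c + 1)) (gi i) := by
      intro i
      rw [hgid]
      exact mor_mul (mor_in a i) hgM
    have hgi' : ∀ i, Mor (fpow s (V s N) (c + 1)) (V s (a i)) (gj i) := by
      intro i
      rw [hgjd]
      exact mor_mul (mor_inv hgM hgg hgg') (mor_inT a i)
    have h1M : Mor (V s N) (fpow s (V s N) 1) oneM := mor_one hs hf (V s N)
    have h1M' : Mor (fpow s (V s N) 1) (V s N) (oneM : Matrix _ _ K).transpose :=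
      mor_inv h1M oneM_inv oneM_inv'
    have hHM : ∀ i, Mor (tens s (fpow s (V s N) (c + 1)) (fpow s (V s N) 1))
        (tens s (V s (a i)) (V s N)) (H i) := by
      intro i
      rw [hH]
      exact (ht K s hs _ _ _ _ _ _ _ _ hW hV1).2 _ _ (hgi' i) h1M'
    -- naturality
    have hRG : ∀ i, RR * G i =
        G i * (Rm s (V s N) (V s (a i)) * Rm s (V s (a i)) (V s N)) := by
      intro i
      have hVi : Ok s (V s (a i)) := (hv K s hs).1 (a i)
      have n1 := (hn K s hs _ _ _ _ (V s (a i)) (V s N) _ _ hVi hVN hW hV1 _ _ (hgi i) h1M).1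
      have n2 := (hn K s hs _ _ _ _ (V s N) (V s (a i)) _ _ hVN hVi hV1 hW _ _ h1M (hgi i)).1
      rw [hG, hRR]
      simp only
      rw [Matrix.mul_assoc, n1, ← Matrix.mul_assoc, n2, Matrix.mul_assoc]
    -- the twist of the first strands
    have hTG : ∀ i, T1 * G i =
        s ^ ((a i : ℤ) ^ 2 - 1 - ((c : ℤ) + 1) * ((N : ℤ) ^ 2 - 1)) • G i := by
      intro i
      have e1 : T0 * gi i =
          s ^ ((a i : ℤ) ^ 2 - 1 - ((c : ℤ) + 1) * ((N : ℤ) ^ 2 - 1)) • gi i := by
        refine mor_scal hs (mor_mul (hgi i) hT0M) (hgi i) _ ?_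
        intro h x
        have h1 := (hw_top (s := s) (a i) h).map (hgi i)
        have h2 := ih ((a i : ℤ) - 1) _ h1.1 h1.2
        rw [← hT0, Matrix.mulVec_mulVec, Matrix.mulVec_single_one, Matrix.mulVec_single_one] at h2
        have h3 := congrFun h2 x
        have h4 : ((a i : ℤ) - 1 + 1) ^ 2 - 1 - ((c : ℤ) + 1) * ((N : ℤ) ^ 2 - 1) =
          (a i : ℤ) ^ 2 - 1 - ((c : ℤ) + 1) * ((N : ℤ) ^ 2 - 1) := by ring
        rw [h4] at h3
        exact h3
      rw [hG, hT1]
      simp only
      rw [← kr_mul, Matrix.one_mul, e1]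
      ext x y
      simp only [kr, Matrix.smul_apply, smul_eq_mul]
      ring
    -- the vector
    obtain ⟨y2, hy2d⟩ : ∃ y2, y2 = y ∘ ap (Fin N) c := ⟨_, rfl⟩
    have hfp := (hf K s hs (Fin N) (V s N)).1 (c + 1) 1
    have hHW : HW (tens s (fpow s (V s N) (c + 1)) (fpow s (V s N) 1)) k y2 := by
      constructor
      · rintro ⟨x, u⟩ hx
        rw [← (hfp x x u u).1]
        apply hy1
        rw [hy2d] at hx
        exact hx
      · have e1 : (tens s (fpow s (V s N) (c + 1)) (fpow s (V s N) 1)).E =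
            ((fpow s (V s N) (c + 1 + 1)).E).submatrix (ap (Fin N) c) (ap (Fin N) c) := by
          ext ⟨x, u⟩ ⟨x', u'⟩
          exact (hfp x x' u u').2.1.symm
        rw [e1, Matrix.submatrix_mulVec_equiv, hy2d]
        have e2 : (y ∘ ap (Fin N) c) ∘ (ap (Fin N) c).symm = y := by
          rw [Function.comp_assoc, Equiv.self_comp_symm, Function.comp_id]
        rw [e2, hy2]
        rfl
    have hpiece : ∀ i, (T1 * RR).mulVec
          ((G i).mulVec ((H i).mulVec y2)) =
        s ^ ((k + 1) ^ 2 - 1 - (((c + 1 : ℕ) : ℤ) + 1) * ((N : ℤ) ^ 2 - 1)) •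
          (G i).mulVec ((H i).mulVec y2) := by
      intro i
      have h1 := hHW.map (hHM i)
      have h2 := hb K s hs (a i) N k _ h1.1 h1.2
      rw [Matrix.mulVec_mulVec, Matrix.mul_assoc, hRG i, ← Matrix.mul_assoc, hTG i,
        ← Matrix.mulVec_mulVec, h2, Matrix.mulVec_smul, Matrix.smul_mulVec, smul_smul,
        ← zpow_add₀ hs.1]
      congr 2
      push_cast
      ring
    have hsum : y2 = ∑ i, (G i).mulVec ((H i).mulVec y2) := by
      have e1 : ∀ i, (G i).mulVec ((H i).mulVec y2) = (G i * H i).mulVec y2 := fun i =>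
        Matrix.mulVec_mulVec _ _ _
      simp only [e1]
      rw [← Matrix.sum_mulVec, hGH, Matrix.one_mulVec]
    have hfin : (T1 * RR).mulVec y2 =
        s ^ ((k + 1) ^ 2 - 1 - (((c + 1 : ℕ) : ℤ) + 1) * ((N : ℤ) ^ 2 - 1)) • y2 := by
      conv_lhs => rw [hsum]
      conv_rhs => rw [hsum]
      rw [Matrix.mulVec_sum, Finset.smul_sum]
      exact Finset.sum_congr rfl fun i _ => hpiece i
    rw [← hop, Matrix.submatrix_mulVec_equiv, hy2d] at hfin
    have e2 : (y ∘ ap (Fin N) c) ∘ (ap (Fin N) c).symm = y := by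
      rw [Function.comp_assoc, Equiv.self_comp_symm, Function.comp_id]
    rw [e2] at hfin
    funext z
    have h1 := congrFun hfin ((ap (Fin N) c).symm z)
    simp only [Function.comp_apply, Equiv.apply_symm_apply, Pi.smul_apply] at h1
    rw [h1]
    rfl

end Pool.Agent.IT
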