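import Pool.Agent.IT.Stmts

/-!
# Iterated torus knots: module GOOD (the braiding data of a simple module)
-/

namespace Pool.Agent.IT
open Pool.Agent.LibH11
open scoped BigOperators

namespace GOOD

variable {K : Type} [Field K] (s : K)

theorem aq_zero : aq s 0 = 1 := by
  unfold aq qfac
  simp

theorem aq'_zero : aq' s 0 = 1 := by
  unfold aq' qfac
  simp

/-- positive powers of `E` have a zero first column -/
theorem E_col {N : ℕ} (b z : Fin N) (hz : (z : ℕ) = 0) (n : ℕ) (hn : n ≠ 0) :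
    ((V s N).E ^ n) b z = 0 := by
  obtain ⟨m, rfl⟩ := Nat.exists_eq_succ_of_ne_zero hn
  rw [Nat.succ_eq_add_one, pow_succ, Matrix.mul_apply]
  refine Finset.sum_eq_zero fun t _ => ?_
  have h1 : (V s N).E t z = 0 := by
    show (if (t : ℕ) + 1 = z then _ else _) = _
    rw [if_neg (by omega)]
  rw [h1, mul_zero]

/-- positive powers of `E` have a zero last row -/
theorem E_row {N : ℕ} (z b : Fin N) (hz : (z : ℕ) + 1 = N) (n : ℕ) (hn : n ≠ 0) :
    ((V s N).E ^ n) z b = 0 := by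
  obtain ⟨m, rfl⟩ := Nat.exists_eq_succ_of_ne_zero hn
  rw [Nat.succ_eq_add_one, pow_succ', Matrix.mul_apply]
  refine Finset.sum_eq_zero fun t _ => ?_
  have h1 : (V s N).E z t = 0 := by
    show (if (z : ℕ) + 1 = t then _ else _) = _
    rw [if_neg (by have := t.2; omega)]
  rw [h1, zero_mul]

theorem entry_first {N : ℕ} (z b : Fin N) (hz : (z : ℕ) = 0) :
    Rm s (V s N) (V s N) (z, b) (z, b) =
      if b = z then s ^ ((V s N).wt z * (V s N).wt z) else 0 := by
  have hN : 0 < N := lt_of_le_of_lt (Nat.zero_le _) z.2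
  show s ^ ((V s N).wt b * (V s N).wt z) * ∑ n ∈ Finset.range (Fintype.card (Fin N)),
    aq s n * ((V s N).E ^ n) b z * ((V s N).F ^ n) z b = _
  rw [Finset.sum_eq_single 0]
  · rw [aq_zero, pow_zero, pow_zero]
    by_cases h : b = z
    · subst h
      rw [if_pos rfl, Matrix.one_apply_eq, one_mul, mul_one, mul_one]
    · rw [if_neg h, Matrix.one_apply_ne h, mul_zero, zero_mul, mul_zero]
  · intro n _ hn
    rw [E_col s b z hz n hn, mul_zero, zero_mul]
  · intro h
    rw [Fintype.card_fin] at h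
    exact absurd (Finset.mem_range.2 hN) h

theorem entry_last {N : ℕ} (z b : Fin N) (hz : (z : ℕ) + 1 = N) :
    Rm' s (V s N) (V s N) (z, b) (z, b) =
      if b = z then s ^ (-((V s N).wt z * (V s N).wt z)) else 0 := by
  have hN : 0 < N := by omega
  show (∑ n ∈ Finset.range (Fintype.card (Fin N)),
    aq' s n * ((V s N).E ^ n) z b * ((V s N).F ^ n) b z) *
      s ^ (-((V s N).wt b * (V s N).wt z)) = _
  rw [Finset.sum_eq_single 0]
  · rw [aq'_zero, pow_zero, pow_zero]
    by_cases h : b = z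
    · subst h
      rw [if_pos rfl, Matrix.one_apply_eq, one_mul, mul_one, one_mul]
    · rw [if_neg h, Matrix.one_apply_ne (Ne.symm h), mul_zero, zero_mul, zero_mul]
  · intro n _ hn
    rw [E_row s z b hz n hn, mul_zero, zero_mul]
  · intro h
    rw [Fintype.card_fin] at h
    exact absurd (Finset.mem_range.2 hN) h

end GOOD

open GOOD in
theorem good_mod (hv : VOK_Stmt) (hr : RINV_Stmt) (hy : YBE_Stmt) (ht : QT_Stmt) (hp : PTR_Stmt)
    (hs : SCHUR_Stmt) : GOOD_Stmt := by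
  intro K _ s hg N θ hθ
  have hV := (hv K s hg).1 N
  obtain ⟨r1, r2⟩ := hr K s hg (Fin N) (Fin N) (V s N) (V s N) hV hV
  obtain ⟨t1, t2⟩ := ht K s hg (Fin N) (Fin N) (V s N) (V s N) hV hV
  have hs0 : s ≠ 0 := hg.1
  have hK : ∀ i : Fin N, (RD s (V s N)).κ i = s ^ (2 * (V s N).wt i) := fun _ => rfl
  refine ⟨r2, r1, hy K s hg (Fin N) (V s N) hV, ?_, ?_, ?_⟩
  · intro a b c d
    by_cases h : Rm s (V s N) (V s N) (a, b) (c, d) = 0
    · have h' : (RD s (V s N)).R (a, b) (c, d) = 0 := h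
      rw [h', mul_zero, zero_mul]
    · have h1 : (V s N).wt a + (V s N).wt b = (V s N).wt c + (V s N).wt d := t1.wt (a, b) (c, d) h
      rw [hK, hK, hK, hK, ← zpow_add₀ hs0, ← zpow_add₀ hs0, ← mul_add, ← mul_add, h1, mul_comm]
  · intro a c
    obtain ⟨x, hx⟩ := hs K s hg N _ (hp K s hg (Fin N) (Fin N) (V s N) (V s N) hV hV _ t1)
    have h1 : ∀ a c : Fin N, ∑ b, (RD s (V s N)).R (a, b) (c, b) * (RD s (V s N)).κ b =
        if a = c then x else 0 := by
      intro a c
      have h2 := congrFun (congrFun hx a) c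
      rw [Matrix.smul_apply, Matrix.one_apply, smul_eq_mul, mul_ite, mul_one, mul_zero] at h2
      exact h2
    rw [h1]
    by_cases h : a = c
    · rw [if_pos h, if_pos h]
      have hN : 0 < N := lt_of_le_of_lt (Nat.zero_le _) a.2
      have h3 := h1 ⟨0, hN⟩ ⟨0, hN⟩
      rw [if_pos rfl, Finset.sum_eq_single (⟨0, hN⟩ : Fin N)] at h3
      · have h4 : (RD s (V s N)).R (⟨0, hN⟩, ⟨0, hN⟩) (⟨0, hN⟩, ⟨0, hN⟩) =
            s ^ ((V s N).wt ⟨0, hN⟩ * (V s N).wt ⟨0, hN⟩) := by
          have h5 := entry_first s (⟨0, hN⟩ : Fin N) ⟨0, hN⟩ rfl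
          rw [if_pos rfl] at h5
          exact h5
        rw [h4, hK, ← zpow_add₀ hs0] at h3
        rw [← h3, hθ]
        congr 1
        show ((N : ℤ) - 1 - 2 * ((0 : ℕ) : ℤ)) * ((N : ℤ) - 1 - 2 * ((0 : ℕ) : ℤ)) +
          2 * ((N : ℤ) - 1 - 2 * ((0 : ℕ) : ℤ)) = _
        push_cast
        ring
      · intro b _ hb
        have h5 : (RD s (V s N)).R (⟨0, hN⟩, b) (⟨0, hN⟩, b) = 0 := by
          have h6 := entry_first s (⟨0, hN⟩ : Fin N) b rfl
          rw [if_neg hb] at h6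
          exact h6
        rw [h5, zero_mul]
      · intro h5
        exact absurd (Finset.mem_univ _) h5
    · rw [if_neg h, if_neg h]
  · intro a c
    obtain ⟨x, hx⟩ := hs K s hg N _ (hp K s hg (Fin N) (Fin N) (V s N) (V s N) hV hV _ t2)
    have h1 : ∀ a c : Fin N, ∑ b, (RD s (V s N)).R' (a, b) (c, b) * (RD s (V s N)).κ b =
        if a = c then x else 0 := by
      intro a c
      have h2 := congrFun (congrFun hx a) c
      rw [Matrix.smul_apply, Matrix.one_apply, smul_eq_mul, mul_ite, mul_one, mul_zero] at h2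
      exact h2
    rw [h1]
    by_cases h : a = c
    · rw [if_pos h, if_pos h]
      have hN : 0 < N := lt_of_le_of_lt (Nat.zero_le _) a.2
      have hz : N - 1 < N := Nat.sub_lt hN one_pos
      have h3 := h1 ⟨N - 1, hz⟩ ⟨N - 1, hz⟩
      have hz1 : ((⟨N - 1, hz⟩ : Fin N) : ℕ) + 1 = N := by
        show N - 1 + 1 = N
        omega
      rw [if_pos rfl, Finset.sum_eq_single (⟨N - 1, hz⟩ : Fin N)] at h3
      · have h4 : (RD s (V s N)).R' (⟨N - 1, hz⟩, ⟨N - 1, hz⟩) (⟨N - 1, hz⟩, ⟨N - 1, hz⟩) =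
            s ^ (-((V s N).wt ⟨N - 1, hz⟩ * (V s N).wt ⟨N - 1, hz⟩)) := by
          have h5 := entry_last s (⟨N - 1, hz⟩ : Fin N) ⟨N - 1, hz⟩ hz1
          rw [if_pos rfl] at h5
          exact h5
        rw [h4, hK, ← zpow_add₀ hs0] at h3
        rw [← h3, Units.val_inv_eq_inv_val, hθ, ← zpow_neg]
        congr 1
        show -(((N : ℤ) - 1 - 2 * ((N - 1 : ℕ) : ℤ)) * ((N : ℤ) - 1 - 2 * ((N - 1 : ℕ) : ℤ))) +
          2 * ((N : ℤ) - 1 - 2 * ((N - 1 : ℕ) : ℤ)) = _
        rw [Nat.cast_sub (show 1 ≤ N from hN)]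
        push_cast
        ring
      · intro b _ hb
        have h5 : (RD s (V s N)).R' (⟨N - 1, hz⟩, b) (⟨N - 1, hz⟩, b) = 0 := by
          have h6 := entry_last s (⟨N - 1, hz⟩ : Fin N) b hz1
          rw [if_neg hb] at h6
          exact h6
        rw [h5, zero_mul]
      · intro h5
        exact absurd (Finset.mem_univ _) h5
    · rw [if_neg h, if_neg h]

end Pool.Agent.IT
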