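import Pool.Agent.IT.Stmts

/-!
Iterated torus knots, module GOODQ: the integral braiding data are good.
-/

namespace Pool.Agent.IT
open Pool.Agent.LibH11
open scoped BigOperators
open PowerSeries

namespace GOODQ

theorem toK_inj : Function.Injective toK := IsFractionRing.injective ℚ⟦X⟧ KQ

/-- good data pull back along an injective homomorphism -/
theorem good_of_map {A B ι : Type} [CommRing A] [CommRing B] [Fintype ι] [DecidableEq ι]
    (φ : A →+* B) (hφ : Function.Injective φ) (T : RData A ι) (θ : Aˣ)
    (h : Good (T.map φ) (Units.map (φ : A →* B) θ)) : Good T θ := by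
  have hinj : Function.Injective (fun M : Matrix (ι × ι) (ι × ι) A => M.map φ) :=
    Matrix.map_injective hφ
  constructor
  · apply hinj
    have := h.mul_inv
    simp only [RData.map] at this
    simp only [Matrix.map_mul, this]
    rw [Matrix.map_one φ (map_zero φ) (map_one φ)]
  · apply hinj
    have := h.inv_mul
    simp only [RData.map] at this
    simp only [Matrix.map_mul, this]
    rw [Matrix.map_one φ (map_zero φ) (map_one φ)]
  · intro a b c a' b' c'
    apply hφ
    have := h.ybe a b c a' b' c'
    simp only [RData.map, Matrix.map_apply] at this
    simp only [map_sum, map_mul]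
    exact this
  · intro a b c d
    apply hφ
    have := h.comm a b c d
    simp only [RData.map, Matrix.map_apply] at this
    simp only [map_mul]
    exact this
  · intro a c
    apply hφ
    have := h.trace a c
    simp only [RData.map, Matrix.map_apply] at this
    simp only [map_sum, map_mul]
    rw [this]
    split_ifs <;> simp
  · intro a c
    apply hφ
    have := h.trace' a c
    simp only [RData.map, Matrix.map_apply] at this
    simp only [map_sum, map_mul]
    rw [this]
    split_ifs <;> simp

end GOODQ

open GOODQ in
theorem goodq (he : ESER_Stmt) (hg : GOOD_Stmt) : GOODQ_Stmt := by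
  intro N T hT θ hθ
  obtain ⟨-, -, -, hs, hgen, -⟩ := he
  apply good_of_map toK toK_inj T θ
  rw [hT]
  apply hg KQ sQ hgen N
  rw [hs]
  simp only [Units.coe_map, MonoidHom.coe_coe]
  rw [hθ]
  congr 2
  push_cast
  ring

end Pool.Agent.IT
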