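import Pool.Agent.IT.Stmts

/-!
# HEX1: the braiding of a tensor product on the left
-/

set_option autoImplicit false

namespace Pool.Agent.IT

open scoped BigOperators

namespace HEX1

/-- Summation over a rectangle by diagonals. -/
theorem sum_rect {K : Type} [Field K] (t : ℕ → ℕ → K) (c d R : ℕ)
    (h1 : ∀ i j, c ≤ i → t i j = 0) (h2 : ∀ i j, d ≤ j → t i j = 0)
    (hR : ∀ i j, i < c → j < d → i + j < R) :
    ∑ r ∈ Finset.range R, ∑ i ∈ Finset.range (r + 1), t i (r - i) =
      ∑ i ∈ Finset.range c, ∑ j ∈ Finset.range d, t i j := by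
  have e1 : ∀ r : ℕ, ∑ i ∈ Finset.range (r + 1), t i (r - i) =
      ∑ p ∈ Finset.range c ×ˢ Finset.range d, if p.1 + p.2 = r then t p.1 p.2 else 0 := by
    intro r
    rw [← Finset.Nat.sum_antidiagonal_eq_sum_range_succ (fun i j => t i j) r,
      ← Finset.sum_filter]
    symm
    apply Finset.sum_subset
    · intro p hp
      rw [Finset.mem_filter] at hp
      exact Finset.HasAntidiagonal.mem_antidiagonal.2 hp.2
    · intro p hp hp'
      rw [Finset.HasAntidiagonal.mem_antidiagonal] at hp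
      rw [Finset.mem_filter, Finset.mem_product, Finset.mem_range, Finset.mem_range] at hp'
      by_cases hc : c ≤ p.1
      · exact h1 _ _ hc
      · apply h2
        by_contra hd
        exact hp' ⟨⟨by omega, by omega⟩, hp⟩
  rw [Finset.sum_congr rfl fun r _ => e1 r, Finset.sum_comm, Finset.sum_product]
  refine Finset.sum_congr rfl fun i hi => Finset.sum_congr rfl fun j hj => ?_
  rw [Finset.mem_range] at hi hj
  rw [Finset.sum_ite_eq, if_pos (Finset.mem_range.2 (hR i j hi hj))]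

section

variable {K : Type} [Field K] {ι κ : Type} [Fintype ι] [DecidableEq ι] [Fintype κ] [DecidableEq κ]

/-- the matrix `E ⊗ K` -/
def mx (s : K) (M : WM K ι) (N : WM K κ) : Matrix (ι × κ) (ι × κ) K :=
  fun x y => if x.2 = y.2 then M.E x.1 y.1 * s ^ (2 * N.wt y.2) else 0

/-- the matrix `1 ⊗ E` -/
def my (N : WM K κ) : Matrix (ι × κ) (ι × κ) K :=
  fun x y => if x.1 = y.1 then N.E x.2 y.2 else 0

omit [Fintype ι] [Fintype κ] in
theorem tens_E (s : K) (M : WM K ι) (N : WM K κ) : (tens s M N).E = mx s M N + my N := rfl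

theorem mx_mul (s : K) (M : WM K ι) (N : WM K κ) (Z : Matrix (ι × κ) (ι × κ) K) (a m : ι)
    (b n : κ) : (mx s M N * Z) (a, b) (m, n) =
      ∑ a' : ι, M.E a a' * s ^ (2 * N.wt b) * Z (a', b) (m, n) := by
  rw [Matrix.mul_apply, Fintype.sum_prod_type]
  refine Finset.sum_congr rfl fun a' _ => ?_
  unfold mx
  simp only [ite_mul, zero_mul, Finset.sum_ite_eq, Finset.mem_univ, if_true]

theorem my_mul (N : WM K κ) (Z : Matrix (ι × κ) (ι × κ) K) (a m : ι)
    (b n : κ) : ((my N : Matrix (ι × κ) (ι × κ) K) * Z) (a, b) (m, n) = ∑ b' : κ, N.E b b' * Z (a, b') (m, n) := by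
  rw [Matrix.mul_apply, Fintype.sum_prod_type_right]
  refine Finset.sum_congr rfl fun b' _ => ?_
  unfold my
  simp only [ite_mul, zero_mul, Finset.sum_ite_eq, Finset.mem_univ, if_true]

theorem mx_pow (s : K) (hs : s ≠ 0) (M : WM K ι) (N : WM K κ) (i : ℕ) (a m : ι) (b n : κ) :
    (mx s M N ^ i) (a, b) (m, n) =
      if b = n then (M.E ^ i) a m * s ^ (2 * (i : ℤ) * N.wt b) else 0 := by
  induction i generalizing a m b n with
  | zero =>
    rw [pow_zero, pow_zero, Matrix.one_apply, Matrix.one_apply]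
    by_cases hb : b = n
    · rw [if_pos hb]
      by_cases ha : a = m
      · rw [if_pos (by rw [ha, hb]), if_pos ha]
        simp
      · rw [if_neg (fun h => ha (congrArg Prod.fst h)), if_neg ha, zero_mul]
    · rw [if_neg hb, if_neg (fun h => hb (congrArg Prod.snd h))]
  | succ i ih =>
    rw [pow_succ', mx_mul]
    simp only [ih]
    by_cases hb : b = n
    · simp only [if_pos hb]
      rw [pow_succ', Matrix.mul_apply, Finset.sum_mul]
      refine Finset.sum_congr rfl fun a' _ => ?_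
      have h1 : s ^ (2 * ((i + 1 : ℕ) : ℤ) * N.wt b) =
          s ^ (2 * N.wt b) * s ^ (2 * (i : ℤ) * N.wt b) := by
        rw [← zpow_add₀ hs]
        congr 1
        push_cast
        ring
      rw [h1]
      ring
    · simp only [if_neg hb, mul_zero, Finset.sum_const_zero]

theorem my_pow (N : WM K κ) (j : ℕ) (a m : ι) (b n : κ) :
    ((my N : Matrix (ι × κ) (ι × κ) K) ^ j) (a, b) (m, n) =
      if a = m then (N.E ^ j) b n else 0 := by
  induction j generalizing a m b n with
  | zero =>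
    rw [pow_zero, pow_zero, Matrix.one_apply, Matrix.one_apply]
    by_cases ha : a = m
    · rw [if_pos ha]
      by_cases hb : b = n
      · rw [if_pos (by rw [ha, hb]), if_pos hb]
      · rw [if_neg (fun h => hb (congrArg Prod.snd h)), if_neg hb]
    · rw [if_neg ha, if_neg (fun h => ha (congrArg Prod.fst h))]
  | succ j ih =>
    rw [pow_succ', my_mul]
    simp only [ih]
    by_cases ha : a = m
    · simp only [if_pos ha]
      rw [pow_succ', Matrix.mul_apply]
    · simp only [if_neg ha, mul_zero, Finset.sum_const_zero]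

theorem mxy (s : K) (hs : s ≠ 0) (M : WM K ι) (N : WM K κ) (i j : ℕ) (a m : ι) (b n : κ) :
    (mx s M N ^ i * (my N : Matrix (ι × κ) (ι × κ) K) ^ j) (a, b) (m, n) =
      (M.E ^ i) a m * s ^ (2 * (i : ℤ) * N.wt b) * (N.E ^ j) b n := by
  rw [Matrix.mul_apply, Fintype.sum_prod_type]
  simp only [mx_pow s hs, my_pow, ite_mul, zero_mul, mul_ite, mul_zero, Finset.sum_ite_eq,
    Finset.mem_univ, if_true]
  simp

theorem comm_xy (s : K) (hs : s ≠ 0) (M : WM K ι) (N : WM K κ) (hN : Ok s N) :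
    mx s M N * (my N : Matrix (ι × κ) (ι × κ) K) =
      (s ^ 4) • ((my N : Matrix (ι × κ) (ι × κ) K) * mx s M N) := by
  ext ⟨a, b⟩ ⟨m, n⟩
  rw [Matrix.smul_apply, mx_mul, my_mul, smul_eq_mul]
  have e1 : ∑ a' : ι, M.E a a' * s ^ (2 * N.wt b) *
      (my N : Matrix (ι × κ) (ι × κ) K) (a', b) (m, n) =
      M.E a m * s ^ (2 * N.wt b) * N.E b n := by
    unfold my
    simp
  have e2 : ∑ b' : κ, N.E b b' * mx s M N (a, b') (m, n) =
      N.E b n * (M.E a m * s ^ (2 * N.wt n)) := by
    unfold mx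
    simp
  rw [e1, e2]
  by_cases h0 : N.E b n = 0
  · rw [h0]
    ring
  · have h1 := hN.wtE b n h0
    have h2 : s ^ (2 * N.wt b) = s ^ 4 * s ^ (2 * N.wt n) := by
      rw [h1, ← zpow_natCast, ← zpow_add₀ hs]
      congr 1
      push_cast
      ring
    rw [h2]
    ring

end

end HEX1

theorem hex1 (he : QEXP_Stmt) (hn : NILP_Stmt) : HEX1_Stmt := by
  intro K _ s hg ι κ ν _ _ _ _ _ _ M N L hM hN hL l k a m b n
  have hs : s ≠ 0 := hg.1
  obtain ⟨_, _, nM⟩ := hn K s ι M hM
  obtain ⟨_, _, nN⟩ := hn K s κ N hN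
  obtain ⟨_, wF, _⟩ := hn K s ν L hL
  -- the left side
  have hL1 : ∀ r : ℕ, aq s r * ((tens s M N).E ^ r) (a, b) (m, n) =
      ∑ i ∈ Finset.range (r + 1), aq s i * aq s (r - i) *
        ((M.E ^ i) a m * s ^ (2 * (i : ℤ) * N.wt b) * (N.E ^ (r - i)) b n) := by
    intro r
    have h1 := he K s hg (Matrix (ι × κ) (ι × κ) K) (HEX1.mx s M N) (HEX1.my N)
      (HEX1.comm_xy s hs M N hN) r
    have h2 := congrFun (congrFun h1 (a, b)) (m, n)
    rw [Matrix.smul_apply, smul_eq_mul, ← HEX1.tens_E, Matrix.sum_apply] at h2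
    rw [h2]
    refine Finset.sum_congr rfl fun i _ => ?_
    rw [Matrix.smul_apply, smul_eq_mul, HEX1.mxy s hs]
  have hlhs : Rm s (tens s M N) L (l, (a, b)) ((m, n), k) =
      s ^ ((M.wt a + N.wt b) * L.wt l) * ∑ i ∈ Finset.range (Fintype.card ι),
        ∑ j ∈ Finset.range (Fintype.card κ), aq s i * aq s j *
          ((M.E ^ i) a m * s ^ (2 * (i : ℤ) * N.wt b) * (N.E ^ j) b n) * (L.F ^ (i + j)) l k := by
    unfold Rm
    change s ^ ((M.wt a + N.wt b) * L.wt l) * ∑ r ∈ Finset.range (Fintype.card (ι × κ)),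
      aq s r * ((tens s M N).E ^ r) (a, b) (m, n) * (L.F ^ r) l k = _
    congr 1
    rw [← HEX1.sum_rect (fun i j => aq s i * aq s j *
          ((M.E ^ i) a m * s ^ (2 * (i : ℤ) * N.wt b) * (N.E ^ j) b n) * (L.F ^ (i + j)) l k)
      (Fintype.card ι) (Fintype.card κ) (Fintype.card (ι × κ))]
    · refine Finset.sum_congr rfl fun r _ => ?_
      rw [hL1, Finset.sum_mul]
      refine Finset.sum_congr rfl fun i hi => ?_
      have h3 : i + (r - i) = r := by
        rw [Finset.mem_range] at hi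
        omega
      rw [h3]
    · intro i j hi
      rw [(nM i hi).1, Matrix.zero_apply]
      ring
    · intro i j hj
      rw [(nN j hj).1, Matrix.zero_apply]
      ring
    · intro i j hi hj
      rw [Fintype.card_prod]
      obtain ⟨c, hc⟩ : ∃ c, Fintype.card ι = c + 1 := ⟨Fintype.card ι - 1, by omega⟩
      obtain ⟨d, hd⟩ : ∃ d, Fintype.card κ = d + 1 := ⟨Fintype.card κ - 1, by omega⟩
      rw [hc] at hi ⊢
      rw [hd] at hj ⊢
      have h4 : (c + 1) * (d + 1) = c * d + c + d + 1 := by ring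
      rw [h4]
      omega
  -- the right side
  have hterm : ∀ (i j : ℕ), ∑ k' : ν, (s ^ (M.wt a * L.wt l) *
      (aq s i * (M.E ^ i) a m * (L.F ^ i) l k')) *
        (s ^ (N.wt b * L.wt k') * (aq s j * (N.E ^ j) b n * (L.F ^ j) k' k)) =
      s ^ ((M.wt a + N.wt b) * L.wt l) * (aq s i * aq s j *
          ((M.E ^ i) a m * s ^ (2 * (i : ℤ) * N.wt b) * (N.E ^ j) b n) *
            (L.F ^ (i + j)) l k) := by
    intro i j
    rw [pow_add, Matrix.mul_apply, Finset.mul_sum, Finset.mul_sum]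
    refine Finset.sum_congr rfl fun k' _ => ?_
    by_cases h0 : (L.F ^ i) l k' = 0
    · rw [h0]
      ring
    · have h1 := wF i l k' h0
      have h2 : s ^ (M.wt a * L.wt l) * s ^ (N.wt b * L.wt k') =
          s ^ ((M.wt a + N.wt b) * L.wt l) * s ^ (2 * (i : ℤ) * N.wt b) := by
        rw [← zpow_add₀ hs, ← zpow_add₀ hs]
        congr 1
        rw [h1]
        ring
      linear_combination (aq s i * (M.E ^ i) a m * (L.F ^ i) l k' * (aq s j * (N.E ^ j) b n *
        (L.F ^ j) k' k)) * h2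
  have hrhs : ∀ k' : ν, Rm s M L (l, a) (m, k') * Rm s N L (k', b) (n, k) =
      ∑ i ∈ Finset.range (Fintype.card ι), ∑ j ∈ Finset.range (Fintype.card κ),
        (s ^ (M.wt a * L.wt l) * (aq s i * (M.E ^ i) a m * (L.F ^ i) l k')) *
        (s ^ (N.wt b * L.wt k') * (aq s j * (N.E ^ j) b n * (L.F ^ j) k' k)) := by
    intro k'
    unfold Rm
    simp only
    rw [Finset.mul_sum, Finset.mul_sum, Finset.sum_mul_sum]
  have hrhs' : ∑ k' : ν, Rm s M L (l, a) (m, k') * Rm s N L (k', b) (n, k) =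
      ∑ i ∈ Finset.range (Fintype.card ι), ∑ j ∈ Finset.range (Fintype.card κ), ∑ k' : ν,
        (s ^ (M.wt a * L.wt l) * (aq s i * (M.E ^ i) a m * (L.F ^ i) l k')) *
        (s ^ (N.wt b * L.wt k') * (aq s j * (N.E ^ j) b n * (L.F ^ j) k' k)) := by
    simp only [hrhs]
    rw [Finset.sum_comm]
    refine Finset.sum_congr rfl fun i _ => ?_
    rw [Finset.sum_comm]
  rw [hlhs, hrhs', Finset.mul_sum]
  refine Finset.sum_congr rfl fun i _ => ?_
  rw [Finset.mul_sum]
  refine Finset.sum_congr rfl fun j _ => ?_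
  rw [hterm]

end Pool.Agent.IT
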