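import Pool.Agent.IT.Stmts

/-!
# HEX2: the braiding of a tensor product on the right
-/

namespace Pool.Agent.IT
open Pool.Agent.LibH11
open scoped BigOperators Kronecker

namespace HEX2

variable {K : Type} [Field K]

theorem sum_tri (C : ℕ) (f : ℕ → ℕ → K) (h : ∀ i j, C ≤ i + j → f i j = 0) :
    ∑ k ∈ Finset.range C, ∑ i ∈ Finset.range (k + 1), f i (k - i) =
      ∑ i ∈ Finset.range C, ∑ j ∈ Finset.range C, f i j := by
  rw [Finset.sum_comm' (s' := fun i => Finset.Ico i C) (t' := Finset.range C)]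
  · refine Finset.sum_congr rfl fun i hi => ?_
    rw [Finset.sum_Ico_eq_sum_range]
    have h1 : ∀ j, f i (i + j - i) = f i j := fun j => by rw [Nat.add_sub_cancel_left]
    simp only [h1]
    refine Finset.sum_subset (Finset.range_mono (Nat.sub_le _ _)) fun j _ hj => h i j ?_
    rw [Finset.mem_range] at hj hi
    omega
  · intro k i
    simp only [Finset.mem_range, Finset.mem_Ico]
    omega

theorem kron_pow {κ ν : Type} [Fintype κ] [DecidableEq κ] [Fintype ν] [DecidableEq ν]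
    (A : Matrix κ κ K) (B : Matrix ν ν K) (n : ℕ) : (A ⊗ₖ B) ^ n = (A ^ n) ⊗ₖ (B ^ n) := by
  induction n with
  | zero => rw [pow_zero, pow_zero, pow_zero, Matrix.one_kronecker_one]
  | succ n ih => rw [pow_succ, ih, ← Matrix.mul_kronecker_mul, ← pow_succ, ← pow_succ]

section

variable {κ ν : Type} [Fintype κ] [DecidableEq κ] [Fintype ν] [DecidableEq ν] (s : K)
  (N : WM K κ) (L : WM K ν)

/-- `F ⊗ 1` -/
def X : Matrix (κ × ν) (κ × ν) K := N.F ⊗ₖ (1 : Matrix ν ν K)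

/-- the diagonal matrix `K⁻¹` -/
def D : Matrix κ κ K := Matrix.diagonal fun a => s ^ (-(2 * N.wt a))

/-- `K⁻¹ ⊗ F` -/
def Y : Matrix (κ × ν) (κ × ν) K := D s N ⊗ₖ L.F

theorem F_eq : (tens s N L).F = Y s N L + X (ν := ν) N := by
  ext x y
  rw [Matrix.add_apply, X, Y, Matrix.kroneckerMap_apply, Matrix.kroneckerMap_apply, D, tens]
  simp only [Matrix.diagonal_apply, Matrix.one_apply]
  have h1 : (if x.2 = y.2 then N.F x.1 y.1 else 0) = N.F x.1 y.1 *
      if x.2 = y.2 then 1 else 0 := by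
    by_cases h : x.2 = y.2
    · rw [if_pos h, if_pos h, mul_one]
    · rw [if_neg h, if_neg h, mul_zero]
  have h2 : (if x.1 = y.1 then s ^ (-(2 * N.wt y.1)) * L.F x.2 y.2 else 0) =
      (if x.1 = y.1 then s ^ (-(2 * N.wt x.1)) else 0) * L.F x.2 y.2 := by
    by_cases h : x.1 = y.1
    · rw [if_pos h, if_pos h, h]
    · rw [if_neg h, if_neg h, zero_mul]
  rw [h1, h2, add_comm]

theorem DF (hs : s ≠ 0) (hN : Ok s N) : D s N * N.F = (s ^ 4) • (N.F * D s N) := by
  ext a b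
  rw [D, Matrix.diagonal_mul, Matrix.smul_apply, Matrix.mul_diagonal, smul_eq_mul]
  by_cases h : N.F a b = 0
  · rw [h]
    ring
  · have h1 := hN.wtF a b h
    have h2 : s ^ (-(2 * N.wt a)) = s ^ 4 * s ^ (-(2 * N.wt b)) := by
      rw [h1, ← zpow_natCast, ← zpow_add₀ hs]
      congr 1
      push_cast
      ring
    rw [h2]
    ring

theorem YX (hs : s ≠ 0) (hN : Ok s N) : Y s N L * X N = (s ^ 4) • (X (ν := ν) N * Y s N L) := by
  rw [X, Y, ← Matrix.mul_kronecker_mul, ← Matrix.mul_kronecker_mul, mul_one, one_mul,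
    DF s N hs hN, Matrix.smul_kronecker]

theorem pow_apply (i j : ℕ) (n n0 : κ) (l l0 : ν) :
    (Y s N L ^ i * X (ν := ν) N ^ j : Matrix (κ × ν) (κ × ν) K) (n, l) (n0, l0) =
      (s ^ (-(2 * N.wt n))) ^ i * (N.F ^ j) n n0 * (L.F ^ i) l l0 := by
  rw [X, Y, kron_pow, kron_pow, ← Matrix.mul_kronecker_mul, one_pow, mul_one,
    Matrix.kroneckerMap_apply, D, Matrix.diagonal_pow, Matrix.diagonal_mul, Pi.pow_apply]

end

theorem key {ι : Type} [Fintype ι] [DecidableEq ι] (s : K) (hs : s ≠ 0) (M : WM K ι)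
    (hE : ∀ (n : ℕ) (a b : ι), (M.E ^ n) a b ≠ 0 → M.wt a = M.wt b + 2 * n) (w : ℤ) (i j : ℕ)
    (a m : ι) : ∑ m' : ι, (M.E ^ i) a m' * s ^ (M.wt m' * w) * (M.E ^ j) m' m =
      s ^ (M.wt a * w) * (s ^ (-(2 * w))) ^ i * (M.E ^ (i + j)) a m := by
  rw [pow_add, Matrix.mul_apply, Finset.mul_sum]
  refine Finset.sum_congr rfl fun m' _ => ?_
  by_cases h : (M.E ^ i) a m' = 0
  · rw [h]
    ring
  · have h1 := hE i a m' h
    have h2 : s ^ (M.wt m' * w) = s ^ (M.wt a * w) * (s ^ (-(2 * w))) ^ i := by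
      rw [h1, ← zpow_natCast (s ^ (-(2 * w))), ← zpow_mul, ← zpow_add₀ hs]
      congr 1
      ring
    rw [h2]
    ring

end HEX2

open HEX2 in
theorem hex2 (he : QEXP_Stmt) (hn : NILP_Stmt) : HEX2_Stmt := by
  intro K _ s hs ι κ ν _ _ _ _ _ _ M N L hM hN hL n n0 l l0 a m
  have hs0 : s ≠ 0 := hs.1
  obtain ⟨hE, -, hE0⟩ := hn K s ι M hM
  set d : K := s ^ (-(2 * N.wt n)) with hd
  set f : ℕ → ℕ → K := fun i j => (M.E ^ (i + j)) a m *
    (aq s i * aq s j * (d ^ i * (N.F ^ j) n n0 * (L.F ^ i) l l0)) with hf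
  have h1 : ∀ k, aq s k * ((tens s N L).F ^ k) (n, l) (n0, l0) =
      ∑ i ∈ Finset.range (k + 1), aq s i * aq s (k - i) *
        (d ^ i * (N.F ^ (k - i)) n n0 * (L.F ^ i) l l0) := by
    intro k
    have h2 := congrFun (congrFun (he K s hs (Matrix (κ × ν) (κ × ν) K) (Y s N L)
      (X (ν := ν) N) (YX s N L hs0 hN) k) (n, l)) (n0, l0)
    rw [← F_eq, Matrix.smul_apply, smul_eq_mul, Matrix.sum_apply] at h2
    rw [h2]
    refine Finset.sum_congr rfl fun i _ => ?_
    rw [Matrix.smul_apply, smul_eq_mul, pow_apply]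
  have h3 : ∑ k ∈ Finset.range (Fintype.card ι), aq s k * (M.E ^ k) a m *
      ((tens s N L).F ^ k) (n, l) (n0, l0) =
      ∑ i ∈ Finset.range (Fintype.card ι), ∑ j ∈ Finset.range (Fintype.card ι), f i j := by
    rw [← sum_tri]
    · refine Finset.sum_congr rfl fun k _ => ?_
      rw [mul_right_comm, h1, mul_comm, Finset.mul_sum]
      refine Finset.sum_congr rfl fun i hi => ?_
      rw [hf]
      simp only
      rw [Nat.add_sub_cancel' (Nat.lt_succ_iff.mp (Finset.mem_range.mp hi))]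
    · intro i j hij
      rw [hf]
      simp only
      rw [(hE0 (i + j) hij).1, Matrix.zero_apply, zero_mul]
  simp only [Rm]
  rw [h3]
  have h4 : (tens s N L).wt (n, l) = N.wt n + L.wt l := rfl
  rw [h4]
  have h5 : ∀ m' : ι,
      s ^ (M.wt a * L.wt l) * (∑ i ∈ Finset.range (Fintype.card ι),
        aq s i * (M.E ^ i) a m' * (L.F ^ i) l l0) *
      (s ^ (M.wt m' * N.wt n) * ∑ j ∈ Finset.range (Fintype.card ι),
        aq s j * (M.E ^ j) m' m * (N.F ^ j) n n0) =
      ∑ i ∈ Finset.range (Fintype.card ι), ∑ j ∈ Finset.range (Fintype.card ι),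
        s ^ (M.wt a * L.wt l) * (aq s i * aq s j * (L.F ^ i) l l0 * (N.F ^ j) n n0) *
          ((M.E ^ i) a m' * s ^ (M.wt m' * N.wt n) * (M.E ^ j) m' m) := by
    intro m'
    rw [mul_assoc, mul_left_comm (∑ i ∈ Finset.range (Fintype.card ι), _), Finset.sum_mul_sum,
      Finset.mul_sum, Finset.mul_sum]
    refine Finset.sum_congr rfl fun i _ => ?_
    rw [Finset.mul_sum, Finset.mul_sum]
    refine Finset.sum_congr rfl fun j _ => ?_
    ring
  simp only [h5]
  rw [Finset.mul_sum, Finset.sum_comm]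
  refine Finset.sum_congr rfl fun i _ => ?_
  rw [Finset.mul_sum, Finset.sum_comm]
  refine Finset.sum_congr rfl fun j _ => ?_
  rw [← Finset.mul_sum, key s hs0 M hE (N.wt n) i j a m, hf]
  simp only
  rw [mul_add, zpow_add₀ hs0]
  ring

end Pool.Agent.IT
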