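import Pool.Agent.IT.Stmts

/-!
# Iterated torus knots, module HEXP: the matrix of a block crossing
-/

set_option linter.unusedSectionVars false

namespace Pool.Agent.IT
open Pool.Agent.LibH11
open scoped BigOperators

namespace HEXP

/-! ### Matrices that act at some positions -/

section emb

variable {A : Type} [CommRing A] {ι : Type} [Fintype ι] [DecidableEq ι]

open Classical in
/-- The matrix that acts by `M` on the positions in the image of `φ`. -/
noncomputable def emb {P Q : Type} (φ : P → Q) (M : Matrix (P → ι) (P → ι) A) :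
    Matrix (Q → ι) (Q → ι) A :=
  fun s t => if ∀ q, (∀ p, φ p ≠ q) → s q = t q then M (s ∘ φ) (t ∘ φ) else 0

variable {P P' Q C : Type} [Fintype P] [DecidableEq P] [Fintype P'] [DecidableEq P']
  [Fintype Q] [DecidableEq Q] [Fintype C] [DecidableEq C]

/-- The entries of a product of matrices acting at positions that cover everything. -/
theorem mul_emb (φ : P → Q) (ψ : P' → Q) (c : C → Q) (M : Matrix (P → ι) (P → ι) A)
    (N : Matrix (P' → ι) (P' → ι) A) (X Y : Q → ι) (G : (C → ι) → Q → ι)
    (h1 : ∀ k x, G k (c x) = k x)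
    (h2 : ∀ k q, (∀ p, φ p ≠ q) → X q = G k q)
    (h3 : ∀ k q, (∀ p, ψ p ≠ q) → G k q = Y q)
    (h4 : ∀ Z : Q → ι, (∀ q, (∀ p, φ p ≠ q) → X q = Z q) →
      (∀ q, (∀ p, ψ p ≠ q) → Z q = Y q) → G (Z ∘ c) = Z) :
    (emb φ M * emb ψ N) X Y = ∑ k : C → ι, M (X ∘ φ) (G k ∘ φ) * N (G k ∘ ψ) (Y ∘ ψ) := by
  classical
  rw [Matrix.mul_apply]
  symm
  refine Fintype.sum_of_injective G ?_ _ _ ?_ ?_
  · intro k k' hk
    funext x
    rw [← h1 k x, hk, h1 k' x]
  · intro Z hZ
    unfold emb
    by_cases e1 : ∀ q, (∀ p, φ p ≠ q) → X q = Z q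
    · by_cases e2 : ∀ q, (∀ p, ψ p ≠ q) → Z q = Y q
      · exact absurd ⟨_, h4 Z e1 e2⟩ hZ
      · rw [if_neg e2, mul_zero]
    · rw [if_neg e1, zero_mul]
  · intro k
    unfold emb
    rw [if_pos (h2 k), if_pos (h3 k)]

theorem emb_mul {φ : P → Q} (hφ : Function.Injective φ) (M N : Matrix (P → ι) (P → ι) A) :
    emb φ (M * N) = emb φ M * emb φ N := by
  classical
  ext s t
  rw [Matrix.mul_apply]
  by_cases h : ∀ q, (∀ p, φ p ≠ q) → s q = t q
  · have e1 : emb φ (M * N) s t = ∑ u : P → ι, M (s ∘ φ) u * N u (t ∘ φ) := by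
      unfold emb
      rw [if_pos h, Matrix.mul_apply]
    rw [e1]
    refine Fintype.sum_of_injective (fun u : P → ι => Function.extend φ u s) ?_ _ _ ?_ ?_
    · intro u u' hu
      funext p
      have h2 := congrFun hu (φ p)
      simp only [hφ.extend_apply] at h2
      exact h2
    · intro Z hZ
      unfold emb
      by_cases e2 : ∀ q, (∀ p, φ p ≠ q) → s q = Z q
      · refine absurd ⟨Z ∘ φ, ?_⟩ hZ
        funext q
        by_cases hq : ∃ p, φ p = q
        · obtain ⟨p, rfl⟩ := hq
          exact hφ.extend_apply _ _ _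
        · simp only
          rw [Function.extend_apply' _ _ _ hq]
          exact e2 q (fun p hp => hq ⟨p, hp⟩)
      · rw [if_neg e2, zero_mul]
    · intro u
      have e3 : (Function.extend φ u s) ∘ φ = u := by
        funext p
        exact hφ.extend_apply _ _ _
      have e4 : ∀ q, (∀ p, φ p ≠ q) → Function.extend φ u s q = s q := by
        intro q hq
        exact Function.extend_apply' _ _ _ (fun ⟨p, hp⟩ => hq p hp)
      unfold emb
      rw [if_pos, if_pos, e3]
      · intro q hq
        rw [e4 q hq]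
        exact h q hq
      · intro q hq
        rw [e4 q hq]
  · have e1 : emb φ (M * N) s t = 0 := by
      unfold emb
      rw [if_neg h]
    rw [e1]
    symm
    refine Finset.sum_eq_zero fun u _ => ?_
    unfold emb
    by_cases e2 : ∀ q, (∀ p, φ p ≠ q) → s q = u q
    · by_cases e3 : ∀ q, (∀ p, φ p ≠ q) → u q = t q
      · exact absurd (fun q hq => (e2 q hq).trans (e3 q hq)) h
      · rw [if_neg e3, mul_zero]
    · rw [if_neg e2, zero_mul]

theorem emb_one {φ : P → Q} : emb φ (1 : Matrix (P → ι) (P → ι) A) = 1 := by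
  classical
  ext s t
  unfold emb
  rw [Matrix.one_apply, Matrix.one_apply]
  by_cases hst : s = t
  · subst hst
    rw [if_pos (fun _ _ => rfl), if_pos rfl, if_pos rfl]
  · rw [if_neg hst]
    by_cases h : ∀ q, (∀ p, φ p ≠ q) → s q = t q
    · rw [if_pos h, if_neg]
      intro h2
      apply hst
      funext q
      by_cases hq : ∃ p, φ p = q
      · obtain ⟨p, rfl⟩ := hq
        exact congrFun h2 p
      · exact h q (fun p hp => hq ⟨p, hp⟩)
    · rw [if_neg h]

omit [Fintype ι] [DecidableEq ι] [Fintype P] [DecidableEq P] [Fintype Q] [DecidableEq Q] in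
theorem emb_atp {φ : P → Q} (hφ : Function.Injective φ) (R : Matrix (ι × ι) (ι × ι) A) (x y : P) :
    emb φ (atp R x y) = atp R (φ x) (φ y) := by
  classical
  ext s t
  unfold emb atp
  by_cases h : ∀ q, q ≠ φ x → q ≠ φ y → s q = t q
  · rw [if_pos h, if_pos, if_pos]
    · rfl
    · intro z hx hy
      exact h (φ z) (fun e => hx (hφ e)) (fun e => hy (hφ e))
    · intro q hq
      exact h q (fun e => hq x e.symm) (fun e => hq y e.symm)
  · rw [if_neg h]
    by_cases h1 : ∀ q, (∀ p, φ p ≠ q) → s q = t q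
    · rw [if_pos h1, if_neg]
      intro h2
      apply h
      intro q hx hy
      by_cases hq : ∃ p, φ p = q
      · obtain ⟨p, rfl⟩ := hq
        exact h2 p (fun e => hx (by rw [e])) (fun e => hy (by rw [e]))
      · exact h1 q (fun p hp => hq ⟨p, hp⟩)
    · rw [if_neg h1]

end emb

/-! ### Words -/

section words

variable {A : Type} [CommRing A] {ι : Type} [Fintype ι] [DecidableEq ι] (T : RData A ι)

theorem op_nil (n : ℕ) : op T n [] = 1 := rfl

theorem op_append (n : ℕ) (u v : Word) : op T n (u ++ v) = op T n u * op T n v := by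
  unfold op
  rw [List.map_append, List.prod_append]

theorem op_cons (n : ℕ) (x : ℕ × Bool) (v : Word) : op T n (x :: v) = opl T n x * op T n v := by
  unfold op
  rw [List.map_cons, List.prod_cons]

theorem op_single (n : ℕ) (x : ℕ × Bool) : op T n [x] = opl T n x := by
  rw [op_cons, op_nil, mul_one]

/-- The positions shifted by `k`. -/
def shp {n n' k : ℕ} (h : n + k ≤ n') (i : Fin (n + 1)) : Fin (n' + 1) := ⟨i + k, by omega⟩

theorem shp_inj {n n' k : ℕ} (h : n + k ≤ n') : Function.Injective (shp h) := by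
  intro i j hij
  have h1 := congrArg Fin.val hij
  unfold shp at h1
  simp only at h1
  exact Fin.ext (by omega)

theorem op_shw {n n' k : ℕ} (h : n + k ≤ n') (w : Word) (hw : Bd n w) :
    op T n' (shw k w) = emb (shp h) (op T n w) := by
  induction w with
  | nil =>
    change op T n' [] = _
    rw [op_nil, op_nil, emb_one]
  | cons x w ih =>
    have h1 : shw k (x :: w) = (x.1 + k, x.2) :: shw k w := rfl
    rw [h1, op_cons, op_cons, emb_mul (shp_inj h), ih fun y hy => hw y (List.mem_cons_of_mem _ hy)]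
    congr 1
    have hx : x.1 < n := hw x List.mem_cons_self
    unfold opl
    rw [dif_pos hx, dif_pos (show (x.1 + k, x.2).1 < n' by simp only; omega), emb_atp (shp_inj h)]
    congr 1
    apply Fin.ext
    unfold shp
    simp only
    omega

theorem op_low {n n' : ℕ} (h : n + 0 ≤ n') (w : Word) (hw : Bd n w) :
    op T n' w = emb (shp h) (op T n w) := by
  have h1 : shw 0 w = w := by
    unfold shw
    simp
  have h2 := op_shw T h w hw
  rwa [h1] at h2

theorem Dw_succ' (b : ℕ) : Dw 0 (b + 1) = shw 1 (Dw 0 b) ++ [(0, true)] := by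
  unfold Dw shw
  rw [List.range_succ, List.map_append, List.map_map]
  congr 1
  · apply List.map_congr_left
    intro i hi
    rw [List.mem_range] at hi
    simp only [Function.comp_apply, Prod.mk.injEq, and_true]
    omega
  · simp

theorem Dw_shift (r b : ℕ) : Dw (r + 1) b = shw 1 (Dw r b) := by
  unfold Dw shw
  rw [List.map_map]
  apply List.map_congr_left
  intro i hi
  rw [List.mem_range] at hi
  simp only [Function.comp_apply, Prod.mk.injEq, and_true]
  omega

theorem Cw_succ' (a b : ℕ) : Cw 0 (a + 1) b = Dw 0 b ++ shw 1 (Cw 0 a b) := by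
  unfold Cw
  rw [List.range_succ_eq_map, List.flatMap_cons]
  congr 1
  rw [List.flatMap_map]
  have h1 : ∀ (l : List ℕ), shw 1 (l.flatMap fun r => Dw (0 + r) b) =
      l.flatMap fun r => Dw (0 + (r + 1)) b := by
    intro l
    induction l with
    | nil => rfl
    | cons r l ih =>
      have h2 : ∀ u v : Word, shw 1 (u ++ v) = shw 1 u ++ shw 1 v := by
        intro u v
        unfold shw
        rw [List.map_append]
      rw [List.flatMap_cons, List.flatMap_cons, h2, ih, ← Dw_shift]
      rfl
  rw [h1]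

theorem bd_Dw (s m : ℕ) : Bd (s + m) (Dw s m) := by
  intro x hx
  unfold Dw at hx
  obtain ⟨i, hi, rfl⟩ := List.mem_map.mp hx
  rw [List.mem_range] at hi
  simp only
  omega

theorem bd_Cw (a b : ℕ) : Bd (a + b) (Cw 0 a (b + 1)) := by
  intro x hx
  unfold Cw at hx
  obtain ⟨r, hr, hx⟩ := List.mem_flatMap.mp hx
  rw [List.mem_range] at hr
  have h := bd_Dw (0 + r) (b + 1) x hx
  omega

end words

/-! ### Transport of weight modules along bijections of the labels -/

section transport

variable {K : Type} [Field K] {s : K}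
variable {ι κ ι' κ' : Type} [Fintype ι] [DecidableEq ι] [Fintype κ] [DecidableEq κ]
  [Fintype ι'] [DecidableEq ι'] [Fintype κ'] [DecidableEq κ']

/-- The bijection of labels identifies the weight modules. -/
structure Rl (M : WM K ι) (M' : WM K ι') (e : ι ≃ ι') : Prop where
  wt : ∀ a, M.wt a = M'.wt (e a)
  E : ∀ a b, M.E a b = M'.E (e a) (e b)
  F : ∀ a b, M.F a b = M'.F (e a) (e b)

theorem pow_tr {X : Matrix ι ι K} {X' : Matrix ι' ι' K} (e : ι ≃ ι')
    (h : ∀ a b, X a b = X' (e a) (e b)) (n : ℕ) : ∀ a b, (X ^ n) a b = (X' ^ n) (e a) (e b) := by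
  induction n with
  | zero =>
    intro a b
    rw [pow_zero, pow_zero, Matrix.one_apply, Matrix.one_apply]
    by_cases hab : a = b
    · rw [if_pos hab, if_pos (by rw [hab])]
    · rw [if_neg hab, if_neg (fun h1 => hab (e.injective h1))]
  | succ n ih =>
    intro a b
    rw [pow_succ, pow_succ, Matrix.mul_apply, Matrix.mul_apply,
      ← e.sum_comp (fun c => (X' ^ n) (e a) c * X' c (e b))]
    exact Finset.sum_congr rfl fun c _ => by rw [ih, h]

theorem Rm_tr {M : WM K ι} {M' : WM K ι'} {N : WM K κ} {N' : WM K κ'} {e : ι ≃ ι'} {f : κ ≃ κ'}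
    (hM : Rl M M' e) (hN : Rl N N' f) (u v : κ) (x y : ι) :
    Rm s M N (u, x) (y, v) = Rm s M' N' (f u, e x) (e y, f v) := by
  unfold Rm
  simp only
  rw [hM.wt, hN.wt, Fintype.card_congr e]
  congr 1
  refine Finset.sum_congr rfl fun n _ => ?_
  rw [pow_tr e hM.E n, pow_tr f hN.F n]

theorem Rl.refl (M : WM K ι) : Rl M M (Equiv.refl ι) := ⟨fun _ => rfl, fun _ _ => rfl, fun _ _ => rfl⟩

/-- Splitting off the first label. -/
def spl (ι : Type) (b : ℕ) : (Fin (b + 1) → ι) ≃ ι × (Fin b → ι) where
  toFun x := (x 0, fun i => x i.succ)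
  invFun y := Fin.cons y.1 y.2
  left_inv x := by
    funext i
    refine Fin.cases ?_ (fun j => ?_) i
    · rfl
    · rfl
  right_inv y := rfl

theorem fpow_cast (M : WM K ι) {c c' : ℕ} (h : c = c') (x u : Fin c' → ι) :
    (fpow s M c).wt (x ∘ Fin.cast h) = (fpow s M c').wt x ∧
    (fpow s M c).E (x ∘ Fin.cast h) (u ∘ Fin.cast h) = (fpow s M c').E x u ∧
    (fpow s M c).F (x ∘ Fin.cast h) (u ∘ Fin.cast h) = (fpow s M c').F x u := by
  subst h
  exact ⟨rfl, rfl, rfl⟩

theorem rl_fpow (hf : FPOWT_Stmt) (hs : Gen s) (M : WM K ι) (b : ℕ) :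
    Rl (fpow s M (b + 1)) (tens s M (fpow s M b)) (spl ι b) := by
  have hf1 := (hf K s hs ι M).1 1 b
  have hf2 := (hf K s hs ι M).2
  have key : ∀ x u : Fin (b + 1) → ι,
      (fpow s M (b + 1)).wt x = (tens s M (fpow s M b)).wt (spl ι b x) ∧
      (fpow s M (b + 1)).E x u = (tens s M (fpow s M b)).E (spl ι b x) (spl ι b u) ∧
      (fpow s M (b + 1)).F x u = (tens s M (fpow s M b)).F (spl ι b x) (spl ι b u) := by
    intro x u
    have e1 : ∀ x : Fin (b + 1) → ι,
        Fin.append (fun _ : Fin 1 => x 0) (fun i : Fin b => x i.succ) =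
          x ∘ Fin.cast (Nat.add_comm 1 b) := by
      intro x
      rw [Fin.append_left_eq_cons]
      congr 1
      funext i
      refine Fin.cases ?_ (fun j => ?_) i
      · rfl
      · rfl
    have h1 := hf1 (fun _ : Fin 1 => x 0) (fun _ : Fin 1 => u 0) (fun i : Fin b => x i.succ)
      (fun i : Fin b => u i.succ)
    rw [e1 x, e1 u] at h1
    have h2 := fpow_cast (s := s) M (Nat.add_comm 1 b) x u
    rw [h2.1, h2.2.1, h2.2.2] at h1
    have h3 := hf2 (fun _ : Fin 1 => x 0) (fun _ : Fin 1 => u 0)
    have h3' := hf2 (fun _ : Fin 1 => u 0) (fun _ : Fin 1 => u 0)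
    have h4 : ((fun _ : Fin 1 => x 0) = (fun _ : Fin 1 => u 0)) ↔ x 0 = u 0 :=
      ⟨fun h => congrFun h 0, fun h => by rw [h]⟩
    refine ⟨?_, ?_, ?_⟩
    · rw [h1.1]
      unfold tens
      simp only
      rw [h3.1]
      rfl
    · rw [h1.2.1]
      unfold tens
      simp only
      rw [h3.2.1]
      simp only [h4]
      rfl
    · rw [h1.2.2]
      unfold tens
      simp only
      rw [h3.2.2, h3'.1]
      simp only [h4]
      rfl
  exact ⟨fun a => (key a a).1, fun a b => (key a b).2.1, fun a b => (key a b).2.2⟩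

end transport

/-! ### The block crossings -/

section cross

variable {K : Type} [Field K] {s : K} {ι κ : Type} [Fintype ι] [DecidableEq ι] [Fintype κ]
  [DecidableEq κ]

theorem aq_zero : aq s 0 = 1 := by
  unfold aq qfac
  simp

/-- The braiding with the unit on the right. -/
theorem Rm_unit (M : WM K ι) (x : Fin 0 → ι) (y : Fin 0 → ι) (a b : ι) :
    Rm s M (fpow s M 0) (x, a) (b, y) = (1 : Matrix ι ι K) a b := by
  have h1 : (fpow s M 0).wt x = 0 := by
    unfold fpow
    simp
  have h2 : (fpow s M 0).F = 0 := by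
    ext u v
    unfold fpow
    simp
  have h3 : 0 < Fintype.card ι := Fintype.card_pos_iff.mpr ⟨a⟩
  unfold Rm
  simp only
  rw [h1, h2, mul_zero, zpow_zero, one_mul, Finset.sum_eq_single 0]
  · rw [aq_zero, pow_zero, pow_zero, Subsingleton.elim x y, Matrix.one_apply_eq]
    ring
  · intro n _ hn
    rw [zero_pow hn, Matrix.zero_apply, mul_zero]
  · intro h
    exact absurd (Finset.mem_range.mpr h3) h

/-- The braiding with the unit on the left. -/
theorem Rm_unit_left (M : WM K ι) (N : WM K κ) (u v : Fin 0 → ι) (x y : κ) :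
    Rm s (fpow s M 0) N (x, u) (v, y) = (1 : Matrix κ κ K) x y := by
  have h1 : (fpow s M 0).wt u = 0 := by
    unfold fpow
    simp
  have h3 : Fintype.card (Fin 0 → ι) = 1 := by
    rw [Fintype.card_fun, Fintype.card_fin, pow_zero]
  unfold Rm
  simp only
  rw [h1, h3, zero_mul, zpow_zero, one_mul, Finset.sum_range_one, aq_zero, pow_zero, pow_zero,
    Subsingleton.elim u v, Matrix.one_apply_eq]
  ring

/-- One strand over `b` strands. -/
theorem cross_one (hf : FPOWT_Stmt) (hk : FPOWOK_Stmt) (h2 : HEX2_Stmt) (hs : Gen s)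
    (M : WM K ι) (hM : Ok s M) (b : ℕ) : ∀ X Y : Fin (b + 1) → ι,
    op (RD s M) b (Dw 0 b) X Y =
      Rm s M (fpow s M b) (fun i : Fin b => X i.castSucc, X (Fin.last b))
        (Y 0, fun i : Fin b => Y i.succ) := by
  induction b with
  | zero =>
    intro X Y
    rw [Rm_unit]
    change op (RD s M) 0 [] X Y = _
    rw [op_nil, Matrix.one_apply, Matrix.one_apply]
    have h1 : X = Y ↔ X (Fin.last 0) = Y 0 := by
      constructor
      · intro h
        rw [h]
        rfl
      · intro h
        funext i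
        have hi : i = Fin.last 0 := Fin.ext (by have := i.2; simp only [Fin.val_last]; omega)
        rw [hi]
        exact h
    simp only [h1]
  | succ b ih =>
    intro X Y
    have hsh : b + 1 ≤ b + 1 := le_refl _
    rw [Dw_succ', op_append, op_single, op_shw (RD s M) hsh (Dw 0 b)
      (fun x hx => by have := bd_Dw 0 b x hx; omega)]
    -- the crossing of the first two strands
    let ψ : Fin 2 → Fin (b + 1 + 1) := fun i => ⟨i, by omega⟩
    have hψ : Function.Injective ψ := by
      intro i j hij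
      have := congrArg Fin.val hij
      exact Fin.ext this
    have e1 : opl (RD s M) (b + 1) (0, true) = emb ψ (atp (RD s M).R 0 1) := by
      rw [emb_atp hψ]
      unfold opl
      rw [dif_pos (by simp)]
      rfl
    rw [e1]
    let G : (Unit → ι) → Fin (b + 1 + 1) → ι := fun k q =>
      if q.val = 0 then X 0 else if q.val = 1 then k () else Y q
    rw [mul_emb (shp hsh) ψ (fun _ : Unit => (⟨1, by omega⟩ : Fin (b + 1 + 1))) _ _ X Y G]
    · rw [Rm_tr (Rl.refl M) (rl_fpow hf hs M b)]
      have e2 := h2 K s hs ι ι (Fin b → ι) M M (fpow s M b) hM hM (hk K s hs ι M hM b)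
        (X 0) (Y 1) (fun i : Fin b => X i.succ.castSucc) (fun i : Fin b => Y i.succ.succ)
        (X (Fin.last (b + 1))) (Y 0)
      refine Eq.trans ?_ e2.symm
      rw [← (Equiv.funUnique Unit ι).sum_comp]
      refine Finset.sum_congr rfl fun k _ => ?_
      rw [ih]
      have e3 : ∀ P Q : Fin 2 → ι, atp (RD s M).R 0 1 P Q = Rm s M M (P 0, P 1) (Q 0, Q 1) := by
        intro P Q
        unfold atp
        rw [if_pos]
        · rfl
        · intro z hz0 hz1
          exfalso
          have := z.2
          rcases Nat.lt_or_ge z.val 1 with h | h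
          · exact hz0 (Fin.ext (by simp only [Fin.val_zero]; omega))
          · exact hz1 (Fin.ext (by simp only [Fin.val_one]; omega))
      rw [e3]
      rfl
    · intro k x
      rfl
    · intro k q hq
      have h0 : q.val = 0 := by
        by_contra h0
        exact hq ⟨q.val - 1, by omega⟩ (Fin.ext (by unfold shp; simp only; omega))
      have h1 : q = 0 := Fin.ext h0
      rw [h1]
      rfl
    · intro k q hq
      have h0 : ¬ q.val = 0 := fun h0 => hq 0 (Fin.ext h0.symm)
      have h1 : ¬ q.val = 1 := fun h1 => hq 1 (Fin.ext h1.symm)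
      change (if q.val = 0 then X 0 else if q.val = 1 then k () else Y q) = Y q
      rw [if_neg h0, if_neg h1]
    · intro Z hZ1 hZ2
      funext q
      change (if q.val = 0 then X 0 else if q.val = 1 then (Z ⟨1, _⟩) else Y q) = Z q
      by_cases h0 : q.val = 0
      · rw [if_pos h0]
        have h1 : q = 0 := Fin.ext h0
        rw [h1]
        refine hZ1 0 ?_
        intro p hp
        have h2 := congrArg Fin.val hp
        unfold shp at h2
        simp only [Fin.val_zero] at h2
        omega
      · rw [if_neg h0]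
        by_cases h1 : q.val = 1
        · rw [if_pos h1]
          congr 1
          exact Fin.ext h1.symm
        · rw [if_neg h1]
          symm
          refine hZ2 q ?_
          intro p hp
          have h2 : p.val = q.val := congrArg Fin.val hp
          have := p.2
          omega

/-- `a` strands over `b + 1` strands. -/
theorem cross_blk (hf : FPOWT_Stmt) (hk : FPOWOK_Stmt) (h1 : HEX1_Stmt) (h2 : HEX2_Stmt)
    (hs : Gen s) (M : WM K ι) (hM : Ok s M) (b : ℕ) : ∀ (a n : ℕ) (h : n = a + b)
    (X Y : Fin (n + 1) → ι), op (RD s M) n (Cw 0 a (b + 1)) X Y =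
      Rm s (fpow s M a) (fpow s M (b + 1))
        (fun i : Fin (b + 1) => X ⟨i, by omega⟩, fun j : Fin a => X ⟨b + 1 + j, by omega⟩)
        (fun j : Fin a => Y ⟨j, by omega⟩, fun i : Fin (b + 1) => Y ⟨a + i, by omega⟩) := by
  intro a
  induction a with
  | zero =>
    intro n h X Y
    obtain rfl : n = b := by omega
    rw [Rm_unit_left]
    change op (RD s M) n [] X Y = _
    rw [op_nil, Matrix.one_apply, Matrix.one_apply]
    have e1 : (fun i : Fin (n + 1) => X ⟨i, by omega⟩) = X := rfl
    have e2 : (fun i : Fin (n + 1) => Y ⟨0 + i, by omega⟩) = Y := by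
      funext i
      exact congrArg Y (Fin.ext (Nat.zero_add _))
    rw [e1, e2]
  | succ a ih =>
    intro n h X Y
    obtain ⟨m, rfl⟩ : ∃ m, n = m + 1 := ⟨a + b, by omega⟩
    have hm : m = a + b := by omega
    have hs0 : (b + 1) + 0 ≤ m + 1 := by omega
    have hs1 : m + 1 ≤ m + 1 := le_refl _
    rw [Cw_succ', op_append, op_low (RD s M) hs0 (Dw 0 (b + 1))
      (fun x hx => by have := bd_Dw 0 (b + 1) x hx; omega),
      op_shw (RD s M) hs1 (Cw 0 a (b + 1)) (fun x hx => by have := bd_Cw a b x hx; omega)]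
    let G : (Fin (b + 1) → ι) → Fin (m + 1 + 1) → ι := fun k q =>
      if q.val = 0 then Y 0 else if hq : q.val - 1 < b + 1 then k ⟨q.val - 1, hq⟩ else X q
    rw [mul_emb (shp hs0) (shp hs1) (fun i : Fin (b + 1) => (⟨i + 1, by omega⟩ : Fin (m + 1 + 1)))
      _ _ X Y G]
    · rw [Rm_tr (rl_fpow hf hs M a) (Rl.refl _)]
      have e2 := h1 K s hs ι (Fin a → ι) (Fin (b + 1) → ι) M (fpow s M a) (fpow s M (b + 1)) hM
        (hk K s hs ι M hM a) (hk K s hs ι M hM (b + 1))
        (fun i : Fin (b + 1) => X ⟨i, by omega⟩)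
        (fun i : Fin (b + 1) => Y ⟨a + 1 + i, by omega⟩)
        (X ⟨b + 1, by omega⟩) (Y 0)
        (fun j : Fin a => X ⟨b + 1 + j + 1, by omega⟩)
        (fun j : Fin a => Y ⟨j + 1, by omega⟩)
      refine Eq.trans ?_ e2.symm
      refine Finset.sum_congr rfl fun k _ => ?_
      rw [ih m hm, cross_one hf hk h2 hs M hM (b + 1)]
      have g0 : G k 0 = Y 0 := rfl
      have g1 : ∀ (i : ℕ) (hi : i < b + 1) (hi' : i + 1 < m + 1 + 1),
          G k ⟨i + 1, hi'⟩ = k ⟨i, hi⟩ := by
        intro i hi hi'
        change (if i + 1 = 0 then Y 0 else if hq : i + 1 - 1 < b + 1 then k ⟨i + 1 - 1, hq⟩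
          else X ⟨i + 1, hi'⟩) = k ⟨i, hi⟩
        rw [if_neg (Nat.succ_ne_zero i), dif_pos (show i + 1 - 1 < b + 1 by omega)]
        rfl
      have g2 : ∀ (j : ℕ) (hj : b + 1 + j + 1 < m + 1 + 1),
          G k ⟨b + 1 + j + 1, hj⟩ = X ⟨b + 1 + j + 1, hj⟩ := by
        intro j hj
        change (if b + 1 + j + 1 = 0 then Y 0 else if hq : b + 1 + j + 1 - 1 < b + 1 then
          k ⟨b + 1 + j + 1 - 1, hq⟩ else X ⟨b + 1 + j + 1, hj⟩) = X ⟨b + 1 + j + 1, hj⟩
        rw [if_neg (Nat.succ_ne_zero _), dif_neg (by omega)]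
      have f1 : (fun i : Fin (b + 1) => (G k ∘ shp hs0) i.succ) = k := by
        funext i
        exact g1 i.val i.2 (by omega)
      have f2 : (fun i : Fin (b + 1) => (G k ∘ shp hs1) ⟨i, by omega⟩) = k := by
        funext i
        exact g1 i.val i.2 (by omega)
      have f3 : (fun j : Fin a => (G k ∘ shp hs1) ⟨b + 1 + j, by omega⟩) =
          fun j : Fin a => X ⟨b + 1 + j + 1, by omega⟩ := by
        funext j
        exact g2 j.val (by omega)
      have f4 : (fun i : Fin (b + 1) => (Y ∘ shp hs1) ⟨a + i, by omega⟩) =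
          fun i : Fin (b + 1) => Y ⟨a + 1 + i, by omega⟩ := by
        funext i
        refine congrArg Y (Fin.ext ?_)
        unfold shp
        simp only
        omega
      rw [f1, f2, f3, f4]
      rfl
    · intro k x
      change (if x.val + 1 = 0 then Y 0 else if hq : x.val + 1 - 1 < b + 1 then
        k ⟨x.val + 1 - 1, hq⟩ else X _) = k x
      rw [if_neg (Nat.succ_ne_zero _), dif_pos (show x.val + 1 - 1 < b + 1 by omega)]
      rfl
    · intro k q hq
      have h3 : ¬ q.val < b + 2 := by
        intro h3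
        exact hq ⟨q.val, h3⟩ (Fin.ext (by unfold shp; simp only; omega))
      change X q = (if q.val = 0 then Y 0 else if hq : q.val - 1 < b + 1 then
        k ⟨q.val - 1, hq⟩ else X q)
      rw [if_neg (by omega), dif_neg (by omega)]
    · intro k q hq
      have h0 : q.val = 0 := by
        by_contra h0
        exact hq ⟨q.val - 1, by omega⟩ (Fin.ext (by unfold shp; simp only; omega))
      have h3 : q = 0 := Fin.ext h0
      rw [h3]
      rfl
    · intro Z hZ1 hZ2
      funext q
      change (if q.val = 0 then Y 0 else if hq : q.val - 1 < b + 1 then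
        Z ⟨q.val - 1 + 1, _⟩ else X q) = Z q
      by_cases h0 : q.val = 0
      · rw [if_pos h0]
        have h3 : q = 0 := Fin.ext h0
        rw [h3]
        symm
        refine hZ2 0 ?_
        intro p hp
        have h4 := congrArg Fin.val hp
        unfold shp at h4
        simp only [Fin.val_zero] at h4
        omega
      · rw [if_neg h0]
        by_cases h3 : q.val - 1 < b + 1
        · rw [dif_pos h3]
          congr 1
          exact Fin.ext (by simp only; omega)
        · rw [dif_neg h3]
          refine hZ1 q ?_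
          intro p hp
          have h4 := congrArg Fin.val hp
          unfold shp at h4
          simp only at h4
          have := p.2
          omega

/-- Splitting families. -/
theorem split_bij (m k n : ℕ) (h : n = m + k) : Function.Bijective
    (fun X : Fin n → ι => ((fun i : Fin m => X ⟨i, by omega⟩, fun j : Fin k => X ⟨m + j, by omega⟩) :
      (Fin m → ι) × (Fin k → ι))) := by
  constructor
  · intro X Y hXY
    have h1 := congrArg Prod.fst hXY
    have h2 := congrArg Prod.snd hXY
    simp only at h1 h2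
    funext q
    by_cases hq : q.val < m
    · exact congrFun h1 ⟨q.val, hq⟩
    · have h3 := congrFun h2 ⟨q.val - m, by omega⟩
      have h4 : (⟨m + (q.val - m), by omega⟩ : Fin n) = q := Fin.ext (by simp only; omega)
      simp only [h4] at h3
      exact h3
  · rintro ⟨u, v⟩
    refine ⟨fun q => if hq : q.val < m then u ⟨q.val, hq⟩ else v ⟨q.val - m, by omega⟩, ?_⟩
    refine Prod.ext ?_ ?_
    · funext i
      exact dif_pos i.2
    · funext j
      simp only
      rw [dif_neg (by omega)]
      exact congrArg v (Fin.ext (by simp only; omega))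

end cross

end HEXP

open HEXP in
/-- The matrix of a block crossing. -/
theorem hexp (_ha : ATP_Stmt) (ho : OPINV_Stmt) (hf : FPOWT_Stmt) (hk : FPOWOK_Stmt)
    (h1 : HEX1_Stmt) (h2 : HEX2_Stmt) (hr : RINV_Stmt) : HEXP_Stmt := by
  intro K _ s hs ι _ _ M hM a b n h X Y
  have hn : n = (a + 1) + b := by omega
  have key : ∀ X Y : Fin (n + 1) → ι, op (RD s M) n (Cw 0 (a + 1) (b + 1)) X Y =
      Rm s (fpow s M (a + 1)) (fpow s M (b + 1))
        (fun i : Fin (b + 1) => X ⟨i, by omega⟩, fun j : Fin (a + 1) => X ⟨b + 1 + j, by omega⟩)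
        (fun j : Fin (a + 1) => Y ⟨j, by omega⟩, fun i : Fin (b + 1) => Y ⟨a + 1 + i, by omega⟩) :=
    fun X Y => cross_blk hf hk h1 h2 hs M hM b (a + 1) n hn X Y
  refine ⟨key X Y, ?_⟩
  -- the inverse
  have hR := hr K s hs ι ι M M hM hM
  have hI := (ho K ι (RD s M) hR.2 hR.1 n (Cw 0 (a + 1) (b + 1))).1
  have hRB := (hr K s hs (Fin (a + 1) → ι) (Fin (b + 1) → ι) (fpow s M (a + 1))
    (fpow s M (b + 1)) (hk K s hs ι M hM (a + 1)) (hk K s hs ι M hM (b + 1))).1
  let Out : (Fin (n + 1) → ι) → (Fin (b + 1) → ι) × (Fin (a + 1) → ι) := fun X =>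
    (fun i : Fin (b + 1) => X ⟨i, by omega⟩, fun j : Fin (a + 1) => X ⟨b + 1 + j, by omega⟩)
  let In : (Fin (n + 1) → ι) → (Fin (a + 1) → ι) × (Fin (b + 1) → ι) := fun Y =>
    (fun j : Fin (a + 1) => Y ⟨j, by omega⟩, fun i : Fin (b + 1) => Y ⟨a + 1 + i, by omega⟩)
  have hOut : Function.Bijective Out := split_bij (b + 1) (a + 1) (n + 1) (by omega)
  have hIn : Function.Bijective In := split_bij (a + 1) (b + 1) (n + 1) (by omega)
  let B : Matrix (Fin (n + 1) → ι) (Fin (n + 1) → ι) K := fun Y X =>
    Rm' s (fpow s M (a + 1)) (fpow s M (b + 1)) (In Y) (Out X)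
  have hB : B * op (RD s M) n (Cw 0 (a + 1) (b + 1)) = 1 := by
    ext Y Y'
    rw [Matrix.mul_apply]
    have e1 : ∀ X, B Y X * op (RD s M) n (Cw 0 (a + 1) (b + 1)) X Y' =
        Rm' s (fpow s M (a + 1)) (fpow s M (b + 1)) (In Y) (Out X) *
          Rm s (fpow s M (a + 1)) (fpow s M (b + 1)) (Out X) (In Y') := by
      intro X
      rw [key X Y']
    rw [Finset.sum_congr rfl fun X _ => e1 X,
      hOut.sum_comp (fun z => Rm' s (fpow s M (a + 1)) (fpow s M (b + 1)) (In Y) z *
        Rm s (fpow s M (a + 1)) (fpow s M (b + 1)) z (In Y')), ← Matrix.mul_apply, hRB,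
      Matrix.one_apply, Matrix.one_apply]
    by_cases hY : Y = Y'
    · rw [if_pos hY, if_pos (by rw [hY])]
    · rw [if_neg hY, if_neg (fun e => hY (hIn.1 e))]
  have hBeq : op (RD s M) n (iw (Cw 0 (a + 1) (b + 1))) = B := by
    rw [← one_mul (op (RD s M) n (iw (Cw 0 (a + 1) (b + 1)))), ← hB, mul_assoc, hI, mul_one]
  rw [hBeq]

end Pool.Agent.IT
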