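import Pool.Agent.IT.Stmts

/-!
# Base change of braiding data

Module JMAP: `JMAP_Stmt`.
-/

namespace Pool.Agent.IT
open Pool.Agent.LibH11
open scoped BigOperators

namespace JMAP

variable {A C : Type} [CommRing A] [CommRing C] (φ : A →+* C) {ι : Type} [Fintype ι]
  [DecidableEq ι] (T : RData A ι)

theorem opl_map (n : ℕ) (x : ℕ × Bool) : (opl T n x).map φ = opl (T.map φ) n x := by
  classical
  unfold opl
  by_cases h : x.1 < n
  · rw [dif_pos h, dif_pos h]
    ext s t
    rw [Matrix.map_apply]
    unfold atp
    by_cases h2 : x.2 = true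
    · rw [if_pos h2, if_pos h2]
      split_ifs
      · rfl
      · exact map_zero φ
    · rw [if_neg h2, if_neg h2]
      split_ifs
      · rfl
      · exact map_zero φ
  · rw [dif_neg h, dif_neg h]
    exact Matrix.map_one φ (map_zero φ) (map_one φ)

theorem op_map (n : ℕ) (w : Word) : (op T n w).map φ = op (T.map φ) n w := by
  classical
  induction w with
  | nil =>
    change (1 : Matrix (Fin (n + 1) → ι) (Fin (n + 1) → ι) A).map φ = 1
    exact Matrix.map_one φ (map_zero φ) (map_one φ)
  | cons x w ih =>
    have h1 : op T n (x :: w) = opl T n x * op T n w := by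
      unfold op
      rw [List.map_cons, List.prod_cons]
    have h2 : op (T.map φ) n (x :: w) = opl (T.map φ) n x * op (T.map φ) n w := by
      unfold op
      rw [List.map_cons, List.prod_cons]
    rw [h1, h2, Matrix.map_mul, opl_map, ih]

theorem Jfr_map (n : ℕ) (w : Word) : φ (Jfr T n w) = Jfr (T.map φ) n w := by
  classical
  unfold Jfr
  rw [map_sum]
  refine Finset.sum_congr rfl fun s _ => ?_
  rw [map_mul, map_prod, ← op_map]
  rfl

theorem J_map (θ : Aˣ) (n : ℕ) (w : Word) :
    φ (J T θ n w) = J (T.map φ) (Units.map (φ : A →* C) θ) n w := by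
  classical
  unfold J
  rw [map_mul, Jfr_map, ← map_zpow]
  rfl

end JMAP

theorem jmap : JMAP_Stmt := by
  intro A C _ _ φ ι _ _ T θ n w
  exact ⟨JMAP.op_map φ T n w, JMAP.J_map φ T θ n w⟩

end Pool.Agent.IT
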