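import Pool.Agent.IT.Stmts

/-!
# LEADEQ: the first two terms of the functional equation
-/

set_option autoImplicit false

namespace Pool.Agent.IT

open PowerSeries
open scoped BigOperators

namespace LEADEQ

theorem coeff_cw (L : ℚ⟦X⟧ →ₗ[ℚ] ℚ⟦X⟧) (F : B) (k : ℕ) :
    coeff k (cw L F) = L (coeff k F) := by
  unfold cw
  rw [coeff_mk]

theorem coeff_sh_zero (t : ℚ) (F : B) : coeff 0 (sh t F) = coeff 0 F := by
  unfold sh xp
  rw [coeff_mk]
  simp

theorem coeff_sh_one (t : ℚ) (F : B) :
    coeff 1 (sh t F) = coeff 1 F + t • dz (coeff 0 F) := by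
  unfold sh xp
  rw [coeff_mk, Finset.sum_range_succ, Finset.sum_range_succ, Finset.sum_range_zero]
  simp

end LEADEQ

open LEADEQ in
theorem leadeq : LEADEQ_Stmt := by
  intro p q F F' h
  unfold FunEq at h
  constructor
  · have h0 := congrArg (coeff 0) h
    rw [map_sub, map_sub] at h0
    simp only [coeff_cw, coeff_sh_zero] at h0
    unfold ml at h0
    simp only [LinearMap.mulLeft_apply] at h0
    linear_combination h0
  · have h1 := congrArg (coeff 1) h
    rw [map_sub, map_sub] at h1
    simp only [coeff_cw, coeff_sh_one] at h1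
    unfold ml at h1
    simp only [LinearMap.mulLeft_apply, map_add, one_smul, neg_smul, map_neg] at h1
    linear_combination h1

end Pool.Agent.IT
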