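import Pool.Agent.IT.Stmts

/-!
# Iterated torus knots: the braiding data of the simple modules are integral
-/

namespace Pool.Agent.IT
open Pool.Agent.LibH11
open scoped BigOperators
open PowerSeries

namespace LIFT

/-- `x` is the image of a power series with constant coefficient `c`. -/
def IsInt (x : KQ) (c : ℚ) : Prop := ∃ f : ℚ⟦X⟧, toK f = x ∧ constantCoeff f = c

lemma zero : IsInt 0 0 := ⟨0, map_zero _, map_zero _⟩
lemma one : IsInt 1 1 := ⟨1, map_one _, map_one _⟩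

lemma add {x y : KQ} {c d : ℚ} (h : IsInt x c) (h' : IsInt y d) : IsInt (x + y) (c + d) := by
  obtain ⟨f, rfl, rfl⟩ := h
  obtain ⟨g, rfl, rfl⟩ := h'
  exact ⟨f + g, map_add _ _ _, map_add _ _ _⟩

lemma mul {x y : KQ} {c d : ℚ} (h : IsInt x c) (h' : IsInt y d) : IsInt (x * y) (c * d) := by
  obtain ⟨f, rfl, rfl⟩ := h
  obtain ⟨g, rfl, rfl⟩ := h'
  exact ⟨f * g, map_mul _ _ _, map_mul _ _ _⟩

lemma neg {x : KQ} {c : ℚ} (h : IsInt x c) : IsInt (-x) (-c) := by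
  obtain ⟨f, rfl, rfl⟩ := h
  exact ⟨-f, map_neg _ _, map_neg _ _⟩

lemma sub {x y : KQ} {c d : ℚ} (h : IsInt x c) (h' : IsInt y d) : IsInt (x - y) (c - d) := by
  obtain ⟨f, rfl, rfl⟩ := h
  obtain ⟨g, rfl, rfl⟩ := h'
  exact ⟨f - g, map_sub _ _ _, map_sub _ _ _⟩

lemma pow {x : KQ} {c : ℚ} (h : IsInt x c) (n : ℕ) : IsInt (x ^ n) (c ^ n) := by
  obtain ⟨f, rfl, rfl⟩ := h
  exact ⟨f ^ n, map_pow _ _ _, map_pow _ _ _⟩

lemma sum {α : Type} (S : Finset α) (x : α → KQ) (c : α → ℚ) (h : ∀ i ∈ S, IsInt (x i) (c i)) :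
    IsInt (∑ i ∈ S, x i) (∑ i ∈ S, c i) := by
  classical
  induction S using Finset.induction_on with
  | empty => simpa using zero
  | insert a S ha ih =>
    rw [Finset.sum_insert ha, Finset.sum_insert ha]
    exact add (h a (Finset.mem_insert_self _ _))
      (ih fun i hi => h i (Finset.mem_insert_of_mem hi))

lemma prod {α : Type} (S : Finset α) (x : α → KQ) (c : α → ℚ) (h : ∀ i ∈ S, IsInt (x i) (c i)) :
    IsInt (∏ i ∈ S, x i) (∏ i ∈ S, c i) := by
  classical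
  induction S using Finset.induction_on with
  | empty => simpa using one
  | insert a S ha ih =>
    rw [Finset.prod_insert ha, Finset.prod_insert ha]
    exact mul (h a (Finset.mem_insert_self _ _))
      (ih fun i hi => h i (Finset.mem_insert_of_mem hi))

lemma inv {x : KQ} {c : ℚ} (h : IsInt x c) (hc : c ≠ 0) : IsInt x⁻¹ c⁻¹ := by
  obtain ⟨f, rfl, rfl⟩ := h
  have h1 : f * f⁻¹ = 1 := PowerSeries.mul_inv_cancel f hc
  refine ⟨f⁻¹, ?_, PowerSeries.constantCoeff_inv f⟩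
  have h2 : toK f * toK f⁻¹ = 1 := by rw [← map_mul, h1, map_one]
  exact (inv_eq_of_mul_eq_one_right h2).symm

lemma spow (he : ESER_Stmt) (k : ℤ) : IsInt (sQ ^ k) 1 := by
  obtain ⟨-, -, h3, h4, -⟩ := he
  exact ⟨E (k / 2), (h4 k).symm, h3 _⟩

lemma qn_nat (he : ESER_Stmt) (hq : QNUM_Stmt) (n : ℕ) : IsInt (qn sQ (n : ℤ)) (n : ℚ) := by
  have hg : Gen sQ := he.2.2.2.2.1
  obtain ⟨-, -, h0, h1, -, -, h6⟩ := hq KQ sQ hg
  induction n with
  | zero =>
    rw [Nat.cast_zero, h0, Nat.cast_zero]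
    exact zero
  | succ n ih =>
    have h7 := h6 (n : ℤ) 1
    rw [Nat.cast_succ, h7, Nat.cast_succ, h1]
    have h8 := add (mul ih (spow he (2 * 1))) (mul (spow he (-(2 * (n : ℤ)))) one)
    rw [mul_one (n : ℚ), mul_one (1 : ℚ)] at h8
    exact h8

lemma qn_int (he : ESER_Stmt) (hq : QNUM_Stmt) (w : ℤ) : IsInt (qn sQ w) (w : ℚ) := by
  have hg : Gen sQ := he.2.2.2.2.1
  obtain ⟨-, -, -, -, h5, -, -⟩ := hq KQ sQ hg
  obtain ⟨n, rfl | rfl⟩ := Int.eq_nat_or_neg w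
  · have := qn_nat he hq n
    rw [Int.cast_natCast]
    exact this
  · rw [h5]
    have := neg (qn_nat he hq n)
    rw [Int.cast_neg, Int.cast_natCast]
    exact this

lemma qfac_int (he : ESER_Stmt) (hq : QNUM_Stmt) (n : ℕ) :
    ∃ c : ℚ, c ≠ 0 ∧ (n = 0 → c = 1) ∧ IsInt (qfac sQ n) c := by
  refine ⟨∏ i ∈ Finset.range n, ((((i : ℤ) + 1 : ℤ)) : ℚ), ?_, ?_, ?_⟩
  · rw [Finset.prod_ne_zero_iff]
    intro i _
    have : ((i : ℤ) + 1) ≠ 0 := by omega
    exact_mod_cast this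
  · rintro rfl
    simp
  · exact prod _ _ _ fun i _ => qn_int he hq _

lemma dif (he : ESER_Stmt) : IsInt (sQ ^ (2 : ℤ) - sQ ^ (-2 : ℤ)) 0 := by
  have := sub (spow he 2) (spow he (-2))
  rwa [sub_self] at this

lemma aq_int (he : ESER_Stmt) (hq : QNUM_Stmt) (n : ℕ) :
    IsInt (aq sQ n) (if n = 0 then 1 else 0) := by
  obtain ⟨c, hc, hc0, h⟩ := qfac_int he hq n
  have h1 := mul (mul (spow he ((n : ℤ) * (n - 1))) (pow (dif he) n)) (inv h hc)
  unfold aq
  rw [div_eq_mul_inv]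
  by_cases hn : n = 0
  · rw [if_pos hn]
    rw [hc0 hn] at h1
    rw [hn] at h1 ⊢
    simpa using h1
  · rw [if_neg hn]
    rw [zero_pow hn, mul_zero, zero_mul] at h1
    exact h1

lemma aq'_int (he : ESER_Stmt) (hq : QNUM_Stmt) (n : ℕ) :
    IsInt (aq' sQ n) (if n = 0 then 1 else 0) := by
  obtain ⟨c, hc, hc0, h⟩ := qfac_int he hq n
  have hd : IsInt (sQ ^ (-2 : ℤ) - sQ ^ (2 : ℤ)) 0 := by
    have := sub (spow he (-2)) (spow he 2)
    rwa [sub_self] at this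
  have h1 := mul (mul (spow he (-((n : ℤ) * (n - 1)))) (pow hd n)) (inv h hc)
  unfold aq'
  rw [div_eq_mul_inv]
  by_cases hn : n = 0
  · rw [if_pos hn]
    rw [hc0 hn] at h1
    rw [hn] at h1 ⊢
    simpa using h1
  · rw [if_neg hn]
    rw [zero_pow hn, mul_zero, zero_mul] at h1
    exact h1

lemma ite_zero_int {P : Prop} [Decidable P] {x : KQ} {c : ℚ} (h : IsInt x c) :
    ∃ d, IsInt (if P then x else 0) d := by
  by_cases hP : P
  · exact ⟨c, by rw [if_pos hP]; exact h⟩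
  · exact ⟨0, by rw [if_neg hP]; exact zero⟩

/-- Powers of a matrix with integral entries. -/
lemma mpow {N : ℕ} (Y : Matrix (Fin N) (Fin N) KQ) (hY : ∀ a b, ∃ c, IsInt (Y a b) c) (n : ℕ)
    (a b : Fin N) : ∃ c, (n = 0 → c = if a = b then 1 else 0) ∧ IsInt ((Y ^ n) a b) c := by
  induction n generalizing a b with
  | zero =>
    refine ⟨if a = b then 1 else 0, fun _ => rfl, ?_⟩
    rw [pow_zero, Matrix.one_apply]
    split_ifs
    · exact one
    · exact zero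
  | succ n ih =>
    rw [pow_succ, Matrix.mul_apply]
    choose c hc using fun k => ih a k
    choose d hd using fun k => hY k b
    exact ⟨∑ k, c k * d k, fun h => absurd h (Nat.succ_ne_zero n),
      sum _ _ _ fun k _ => mul (hc k).2 (hd k)⟩

lemma VE (he : ESER_Stmt) (hq : QNUM_Stmt) (N : ℕ) (a b : Fin N) :
    ∃ c, IsInt ((V sQ N).E a b) c := ite_zero_int (qn_int he hq _)

lemma VF (he : ESER_Stmt) (hq : QNUM_Stmt) (N : ℕ) (a b : Fin N) :
    ∃ c, IsInt ((V sQ N).F a b) c := ite_zero_int (qn_int he hq _)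

/-- The sum over `n`. -/
lemma term (N : ℕ) (hN : 0 < N) (α : ℕ → KQ) (hα : ∀ n, IsInt (α n) (if n = 0 then 1 else 0))
    (x y : ℕ → KQ) (P Q : Prop) [Decidable P] [Decidable Q]
    (hx : ∀ n, ∃ c, (n = 0 → c = if P then (1 : ℚ) else 0) ∧ IsInt (x n) c)
    (hy : ∀ n, ∃ c, (n = 0 → c = if Q then (1 : ℚ) else 0) ∧ IsInt (y n) c) :
    IsInt (∑ n ∈ Finset.range N, α n * x n * y n) (if P ∧ Q then 1 else 0) := by
  choose c hc using hx
  choose d hd using hy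
  have h1 := sum (Finset.range N) (fun n => α n * x n * y n)
    (fun n => (if n = 0 then 1 else 0) * c n * d n)
    (fun n _ => mul (mul (hα n) (hc n).2) (hd n).2)
  have h2 : ∑ n ∈ Finset.range N, (if n = 0 then (1 : ℚ) else 0) * c n * d n =
      if P ∧ Q then 1 else 0 := by
    rw [Finset.sum_eq_single 0]
    · rw [if_pos rfl, (hc 0).1 rfl, (hd 0).1 rfl, one_mul]
      by_cases hP : P <;> by_cases hQ : Q <;> simp [hP, hQ]
    · intro n _ hn
      rw [if_neg hn, zero_mul, zero_mul]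
    · intro h
      exact absurd (Finset.mem_range.2 hN) h
  rw [h2] at h1
  exact h1

lemma Rm_int (he : ESER_Stmt) (hq : QNUM_Stmt) (N : ℕ) (x y : Fin N × Fin N) :
    IsInt (Rm sQ (V sQ N) (V sQ N) x y) (if x.1 = y.2 ∧ x.2 = y.1 then 1 else 0) := by
  have hN : 0 < Fintype.card (Fin N) := Fintype.card_pos_iff.2 ⟨x.1⟩
  have h1 := term (Fintype.card (Fin N)) hN (aq sQ) (aq_int he hq)
    (fun n => ((V sQ N).E ^ n) x.2 y.1) (fun n => ((V sQ N).F ^ n) x.1 y.2)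
    (x.2 = y.1) (x.1 = y.2)
    (fun n => mpow _ (VE he hq N) n x.2 y.1) (fun n => mpow _ (VF he hq N) n x.1 y.2)
  have h2 := mul (spow he ((V sQ N).wt x.2 * (V sQ N).wt x.1)) h1
  rw [one_mul] at h2
  have h3 : (if x.2 = y.1 ∧ x.1 = y.2 then (1 : ℚ) else 0) =
      if x.1 = y.2 ∧ x.2 = y.1 then 1 else 0 := if_congr and_comm rfl rfl
  rw [h3] at h2
  exact h2

lemma Rm'_int (he : ESER_Stmt) (hq : QNUM_Stmt) (N : ℕ) (x y : Fin N × Fin N) :
    IsInt (Rm' sQ (V sQ N) (V sQ N) x y) (if x.1 = y.2 ∧ x.2 = y.1 then 1 else 0) := by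
  have hN : 0 < Fintype.card (Fin N) := Fintype.card_pos_iff.2 ⟨x.1⟩
  have h1 := term (Fintype.card (Fin N)) hN (aq' sQ) (aq'_int he hq)
    (fun n => ((V sQ N).E ^ n) x.1 y.2) (fun n => ((V sQ N).F ^ n) x.2 y.1)
    (x.1 = y.2) (x.2 = y.1)
    (fun n => mpow _ (VE he hq N) n x.1 y.2) (fun n => mpow _ (VF he hq N) n x.2 y.1)
  have h2 := mul h1 (spow he (-((V sQ N).wt y.2 * (V sQ N).wt y.1)))
  rw [mul_one] at h2
  exact h2

end LIFT

theorem lift_mod (he : ESER_Stmt) (hq : QNUM_Stmt) : LIFT_Stmt := by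
  intro N
  choose R hR using LIFT.Rm_int he hq N
  choose R' hR' using LIFT.Rm'_int he hq N
  choose κ hκ using fun i : Fin N => LIFT.spow he (2 * (V sQ N).wt i)
  refine ⟨⟨R, R', κ⟩, ?_, fun x y => (hR x y).2, fun x y => (hR' x y).2, fun i => (hκ i).2⟩
  have h1 : Matrix.map (R : Matrix (Fin N × Fin N) (Fin N × Fin N) ℚ⟦X⟧) toK =
      Rm sQ (V sQ N) (V sQ N) := by
    ext x y
    exact (hR x y).1
  have h2 : Matrix.map (R' : Matrix (Fin N × Fin N) (Fin N × Fin N) ℚ⟦X⟧) toK =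
      Rm' sQ (V sQ N) (V sQ N) := by
    ext x y
    exact (hR' x y).1
  have h3 : (fun i => toK (κ i)) = fun i => sQ ^ (2 * (V sQ N).wt i) :=
    funext fun i => (hκ i).1
  unfold RData.map RD
  rw [h1, h2, h3]

end Pool.Agent.IT
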