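import Pool.Agent.IT.Stmts

set_option linter.unusedSectionVars false

/-!
# Module MARK: the knot invariant of good braiding data
-/

namespace Pool.Agent.IT
open Pool.Agent.LibH11
open scoped BigOperators

namespace MARK

/-- The exponent sum. -/
def es (n : ℕ) : Br n →* Multiplicative ℤ :=
  liftBr (fun _ => Multiplicative.ofAdd (1 : ℤ)) (fun _ _ _ => mul_comm _ _) (fun _ _ _ => rfl)

theorem es_sg {n : ℕ} (i : Fin n) : es n (sg i) = Multiplicative.ofAdd 1 := by
  unfold es
  rw [liftBr_sg]

theorem es_incl {n : ℕ} (b : Br n) : es (n + 1) (incl b) = es n b := by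
  induction b using br_ind with
  | h1 => simp
  | hs i => rw [incl_sg, es_sg, es_sg]
  | hm x y hx hy => rw [map_mul, map_mul, map_mul, hx, hy]
  | hi x hx => rw [map_inv, map_inv, map_inv, hx]

theorem es_ev {n : ℕ} {w : Word} (h : Bd n w) :
    es n (ev n w) = Multiplicative.ofAdd (wr w) := by
  induction w with
  | nil => simp [wr_nil]
  | cons x w ih =>
    have hx : x.1 < n := h x List.mem_cons_self
    have h1 : wr (x :: w) = (if x.2 then (1 : ℤ) else -1) + wr w := by
      unfold wr
      simp
    rw [ev_cons, map_mul, ih fun y hy => h y (List.mem_cons_of_mem _ hy), h1, ofAdd_add]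
    congr 1
    rcases x with ⟨i, e⟩
    cases e
    · rw [gen_false, map_inv, gen_true hx, es_sg]
      rfl
    · rw [gen_true hx, es_sg]
      rfl

section

variable {A : Type} [CommRing A] {ι : Type} [Fintype ι] [DecidableEq ι] (T : RData A ι)

/-- The weight of a colouring. -/
def kp {n : ℕ} (s : Fin (n + 1) → ι) : A := ∏ i, T.κ (s i)

theorem kp_snoc {n : ℕ} (t : Fin (n + 1) → ι) (c : ι) :
    kp T (Fin.snoc t c : Fin (n + 2) → ι) = kp T t * T.κ c := by
  unfold kp
  rw [Fin.prod_univ_castSucc]
  simp only [Fin.snoc_castSucc, Fin.snoc_last]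

omit [Fintype ι] [DecidableEq ι] in
theorem atp_comm {P : Type} [Fintype P] (X : Matrix (ι × ι) (ι × ι) A)
    (hX : ∀ a b c d, T.κ a * T.κ b * X (a, b) (c, d) = X (a, b) (c, d) * (T.κ c * T.κ d))
    (x y : P) (hxy : x ≠ y) (s t : P → ι) :
    (∏ i, T.κ (s i)) * atp X x y s t = atp X x y s t * ∏ i, T.κ (t i) := by
  classical
  unfold atp
  split_ifs with h
  · have h1 : ∀ s : P → ι, ∏ i, T.κ (s i) =
        T.κ (s x) * (T.κ (s y) * ∏ i ∈ (Finset.univ.erase x).erase y, T.κ (s i)) := by
      intro s
      rw [Finset.mul_prod_erase (Finset.univ.erase x) (fun i => T.κ (s i))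
        (Finset.mem_erase.mpr ⟨hxy.symm, Finset.mem_univ y⟩),
        Finset.mul_prod_erase Finset.univ (fun i => T.κ (s i)) (Finset.mem_univ x)]
    have h2 : ∏ i ∈ (Finset.univ.erase x).erase y, T.κ (s i) =
        ∏ i ∈ (Finset.univ.erase x).erase y, T.κ (t i) := by
      apply Finset.prod_congr rfl
      intro i hi
      rw [Finset.mem_erase, Finset.mem_erase] at hi
      rw [h i hi.2.1 hi.1]
    rw [h1 s, h1 t, h2]
    have h3 := hX (s x) (s y) (t x) (t y)
    linear_combination (∏ i ∈ (Finset.univ.erase x).erase y, T.κ (t i)) * h3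
  · simp

variable {T} in
theorem comm' {θ : Aˣ} (hT : Good T θ) (a b c d : ι) :
    T.κ a * T.κ b * T.R' (a, b) (c, d) = T.R' (a, b) (c, d) * (T.κ c * T.κ d) := by
  set D : Matrix (ι × ι) (ι × ι) A := Matrix.diagonal fun p => T.κ p.1 * T.κ p.2 with hD
  have h1 : D * T.R = T.R * D := by
    ext ⟨a, b⟩ ⟨c, d⟩
    rw [hD, Matrix.diagonal_mul, Matrix.mul_diagonal]
    exact hT.comm a b c d
  have h2 : D * T.R' = T.R' * D := by
    calc D * T.R' = (T.R' * T.R) * (D * T.R') := by rw [hT.inv_mul, one_mul]
      _ = T.R' * (D * T.R) * T.R' := by rw [h1]; simp only [mul_assoc]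
      _ = T.R' * D * (T.R * T.R') := by simp only [mul_assoc]
      _ = T.R' * D := by rw [hT.mul_inv, mul_one]
  have h3 := congrFun (congrFun h2 (a, b)) (c, d)
  rw [hD, Matrix.diagonal_mul, Matrix.mul_diagonal] at h3
  exact h3

variable {T} in
theorem opl_comm {θ : Aˣ} (hT : Good T θ) (n : ℕ) (x : ℕ × Bool) :
    Matrix.diagonal (kp T) * opl T n x = opl T n x * Matrix.diagonal (kp T) := by
  unfold opl
  split_ifs with h h'
  · ext s t
    rw [Matrix.diagonal_mul, Matrix.mul_diagonal]
    exact atp_comm T T.R hT.comm _ _ (by simp) s t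
  · ext s t
    rw [Matrix.diagonal_mul, Matrix.mul_diagonal]
    exact atp_comm T T.R' (comm' hT) _ _ (by simp) s t
  · rw [mul_one, one_mul]

theorem op_nil (n : ℕ) : op T n [] = 1 := rfl

theorem op_cons (n : ℕ) (x : ℕ × Bool) (w : Word) : op T n (x :: w) = opl T n x * op T n w := by
  unfold op
  rw [List.map_cons, List.prod_cons]

theorem op_append (n : ℕ) (u w : Word) : op T n (u ++ w) = op T n u * op T n w := by
  unfold op
  rw [List.map_append, List.prod_append]

variable {T} in
theorem op_comm {θ : Aˣ} (hT : Good T θ) (n : ℕ) (w : Word) :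
    Matrix.diagonal (kp T) * op T n w = op T n w * Matrix.diagonal (kp T) := by
  induction w with
  | nil => rw [op_nil, mul_one, one_mul]
  | cons x w ih => rw [op_cons, ← mul_assoc, opl_comm hT, mul_assoc, ih, mul_assoc]

/-- The trace. -/
def tr {n : ℕ} (M : Matrix (Fin (n + 1) → ι) (Fin (n + 1) → ι) A) : A := ∑ s, M s s * kp T s

theorem tr_eq {n : ℕ} (M : Matrix (Fin (n + 1) → ι) (Fin (n + 1) → ι) A) :
    tr T M = (M * Matrix.diagonal (kp T)).trace := by
  unfold tr Matrix.trace
  simp only [Matrix.diag_apply, Matrix.mul_diagonal]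

variable {T} in
theorem tr_conj {θ : Aˣ} (hT : Good T θ) {n : ℕ} (w : Word)
    (M N : Matrix (Fin (n + 1) → ι) (Fin (n + 1) → ι) A) (h : N * op T n w = 1)
    (h' : op T n w * N = 1) :
    tr T (op T n w * M * N) = tr T M := by
  rw [tr_eq, tr_eq]
  have h1 : N * Matrix.diagonal (kp T) = Matrix.diagonal (kp T) * N := by
    calc N * Matrix.diagonal (kp T) =
        N * (Matrix.diagonal (kp T) * op T n w) * N := by
          rw [mul_assoc, mul_assoc, h', mul_one]
      _ = (N * op T n w) * (Matrix.diagonal (kp T) * N) := by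
          rw [op_comm hT]
          simp only [mul_assoc]
      _ = Matrix.diagonal (kp T) * N := by rw [h, one_mul]
  rw [mul_assoc, h1, Matrix.trace_mul_comm, mul_assoc, ← mul_assoc N, h, one_mul,
    Matrix.trace_mul_comm]

theorem sum_snoc {n : ℕ} (F : (Fin (n + 2) → ι) → A) :
    ∑ s, F s = ∑ t : Fin (n + 1) → ι, ∑ c : ι, F (Fin.snoc t c) := by
  rw [← Equiv.sum_comp (Fin.snocEquiv (fun _ : Fin (n + 2) => ι)) F]
  rw [Fintype.sum_prod_type, Finset.sum_comm]
  rfl

theorem opl_snoc {n : ℕ} (x : ℕ × Bool) (hx : x.1 < n) (s t : Fin (n + 1) → ι) (c d : ι) :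
    opl T (n + 1) x (Fin.snoc s c : Fin (n + 2) → ι) (Fin.snoc t d : Fin (n + 2) → ι) =
      if c = d then opl T n x s t else 0 := by
  unfold opl
  rw [dif_pos hx, dif_pos (Nat.lt_succ_of_lt hx)]
  unfold atp
  have e1 : ∀ (s : Fin (n + 1) → ι) (c : ι),
      (Fin.snoc s c : Fin (n + 2) → ι) (⟨x.1, Nat.lt_succ_of_lt (Nat.lt_succ_of_lt hx)⟩ :
        Fin (n + 2)) = s ⟨x.1, Nat.lt_succ_of_lt hx⟩ := by
    intro s c
    exact Fin.snoc_castSucc (α := fun _ => ι) c s ⟨x.1, Nat.lt_succ_of_lt hx⟩
  have e2 : ∀ (s : Fin (n + 1) → ι) (c : ι),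
      (Fin.snoc s c : Fin (n + 2) → ι) (⟨x.1 + 1, Nat.succ_lt_succ (Nat.lt_succ_of_lt hx)⟩ :
        Fin (n + 2)) = s ⟨x.1 + 1, Nat.succ_lt_succ hx⟩ := by
    intro s c
    exact Fin.snoc_castSucc (α := fun _ => ι) c s ⟨x.1 + 1, Nat.succ_lt_succ hx⟩
  rw [e1, e1, e2, e2]
  by_cases hcd : c = d
  · rw [if_pos hcd]
    congr 1
    apply propext
    constructor
    · intro h z hz1 hz2
      have h3 := h z.castSucc (by
        intro h4
        apply hz1
        apply Fin.ext
        have := congrArg Fin.val h4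
        simpa using this) (by
        intro h4
        apply hz2
        apply Fin.ext
        have := congrArg Fin.val h4
        simpa using this)
      simpa only [Fin.snoc_castSucc] using h3
    · intro h z hz1 hz2
      induction z using Fin.lastCases with
      | last => rw [Fin.snoc_last, Fin.snoc_last, hcd]
      | cast z =>
        rw [Fin.snoc_castSucc, Fin.snoc_castSucc]
        apply h z
        · intro h4
          apply hz1
          rw [h4]
          rfl
        · intro h4
          apply hz2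
          rw [h4]
          rfl
  · rw [if_neg hcd, if_neg]
    intro h
    apply hcd
    have h3 := h (Fin.last (n + 1)) (by
      intro h4
      have := congrArg Fin.val h4
      simp only [Fin.val_last] at this
      omega) (by
      intro h4
      have := congrArg Fin.val h4
      simp only [Fin.val_last] at this
      omega)
    rwa [Fin.snoc_last, Fin.snoc_last] at h3

theorem op_snoc {n : ℕ} (u : Word) (hu : Bd n u) (s t : Fin (n + 1) → ι) (c d : ι) :
    op T (n + 1) u (Fin.snoc s c : Fin (n + 2) → ι) (Fin.snoc t d : Fin (n + 2) → ι) =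
      if c = d then op T n u s t else 0 := by
  induction u generalizing s c with
  | nil =>
    rw [op_nil, op_nil, Matrix.one_apply, Matrix.one_apply]
    have h1 : (Fin.snoc s c : Fin (n + 2) → ι) = Fin.snoc t d ↔ c = d ∧ s = t := by
      constructor
      · intro h
        constructor
        · have := congrFun h (Fin.last (n + 1))
          rwa [Fin.snoc_last, Fin.snoc_last] at this
        · funext i
          have := congrFun h i.castSucc
          rwa [Fin.snoc_castSucc, Fin.snoc_castSucc] at this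
      · rintro ⟨rfl, rfl⟩
        rfl
    by_cases h2 : c = d
    · rw [if_pos h2]
      by_cases h3 : s = t
      · rw [if_pos h3, if_pos (h1.mpr ⟨h2, h3⟩)]
      · rw [if_neg h3, if_neg fun h => h3 (h1.mp h).2]
    · rw [if_neg h2, if_neg fun h => h2 (h1.mp h).1]
  | cons x u ih =>
    have hx : x.1 < n := hu x List.mem_cons_self
    have hu' : Bd n u := fun y hy => hu y (List.mem_cons_of_mem _ hy)
    rw [op_cons, op_cons, Matrix.mul_apply, Matrix.mul_apply, sum_snoc]
    have h1 : ∀ (r : Fin (n + 1) → ι) (c' : ι),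
        opl T (n + 1) x (Fin.snoc s c : Fin (n + 2) → ι) (Fin.snoc r c') *
          op T (n + 1) u (Fin.snoc r c' : Fin (n + 2) → ι) (Fin.snoc t d) =
        if c' = c then (if c = d then opl T n x s r * op T n u r t else 0) else 0 := by
      intro r c'
      rw [opl_snoc T x hx, ih hu']
      by_cases h2 : c = c'
      · subst h2
        rw [if_pos rfl, if_pos rfl]
        split_ifs
        · rfl
        · rw [mul_zero]
      · rw [if_neg h2, if_neg (Ne.symm h2), zero_mul]
    simp only [h1, Finset.sum_ite_eq', Finset.mem_univ, if_true]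
    split_ifs
    · rfl
    · exact Finset.sum_const_zero

theorem tr_stab {n : ℕ} (u : Word) (hu : Bd n u) (X : Matrix (ι × ι) (ι × ι) A) (c0 : A)
    (hX : ∀ a c : ι, ∑ b, X (a, b) (c, b) * T.κ b = if a = c then c0 else 0)
    (h1 : n < n + 2) (h2 : n + 1 < n + 2) :
    tr T (op T (n + 1) u * atp X (⟨n, h1⟩ : Fin (n + 2)) ⟨n + 1, h2⟩) =
      c0 * tr T (op T n u) := by
  classical
  unfold tr
  rw [sum_snoc, Finset.mul_sum]
  refine Finset.sum_congr rfl fun t _ => ?_
  have e1 : ∀ (s : Fin (n + 1) → ι) (c : ι),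
      (Fin.snoc s c : Fin (n + 2) → ι) (⟨n, h1⟩ : Fin (n + 2)) = s (Fin.last n) := by
    intro s c
    exact Fin.snoc_castSucc (α := fun _ => ι) c s (Fin.last n)
  have e2 : ∀ (s : Fin (n + 1) → ι) (c : ι),
      (Fin.snoc s c : Fin (n + 2) → ι) (⟨n + 1, h2⟩ : Fin (n + 2)) = c := by
    intro s c
    exact Fin.snoc_last (α := fun _ => ι) c s
  have e3 : ∀ (r t : Fin (n + 1) → ι) (c d : ι),
      (∀ z : Fin (n + 2), z ≠ ⟨n, h1⟩ → z ≠ ⟨n + 1, h2⟩ →
        (Fin.snoc r c : Fin (n + 2) → ι) z = (Fin.snoc t d : Fin (n + 2) → ι) z) ↔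
      ∀ z : Fin (n + 1), z ≠ Fin.last n → r z = t z := by
    intro r t c d
    constructor
    · intro h z hz
      have h3 := h z.castSucc (by
        intro h4
        apply hz
        apply Fin.ext
        have := congrArg Fin.val h4
        simpa using this) (by
        intro h4
        have := congrArg Fin.val h4
        simp only [Fin.val_castSucc] at this
        omega)
      rwa [Fin.snoc_castSucc, Fin.snoc_castSucc] at h3
    · intro h z hz1 hz2
      induction z using Fin.lastCases with
      | last => exact absurd rfl hz2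
      | cast z =>
        rw [Fin.snoc_castSucc, Fin.snoc_castSucc]
        apply h z
        intro h4
        apply hz1
        rw [h4]
        rfl
  have e4 : ∀ c : ι, (op T (n + 1) u * atp X (⟨n, h1⟩ : Fin (n + 2)) ⟨n + 1, h2⟩)
      (Fin.snoc t c : Fin (n + 2) → ι) (Fin.snoc t c) * kp T (Fin.snoc t c : Fin (n + 2) → ι) =
      ∑ r : Fin (n + 1) → ι, (op T n u t r * kp T t *
        if ∀ z : Fin (n + 1), z ≠ Fin.last n → r z = t z then
          X (r (Fin.last n), c) (t (Fin.last n), c) * T.κ c else 0) := by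
    intro c
    rw [Matrix.mul_apply, sum_snoc, Finset.sum_mul]
    refine Finset.sum_congr rfl fun r _ => ?_
    rw [Finset.sum_mul, Finset.sum_eq_single c]
    · rw [op_snoc T u hu, if_pos rfl, kp_snoc]
      unfold atp
      rw [e1, e1, e2, e2]
      by_cases h5 : ∀ z : Fin (n + 1), z ≠ Fin.last n → r z = t z
      · rw [if_pos h5, if_pos ((e3 r t c c).mpr h5)]
        ring
      · rw [if_neg h5, if_neg fun h => h5 ((e3 r t c c).mp h)]
        ring
    · intro c' _ hc'
      rw [op_snoc T u hu, if_neg (Ne.symm hc'), zero_mul, zero_mul]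
    · intro h
      exact absurd (Finset.mem_univ c) h
  rw [Finset.sum_congr rfl fun c _ => e4 c, Finset.sum_comm]
  have e5 : ∀ r : Fin (n + 1) → ι, ∑ c : ι, (op T n u t r * kp T t *
        if ∀ z : Fin (n + 1), z ≠ Fin.last n → r z = t z then
          X (r (Fin.last n), c) (t (Fin.last n), c) * T.κ c else 0) =
      if r = t then c0 * (op T n u t t * kp T t) else 0 := by
    intro r
    by_cases h5 : ∀ z : Fin (n + 1), z ≠ Fin.last n → r z = t z
    · simp only [if_pos h5]
      rw [← Finset.mul_sum, hX]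
      by_cases h6 : r (Fin.last n) = t (Fin.last n)
      · have h7 : r = t := by
          funext z
          by_cases hz : z = Fin.last n
          · rw [hz, h6]
          · exact h5 z hz
        rw [if_pos h6, if_pos h7, h7]
        ring
      · rw [if_neg h6, if_neg, mul_zero]
        intro h7
        exact h6 (by rw [h7])
    · simp only [if_neg h5, mul_zero, Finset.sum_const_zero]
      rw [if_neg]
      rintro rfl
      exact h5 fun z _ => rfl
  rw [Finset.sum_congr rfl fun r _ => e5 r]
  simp

end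

end MARK

open MARK

/-- MARK. -/
theorem mark (_ha : ATP_Stmt) (hr : REP_Stmt) : MARK_Stmt := by
  intro A _ ι _ _ T θ hT
  choose ρ hρ using hr A ι T θ hT
  -- the function on braids
  let f : ∀ n : ℕ, Br n → A := fun n b =>
    ((θ ^ (-(Multiplicative.toAdd (es n b))) : Aˣ) : A) *
      tr T ((ρ n b : (Matrix (Fin (n + 1) → ι) (Fin (n + 1) → ι) A)ˣ) :
        Matrix (Fin (n + 1) → ι) (Fin (n + 1) → ι) A)
  have hf : ∀ (n : ℕ) (b : Br n), f n b =
    ((θ ^ (-(Multiplicative.toAdd (es n b))) : Aˣ) : A) *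
      tr T ((ρ n b : (Matrix (Fin (n + 1) → ι) (Fin (n + 1) → ι) A)ˣ) :
        Matrix (Fin (n + 1) → ι) (Fin (n + 1) → ι) A) := fun _ _ => rfl
  have hconj : ∀ (n : ℕ) (a b : Br n), f n b = f n (a * b * a⁻¹) := by
    intro n a b
    rw [hf, hf]
    have h1 : es n (a * b * a⁻¹) = es n b := by
      rw [map_mul, map_mul, map_inv, mul_comm (es n a), mul_assoc, mul_inv_cancel, mul_one]
    rw [h1]
    congr 1
    obtain ⟨w, _, rfl⟩ := exists_word a
    rw [map_mul, map_mul, map_inv, Units.val_mul, Units.val_mul]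
    symm
    rw [hρ n w]
    apply tr_conj hT w
    · rw [← hρ n w, Units.inv_mul]
    · rw [← hρ n w, Units.mul_inv]
  have hstab : ∀ (n : ℕ) (b : Br n) (e : Bool),
      f n b = f (n + 1) (incl b * gen (n + 1) (n, e)) := by
    intro n b e
    rw [hf, hf]
    obtain ⟨w, hw, rfl⟩ := exists_word b
    have h1 : incl (ev n w) * gen (n + 1) (n, e) = ev (n + 1) (w ++ [(n, e)]) := by
      rw [incl_ev hw, ev_append, ev_single]
    have hw1 : Bd (n + 1) (w ++ [(n, e)]) := by
      apply (hw.mono (Nat.le_succ n)).append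
      intro x hx
      rw [List.mem_singleton] at hx
      rw [hx]
      exact Nat.lt_succ_self n
    rw [h1, hρ, hρ, es_ev hw, es_ev hw1, wr_append]
    simp only [toAdd_ofAdd]
    have h2 : op T (n + 1) (w ++ [(n, e)]) = op T (n + 1) w *
        atp (if e then T.R else T.R') (⟨n, by omega⟩ : Fin (n + 2)) ⟨n + 1, by omega⟩ := by
      rw [op_append, op_cons, op_nil, mul_one]
      congr 1
      unfold opl
      rw [dif_pos (Nat.lt_succ_self n)]
    rw [h2]
    cases e
    · rw [if_neg Bool.false_ne_true, tr_stab T w hw _ _ (fun a c => hT.trace' a c)]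
      have h3 : wr [(n, false)] = -1 := by
        simp [wr]
      rw [h3, ← mul_assoc, ← Units.val_mul]
      congr 2
      rw [neg_add, neg_neg, zpow_add, zpow_one, mul_assoc, mul_inv_cancel, mul_one]
    · rw [if_pos rfl, tr_stab T w hw _ _ (fun a c => hT.trace a c)]
      have h3 : wr [(n, true)] = 1 := by
        simp [wr]
      rw [h3, ← mul_assoc, ← Units.val_mul]
      congr 2
      rw [neg_add, zpow_add, zpow_neg_one, mul_assoc, inv_mul_cancel, mul_one]
  have hlast : ∀ n : ℕ, gen (n + 1) (n, true) = sg (Fin.last n) := fun n =>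
    gen_true (Nat.lt_succ_self n)
  refine ⟨Quot.lift (fun x : KnotBraid => f x.1.1 x.1.2) ?_, ?_⟩
  · rintro ⟨x, hx⟩ ⟨y, hy⟩ h
    simp only at h
    cases h with
    | conj n x b => exact hconj n x b
    | stabPos n b =>
      have := hstab n b true
      rw [hlast] at this
      exact this
    | stabNeg n b =>
      have := hstab n b false
      rw [gen_false, hlast] at this
      exact this
  · intro n w h hw
    change f n (ev n w) = _
    rw [hf, hρ, es_ev hw]
    rfl

end Pool.Agent.IT
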