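import Pool.Agent.IT.Stmts

/-!
# MOP: braids act by morphisms on the tensor powers of a weight module
-/

namespace Pool.Agent.IT
open Pool.Agent.LibH11
open scoped BigOperators

namespace MOP

set_option linter.unusedSectionVars false

section Mor

variable {K ι κ ν : Type} [Field K] [Fintype ι] [DecidableEq ι] [Fintype κ] [DecidableEq κ]
  [Fintype ν] [DecidableEq ν]

lemma mor_one (M : WM K ι) : Mor M M (1 : Matrix ι ι K) where
  wt b a h := by
    by_contra hne
    exact h (Matrix.one_apply_ne fun hba => hne (by rw [hba]))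
  E := by rw [Matrix.mul_one, Matrix.one_mul]
  F := by rw [Matrix.mul_one, Matrix.one_mul]

lemma mor_mul {M : WM K ι} {N : WM K κ} {L : WM K ν} {f : Matrix κ ι K} {g : Matrix ν κ K}
    (hg : Mor N L g) (hf : Mor M N f) : Mor M L (g * f) where
  wt b a h := by
    rw [Matrix.mul_apply] at h
    obtain ⟨c, -, hc⟩ := Finset.exists_ne_zero_of_sum_ne_zero h
    exact (hg.wt b c (left_ne_zero_of_mul hc)).trans (hf.wt c a (right_ne_zero_of_mul hc))
  E := by rw [← Matrix.mul_assoc, hg.E, Matrix.mul_assoc, hf.E, Matrix.mul_assoc]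
  F := by rw [← Matrix.mul_assoc, hg.F, Matrix.mul_assoc, hf.F, Matrix.mul_assoc]

end Mor

section Pos

variable {K ι P : Type} [Field K] [Fintype ι] [DecidableEq ι] [Fintype P] [DecidableEq P]

lemma atp_apply_pos (R : Matrix (ι × ι) (ι × ι) K) (x y : P) (s t : P → ι)
    (h : ∀ z, z ≠ x → z ≠ y → s z = t z) : atp R x y s t = R (s x, s y) (t x, t y) := by
  unfold atp
  exact if_pos h

lemma atp_apply_neg (R : Matrix (ι × ι) (ι × ι) K) (x y : P) (s t : P → ι)
    (h : ¬ ∀ z, z ≠ x → z ≠ y → s z = t z) : atp R x y s t = 0 := by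
  unfold atp
  exact if_neg h

lemma at1_apply_pos (X : Matrix ι ι K) (x : P) (s t : P → ι)
    (h : ∀ z, z ≠ x → s z = t z) : at1 X x s t = X (s x) (t x) := by
  unfold at1
  exact if_pos h

lemma at1_apply_neg (X : Matrix ι ι K) (x : P) (s t : P → ι)
    (h : ¬ ∀ z, z ≠ x → s z = t z) : at1 X x s t = 0 := by
  unfold at1
  exact if_neg h

/-- Matrices at the same two positions multiply. -/
lemma atp_mul (R S : Matrix (ι × ι) (ι × ι) K) {x y : P} (hxy : x ≠ y) :
    atp R x y * atp S x y = atp (R * S) x y := by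
  ext s t
  by_cases h : ∀ z, z ≠ x → z ≠ y → s z = t z
  · rw [atp_apply_pos _ _ _ _ _ h, Matrix.mul_apply, Matrix.mul_apply]
    symm
    refine Fintype.sum_of_injective
      (fun a : ι × ι => Function.update (Function.update s x a.1) y a.2) ?_ _ _ ?_ ?_
    · intro a b hab
      have h1 := congrFun hab x
      have h2 := congrFun hab y
      simp only [Function.update_self, Function.update_of_ne hxy] at h1 h2
      exact Prod.ext h1 h2
    · intro u hu
      by_cases h1 : ∀ z, z ≠ x → z ≠ y → s z = u z
      · exfalso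
        refine hu ⟨(u x, u y), ?_⟩
        funext z
        by_cases hz : z = y
        · subst hz
          simp
        · by_cases hz' : z = x
          · subst hz'
            simp [Function.update_of_ne hz]
          · simp [Function.update_of_ne hz, Function.update_of_ne hz', h1 z hz' hz]
      · rw [atp_apply_neg _ _ _ _ _ h1, zero_mul]
    · intro a
      have e1 : Function.update (Function.update s x a.1) y a.2 x = a.1 := by
        simp [Function.update_of_ne hxy]
      have e2 : Function.update (Function.update s x a.1) y a.2 y = a.2 := by simp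
      have e3 : ∀ z, z ≠ x → z ≠ y → Function.update (Function.update s x a.1) y a.2 z = s z := by
        intro z hz hz'
        simp [Function.update_of_ne hz, Function.update_of_ne hz']
      rw [atp_apply_pos R x y s _ fun z hz hz' => (e3 z hz hz').symm,
        atp_apply_pos S x y _ t fun z hz hz' => (e3 z hz hz').trans (h z hz hz'), e1, e2]
  · rw [atp_apply_neg _ _ _ _ _ h, Matrix.mul_apply]
    refine Finset.sum_eq_zero fun u _ => ?_
    by_cases h1 : ∀ z, z ≠ x → z ≠ y → s z = u z
    · by_cases h2 : ∀ z, z ≠ x → z ≠ y → u z = t z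
      · exact absurd (fun z hz hz' => (h1 z hz hz').trans (h2 z hz hz')) h
      · rw [atp_apply_neg _ _ _ _ _ h2, mul_zero]
    · rw [atp_apply_neg _ _ _ _ _ h1, zero_mul]

/-- Matrices at different positions commute. -/
lemma at1_atp (X : Matrix ι ι K) (R : Matrix (ι × ι) (ι × ι) K) {x y z : P} (hx : z ≠ x)
    (hy : z ≠ y) : at1 X z * atp R x y = atp R x y * at1 X z := by
  ext s t
  rw [Matrix.mul_apply, Matrix.mul_apply]
  have e1 : ∀ l, l ≠ z → Function.update s z (t z) l = s l := fun l hl => by
    rw [Function.update_of_ne hl]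
  have e2 : ∀ l, l ≠ z → Function.update t z (s z) l = t l := fun l hl => by
    rw [Function.update_of_ne hl]
  rw [Finset.sum_eq_single (Function.update s z (t z)), Finset.sum_eq_single
    (Function.update t z (s z))]
  · by_cases h : ∀ l, l ≠ x → l ≠ y → l ≠ z → s l = t l
    · rw [at1_apply_pos X z s _ fun l hl => (e1 l hl).symm,
        atp_apply_pos R x y _ t ?_, atp_apply_pos R x y s _ ?_,
        at1_apply_pos X z _ t fun l hl => e2 l hl, Function.update_self, Function.update_self,
        e1 x hx.symm, e1 y hy.symm, e2 x hx.symm, e2 y hy.symm, mul_comm]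
      · intro l hl hl'
        by_cases hz : l = z
        · subst hz
          rw [Function.update_self]
        · rw [e2 l hz, h l hl hl' hz]
      · intro l hl hl'
        by_cases hz : l = z
        · subst hz
          rw [Function.update_self]
        · rw [e1 l hz, h l hl hl' hz]
    · rw [atp_apply_neg R x y _ t ?_, atp_apply_neg R x y s _ ?_, mul_zero, zero_mul]
      · intro h'
        exact h fun l h1 h2 h3 => (h' l h1 h2).trans (e2 l h3)
      · intro h'
        exact h fun l h1 h2 h3 => (e1 l h3).symm.trans (h' l h1 h2)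
  · intro u _ hu
    by_cases h1 : ∀ l, l ≠ z → u l = t l
    · rw [atp_apply_neg R x y s u ?_, zero_mul]
      intro h2
      refine hu ?_
      funext l
      by_cases hz : l = z
      · subst hz
        rw [Function.update_self, h2 l hx hy]
      · rw [e2 l hz, h1 l hz]
    · rw [at1_apply_neg X z u t h1, mul_zero]
  · intro h
    exact absurd (Finset.mem_univ _) h
  · intro u _ hu
    by_cases h1 : ∀ l, l ≠ z → s l = u l
    · rw [atp_apply_neg R x y u t ?_, mul_zero]
      intro h2
      refine hu ?_
      funext l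
      by_cases hz : l = z
      · subst hz
        rw [Function.update_self, h2 l hx hy]
      · rw [e1 l hz, h1 l hz]
    · rw [at1_apply_neg X z s u h1, zero_mul]
  · intro h
    exact absurd (Finset.mem_univ _) h

/-- The matrix at two positions commutes with diagonal matrices that do not see it. -/
lemma atp_diag (S : Matrix (ι × ι) (ι × ι) K) (x y : P) (φ : (P → ι) → K)
    (h : ∀ s t, atp S x y s t ≠ 0 → φ s = φ t) :
    Matrix.diagonal φ * atp S x y = atp S x y * Matrix.diagonal φ := by
  ext s t
  rw [Matrix.diagonal_mul, Matrix.mul_diagonal]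
  by_cases h0 : atp S x y s t = 0
  · rw [h0, mul_zero, zero_mul]
  · rw [h s t h0, mul_comm]

/-- The sum of all matrices commutes with the matrix at two positions. -/
lemma comm_total (X : Matrix ι ι K) (Y S : Matrix (ι × ι) (ι × ι) K) {x y : P} (hxy : x ≠ y)
    (φ : P → (P → ι) → K) (χ : (P → ι) → K)
    (hpair : at1 X x * Matrix.diagonal (φ x) + at1 X y * Matrix.diagonal (φ y) =
      atp Y x y * Matrix.diagonal χ) (hYS : Y * S = S * Y)
    (hχ : ∀ s t, atp S x y s t ≠ 0 → χ s = χ t)
    (hφ : ∀ z, z ≠ x → z ≠ y → ∀ s t, atp S x y s t ≠ 0 → φ z s = φ z t) :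
    (∑ z, at1 X z * Matrix.diagonal (φ z)) * atp S x y =
      atp S x y * ∑ z, at1 X z * Matrix.diagonal (φ z) := by
  have hsum : ∑ z, at1 X z * Matrix.diagonal (φ z) = atp Y x y * Matrix.diagonal χ +
      ∑ z ∈ (Finset.univ.erase x).erase y, at1 X z * Matrix.diagonal (φ z) := by
    rw [← hpair, ← Finset.add_sum_erase Finset.univ _ (Finset.mem_univ x),
      ← Finset.add_sum_erase (Finset.univ.erase x) _
        (Finset.mem_erase.2 ⟨hxy.symm, Finset.mem_univ y⟩), add_assoc]
  rw [hsum, add_mul, mul_add]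
  congr 1
  · rw [Matrix.mul_assoc, atp_diag S x y χ hχ, ← Matrix.mul_assoc, atp_mul Y S hxy, hYS,
      ← atp_mul S Y hxy, Matrix.mul_assoc]
  · rw [Finset.sum_mul, Finset.mul_sum]
    refine Finset.sum_congr rfl fun z hz => ?_
    rw [Finset.mem_erase, Finset.mem_erase] at hz
    rw [Matrix.mul_assoc, atp_diag S x y (φ z) (hφ z hz.2.1 hz.1), ← Matrix.mul_assoc,
      at1_atp X S hz.2.1 hz.1, Matrix.mul_assoc]

/-- Sums of weights over sets of positions that contain both or none of the two positions. -/
lemma sum_wt (M : WM K ι) (σ : K) (S : Matrix (ι × ι) (ι × ι) K)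
    (hS : ∀ a b, S a b ≠ 0 → (tens σ M M).wt a = (tens σ M M).wt b) {x y : P} (hxy : x ≠ y)
    (A : Finset P) (hA : x ∈ A ↔ y ∈ A) (s t : P → ι) (h : atp S x y s t ≠ 0) :
    ∑ l ∈ A, M.wt (s l) = ∑ l ∈ A, M.wt (t l) := by
  have h1 : ∀ z, z ≠ x → z ≠ y → s z = t z := by
    by_contra h1
    exact h (atp_apply_neg _ _ _ _ _ h1)
  rw [atp_apply_pos _ _ _ _ _ h1] at h
  have h2 : M.wt (s x) + M.wt (s y) = M.wt (t x) + M.wt (t y) := hS _ _ h
  by_cases hx : x ∈ A
  · have hy := hA.1 hx
    have hyx : y ∈ A.erase x := Finset.mem_erase.2 ⟨hxy.symm, hy⟩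
    rw [← Finset.add_sum_erase A _ hx, ← Finset.add_sum_erase (A.erase x) _ hyx,
      ← Finset.add_sum_erase A (fun l => M.wt (t l)) hx,
      ← Finset.add_sum_erase (A.erase x) (fun l => M.wt (t l)) hyx, ← add_assoc, ← add_assoc, h2]
    congr 1
    refine Finset.sum_congr rfl fun l hl => ?_
    rw [Finset.mem_erase, Finset.mem_erase] at hl
    rw [h1 l hl.2.1 hl.1]
  · have hy : y ∉ A := fun hy => hx (hA.2 hy)
    refine Finset.sum_congr rfl fun l hl => ?_
    rw [h1 l (fun h => hx (h ▸ hl)) fun h => hy (h ▸ hl)]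

end Pos

section Main

variable {K ι : Type} [Field K] [Fintype ι] [DecidableEq ι]

/-- The factor of `E` at the position `k`. -/
noncomputable def fE (s : K) (M : WM K ι) {c : ℕ} (k : Fin c) (y : Fin c → ι) : K :=
  s ^ (2 * ∑ l ∈ Finset.univ.filter (fun l => k < l), M.wt (y l))

/-- The factor of `F` at the position `k`. -/
noncomputable def fF (s : K) (M : WM K ι) {c : ℕ} (k : Fin c) (y : Fin c → ι) : K :=
  s ^ (-(2 * ∑ l ∈ Finset.univ.filter (fun l => l < k), M.wt (y l)))

lemma fpow_E (s : K) (M : WM K ι) (c : ℕ) :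
    (fpow s M c).E = ∑ k : Fin c, at1 M.E k * Matrix.diagonal (fE s M k) := by
  ext x y
  rw [Matrix.sum_apply]
  show (∑ k : Fin c, if ∀ l, l ≠ k → x l = y l then
    M.E (x k) (y k) * s ^ (2 * ∑ l ∈ Finset.univ.filter (fun l => k < l), M.wt (y l)) else 0) = _
  refine Finset.sum_congr rfl fun k _ => ?_
  rw [Matrix.mul_diagonal]
  by_cases h : ∀ l, l ≠ k → x l = y l
  · rw [if_pos h, at1_apply_pos _ _ _ _ h]
    rfl
  · rw [if_neg h, at1_apply_neg _ _ _ _ h, zero_mul]

lemma fpow_F (s : K) (M : WM K ι) (c : ℕ) :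
    (fpow s M c).F = ∑ k : Fin c, at1 M.F k * Matrix.diagonal (fF s M k) := by
  ext x y
  rw [Matrix.sum_apply]
  show (∑ k : Fin c, if ∀ l, l ≠ k → x l = y l then
    s ^ (-(2 * ∑ l ∈ Finset.univ.filter (fun l => l < k), M.wt (y l))) * M.F (x k) (y k)
      else 0) = _
  refine Finset.sum_congr rfl fun k _ => ?_
  rw [Matrix.mul_diagonal]
  by_cases h : ∀ l, l ≠ k → x l = y l
  · rw [if_pos h, at1_apply_pos _ _ _ _ h, mul_comm]
    rfl
  · rw [if_neg h, at1_apply_neg _ _ _ _ h, zero_mul]

/-- The filter above `i` is the filter above `i + 1` together with `i + 1`. -/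
lemma filter_gt {c : ℕ} (i j : Fin c) (hij : (j : ℕ) = i + 1) :
    Finset.univ.filter (fun l => i < l) = insert j (Finset.univ.filter (fun l => j < l)) := by
  ext l
  simp only [Finset.mem_filter, Finset.mem_univ, true_and, Finset.mem_insert, Fin.lt_def,
    Fin.ext_iff]
  omega

lemma filter_lt {c : ℕ} (i j : Fin c) (hij : (j : ℕ) = i + 1) :
    Finset.univ.filter (fun l => l < j) = insert i (Finset.univ.filter (fun l => l < i)) := by
  ext l
  simp only [Finset.mem_filter, Finset.mem_univ, true_and, Finset.mem_insert, Fin.lt_def,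
    Fin.ext_iff]
  omega

lemma fE_succ {s : K} (hs : s ≠ 0) (M : WM K ι) {c : ℕ} (i j : Fin c) (hij : (j : ℕ) = i + 1)
    (y : Fin c → ι) : fE s M i y = s ^ (2 * M.wt (y j)) * fE s M j y := by
  unfold fE
  rw [filter_gt i j hij, Finset.sum_insert (by simp), mul_add, zpow_add₀ hs]

lemma fF_succ {s : K} (hs : s ≠ 0) (M : WM K ι) {c : ℕ} (i j : Fin c) (hij : (j : ℕ) = i + 1)
    (y : Fin c → ι) : fF s M j y = s ^ (-(2 * M.wt (y i))) * fF s M i y := by
  unfold fF
  rw [filter_lt i j hij, Finset.sum_insert (by simp), mul_add, neg_add, zpow_add₀ hs]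

lemma off_iff {c : ℕ} {i j : Fin c} (x y : Fin c → ι) :
    (∀ l, l ≠ i → x l = y l) ↔ (∀ l, l ≠ i → l ≠ j → x l = y l) ∧ (i ≠ j → x j = y j) := by
  constructor
  · intro h
    exact ⟨fun l hl _ => h l hl, fun hij => h j hij.symm⟩
  · rintro ⟨h1, h2⟩ l hl
    by_cases hj : l = j
    · subst hj
      exact h2 hl.symm
    · exact h1 l hl hj

lemma pair_E {s : K} (hs : s ≠ 0) (M : WM K ι) {c : ℕ} (i j : Fin c) (hij : (j : ℕ) = i + 1) :
    at1 M.E i * Matrix.diagonal (fE s M i) + at1 M.E j * Matrix.diagonal (fE s M j) =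
      atp (tens s M M).E i j * Matrix.diagonal (fE s M j) := by
  have hne : i ≠ j := by
    intro h
    rw [h] at hij
    omega
  ext x y
  rw [Matrix.add_apply, Matrix.mul_diagonal, Matrix.mul_diagonal, Matrix.mul_diagonal,
    fE_succ hs M i j hij]
  by_cases h : ∀ l, l ≠ i → l ≠ j → x l = y l
  · rw [atp_apply_pos _ _ _ _ _ h]
    have h1 : at1 M.E i x y = if x j = y j then M.E (x i) (y i) else 0 := by
      by_cases hj : x j = y j
      · rw [if_pos hj, at1_apply_pos]
        exact (off_iff (j := j) x y).2 ⟨h, fun _ => hj⟩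
      · rw [if_neg hj, at1_apply_neg]
        intro h'
        exact hj (h' j hne.symm)
    have h2 : at1 M.E j x y = if x i = y i then M.E (x j) (y j) else 0 := by
      by_cases hi : x i = y i
      · rw [if_pos hi, at1_apply_pos]
        exact (off_iff (j := i) x y).2 ⟨fun l h1 h2 => h l h2 h1, fun _ => hi⟩
      · rw [if_neg hi, at1_apply_neg]
        intro h'
        exact hi (h' i hne)
    rw [h1, h2]
    show _ = ((if x j = y j then M.E (x i) (y i) * s ^ (2 * M.wt (y j)) else 0) +
      (if x i = y i then M.E (x j) (y j) else 0)) * _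
    split_ifs <;> ring
  · rw [atp_apply_neg _ _ _ _ _ h, at1_apply_neg, at1_apply_neg]
    · ring
    · intro h'
      exact h fun l _ h2 => h' l h2
    · intro h'
      exact h fun l h1 _ => h' l h1

lemma pair_F {s : K} (hs : s ≠ 0) (M : WM K ι) {c : ℕ} (i j : Fin c) (hij : (j : ℕ) = i + 1) :
    at1 M.F i * Matrix.diagonal (fF s M i) + at1 M.F j * Matrix.diagonal (fF s M j) =
      atp (tens s M M).F i j * Matrix.diagonal (fF s M i) := by
  have hne : i ≠ j := by
    intro h
    rw [h] at hij
    omega
  ext x y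
  rw [Matrix.add_apply, Matrix.mul_diagonal, Matrix.mul_diagonal, Matrix.mul_diagonal,
    fF_succ hs M i j hij]
  by_cases h : ∀ l, l ≠ i → l ≠ j → x l = y l
  · rw [atp_apply_pos _ _ _ _ _ h]
    have h1 : at1 M.F i x y = if x j = y j then M.F (x i) (y i) else 0 := by
      by_cases hj : x j = y j
      · rw [if_pos hj, at1_apply_pos]
        exact (off_iff (j := j) x y).2 ⟨h, fun _ => hj⟩
      · rw [if_neg hj, at1_apply_neg]
        intro h'
        exact hj (h' j hne.symm)
    have h2 : at1 M.F j x y = if x i = y i then M.F (x j) (y j) else 0 := by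
      by_cases hi : x i = y i
      · rw [if_pos hi, at1_apply_pos]
        exact (off_iff (j := i) x y).2 ⟨fun l h1 h2 => h l h2 h1, fun _ => hi⟩
      · rw [if_neg hi, at1_apply_neg]
        intro h'
        exact hi (h' i hne)
    rw [h1, h2]
    show _ = ((if x j = y j then M.F (x i) (y i) else 0) +
      (if x i = y i then s ^ (-(2 * M.wt (y i))) * M.F (x j) (y j) else 0)) * _
    split_ifs <;> ring
  · rw [atp_apply_neg _ _ _ _ _ h, at1_apply_neg, at1_apply_neg]
    · ring
    · intro h'
      exact h fun l _ h2 => h' l h2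
    · intro h'
      exact h fun l h1 _ => h' l h1

/-- An endomorphism of `M ⊗ M` acts at two neighbouring positions by a morphism. -/
lemma mor_atp {s : K} (hs : s ≠ 0) (M : WM K ι) (S : Matrix (ι × ι) (ι × ι) K)
    (hS : Mor (tens s M M) (tens s M M) S) {c : ℕ} (i j : Fin c) (hij : (j : ℕ) = i + 1) :
    Mor (fpow s M c) (fpow s M c) (atp S i j) := by
  have hne : i ≠ j := by
    intro h
    rw [h] at hij
    omega
  refine ⟨?_, ?_, ?_⟩
  · intro x y h
    exact sum_wt M s S hS.wt hne Finset.univ (by simp) x y h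
  · rw [fpow_E]
    refine comm_total M.E (tens s M M).E S hne (fE s M) (fE s M j) (pair_E hs M i j hij) hS.E
      ?_ ?_
    · intro x y h
      unfold fE
      rw [sum_wt M s S hS.wt hne _ ?_ x y h]
      simp only [Finset.mem_filter, Finset.mem_univ, true_and, Fin.lt_def]
      omega
    · intro z hz hz' x y h
      unfold fE
      rw [sum_wt M s S hS.wt hne _ ?_ x y h]
      simp only [Finset.mem_filter, Finset.mem_univ, true_and, Fin.lt_def]
      rw [Ne, Fin.ext_iff] at hz hz'
      omega
  · rw [fpow_F]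
    refine comm_total M.F (tens s M M).F S hne (fF s M) (fF s M i) (pair_F hs M i j hij) hS.F
      ?_ ?_
    · intro x y h
      unfold fF
      rw [sum_wt M s S hS.wt hne _ ?_ x y h]
      simp only [Finset.mem_filter, Finset.mem_univ, true_and, Fin.lt_def]
      omega
    · intro z hz hz' x y h
      unfold fF
      rw [sum_wt M s S hS.wt hne _ ?_ x y h]
      simp only [Finset.mem_filter, Finset.mem_univ, true_and, Fin.lt_def]
      rw [Ne, Fin.ext_iff] at hz hz'
      omega

end Main

end MOP

open MOP in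
/-- Braids act by morphisms. -/
theorem mop (ht : QT_Stmt) : MOP_Stmt := by
  intro K _ s hs ι _ _ M hM n w
  obtain ⟨h1, h2⟩ := ht K s hs ι ι M M hM hM
  unfold op
  induction w with
  | nil => exact mor_one _
  | cons x w ih =>
      rw [List.map_cons, List.prod_cons]
      refine mor_mul ?_ ih
      unfold opl
      by_cases h : x.1 < n
      · rw [dif_pos h]
        refine mor_atp hs.1 M _ ?_ _ _ rfl
        by_cases hx : x.2 = true
        · rw [if_pos hx]
          exact h1
        · rw [if_neg hx]
          exact h2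
      · rw [dif_neg h]
        exact mor_one _

end Pool.Agent.IT
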