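import Pool.Agent.IT.Stmts

/-!
Iterated torus knots: the action of the endomorphisms of a weight module on the highest weight
vectors of a given weight, and its trace.
-/

namespace Pool.Agent.IT

namespace MULT

open Matrix

variable {K : Type} [Field K] {ι : Type} [Fintype ι] [DecidableEq ι]

/-- An idempotent matrix factors through its rank. -/
theorem idem_factor (T : Matrix ι ι K) (hT : T * T = T) :
    ∃ (m : ℕ) (P : Matrix ι (Fin m) K) (Q : Matrix (Fin m) ι K), Q * P = 1 ∧ P * Q = T := by
  classical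
  let f : (ι → K) →ₗ[K] (ι → K) := Matrix.toLin' T
  have hff : ∀ v, f (f v) = f v := by
    intro v
    have h : f (f v) = (T * T).mulVec v := by
      simp [f, Matrix.toLin'_apply, Matrix.mulVec_mulVec]
    rw [h, hT]
    simp [f, Matrix.toLin'_apply]
  let W : Submodule K (ι → K) := LinearMap.range f
  let b := Module.finBasis K W
  refine ⟨Module.finrank K W,
    LinearMap.toMatrix' (W.subtype.comp b.equivFun.symm.toLinearMap),
    LinearMap.toMatrix' (b.equivFun.toLinearMap.comp f.rangeRestrict), ?_, ?_⟩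
  · rw [← LinearMap.toMatrix'_comp]
    have h : (b.equivFun.toLinearMap.comp f.rangeRestrict).comp
        (W.subtype.comp b.equivFun.symm.toLinearMap) = LinearMap.id := by
      apply LinearMap.ext
      intro v
      have h1 : f.rangeRestrict ((b.equivFun.symm v : W) : ι → K) = b.equivFun.symm v := by
        apply Subtype.ext
        obtain ⟨u, hu⟩ := (b.equivFun.symm v).2
        have h2 : ((f.rangeRestrict ((b.equivFun.symm v : W) : ι → K) : W) : ι → K) =
            f ((b.equivFun.symm v : W) : ι → K) := rfl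
        rw [h2, ← hu, hff]
      have h3 : ((b.equivFun.toLinearMap.comp f.rangeRestrict).comp
        (W.subtype.comp b.equivFun.symm.toLinearMap)) v =
          b.equivFun (f.rangeRestrict ((b.equivFun.symm v : W) : ι → K)) := rfl
      rw [h3, h1, LinearEquiv.apply_symm_apply]
      rfl
    rw [h, LinearMap.toMatrix'_id]
  · rw [← LinearMap.toMatrix'_comp]
    have h : (W.subtype.comp b.equivFun.symm.toLinearMap).comp
        (b.equivFun.toLinearMap.comp f.rangeRestrict) = f := by
      apply LinearMap.ext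
      intro v
      have h3 : ((W.subtype.comp b.equivFun.symm.toLinearMap).comp
        (b.equivFun.toLinearMap.comp f.rangeRestrict)) v =
          ((b.equivFun.symm (b.equivFun (f.rangeRestrict v)) : W) : ι → K) := rfl
      rw [h3, LinearEquiv.symm_apply_apply]
      rfl
    rw [h]
    exact LinearMap.toMatrix'_toLin' T

/-- The projection onto the labels of weight `k`. -/
def Dg (M : WM K ι) (k : ℤ) : Matrix ι ι K := Matrix.diagonal fun a => if M.wt a = k then 1 else 0

theorem Dg_mul_apply {κ : Type} (M : WM K ι) (k : ℤ) (A : Matrix ι κ K) (a : ι) (b : κ) :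
    (Dg M k * A) a b = if M.wt a = k then A a b else 0 := by
  unfold Dg
  rw [Matrix.diagonal_mul]
  by_cases h : M.wt a = k
  · rw [if_pos h, if_pos h, one_mul]
  · rw [if_neg h, if_neg h, zero_mul]

theorem mul_Dg_apply {κ : Type} (M : WM K ι) (k : ℤ) (A : Matrix κ ι K) (a : κ) (b : ι) :
    (A * Dg M k) a b = if M.wt b = k then A a b else 0 := by
  unfold Dg
  rw [Matrix.mul_diagonal]
  by_cases h : M.wt b = k
  · rw [if_pos h, if_pos h, mul_one]
  · rw [if_neg h, if_neg h, mul_zero]

theorem Dg_idem (M : WM K ι) (k : ℤ) : Dg M k * Dg M k = Dg M k := by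
  ext a b
  rw [Dg_mul_apply]
  by_cases h : M.wt a = k
  · rw [if_pos h]
  · rw [if_neg h]
    unfold Dg
    by_cases hab : a = b
    · subst hab
      rw [Matrix.diagonal_apply_eq, if_neg h]
    · rw [Matrix.diagonal_apply_ne _ hab]

/-- `E` raises the weight by two. -/
theorem E_Dg {s : K} {M : WM K ι} (hM : Ok s M) (k : ℤ) :
    M.E * Dg M k = Dg M (k + 2) * M.E := by
  ext a b
  rw [mul_Dg_apply, Dg_mul_apply]
  by_cases h : M.E a b = 0
  · rw [h]
    simp
  · have hw := hM.wtE a b h
    by_cases h1 : M.wt b = k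
    · rw [if_pos h1, if_pos (by omega)]
    · rw [if_neg h1, if_neg (by omega)]

theorem X_Dg {M : WM K ι} {X : Matrix ι ι K} (hX : Mor M M X) (k : ℤ) :
    X * Dg M k = Dg M k * X := by
  ext a b
  rw [mul_Dg_apply, Dg_mul_apply]
  by_cases h : X a b = 0
  · rw [h]
    simp
  · have hw := hX.wt a b h
    by_cases h1 : M.wt b = k
    · rw [if_pos h1, if_pos (by omega)]
    · rw [if_neg h1, if_neg (by omega)]

theorem trace_Dg (M : WM K ι) (k : ℤ) (X : Matrix ι ι K) :
    (X * Dg M k).trace = wtr M k X := by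
  unfold Matrix.trace wtr
  rw [Finset.sum_filter]
  apply Finset.sum_congr rfl
  intro a _
  rw [Matrix.diag_apply, mul_Dg_apply]

/-- A section of `E` over the labels of weight `k + 2`. -/
theorem section_exists (hs : SURJ_Stmt) {s : K} (hg : Gen s) {M : WM K ι} (hM : Ok s M) (k : ℤ)
    (hk : 0 ≤ k) :
    ∃ S : Matrix ι ι K, M.E * S = Dg M (k + 2) ∧ Dg M k * S = S ∧ S * Dg M (k + 2) = S := by
  have h1 := (hs K s hg ι M hM).1 (k + 2) (by omega)
  have h2 : ∀ b : ι, ∃ u : ι → K, (∀ a, u a ≠ 0 → M.wt a = k) ∧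
      (M.wt b = k + 2 → M.E.mulVec u = Pi.single b 1) ∧ (M.wt b ≠ k + 2 → u = 0) := by
    intro b
    by_cases hb : M.wt b = k + 2
    · obtain ⟨u, hu1, hu2⟩ := h1 (Pi.single b 1) (by
        intro a ha
        by_cases hab : a = b
        · rw [hab, hb]
        · exfalso
          apply ha
          rw [Pi.single_eq_of_ne hab])
      refine ⟨u, ?_, fun _ => hu2, fun h => absurd hb h⟩
      intro a ha
      have := hu1 a ha
      omega
    · refine ⟨0, ?_, fun h => absurd h hb, fun _ => rfl⟩
      intro a ha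
      exact absurd rfl ha
  choose u hu1 hu2 hu3 using h2
  refine ⟨Matrix.of fun a b => u b a, ?_, ?_, ?_⟩
  · ext a b
    have h3 : (M.E * Matrix.of fun a b => u b a) a b = M.E.mulVec (u b) a := rfl
    rw [h3]
    by_cases hb : M.wt b = k + 2
    · rw [hu2 b hb]
      unfold Dg
      by_cases hab : a = b
      · subst hab
        rw [Matrix.diagonal_apply_eq, if_pos hb, Pi.single_eq_same]
      · rw [Matrix.diagonal_apply_ne _ hab, Pi.single_eq_of_ne hab]
    · rw [hu3 b hb, Matrix.mulVec_zero]
      unfold Dg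
      by_cases hab : a = b
      · subst hab
        rw [Matrix.diagonal_apply_eq, if_neg hb]
        rfl
      · rw [Matrix.diagonal_apply_ne _ hab]
        rfl
  · ext a b
    rw [Dg_mul_apply]
    by_cases h : M.wt a = k
    · rw [if_pos h]
    · rw [if_neg h]
      by_contra h4
      exact h (hu1 b a (fun h5 => h4 h5.symm))
  · ext a b
    rw [mul_Dg_apply]
    by_cases h : M.wt b = k + 2
    · rw [if_pos h]
    · rw [if_neg h, Matrix.of_apply, hu3 b h]
      rfl

end MULT

open Matrix MULT in
theorem mult (_hn : NILP_Stmt) (hs : SURJ_Stmt) : MULT_Stmt := by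
  intro K _ s hg ι _ _ M hM k
  obtain ⟨S, hES, hDS, hSD⟩ := section_exists hs hg hM (k : ℤ) (by omega)
  have hED := E_Dg hM (k : ℤ)
  have hDD := Dg_idem M (k : ℤ)
  have hDD2 := Dg_idem M ((k : ℤ) + 2)
  obtain ⟨T, hT⟩ : ∃ T : Matrix ι ι K, T = Dg M k - S * (M.E * Dg M k) := ⟨_, rfl⟩
  -- `E T = 0`
  have hET : M.E * T = 0 := by
    rw [hT, Matrix.mul_sub, ← Matrix.mul_assoc M.E S, hES, hED, ← Matrix.mul_assoc, hDD2, sub_self]
  have hDT : Dg M k * T = T := by
    rw [hT, Matrix.mul_sub, ← Matrix.mul_assoc (Dg M k) S, hDS, hDD]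
  have hTD : T * Dg M k = T := by
    rw [hT, Matrix.sub_mul, Matrix.mul_assoc S, Matrix.mul_assoc M.E, hDD]
  -- `T A = A` whenever `A` has highest weight columns
  have hTA : ∀ A : Matrix ι ι K, Dg M k * A = A → M.E * A = 0 → T * A = A := by
    intro A h1 h2
    rw [hT, Matrix.sub_mul, Matrix.mul_assoc S, Matrix.mul_assoc M.E, h1, h2, Matrix.mul_zero,
      sub_zero]
  have hTT : T * T = T := hTA T hDT hET
  obtain ⟨m, P, Q, hQP, hPQ⟩ := idem_factor T hTT
  have hTP : T * P = P := by
    rw [← hPQ, Matrix.mul_assoc, hQP, Matrix.mul_one]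
  refine ⟨m, P, Q, hQP, ?_, ?_, ?_⟩
  · rw [← hTP, ← Matrix.mul_assoc, hET, Matrix.zero_mul]
  · intro a j haj
    have h : P = Dg M k * P := by
      rw [← hTP, ← Matrix.mul_assoc, hDT]
    rw [h, Dg_mul_apply] at haj
    by_contra hne
    rw [if_neg hne] at haj
    exact haj rfl
  · intro X hX
    have hXT : T * (X * T) = X * T := by
      apply hTA
      · rw [← Matrix.mul_assoc, ← X_Dg hX, Matrix.mul_assoc, hDT]
      · rw [← Matrix.mul_assoc, hX.E, Matrix.mul_assoc, hET, Matrix.mul_zero]
    constructor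
    · have h1 : X * P = X * T * P := by rw [Matrix.mul_assoc, hTP]
      have h2 : P * (Q * X * P) = T * (X * T) * P := by
        rw [← hPQ]
        simp only [Matrix.mul_assoc]
        rw [hQP, Matrix.mul_one]
      rw [h1, h2, hXT]
    · have h1 : (Q * X * P).trace = (X * T).trace := by
        rw [← hPQ, Matrix.mul_assoc, Matrix.trace_mul_comm, Matrix.mul_assoc]
      rw [h1, hT, Matrix.mul_sub, Matrix.trace_sub, trace_Dg]
      congr 1
      rw [← Matrix.mul_assoc, Matrix.trace_mul_comm]
      have h2 : M.E * Dg M k * (X * S) = X * Dg M (k + 2) := by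
        rw [Matrix.mul_assoc, ← Matrix.mul_assoc (Dg M k), ← X_Dg hX, Matrix.mul_assoc, hDS,
          ← Matrix.mul_assoc, hX.E, Matrix.mul_assoc, hES]
      rw [h2, trace_Dg]

end Pool.Agent.IT
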