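import Pool.Agent.IT.Stmts

/-!
# NILP: powers of `E` and `F`
-/

namespace Pool.Agent.IT

namespace NILP

variable {K ι : Type} [Field K] [Fintype ι] [DecidableEq ι]

theorem pow_wt (w : ι → ℤ) (A : Matrix ι ι K) (e : ℤ) (h : ∀ a b, A a b ≠ 0 → w a = w b + e)
    (n : ℕ) : ∀ a b, (A ^ n) a b ≠ 0 →
      w a = w b + e * n ∧ ∀ j : ℕ, j ≤ n → ∃ d, w d = w b + e * j := by
  induction n with
  | zero =>
    intro a b hab
    rw [pow_zero, Matrix.one_apply] at hab
    have hab' : a = b := by
      by_contra hne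
      exact hab (if_neg hne)
    subst hab'
    refine ⟨by simp, ?_⟩
    intro j hj
    refine ⟨a, ?_⟩
    have : j = 0 := by omega
    subst this
    simp
  | succ n ih =>
    intro a b hab
    rw [pow_succ, Matrix.mul_apply] at hab
    obtain ⟨c, _, hc⟩ := Finset.exists_ne_zero_of_sum_ne_zero hab
    have h1 := ih a c (left_ne_zero_of_mul hc)
    have h2 := h c b (right_ne_zero_of_mul hc)
    refine ⟨?_, ?_⟩
    · rw [h1.1, h2]
      push_cast
      ring
    · intro j hj
      cases j with
      | zero => exact ⟨b, by simp⟩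
      | succ j =>
        obtain ⟨d, hd⟩ := h1.2 j (by omega)
        refine ⟨d, ?_⟩
        rw [hd, h2]
        push_cast
        ring

theorem pow_zero_of_card (w : ι → ℤ) (A : Matrix ι ι K) (e : ℤ) (he : e ≠ 0)
    (h : ∀ a b, A a b ≠ 0 → w a = w b + e) (n : ℕ) (hn : Fintype.card ι ≤ n) : A ^ n = 0 := by
  ext a b
  rw [Matrix.zero_apply]
  by_contra hab
  have h1 := (pow_wt w A e h n a b hab).2
  choose d hd using fun j : Fin (n + 1) => h1 j (Nat.lt_succ_iff.mp j.2)
  have hinj : Function.Injective d := by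
    intro i j hij
    have h2 := hd i
    rw [hij, hd j] at h2
    have h3 : e * ((j : ℕ) : ℤ) = e * ((i : ℕ) : ℤ) := by linarith
    have h4 := mul_left_cancel₀ he h3
    apply Fin.ext
    exact_mod_cast h4.symm
  have h2 := Fintype.card_le_of_injective d hinj
  rw [Fintype.card_fin] at h2
  omega

end NILP

theorem nilp : NILP_Stmt := by
  intro K _ s ι _ _ M hM
  refine ⟨?_, ?_, ?_⟩
  · intro n a b hab
    exact (NILP.pow_wt M.wt M.E 2 hM.wtE n a b hab).1
  · intro n a b hab
    have h := (NILP.pow_wt M.wt M.F (-2) hM.wtF n a b hab).1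
    rw [h]
    ring
  · intro n hn
    exact ⟨NILP.pow_zero_of_card M.wt M.E 2 (by norm_num) hM.wtE n hn,
      NILP.pow_zero_of_card M.wt M.F (-2) (by norm_num) hM.wtF n hn⟩

end Pool.Agent.IT
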