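import Pool.Agent.IT.Stmts

/-!
# OPINV: the matrix of the inverse word
-/

namespace Pool.Agent.IT
open Pool.Agent.LibH11
open scoped BigOperators

namespace OPINV

variable {A : Type} [CommRing A] {ι : Type} [Fintype ι] [DecidableEq ι]

theorem opl_mul (ha : ATP_Stmt) (T : RData A ι) (h1 : T.R * T.R' = 1) (h2 : T.R' * T.R = 1)
    (n : ℕ) (i : ℕ) (e : Bool) : opl T n (i, e) * opl T n (i, !e) = 1 := by
  unfold opl
  by_cases h : i < n
  · have hne : (⟨i, Nat.lt_succ_of_lt h⟩ : Fin (n + 1)) ≠ ⟨i + 1, Nat.succ_lt_succ h⟩ := by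
      intro h'
      have := congrArg Fin.val h'
      simp at this
    simp only [h, dif_pos]
    cases e
    · obtain ⟨q1, q2, _⟩ := ha A ι (Fin (n + 1)) T.R' T.R 1 1 _ _
        (⟨i, Nat.lt_succ_of_lt h⟩ : Fin (n + 1)) (⟨i, Nat.lt_succ_of_lt h⟩ : Fin (n + 1)) hne
      show atp T.R' _ _ * atp T.R _ _ = 1
      rw [← q1, h2, q2]
    · obtain ⟨q1, q2, _⟩ := ha A ι (Fin (n + 1)) T.R T.R' 1 1 _ _
        (⟨i, Nat.lt_succ_of_lt h⟩ : Fin (n + 1)) (⟨i, Nat.lt_succ_of_lt h⟩ : Fin (n + 1)) hne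
      show atp T.R _ _ * atp T.R' _ _ = 1
      rw [← q1, h1, q2]
  · simp only [h, dif_neg, not_false_iff, mul_one]

end OPINV

theorem opinv (ha : ATP_Stmt) : OPINV_Stmt := by
  intro A _ ι _ _ T h1 h2 n w
  induction w with
  | nil => simp [op, iw]
  | cons x w ih =>
    obtain ⟨i, e⟩ := x
    have e1 : iw ((i, e) :: w) = iw w ++ [(i, !e)] := by
      unfold iw
      simp
    have e2 : op T n ((i, e) :: w) = opl T n (i, e) * op T n w := by simp [op]
    have e3 : op T n (iw w ++ [(i, !e)]) = op T n (iw w) * opl T n (i, !e) := by simp [op]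
    have h3 := OPINV.opl_mul ha T h1 h2 n i e
    have h4 := OPINV.opl_mul ha T h1 h2 n i (!e)
    rw [Bool.not_not] at h4
    rw [e1, e2, e3]
    constructor
    · rw [mul_assoc, ← mul_assoc (op T n w), ih.1, one_mul, h3]
    · rw [mul_assoc, ← mul_assoc (opl T n (i, !e)), h4, one_mul, ih.2]

end Pool.Agent.IT
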