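import Pool.Agent.IT.Stmts

/-!
Partial quantum traces of morphisms of weight modules are morphisms.
-/

namespace Pool.Agent.IT

namespace PTR

variable {K : Type} [Field K] {s : K} {ι κ : Type} [Fintype ι] [DecidableEq ι]
  [Fintype κ] [DecidableEq κ] {M : WM K ι} {N : WM K κ}

theorem entryE {X : Matrix (ι × κ) (ι × κ) K} (h : Mor (tens s M N) (tens s M N) X)
    (a c : ι) (b d : κ) :
    (∑ a', M.E a a' * s ^ (2 * N.wt b) * X (a', b) (c, d)) + ∑ b', N.E b b' * X (a, b') (c, d) =
      (∑ a', X (a, b) (a', d) * (M.E a' c * s ^ (2 * N.wt d))) +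
        ∑ b', X (a, b) (c, b') * N.E b' d := by
  have h1 := congrFun (congrFun h.E (a, b)) (c, d)
  rw [Matrix.mul_apply, Matrix.mul_apply, Fintype.sum_prod_type, Fintype.sum_prod_type] at h1
  simp only [tens, add_mul, mul_add, Finset.sum_add_distrib, ite_mul, mul_ite, zero_mul,
    mul_zero] at h1
  have e1 : ∀ f : ι → κ → K, (∑ x, ∑ y, if b = y then f x y else 0) = ∑ x, f x b := by
    intro f
    refine Finset.sum_congr rfl fun x _ => ?_
    rw [Finset.sum_ite_eq, if_pos (Finset.mem_univ _)]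
  have e2 : ∀ f : ι → κ → K, (∑ x, ∑ y, if a = x then f x y else 0) = ∑ y, f a y := by
    intro f
    rw [Finset.sum_comm]
    refine Finset.sum_congr rfl fun y _ => ?_
    rw [Finset.sum_ite_eq, if_pos (Finset.mem_univ _)]
  have e3 : ∀ f : ι → κ → K, (∑ x, ∑ y, if y = d then f x y else 0) = ∑ x, f x d := by
    intro f
    refine Finset.sum_congr rfl fun x _ => ?_
    rw [Finset.sum_ite_eq', if_pos (Finset.mem_univ _)]
  have e4 : ∀ f : ι → κ → K, (∑ x, ∑ y, if x = c then f x y else 0) = ∑ y, f c y := by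
    intro f
    rw [Finset.sum_comm]
    refine Finset.sum_congr rfl fun y _ => ?_
    rw [Finset.sum_ite_eq', if_pos (Finset.mem_univ _)]
  rw [e1 (fun x y => M.E a x * s ^ (2 * N.wt y) * X (x, y) (c, d)),
    e2 (fun x y => N.E b y * X (x, y) (c, d)),
    e3 (fun x y => X (a, b) (x, y) * (M.E x c * s ^ (2 * N.wt d))),
    e4 (fun x y => X (a, b) (x, y) * N.E y d)] at h1
  exact h1

theorem entryF {X : Matrix (ι × κ) (ι × κ) K} (h : Mor (tens s M N) (tens s M N) X)
    (a c : ι) (b d : κ) :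
    (∑ a', M.F a a' * X (a', b) (c, d)) +
        ∑ b', s ^ (-(2 * M.wt a)) * N.F b b' * X (a, b') (c, d) =
      (∑ a', X (a, b) (a', d) * M.F a' c) +
        ∑ b', X (a, b) (c, b') * (s ^ (-(2 * M.wt c)) * N.F b' d) := by
  have h1 := congrFun (congrFun h.F (a, b)) (c, d)
  rw [Matrix.mul_apply, Matrix.mul_apply, Fintype.sum_prod_type, Fintype.sum_prod_type] at h1
  simp only [tens, add_mul, mul_add, Finset.sum_add_distrib, ite_mul, mul_ite, zero_mul,
    mul_zero] at h1
  have e1 : ∀ f : ι → κ → K, (∑ x, ∑ y, if b = y then f x y else 0) = ∑ x, f x b := by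
    intro f
    refine Finset.sum_congr rfl fun x _ => ?_
    rw [Finset.sum_ite_eq, if_pos (Finset.mem_univ _)]
  have e2 : ∀ f : ι → κ → K, (∑ x, ∑ y, if a = x then f x y else 0) = ∑ y, f a y := by
    intro f
    rw [Finset.sum_comm]
    refine Finset.sum_congr rfl fun y _ => ?_
    rw [Finset.sum_ite_eq, if_pos (Finset.mem_univ _)]
  have e3 : ∀ f : ι → κ → K, (∑ x, ∑ y, if y = d then f x y else 0) = ∑ x, f x d := by
    intro f
    refine Finset.sum_congr rfl fun x _ => ?_
    rw [Finset.sum_ite_eq', if_pos (Finset.mem_univ _)]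
  have e4 : ∀ f : ι → κ → K, (∑ x, ∑ y, if x = c then f x y else 0) = ∑ y, f c y := by
    intro f
    rw [Finset.sum_comm]
    refine Finset.sum_congr rfl fun y _ => ?_
    rw [Finset.sum_ite_eq', if_pos (Finset.mem_univ _)]
  rw [e1 (fun x y => M.F a x * X (x, y) (c, d)),
    e2 (fun x y => s ^ (-(2 * M.wt x)) * N.F b y * X (x, y) (c, d)),
    e3 (fun x y => X (a, b) (x, y) * M.F x c),
    e4 (fun x y => X (a, b) (x, y) * (s ^ (-(2 * M.wt c)) * N.F y d))] at h1
  exact h1

end PTR

theorem ptr : PTR_Stmt := by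
  intro K _ s hs ι κ _ _ _ _ M N hM hN X hX
  have hs0 : s ≠ 0 := hs.1
  refine ⟨?_, ?_, ?_⟩
  · intro a c h
    obtain ⟨b, -, hb⟩ := Finset.exists_ne_zero_of_sum_ne_zero h
    have h1 := hX.wt (a, b) (c, b) (left_ne_zero_of_mul hb)
    have h2 : M.wt a + N.wt b = M.wt c + N.wt b := h1
    omega
  · ext a c
    rw [Matrix.mul_apply, Matrix.mul_apply]
    have h1 := Finset.sum_congr rfl fun (b : κ) (_ : b ∈ Finset.univ) => PTR.entryE hX a c b b
    rw [Finset.sum_add_distrib, Finset.sum_add_distrib] at h1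
    have h2 : ∑ b, ∑ b', N.E b b' * X (a, b') (c, b) = ∑ b, ∑ b', X (a, b) (c, b') * N.E b' b := by
      rw [Finset.sum_comm]
      exact Finset.sum_congr rfl fun b _ => Finset.sum_congr rfl fun b' _ => mul_comm _ _
    rw [h2] at h1
    have h3 := add_right_cancel h1
    have e1 : ∑ j, M.E a j * ∑ b, X (j, b) (c, b) * s ^ (2 * N.wt b) =
        ∑ b, ∑ a', M.E a a' * s ^ (2 * N.wt b) * X (a', b) (c, b) := by
      rw [Finset.sum_comm]
      refine Finset.sum_congr rfl fun j _ => ?_
      rw [Finset.mul_sum]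
      exact Finset.sum_congr rfl fun b _ => by ring
    have e2 : ∑ j, (∑ b, X (a, b) (j, b) * s ^ (2 * N.wt b)) * M.E j c =
        ∑ b, ∑ a', X (a, b) (a', b) * (M.E a' c * s ^ (2 * N.wt b)) := by
      rw [Finset.sum_comm]
      refine Finset.sum_congr rfl fun j _ => ?_
      rw [Finset.sum_mul]
      exact Finset.sum_congr rfl fun b _ => by ring
    rw [e1, e2, h3]
  · ext a c
    rw [Matrix.mul_apply, Matrix.mul_apply]
    have h1 := Finset.sum_congr rfl fun (b : κ) (_ : b ∈ Finset.univ) =>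
      congrArg (fun z => z * s ^ (2 * N.wt b)) (PTR.entryF hX a c b b)
    simp only [add_mul] at h1
    rw [Finset.sum_add_distrib, Finset.sum_add_distrib] at h1
    have h2 : ∑ b, (∑ b', s ^ (-(2 * M.wt a)) * N.F b b' * X (a, b') (c, b)) * s ^ (2 * N.wt b) =
        ∑ b, (∑ b', X (a, b) (c, b') * (s ^ (-(2 * M.wt c)) * N.F b' b)) * s ^ (2 * N.wt b) := by
      simp only [Finset.sum_mul]
      rw [Finset.sum_comm]
      refine Finset.sum_congr rfl fun b _ => Finset.sum_congr rfl fun b' _ => ?_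
      by_cases h0 : X (a, b) (c, b') = 0
      · rw [h0]
        ring
      · have hw := hX.wt (a, b) (c, b') h0
        have hw2 : M.wt a + N.wt b = M.wt c + N.wt b' := hw
        have hw3 : s ^ (-(2 * M.wt a)) * s ^ (2 * N.wt b') =
            s ^ (-(2 * M.wt c)) * s ^ (2 * N.wt b) := by
          rw [← zpow_add₀ hs0, ← zpow_add₀ hs0]
          congr 1
          omega
        calc s ^ (-(2 * M.wt a)) * N.F b' b * X (a, b) (c, b') * s ^ (2 * N.wt b')
            = (s ^ (-(2 * M.wt a)) * s ^ (2 * N.wt b')) * (N.F b' b * X (a, b) (c, b')) := by ring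
          _ = (s ^ (-(2 * M.wt c)) * s ^ (2 * N.wt b)) * (N.F b' b * X (a, b) (c, b')) := by
              rw [hw3]
          _ = X (a, b) (c, b') * (s ^ (-(2 * M.wt c)) * N.F b' b) * s ^ (2 * N.wt b) := by ring
    rw [h2] at h1
    have h3 := add_right_cancel h1
    have e1 : ∑ j, M.F a j * ∑ b, X (j, b) (c, b) * s ^ (2 * N.wt b) =
        ∑ b, (∑ a', M.F a a' * X (a', b) (c, b)) * s ^ (2 * N.wt b) := by
      simp only [Finset.sum_mul]
      rw [Finset.sum_comm]
      refine Finset.sum_congr rfl fun j _ => ?_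
      rw [Finset.mul_sum]
      exact Finset.sum_congr rfl fun b _ => by ring
    have e2 : ∑ j, (∑ b, X (a, b) (j, b) * s ^ (2 * N.wt b)) * M.F j c =
        ∑ b, (∑ a', X (a, b) (a', b) * M.F a' c) * s ^ (2 * N.wt b) := by
      simp only [Finset.sum_mul]
      rw [Finset.sum_comm]
      refine Finset.sum_congr rfl fun j _ => ?_
      exact Finset.sum_congr rfl fun b _ => by ring
    rw [e1, e2, h3]

end Pool.Agent.IT
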