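import Pool.Agent.IT.Stmts

/-!
# QBIN: the coefficients of the quasi-R-matrix and of its inverse
-/

namespace Pool.Agent.IT
open Pool.Agent.LibH11
open scoped BigOperators

namespace QBIN

variable {K : Type} [Field K] (s : K)

theorem qfac_succ (n : ℕ) : qfac s (n + 1) = qfac s n * qn s ((n : ℤ) + 1) := by
  rw [qfac, Finset.prod_range_succ, ← qfac]

theorem qfac_ne (hn : ∀ w : ℤ, w ≠ 0 → qn s w ≠ 0) (n : ℕ) : qfac s n ≠ 0 := by
  rw [qfac, Finset.prod_ne_zero_iff]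
  intro i _
  apply hn
  omega

theorem a_succ (hs : s ≠ 0) (hn : ∀ w : ℤ, w ≠ 0 → qn s w ≠ 0) (n : ℕ) :
    qn s ((n : ℤ) + 1) * aq s (n + 1) =
      (s ^ (2 : ℤ) - s ^ (-2 : ℤ)) * s ^ (2 * (n : ℤ)) * aq s n := by
  have h1 := qfac_ne s hn n
  have h2 : qn s ((n : ℤ) + 1) ≠ 0 := hn _ (by omega)
  have h3 : s ^ (((n : ℤ) + 1) * n) = s ^ ((n : ℤ) * (n - 1)) * s ^ (2 * (n : ℤ)) := by
    rw [← zpow_add₀ hs]
    congr 1
    ring
  rw [aq, aq, qfac_succ, pow_succ]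
  push_cast
  rw [add_sub_cancel_right, h3]
  field_simp

theorem a'_succ (hs : s ≠ 0) (hn : ∀ w : ℤ, w ≠ 0 → qn s w ≠ 0) (n : ℕ) :
    qn s ((n : ℤ) + 1) * aq' s (n + 1) =
      -((s ^ (2 : ℤ) - s ^ (-2 : ℤ)) * s ^ (-(2 * (n : ℤ))) * aq' s n) := by
  have h1 := qfac_ne s hn n
  have h2 : qn s ((n : ℤ) + 1) ≠ 0 := hn _ (by omega)
  have h3 : s ^ (-(((n : ℤ) + 1) * n)) = s ^ (-((n : ℤ) * (n - 1))) * s ^ (-(2 * (n : ℤ))) := by
    rw [← zpow_add₀ hs]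
    congr 1
    ring
  rw [aq', aq', qfac_succ, pow_succ]
  push_cast
  rw [add_sub_cancel_right, h3]
  generalize s ^ (2 : ℤ) = x
  generalize s ^ (-2 : ℤ) = y
  generalize s ^ (-((n : ℤ) * (n - 1))) = z
  generalize s ^ (-(2 * (n : ℤ))) = t
  field_simp
  ring

/-- The sum. -/
def S (n : ℕ) : K := ∑ x ∈ Finset.HasAntidiagonal.antidiagonal n, aq s x.1 * aq' s x.2

theorem key (hs : s ≠ 0) (hn : ∀ w : ℤ, w ≠ 0 → qn s w ≠ 0) (h0 : qn s 0 = 0)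
    (hadd : ∀ a b : ℤ, qn s (a + b) = qn s a * s ^ (2 * b) + s ^ (-(2 * a)) * qn s b) (n : ℕ) :
    qn s ((n : ℤ) + 1) * S s (n + 1) =
      (s ^ (2 : ℤ) - s ^ (-2 : ℤ)) * (s ^ (2 * (n : ℤ)) - s ^ (-(2 * (n : ℤ)))) * S s n := by
  have h1 : qn s ((n : ℤ) + 1) * S s (n + 1) =
      ∑ x ∈ Finset.HasAntidiagonal.antidiagonal (n + 1), (qn s x.1 * aq s x.1) * (s ^ (2 * (x.2 : ℤ)) * aq' s x.2) +
      ∑ x ∈ Finset.HasAntidiagonal.antidiagonal (n + 1),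
        (s ^ (-(2 * (x.1 : ℤ))) * aq s x.1) * (qn s x.2 * aq' s x.2) := by
    rw [← Finset.sum_add_distrib, S, Finset.mul_sum]
    refine Finset.sum_congr rfl fun x hx => ?_
    have hx' : (x.1 : ℤ) + x.2 = (n : ℤ) + 1 := by
      have := Finset.HasAntidiagonal.mem_antidiagonal.mp hx
      exact_mod_cast this
    rw [← hx', hadd]
    ring
  rw [h1, Finset.Nat.sum_antidiagonal_succ, Finset.Nat.sum_antidiagonal_succ']
  simp only [Nat.cast_zero, h0, zero_mul, mul_zero, zero_add, Nat.cast_add, Nat.cast_one]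
  rw [← Finset.sum_add_distrib, S, Finset.mul_sum]
  refine Finset.sum_congr rfl fun x hx => ?_
  have hx' : (x.1 : ℤ) + x.2 = (n : ℤ) := by
    have := Finset.HasAntidiagonal.mem_antidiagonal.mp hx
    exact_mod_cast this
  rw [a_succ s hs hn, a'_succ s hs hn]
  have e1 : s ^ (2 * (n : ℤ)) = s ^ (2 * (x.1 : ℤ)) * s ^ (2 * (x.2 : ℤ)) := by
    rw [← zpow_add₀ hs, ← hx']
    congr 1
    ring
  have e2 : s ^ (-(2 * (n : ℤ))) = s ^ (-(2 * (x.1 : ℤ))) * s ^ (-(2 * (x.2 : ℤ))) := by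
    rw [← zpow_add₀ hs, ← hx']
    congr 1
    ring
  rw [e1, e2]
  ring

theorem S_zero (hs : s ≠ 0) (hn : ∀ w : ℤ, w ≠ 0 → qn s w ≠ 0) (h0 : qn s 0 = 0)
    (hadd : ∀ a b : ℤ, qn s (a + b) = qn s a * s ^ (2 * b) + s ^ (-(2 * a)) * qn s b) (n : ℕ) :
    S s (n + 1) = 0 := by
  have h2 : qn s ((n : ℤ) + 1) ≠ 0 := hn _ (by omega)
  have h3 := key s hs hn h0 hadd n
  induction n with
  | zero =>
    have h4 : qn s (((0 : ℕ) : ℤ) + 1) * S s (0 + 1) = 0 := by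
      rw [h3]
      simp
    exact (mul_eq_zero.mp h4).resolve_left h2
  | succ n ih =>
    have h5 := ih (hn _ (by omega)) (key s hs hn h0 hadd n)
    rw [h5, mul_zero] at h3
    exact (mul_eq_zero.mp h3).resolve_left h2

end QBIN

theorem qbin (hq : QNUM_Stmt) : QBIN_Stmt := by
  intro K _ s hs n hn
  obtain ⟨-, h2, h3, -, -, -, h7⟩ := hq K s hs
  obtain ⟨m, rfl⟩ : ∃ m, n = m + 1 := ⟨n - 1, by omega⟩
  have h := QBIN.S_zero s hs.1 h2 h3 h7 m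
  constructor
  · rw [← Finset.Nat.sum_antidiagonal_eq_sum_range_succ (fun i j => aq s i * aq' s j)]
    exact h
  · rw [← Finset.Nat.sum_antidiagonal_eq_sum_range_succ (fun i j => aq' s i * aq s j),
      ← Finset.Nat.sum_antidiagonal_swap]
    rw [← h, QBIN.S]
    refine Finset.sum_congr rfl fun x _ => ?_
    simp only [Prod.fst_swap, Prod.snd_swap]
    ring

end Pool.Agent.IT
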