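import Pool.Agent.IT.Stmts

/-!
# Iterated torus knots: module QEXP, the quantum exponential
-/

namespace Pool.Agent.IT
open scoped BigOperators

namespace QEXP

variable {K : Type} [Field K] {s : K}

/-- the recursion for the coefficients of the quasi-R-matrix -/
theorem aq_succ (hq : QNUM_Stmt) (hs : Gen s) (n : ℕ) :
    qn s ((n : ℤ) + 1) * aq s (n + 1) =
      (s ^ (2 : ℤ) - s ^ (-2 : ℤ)) * s ^ (2 * (n : ℤ)) * aq s n := by
  obtain ⟨-, hnz, -⟩ := hq K s hs
  have h0 : s ≠ 0 := hs.1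
  have h1 : qn s ((n : ℤ) + 1) ≠ 0 := hnz _ (by omega)
  have h2 : qfac s n ≠ 0 := by
    unfold qfac
    rw [Finset.prod_ne_zero_iff]
    intro i _
    exact hnz _ (by omega)
  have h3 : qfac s (n + 1) = qfac s n * qn s ((n : ℤ) + 1) := by
    unfold qfac
    rw [Finset.prod_range_succ]
  have h4 : s ^ (((n + 1 : ℕ) : ℤ) * (((n + 1 : ℕ) : ℤ) - 1)) =
      s ^ ((n : ℤ) * ((n : ℤ) - 1)) * s ^ (2 * (n : ℤ)) := by
    rw [← zpow_add₀ h0]
    congr 1
    push_cast
    ring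
  unfold aq
  rw [h3, h4, pow_succ]
  generalize s ^ (2 : ℤ) - s ^ (-2 : ℤ) = u
  generalize s ^ ((n : ℤ) * ((n : ℤ) - 1)) = a
  generalize s ^ (2 * (n : ℤ)) = b
  field_simp

/-- the coefficient at `j` -/
theorem coef (hq : QNUM_Stmt) (hs : Gen s) (n j : ℕ) (hj : j < n + 2) :
    qn s ((n : ℤ) + 1) * (aq s j * aq s (n + 1 - j)) =
      (s ^ (2 : ℤ) - s ^ (-2 : ℤ)) * s ^ (2 * (n : ℤ)) *
        ((if j = 0 then 0 else aq s (j - 1) * aq s (n + 1 - j)) +
          (if j = n + 1 then 0 else aq s j * aq s (n - j) * s ^ (-(4 * (j : ℤ))))) := by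
  obtain ⟨-, -, hz, -, -, -, hadd⟩ := hq K s hs
  have h0 : s ≠ 0 := hs.1
  have h1 := hadd (j : ℤ) ((n : ℤ) + 1 - j)
  rw [show (j : ℤ) + ((n : ℤ) + 1 - j) = (n : ℤ) + 1 by ring] at h1
  have hA : (s ^ (2 : ℤ) - s ^ (-2 : ℤ)) * s ^ (2 * (n : ℤ)) *
      (if j = 0 then 0 else aq s (j - 1) * aq s (n + 1 - j)) =
      qn s (j : ℤ) * s ^ (2 * ((n : ℤ) + 1 - j)) * (aq s j * aq s (n + 1 - j)) := by
    rcases Nat.eq_zero_or_pos j with rfl | hpos
    · simp [hz]
    · obtain ⟨i, rfl⟩ : ∃ i, j = i + 1 := ⟨j - 1, by omega⟩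
      rw [if_neg (by omega), Nat.add_sub_cancel]
      have h2 := aq_succ hq hs i
      have h3 : s ^ (2 * (n : ℤ)) = s ^ (2 * ((n : ℤ) + 1 - ((i + 1 : ℕ) : ℤ))) *
          s ^ (2 * (i : ℤ)) := by
        rw [← zpow_add₀ h0]
        congr 1
        push_cast
        ring
      rw [h3]
      have h4 : ((i + 1 : ℕ) : ℤ) = (i : ℤ) + 1 := by push_cast; ring
      rw [h4]
      linear_combination (-(s ^ (2 * ((n : ℤ) + 1 - ((i : ℤ) + 1)))) *
        aq s (n + 1 - (i + 1))) * h2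
  have hB : (s ^ (2 : ℤ) - s ^ (-2 : ℤ)) * s ^ (2 * (n : ℤ)) *
      (if j = n + 1 then 0 else aq s j * aq s (n - j) * s ^ (-(4 * (j : ℤ)))) =
      s ^ (-(2 * (j : ℤ))) * qn s ((n : ℤ) + 1 - j) * (aq s j * aq s (n + 1 - j)) := by
    by_cases hjn : j = n + 1
    · rw [if_pos hjn, hjn]
      have h2 : (n : ℤ) + 1 - ((n + 1 : ℕ) : ℤ) = 0 := by push_cast; ring
      rw [h2, hz]
      ring
    · rw [if_neg hjn]
      obtain ⟨m, rfl⟩ : ∃ m, n = j + m := ⟨n - j, by omega⟩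
      have h2 := aq_succ hq hs m
      have e1 : j + m - j = m := by omega
      have e2 : j + m + 1 - j = m + 1 := by omega
      have e3 : ((j + m : ℕ) : ℤ) + 1 - j = (m : ℤ) + 1 := by push_cast; ring
      rw [e1, e2, e3]
      have h3 : s ^ (2 * ((j + m : ℕ) : ℤ)) * s ^ (-(4 * (j : ℤ))) =
          s ^ (-(2 * (j : ℤ))) * s ^ (2 * (m : ℤ)) := by
        rw [← zpow_add₀ h0, ← zpow_add₀ h0]
        congr 1
        push_cast
        ring
      linear_combination ((s ^ (2 : ℤ) - s ^ (-2 : ℤ)) * aq s j * aq s m) * h3 -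
        (s ^ (-(2 * (j : ℤ))) * aq s j) * h2
  rw [mul_add, hA, hB, h1]
  ring

variable {R : Type} [Ring R] [Algebra K R] {x y : R}

/-- moving `y` past a power of `x` -/
theorem y_pow (h0 : s ≠ 0) (hxy : x * y = (s ^ 4) • (y * x)) (i : ℕ) :
    y * x ^ i = s ^ (-(4 * (i : ℤ))) • (x ^ i * y) := by
  have h1 : y * x = s ^ (-4 : ℤ) • (x * y) := by
    rw [hxy, smul_smul]
    have : s ^ (-4 : ℤ) * s ^ 4 = 1 := by
      rw [zpow_neg]
      exact_mod_cast inv_mul_cancel₀ (pow_ne_zero 4 h0)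
    rw [this, one_smul]
  induction i with
  | zero => simp
  | succ i ih =>
    rw [pow_succ, ← mul_assoc, ih, smul_mul_assoc, mul_assoc, h1, mul_smul_comm, smul_smul,
      ← zpow_add₀ h0, mul_assoc]
    congr 2
    push_cast
    ring

end QEXP

theorem qexp (hq : QNUM_Stmt) : QEXP_Stmt := by
  intro K _ s hs R _ _ x y hxy n
  have h0 : s ≠ 0 := hs.1
  obtain ⟨-, hnz, -⟩ := hq K s hs
  induction n with
  | zero =>
    have h1 : aq s 0 = 1 := by simp [aq, qfac]
    simp [h1]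
  | succ n ih =>
    have h1 : qn s ((n : ℤ) + 1) ≠ 0 := hnz _ (by omega)
    -- the product of `x + y` and the sum for `n`
    have hx : x * ∑ i ∈ Finset.range (n + 1), (aq s i * aq s (n - i)) • (x ^ i * y ^ (n - i)) =
        ∑ j ∈ Finset.range (n + 2), (if j = 0 then 0 else aq s (j - 1) * aq s (n + 1 - j)) •
          (x ^ j * y ^ (n + 1 - j)) := by
      rw [Finset.sum_range_succ' _ (n + 1), if_pos rfl, zero_smul, add_zero, Finset.mul_sum]
      refine Finset.sum_congr rfl fun i _ => ?_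
      rw [if_neg (by omega), Nat.add_sub_cancel, show n + 1 - (i + 1) = n - i by omega,
        mul_smul_comm, ← mul_assoc, ← pow_succ']
    have hy : y * ∑ i ∈ Finset.range (n + 1), (aq s i * aq s (n - i)) • (x ^ i * y ^ (n - i)) =
        ∑ j ∈ Finset.range (n + 2), (if j = n + 1 then 0 else
          aq s j * aq s (n - j) * s ^ (-(4 * (j : ℤ)))) • (x ^ j * y ^ (n + 1 - j)) := by
      rw [Finset.sum_range_succ _ (n + 1), if_pos rfl, zero_smul, add_zero, Finset.mul_sum]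
      refine Finset.sum_congr rfl fun i hi => ?_
      rw [Finset.mem_range] at hi
      rw [if_neg (by omega), mul_smul_comm, ← mul_assoc, QEXP.y_pow h0 hxy, smul_mul_assoc,
        smul_smul, mul_assoc (x ^ i) y, ← pow_succ', show n + 1 - i = n - i + 1 by omega]
    have key : qn s ((n : ℤ) + 1) • (aq s (n + 1) • (x + y) ^ (n + 1)) =
        qn s ((n : ℤ) + 1) • ∑ i ∈ Finset.range (n + 1 + 1), (aq s i * aq s (n + 1 - i)) •
          (x ^ i * y ^ (n + 1 - i)) := by
      rw [smul_smul, QEXP.aq_succ hq hs n, pow_succ', mul_smul, ← mul_smul_comm, ih, add_mul, hx,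
        hy, ← Finset.sum_add_distrib, Finset.smul_sum, Finset.smul_sum]
      refine Finset.sum_congr rfl fun j hj => ?_
      rw [Finset.mem_range] at hj
      rw [← add_smul, smul_smul, smul_smul, QEXP.coef hq hs n j (by omega)]
    have key2 := congrArg (fun z => (qn s ((n : ℤ) + 1))⁻¹ • z) key
    simpa only [smul_smul, ← mul_assoc, inv_mul_cancel₀ h1, one_smul, one_mul] using key2

end Pool.Agent.IT
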