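import Pool.Agent.IT.Stmts

/-!
Iterated torus knots: identities for quantum integers (module QNUM).
-/

namespace Pool.Agent.IT

namespace QNUM

variable {K : Type} [Field K] {s : K}

theorem zpow_ne_one (h : Gen s) {w : ℤ} (hw : w ≠ 0) : s ^ (4 * w) ≠ 1 := by
  obtain ⟨h0, h1⟩ := h
  have key : ∀ n : ℕ, 0 < n → s ^ (4 * (n : ℤ)) ≠ 1 := by
    intro n hn h2
    apply h1 n hn
    rw [← h2, ← zpow_natCast]
    push_cast
    rfl
  rcases lt_or_gt_of_ne hw with h2 | h2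
  · intro h3
    apply key w.natAbs (Int.natAbs_pos.mpr hw)
    have h4 : ((w.natAbs : ℕ) : ℤ) = -w := by omega
    rw [h4, mul_neg, zpow_neg, h3, inv_one]
  · intro h3
    apply key w.natAbs (Int.natAbs_pos.mpr hw)
    have h4 : ((w.natAbs : ℕ) : ℤ) = w := by omega
    rw [h4, h3]

theorem num_ne (h : Gen s) {w : ℤ} (hw : w ≠ 0) : s ^ (2 * w) - s ^ (-(2 * w)) ≠ 0 := by
  intro h1
  apply zpow_ne_one h hw
  have h2 : s ^ (2 * w) = s ^ (-(2 * w)) := sub_eq_zero.mp h1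
  have h3 : (4 : ℤ) * w = 2 * w + 2 * w := by ring
  rw [h3, zpow_add₀ h.1]
  nth_rewrite 1 [h2]
  rw [← zpow_add₀ h.1, neg_add_cancel, zpow_zero]

theorem den_ne (h : Gen s) : s ^ (2 : ℤ) - s ^ (-2 : ℤ) ≠ 0 := by
  have := num_ne h (w := 1) one_ne_zero
  simpa using this

end QNUM

theorem qnum : QNUM_Stmt := by
  intro K _ s h
  have hs := h.1
  have hd := QNUM.den_ne h
  refine ⟨hd, ?_, ?_, ?_, ?_, ?_, ?_⟩
  · intro w hw
    exact div_ne_zero (QNUM.num_ne h hw) hd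
  · simp [qn]
  · unfold qn
    rw [mul_one]
    exact div_self hd
  · intro w
    unfold qn
    have h1 : -(2 * -w) = 2 * w := by ring
    have h2 : 2 * -w = -(2 * w) := by ring
    rw [h1, h2, ← neg_div, neg_sub]
  · intro a b c
    unfold qn
    have hx : s ^ (2 * a) ≠ 0 := zpow_ne_zero _ hs
    have hy : s ^ (2 * b) ≠ 0 := zpow_ne_zero _ hs
    have hz : s ^ (2 * c) ≠ 0 := zpow_ne_zero _ hs
    have e1 : s ^ (2 * (a + b)) = s ^ (2 * a) * s ^ (2 * b) := by
      rw [← zpow_add₀ hs]; congr 1; ring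
    have e2 : s ^ (2 * (a - b + c)) = s ^ (2 * a) * (s ^ (2 * b))⁻¹ * s ^ (2 * c) := by
      rw [← zpow_neg, ← zpow_add₀ hs, ← zpow_add₀ hs]; congr 1; ring
    have e3 : s ^ (2 * (a + c)) = s ^ (2 * a) * s ^ (2 * c) := by
      rw [← zpow_add₀ hs]; congr 1; ring
    have e4 : s ^ (2 * (b - c)) = s ^ (2 * b) * (s ^ (2 * c))⁻¹ := by
      rw [← zpow_neg, ← zpow_add₀ hs]; congr 1; ring
    simp only [zpow_neg, e1, e2, e3, e4]
    simp only [← zpow_neg s (2 : ℤ)]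
    generalize s ^ (2 * a) = x at *
    generalize s ^ (2 * b) = y at *
    generalize s ^ (2 * c) = z at *
    generalize s ^ (2 : ℤ) - s ^ (-(2 : ℤ)) = d at *
    field_simp
    ring
  · intro a b
    unfold qn
    have hx : s ^ (2 * a) ≠ 0 := zpow_ne_zero _ hs
    have hy : s ^ (2 * b) ≠ 0 := zpow_ne_zero _ hs
    have e1 : s ^ (2 * (a + b)) = s ^ (2 * a) * s ^ (2 * b) := by
      rw [← zpow_add₀ hs]; congr 1; ring
    simp only [zpow_neg, e1]
    simp only [← zpow_neg s (2 : ℤ)]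
    generalize s ^ (2 * a) = x at *
    generalize s ^ (2 * b) = y at *
    generalize s ^ (2 : ℤ) - s ^ (-(2 : ℤ)) = d at *
    field_simp
    ring

end Pool.Agent.IT
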