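import Pool.Agent.IT.Stmts

/-!
# Iterated torus knots: the braiding is a morphism of weight modules (QT)
-/

namespace Pool.Agent.IT
open Pool.Agent.LibH11
open scoped BigOperators Kronecker

namespace QT

variable {K : Type} [Field K] (s : K)
variable {ι κ : Type} [Fintype ι] [DecidableEq ι] [Fintype κ] [DecidableEq κ]

/-- The operator `q ^ H`. -/
def Kd (M : WM K ι) : Matrix ι ι K := Matrix.diagonal fun a => s ^ (2 * M.wt a)

/-- The operator `q ^ (-H)`. -/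
def Kd' (M : WM K ι) : Matrix ι ι K := Matrix.diagonal fun a => s ^ (-(2 * M.wt a))

/-- The quasi-R-matrix. -/
def Th (M : WM K ι) (N : WM K κ) : Matrix (ι × κ) (ι × κ) K :=
  ∑ n ∈ Finset.range (Fintype.card ι), aq s n • ((M.E ^ n) ⊗ₖ (N.F ^ n))

/-- The diagonal part of the braiding. -/
def Dg (M : WM K ι) (N : WM K κ) : Matrix (ι × κ) (ι × κ) K :=
  Matrix.diagonal fun x => s ^ (M.wt x.1 * N.wt x.2)

lemma Rm_eq (M : WM K ι) (N : WM K κ) :
    Rm s M N = (Dg s M N * Th s M N).submatrix (Equiv.prodComm κ ι) (Equiv.refl (ι × κ)) := by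
  ext x y
  simp only [Rm, Dg, Th, Matrix.submatrix_apply, Matrix.diagonal_mul, Equiv.prodComm_apply,
    Equiv.refl_apply, Prod.fst_swap, Prod.snd_swap, Matrix.sum_apply, Matrix.smul_apply,
    Matrix.kroneckerMap_apply, smul_eq_mul]
  congr 1
  refine Finset.sum_congr rfl fun n _ => ?_
  ring

lemma aq_succ (hq : QNUM_Stmt) (hs : Gen s) (n : ℕ) :
    aq s (n + 1) * qn s ((n : ℤ) + 1) = aq s n * (s ^ (2 * (n : ℤ)) *
      (s ^ (2 : ℤ) - s ^ (-2 : ℤ))) := by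
  obtain ⟨-, h2, -, -, -, -, -⟩ := hq K s hs
  have h3 : qn s ((n : ℤ) + 1) ≠ 0 := h2 _ (by positivity)
  have h4 : qfac s n ≠ 0 := Finset.prod_ne_zero_iff.2 fun i _ => h2 _ (by positivity)
  have h5 : qfac s (n + 1) = qfac s n * qn s ((n : ℤ) + 1) := Finset.prod_range_succ _ _
  have h6 : s ^ (((n + 1 : ℕ) : ℤ) * (((n + 1 : ℕ) : ℤ) - 1)) =
      s ^ ((n : ℤ) * (n - 1)) * s ^ (2 * (n : ℤ)) := by
    rw [← zpow_add₀ hs.1]
    congr 1
    push_cast
    ring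
  unfold aq
  rw [h5, h6, pow_succ]
  field_simp

lemma keyF (hq : QNUM_Stmt) (hn : NILP_Stmt) (hb : BRK_Stmt) (hs : Gen s) (N : WM K κ)
    (hN : Ok s N) (n : ℕ) :
    aq s (n + 1) • (N.E * N.F ^ (n + 1) - N.F ^ (n + 1) * N.E) =
      aq s n • (N.F ^ n * Kd s N - Kd' s N * N.F ^ n) := by
  obtain ⟨h1, -, -, -, -, -, -⟩ := hq K s hs
  rw [(hb K s hs κ N hN n).1, add_sub_cancel_left, smul_smul, aq_succ s hq hs n]
  ext a b
  simp only [Kd, Kd', Matrix.smul_apply, Matrix.sub_apply, Matrix.mul_diagonal,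
    Matrix.diagonal_mul, smul_eq_mul]
  by_cases h : (N.F ^ n) a b = 0
  · rw [h]; ring
  · have hw := (hn K s κ N hN).2.1 n a b h
    rw [hw]
    have e1 : s ^ (2 * N.wt b) = s ^ (2 * (n : ℤ)) * s ^ (2 * (N.wt b - n)) := by
      rw [← zpow_add₀ hs.1]; congr 1; ring
    have e2 : s ^ (-(2 * (N.wt b - 2 * (n : ℤ)))) = s ^ (2 * (n : ℤ)) *
        s ^ (-(2 * (N.wt b - n))) := by
      rw [← zpow_add₀ hs.1]; congr 1; ring
    rw [e1, e2]
    unfold qn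
    generalize s ^ (2 : ℤ) - s ^ (-2 : ℤ) = u at h1 ⊢
    field_simp

lemma keyE (hq : QNUM_Stmt) (hn : NILP_Stmt) (hb : BRK_Stmt) (hs : Gen s) (M : WM K ι)
    (hM : Ok s M) (n : ℕ) :
    aq s (n + 1) • (M.E ^ (n + 1) * M.F - M.F * M.E ^ (n + 1)) =
      aq s n • (Kd s M * M.E ^ n - M.E ^ n * Kd' s M) := by
  obtain ⟨h1, -, -, -, -, -, -⟩ := hq K s hs
  rw [(hb K s hs ι M hM n).2, add_sub_cancel_left, smul_smul, aq_succ s hq hs n]
  ext a b
  simp only [Kd, Kd', Matrix.smul_apply, Matrix.sub_apply, Matrix.mul_diagonal,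
    Matrix.diagonal_mul, smul_eq_mul]
  by_cases h : (M.E ^ n) a b = 0
  · rw [h]; ring
  · have hw := (hn K s ι M hM).1 n a b h
    rw [hw]
    have e1 : s ^ (2 * (M.wt b + 2 * (n : ℤ))) = s ^ (2 * (n : ℤ)) *
        s ^ (2 * (M.wt b + n)) := by
      rw [← zpow_add₀ hs.1]; congr 1; ring
    have e2 : s ^ (-(2 * M.wt b)) = s ^ (2 * (n : ℤ)) * s ^ (-(2 * (M.wt b + n))) := by
      rw [← zpow_add₀ hs.1]; congr 1; ring
    rw [e1, e2]
    unfold qn
    generalize s ^ (2 : ℤ) - s ^ (-2 : ℤ) = u at h1 ⊢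
    field_simp

lemma sum_shift {A : Type} [AddCommGroup A] (c : ℕ) (f g : ℕ → A) (h0 : f 0 = 0) (hc : f c = 0)
    (h : ∀ n, f (n + 1) = g n) : ∑ n ∈ Finset.range c, f n = ∑ n ∈ Finset.range c, g n := by
  have h1 : ∑ n ∈ Finset.range (c + 1), f n = ∑ n ∈ Finset.range c, f n + f c :=
    Finset.sum_range_succ _ _
  have h2 : ∑ n ∈ Finset.range (c + 1), f n = ∑ n ∈ Finset.range c, f (n + 1) + f 0 :=
    Finset.sum_range_succ' _ _
  rw [hc, add_zero] at h1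
  rw [h0, add_zero] at h2
  rw [← h1, h2]
  exact Finset.sum_congr rfl fun n _ => h n

omit [Fintype ι] [DecidableEq ι] [Fintype κ] [DecidableEq κ] in
lemma kr_sub (A : Matrix ι ι K) (B C : Matrix κ κ K) : A ⊗ₖ (B - C) = A ⊗ₖ B - A ⊗ₖ C := by
  ext x y
  simp only [Matrix.kroneckerMap_apply, Matrix.sub_apply, mul_sub]

omit [Fintype ι] [DecidableEq ι] [Fintype κ] [DecidableEq κ] in
lemma sub_kr (A B : Matrix ι ι K) (C : Matrix κ κ K) : (A - B) ⊗ₖ C = A ⊗ₖ C - B ⊗ₖ C := by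
  ext x y
  simp only [Matrix.kroneckerMap_apply, Matrix.sub_apply, sub_mul]

/-- `(1 ⊗ E + E ⊗ K⁻¹) Θ = Θ (E ⊗ K + 1 ⊗ E)`. -/
lemma Th_E (hq : QNUM_Stmt) (hn : NILP_Stmt) (hb : BRK_Stmt) (hs : Gen s) (M : WM K ι)
    (N : WM K κ) (hM : Ok s M) (hN : Ok s N) :
    ((1 : Matrix ι ι K) ⊗ₖ N.E + M.E ⊗ₖ Kd' s N) * Th s M N =
      Th s M N * (M.E ⊗ₖ Kd s N + (1 : Matrix ι ι K) ⊗ₖ N.E) := by
  have h1 : ∑ n ∈ Finset.range (Fintype.card ι),
      aq s n • ((M.E ^ n) ⊗ₖ (N.E * N.F ^ n - N.F ^ n * N.E)) =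
      ∑ n ∈ Finset.range (Fintype.card ι),
      aq s n • ((M.E ^ (n + 1)) ⊗ₖ (N.F ^ n * Kd s N - Kd' s N * N.F ^ n)) := by
    apply sum_shift
    · simp
    · rw [((hn K s ι M hM).2.2 _ le_rfl).1, Matrix.zero_kronecker, smul_zero]
    · intro n
      rw [← Matrix.kronecker_smul, keyF s hq hn hb hs N hN n, Matrix.kronecker_smul]
  have e1 : ((1 : Matrix ι ι K) ⊗ₖ N.E) * Th s M N - Th s M N * ((1 : Matrix ι ι K) ⊗ₖ N.E) =
      ∑ n ∈ Finset.range (Fintype.card ι),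
        aq s n • ((M.E ^ n) ⊗ₖ (N.E * N.F ^ n - N.F ^ n * N.E)) := by
    unfold Th
    rw [Finset.mul_sum, Finset.sum_mul, ← Finset.sum_sub_distrib]
    refine Finset.sum_congr rfl fun n _ => ?_
    rw [Matrix.mul_smul, Matrix.smul_mul, ← Matrix.mul_kronecker_mul, ← Matrix.mul_kronecker_mul,
      one_mul, mul_one, ← smul_sub, kr_sub]
  have e2 : Th s M N * (M.E ⊗ₖ Kd s N) - (M.E ⊗ₖ Kd' s N) * Th s M N =
      ∑ n ∈ Finset.range (Fintype.card ι),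
        aq s n • ((M.E ^ (n + 1)) ⊗ₖ (N.F ^ n * Kd s N - Kd' s N * N.F ^ n)) := by
    unfold Th
    rw [Finset.mul_sum, Finset.sum_mul, ← Finset.sum_sub_distrib]
    refine Finset.sum_congr rfl fun n _ => ?_
    rw [Matrix.mul_smul, Matrix.smul_mul, ← Matrix.mul_kronecker_mul, ← Matrix.mul_kronecker_mul,
      ← smul_sub, ← pow_succ, ← pow_succ', kr_sub]
  have h2 := e1.trans (h1.trans e2.symm)
  rw [add_mul, mul_add]
  have h3 := sub_eq_sub_iff_add_eq_add.1 h2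
  rw [h3, add_comm]

/-- `(K ⊗ F + F ⊗ 1) Θ = Θ (F ⊗ 1 + K⁻¹ ⊗ F)`. -/
lemma Th_F (hq : QNUM_Stmt) (hn : NILP_Stmt) (hb : BRK_Stmt) (hs : Gen s) (M : WM K ι)
    (N : WM K κ) (hM : Ok s M) (hN : Ok s N) :
    (Kd s M ⊗ₖ N.F + M.F ⊗ₖ (1 : Matrix κ κ K)) * Th s M N =
      Th s M N * (M.F ⊗ₖ (1 : Matrix κ κ K) + Kd' s M ⊗ₖ N.F) := by
  have h1 : ∑ n ∈ Finset.range (Fintype.card ι),
      aq s n • ((M.E ^ n * M.F - M.F * M.E ^ n) ⊗ₖ (N.F ^ n)) =
      ∑ n ∈ Finset.range (Fintype.card ι),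
      aq s n • ((Kd s M * M.E ^ n - M.E ^ n * Kd' s M) ⊗ₖ (N.F ^ (n + 1))) := by
    apply sum_shift
    · simp
    · rw [((hn K s ι M hM).2.2 _ le_rfl).1, zero_mul, mul_zero, sub_zero,
        Matrix.zero_kronecker, smul_zero]
    · intro n
      rw [← Matrix.smul_kronecker, keyE s hq hn hb hs M hM n, Matrix.smul_kronecker]
  have e1 : Th s M N * (M.F ⊗ₖ (1 : Matrix κ κ K)) - (M.F ⊗ₖ (1 : Matrix κ κ K)) * Th s M N =
      ∑ n ∈ Finset.range (Fintype.card ι),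
        aq s n • ((M.E ^ n * M.F - M.F * M.E ^ n) ⊗ₖ (N.F ^ n)) := by
    unfold Th
    rw [Finset.mul_sum, Finset.sum_mul, ← Finset.sum_sub_distrib]
    refine Finset.sum_congr rfl fun n _ => ?_
    rw [Matrix.mul_smul, Matrix.smul_mul, ← Matrix.mul_kronecker_mul, ← Matrix.mul_kronecker_mul,
      one_mul, mul_one, ← smul_sub, sub_kr]
  have e2 : (Kd s M ⊗ₖ N.F) * Th s M N - Th s M N * (Kd' s M ⊗ₖ N.F) =
      ∑ n ∈ Finset.range (Fintype.card ι),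
        aq s n • ((Kd s M * M.E ^ n - M.E ^ n * Kd' s M) ⊗ₖ (N.F ^ (n + 1))) := by
    unfold Th
    rw [Finset.mul_sum, Finset.sum_mul, ← Finset.sum_sub_distrib]
    refine Finset.sum_congr rfl fun n _ => ?_
    rw [Matrix.mul_smul, Matrix.smul_mul, ← Matrix.mul_kronecker_mul, ← Matrix.mul_kronecker_mul,
      ← smul_sub, ← pow_succ, ← pow_succ', sub_kr]
  have h2 := e1.trans (h1.trans e2.symm)
  rw [add_mul, mul_add]
  have h3 := sub_eq_sub_iff_add_eq_add.1 h2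
  rw [h3]

omit [Fintype ι] [Fintype κ] in
lemma tensE (M : WM K ι) (N : WM K κ) :
    (tens s M N).E = M.E ⊗ₖ Kd s N + (1 : Matrix ι ι K) ⊗ₖ N.E := by
  ext x y
  simp only [tens, Kd, Matrix.add_apply, Matrix.kroneckerMap_apply, Matrix.diagonal_apply,
    Matrix.one_apply]
  by_cases h1 : x.1 = y.1 <;> by_cases h2 : x.2 = y.2 <;> simp [h1, h2]

omit [Fintype ι] [Fintype κ] in
lemma tensF (M : WM K ι) (N : WM K κ) :
    (tens s M N).F = M.F ⊗ₖ (1 : Matrix κ κ K) + Kd' s M ⊗ₖ N.F := by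
  ext x y
  simp only [tens, Kd', Matrix.add_apply, Matrix.kroneckerMap_apply, Matrix.diagonal_apply,
    Matrix.one_apply]
  by_cases h1 : x.1 = y.1 <;> by_cases h2 : x.2 = y.2 <;> simp [h1, h2]

omit [Fintype ι] [Fintype κ] in
lemma tensE' (M : WM K ι) (N : WM K κ) :
    (tens s N M).E = (Kd s M ⊗ₖ N.E + M.E ⊗ₖ (1 : Matrix κ κ K)).submatrix
      (Equiv.prodComm κ ι) (Equiv.prodComm κ ι) := by
  ext x y
  simp only [tens, Kd, Matrix.add_apply, Matrix.kroneckerMap_apply, Matrix.diagonal_apply,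
    Matrix.one_apply, Matrix.submatrix_apply, Equiv.prodComm_apply, Prod.fst_swap, Prod.snd_swap]
  by_cases h1 : x.1 = y.1 <;> by_cases h2 : x.2 = y.2 <;> simp [h1, h2, mul_comm]

omit [Fintype ι] [Fintype κ] in
lemma tensF' (M : WM K ι) (N : WM K κ) :
    (tens s N M).F = ((1 : Matrix ι ι K) ⊗ₖ N.F + M.F ⊗ₖ Kd' s N).submatrix
      (Equiv.prodComm κ ι) (Equiv.prodComm κ ι) := by
  ext x y
  simp only [tens, Kd', Matrix.add_apply, Matrix.kroneckerMap_apply, Matrix.diagonal_apply,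
    Matrix.one_apply, Matrix.submatrix_apply, Equiv.prodComm_apply, Prod.fst_swap, Prod.snd_swap]
  by_cases h1 : x.1 = y.1 <;> by_cases h2 : x.2 = y.2 <;> simp [h1, h2, mul_comm]

lemma DgE (hs : Gen s) (M : WM K ι) (N : WM K κ) (hM : Ok s M) (hN : Ok s N) :
    (Kd s M ⊗ₖ N.E + M.E ⊗ₖ (1 : Matrix κ κ K)) * Dg s M N =
      Dg s M N * ((1 : Matrix ι ι K) ⊗ₖ N.E + M.E ⊗ₖ Kd' s N) := by
  ext x y
  simp only [Dg, Kd, Kd', Matrix.mul_diagonal, Matrix.diagonal_mul, Matrix.add_apply,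
    Matrix.kroneckerMap_apply, Matrix.diagonal_apply, Matrix.one_apply]
  have e1 : (if x.1 = y.1 then s ^ (2 * M.wt x.1) else 0) * N.E x.2 y.2 *
      s ^ (M.wt y.1 * N.wt y.2) = s ^ (M.wt x.1 * N.wt x.2) *
        ((if x.1 = y.1 then 1 else 0) * N.E x.2 y.2) := by
    by_cases h1 : x.1 = y.1
    · by_cases h2 : N.E x.2 y.2 = 0
      · rw [h2]; ring
      · rw [if_pos h1, if_pos h1, hN.wtE _ _ h2, h1]
        have : s ^ (M.wt y.1 * (N.wt y.2 + 2)) = s ^ (2 * M.wt y.1) *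
            s ^ (M.wt y.1 * N.wt y.2) := by
          rw [← zpow_add₀ hs.1]; congr 1; ring
        rw [this]; ring
    · rw [if_neg h1, if_neg h1]; ring
  have e2 : M.E x.1 y.1 * (if x.2 = y.2 then 1 else 0) * s ^ (M.wt y.1 * N.wt y.2) =
      s ^ (M.wt x.1 * N.wt x.2) * (M.E x.1 y.1 *
        (if x.2 = y.2 then s ^ (-(2 * N.wt x.2)) else 0)) := by
    by_cases h1 : x.2 = y.2
    · by_cases h2 : M.E x.1 y.1 = 0
      · rw [h2]; ring
      · rw [if_pos h1, if_pos h1, hM.wtE _ _ h2, h1]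
        have : s ^ (M.wt y.1 * N.wt y.2) = s ^ ((M.wt y.1 + 2) * N.wt y.2) *
            s ^ (-(2 * N.wt y.2)) := by
          rw [← zpow_add₀ hs.1]; congr 1; ring
        rw [this]; ring
    · rw [if_neg h1, if_neg h1]; ring
  rw [add_mul, mul_add, e1, e2]

lemma DgF (hs : Gen s) (M : WM K ι) (N : WM K κ) (hM : Ok s M) (hN : Ok s N) :
    ((1 : Matrix ι ι K) ⊗ₖ N.F + M.F ⊗ₖ Kd' s N) * Dg s M N =
      Dg s M N * (Kd s M ⊗ₖ N.F + M.F ⊗ₖ (1 : Matrix κ κ K)) := by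
  ext x y
  simp only [Dg, Kd, Kd', Matrix.mul_diagonal, Matrix.diagonal_mul, Matrix.add_apply,
    Matrix.kroneckerMap_apply, Matrix.diagonal_apply, Matrix.one_apply]
  have e1 : (if x.1 = y.1 then 1 else 0) * N.F x.2 y.2 * s ^ (M.wt y.1 * N.wt y.2) =
      s ^ (M.wt x.1 * N.wt x.2) *
        ((if x.1 = y.1 then s ^ (2 * M.wt x.1) else 0) * N.F x.2 y.2) := by
    by_cases h1 : x.1 = y.1
    · by_cases h2 : N.F x.2 y.2 = 0
      · rw [h2]; ring
      · rw [if_pos h1, if_pos h1, hN.wtF _ _ h2, h1]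
        have : s ^ (M.wt y.1 * N.wt y.2) = s ^ (M.wt y.1 * (N.wt y.2 - 2)) *
            s ^ (2 * M.wt y.1) := by
          rw [← zpow_add₀ hs.1]; congr 1; ring
        rw [this]; ring
    · rw [if_neg h1, if_neg h1]; ring
  have e2 : M.F x.1 y.1 * (if x.2 = y.2 then s ^ (-(2 * N.wt x.2)) else 0) *
      s ^ (M.wt y.1 * N.wt y.2) = s ^ (M.wt x.1 * N.wt x.2) * (M.F x.1 y.1 *
        (if x.2 = y.2 then 1 else 0)) := by
    by_cases h1 : x.2 = y.2
    · by_cases h2 : M.F x.1 y.1 = 0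
      · rw [h2]; ring
      · rw [if_pos h1, if_pos h1, hM.wtF _ _ h2, h1]
        have : s ^ ((M.wt y.1 - 2) * N.wt y.2) = s ^ (-(2 * N.wt y.2)) *
            s ^ (M.wt y.1 * N.wt y.2) := by
          rw [← zpow_add₀ hs.1]; congr 1; ring
        rw [this]; ring
    · rw [if_neg h1, if_neg h1]; ring
  rw [add_mul, mul_add, e1, e2]

lemma mor_Rm (hq : QNUM_Stmt) (hn : NILP_Stmt) (hb : BRK_Stmt) (hs : Gen s) (M : WM K ι)
    (N : WM K κ) (hM : Ok s M) (hN : Ok s N) :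
    Mor (tens s M N) (tens s N M) (Rm s M N) where
  wt := by
    intro x y h
    unfold Rm at h
    have h1 := right_ne_zero_of_mul h
    obtain ⟨n, -, h2⟩ := Finset.exists_ne_zero_of_sum_ne_zero h1
    have h3 := (hn K s κ N hN).2.1 n _ _ (right_ne_zero_of_mul h2)
    have h4 := (hn K s ι M hM).1 n _ _ (right_ne_zero_of_mul (left_ne_zero_of_mul h2))
    change N.wt x.1 + M.wt x.2 = M.wt y.1 + N.wt y.2
    rw [h3, h4]
    ring
  E := by
    rw [tensE' s M N, tensE s M N, Rm_eq, Matrix.submatrix_mul_equiv, ← Matrix.mul_assoc,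
      DgE s hs M N hM hN, Matrix.mul_assoc, Th_E s hq hn hb hs M N hM hN]
    conv_rhs => rw [← Matrix.submatrix_id_id (M.E ⊗ₖ Kd s N + (1 : Matrix ι ι K) ⊗ₖ N.E)]
    rw [← Matrix.mul_assoc]
    exact (Matrix.submatrix_mul_equiv (Dg s M N * Th s M N)
      (M.E ⊗ₖ Kd s N + (1 : Matrix ι ι K) ⊗ₖ N.E) (Equiv.prodComm κ ι)
      (Equiv.refl (ι × κ)) id).symm
  F := by
    rw [tensF' s M N, tensF s M N, Rm_eq, Matrix.submatrix_mul_equiv, ← Matrix.mul_assoc,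
      DgF s hs M N hM hN, Matrix.mul_assoc, Th_F s hq hn hb hs M N hM hN]
    conv_rhs => rw [← Matrix.submatrix_id_id (M.F ⊗ₖ (1 : Matrix κ κ K) + Kd' s M ⊗ₖ N.F)]
    rw [← Matrix.mul_assoc]
    exact (Matrix.submatrix_mul_equiv (Dg s M N * Th s M N)
      (M.F ⊗ₖ (1 : Matrix κ κ K) + Kd' s M ⊗ₖ N.F) (Equiv.prodComm κ ι)
      (Equiv.refl (ι × κ)) id).symm

end QT

open QT in
theorem qt (hq : QNUM_Stmt) (hn : NILP_Stmt) (hb : BRK_Stmt) (hr : RINV_Stmt) : QT_Stmt := by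
  intro K _ s hs ι κ _ _ _ _ M N hM hN
  have h1 := mor_Rm s hq hn hb hs M N hM hN
  obtain ⟨r1, r2⟩ := hr K s hs ι κ M N hM hN
  refine ⟨h1, ?_, ?_, ?_⟩
  · intro x y h
    unfold Rm' at h
    have h2 := left_ne_zero_of_mul h
    obtain ⟨n, -, h3⟩ := Finset.exists_ne_zero_of_sum_ne_zero h2
    have h4 := (hn K s κ N hN).2.1 n _ _ (right_ne_zero_of_mul h3)
    have h5 := (hn K s ι M hM).1 n _ _ (right_ne_zero_of_mul (left_ne_zero_of_mul h3))
    change M.wt x.1 + N.wt x.2 = N.wt y.1 + M.wt y.2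
    rw [h4, h5]
    ring
  · calc (tens s M N).E * Rm' s M N
        = Rm' s M N * Rm s M N * ((tens s M N).E * Rm' s M N) := by rw [r1, Matrix.one_mul]
      _ = Rm' s M N * (Rm s M N * (tens s M N).E) * Rm' s M N := by
          simp only [Matrix.mul_assoc]
      _ = Rm' s M N * ((tens s N M).E * Rm s M N) * Rm' s M N := by rw [h1.E]
      _ = Rm' s M N * (tens s N M).E * (Rm s M N * Rm' s M N) := by
          simp only [Matrix.mul_assoc]
      _ = Rm' s M N * (tens s N M).E := by rw [r2, Matrix.mul_one]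
  · calc (tens s M N).F * Rm' s M N
        = Rm' s M N * Rm s M N * ((tens s M N).F * Rm' s M N) := by rw [r1, Matrix.one_mul]
      _ = Rm' s M N * (Rm s M N * (tens s M N).F) * Rm' s M N := by
          simp only [Matrix.mul_assoc]
      _ = Rm' s M N * ((tens s N M).F * Rm s M N) * Rm' s M N := by rw [h1.F]
      _ = Rm' s M N * (tens s N M).F * (Rm s M N * Rm' s M N) := by
          simp only [Matrix.mul_assoc]
      _ = Rm' s M N * (tens s N M).F := by rw [r2, Matrix.mul_one]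

end Pool.Agent.IT
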