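import Pool.Agent.IT.Stmts

/-!
# Iterated torus knots: the representation of the braid group given by a braiding matrix
-/

namespace Pool.Agent.IT
open Pool.Agent.LibH11
open scoped BigOperators

namespace REP

variable {A : Type} [CommRing A] {ι : Type} [Fintype ι] [DecidableEq ι]

/-- The image of a generator. -/
noncomputable def unitAt (ha : ATP_Stmt) (T : RData A ι) {θ : Aˣ} (hT : Good T θ) {P : Type}
    [Fintype P] [DecidableEq P] (x y : P) (hxy : x ≠ y) : (Matrix (P → ι) (P → ι) A)ˣ where
  val := atp T.R x y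
  inv := atp T.R' x y
  val_inv := by
    have h := ha A ι P T.R T.R' 1 1 x y x y hxy
    rw [← h.1, hT.mul_inv, h.2.1]
  inv_val := by
    have h := ha A ι P T.R' T.R 1 1 x y x y hxy
    rw [← h.1, hT.inv_mul, h.2.1]

theorem cs_ne {n : ℕ} (i : Fin n) : i.castSucc ≠ i.succ := by
  rw [Ne, Fin.ext_iff]
  simp

end REP

/-- REP: the representation of the braid group. -/
theorem rep (ha : ATP_Stmt) : REP_Stmt := by
  intro A _ ι _ _ T θ hT n
  let f : Fin n → (Matrix (Fin (n + 1) → ι) (Fin (n + 1) → ι) A)ˣ :=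
    fun i => REP.unitAt ha T hT i.castSucc i.succ (REP.cs_ne i)
  have hf : ∀ i, (f i).val = atp T.R i.castSucc i.succ := fun _ => rfl
  have hf' : ∀ i, ((f i)⁻¹).val = atp T.R' i.castSucc i.succ := fun _ => rfl
  have h1 : ∀ i j : Fin n, (i : ℕ) + 2 ≤ (j : ℕ) → f i * f j = f j * f i := by
    intro i j hij
    apply Units.ext
    rw [Units.val_mul, Units.val_mul, hf, hf]
    refine ((ha A ι (Fin (n + 1)) T.R T.R 1 1 i.castSucc i.succ j.castSucc j.succ
      (REP.cs_ne i)).2.2.1 ?_ ?_ ?_ ?_ (REP.cs_ne j)).eq <;>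
    · rw [Ne, Fin.ext_iff]
      simp only [Fin.val_castSucc, Fin.val_succ]
      omega
  have h2 : ∀ i j : Fin n, (i : ℕ) + 1 = (j : ℕ) → f i * f j * f i = f j * f i * f j := by
    intro i j hij
    have hij' : i.succ = j.castSucc := by
      simp only [Fin.ext_iff, Fin.val_castSucc, Fin.val_succ]
      omega
    apply Units.ext
    rw [Units.val_mul, Units.val_mul, Units.val_mul, Units.val_mul, hf, hf, ← hij']
    refine (ha A ι (Fin (n + 1)) T.R T.R 1 1 i.castSucc i.succ j.succ j.succ
      (REP.cs_ne i)).2.2.2.2.2.2 ?_ ?_ hT.ybe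
    · rw [Ne, Fin.ext_iff]
      simp only [Fin.val_castSucc, Fin.val_succ]
      omega
    · rw [hij']
      exact REP.cs_ne j
  refine ⟨liftBr f h1 h2, ?_⟩
  have key : ∀ x : ℕ × Bool, ((liftBr f h1 h2 (gen n x) :
      (Matrix (Fin (n + 1) → ι) (Fin (n + 1) → ι) A)ˣ) :
        Matrix (Fin (n + 1) → ι) (Fin (n + 1) → ι) A) = opl T n x := by
    rintro ⟨i, e⟩
    unfold gen opl
    by_cases h : i < n
    · simp only [h, dif_pos]
      cases e
      · simp only [Bool.false_eq_true, if_false]
        rw [map_inv, liftBr_sg, hf']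
        rfl
      · simp only [if_true]
        rw [liftBr_sg, hf]
        rfl
    · simp only [h, dif_neg, not_false_eq_true]
      rw [map_one, Units.val_one]
  intro w
  induction w with
  | nil =>
    rw [ev_nil, map_one, Units.val_one]
    rfl
  | cons x w ih =>
    rw [ev_cons, map_mul, Units.val_mul, key, ih]
    unfold op
    rw [List.map_cons, List.prod_cons]

end Pool.Agent.IT
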