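import Pool.Agent.IT.Stmts

/-!
# RINV: the braiding is invertible (module IT_RINV)
-/

namespace Pool.Agent.IT

open scoped BigOperators

namespace RINV

theorem aq_zero {K : Type} [Field K] (s : K) : aq s 0 = 1 ∧ aq' s 0 = 1 := by
  unfold aq aq' qfac
  simp

/-- The Cauchy product of truncated sums. -/
theorem cauchy {K : Type} [Field K] (a b T : ℕ → K) (c : ℕ) (hT : ∀ l, c ≤ l → T l = 0) :
    ∑ n ∈ Finset.range c, ∑ m ∈ Finset.range c, a n * b m * T (n + m) =
      ∑ l ∈ Finset.range c, (∑ i ∈ Finset.range (l + 1), a i * b (l - i)) * T l := by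
  have h1 : ∀ n ∈ Finset.range c, ∑ m ∈ Finset.range c, a n * b m * T (n + m) =
      ∑ m ∈ Finset.range (c - n), a n * b m * T (n + m) := by
    intro n _
    symm
    apply Finset.sum_subset
    · intro m hm
      rw [Finset.mem_range] at hm ⊢
      omega
    · intro m _ hm
      rw [Finset.mem_range] at hm
      rw [hT (n + m) (by omega), mul_zero]
  rw [Finset.sum_congr rfl h1,
    ← Finset.sum_range_diag_flip c fun n m => a n * b m * T (n + m)]
  refine Finset.sum_congr rfl ?_
  intro l _
  rw [Finset.sum_mul]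
  refine Finset.sum_congr rfl ?_
  intro i hi
  rw [Finset.mem_range] at hi
  have h2 : i + (l - i) = l := by omega
  rw [h2]

end RINV

open RINV in
/-- RINV: the braiding is invertible. -/
theorem rinv (hb : QBIN_Stmt) (hn : NILP_Stmt) : RINV_Stmt := by
  intro K _ s hs ι κ _ _ _ _ M N hM hN
  have hs0 : s ≠ 0 := hs.1
  have key : Rm' s M N * Rm s M N = 1 := by
    ext x z
    rw [Matrix.mul_apply]
    have hE : ∀ l, Fintype.card ι ≤ l → M.E ^ l = 0 := fun l hl =>
      ((hn K s ι M hM).2.2 l hl).1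
    have h1 : ∀ y : κ × ι, Rm' s M N x y * Rm s M N y z =
        ∑ n ∈ Finset.range (Fintype.card ι), ∑ m ∈ Finset.range (Fintype.card ι),
          aq' s n * aq s m * ((M.E ^ n) x.1 y.2 * (M.E ^ m) y.2 z.1 *
            ((N.F ^ n) x.2 y.1 * (N.F ^ m) y.1 z.2)) := by
      intro y
      unfold Rm' Rm
      have h2 : s ^ (-(M.wt y.2 * N.wt y.1)) * s ^ (M.wt y.2 * N.wt y.1) = 1 := by
        rw [← zpow_add₀ hs0]
        simp
      have h3 : ∀ A B C D : K, C * D = 1 → A * C * (D * B) = A * B := by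
        intro A B C D h
        calc A * C * (D * B) = A * B * (C * D) := by ring
          _ = A * B := by rw [h, mul_one]
      rw [h3 _ _ _ _ h2, Finset.sum_mul_sum]
      refine Finset.sum_congr rfl fun n _ => Finset.sum_congr rfl fun m _ => ?_
      ring
    have h4 : ∀ n m : ℕ, ∑ y : κ × ι, aq' s n * aq s m *
        ((M.E ^ n) x.1 y.2 * (M.E ^ m) y.2 z.1 * ((N.F ^ n) x.2 y.1 * (N.F ^ m) y.1 z.2)) =
        aq' s n * aq s m * ((M.E ^ (n + m)) x.1 z.1 * (N.F ^ (n + m)) x.2 z.2) := by
      intro n m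
      rw [pow_add, pow_add, Matrix.mul_apply, Matrix.mul_apply, ← Finset.mul_sum,
        Finset.sum_mul_sum, Finset.sum_comm, Fintype.sum_prod_type]
    calc ∑ y : κ × ι, Rm' s M N x y * Rm s M N y z
        = ∑ y : κ × ι, ∑ n ∈ Finset.range (Fintype.card ι),
            ∑ m ∈ Finset.range (Fintype.card ι),
            aq' s n * aq s m * ((M.E ^ n) x.1 y.2 * (M.E ^ m) y.2 z.1 *
              ((N.F ^ n) x.2 y.1 * (N.F ^ m) y.1 z.2)) := Finset.sum_congr rfl fun y _ => h1 y
      _ = ∑ n ∈ Finset.range (Fintype.card ι), ∑ m ∈ Finset.range (Fintype.card ι),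
            aq' s n * aq s m * ((M.E ^ (n + m)) x.1 z.1 * (N.F ^ (n + m)) x.2 z.2) := by
          rw [Finset.sum_comm]
          refine Finset.sum_congr rfl fun n _ => ?_
          rw [Finset.sum_comm]
          exact Finset.sum_congr rfl fun m _ => h4 n m
      _ = ∑ l ∈ Finset.range (Fintype.card ι),
            (∑ i ∈ Finset.range (l + 1), aq' s i * aq s (l - i)) *
              ((M.E ^ l) x.1 z.1 * (N.F ^ l) x.2 z.2) :=
          cauchy (aq' s) (aq s) (fun l => (M.E ^ l) x.1 z.1 * (N.F ^ l) x.2 z.2) _ (by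
            intro l hl
            show (M.E ^ l) x.1 z.1 * (N.F ^ l) x.2 z.2 = 0
            rw [hE l hl]
            simp)
      _ = (1 : Matrix (ι × κ) (ι × κ) K) x z := by
          have hc : 0 < Fintype.card ι := Fintype.card_pos_iff.2 ⟨x.1⟩
          rw [Finset.sum_eq_single 0]
          · rw [zero_add, Finset.sum_range_one, (aq_zero s).1, (aq_zero s).2, pow_zero, pow_zero]
            simp only [Matrix.one_apply, Prod.ext_iff]
            by_cases h5 : x.1 = z.1 <;> by_cases h6 : x.2 = z.2 <;> simp [h5, h6]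
          · intro l _ hl
            rw [(hb K s hs l (Nat.pos_of_ne_zero hl)).2, zero_mul]
          · intro h
            exact absurd (Finset.mem_range.2 hc) h
  exact ⟨key, (Matrix.mul_eq_one_comm_of_equiv (Equiv.prodComm ι κ)).1 key⟩

end Pool.Agent.IT
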