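import Pool.Agent.IT.Stmts

/-!
# Iterated torus knots: endomorphisms of the simple module (module SCHUR)
-/

namespace Pool.Agent.IT
open Pool.Agent.LibH11
open scoped BigOperators

/-- SCHUR: endomorphisms of the simple module. -/
theorem schur (hq : QNUM_Stmt) : SCHUR_Stmt := by
  intro K _ s hs N X hX
  obtain ⟨-, hne, -⟩ := hq K s hs
  -- `X` is diagonal
  have hoff : ∀ a b : Fin N, a ≠ b → X a b = 0 := by
    intro a b hab
    by_contra h
    have h1 := hX.wt a b h
    simp only [V] at h1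
    apply hab
    apply Fin.ext
    omega
  -- neighbouring entries agree
  have hstep : ∀ (i : ℕ) (h : i + 1 < N),
      X ⟨i + 1, h⟩ ⟨i + 1, h⟩ = X ⟨i, by omega⟩ ⟨i, by omega⟩ := by
    intro i h
    have h1 := congrFun (congrFun hX.F ⟨i + 1, h⟩) ⟨i, by omega⟩
    rw [Matrix.mul_apply, Matrix.mul_apply] at h1
    rw [Finset.sum_eq_single (⟨i, by omega⟩ : Fin N), Finset.sum_eq_single (⟨i + 1, h⟩ : Fin N)]
      at h1
    · simp only [V, if_true] at h1
      have h2 : qn s ((i + 1 : ℕ) : ℤ) ≠ 0 := hne _ (by omega)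
      rw [mul_comm] at h1
      exact (mul_right_cancel₀ h2 h1).symm
    · intro b _ hb
      rw [hoff _ _ (Ne.symm hb), zero_mul]
    · intro hb
      exact absurd (Finset.mem_univ _) hb
    · intro b _ hb
      rw [hoff _ _ hb, mul_zero]
    · intro hb
      exact absurd (Finset.mem_univ _) hb
  have hall : ∀ (h0 : 0 < N) (i : ℕ) (h : i < N), X ⟨i, h⟩ ⟨i, h⟩ = X ⟨0, h0⟩ ⟨0, h0⟩ := by
    intro h0 i
    induction i with
    | zero => intro h; rfl
    | succ i ih =>
      intro h
      rw [hstep i h, ih (by omega)]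
  rcases Nat.eq_zero_or_pos N with h0 | h0
  · subst h0
    refine ⟨0, ?_⟩
    ext a b
    exact a.elim0
  · refine ⟨X ⟨0, h0⟩ ⟨0, h0⟩, ?_⟩
    ext a b
    rw [Matrix.smul_apply, Matrix.one_apply, smul_eq_mul]
    by_cases hab : a = b
    · subst hab
      rw [if_pos rfl, mul_one]
      exact hall h0 a.1 a.2
    · rw [if_neg hab, mul_zero]
      exact hoff a b hab

end Pool.Agent.IT
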