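import Pool.Agent.IT.Stmts

/-!
Iterated torus knots: module SOLV, the functional equation has an odd solution.
-/

namespace Pool.Agent.IT
namespace SOLV
open Pool.Agent.LibH11
open scoped BigOperators
open PowerSeries

/-- odd power series -/
def O (f : ℚ⟦X⟧) : Prop := dl (-1) f = -f

theorem coeff_dl (x : ℚ) (f : ℚ⟦X⟧) (n : ℕ) : coeff n (dl x f) = coeff n f * x ^ n := by
  unfold dl
  simp

theorem odd_iff (f : ℚ⟦X⟧) : O f ↔ ∀ m : ℕ, Even m → coeff m f = 0 := by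
  unfold O
  constructor
  · intro h m hm
    have h1 : coeff m (dl (-1) f) = coeff m (-f) := by rw [h]
    rw [coeff_dl, hm.neg_one_pow, map_neg] at h1
    linarith
  · intro h
    ext m
    rw [coeff_dl, map_neg]
    rcases Nat.even_or_odd m with hm | hm
    · rw [h m hm]
      simp
    · rw [hm.neg_one_pow]
      ring

theorem oddB_iff (F : B) : OddB F ↔ ∀ k : ℕ, O (coeff k F) := by
  unfold OddB
  constructor
  · intro h k
    exact (odd_iff _).mpr (h k)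
  · intro h k
    exact (odd_iff _).mp (h k)

theorem O_add {f g : ℚ⟦X⟧} (hf : O f) (hg : O g) : O (f + g) := by
  unfold O at *
  rw [map_add, hf, hg, neg_add]

theorem O_zero : O 0 := by
  unfold O
  simp

theorem O_smul {f : ℚ⟦X⟧} (c : ℚ) (hf : O f) : O (c • f) := by
  unfold O at *
  rw [map_smul, hf, smul_neg]

theorem O_sum {α : Type} (s : Finset α) (f : α → ℚ⟦X⟧) (h : ∀ i ∈ s, O (f i)) :
    O (∑ i ∈ s, f i) := by
  classical
  induction s using Finset.induction_on with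
  | empty =>
    rw [Finset.sum_empty]
    exact O_zero
  | insert a s ha ih =>
    rw [Finset.sum_insert ha]
    exact O_add (h a (Finset.mem_insert_self a s))
      (ih fun i hi => h i (Finset.mem_insert_of_mem hi))

theorem O_pow (L : ℚ⟦X⟧ →ₗ[ℚ] ℚ⟦X⟧) (hL : ∀ f, O f → O (L f)) (j : ℕ) {f : ℚ⟦X⟧} (hf : O f) :
    O ((L ^ j) f) := by
  induction j with
  | zero => simpa using hf
  | succ j ih =>
    rw [pow_succ', Module.End.mul_apply]
    exact hL _ ih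

theorem odd_xp (L : ℚ⟦X⟧ →ₗ[ℚ] ℚ⟦X⟧) (hL : ∀ f, O f → O (L f)) {F : B} (hF : OddB F) :
    OddB (xp L F) := by
  rw [oddB_iff] at *
  intro k
  unfold xp
  rw [coeff_mk]
  apply O_sum
  intro j _
  exact O_smul _ (O_pow L hL j (hF _))

theorem odd_cw (L : ℚ⟦X⟧ →ₗ[ℚ] ℚ⟦X⟧) (hL : ∀ f, O f → O (L f)) {F : B} (hF : OddB F) :
    OddB (cw L F) := by
  rw [oddB_iff] at *
  intro k
  unfold cw
  rw [coeff_mk]
  exact hL _ (hF k)

theorem cw_sub (L L' : ℚ⟦X⟧ →ₗ[ℚ] ℚ⟦X⟧) (F : B) : cw (L - L') F = cw L F - cw L' F := by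
  unfold cw
  ext1 n
  simp

theorem cw_mul (L L' : ℚ⟦X⟧ →ₗ[ℚ] ℚ⟦X⟧) (F : B) : cw (L * L') F = cw L (cw L' F) := by
  unfold cw
  ext1 n
  simp

theorem ml_sub (f g : ℚ⟦X⟧) : ml (f - g) = ml f - ml g := by
  unfold ml
  ext1 h
  simp [sub_mul]

theorem ml_mul (f g : ℚ⟦X⟧) : ml (f * g) = ml f * ml g := by
  unfold ml
  ext1 h
  simp

/-- the quotient of two series `E a - E (-a)` -/
theorem exists_quot (he : ESER_Stmt) (a b : ℚ) (ha : a ≠ 0) :
    ∃ S : ℚ⟦X⟧, (E a - E (-a)) * S = E b - E (-b) ∧ dl (-1) S = S := by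
  obtain ⟨-, -, hc, -, -, hdl, -, hmul, -, -⟩ := he
  have hD0 : ∀ a : ℚ, constantCoeff (E a - E (-a)) = 0 := by
    intro a
    rw [map_sub, hc, hc, sub_self]
  obtain ⟨D1, hD1⟩ := X_dvd_iff.mpr (hD0 a)
  obtain ⟨N1, hN1⟩ := X_dvd_iff.mpr (hD0 b)
  have hD1c : constantCoeff D1 = 2 * a := by
    have h1 : coeff 1 (E a - E (-a)) = coeff 1 (X * D1) := by rw [hD1]
    have h2 : coeff 1 ((X : ℚ⟦X⟧) * D1) = coeff 0 D1 := coeff_succ_X_mul 0 D1
    rw [h2] at h1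
    have h3 : coeff 1 (E a - E (-a)) = 2 * a := by
      unfold E
      rw [map_sub, coeff_mk, coeff_mk]
      norm_num
      ring
    rw [← coeff_zero_eq_constantCoeff_apply, ← h1, h3]
  have hne : constantCoeff D1 ≠ 0 := by
    rw [hD1c]
    simpa using ha
  have hD : E a - E (-a) ≠ 0 := by
    intro h
    rw [h] at hD1
    have : D1 = 0 := by
      have h3 := hD1.symm
      rcases mul_eq_zero.mp h3 with h4 | h4
      · exact absurd h4 X_ne_zero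
      · exact h4
    rw [this, map_zero] at hne
    exact hne rfl
  have hS : (E a - E (-a)) * (N1 * D1⁻¹) = E b - E (-b) := by
    rw [hD1, hN1]
    have : D1 * D1⁻¹ = 1 := PowerSeries.mul_inv_cancel D1 hne
    calc X * D1 * (N1 * D1⁻¹) = X * N1 * (D1 * D1⁻¹) := by ring
      _ = X * N1 := by rw [this, mul_one]
  refine ⟨N1 * D1⁻¹, hS, ?_⟩
  have h1 : ∀ a : ℚ, dl (-1) (E a - E (-a)) = -(E a - E (-a)) := by
    intro a
    rw [map_sub, hdl, hdl]
    have e1 : a * -1 = -a := by ring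
    have e2 : -a * -1 = a := by ring
    rw [e1, e2]
    ring
  have h2 : (E a - E (-a)) * dl (-1) (N1 * D1⁻¹) = E b - E (-b) := by
    have h3 := congrArg (dl (-1)) hS
    rw [hmul, h1, h1, neg_mul, neg_inj] at h3
    exact h3
  exact mul_left_cancel₀ hD (h2.trans hS.symm)

end SOLV

open PowerSeries SOLV in
theorem solv (he : ESER_Stmt) (hx : XPA_Stmt) (hc : CONJE_Stmt) : SOLV_Stmt := by
  intro p q F hp hq hF
  have he' := he
  obtain ⟨-, -, -, -, -, hdl, -, hmul, -, hdzdl⟩ := he'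
  obtain ⟨hx1, hx2, hx3, hx4⟩ := hx
  have hp0 : (p : ℚ) ≠ 0 := by
    have : p ≠ 0 := by omega
    exact_mod_cast this
  have hq0 : (q : ℚ) ≠ 0 := by exact_mod_cast hq
  have hpq0 : (p : ℚ) * q ≠ 0 := mul_ne_zero hp0 hq0
  obtain ⟨S, hS, hSe⟩ := exists_quot he ((p : ℚ) * q) q hpq0
  -- commuting facts
  have hcomm : ∀ (a b : ℚ) (L : ℚ⟦X⟧ →ₗ[ℚ] ℚ⟦X⟧), Commute (a • L) (b • L) := by
    intro a b L
    exact (Commute.refl L).smul_left a |>.smul_right b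
  have hinv : ∀ (a : ℚ) (L : ℚ⟦X⟧ →ₗ[ℚ] ℚ⟦X⟧) (G : B), xp ((-a) • L) (xp (a • L) G) = G := by
    intro a L G
    rw [← hx1 _ _ (hcomm (-a) a L), ← add_smul, neg_add_cancel, zero_smul, hx2]
  have hinv' : ∀ (a : ℚ) (L : ℚ⟦X⟧ →ₗ[ℚ] ℚ⟦X⟧) (G : B), xp (a • L) (xp ((-a) • L) G) = G := by
    intro a L G
    rw [← hx1 _ _ (hcomm a (-a) L), ← add_smul, add_neg_cancel, zero_smul, hx2]
  have hP : ∀ (c : ℚ) (M : ℚ⟦X⟧ →ₗ[ℚ] ℚ⟦X⟧) (G : B),
      cw M (xp (c • (1 : ℚ⟦X⟧ →ₗ[ℚ] ℚ⟦X⟧)) G) = xp (c • (1 : ℚ⟦X⟧ →ₗ[ℚ] ℚ⟦X⟧)) (cw M G) := by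
    intro c M G
    apply hx3
    rw [mul_smul_comm, smul_mul_assoc, mul_one, one_mul]
  -- the shift of the dilation
  have hdil : ∀ t : ℚ, cw (dl p) (sh t F) = sh (t / p) (cw (dl p) F) := by
    intro t
    unfold sh
    apply hx3
    ext1 f
    rw [Module.End.mul_apply, Module.End.mul_apply, LinearMap.smul_apply, LinearMap.smul_apply,
      map_smul, hdzdl, smul_smul]
    congr 1
    field_simp
  set a : ℚ := 1 / (2 * (p * q)) with ha
  set H : B := cw (dl p) F with hH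
  set K : B := xp ((-a) • dz ^ 2) H with hK
  set F' : B := xp (a • dz ^ 2)
    (xp (((p : ℚ) * q / 2 - q / (2 * p)) • (1 : ℚ⟦X⟧ →ₗ[ℚ] ℚ⟦X⟧)) (cw (ml S) K)) with hF'
  -- oddness
  have oneO : ∀ c : ℚ, ∀ f, O f → O ((c • (1 : ℚ⟦X⟧ →ₗ[ℚ] ℚ⟦X⟧)) f) := by
    intro c f hf
    rw [LinearMap.smul_apply, Module.End.one_apply]
    exact O_smul c hf
  have dzO : ∀ c : ℚ, ∀ f, O f → O ((c • dz ^ 2) f) := by
    intro c f hf
    rw [LinearMap.smul_apply]
    apply O_smul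
    rw [pow_two, Module.End.mul_apply]
    have h1 : ∀ g : ℚ⟦X⟧, dl (-1) (dz g) = - dz (dl (-1) g) := by
      intro g
      rw [hdzdl, neg_one_smul, neg_neg]
    unfold O at *
    rw [h1, h1, hf, show dz (-f) = -dz f from map_neg dz f, neg_neg]
  have dlO : ∀ f, O f → O (dl p f) := by
    intro f hf
    rw [odd_iff] at *
    intro m hm
    rw [coeff_dl, hf m hm, zero_mul]
  have mlO : ∀ f, O f → O (ml S f) := by
    intro f hf
    have h1 : ml S f = S * f := rfl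
    unfold O at *
    rw [h1, hmul, hSe, hf, mul_neg]
  have hodd : OddB F' := by
    refine odd_xp _ (dzO a) (odd_xp _ (oneO _) (odd_cw _ mlO (odd_xp _ (dzO (-a)) ?_)))
    exact odd_cw _ dlO hF
  refine ⟨F', hodd, ?_⟩
  -- the equation after application of the heat operator
  have key : ∀ (c t : ℚ) (G : B), 2 * (-a) * c = -t →
      xp ((-a) • dz ^ 2) (cw (ml (E c)) (sh t G)) =
        cw (ml (E c)) (xp (((-a) * c ^ 2) • (1 : ℚ⟦X⟧ →ₗ[ℚ] ℚ⟦X⟧)) (xp ((-a) • dz ^ 2) G)) := by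
    intro c t G h
    rw [hc, h]
    have : sh (-t) (sh t G) = G := hinv t dz G
    rw [this]
  have e1 : 2 * (-a) * ((p : ℚ) * q) = -1 := by
    rw [ha]
    field_simp
  have e2 : 2 * (-a) * (-((p : ℚ) * q)) = -(-1) := by
    rw [ha]
    field_simp
  have e3 : 2 * (-a) * (q : ℚ) = -(1 / (p : ℚ)) := by
    rw [ha]
    field_simp
  have e4 : 2 * (-a) * (-(q : ℚ)) = -(-1 / (p : ℚ)) := by
    rw [ha]
    field_simp
  have g1 : (-a) * ((p : ℚ) * q) ^ 2 = -((p : ℚ) * q / 2) := by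
    rw [ha]
    field_simp
  have g2 : (-a) * (-((p : ℚ) * q)) ^ 2 = -((p : ℚ) * q / 2) := by
    rw [ha]
    field_simp
  have g3 : (-a) * (q : ℚ) ^ 2 = -((q : ℚ) / (2 * p)) := by
    rw [ha]
    field_simp
  have g4 : (-a) * (-(q : ℚ)) ^ 2 = -((q : ℚ) / (2 * p)) := by
    rw [ha]
    field_simp
  have hTF : xp ((-a) • dz ^ 2) F' =
      xp (((p : ℚ) * q / 2 - q / (2 * p)) • (1 : ℚ⟦X⟧ →ₗ[ℚ] ℚ⟦X⟧)) (cw (ml S) K) := hinv a _ _
  have hT : xp ((-a) • dz ^ 2) (cw (ml (E (p * q))) (sh 1 F') - cw (ml (E (-(p * q)))) (sh (-1) F')) =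
      xp ((-a) • dz ^ 2) (cw (ml (E q)) (cw (dl p) (sh 1 F)) -
        cw (ml (E (-q))) (cw (dl p) (sh (-1) F))) := by
    rw [hx4, hx4, hdil, hdil, key _ _ _ e1, key _ _ _ e2, key _ _ _ e3, key _ _ _ e4, g1, g2, g3, g4,
      hTF, ← cw_sub, ← cw_sub, ← ml_sub, ← ml_sub, ← hx1 _ _ (hcomm _ _ _), ← add_smul, ← hP,
      ← cw_mul, ← ml_mul, hS]
    congr 3
    ring
  have h2 := congrArg (xp (a • dz ^ 2)) hT
  rw [hinv', hinv'] at h2
  exact h2

end Pool.Agent.IT
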