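import Pool.Agent.IT.Stmts

/-!
# Iterated torus knots: the braiding data of a direct sum of simple modules
-/

namespace Pool.Agent.IT
open Pool.Agent.LibH11
open scoped BigOperators

namespace SUBD

variable {K : Type} [Field K] (s : K) {r : ℕ} (a : Fin r → ℕ)

theorem E_eq : (dsum s a).E = Matrix.blockDiagonal' fun i => (V s (a i)).E := by
  ext ⟨i, j⟩ ⟨i', k⟩
  by_cases h : i = i'
  · subst h
    rw [Matrix.blockDiagonal'_apply_eq]
    simp only [dsum, V, true_and]
  · rw [Matrix.blockDiagonal'_apply_ne _ _ _ h]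
    simp only [dsum, h, false_and, if_false]

theorem F_eq : (dsum s a).F = Matrix.blockDiagonal' fun i => (V s (a i)).F := by
  ext ⟨i, j⟩ ⟨i', k⟩
  by_cases h : i = i'
  · subst h
    rw [Matrix.blockDiagonal'_apply_eq]
    simp only [dsum, V, true_and]
  · rw [Matrix.blockDiagonal'_apply_ne _ _ _ h]
    simp only [dsum, h, false_and, if_false]

theorem wt_eq (i : Fin r) (j : Fin (a i)) :
    (dsum s a).wt (inc a i j) = (V s (a i)).wt j := rfl

variable {a}

theorem pow_inc (M : ∀ i, Matrix (Fin (a i)) (Fin (a i)) K) (n : ℕ) (i : Fin r)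
    (j k : Fin (a i)) :
    (Matrix.blockDiagonal' M ^ n) (inc a i j) (inc a i k) = (M i ^ n) j k := by
  rw [← Matrix.blockDiagonal'_pow]
  exact Matrix.blockDiagonal'_apply_eq _ _ _ _

theorem pow_ne (M : ∀ i, Matrix (Fin (a i)) (Fin (a i)) K) (n : ℕ)
    (x y : Σ i : Fin r, Fin (a i)) (h : (Matrix.blockDiagonal' M ^ n) x y ≠ 0) :
    x.1 = y.1 := by
  by_contra hne
  apply h
  rw [← Matrix.blockDiagonal'_pow]
  obtain ⟨i, j⟩ := x
  obtain ⟨i', k⟩ := y
  exact Matrix.blockDiagonal'_apply_ne _ _ _ hne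

theorem mul_left_inc (M : ∀ i, Matrix (Fin (a i)) (Fin (a i)) K)
    (X : Matrix (Σ i : Fin r, Fin (a i)) (Σ i : Fin r, Fin (a i)) K) (i : Fin r) :
    (Matrix.blockDiagonal' M * X).submatrix (inc a i) (inc a i) =
      M i * X.submatrix (inc a i) (inc a i) := by
  ext j k
  rw [Matrix.submatrix_apply, Matrix.mul_apply, Matrix.mul_apply, Fintype.sum_sigma,
    Finset.sum_eq_single i]
  · refine Finset.sum_congr rfl fun l _ => ?_
    rw [Matrix.submatrix_apply]
    congr 1
    exact Matrix.blockDiagonal'_apply_eq _ _ _ _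
  · intro i' _ hi'
    refine Finset.sum_eq_zero fun l _ => ?_
    have : Matrix.blockDiagonal' M (inc a i j) ⟨i', l⟩ = 0 :=
      Matrix.blockDiagonal'_apply_ne _ _ _ (Ne.symm hi')
    rw [this, zero_mul]
  · intro h
    exact absurd (Finset.mem_univ _) h

theorem mul_right_inc (M : ∀ i, Matrix (Fin (a i)) (Fin (a i)) K)
    (X : Matrix (Σ i : Fin r, Fin (a i)) (Σ i : Fin r, Fin (a i)) K) (i : Fin r) :
    (X * Matrix.blockDiagonal' M).submatrix (inc a i) (inc a i) =
      X.submatrix (inc a i) (inc a i) * M i := by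
  ext j k
  rw [Matrix.submatrix_apply, Matrix.mul_apply, Matrix.mul_apply, Fintype.sum_sigma,
    Finset.sum_eq_single i]
  · refine Finset.sum_congr rfl fun l _ => ?_
    rw [Matrix.submatrix_apply]
    congr 1
    exact Matrix.blockDiagonal'_apply_eq _ _ _ _
  · intro i' _ hi'
    refine Finset.sum_eq_zero fun l _ => ?_
    have : Matrix.blockDiagonal' M ⟨i', l⟩ (inc a i k) = 0 :=
      Matrix.blockDiagonal'_apply_ne _ _ _ hi'
    rw [this, mul_zero]
  · intro h
    exact absurd (Finset.mem_univ _) h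

theorem card_le (i : Fin r) :
    Fintype.card (Fin (a i)) ≤ Fintype.card (Σ i : Fin r, Fin (a i)) := by
  refine Fintype.card_le_of_injective (inc a i) ?_
  intro j k h
  unfold inc at h
  rw [Sigma.mk.injEq] at h
  exact eq_of_heq h.2

end SUBD

open SUBD in
/-- SUBD: the braiding data of a direct sum. -/
theorem subd (hn : NILP_Stmt) (hv : VOK_Stmt) : SUBD_Stmt := by
  intro K _ s hs r a
  refine ⟨?_, ?_, ?_, ?_⟩
  · intro x y h
    have h' : s ^ ((dsum s a).wt x.2 * (dsum s a).wt x.1) *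
      ∑ n ∈ Finset.range (Fintype.card (Σ i : Fin r, Fin (a i))),
        aq s n * ((dsum s a).E ^ n) x.2 y.1 * ((dsum s a).F ^ n) x.1 y.2 ≠ 0 := h
    obtain ⟨n, _, hne⟩ := Finset.exists_ne_zero_of_sum_ne_zero (right_ne_zero_of_mul h')
    have h1 := right_ne_zero_of_mul hne
    have h2 := right_ne_zero_of_mul (left_ne_zero_of_mul hne)
    rw [F_eq] at h1
    rw [E_eq] at h2
    exact ⟨pow_ne _ n _ _ h1, pow_ne _ n _ _ h2⟩
  · intro x y h
    have h' : (∑ n ∈ Finset.range (Fintype.card (Σ i : Fin r, Fin (a i))),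
      aq' s n * ((dsum s a).E ^ n) x.1 y.2 * ((dsum s a).F ^ n) x.2 y.1) *
        s ^ (-((dsum s a).wt y.2 * (dsum s a).wt y.1)) ≠ 0 := h
    obtain ⟨n, _, hne⟩ := Finset.exists_ne_zero_of_sum_ne_zero (left_ne_zero_of_mul h')
    have h1 := right_ne_zero_of_mul hne
    have h2 := right_ne_zero_of_mul (left_ne_zero_of_mul hne)
    rw [F_eq] at h1
    rw [E_eq] at h2
    exact ⟨pow_ne _ n _ _ h2, pow_ne _ n _ _ h1⟩
  · intro i
    have hz := (hn K s (Fin (a i)) (V s (a i)) ((hv K s hs).1 (a i))).2.2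
    have hsub : Finset.range (Fintype.card (Fin (a i))) ⊆
        Finset.range (Fintype.card (Σ i : Fin r, Fin (a i))) :=
      Finset.range_subset_range.mpr (card_le i)
    unfold RData.sub RD
    rw [RData.mk.injEq]
    refine ⟨?_, ?_, ?_⟩
    · ext x y
      show s ^ ((V s (a i)).wt x.2 * (V s (a i)).wt x.1) *
        ∑ n ∈ Finset.range (Fintype.card (Σ i : Fin r, Fin (a i))),
          aq s n * ((dsum s a).E ^ n) (inc a i x.2) (inc a i y.1) *
            ((dsum s a).F ^ n) (inc a i x.1) (inc a i y.2) =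
        s ^ ((V s (a i)).wt x.2 * (V s (a i)).wt x.1) *
        ∑ n ∈ Finset.range (Fintype.card (Fin (a i))),
          aq s n * ((V s (a i)).E ^ n) x.2 y.1 * ((V s (a i)).F ^ n) x.1 y.2
      congr 1
      symm
      refine Finset.sum_subset_zero_on_sdiff hsub ?_ ?_
      · intro n hnn
        rw [Finset.mem_sdiff, Finset.mem_range, Finset.mem_range, not_lt] at hnn
        rw [E_eq, F_eq, pow_inc, pow_inc, (hz n hnn.2).1]
        simp
      · intro n _
        rw [E_eq, F_eq, pow_inc, pow_inc]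
    · ext x y
      show (∑ n ∈ Finset.range (Fintype.card (Σ i : Fin r, Fin (a i))),
          aq' s n * ((dsum s a).E ^ n) (inc a i x.1) (inc a i y.2) *
            ((dsum s a).F ^ n) (inc a i x.2) (inc a i y.1)) *
          s ^ (-((V s (a i)).wt y.2 * (V s (a i)).wt y.1)) =
        (∑ n ∈ Finset.range (Fintype.card (Fin (a i))),
          aq' s n * ((V s (a i)).E ^ n) x.1 y.2 * ((V s (a i)).F ^ n) x.2 y.1) *
          s ^ (-((V s (a i)).wt y.2 * (V s (a i)).wt y.1))
      congr 1
      symm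
      refine Finset.sum_subset_zero_on_sdiff hsub ?_ ?_
      · intro n hnn
        rw [Finset.mem_sdiff, Finset.mem_range, Finset.mem_range, not_lt] at hnn
        rw [E_eq, F_eq, pow_inc, pow_inc, (hz n hnn.2).1]
        simp
      · intro n _
        rw [E_eq, F_eq, pow_inc, pow_inc]
    · funext j
      rfl
  · intro X hX i
    refine ⟨?_, ?_, ?_⟩
    · intro b c hbc
      exact hX.wt _ _ hbc
    · rw [← mul_left_inc (fun i => (V s (a i)).E) X i,
        ← mul_right_inc (fun i => (V s (a i)).E) X i, ← E_eq, hX.E]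
    · rw [← mul_left_inc (fun i => (V s (a i)).F) X i,
        ← mul_right_inc (fun i => (V s (a i)).F) X i, ← F_eq, hX.F]

end Pool.Agent.IT
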