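import Pool.Agent.IT.Stmts

/-!
# Module SUMR: the recursion hidden in the cabling formula
-/

namespace Pool.Agent.IT
open Pool.Agent.LibH11
open scoped BigOperators

namespace SUMR

/-- The number of weights `w` of the simple module of dimension `N` with `p w = k`. -/
def wn (N p : ℕ) (k : ℤ) : ℤ :=
  ((Finset.univ.filter fun i : Fin N => (p : ℤ) * ((N : ℤ) - 1 - 2 * (i : ℕ)) = k).card : ℤ)

theorem cc_eq (N p : ℕ) (k : ℤ) : cc N p k = wn N p k - wn N p (k + 2) := rfl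

theorem wn_succ (m p : ℕ) (k : ℤ) : wn (m + 2) p k =
    (if (p : ℤ) * ((m : ℤ) + 1) = k then 1 else 0) +
      (if -((p : ℤ) * ((m : ℤ) + 1)) = k then 1 else 0) + wn m p k := by
  unfold wn
  rw [Finset.card_filter, Finset.card_filter, Fin.sum_univ_succ, Fin.sum_univ_castSucc]
  push_cast
  have e1 : (p : ℤ) * ((m : ℤ) + 2 - 1 - 2 * ((0 : Fin (m + 2)) : ℕ)) = p * ((m : ℤ) + 1) := by
    rw [Fin.val_zero]
    push_cast
    ring
  have e2 : (p : ℤ) * ((m : ℤ) + 2 - 1 - 2 * (((m : ℕ) : ℤ) + 1)) = -(p * ((m : ℤ) + 1)) := by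
    ring
  have e3 : ∀ i : Fin m, (p : ℤ) * ((m : ℤ) + 2 - 1 - 2 * (((i : ℕ) : ℤ) + 1)) =
      p * ((m : ℤ) - 1 - 2 * (i : ℕ)) := by
    intro i
    ring
  simp only [Fin.val_succ, Fin.val_castSucc, Fin.val_last, Nat.cast_add, Nat.cast_one, e1, e2, e3]
  ring

theorem wn_zero (N p : ℕ) (k : ℤ) (hp : 1 ≤ p) (hk : (p : ℤ) * N ≤ k) : wn N p k = 0 := by
  unfold wn
  rw [Nat.cast_eq_zero, Finset.card_eq_zero, Finset.filter_eq_empty_iff]
  intro i _ h
  have h1 : (p : ℤ) * ((N : ℤ) - 1 - 2 * (i : ℕ)) < p * N := by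
    apply mul_lt_mul_of_pos_left
    · have : (0 : ℤ) ≤ (i : ℕ) := Int.natCast_nonneg _
      linarith
    · exact_mod_cast hp
  linarith

theorem cc_zero (N p : ℕ) (k : ℤ) (hp : 1 ≤ p) (hk : (p : ℤ) * N ≤ k) : cc N p k = 0 := by
  rw [cc_eq, wn_zero N p k hp hk, wn_zero N p (k + 2) hp (by linarith), sub_zero]

theorem cc_succ (m p k : ℕ) (hp : 1 ≤ p) : cc (m + 2) p k - cc m p k =
    (if k = p * (m + 1) then 1 else 0) - (if k + 2 = p * (m + 1) then 1 else 0) := by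
  rw [cc_eq, cc_eq, wn_succ, wn_succ]
  have h0 : (0 : ℤ) < p * ((m : ℤ) + 1) := by positivity
  have hk : (0 : ℤ) ≤ (k : ℤ) := Int.natCast_nonneg k
  have h1 : ¬ -((p : ℤ) * ((m : ℤ) + 1)) = (k : ℤ) := by
    intro h
    linarith
  have h2 : ¬ -((p : ℤ) * ((m : ℤ) + 1)) = (k : ℤ) + 2 := by
    intro h
    linarith
  have h3 : ((p : ℤ) * ((m : ℤ) + 1) = (k : ℤ)) ↔ k = p * (m + 1) := by
    constructor
    · intro h
      exact_mod_cast h.symm
    · intro h
      exact_mod_cast h.symm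
  have h4 : ((p : ℤ) * ((m : ℤ) + 1) = (k : ℤ) + 2) ↔ k + 2 = p * (m + 1) := by
    constructor
    · intro h
      exact_mod_cast h.symm
    · intro h
      exact_mod_cast h.symm
  rw [if_neg h1, if_neg h2]
  simp only [h3, h4]
  ring

end SUMR

open SUMR

/-- SUMR. -/
theorem sumr : SUMR_Stmt := by
  intro A _ e he0 he JK p q hp hJK JC hJC N hN
  obtain ⟨m, rfl⟩ : ∃ m, N = m + 1 := ⟨N - 1, by omega⟩
  rw [Nat.add_sub_cancel]
  have hp0 : (p : ℚ) ≠ 0 := by
    have : 0 < p := hp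
    exact_mod_cast this.ne'
  -- the common exponential factor
  have hE1 : JC (m + 1 + 1) = ∑ k ∈ Finset.range (p * (m + 1 + 1)), (cc (m + 2) p k : A) *
      e ((-(((m + 1 + 1 : ℕ) : ℚ) ^ 2 - 1) * p * q + ((k + 1 : ℚ) ^ 2 - 1) * q / p) / 2) *
        JK (k + 1) := by
    rw [hJC (m + 1 + 1)]
    refine Finset.sum_congr rfl fun k _ => ?_
    congr 3
    ring
  have hE2 : JC m = ∑ k ∈ Finset.range (p * (m + 1 + 1)), (cc m p k : A) *
      e ((-(((m : ℕ) : ℚ) ^ 2 - 1) * p * q + ((k + 1 : ℚ) ^ 2 - 1) * q / p) / 2) *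
        JK (k + 1) := by
    rw [hJC m]
    rw [← Finset.sum_subset (Finset.range_subset_range.mpr
      (Nat.mul_le_mul_left p (by omega : m ≤ m + 1 + 1)))]
    · refine Finset.sum_congr rfl fun k _ => ?_
      congr 3
      ring
    · intro k _ hk
      rw [Finset.mem_range, not_lt] at hk
      rw [cc_zero m p k hp (by exact_mod_cast hk)]
      simp
  rw [hE1, hE2, Finset.mul_sum, Finset.mul_sum, ← Finset.sum_sub_distrib]
  have hterm : ∀ k ∈ Finset.range (p * (m + 1 + 1)),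
      e ((p : ℚ) * q * ((m + 1 : ℕ) : ℚ)) * ((cc (m + 2) p k : A) *
        e ((-(((m + 1 + 1 : ℕ) : ℚ) ^ 2 - 1) * p * q + ((k + 1 : ℚ) ^ 2 - 1) * q / p) / 2) *
          JK (k + 1)) -
      e (-((p : ℚ) * q * ((m + 1 : ℕ) : ℚ))) * ((cc m p k : A) *
        e ((-(((m : ℕ) : ℚ) ^ 2 - 1) * p * q + ((k + 1 : ℚ) ^ 2 - 1) * q / p) / 2) *
          JK (k + 1)) =
      (if k = p * (m + 1) then e ((q : ℚ) * ((m + 1 : ℕ) : ℚ)) * JK (p * (m + 1) + 1) else 0) -
      (if k + 2 = p * (m + 1) then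
        e (-((q : ℚ) * ((m + 1 : ℕ) : ℚ))) * JK (p * (m + 1) - 1) else 0) := by
    intro k _
    set F : A := e ((-(((m + 1 : ℕ) : ℚ) ^ 2) * p * q + ((k + 1 : ℚ) ^ 2 - 1) * q / p) / 2)
      with hF
    have e1 : e ((p : ℚ) * q * ((m + 1 : ℕ) : ℚ)) *
        e ((-(((m + 1 + 1 : ℕ) : ℚ) ^ 2 - 1) * p * q + ((k + 1 : ℚ) ^ 2 - 1) * q / p) / 2) =
        F := by
      rw [← he, hF]
      congr 1
      push_cast
      ring
    have e2 : e (-((p : ℚ) * q * ((m + 1 : ℕ) : ℚ))) *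
        e ((-(((m : ℕ) : ℚ) ^ 2 - 1) * p * q + ((k + 1 : ℚ) ^ 2 - 1) * q / p) / 2) = F := by
      rw [← he, hF]
      congr 1
      push_cast
      ring
    have e3 : e ((p : ℚ) * q * ((m + 1 : ℕ) : ℚ)) * ((cc (m + 2) p k : A) *
        e ((-(((m + 1 + 1 : ℕ) : ℚ) ^ 2 - 1) * p * q + ((k + 1 : ℚ) ^ 2 - 1) * q / p) / 2) *
          JK (k + 1)) -
      e (-((p : ℚ) * q * ((m + 1 : ℕ) : ℚ))) * ((cc m p k : A) *
        e ((-(((m : ℕ) : ℚ) ^ 2 - 1) * p * q + ((k + 1 : ℚ) ^ 2 - 1) * q / p) / 2) *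
          JK (k + 1)) = ((cc (m + 2) p k - cc m p k : ℤ) : A) * F * JK (k + 1) := by
      rw [Int.cast_sub]
      linear_combination ((cc (m + 2) p k : A) * JK (k + 1)) * e1 -
        ((cc m p k : A) * JK (k + 1)) * e2
    rw [e3, cc_succ m p k hp]
    push_cast
    rw [sub_mul, sub_mul]
    congr 1
    · by_cases h : k = p * (m + 1)
      · rw [if_pos h, if_pos h, one_mul, hF, h]
        congr 2
        push_cast
        field_simp
        ring
      · rw [if_neg h, if_neg h, zero_mul, zero_mul]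
    · by_cases h : k + 2 = p * (m + 1)
      · rw [if_pos h, if_pos h, one_mul, hF]
        have h5 : k + 1 = p * (m + 1) - 1 := by omega
        have h6 : (k : ℚ) + 1 = (p : ℚ) * ((m : ℚ) + 1) - 1 := by
          have : ((k + 2 : ℕ) : ℚ) = ((p * (m + 1) : ℕ) : ℚ) := by rw [h]
          push_cast at this
          linarith
        rw [h5, h6]
        congr 2
        push_cast
        field_simp
        ring
      · rw [if_neg h, if_neg h, zero_mul, zero_mul]
  rw [Finset.sum_congr rfl hterm, Finset.sum_sub_distrib, Finset.sum_ite_eq']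
  have h7 : p * (m + 1) ∈ Finset.range (p * (m + 1 + 1)) := by
    rw [Finset.mem_range]
    exact Nat.mul_lt_mul_of_pos_left (by omega) hp
  rw [if_pos h7]
  congr 1
  by_cases h8 : 2 ≤ p * (m + 1)
  · rw [Finset.sum_eq_single (p * (m + 1) - 2)]
    · rw [if_pos (by omega)]
    · intro k _ hk
      rw [if_neg]
      omega
    · intro h9
      exfalso
      apply h9
      rw [Finset.mem_range] at h7 ⊢
      omega
  · have h9 : p * (m + 1) = 1 := by
      have : 0 < p * (m + 1) := Nat.mul_pos hp (Nat.succ_pos m)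
      omega
    rw [Finset.sum_eq_zero, h9, Nat.sub_self, hJK, mul_zero]
    intro k _
    rw [if_neg]
    omega

end Pool.Agent.IT
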