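import Pool.Agent.IT.Stmts

/-!
# SURJ: `E` is surjective onto positive weights, injective on negative weights

See PAPER.md in this folder, section SURJ.
-/

set_option autoImplicit false

namespace Pool.Agent.IT

open scoped BigOperators

namespace SURJ

variable {K : Type} [Field K] {s : K} {ι : Type} [Fintype ι] [DecidableEq ι] {M : WM K ι}

/-- `v` is a weight vector of weight `m`. -/
def Wv (M : WM K ι) (m : ℤ) (v : ι → K) : Prop := ∀ a, v a ≠ 0 → M.wt a = m

omit [Fintype ι] [DecidableEq ι] in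
theorem Wv.zero (m : ℤ) : Wv M m 0 := fun _ h => absurd rfl h

omit [Fintype ι] [DecidableEq ι] in
theorem Wv.sub {m : ℤ} {v w : ι → K} (hv : Wv M m v) (hw : Wv M m w) : Wv M m (v - w) := by
  intro a h
  by_cases h1 : v a = 0
  · apply hw a
    intro h2
    apply h
    simp [h1, h2]
  · exact hv a h1

omit [Fintype ι] [DecidableEq ι] in
theorem Wv.smul {m : ℤ} {v : ι → K} (c : K) (hv : Wv M m v) : Wv M m (c • v) := by
  intro a h
  apply hv a
  intro h1
  apply h
  simp [h1]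

theorem Wv.E (hM : Ok s M) {m : ℤ} {v : ι → K} (hv : Wv M m v) : Wv M (m + 2) (M.E.mulVec v) := by
  intro a h
  rw [Matrix.mulVec, dotProduct] at h
  obtain ⟨b, -, hb⟩ := Finset.exists_ne_zero_of_sum_ne_zero h
  rw [hM.wtE a b (left_ne_zero_of_mul hb), hv b (right_ne_zero_of_mul hb)]

theorem Wv.F (hM : Ok s M) {m : ℤ} {v : ι → K} (hv : Wv M m v) : Wv M (m - 2) (M.F.mulVec v) := by
  intro a h
  rw [Matrix.mulVec, dotProduct] at h
  obtain ⟨b, -, hb⟩ := Finset.exists_ne_zero_of_sum_ne_zero h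
  rw [hM.wtF a b (left_ne_zero_of_mul hb), hv b (right_ne_zero_of_mul hb)]

theorem diag_mulVec {m : ℤ} {v : ι → K} (hv : Wv M m v) (f : ℤ → K) :
    (Matrix.diagonal fun a => f (M.wt a)).mulVec v = f m • v := by
  funext a
  rw [Matrix.mulVec_diagonal, Pi.smul_apply, smul_eq_mul]
  by_cases h : v a = 0
  · rw [h, mul_zero, mul_zero]
  · rw [hv a h]

theorem brkE (hb : BRK_Stmt) (hs : Gen s) (hM : Ok s M) {m : ℤ} {v : ι → K} (hv : Wv M m v)
    (n : ℕ) : (M.E ^ (n + 1)).mulVec (M.F.mulVec v) =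
      M.F.mulVec ((M.E ^ (n + 1)).mulVec v) +
        (qn s (n + 1) * qn s (m + n)) • (M.E ^ n).mulVec v := by
  have h := (hb K s hs ι M hM n).2
  have h1 := congrArg (fun X : Matrix ι ι K => X.mulVec v) h
  simp only [Matrix.add_mulVec, Matrix.smul_mulVec, ← Matrix.mulVec_mulVec] at h1
  rw [diag_mulVec hv (fun w => qn s (w + n)), Matrix.mulVec_smul, smul_smul] at h1
  exact h1

theorem brkF (hb : BRK_Stmt) (hs : Gen s) (hM : Ok s M) {m : ℤ} {v : ι → K} (hv : Wv M m v)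
    (n : ℕ) : M.E.mulVec ((M.F ^ (n + 1)).mulVec v) =
      (M.F ^ (n + 1)).mulVec (M.E.mulVec v) +
        (qn s (n + 1) * qn s (m - n)) • (M.F ^ n).mulVec v := by
  have h := (hb K s hs ι M hM n).1
  have h1 := congrArg (fun X : Matrix ι ι K => X.mulVec v) h
  simp only [Matrix.add_mulVec, Matrix.smul_mulVec, ← Matrix.mulVec_mulVec] at h1
  rw [diag_mulVec hv (fun w => qn s (w - n)), Matrix.mulVec_smul, smul_smul] at h1
  exact h1

theorem surjE (hq : ∀ w : ℤ, w ≠ 0 → qn s w ≠ 0) (hb : BRK_Stmt) (hs : Gen s) (hM : Ok s M)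
    {m : ℤ} (hm : 1 ≤ m) (j : ℕ) : ∀ v : ι → K, Wv M m v → (M.E ^ j).mulVec v = 0 →
      ∃ u : ι → K, Wv M (m - 2) u ∧ M.E.mulVec u = v := by
  induction j with
  | zero =>
    intro v _ h
    rw [pow_zero, Matrix.one_mulVec] at h
    exact ⟨0, Wv.zero _, by rw [Matrix.mulVec_zero, h]⟩
  | succ j ih =>
    intro v hv h
    have h1 := brkE hb hs hM hv j
    rw [h, Matrix.mulVec_zero, zero_add] at h1
    set c := qn s (j + 1) * qn s (m + j) with hc
    have hc0 : c ≠ 0 := mul_ne_zero (hq _ (by omega)) (hq _ (by omega))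
    have hEF : Wv M m (M.E.mulVec (M.F.mulVec v)) := by
      have := (hv.F hM).E hM
      rwa [sub_add_cancel] at this
    obtain ⟨u', hu', hu'2⟩ := ih (M.E.mulVec (M.F.mulVec v) - c • v) (hEF.sub (hv.smul c)) (by
      rw [Matrix.mulVec_sub, Matrix.mulVec_smul, Matrix.mulVec_mulVec, ← pow_succ, h1, sub_self])
    refine ⟨c⁻¹ • (M.F.mulVec v - u'), ((hv.F hM).sub hu').smul _, ?_⟩
    rw [Matrix.mulVec_smul, Matrix.mulVec_sub, hu'2, sub_sub_cancel, smul_smul,
      inv_mul_cancel₀ hc0, one_smul]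

theorem surjF (hq : ∀ w : ℤ, w ≠ 0 → qn s w ≠ 0) (hb : BRK_Stmt) (hs : Gen s) (hM : Ok s M)
    {m : ℤ} (hm : m ≤ -1) (j : ℕ) : ∀ v : ι → K, Wv M m v → (M.F ^ j).mulVec v = 0 →
      ∃ u : ι → K, Wv M (m + 2) u ∧ M.F.mulVec u = v := by
  induction j with
  | zero =>
    intro v _ h
    rw [pow_zero, Matrix.one_mulVec] at h
    exact ⟨0, Wv.zero _, by rw [Matrix.mulVec_zero, h]⟩
  | succ j ih =>
    intro v hv h
    have h1 := brkF hb hs hM hv j
    rw [h, Matrix.mulVec_zero] at h1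
    set c := -(qn s (j + 1) * qn s (m - j)) with hc
    have hc0 : c ≠ 0 := neg_ne_zero.mpr (mul_ne_zero (hq _ (by omega)) (hq _ (by omega)))
    have h2 : (M.F ^ (j + 1)).mulVec (M.E.mulVec v) = c • (M.F ^ j).mulVec v := by
      rw [hc, neg_smul]
      exact eq_neg_of_add_eq_zero_left h1.symm
    have hFE : Wv M m (M.F.mulVec (M.E.mulVec v)) := by
      have := (hv.E hM).F hM
      rwa [add_sub_cancel_right] at this
    obtain ⟨u', hu', hu'2⟩ := ih (M.F.mulVec (M.E.mulVec v) - c • v) (hFE.sub (hv.smul c)) (by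
      rw [Matrix.mulVec_sub, Matrix.mulVec_smul, Matrix.mulVec_mulVec, ← pow_succ, h2, sub_self])
    refine ⟨c⁻¹ • (M.E.mulVec v - u'), ((hv.E hM).sub hu').smul _, ?_⟩
    rw [Matrix.mulVec_smul, Matrix.mulVec_sub, hu'2, sub_sub_cancel, smul_smul,
      inv_mul_cancel₀ hc0, one_smul]

theorem inj (hq : ∀ w : ℤ, w ≠ 0 → qn s w ≠ 0) (hb : BRK_Stmt) (hs : Gen s) (hM : Ok s M)
    {m : ℤ} (hm : m ≤ -1) {v : ι → K} (hv : Wv M m v) (hE : M.E.mulVec v = 0) (n : ℕ) :
    (M.F ^ n).mulVec v = 0 → v = 0 := by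
  induction n with
  | zero => intro h; rwa [pow_zero, Matrix.one_mulVec] at h
  | succ n ih =>
    intro h
    have h1 := brkF hb hs hM hv n
    rw [h, hE, Matrix.mulVec_zero, Matrix.mulVec_zero, zero_add] at h1
    apply ih
    have hc0 : qn s (n + 1) * qn s (m - n) ≠ 0 :=
      mul_ne_zero (hq _ (by omega)) (hq _ (by omega))
    exact (smul_eq_zero.mp h1.symm).resolve_left hc0

end SURJ

/-- SURJ: `E` is surjective onto positive weights, injective on negative weights. -/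
theorem surj (hq : QNUM_Stmt) (hn : NILP_Stmt) (hb : BRK_Stmt) : SURJ_Stmt := by
  intro K _ s hs ι _ _ M hM
  have hq' := (hq K s hs).2.1
  obtain ⟨hE, hF⟩ := (hn K s ι M hM).2.2 (Fintype.card ι) le_rfl
  refine ⟨fun m hm v hv => ?_, fun m hm v hv => ?_, fun m hm v hv h => ?_⟩
  · exact SURJ.surjE hq' hb hs hM hm (Fintype.card ι) v hv (by rw [hE, Matrix.zero_mulVec])
  · exact SURJ.surjF hq' hb hs hM hm (Fintype.card ι) v hv (by rw [hF, Matrix.zero_mulVec])
  · exact SURJ.inj hq' hb hs hM hm hv h (Fintype.card ι) (by rw [hF, Matrix.zero_mulVec])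

end Pool.Agent.IT
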