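import Pool.Agent.IT.Stmts

/-!
# Tensor products of weight modules
-/

namespace Pool.Agent.IT

namespace TENSOK

variable {K : Type} [Field K]

theorem kr_mul {ι ι' ι'' κ κ' κ'' : Type} [Fintype ι'] [Fintype κ']
    (A : Matrix ι ι' K) (B : Matrix ι' ι'' K) (C : Matrix κ κ' K) (D : Matrix κ' κ'' K) :
    kr A C * kr B D = kr (A * B) (C * D) := by
  ext x y
  simp only [kr, Matrix.mul_apply, Fintype.sum_prod_type, Finset.sum_mul_sum]
  refine Finset.sum_congr rfl fun i _ => Finset.sum_congr rfl fun j _ => ?_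
  ring

variable {ι κ : Type} [Fintype ι] [DecidableEq ι] [Fintype κ] [DecidableEq κ]

/-- The matrix `K`. -/
def KK (s : K) (M : WM K ι) : Matrix ι ι K := Matrix.diagonal fun a => s ^ (2 * M.wt a)

/-- The matrix `K⁻¹`. -/
def KI (s : K) (M : WM K ι) : Matrix ι ι K := Matrix.diagonal fun a => s ^ (-(2 * M.wt a))

omit [Fintype ι] [Fintype κ] in
theorem tens_E (s : K) (M : WM K ι) (N : WM K κ) :
    (tens s M N).E = kr M.E (KK s N) + kr 1 N.E := by
  ext x y
  simp only [tens, kr, KK, Matrix.add_apply, Matrix.diagonal_apply, Matrix.one_apply]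
  congr 1
  · by_cases h : x.2 = y.2
    · simp [h]
    · simp [h]
  · by_cases h : x.1 = y.1
    · simp [h]
    · simp [h]

omit [Fintype ι] [Fintype κ] in
theorem tens_F (s : K) (M : WM K ι) (N : WM K κ) :
    (tens s M N).F = kr M.F 1 + kr (KI s M) N.F := by
  ext x y
  simp only [tens, kr, KI, Matrix.add_apply, Matrix.diagonal_apply, Matrix.one_apply]
  congr 1
  · by_cases h : x.2 = y.2
    · simp [h]
    · simp [h]
  · by_cases h : x.1 = y.1
    · simp [h]
    · simp [h]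

theorem mix (s : K) (hs : s ≠ 0) (M : WM K ι) (N : WM K κ) (hM : Ok s M) (hN : Ok s N) :
    kr (M.E * KI s M) (KK s N * N.F) = kr (KI s M * M.E) (N.F * KK s N) := by
  ext x y
  simp only [kr, KK, KI, Matrix.mul_diagonal, Matrix.diagonal_mul]
  by_cases h1 : M.E x.1 y.1 = 0
  · simp [h1]
  by_cases h2 : N.F x.2 y.2 = 0
  · simp [h2]
  rw [hM.wtE _ _ h1, hN.wtF _ _ h2]
  have e : s ^ (-(2 * M.wt y.1)) * s ^ (2 * (N.wt y.2 - 2)) =
      s ^ (-(2 * (M.wt y.1 + 2))) * s ^ (2 * N.wt y.2) := by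
    rw [← zpow_add₀ hs, ← zpow_add₀ hs]
    congr 1
    ring
  calc M.E x.1 y.1 * s ^ (-(2 * M.wt y.1)) * (s ^ (2 * (N.wt y.2 - 2)) * N.F x.2 y.2)
      = (s ^ (-(2 * M.wt y.1)) * s ^ (2 * (N.wt y.2 - 2))) * (M.E x.1 y.1 * N.F x.2 y.2) := by ring
    _ = (s ^ (-(2 * (M.wt y.1 + 2))) * s ^ (2 * N.wt y.2)) * (M.E x.1 y.1 * N.F x.2 y.2) := by
        rw [e]
    _ = _ := by ring

theorem kr_sub_left {ι ι' κ κ' : Type} (A B : Matrix ι ι' K) (C : Matrix κ κ' K) :
    kr (A - B) C = kr A C - kr B C := by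
  ext x y
  simp only [kr, Matrix.sub_apply]
  ring

theorem kr_sub_right {ι ι' κ κ' : Type} (A : Matrix ι ι' K) (C D : Matrix κ κ' K) :
    kr A (C - D) = kr A C - kr A D := by
  ext x y
  simp only [kr, Matrix.sub_apply]
  ring

theorem comm (s : K) (hs : s ≠ 0)
    (hq : ∀ a b : ℤ, qn s (a + b) = qn s a * s ^ (2 * b) + s ^ (-(2 * a)) * qn s b)
    (M : WM K ι) (N : WM K κ) (hM : Ok s M) (hN : Ok s N) :
    (tens s M N).E * (tens s M N).F - (tens s M N).F * (tens s M N).E =
      Matrix.diagonal fun a => qn s ((tens s M N).wt a) := by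
  have h1 : (tens s M N).E * (tens s M N).F - (tens s M N).F * (tens s M N).E =
      kr (M.E * M.F - M.F * M.E) (KK s N) + kr (KI s M) (N.E * N.F - N.F * N.E) := by
    rw [tens_E, tens_F, kr_sub_left, kr_sub_right]
    simp only [add_mul, mul_add, kr_mul, Matrix.one_mul, Matrix.mul_one]
    rw [mix s hs M N hM hN]
    abel
  rw [h1, hM.comm, hN.comm]
  ext x y
  simp only [kr, KK, KI, tens, Matrix.add_apply, Matrix.diagonal_apply, hq]
  obtain ⟨x1, x2⟩ := x
  obtain ⟨y1, y2⟩ := y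
  by_cases e1 : x1 = y1
  · by_cases e2 : x2 = y2
    · simp [e1, e2]
    · simp [e2]
  · simp [e1]

theorem ok (s : K) (hs : s ≠ 0)
    (hq : ∀ a b : ℤ, qn s (a + b) = qn s a * s ^ (2 * b) + s ^ (-(2 * a)) * qn s b)
    (M : WM K ι) (N : WM K κ) (hM : Ok s M) (hN : Ok s N) : Ok s (tens s M N) := by
  refine ⟨?_, ?_, comm s hs hq M N hM hN⟩
  · intro x y h
    simp only [tens] at h ⊢
    by_cases h1 : x.2 = y.2 ∧ M.E x.1 y.1 ≠ 0
    · rw [h1.1, hM.wtE _ _ h1.2]
      ring
    · by_cases h2 : x.1 = y.1 ∧ N.E x.2 y.2 ≠ 0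
      · rw [h2.1, hN.wtE _ _ h2.2]
        ring
      · exfalso
        apply h
        have e1 : (if x.2 = y.2 then M.E x.1 y.1 * s ^ (2 * N.wt y.2) else 0) = 0 := by
          split_ifs with h3
          · have : M.E x.1 y.1 = 0 := by
              by_contra h4
              exact h1 ⟨h3, h4⟩
            rw [this, zero_mul]
          · rfl
        have e2 : (if x.1 = y.1 then N.E x.2 y.2 else 0) = 0 := by
          split_ifs with h3
          · by_contra h4
            exact h2 ⟨h3, h4⟩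
          · rfl
        rw [e1, e2, add_zero]
  · intro x y h
    simp only [tens] at h ⊢
    by_cases h1 : x.2 = y.2 ∧ M.F x.1 y.1 ≠ 0
    · rw [h1.1, hM.wtF _ _ h1.2]
      ring
    · by_cases h2 : x.1 = y.1 ∧ N.F x.2 y.2 ≠ 0
      · rw [h2.1, hN.wtF _ _ h2.2]
        ring
      · exfalso
        apply h
        have e1 : (if x.2 = y.2 then M.F x.1 y.1 else 0) = 0 := by
          split_ifs with h3
          · by_contra h4
            exact h1 ⟨h3, h4⟩
          · rfl
        have e2 : (if x.1 = y.1 then s ^ (-(2 * M.wt y.1)) * N.F x.2 y.2 else 0) = 0 := by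
          split_ifs with h3
          · have : N.F x.2 y.2 = 0 := by
              by_contra h4
              exact h2 ⟨h3, h4⟩
            rw [this, mul_zero]
          · rfl
        rw [e1, e2, add_zero]

theorem KK_mor (s : K) {ι' : Type} [Fintype ι'] [DecidableEq ι'] (M : WM K ι) (M' : WM K ι')
    (f : Matrix ι' ι K) (hf : Mor M M' f) : KK s M' * f = f * KK s M := by
  ext x y
  simp only [KK, Matrix.mul_diagonal, Matrix.diagonal_mul]
  by_cases h : f x y = 0
  · simp [h]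
  · rw [hf.wt _ _ h]
    ring

theorem KI_mor (s : K) {ι' : Type} [Fintype ι'] [DecidableEq ι'] (M : WM K ι) (M' : WM K ι')
    (f : Matrix ι' ι K) (hf : Mor M M' f) : KI s M' * f = f * KI s M := by
  ext x y
  simp only [KI, Matrix.mul_diagonal, Matrix.diagonal_mul]
  by_cases h : f x y = 0
  · simp [h]
  · rw [hf.wt _ _ h]
    ring

theorem mor (s : K) {ι' κ' : Type} [Fintype ι'] [DecidableEq ι'] [Fintype κ'] [DecidableEq κ']
    (M : WM K ι) (N : WM K κ) (M' : WM K ι') (N' : WM K κ')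
    (f : Matrix ι' ι K) (g : Matrix κ' κ K) (hf : Mor M M' f) (hg : Mor N N' g) :
    Mor (tens s M N) (tens s M' N') (kr f g) := by
  refine ⟨?_, ?_, ?_⟩
  · intro b a h
    simp only [kr] at h
    simp only [tens]
    rw [hf.wt _ _ (left_ne_zero_of_mul h), hg.wt _ _ (right_ne_zero_of_mul h)]
  · rw [tens_E, tens_E, Matrix.add_mul, Matrix.mul_add, kr_mul, kr_mul, kr_mul, kr_mul, hf.E, hg.E,
      KK_mor s N N' g hg, Matrix.one_mul, Matrix.mul_one]
  · rw [tens_F, tens_F, Matrix.add_mul, Matrix.mul_add, kr_mul, kr_mul, kr_mul, kr_mul, hf.F, hg.F,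
      KI_mor s M M' f hf, Matrix.one_mul, Matrix.mul_one]

end TENSOK

/-- The tensor product is a weight module; tensor products of morphisms are morphisms. -/
theorem tensok (hq : QNUM_Stmt) : TENSOK_Stmt := by
  intro K _ s hs ι κ ι' κ' _ _ _ _ _ _ _ _ M N M' N' hM hN
  have h := (hq K s hs).2.2.2.2.2.2
  exact ⟨TENSOK.ok s hs.1 h M N hM hN, fun f g hf hg => TENSOK.mor s M N M' N' f g hf hg⟩

end Pool.Agent.IT
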