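import Pool.Agent.IT.Stmts

namespace Pool.Agent.IT
open Pool.Agent.LibH11
open PowerSeries

namespace THMA

theorem nml_tail {x : ℕ × ℤ} {D : List (ℕ × ℤ)} (h : Nml (x :: D)) : Nml D := by
  cases D with
  | nil => trivial
  | cons y D => exact h.2.2

theorem nml_head {p : ℕ} {q : ℤ} {D : List (ℕ × ℤ)} (h : Nml ((p, q) :: D)) :
    2 ≤ p ∧ Nat.Coprime p q.natAbs := by
  cases D with
  | nil => exact ⟨h.1, h.2.1⟩
  | cons y D => exact ⟨h.1, h.2.1⟩

theorem exists_series (v : ℕ → Knot → ℚ⟦X⟧) (h0 : ∀ K, v 0 K = 0) (h1 : ∀ K, v 1 K = 1)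
    (hun : ∀ N : ℕ, (E 1 - E (-1)) * v N unknot = E N - E (-N))
    (hrec : ∀ (n : ℕ) (w : Word) (h : IsKnot (ev n w)) (p : ℕ) (q : ℤ)
      (h' : IsKnot (ev (pn p n) (cab p q w))), Bd n w → 1 ≤ p → Int.gcd p q = 1 →
      Recur p q (fun N => v N (closure (ev n w) h))
        (fun N => v N (closure (ev (pn p n) (cab p q w)) h')))
    (hu : UNKF_Stmt) (hs : SOLV_Stmt) (he : EVREC_Stmt) (hl : LEADEQ_Stmt)
    {D : List (ℕ × ℤ)} {K : Knot} (h : ITD D K) :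
    Nml D → ∃ F : B, OddB F ∧ (∀ N : ℕ, evB N F = X * v N K) ∧ Lead D (coeff 0 F) (coeff 1 F) := by
  induction h with
  | nil =>
    intro _
    obtain ⟨F, hF1, hF2, hF3, hF4⟩ := hu (fun N => v N unknot) hun
    refine ⟨F, hF1, hF2, ?_⟩
    rw [hF3, hF4]
    exact Lead.nil
  | cons D n w h p q h' hb hp hg _ ih =>
    intro hN
    obtain ⟨F, hF1, hF2, hF3⟩ := ih (nml_tail hN)
    have hp2 := nml_head hN
    have hq : q ≠ 0 := by
      rintro rfl
      have h3 := hp2.2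
      rw [Int.natAbs_zero, Nat.coprime_zero_right] at h3
      omega
    obtain ⟨F', hF1', hF2'⟩ := hs p q F hp hq hF1
    refine ⟨F', hF1', ?_, ?_⟩
    · exact he p q F F' (fun N => v N (closure (ev n w) h))
        (fun N => v N (closure (ev (pn p n) (cab p q w)) h')) hp hF1 hF1' hF2'
        (hrec n w h p q h' hb hp hg) (h1 _) (h0 _) (h1 _) hF2
    · exact Lead.cons hp2.1 hq hF3 (hl p q F F' hF2')

end THMA

theorem thma (hc : CJ_Stmt) (hu : UNKF_Stmt) (hs : SOLV_Stmt) (he : EVREC_Stmt)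
    (hl : LEADEQ_Stmt) (hi : EVI_Stmt) (ht : TRANS_Stmt) (hj : INJ_Stmt) : THMA_Stmt := by
  intro D D' K K' hD hD' hK hK' hFT
  obtain ⟨v, hv, h0, h1, hun, hrec⟩ := hc
  obtain ⟨F, _, hF2, hF3⟩ := THMA.exists_series v h0 h1 hun hrec hu hs he hl hK hD
  obtain ⟨F', _, hF2', hF3'⟩ := THMA.exists_series v h0 h1 hun hrec hu hs he hl hK' hD'
  have hFF : F = F' := by
    apply hi
    intro N
    rw [hF2, hF2', hv N K K' hFT]
  subst hFF
  obtain ⟨e1, e2⟩ := ht D D' _ _ hF3 hF3'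
  exact hj D D' hD hD' e1 e2

end Pool.Agent.IT
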