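import Pool.Agent.IT.Stmts

/-!
# Iterated torus knots: the traces of the torus braids (module TOR)
-/

namespace Pool.Agent.IT
open Pool.Agent.LibH11
open scoped BigOperators
open PowerSeries

namespace TOR

section Op

variable {A : Type} [CommRing A] {ι : Type} [Fintype ι] [DecidableEq ι]

theorem op_append (T : RData A ι) (n : ℕ) (u v : Word) :
    op T n (u ++ v) = op T n u * op T n v := by
  unfold op
  rw [List.map_append, List.prod_append]

theorem op_replicate (T : RData A ι) (n k : ℕ) (w : Word) :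
    op T n (List.replicate k w).flatten = op T n w ^ k := by
  induction k with
  | zero => simp [op]
  | succ k ih =>
    rw [List.replicate_succ, List.flatten_cons, op_append, ih, pow_succ']

end Op

/-- the word of the torus braid -/
def base (p : ℕ) : Word := (List.range (p - 1)).map fun i => (i, true)

theorem tor_nonneg (p : ℕ) {r : ℤ} (h : 0 ≤ r) :
    tor p r = (List.replicate r.natAbs (base p)).flatten := by
  unfold tor base
  rw [if_pos h]

theorem tor_neg (p : ℕ) {r : ℤ} (h : ¬ 0 ≤ r) :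
    tor p r = (List.replicate r.natAbs (iw (base p))).flatten := by
  unfold tor base
  rw [if_neg h]

theorem toK_E_mul (he : ∀ a b : ℚ, E (a + b) = E a * E b) (a b : ℚ) :
    toK (E a) * toK (E b) = toK (E (a + b)) := by
  rw [he, map_mul]

theorem toK_E_pow (h0 : E 0 = 1) (he : ∀ a b : ℚ, E (a + b) = E a * E b) (a : ℚ) (n : ℕ) :
    toK (E a) ^ n = toK (E (n * a)) := by
  induction n with
  | zero => simp [h0]
  | succ n ih =>
    rw [pow_succ, ih, toK_E_mul he]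
    congr 2
    push_cast
    ring

/-- matrices of finite order -/
theorem scaled {m : ℕ} (h0 : E 0 = 1) (he : ∀ a b : ℚ, E (a + b) = E a * E b)
    (p : ℕ) (t : ℚ) (a b : Matrix (Fin m) (Fin m) KQ) (hba : b * a = 1)
    (hfull : a ^ (p + 1) = toK (E ((p + 1) * t)) • (1 : Matrix (Fin m) (Fin m) KQ)) :
    (∀ n : ℕ, ∃ Z : Matrix (Fin m) (Fin m) KQ, Z ^ (p + 1) = 1 ∧
      a ^ n = toK (E (n * t)) • Z) ∧
    (∀ n : ℕ, ∃ Z : Matrix (Fin m) (Fin m) KQ, Z ^ (p + 1) = 1 ∧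
      b ^ n = toK (E (-(n * t))) • Z) := by
  obtain ⟨Y, hY⟩ : ∃ Y : Matrix (Fin m) (Fin m) KQ, Y = toK (E (-t)) • a := ⟨_, rfl⟩
  have haY : a = toK (E t) • Y := by
    rw [hY, smul_smul, toK_E_mul he, add_neg_cancel, h0, map_one, one_smul]
  have hYp : Y ^ (p + 1) = 1 := by
    rw [hY, smul_pow, hfull, smul_smul, toK_E_pow h0 he, toK_E_mul he]
    have h1 : ((p + 1 : ℕ) : ℚ) * -t + ((p : ℚ) + 1) * t = 0 := by
      push_cast
      ring
    rw [h1, h0, map_one, one_smul]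
  have hbY : b = toK (E (-t)) • Y ^ p := by
    have h1 : b = b * (Y * Y ^ p) := by
      rw [← pow_succ', hYp, mul_one]
    have h2 : b * Y = toK (E (-t)) • (1 : Matrix (Fin m) (Fin m) KQ) := by
      rw [hY, mul_smul_comm, hba]
    rw [h1, ← mul_assoc, h2, smul_mul_assoc, one_mul]
  constructor
  · intro n
    refine ⟨Y ^ n, ?_, ?_⟩
    · rw [← pow_mul, mul_comm, pow_mul, hYp, one_pow]
    · rw [haY, smul_pow, toK_E_pow h0 he]
  · intro n
    refine ⟨(Y ^ p) ^ n, ?_, ?_⟩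
    · have h1 : ((Y ^ p) ^ n) ^ (p + 1) = (Y ^ (p + 1)) ^ (p * n) := by
        rw [← pow_mul, ← pow_mul, ← pow_mul]
        congr 1
        ring
      rw [h1, hYp, one_pow]
    · rw [hbY, smul_pow, toK_E_pow h0 he]
      congr 3
      ring

end TOR

theorem tor_mod (he : ESER_Stmt) (hm : MULT_Stmt) (ho : MOP_Stmt) (hf : FULL_Stmt)
    (hl : LIFT_Stmt) (hj : JMAP_Stmt) (ha : ALGC_Stmt) (hc : CLS_Stmt) (hi : OPINV_Stmt)
    (hr : RINV_Stmt) (hv : VOK_Stmt) (hk : FPOWOK_Stmt) : TOR_Stmt := by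
  intro N c k r hgcd
  obtain ⟨h0, hadd, hcc, hsE, hGen, -⟩ := he
  have hV : Ok sQ (V sQ N) := (hv KQ sQ hGen).1 N
  have hM : Ok sQ (fpow sQ (V sQ N) (c + 1)) := hk KQ sQ hGen (Fin N) (V sQ N) hV (c + 1)
  obtain ⟨m, P, Q, hQP, hEP, hPwt, hX⟩ :=
    hm KQ sQ hGen (Fin (c + 1) → Fin N) (fpow sQ (V sQ N) (c + 1)) hM k
  have hMor : ∀ w : Word, Mor (fpow sQ (V sQ N) (c + 1)) (fpow sQ (V sQ N) (c + 1))
      (op (RD sQ (V sQ N)) c w) := fun w => ho KQ sQ hGen (Fin N) (V sQ N) hV c w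
  -- the representation on the highest weight vectors
  have hmul : ∀ u v : Word, Q * op (RD sQ (V sQ N)) c (u ++ v) * P =
      (Q * op (RD sQ (V sQ N)) c u * P) * (Q * op (RD sQ (V sQ N)) c v * P) := by
    intro u v
    have h1 := (hX _ (hMor v)).1
    rw [TOR.op_append]
    calc Q * (op (RD sQ (V sQ N)) c u * op (RD sQ (V sQ N)) c v) * P
        = Q * op (RD sQ (V sQ N)) c u * (op (RD sQ (V sQ N)) c v * P) := by
          simp only [Matrix.mul_assoc]
      _ = Q * op (RD sQ (V sQ N)) c u * (P * (Q * op (RD sQ (V sQ N)) c v * P)) := by rw [h1]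
      _ = _ := by simp only [Matrix.mul_assoc]
  have hnil : Q * op (RD sQ (V sQ N)) c [] * P = 1 := by
    have h1 : op (RD sQ (V sQ N)) c [] = 1 := rfl
    rw [h1, Matrix.mul_one, hQP]
  have hrep : ∀ (w : Word) (n : ℕ), Q * op (RD sQ (V sQ N)) c (List.replicate n w).flatten * P =
      (Q * op (RD sQ (V sQ N)) c w * P) ^ n := by
    intro w n
    induction n with
    | zero => simpa using hnil
    | succ n ih =>
      rw [List.replicate_succ, List.flatten_cons, hmul, ih, pow_succ']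
  obtain ⟨t, ht⟩ : ∃ t : ℚ, t = (((k + 1 : ℚ) ^ 2 - 1) / (c + 1) - ((N : ℚ) ^ 2 - 1)) / 2 :=
    ⟨_, rfl⟩
  -- the inverse
  have hRR := hr KQ sQ hGen (Fin N) (Fin N) (V sQ N) (V sQ N) hV hV
  have hinv := (hi KQ (Fin N) (RD sQ (V sQ N)) hRR.2 hRR.1 c (TOR.base (c + 1))).2
  have hba : (Q * op (RD sQ (V sQ N)) c (iw (TOR.base (c + 1))) * P) *
      (Q * op (RD sQ (V sQ N)) c (TOR.base (c + 1)) * P) = 1 := by
    rw [← hmul, TOR.op_append, hinv, Matrix.mul_one, hQP]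
  -- the full twist
  have hfull : (Q * op (RD sQ (V sQ N)) c (TOR.base (c + 1)) * P) ^ (c + 1) =
      toK (E ((c + 1) * t)) • (1 : Matrix (Fin m) (Fin m) KQ) := by
    rw [← hrep]
    have h1 : (List.replicate (c + 1) (TOR.base (c + 1))).flatten =
        tor (c + 1) ((c : ℤ) + 1) := by
      rw [TOR.tor_nonneg (c + 1) (by positivity : (0 : ℤ) ≤ (c : ℤ) + 1)]
      congr 2
    rw [h1]
    have h2 : op (RD sQ (V sQ N)) c (tor (c + 1) ((c : ℤ) + 1)) * P =
        toK (E ((c + 1) * t)) • P := by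
      have hexp : sQ ^ (((k : ℤ) + 1) ^ 2 - 1 - ((c : ℤ) + 1) * ((N : ℤ) ^ 2 - 1)) =
          toK (E ((c + 1) * t)) := by
        rw [hsE]
        congr 2
        rw [ht]
        push_cast
        have hc0 : (c : ℚ) + 1 ≠ 0 := by positivity
        field_simp
      ext x j
      have h3 := hf KQ sQ hGen N c (k : ℤ) (fun x => P x j) (fun x hx => hPwt x j hx) (by
        funext x
        have h4 := congrFun (congrFun hEP x) j
        rw [Matrix.mul_apply] at h4
        exact h4)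
      have h5 := congrFun h3 x
      rw [hexp] at h5
      rw [Matrix.mul_apply]
      exact h5
    rw [Matrix.mul_assoc, h2, Matrix.mul_smul, hQP]
  obtain ⟨hZ1, hZ2⟩ := TOR.scaled h0 hadd c t _ _ hba hfull
  -- the torus braid
  have hZ : ∃ Z : Matrix (Fin m) (Fin m) KQ, Z ^ (c + 1) = 1 ∧
      Q * op (RD sQ (V sQ N)) c (tor (c + 1) r) * P = toK (E (r * t)) • Z := by
    by_cases hr0 : 0 ≤ r
    · obtain ⟨Z, hZa, hZb⟩ := hZ1 r.natAbs
      refine ⟨Z, hZa, ?_⟩
      rw [TOR.tor_nonneg _ hr0, hrep, hZb]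
      congr 3
      have h1 : (r.natAbs : ℚ) = (r : ℚ) := by
        rw [← Int.cast_natCast (R := ℚ) r.natAbs, Int.natAbs_of_nonneg hr0]
      rw [h1]
    · obtain ⟨Z, hZa, hZb⟩ := hZ2 r.natAbs
      refine ⟨Z, hZa, ?_⟩
      rw [TOR.tor_neg _ hr0, hrep, hZb]
      have h1 : (r.natAbs : ℤ) = -r := by omega
      have h2 : ((r.natAbs : ℤ) : ℚ) = -(r : ℚ) := by
        rw [h1]
        push_cast
        ring
      have h3 : -((r.natAbs : ℚ) * t) = (r : ℚ) * t := by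
        have h4 : (r.natAbs : ℚ) = -(r : ℚ) := by
          rw [← h2]
          exact (Int.cast_natCast _).symm
        rw [h4]
        ring
      rw [h3]
  obtain ⟨Z, hZp, hZe⟩ := hZ
  have htr := (hX _ (hMor (tor (c + 1) r))).2
  rw [hZe, Matrix.trace_smul, smul_eq_mul] at htr
  rw [← htr]
  -- integrality
  obtain ⟨T, hT, hTR, hTR', -⟩ := hl N
  have hop : op (RD sQ (V sQ N)) c (tor (c + 1) r) =
      (op T c (tor (c + 1) r)).map toK := by
    have hθ : ∃ θ : ℚ⟦X⟧ˣ, θ = 1 := ⟨1, rfl⟩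
    rw [← hT]
    exact ((hj ℚ⟦X⟧ KQ toK (Fin N) T 1 c (tor (c + 1) r)).1).symm
  have hwtr : ∀ j : ℤ, wtr (fpow sQ (V sQ N) (c + 1)) j (op (RD sQ (V sQ N)) c (tor (c + 1) r)) =
      toK (∑ x ∈ Finset.univ.filter (fun x : Fin (c + 1) → Fin N =>
        ∑ i, ((N : ℤ) - 1 - 2 * ((x i : Fin N) : ℕ)) = j), op T c (tor (c + 1) r) x x) := by
    intro j
    rw [map_sum, hop]
    rfl
  obtain ⟨f, hfdef⟩ : ∃ f : ℚ⟦X⟧, f = E (-(r * t)) *
      ((∑ x ∈ Finset.univ.filter (fun x : Fin (c + 1) → Fin N =>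
        ∑ i, ((N : ℤ) - 1 - 2 * ((x i : Fin N) : ℕ)) = (k : ℤ)), op T c (tor (c + 1) r) x x) -
      ∑ x ∈ Finset.univ.filter (fun x : Fin (c + 1) → Fin N =>
        ∑ i, ((N : ℤ) - 1 - 2 * ((x i : Fin N) : ℕ)) = (k : ℤ) + 2),
          op T c (tor (c + 1) r) x x) := ⟨_, rfl⟩
  have hfZ : toK f = Z.trace := by
    rw [hfdef, map_mul, map_sub, ← hwtr, ← hwtr, ← htr, ← mul_assoc, TOR.toK_E_mul hadd,
      neg_add_cancel, h0, map_one, one_mul]
  have hfC := ha m (c + 1) Z (Nat.succ_pos c) hZp f hfZ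
  have hconst : constantCoeff f = ((cc N (c + 1) k : ℤ) : ℚ) := by
    have h1 := hc (Fin N) T hTR hTR' (fun i => (N : ℤ) - 1 - 2 * ((i : Fin N) : ℕ)) c r hgcd
    rw [hfdef, map_mul, map_sub, hcc, one_mul, h1 (k : ℤ), h1 ((k : ℤ) + 2)]
    unfold cc
    push_cast
    rfl
  rw [← hfZ, hfC, hconst, mul_comm]
  have h2 : toK (C (((cc N (c + 1) k : ℤ)) : ℚ)) = ((cc N (c + 1) k : ℤ) : KQ) := by
    rw [map_intCast, map_intCast]
  rw [h2]
  congr 3
  rw [ht]
  ring

end Pool.Agent.IT
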