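import Pool.Agent.IT.Stmts

/-!
# TRC: the logarithmic derivative and the quotient are rational functions of `exp (2 z)`
-/

namespace Pool.Agent.IT.TRC
open Pool.Agent.IT
open PowerSeries

/-- `ex` is Mathlib's `expand`. -/
theorem ex_eq (p : ℕ) (hp : p ≠ 0) (f : ℚ⟦X⟧) : ex p f = PowerSeries.expand p hp f := by
  ext n
  rw [ex, coeff_mk, PowerSeries.coeff_expand]

theorem ex_mul (p : ℕ) (hp : p ≠ 0) (f g : ℚ⟦X⟧) : ex p (f * g) = ex p f * ex p g := by
  rw [ex_eq p hp, ex_eq p hp, ex_eq p hp, map_mul]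

theorem ex_poly (p : ℕ) (hp : p ≠ 0) (f : Polynomial ℚ) :
    ex p (f : ℚ⟦X⟧) = ((Polynomial.expand ℚ p f : Polynomial ℚ) : ℚ⟦X⟧) := by
  ext n
  rw [ex, coeff_mk, Polynomial.coeff_coe, Polynomial.coeff_coe,
    Polynomial.coeff_expand (Nat.pos_of_ne_zero hp)]

/-- The expansion of `coth`. -/
theorem Cs_mul (b : ℕ) (hb : 0 < b) : ((X : ℚ⟦X⟧) ^ b - 1) * Cs b = X ^ b + 1 := by
  ext n
  rw [sub_mul, one_mul, map_sub, map_add, coeff_X_pow_mul', coeff_X_pow, coeff_one]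
  unfold Cs
  simp only [coeff_mk]
  by_cases h0 : n = 0
  · subst h0
    rw [if_neg (by omega), if_pos rfl, if_neg (by omega), if_pos rfl]
    norm_num
  · rw [if_neg h0, if_neg h0]
    by_cases hbn : b ≤ n
    · rw [if_pos hbn]
      by_cases hn : n = b
      · subst hn
        rw [if_pos (Nat.sub_self n), if_pos (dvd_refl n), if_pos rfl]
        norm_num
      · rw [if_neg (by omega), if_neg hn]
        by_cases hd : b ∣ n
        · rw [if_pos hd, if_pos ((Nat.dvd_sub_iff_left hbn (dvd_refl b)).2 hd)]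
          norm_num
        · rw [if_neg hd, if_neg (fun h => hd ((Nat.dvd_sub_iff_left hbn (dvd_refl b)).1 h))]
          norm_num
    · rw [if_neg hbn, if_neg (fun h => hbn (Nat.le_of_dvd (by omega) h)), if_neg (by omega)]
      norm_num

/-- `dl x` as an algebra homomorphism. -/
noncomputable def dlA (he : ESER_Stmt) (x : ℚ) : ℚ⟦X⟧ →ₐ[ℚ] ℚ⟦X⟧ :=
  AlgHom.ofLinearMap (dl x) (by
    have h := he.2.2.2.2.2.1 x 0
    rw [zero_mul, he.1] at h
    exact h) (fun f g => he.2.2.2.2.2.2.2.1 x f g)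

theorem E_pow (he : ESER_Stmt) (a : ℚ) (n : ℕ) : E a ^ n = E (n * a) := by
  induction n with
  | zero => simp [he.1]
  | succ n ih =>
    rw [pow_succ, ih, ← he.2.1]
    congr 1
    push_cast
    ring

theorem dl_aeval (he : ESER_Stmt) (p : ℕ) (b : Polynomial ℚ) :
    dl p (Polynomial.aeval (E 2) b) = Polynomial.aeval (E 2) (Polynomial.expand ℚ p b) := by
  rw [Polynomial.expand_aeval]
  have h := Polynomial.aeval_algHom_apply (dlA he p) (E 2) b
  have h2 : (dlA he p) (E 2) = E 2 ^ p := by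
    rw [E_pow he]
    change dl p (E 2) = _
    rw [he.2.2.2.2.2.1]
    congr 1
    ring
  rw [h2] at h
  exact h.symm

theorem dl_inj (x : ℚ) (hx : x ≠ 0) (f : ℚ⟦X⟧) (h : dl x f = 0) : f = 0 := by
  ext n
  have h1 : coeff n (dl x f) = 0 := by
    rw [h]
    simp
  unfold dl at h1
  simp only [LinearMap.coe_mk, AddHom.coe_mk, coeff_mk] at h1
  rcases mul_eq_zero.1 h1 with h2 | h2
  · simpa using h2
  · exact absurd h2 (pow_ne_zero n hx)

theorem E_ne (he : ESER_Stmt) (a : ℚ) : E a ≠ 0 := by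
  intro h
  have h1 := he.2.2.1 a
  rw [h] at h1
  simp at h1

theorem E_sub_ne (a : ℚ) (ha : a ≠ 0) : E a - E (-a) ≠ 0 := by
  intro h
  have h1 : coeff 1 (E a - E (-a)) = 0 := by
    rw [h]
    simp
  unfold E at h1
  simp only [map_sub, coeff_mk] at h1
  norm_num at h1
  exact ha h1

/-- `exp (b z) (exp (b z) - exp (-b z)) = X ^ b - 1`. -/
theorem E_minus (he : ESER_Stmt) (b : ℕ) :
    E b * (E b - E (-b)) = Polynomial.aeval (E 2) (Polynomial.X ^ b - 1 : Polynomial ℚ) := by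
  rw [map_sub, map_pow, Polynomial.aeval_X, map_one, E_pow he, mul_sub, ← he.2.1, ← he.2.1,
    add_neg_cancel, he.1]
  congr 2
  ring

theorem E_plus (he : ESER_Stmt) (b : ℕ) :
    E b * (E b + E (-b)) = Polynomial.aeval (E 2) (Polynomial.X ^ b + 1 : Polynomial ℚ) := by
  rw [map_add, map_pow, Polynomial.aeval_X, map_one, E_pow he, mul_add, ← he.2.1, ← he.2.1,
    add_neg_cancel, he.1]
  congr 2
  ring

/-- Signs. -/
theorem E_sign (t : ℚ) (q : ℤ) (hq : q ≠ 0) :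
    E (t * q) - E (-(t * q)) =
      ((q.sign : ℤ) : ℚ⟦X⟧) * (E (t * q.natAbs) - E (-(t * q.natAbs))) ∧
    E (t * q) + E (-(t * q)) = E (t * q.natAbs) + E (-(t * q.natAbs)) := by
  rcases lt_or_gt_of_ne hq with h | h
  · have h1 : ((q.natAbs : ℕ) : ℚ) = -(q : ℚ) := by
      rw [Nat.cast_natAbs, abs_of_neg h]
      push_cast
      ring
    rw [h1, Int.sign_eq_neg_one_of_neg h]
    constructor
    · rw [mul_neg, neg_neg]
      push_cast
      ring
    · rw [mul_neg, neg_neg]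
      ring
  · have h1 : ((q.natAbs : ℕ) : ℚ) = (q : ℚ) := by
      rw [Nat.cast_natAbs, abs_of_pos h]
    rw [h1, Int.sign_eq_one_of_pos h]
    constructor
    · push_cast
      ring
    · rfl

/-- The algebra behind the first identity. -/
theorem alg1 {R : Type} [CommRing R] {e1 e2 A B Ap Bp g0 g0' h0 h0' b a q p sg b0 : R}
    (hs : sg * sg = 1) (hq : q = sg * b0) (Z : A * g0 = B * h0)
    (D : p * q * Ap * g0 + A * g0' = q * Bp * h0 + p * B * h0') (I : b * h0' = a * h0) :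
    (sg * e1 * B) * (sg * e2 * A) * b * g0' =
      (b0 * (e1 * Bp) * (sg * e2 * A) * b - p * b0 * (e2 * Ap) * (sg * e1 * B) * b +
        p * (sg * e1 * B) * (sg * e2 * A) * a) * g0 := by
  subst hq
  linear_combination (e1 * e2 * B * b) * D + (e1 * e2 * p * B * B) * I -
    (e1 * e2 * sg * b0 * Bp * b + e1 * e2 * p * B * a) * Z +
    (e1 * B * e2 * A * b * g0' - p * e1 * B * e2 * A * a * g0) * hs

/-- The algebra behind the second identity. -/
theorem alg2 {R : Type} [CommRing R] {e1 e2 A B Ap Bp g0 g1 g0' h0 h1 h0' b a c a1 sg : R}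
    (Z : A * g0 = B * h0)
    (O : A * g1 + Ap * g0' = B * h1 + Bp * h0') (I : b * h0' = a * h0) (I2 : b * h1 = c * h0)
    (G : (sg * e1 * B) * (sg * e2 * A) * b * g0' = a1 * g0) :
    (sg * e1 * B) * (sg * e2 * A) ^ 2 * b * g1 =
      ((sg * e1 * B) * (sg * e2 * A) ^ 2 * c + sg * (e1 * Bp) * (sg * e2 * A) ^ 2 * a -
        sg * (e2 * Ap) * a1) * g0 := by
  linear_combination (sg ^ 3 * e1 * e2 ^ 2 * A * B * b) * O +
    (sg ^ 3 * e1 * e2 ^ 2 * A * B * Bp) * I + (sg ^ 3 * e1 * e2 ^ 2 * A * B * B) * I2 -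
    (sg ^ 3 * e1 * e2 ^ 2 * A * B * c + sg ^ 3 * e1 * e2 ^ 2 * A * Bp * a) * Z -
    (sg * e2 * Ap) * G

/-- The algebra behind the third identity. -/
theorem alg3 {R : Type} [CommRing R] {al alp be bep b a p b0 Cb Cp U : R}
    (h1 : al * Cb = alp) (h2 : be * Cp = bep) (h3 : b * U = a) :
    al * be * b * (b0 * Cb - p * b0 * Cp + p * U) =
      b0 * alp * be * b - p * b0 * bep * al * b + p * al * be * a := by
  linear_combination (be * b * b0) * h1 - (al * b * p * b0) * h2 + (al * be * p) * h3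

/-- The algebra behind the fourth identity. -/
theorem alg4 {R : Type} [CommRing R] {al alp be bep b a c a1 sg Cb Cp U Ro u : R}
    (h1 : al * Cb = alp) (h2 : be * Cp = bep) (h3 : b * U = a) (h4 : b * Ro = c)
    (h5 : al * be * b * u = a1) :
    al * be ^ 2 * b * (Ro + sg * Cb * U - sg * Cp * u) =
      al * be ^ 2 * c + sg * alp * be ^ 2 * a - sg * bep * a1 := by
  linear_combination (al * be ^ 2) * h4 + (sg * be ^ 2 * b * U) * h1 + (sg * be ^ 2 * alp) * h3 -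
    (sg * al * be * b * u) * h2 - (sg * bep) * h5

theorem sign_sq (q : ℤ) (hq : q ≠ 0) :
    ((q.sign : ℤ) : ℚ⟦X⟧) * ((q.sign : ℤ) : ℚ⟦X⟧) = 1 := by
  rcases lt_or_gt_of_ne hq with h | h
  · rw [Int.sign_eq_neg_one_of_neg h]
    norm_num
  · rw [Int.sign_eq_one_of_pos h]
    norm_num

theorem sign_abs (q : ℤ) : (q : ℚ⟦X⟧) = ((q.sign : ℤ) : ℚ⟦X⟧) * ((q.natAbs : ℕ) : ℚ⟦X⟧) := by
  have h := Int.sign_mul_natAbs q
  calc (q : ℚ⟦X⟧) = ((q.sign * (q.natAbs : ℤ) : ℤ) : ℚ⟦X⟧) := by rw [h]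
    _ = _ := by rw [Int.cast_mul, Int.cast_natCast]

theorem smul_cast (r : ℤ) (f : ℚ⟦X⟧) : (r : ℚ) • f = (r : ℚ⟦X⟧) * f := by
  rw [Algebra.smul_def]
  simp

theorem nil_case (he : ESER_Stmt) :
    ((1 / 2 : ℚ) • (E 1 - E (-1)) : ℚ⟦X⟧) ≠ 0 ∧ ∃ a b c : Polynomial ℚ, b ≠ 0 ∧
    Polynomial.aeval (E 2) b * dz ((1 / 2 : ℚ) • (E 1 - E (-1))) =
      Polynomial.aeval (E 2) a * ((1 / 2 : ℚ) • (E 1 - E (-1))) ∧
    Polynomial.aeval (E 2) b * (0 : ℚ⟦X⟧) =
      Polynomial.aeval (E 2) c * ((1 / 2 : ℚ) • (E 1 - E (-1))) ∧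
    (b : ℚ⟦X⟧) * uS [] = (a : ℚ⟦X⟧) ∧ (b : ℚ⟦X⟧) * rS [] = (c : ℚ⟦X⟧) := by
  refine ⟨?_, Polynomial.X + 1, Polynomial.X - 1, 0, ?_, ?_, ?_, ?_, ?_⟩
  · exact smul_ne_zero (by norm_num) (E_sub_ne 1 one_ne_zero)
  · intro h
    have h1 := congrArg (Polynomial.eval 0) h
    simp at h1
  · have hxy : E 1 * E (-1) = 1 := by
      rw [← he.2.1, add_neg_cancel, he.1]
    have h2 : E 2 = E 1 * E 1 := by
      rw [← he.2.1]
      norm_num
    have hdz : dz (E 1 - E (-1)) = E 1 + E (-1) := by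
      rw [map_sub, he.2.2.2.2.2.2.1, he.2.2.2.2.2.2.1, one_smul, neg_one_smul, sub_neg_eq_add]
    rw [map_smul, hdz, mul_smul_comm, mul_smul_comm]
    congr 1
    rw [map_sub, map_add, Polynomial.aeval_X, map_one, h2]
    linear_combination (2 * E 1) * hxy
  · simp
  · have h := Cs_mul 1 one_pos
    rw [pow_one] at h
    have h1 : ((Polynomial.X - 1 : Polynomial ℚ) : ℚ⟦X⟧) = X - 1 := by simp
    have h2 : ((Polynomial.X + 1 : Polynomial ℚ) : ℚ⟦X⟧) = X + 1 := by simp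
    rw [h1, h2]
    exact h
  · simp [rS]

theorem cons_case (he : ESER_Stmt) {p : ℕ} {q : ℤ} {D : List (ℕ × ℤ)} {f0 f1 g0 g1 : ℚ⟦X⟧}
    (hp : 2 ≤ p) (hq : q ≠ 0) (hL : Lead1 p q f0 f1 g0 g1)
    (ih : f0 ≠ 0 ∧ ∃ a b c : Polynomial ℚ, b ≠ 0 ∧
      Polynomial.aeval (E 2) b * dz f0 = Polynomial.aeval (E 2) a * f0 ∧
      Polynomial.aeval (E 2) b * f1 = Polynomial.aeval (E 2) c * f0 ∧
      (b : ℚ⟦X⟧) * uS D = (a : ℚ⟦X⟧) ∧ (b : ℚ⟦X⟧) * rS D = (c : ℚ⟦X⟧)) :
    g0 ≠ 0 ∧ ∃ a b c : Polynomial ℚ, b ≠ 0 ∧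
      Polynomial.aeval (E 2) b * dz g0 = Polynomial.aeval (E 2) a * g0 ∧
      Polynomial.aeval (E 2) b * g1 = Polynomial.aeval (E 2) c * g0 ∧
      (b : ℚ⟦X⟧) * uS ((p, q) :: D) = (a : ℚ⟦X⟧) ∧
      (b : ℚ⟦X⟧) * rS ((p, q) :: D) = (c : ℚ⟦X⟧) := by
  obtain ⟨hf0, a, b, c, hb, i1, i2, i3, i4⟩ := ih
  have hp0 : p ≠ 0 := by omega
  have hpQ : (p : ℚ) ≠ 0 := by exact_mod_cast hp0
  have hqQ : (q : ℚ) ≠ 0 := by exact_mod_cast hq
  have hb0 : 0 < q.natAbs := Int.natAbs_pos.2 hq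
  have hpb0 : 0 < p * q.natAbs := Nat.mul_pos (by omega) hb0
  have hs := sign_sq q hq
  set sg : ℚ⟦X⟧ := ((q.sign : ℤ) : ℚ⟦X⟧) with hsg
  obtain ⟨hA, hAp⟩ := E_sign p q hq
  obtain ⟨hB, hBp⟩ := E_sign 1 q hq
  rw [one_mul, one_mul] at hB hBp
  have hdl0 : dl p f0 ≠ 0 := fun h => hf0 (dl_inj p hpQ f0 h)
  refine ⟨?_, ?_⟩
  · intro h
    have h0 := hL.zero
    rw [h, mul_zero] at h0
    rcases mul_eq_zero.1 h0.symm with h1 | h1
    · exact E_sub_ne q hqQ h1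
    · exact hdl0 h1
  -- the polynomials
  set al : Polynomial ℚ := Polynomial.X ^ q.natAbs - 1 with hal
  set alp : Polynomial ℚ := Polynomial.X ^ q.natAbs + 1 with halp
  set be : Polynomial ℚ := Polynomial.X ^ (p * q.natAbs) - 1 with hbe
  set bep : Polynomial ℚ := Polynomial.X ^ (p * q.natAbs) + 1 with hbep
  set a' : Polynomial ℚ := Polynomial.expand ℚ p a with ha'
  set b' : Polynomial ℚ := Polynomial.expand ℚ p b with hb'
  set c' : Polynomial ℚ := Polynomial.expand ℚ p c with hc'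
  set a1 : Polynomial ℚ := (q.natAbs : Polynomial ℚ) * alp * be * b' -
    (p : Polynomial ℚ) * (q.natAbs : Polynomial ℚ) * bep * al * b' +
    (p : Polynomial ℚ) * al * be * a' with ha1
  have e1 : Polynomial.aeval (E 2) al = sg * E q.natAbs * (E q - E (-q)) := by
    rw [hal, ← E_minus he, hB]
    linear_combination (-(E q.natAbs * (E q.natAbs - E (-q.natAbs)))) * hs
  have e2 : Polynomial.aeval (E 2) alp = E q.natAbs * (E q + E (-q)) := by
    rw [halp, ← E_plus he, hBp]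
  have e3 : Polynomial.aeval (E 2) be =
      sg * E (p * q.natAbs) * (E (p * q) - E (-(p * q))) := by
    rw [hbe, ← E_minus he, hA, Nat.cast_mul]
    linear_combination
      (-(E (p * q.natAbs) * (E (p * q.natAbs) - E (-(p * q.natAbs))))) * hs
  have e4 : Polynomial.aeval (E 2) bep = E (p * q.natAbs) * (E (p * q) + E (-(p * q))) := by
    rw [hbep, ← E_plus he, hAp, Nat.cast_mul]
  have hqr : (q : ℚ⟦X⟧) = sg * ((q.natAbs : ℕ) : ℚ⟦X⟧) := sign_abs q
  have I1 : Polynomial.aeval (E 2) b' * dl p (dz f0) = Polynomial.aeval (E 2) a' * dl p f0 := by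
    rw [hb', ha', ← dl_aeval he, ← dl_aeval he, ← he.2.2.2.2.2.2.2.1, ← he.2.2.2.2.2.2.2.1, i1]
  have I2 : Polynomial.aeval (E 2) b' * dl p f1 = Polynomial.aeval (E 2) c' * dl p f0 := by
    rw [hb', hc', ← dl_aeval he, ← dl_aeval he, ← he.2.2.2.2.2.2.2.1, ← he.2.2.2.2.2.2.2.1, i2]
  -- the derivative of the first equation
  have hD : (p : ℚ⟦X⟧) * (q : ℚ⟦X⟧) * (E (p * q) + E (-(p * q))) * g0 +
      (E (p * q) - E (-(p * q))) * dz g0 =
      (q : ℚ⟦X⟧) * (E q + E (-q)) * dl p f0 +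
        (p : ℚ⟦X⟧) * (E q - E (-q)) * dl p (dz f0) := by
    have h := congrArg dz hL.zero
    rw [he.2.2.2.2.2.2.2.2.1, he.2.2.2.2.2.2.2.2.1, he.2.2.2.2.2.2.2.2.2, map_sub, map_sub,
      he.2.2.2.2.2.2.1, he.2.2.2.2.2.2.1, he.2.2.2.2.2.2.1, he.2.2.2.2.2.2.1] at h
    have c1 : ∀ f : ℚ⟦X⟧, ((p : ℚ) * (q : ℚ)) • f = (p : ℚ⟦X⟧) * (q : ℚ⟦X⟧) * f := by
      intro f
      have := smul_cast ((p : ℤ) * q) f
      push_cast at this
      exact this
    have c2 : ∀ f : ℚ⟦X⟧, (q : ℚ) • f = (q : ℚ⟦X⟧) * f := fun f => smul_cast q f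
    have c3 : ∀ f : ℚ⟦X⟧, (p : ℚ) • f = (p : ℚ⟦X⟧) * f := by
      intro f
      have := smul_cast (p : ℤ) f
      push_cast at this
      exact this
    rw [neg_smul, neg_smul, c1, c1, c2, c2, c3] at h
    linear_combination h
  have G1 := alg1 (e1 := E q.natAbs) (e2 := E (p * q.natAbs)) hs hqr hL.zero hD I1
  rw [← e1, ← e2, ← e3, ← e4] at G1
  have G1' : Polynomial.aeval (E 2) al * Polynomial.aeval (E 2) be * Polynomial.aeval (E 2) b' *
      dz g0 = Polynomial.aeval (E 2) a1 * g0 := by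
    rw [G1, ha1]
    simp only [map_add, map_sub, map_mul, map_natCast]
  have G2 := alg2 (e1 := E q.natAbs) (e2 := E (p * q.natAbs)) (sg := sg) hL.zero hL.one I1 I2
    (a1 := Polynomial.aeval (E 2) a1) (by rw [← e1, ← e3]; exact G1')
  rw [← e1, ← e2, ← e3, ← e4] at G2
  -- the power series
  have hX : ∀ f : Polynomial ℚ, (f : ℚ⟦X⟧) = Polynomial.coeToPowerSeries.ringHom f :=
    fun f => Polynomial.coeToPowerSeries.ringHom_apply.symm
  have hXX : Polynomial.coeToPowerSeries.ringHom (Polynomial.X : Polynomial ℚ) = X := by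
    rw [← hX, Polynomial.coe_X]
  have k1 : Polynomial.coeToPowerSeries.ringHom al * Cs q.natAbs =
      Polynomial.coeToPowerSeries.ringHom alp := by
    rw [hal, halp, map_sub, map_add, map_pow, map_one, hXX]
    exact Cs_mul _ hb0
  have k2 : Polynomial.coeToPowerSeries.ringHom be * Cs (p * q.natAbs) =
      Polynomial.coeToPowerSeries.ringHom bep := by
    rw [hbe, hbep, map_sub, map_add, map_pow, map_one, hXX]
    exact Cs_mul _ hpb0
  have k3 : Polynomial.coeToPowerSeries.ringHom b' * ex p (uS D) =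
      Polynomial.coeToPowerSeries.ringHom a' := by
    rw [← hX, ← hX, hb', ha', ← ex_poly p hp0, ← ex_poly p hp0, ← ex_mul p hp0, i3]
  have k4 : Polynomial.coeToPowerSeries.ringHom b' * ex p (rS D) =
      Polynomial.coeToPowerSeries.ringHom c' := by
    rw [← hX, ← hX, hb', hc', ← ex_poly p hp0, ← ex_poly p hp0, ← ex_mul p hp0, i4]
  have hu : Polynomial.coeToPowerSeries.ringHom al * Polynomial.coeToPowerSeries.ringHom be *
      Polynomial.coeToPowerSeries.ringHom b' * uS ((p, q) :: D) =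
      Polynomial.coeToPowerSeries.ringHom a1 := by
    have := alg3 (p := (p : ℚ⟦X⟧)) (b0 := ((q.natAbs : ℕ) : ℚ⟦X⟧)) k1 k2 k3
    change _ * (((q.natAbs : ℕ) : ℚ⟦X⟧) * Cs q.natAbs
      - ((p * q.natAbs : ℕ) : ℚ⟦X⟧) * Cs (p * q.natAbs) + (p : ℚ⟦X⟧) * ex p (uS D)) = _
    rw [Nat.cast_mul, this, ha1]
    simp only [map_add, map_sub, map_mul, map_natCast]
  refine ⟨be * a1, al * be ^ 2 * b', al * be ^ 2 * c' +
    ((q.sign : ℤ) : Polynomial ℚ) * alp * be ^ 2 * a' -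
    ((q.sign : ℤ) : Polynomial ℚ) * bep * a1, ?_, ?_, ?_, ?_, ?_⟩
  · have n1 : al ≠ 0 := by
      have := Polynomial.X_pow_sub_C_ne_zero hb0 (1 : ℚ)
      rwa [Polynomial.C_1] at this
    have n2 : be ≠ 0 := by
      have := Polynomial.X_pow_sub_C_ne_zero hpb0 (1 : ℚ)
      rwa [Polynomial.C_1] at this
    have n3 : b' ≠ 0 := fun h => hb ((Polynomial.expand_eq_zero (by omega)).1 h)
    exact mul_ne_zero (mul_ne_zero n1 (pow_ne_zero 2 n2)) n3
  · rw [map_mul, map_mul, map_mul, map_pow, mul_assoc _ _ g0, ← G1']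
    ring
  · rw [map_mul, map_mul, map_pow, G2]
    simp only [map_add, map_sub, map_mul, map_pow, map_intCast]
    rw [hsg]
  · rw [hX, hX, map_mul, map_mul, map_mul, map_pow, ← hu]
    ring
  · rw [hX, hX]
    have := alg4 (sg := sg) k1 k2 k3 k4 hu
    rw [map_mul, map_mul, map_pow]
    change _ * (ex p (rS D) + sg * Cs q.natAbs * ex p (uS D) -
      sg * Cs (p * q.natAbs) * uS ((p, q) :: D)) = _
    rw [this, hsg]
    simp only [map_add, map_sub, map_mul, map_pow, map_intCast]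

end Pool.Agent.IT.TRC

namespace Pool.Agent.IT

/-- TRC. -/
theorem trc (he : ESER_Stmt) : TRC_Stmt := by
  intro D f0 f1 h
  induction h with
  | nil => exact TRC.nil_case he
  | cons hp hq hL hL1 ih => exact TRC.cons_case he hp hq hL1 ih

end Pool.Agent.IT
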