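import Pool.Agent.IT.Stmts

/-!
Iterated torus knots, module TWG: the full twist on one more strand.
-/

namespace Pool.Agent.IT
open Pool.Agent.LibH11

namespace TWG

/-- the descending word of length `j` that starts at `σ_(p-1)` -/
def W (p j : ℕ) : Word := (List.range j).map fun i => (p - 1 - i, true)

theorem W_succ (p j : ℕ) : W p (j + 1) = W p j ++ [(p - 1 - j, true)] := by
  unfold W
  rw [List.range_succ, List.map_append, List.map_singleton]

theorem W_succ' (p j : ℕ) : W p (j + 1) = (p - 1, true) :: W (p - 1) j := by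
  unfold W
  rw [List.range_succ_eq_map, List.map_cons, List.map_map]
  congr 1
  apply List.map_congr_left
  intro i _
  simp only [Function.comp]
  congr 1
  omega

theorem W_full (p : ℕ) : W p p = Dw 0 p := by
  unfold W Dw
  apply List.map_congr_left
  intro i _
  congr 1
  omega

theorem Aw_succ (p : ℕ) : Aw 0 (p + 1) = Aw 0 p ++ [(p, true)] := by
  unfold Aw
  rw [List.range_succ, List.map_append, List.map_singleton]
  simp

/-- the ascending row slides through the descending word -/
theorem slide (hr : ROW_Stmt) {N p : ℕ} (hp : p + 1 ≤ N) : ∀ j : ℕ, j ≤ p →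
    ev N (W (p + 1) j) * ev N (Aw 0 (p + 1)) = ev N (Aw 0 (p + 1)) * ev N (W p j) := by
  intro j
  induction j with
  | zero =>
    intro _
    simp [W]
  | succ j ih =>
    intro hj
    rw [W_succ, W_succ, ev_append, ev_append, ev_single, ev_single]
    have h1 := (hr N 0 (p + 1) (by omega)).2 (p - 1 - j) (Nat.zero_le _) (by omega)
    have e1 : p - 1 - j + 1 = p + 1 - 1 - j := by omega
    rw [e1] at h1
    calc ev N (W (p + 1) j) * gen N (p + 1 - 1 - j, true) * ev N (Aw 0 (p + 1))
        = ev N (W (p + 1) j) * (gen N (p + 1 - 1 - j, true) * ev N (Aw 0 (p + 1))) := by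
          rw [mul_assoc]
      _ = ev N (W (p + 1) j) * (ev N (Aw 0 (p + 1)) * gen N (p - 1 - j, true)) := by
          rw [h1]
      _ = (ev N (W (p + 1) j) * ev N (Aw 0 (p + 1))) * gen N (p - 1 - j, true) := by
          rw [mul_assoc]
      _ = (ev N (Aw 0 (p + 1)) * ev N (W p j)) * gen N (p - 1 - j, true) := by
          rw [ih (by omega)]
      _ = ev N (Aw 0 (p + 1)) * (ev N (W p j) * gen N (p - 1 - j, true)) := by
          rw [mul_assoc]

theorem powA (hr : ROW_Stmt) {N p : ℕ} (hp : p + 1 ≤ N) : ∀ j : ℕ, j ≤ p + 1 →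
    ev N (Aw 0 (p + 1)) ^ j = ev N (Aw 0 p) ^ j * ev N (W (p + 1) j) := by
  intro j
  induction j with
  | zero =>
    intro _
    simp [W]
  | succ j ih =>
    intro hj
    have hs := slide hr hp j (by omega)
    have e2 : ev N (Aw 0 (p + 1)) = ev N (Aw 0 p) * gen N (p, true) := by
      rw [Aw_succ, ev_append, ev_single]
    have e3 : ev N (W (p + 1) (j + 1)) = gen N (p, true) * ev N (W p j) := by
      rw [W_succ', ev_cons]
      rfl
    calc ev N (Aw 0 (p + 1)) ^ (j + 1) = ev N (Aw 0 (p + 1)) ^ j * ev N (Aw 0 (p + 1)) := by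
          rw [pow_succ]
      _ = ev N (Aw 0 p) ^ j * ev N (W (p + 1) j) * ev N (Aw 0 (p + 1)) := by
          rw [ih (by omega)]
      _ = ev N (Aw 0 p) ^ j * (ev N (Aw 0 (p + 1)) * ev N (W p j)) := by
          rw [mul_assoc, hs]
      _ = ev N (Aw 0 p) ^ j * (ev N (Aw 0 p) * gen N (p, true) * ev N (W p j)) := by
          rw [e2]
      _ = ev N (Aw 0 p) ^ (j + 1) * ev N (W (p + 1) (j + 1)) := by
          rw [e3, pow_succ]
          simp only [mul_assoc]

theorem ev_tor_nat (N p r : ℕ) : ev N (tor (p + 1) (r : ℤ)) = ev N (Aw 0 p) ^ r := by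
  rw [tor_nonneg, ev_replicate]
  congr 2
  unfold Aw
  apply List.map_congr_left
  intro i _
  simp

end TWG

open TWG in
theorem twg (hr : ROW_Stmt) : TWG_Stmt := by
  intro N p hp
  have e1 : ev N (tor (p + 1) ((p : ℤ) + 1)) = ev N (Aw 0 p) ^ (p + 1) := by
    have := ev_tor_nat N p (p + 1)
    push_cast at this
    exact this
  rw [e1]
  cases p with
  | zero =>
    simp [Aw, Dw, tor]
  | succ p =>
    have e2 : ev N (tor (p + 1) ((p + 1 : ℕ) : ℤ)) = ev N (Aw 0 p) ^ (p + 1) := ev_tor_nat N p (p + 1)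
    rw [e2, ← W_full, pow_succ, powA hr hp (p + 1) le_rfl]

end Pool.Agent.IT
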