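import Pool.Agent.IT.Stmts

/-!
# Iterated torus knots: the closure of a knot with block diagonal data (TYPE)
-/

namespace Pool.Agent.IT
open Pool.Agent.LibH11
open scoped BigOperators

namespace TYPE

section
variable {A : Type} [CommRing A] {r : ℕ} {a : Fin r → ℕ}

theorem inv_perm_apply {X : Type} (f : Equiv.Perm X) (x : X) : f⁻¹ (f x) = x :=
  f.symm_apply_apply x

/-- Labels of constant type. -/
def cst (a : Fin r → ℕ) (i : Fin r) {m : ℕ} (s : Fin m → Fin (a i)) :
    Fin m → (Σ i : Fin r, Fin (a i)) := fun k => inc a i (s k)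

theorem inc_eq {i : Fin r} {x y : Fin (a i)} : inc a i x = inc a i y ↔ x = y := by
  unfold inc
  constructor
  · intro h
    exact eq_of_heq (Sigma.mk.inj h).2
  · intro h
    rw [h]

theorem cst_inj (i : Fin r) {m : ℕ} : Function.Injective (cst a i (m := m)) := by
  intro s t h
  funext k
  exact inc_eq.mp (congrFun h k)

theorem exists_cst (i : Fin r) {m : ℕ} (t : Fin m → (Σ i : Fin r, Fin (a i)))
    (h : ∀ k, (t k).1 = i) : t ∈ Set.range (cst a i (m := m)) := by
  have h1 : ∀ k, ∃ y : Fin (a i), t k = inc a i y := by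
    intro k
    have h2 := h k
    rcases htk : t k with ⟨j, y⟩
    rw [htk] at h2
    simp only at h2
    subst h2
    exact ⟨y, rfl⟩
  choose s hs using h1
  exact ⟨s, (funext fun k => (hs k).symm)⟩

variable (T : RData A (Σ i : Fin r, Fin (a i)))

/-- A letter exchanges the types. -/
theorem opl_type (hR : ∀ x y, T.R x y ≠ 0 → x.1.1 = y.2.1 ∧ x.2.1 = y.1.1)
    (hR' : ∀ x y, T.R' x y ≠ 0 → x.1.1 = y.2.1 ∧ x.2.1 = y.1.1) (n : ℕ) (x : ℕ × Bool)
    (s t : Fin (n + 1) → (Σ i : Fin r, Fin (a i))) (h : opl T n x s t ≠ 0) (k : Fin (n + 1)) :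
    (s k).1 = (t ((perm (gen n x))⁻¹ k)).1 := by
  by_cases hx : x.1 < n
  · have hp : (perm (gen n x))⁻¹ =
        Equiv.swap (⟨x.1, Nat.lt_succ_of_lt hx⟩ : Fin (n + 1)) ⟨x.1 + 1, Nat.succ_lt_succ hx⟩ := by
      have h1 : perm (sg (⟨x.1, hx⟩ : Fin n) : Br n) =
          Equiv.swap (⟨x.1, Nat.lt_succ_of_lt hx⟩ : Fin (n + 1))
            ⟨x.1 + 1, Nat.succ_lt_succ hx⟩ := by
        rw [perm_sg]
        rfl
      unfold gen
      rw [dif_pos hx]
      split_ifs
      · rw [h1, Equiv.swap_inv]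
      · rw [map_inv, inv_inv, h1]
    rw [hp]
    unfold opl at h
    rw [dif_pos hx] at h
    unfold atp at h
    by_cases h2 : ∀ z, z ≠ (⟨x.1, Nat.lt_succ_of_lt hx⟩ : Fin (n + 1)) →
        z ≠ ⟨x.1 + 1, Nat.succ_lt_succ hx⟩ → s z = t z
    · rw [if_pos h2] at h
      have h3 : (s ⟨x.1, Nat.lt_succ_of_lt hx⟩).1 = (t ⟨x.1 + 1, Nat.succ_lt_succ hx⟩).1 ∧
          (s ⟨x.1 + 1, Nat.succ_lt_succ hx⟩).1 = (t ⟨x.1, Nat.lt_succ_of_lt hx⟩).1 := by
        by_cases h5 : x.2 = true
        · rw [if_pos h5] at h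
          exact hR _ _ h
        · rw [if_neg h5] at h
          exact hR' _ _ h
      rw [Equiv.swap_apply_def]
      split_ifs with h5 h6
      · rw [h5]
        exact h3.1
      · rw [h6]
        exact h3.2
      · rw [h2 k h5 h6]
    · rw [if_neg h2] at h
      exact absurd rfl h
  · have hp : gen n x = 1 := by
      unfold gen
      rw [dif_neg hx]
    rw [hp, map_one, inv_one, Equiv.Perm.one_apply]
    unfold opl at h
    rw [dif_neg hx] at h
    have h1 : s = t := by
      by_contra h2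
      exact h (Matrix.one_apply_ne h2)
    rw [h1]

theorem op_cons (n : ℕ) (x : ℕ × Bool) (w : Word)
    (s t : Fin (n + 1) → (Σ i : Fin r, Fin (a i))) :
    op T n (x :: w) s t = ∑ u, opl T n x s u * op T n w u t := by
  unfold op
  rw [List.map_cons, List.prod_cons, Matrix.mul_apply]

/-- A word permutes the types. -/
theorem op_type (hR : ∀ x y, T.R x y ≠ 0 → x.1.1 = y.2.1 ∧ x.2.1 = y.1.1)
    (hR' : ∀ x y, T.R' x y ≠ 0 → x.1.1 = y.2.1 ∧ x.2.1 = y.1.1) (n : ℕ) (w : Word) :
    ∀ (s t : Fin (n + 1) → (Σ i : Fin r, Fin (a i))), op T n w s t ≠ 0 → ∀ k : Fin (n + 1),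
      (s k).1 = (t ((perm (ev n w))⁻¹ k)).1 := by
  induction w with
  | nil =>
    intro s t h k
    have h1 : s = t := by
      by_contra h2
      apply h
      unfold op
      rw [List.map_nil, List.prod_nil]
      exact Matrix.one_apply_ne h2
    rw [h1, ev_nil, map_one, inv_one, Equiv.Perm.one_apply]
  | cons x w ih =>
    intro s t h k
    rw [op_cons] at h
    obtain ⟨u, _, hu⟩ := Finset.exists_ne_zero_of_sum_ne_zero h
    rw [opl_type T hR hR' n x s u (left_ne_zero_of_mul hu) k,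
      ih u t (right_ne_zero_of_mul hu), ev_cons, map_mul, mul_inv_rev]
    rfl

theorem opl_cst (n : ℕ) (x : ℕ × Bool) (i : Fin r) (s t : Fin (n + 1) → Fin (a i)) :
    opl T n x (cst a i s) (cst a i t) = opl (T.sub (inc a i)) n x s t := by
  unfold opl
  by_cases hx : x.1 < n
  · rw [dif_pos hx, dif_pos hx]
    unfold atp
    have h1 : (∀ z, z ≠ (⟨x.1, Nat.lt_succ_of_lt hx⟩ : Fin (n + 1)) →
        z ≠ ⟨x.1 + 1, Nat.succ_lt_succ hx⟩ → cst a i s z = cst a i t z) ↔
        (∀ z, z ≠ (⟨x.1, Nat.lt_succ_of_lt hx⟩ : Fin (n + 1)) →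
        z ≠ ⟨x.1 + 1, Nat.succ_lt_succ hx⟩ → s z = t z) := by
      constructor
      · intro h z h2 h3
        exact inc_eq.mp (h z h2 h3)
      · intro h z h2 h3
        exact inc_eq.mpr (h z h2 h3)
    by_cases h2 : (∀ z, z ≠ (⟨x.1, Nat.lt_succ_of_lt hx⟩ : Fin (n + 1)) →
        z ≠ ⟨x.1 + 1, Nat.succ_lt_succ hx⟩ → s z = t z)
    · rw [if_pos (h1.mpr h2), if_pos h2]
      cases x.2 <;> rfl
    · rw [if_neg (fun h3 => h2 (h1.mp h3)), if_neg h2]
  · rw [dif_neg hx, dif_neg hx]
    by_cases h1 : s = t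
    · rw [h1, Matrix.one_apply_eq, Matrix.one_apply_eq]
    · rw [Matrix.one_apply_ne h1, Matrix.one_apply_ne fun h2 => h1 (cst_inj i h2)]

/-- Words on labels of constant type. -/
theorem op_cst (hR : ∀ x y, T.R x y ≠ 0 → x.1.1 = y.2.1 ∧ x.2.1 = y.1.1)
    (hR' : ∀ x y, T.R' x y ≠ 0 → x.1.1 = y.2.1 ∧ x.2.1 = y.1.1) (n : ℕ) (i : Fin r) (w : Word) :
    ∀ s t : Fin (n + 1) → Fin (a i),
      op T n w (cst a i s) (cst a i t) = op (T.sub (inc a i)) n w s t := by
  induction w with
  | nil =>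
    intro s t
    unfold op
    rw [List.map_nil, List.prod_nil, List.map_nil, List.prod_nil]
    by_cases h1 : s = t
    · rw [h1, Matrix.one_apply_eq, Matrix.one_apply_eq]
    · rw [Matrix.one_apply_ne h1, Matrix.one_apply_ne fun h2 => h1 (cst_inj i h2)]
  | cons x w ih =>
    intro s t
    rw [op_cons]
    have h1 : op (T.sub (inc a i)) n (x :: w) s t =
        ∑ u, opl (T.sub (inc a i)) n x s u * op (T.sub (inc a i)) n w u t := by
      unfold op
      rw [List.map_cons, List.prod_cons, Matrix.mul_apply]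
    rw [h1]
    symm
    refine Fintype.sum_of_injective (cst a i) (cst_inj i) _ _ ?_ ?_
    · intro u hu
      by_contra h2
      apply hu
      apply exists_cst
      intro k
      have h3 := opl_type T hR hR' n x (cst a i s) u (left_ne_zero_of_mul h2)
        (perm (gen n x) k)
      rw [inv_perm_apply] at h3
      exact h3.symm
    · intro u
      rw [opl_cst, ih]

end

end TYPE

open TYPE in
/-- TYPE: the closure of a knot with block diagonal data. -/
theorem type_mod : TYPE_Stmt := by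
  intro A _ r a T hR hR' n w hw X
  have hG : ∀ i : Fin r, G (T.sub (inc a i)) n w (X.submatrix (inc a i) (inc a i)) =
      ∑ s : Fin (n + 1) → Fin (a i),
        (op T n w * at1 X (0 : Fin (n + 1))) (cst a i s) (cst a i s) *
          ∏ k, T.κ (cst a i s k) := by
    intro i
    unfold G
    refine Finset.sum_congr rfl fun s _ => ?_
    congr 1
    rw [Matrix.mul_apply, Matrix.mul_apply]
    refine Fintype.sum_of_injective (cst a i) (cst_inj i) _ _ ?_ ?_
    · intro t ht
      by_contra h2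
      apply ht
      apply exists_cst
      intro k
      have h3 := op_type T hR hR' n w (cst a i s) t (left_ne_zero_of_mul h2)
        (perm (ev n w) k)
      rw [inv_perm_apply] at h3
      exact h3.symm
    · intro t
      rw [op_cst T hR hR']
      congr 1
      unfold at1
      have h1 : (∀ z, z ≠ (0 : Fin (n + 1)) → t z = s z) ↔
          (∀ z, z ≠ (0 : Fin (n + 1)) → cst a i t z = cst a i s z) := by
        constructor
        · intro h z h2
          exact inc_eq.mpr (h z h2)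
        · intro h z h2
          exact inc_eq.mp (h z h2)
      by_cases h2 : (∀ z, z ≠ (0 : Fin (n + 1)) → t z = s z)
      · rw [if_pos h2, if_pos (h1.mp h2)]
        rfl
      · rw [if_neg h2, if_neg fun h3 => h2 (h1.mpr h3)]
  simp only [hG]
  have hsig := Fintype.sum_sigma (fun x : (Σ i : Fin r, (Fin (n + 1) → Fin (a i))) =>
    (op T n w * at1 X (0 : Fin (n + 1))) (cst a x.1 x.2) (cst a x.1 x.2) *
          ∏ k, T.κ (cst a x.1 x.2 k))
  refine Eq.trans ?_ hsig
  unfold G
  symm
  refine Fintype.sum_of_injective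
    (fun x : (Σ i : Fin r, (Fin (n + 1) → Fin (a i))) => cst a x.1 x.2) ?_ _ _ ?_ ?_
  · rintro ⟨i, s⟩ ⟨j, t⟩ h
    have h1 : i = j := congrArg Sigma.fst (congrFun h 0)
    subst h1
    have h2 : s = t := cst_inj i h
    rw [h2]
  · intro s hs
    by_contra h0
    have h1 : (op T n w * at1 X (0 : Fin (n + 1))) s s ≠ 0 := left_ne_zero_of_mul h0
    rw [Matrix.mul_apply] at h1
    obtain ⟨t, _, ht⟩ := Finset.exists_ne_zero_of_sum_ne_zero h1
    have h2 := op_type T hR hR' n w s t (left_ne_zero_of_mul ht)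
    have h3 : ∀ z, z ≠ (0 : Fin (n + 1)) → t z = s z := by
      have h4 := right_ne_zero_of_mul ht
      unfold at1 at h4
      split_ifs at h4 with h5
      · exact h5
      · exact absurd rfl h4
    -- the type at `0`
    have h4 : ∑ k, ((s k).1 : ℕ) = ∑ k, ((t k).1 : ℕ) := by
      rw [← Equiv.sum_comp ((perm (ev n w))⁻¹ : Equiv.Perm (Fin (n + 1)))
        (fun k => ((t k).1 : ℕ))]
      exact Finset.sum_congr rfl fun k _ => by rw [h2 k]
    have h5 : (t 0).1 = (s 0).1 := by
      rw [Fin.sum_univ_succ, Fin.sum_univ_succ] at h4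
      have h6 : ∑ k : Fin n, ((t k.succ).1 : ℕ) = ∑ k : Fin n, ((s k.succ).1 : ℕ) :=
        Finset.sum_congr rfl fun k _ => by rw [h3 k.succ (Fin.succ_ne_zero k)]
      rw [h6] at h4
      exact Fin.ext (Nat.add_right_cancel h4).symm
    have h6 : ∀ k, (t k).1 = (s k).1 := by
      intro k
      by_cases hk : k = 0
      · rw [hk, h5]
      · rw [h3 k hk]
    have h7 : ∀ k, (s (perm (ev n w) k)).1 = (s k).1 := by
      intro k
      rw [h2 (perm (ev n w) k), inv_perm_apply, h6]
    have h8 : ∀ x y : Fin (n + 1), (s x).1 = (s y).1 := by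
      intro x y
      have h9 := sameCycle_map (perm (ev n w)) (1 : Equiv.Perm (Fin r)) (fun k => (s k).1)
        (fun k => by
          rw [h7 k]) (hw x y)
      exact Equiv.Perm.sameCycle_one.mp h9
    obtain ⟨s', hs'⟩ := exists_cst (s 0).1 s (fun k => h8 k 0)
    exact hs ⟨⟨(s 0).1, s'⟩, hs'⟩
  · intro x
    rfl

end Pool.Agent.IT
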