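import Pool.Agent.IT.Stmts

/-!
# UNKF: the series of the unknot
-/

namespace Pool.Agent.IT

open PowerSeries

namespace UNKF

/-- The series `(exp X - exp (-X)) / X`. -/
noncomputable def U : ℚ⟦X⟧ :=
  PowerSeries.mk fun n => coeff (n + 1) (E 1 - E (-1) : ℚ⟦X⟧)

lemma coeff_S (n : ℕ) : coeff n (E 1 - E (-1) : ℚ⟦X⟧) =
    (1 - (-1) ^ n) / (n.factorial : ℚ) := by
  simp only [E, map_sub, coeff_mk, one_pow]
  ring

lemma X_mul_U : (X : ℚ⟦X⟧) * U = E 1 - E (-1) := by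
  ext n
  cases n with
  | zero =>
    rw [coeff_S]
    simp
  | succ n =>
    rw [mul_comm, coeff_succ_mul_X, U, coeff_mk]

lemma coeff_zero_U : coeff 0 U = 2 := by
  rw [U, coeff_mk, coeff_S]
  norm_num

lemma coeff_one_U : coeff 1 U = 0 := by
  rw [U, coeff_mk, coeff_S]
  norm_num

lemma constantCoeff_U : constantCoeff U = 2 := by
  rw [← coeff_zero_eq_constantCoeff_apply, coeff_zero_U]

lemma U_mul_inv : U * U⁻¹ = 1 := PowerSeries.mul_inv_cancel U (by
  rw [constantCoeff_U]; norm_num)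

lemma coeff_zero_W : coeff 0 (U⁻¹) = 1 / 2 := by
  have h := congrArg (coeff 0) U_mul_inv
  rw [coeff_mul, Finset.Nat.sum_antidiagonal_eq_sum_range_succ_mk] at h
  simp only [Finset.sum_range_succ, Finset.sum_range_zero, zero_add, Nat.sub_self,
    coeff_zero_U, coeff_zero_one] at h
  linarith

lemma coeff_one_W : coeff 1 (U⁻¹) = 0 := by
  have h := congrArg (coeff 1) U_mul_inv
  rw [coeff_mul, Finset.Nat.sum_antidiagonal_eq_sum_range_succ_mk] at h
  simp only [Finset.sum_range_succ, Finset.sum_range_zero, zero_add, Nat.sub_zero, Nat.sub_self,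
    coeff_zero_U, coeff_one_U, zero_mul, add_zero] at h
  rw [coeff_one] at h
  simp only [one_ne_zero, if_false] at h
  linarith

/-- The series of the unknot. -/
noncomputable def F : B := PowerSeries.mk fun k => (coeff k (U⁻¹)) • (E 1 - E (-1) : ℚ⟦X⟧)

lemma coeff_F (k : ℕ) : coeff k F = (coeff k (U⁻¹)) • (E 1 - E (-1) : ℚ⟦X⟧) := by
  rw [F, coeff_mk]

lemma evB_F (x : ℚ) : evB x F = U⁻¹ * dl x (E 1 - E (-1)) := by
  ext m
  rw [evB, coeff_mk, coeff_mul, Finset.Nat.sum_antidiagonal_eq_sum_range_succ_mk]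
  refine Finset.sum_congr rfl fun k _ => ?_
  rw [coeff_F]
  change coeff (m - k) (coeff k U⁻¹ • (E 1 - E (-1) : ℚ⟦X⟧)) * x ^ (m - k) =
    coeff k U⁻¹ * coeff (m - k) (PowerSeries.mk fun n => coeff n (E 1 - E (-1) : ℚ⟦X⟧) * x ^ n)
  rw [coeff_mk, coeff_smul, smul_eq_mul, mul_assoc]

end UNKF

open UNKF in
theorem unkf (he : ESER_Stmt) (_hv : EVB_Stmt) : UNKF_Stmt := by
  intro JU hJU
  obtain ⟨-, -, -, -, -, hdl, -, -, -, -⟩ := he
  refine ⟨F, ?_, ?_, ?_, ?_⟩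
  · intro k m hm
    rw [coeff_F, coeff_smul, coeff_S, hm.neg_one_pow]
    simp
  · intro N
    rw [evB_F, map_sub, hdl, hdl]
    have h1 : (1 : ℚ) * (N : ℚ) = N := one_mul _
    have h2 : (-1 : ℚ) * (N : ℚ) = -N := by ring
    rw [h1, h2, ← hJU N, ← X_mul_U]
    calc U⁻¹ * (X * U * JU N) = (U * U⁻¹) * (X * JU N) := by ring
      _ = X * JU N := by rw [U_mul_inv, one_mul]
  · rw [coeff_F, coeff_zero_W]
  · rw [coeff_F, coeff_one_W, zero_smul]

end Pool.Agent.IT
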