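import Pool.Agent.IT.Stmts

/-!
# Iterated torus knots: the simple modules and their direct sums are weight modules
-/

namespace Pool.Agent.IT
open scoped BigOperators

namespace VOK

variable {K : Type} [Field K]

theorem key (hq : QNUM_Stmt) (s : K) (hs : Gen s) (N i : ℤ) :
    qn s (N - i - 1) * qn s (i + 1) - qn s i * qn s (N - i) = qn s (N - 1 - 2 * i) := by
  obtain ⟨-, -, h0, h1, hn, h6, -⟩ := hq K s hs
  have h := h6 (N - i) (-(1 + i)) (-N)
  have e1 : N - i + -(1 + i) = N - 1 - 2 * i := by ring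
  have e2 : N - i - -(1 + i) + -N = 1 := by ring
  have e3 : N - i + -N = -i := by ring
  have e4 : -(1 + i) - -N = N - i - 1 := by ring
  have e5 : (1 : ℤ) + i = i + 1 := by ring
  rw [e1, e2, e3, e4, h1, hn, hn, e5] at h
  rw [mul_one] at h
  rw [h]; ring

theorem okDsum (hq : QNUM_Stmt) (s : K) (hs : Gen s) (r : ℕ) (a : Fin r → ℕ) :
    Ok s (dsum s a) := by
  obtain ⟨-, -, h0, h1, hn, h6, -⟩ := hq K s hs
  refine ⟨?_, ?_, ?_⟩
  · rintro ⟨i, x⟩ ⟨j, y⟩ h
    simp only [dsum] at h ⊢
    by_cases hc : i = j ∧ (x : ℕ) + 1 = y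
    · obtain ⟨rfl, hxy⟩ := hc
      have : ((y : ℕ) : ℤ) = (x : ℕ) + 1 := by exact_mod_cast hxy.symm
      rw [this]; ring
    · exact absurd (if_neg hc) h
  · rintro ⟨i, x⟩ ⟨j, y⟩ h
    simp only [dsum] at h ⊢
    by_cases hc : i = j ∧ (x : ℕ) = y + 1
    · obtain ⟨rfl, hxy⟩ := hc
      have : ((x : ℕ) : ℤ) = (y : ℕ) + 1 := by exact_mod_cast hxy
      rw [this]; ring
    · exact absurd (if_neg hc) h
  · ext ⟨i, x⟩ ⟨j, y⟩
    have hEF : ((dsum s a).E * (dsum s a).F) ⟨i, x⟩ ⟨j, y⟩ =
        if (⟨i, x⟩ : Σ i : Fin r, Fin (a i)) = ⟨j, y⟩ then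
          qn s ((a i : ℤ) - (x : ℕ) - 1) * qn s ((x : ℕ) + 1) else 0 := by
      rw [Matrix.mul_apply]
      by_cases hlt : (x : ℕ) + 1 < a i
      · rw [Finset.sum_eq_single (⟨i, ⟨(x : ℕ) + 1, hlt⟩⟩ : Σ i : Fin r, Fin (a i))]
        · by_cases he : (⟨i, x⟩ : Σ i : Fin r, Fin (a i)) = ⟨j, y⟩
          · rw [if_pos he]
            obtain ⟨rfl, hxy⟩ := Sigma.mk.inj_iff.mp he
            have hxy' := eq_of_heq hxy
            subst hxy'
            simp only [dsum]
            rw [if_pos ⟨trivial, trivial⟩, if_pos ⟨trivial, trivial⟩]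
            congr 2 <;> push_cast <;> ring
          · rw [if_neg he]
            simp only [dsum]
            have : ¬ (i = j ∧ (x : ℕ) + 1 = y + 1) := by
              rintro ⟨rfl, h⟩
              apply he
              have : x = y := Fin.ext (by omega)
              rw [this]
            rw [if_neg this, mul_zero]
        · rintro ⟨k, z⟩ - hne
          simp only [dsum]
          rw [if_neg, zero_mul]
          rintro ⟨rfl, h⟩
          apply hne
          have : z = ⟨(x : ℕ) + 1, hlt⟩ := Fin.ext h.symm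
          rw [this]
        · intro h
          exact absurd (Finset.mem_univ _) h
      · have hx := x.2
        have hax : (x : ℕ) + 1 = a i := by omega
        rw [Finset.sum_eq_zero]
        · have : (a i : ℤ) - (x : ℕ) - 1 = 0 := by
            have : (a i : ℤ) = (x : ℕ) + 1 := by exact_mod_cast hax.symm
            rw [this]; ring
          rw [this, h0, zero_mul, ite_self]
        · rintro ⟨k, z⟩ -
          simp only [dsum]
          rw [if_neg, zero_mul]
          rintro ⟨rfl, h⟩
          have := z.2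
          omega
    have hFE : ((dsum s a).F * (dsum s a).E) ⟨i, x⟩ ⟨j, y⟩ =
        if (⟨i, x⟩ : Σ i : Fin r, Fin (a i)) = ⟨j, y⟩ then
          qn s (x : ℕ) * qn s ((a i : ℤ) - (x : ℕ)) else 0 := by
      rw [Matrix.mul_apply]
      by_cases hlt : 0 < (x : ℕ)
      · have hx := x.2
        rw [Finset.sum_eq_single (⟨i, ⟨(x : ℕ) - 1, by omega⟩⟩ : Σ i : Fin r, Fin (a i))]
        · by_cases he : (⟨i, x⟩ : Σ i : Fin r, Fin (a i)) = ⟨j, y⟩
          · rw [if_pos he]
            obtain ⟨rfl, hxy⟩ := Sigma.mk.inj_iff.mp he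
            have hxy' := eq_of_heq hxy
            subst hxy'
            simp only [dsum]
            rw [if_pos ⟨trivial, by omega⟩, if_pos ⟨trivial, by omega⟩]
          · rw [if_neg he]
            simp only [dsum]
            have : ¬ (i = j ∧ (x : ℕ) - 1 + 1 = y) := by
              rintro ⟨rfl, h⟩
              apply he
              have : x = y := Fin.ext (by omega)
              rw [this]
            rw [if_neg this, mul_zero]
        · rintro ⟨k, z⟩ - hne
          simp only [dsum]
          rw [if_neg, zero_mul]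
          rintro ⟨rfl, h⟩
          apply hne
          have : z = ⟨(x : ℕ) - 1, by omega⟩ := Fin.ext (by simp only; omega)
          rw [this]
        · intro h
          exact absurd (Finset.mem_univ _) h
      · have hx0 : (x : ℕ) = 0 := by omega
        rw [Finset.sum_eq_zero]
        · rw [hx0, Nat.cast_zero, h0, zero_mul, ite_self]
        · rintro ⟨k, z⟩ -
          simp only [dsum]
          rw [if_neg, zero_mul]
          rintro ⟨rfl, h⟩
          omega
    rw [Matrix.sub_apply, hEF, hFE, Matrix.diagonal_apply]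
    by_cases he : (⟨i, x⟩ : Σ i : Fin r, Fin (a i)) = ⟨j, y⟩
    · rw [if_pos he, if_pos he, if_pos he]
      exact key hq s hs (a i) (x : ℕ)
    · rw [if_neg he, if_neg he, if_neg he, sub_zero]

theorem okV (hq : QNUM_Stmt) (s : K) (hs : Gen s) (N : ℕ) : Ok s (V s N) := by
  obtain ⟨hE, hF, hc⟩ := okDsum hq s hs 1 (fun _ => N)
  refine ⟨?_, ?_, ?_⟩
  · intro x y h
    have := hE ⟨0, x⟩ ⟨0, y⟩
    simp only [dsum] at this
    simp only [V] at h ⊢
    apply this
    simpa only [true_and] using h
  · intro x y h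
    have := hF ⟨0, x⟩ ⟨0, y⟩
    simp only [dsum] at this
    simp only [V] at h ⊢
    apply this
    simpa only [true_and] using h
  · ext x y
    have := congrFun (congrFun hc ⟨0, x⟩) ⟨0, y⟩
    rw [Matrix.sub_apply, Matrix.mul_apply, Matrix.mul_apply, Matrix.diagonal_apply,
      Fintype.sum_sigma, Fintype.sum_sigma] at this
    simp only [Finset.univ_unique, Finset.sum_singleton, Fin.default_eq_zero] at this
    rw [Matrix.sub_apply, Matrix.mul_apply, Matrix.mul_apply, Matrix.diagonal_apply]
    simpa [dsum, V] using this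

end VOK

theorem vok (hq : QNUM_Stmt) : VOK_Stmt := fun _ _ s hs =>
  ⟨fun N => VOK.okV hq s hs N, fun r a => VOK.okDsum hq s hs r a⟩

end Pool.Agent.IT
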