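import Pool.Agent.IT.Stmts

/-!
Iterated torus knots: the exponent sums of parallels, torus braids and cables.
-/

namespace Pool.Agent.IT

namespace WRC

theorem wr_true (L : List ℕ) : wr (L.map fun i => (i, true)) = (L.length : ℤ) := by
  induction L with
  | nil => rfl
  | cons a L ih =>
    have h : wr ((a :: L).map fun i => (i, true)) = 1 + wr (L.map fun i => (i, true)) := by
      unfold wr
      simp
    rw [h, ih, List.length_cons]
    push_cast
    ring

theorem wr_flatten_replicate (n : ℕ) (u : Word) :
    wr (List.replicate n u).flatten = (n : ℤ) * wr u := by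
  induction n with
  | zero => simp [wr]
  | succ n ih =>
    rw [List.replicate_succ, List.flatten_cons, wr_append, ih]
    push_cast
    ring

theorem wr_row (f : ℕ → ℕ) (L : List ℕ) :
    wr (L.map fun b => (f b, true)) = (L.length : ℤ) := by
  have h : (L.map fun b => (f b, true)) = (L.map f).map fun i => (i, true) := by
    rw [List.map_map]
    rfl
  rw [h, wr_true, List.length_map]

theorem wr_rows (g : ℕ → ℕ → ℕ) (p : ℕ) (L : List ℕ) :
    wr (L.flatMap fun a => (List.range p).map fun b => (g a b, true)) =
      (L.length : ℤ) * p := by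
  induction L with
  | nil => simp [wr]
  | cons a L ih =>
    rw [List.flatMap_cons, wr_append, ih, wr_row, List.length_range, List.length_cons]
    push_cast
    ring

theorem wr_blk_true (p i : ℕ) : wr (blk p (i, true)) = (p : ℤ) ^ 2 := by
  have h : blk p (i, true) = (List.range p).flatMap fun a =>
      (List.range p).map fun b => (p * i + p - 1 + a - b, true) := rfl
  rw [h, wr_rows, List.length_range]
  ring

theorem wr_blk_false (p i : ℕ) : wr (blk p (i, false)) = - (p : ℤ) ^ 2 := by
  have h : blk p (i, false) = iw (blk p (i, true)) := rfl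
  rw [h, wr_iw, wr_blk_true]

theorem wr_par (p : ℕ) (w : Word) : wr (par p w) = (p : ℤ) ^ 2 * wr w := by
  induction w with
  | nil => simp [par, wr]
  | cons x w ih =>
    have h : par p (x :: w) = blk p x ++ par p w := by
      unfold par
      rw [List.flatMap_cons]
    have h2 : wr (x :: w) = (if x.2 then (1 : ℤ) else -1) + wr w := by
      unfold wr
      simp
    rw [h, wr_append, ih, h2]
    rcases x with ⟨i, e⟩
    cases e
    · rw [wr_blk_false]
      simp
      ring
    · rw [wr_blk_true]
      simp
      ring

theorem wr_tor (c : ℕ) (q : ℤ) : wr (tor (c + 1) q) = c * q := by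
  unfold tor
  by_cases h : 0 ≤ q
  · rw [if_pos h, wr_flatten_replicate, wr_true, List.length_range, Int.natCast_natAbs,
      abs_of_nonneg h]
    have : ((c + 1 - 1 : ℕ) : ℤ) = c := by simp
    rw [this]
    ring
  · rw [if_neg h, wr_flatten_replicate, wr_iw, wr_true, List.length_range, Int.natCast_natAbs,
      abs_of_neg (lt_of_not_ge h)]
    have : ((c + 1 - 1 : ℕ) : ℤ) = c := by simp
    rw [this]
    ring

end WRC

theorem wrc : WRC_Stmt := by
  intro c q w
  have h1 := WRC.wr_par (c + 1) w
  push_cast at h1
  refine ⟨h1, WRC.wr_tor c q, ?_⟩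
  unfold cab
  rw [wr_append, h1, WRC.wr_tor]
  push_cast
  ring

end Pool.Agent.IT
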