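import Pool.Agent.IT.Stmts

/-!
XPA: exponentials of commuting operators.
-/

open PowerSeries Finset

namespace Pool.Agent.IT

namespace XPA

lemma coeff_xp (L : ℚ⟦X⟧ →ₗ[ℚ] ℚ⟦X⟧) (F : B) (m : ℕ) :
    coeff m (xp L F) = ∑ j ∈ range (m + 1), ((j.factorial : ℚ)⁻¹) • (L ^ j) (coeff (m - j) F) := by
  simp [xp]

lemma coeff_cw (L : ℚ⟦X⟧ →ₗ[ℚ] ℚ⟦X⟧) (F : B) (m : ℕ) : coeff m (cw L F) = L (coeff m F) := by
  simp [cw]

lemma choose_fac (a b : ℕ) : (((a + b).factorial : ℚ)⁻¹) * ((a + b).choose a : ℚ) =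
    ((a.factorial : ℚ)⁻¹) * ((b.factorial : ℚ)⁻¹) := by
  have h : ((a + b).choose a : ℚ) * (a.factorial : ℚ) * (b.factorial : ℚ) =
      ((a + b).factorial : ℚ) := by
    have h0 := Nat.add_choose_mul_factorial_mul_factorial a b
    rw [← Nat.choose_symm_add] at h0
    exact_mod_cast h0
  have h1 : ((a + b).factorial : ℚ) ≠ 0 := by exact_mod_cast (a + b).factorial_ne_zero
  have h2 : (a.factorial : ℚ) ≠ 0 := by exact_mod_cast a.factorial_ne_zero
  have h3 : (b.factorial : ℚ) ≠ 0 := by exact_mod_cast b.factorial_ne_zero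
  field_simp
  linarith

lemma xp_add (L L' : ℚ⟦X⟧ →ₗ[ℚ] ℚ⟦X⟧) (h : Commute L L') (F : B) :
    xp (L + L') F = xp L (xp L' F) := by
  ext1 m
  rw [coeff_xp, coeff_xp]
  have h1 : ∀ j ∈ range (m + 1), ((j.factorial : ℚ)⁻¹) • ((L + L') ^ j) (coeff (m - j) F) =
      ∑ x ∈ antidiagonal j, (((x.1.factorial : ℚ)⁻¹) * ((x.2.factorial : ℚ)⁻¹)) •
        (L ^ x.1) ((L' ^ x.2) (coeff (m - j) F)) := by
    intro j _
    rw [h.add_pow', LinearMap.sum_apply, smul_sum]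
    refine sum_congr rfl fun x hx => ?_
    rw [HasAntidiagonal.mem_antidiagonal] at hx
    subst hx
    rw [← choose_fac, mul_smul, LinearMap.smul_apply, Module.End.mul_apply, Nat.cast_smul_eq_nsmul]
  have h2 : ∀ a ∈ range (m + 1), ((a.factorial : ℚ)⁻¹) • (L ^ a) (coeff (m - a) (xp L' F)) =
      ∑ b ∈ range (m - a + 1), (((a.factorial : ℚ)⁻¹) * ((b.factorial : ℚ)⁻¹)) •
        (L ^ a) ((L' ^ b) (coeff (m - a - b) F)) := by
    intro a _
    rw [coeff_xp, map_sum, smul_sum]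
    refine sum_congr rfl fun b _ => ?_
    rw [map_smul, mul_smul]
  rw [sum_congr rfl h1, sum_congr rfl h2, sum_sigma', sum_sigma']
  refine sum_nbij' (fun x => ⟨x.2.1, x.2.2⟩) (fun x => ⟨x.1 + x.2, (x.1, x.2)⟩) ?_ ?_ ?_ ?_ ?_
  · rintro ⟨j, a, b⟩ hx
    simp only [mem_sigma, mem_range, HasAntidiagonal.mem_antidiagonal] at hx ⊢
    omega
  · rintro ⟨a, b⟩ hx
    simp only [mem_sigma, mem_range, HasAntidiagonal.mem_antidiagonal] at hx ⊢
    have h3 : a < m + 1 := hx.1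
    have h4 : b < m - a + 1 := hx.2
    exact ⟨by omega, trivial⟩
  · rintro ⟨j, a, b⟩ hx
    simp only [mem_sigma, mem_range, HasAntidiagonal.mem_antidiagonal] at hx ⊢
    obtain ⟨_, rfl⟩ := hx
    rfl
  · rintro ⟨a, b⟩ _
    rfl
  · rintro ⟨j, a, b⟩ hx
    simp only [mem_sigma, mem_range, HasAntidiagonal.mem_antidiagonal] at hx ⊢
    obtain ⟨_, rfl⟩ := hx
    rw [Nat.sub_sub]

end XPA

theorem xpa : XPA_Stmt := by
  refine ⟨XPA.xp_add, ?_, ?_, ?_⟩
  · intro F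
    ext1 m
    rw [XPA.coeff_xp, sum_eq_single 0]
    · simp
    · intro j _ hj
      rw [zero_pow hj]
      simp
    · intro h
      exact absurd (mem_range.mpr (Nat.succ_pos m)) h
  · intro L L' M h F
    ext1 m
    rw [XPA.coeff_cw, XPA.coeff_xp, XPA.coeff_xp, map_sum]
    refine sum_congr rfl fun j _ => ?_
    rw [map_smul, XPA.coeff_cw]
    have h1 : SemiconjBy M L L' := h
    have h2 := congrArg (fun T : ℚ⟦X⟧ →ₗ[ℚ] ℚ⟦X⟧ => T (coeff (m - j) F)) (h1.pow_right j)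
    simp only [Module.End.mul_apply] at h2
    rw [h2]
  · intro L F F'
    ext1 m
    rw [map_sub, XPA.coeff_xp, XPA.coeff_xp, XPA.coeff_xp, ← sum_sub_distrib]
    refine sum_congr rfl fun j _ => ?_
    rw [map_sub, map_sub, smul_sub]

end Pool.Agent.IT
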