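import Pool.Agent.IT.Stmts

/-!
# Iterated torus knots: the Yang-Baxter equation (YBE)
-/

namespace Pool.Agent.IT
open scoped BigOperators

namespace YBE

theorem mor_one {K : Type} [Field K] {ι : Type} [Fintype ι] [DecidableEq ι] (M : WM K ι) :
    Mor M M (1 : Matrix ι ι K) := by
  refine ⟨?_, by rw [Matrix.mul_one, Matrix.one_mul], by rw [Matrix.mul_one, Matrix.one_mul]⟩
  intro b a h
  by_cases hba : b = a
  · rw [hba]
  · exact absurd (Matrix.one_apply_ne hba) h

end YBE

open YBE

theorem ybe (ht : TENSOK_Stmt) (h1 : HEX1_Stmt) (hn : NAT_Stmt) (hq : QT_Stmt) : YBE_Stmt := by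
  intro K _ s hs ι _ _ M hM a b c a' b' c'
  have hT : Ok s (tens s M M) := (ht K s hs ι ι ι ι M M M M hM hM).1
  have hR : Mor (tens s M M) (tens s M M) (Rm s M M) := (hq K s hs ι ι M M hM hM).1
  have hnat := (hn K s hs (ι × ι) ι (ι × ι) ι (tens s M M) M (tens s M M) M hT hM hT hM
    (Rm s M M) 1 hR (mor_one M)).1
  have h := congrFun (congrFun hnat (a, (b, c))) ((a', b'), c')
  simp only [Matrix.mul_apply, kr] at h
  -- the left side
  have hl : ∑ j : (ι × ι) × ι, Rm s (tens s M M) M (a, (b, c)) j *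
        (Rm s M M j.1 (a', b') * (1 : Matrix ι ι K) j.2 c')
      = ∑ x, ∑ y, ∑ z, Rm s M M (a, b) (x, y) * Rm s M M (y, c) (z, c') *
          Rm s M M (x, z) (a', b') := by
    rw [Fintype.sum_prod_type, Fintype.sum_prod_type]
    refine Finset.sum_congr rfl (fun x _ => ?_)
    refine (Finset.sum_congr rfl (fun z _ => ?_)).trans Finset.sum_comm
    rw [Finset.sum_eq_single c']
    · rw [h1 K s hs ι ι ι M M M hM hM hM a c' b x c z, Matrix.one_apply_eq, mul_one,
        Finset.sum_mul]
    · intro k _ hk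
      rw [Matrix.one_apply_ne hk, mul_zero, mul_zero]
    · intro h; exact absurd (Finset.mem_univ _) h
  have hr : ∑ j : ι × (ι × ι), ((1 : Matrix ι ι K) a j.1 * Rm s M M (b, c) j.2) *
        Rm s (tens s M M) M j ((a', b'), c')
      = ∑ x, ∑ y, ∑ z, Rm s M M (b, c) (y, z) * Rm s M M (a, y) (a', x) *
          Rm s M M (x, z) (b', c') := by
    rw [Fintype.sum_prod_type, Finset.sum_eq_single a]
    · rw [Fintype.sum_prod_type]
      refine (Finset.sum_congr rfl (fun y _ => ?_)).trans Finset.sum_comm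
      refine (Finset.sum_congr rfl (fun z _ => ?_)).trans Finset.sum_comm
      rw [h1 K s hs ι ι ι M M M hM hM hM a c' y a' z b', Matrix.one_apply_eq, one_mul,
        Finset.mul_sum]
      refine Finset.sum_congr rfl (fun x _ => ?_)
      ring
    · intro k _ hk
      refine Finset.sum_eq_zero (fun j _ => ?_)
      rw [Matrix.one_apply_ne (Ne.symm hk), zero_mul, zero_mul]
    · intro h; exact absurd (Finset.mem_univ _) h
  rw [← hl, ← hr]
  exact h

end Pool.Agent.IT
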