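import Pool.Agent.IT.Top
import Pool.Agent.IT.Inj
import Pool.Agent.IT.QAlgc
import Pool.Agent.IT.QAtp
import Pool.Agent.IT.QBlk
import Pool.Agent.IT.QBlkd
import Pool.Agent.IT.QBrk
import Pool.Agent.IT.QCabj
import Pool.Agent.IT.QCabsum
import Pool.Agent.IT.QCj
import Pool.Agent.IT.QCls
import Pool.Agent.IT.QConj
import Pool.Agent.IT.QConje
import Pool.Agent.IT.QDbl
import Pool.Agent.IT.QDec
import Pool.Agent.IT.QEser
import Pool.Agent.IT.QEvb
import Pool.Agent.IT.QEvi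
import Pool.Agent.IT.QEvrec
import Pool.Agent.IT.QFpowok
import Pool.Agent.IT.QFpowt
import Pool.Agent.IT.QFtb
import Pool.Agent.IT.QFull
import Pool.Agent.IT.QGood
import Pool.Agent.IT.QGoodq
import Pool.Agent.IT.QHex1
import Pool.Agent.IT.QHex2
import Pool.Agent.IT.QHexp
import Pool.Agent.IT.QJmap
import Pool.Agent.IT.QLeadeq
import Pool.Agent.IT.QLift
import Pool.Agent.IT.QMark
import Pool.Agent.IT.QMop
import Pool.Agent.IT.QMult
import Pool.Agent.IT.QNat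
import Pool.Agent.IT.QNilp
import Pool.Agent.IT.QOpinv
import Pool.Agent.IT.QPtr
import Pool.Agent.IT.QQbin
import Pool.Agent.IT.QQexp
import Pool.Agent.IT.QQnum
import Pool.Agent.IT.QQt
import Pool.Agent.IT.QRep
import Pool.Agent.IT.QRinv
import Pool.Agent.IT.QSchur
import Pool.Agent.IT.QSolv
import Pool.Agent.IT.QSubd
import Pool.Agent.IT.QSumr
import Pool.Agent.IT.QSurj
import Pool.Agent.IT.QTensok
import Pool.Agent.IT.QThma
import Pool.Agent.IT.QTor
import Pool.Agent.IT.QTrans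
import Pool.Agent.IT.QTrc
import Pool.Agent.IT.QTwg
import Pool.Agent.IT.QType
import Pool.Agent.IT.QUnkf
import Pool.Agent.IT.QVok
import Pool.Agent.IT.QWrc
import Pool.Agent.IT.QXpa
import Pool.Agent.IT.QYbe

/-!
Iterated torus knots: assembly.
-/

namespace Pool.Agent.IT
open Pool.Agent.LibH11

namespace Fin

theorem fATP : ATP_Stmt := atp_mod
theorem fOPINV : OPINV_Stmt := opinv fATP
theorem fREP : REP_Stmt := rep fATP
theorem fMARK : MARK_Stmt := mark fATP fREP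
theorem fFTB : FTB_Stmt := ftb fREP
theorem fBLK : BLK_Stmt := blk_mod
theorem fCONJ : CONJ_Stmt := conj_mod
theorem fTYPE : TYPE_Stmt := type_mod
theorem fJMAP : JMAP_Stmt := jmap
theorem fWRC : WRC_Stmt := wrc
theorem fTWG : TWG_Stmt := twg topRow
theorem fQNUM : QNUM_Stmt := qnum
theorem fQBIN : QBIN_Stmt := qbin fQNUM
theorem fQEXP : QEXP_Stmt := qexp fQNUM
theorem fNILP : NILP_Stmt := nilp
theorem fBRK : BRK_Stmt := brk fQNUM
theorem fVOK : VOK_Stmt := vok fQNUM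
theorem fTENSOK : TENSOK_Stmt := tensok fQNUM
theorem fFPOWT : FPOWT_Stmt := fpowt
theorem fFPOWOK : FPOWOK_Stmt := fpowok fTENSOK fFPOWT
theorem fNAT : NAT_Stmt := nat_mod fNILP
theorem fRINV : RINV_Stmt := rinv fQBIN fNILP
theorem fQT : QT_Stmt := qt fQNUM fNILP fBRK fRINV
theorem fHEX1 : HEX1_Stmt := hex1 fQEXP fNILP
theorem fHEX2 : HEX2_Stmt := hex2 fQEXP fNILP
theorem fYBE : YBE_Stmt := ybe fTENSOK fHEX1 fNAT fQT
theorem fSCHUR : SCHUR_Stmt := schur fQNUM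
theorem fPTR : PTR_Stmt := ptr
theorem fGOOD : GOOD_Stmt := good_mod fVOK fRINV fYBE fQT fPTR fSCHUR
theorem fHEXP : HEXP_Stmt := hexp fATP fOPINV fFPOWT fFPOWOK fHEX1 fHEX2 fRINV
theorem fBLKD : BLKD_Stmt := blkd fHEXP
theorem fMOP : MOP_Stmt := mop fQT
theorem fSURJ : SURJ_Stmt := surj fQNUM fNILP fBRK
theorem fDEC : DEC_Stmt := dec_mod fQNUM fNILP fBRK fVOK fSURJ
theorem fMULT : MULT_Stmt := mult fNILP fSURJ
theorem fSUBD : SUBD_Stmt := subd fNILP fVOK
theorem fCABSUM : CABSUM_Stmt := cabsum fDEC fNAT fCONJ fTYPE fSCHUR fSUBD fVOK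
theorem fDBL : DBL_Stmt := dbl fQNUM fQT fVOK
theorem fFULL : FULL_Stmt :=
  full fMOP fDEC fNAT fDBL fHEXP fTWG fREP fGOOD fTENSOK fFPOWT fFPOWOK fVOK
theorem fALGC : ALGC_Stmt := algc
theorem fESER : ESER_Stmt := eser
theorem fLIFT : LIFT_Stmt := lift_mod fESER fQNUM
theorem fGOODQ : GOODQ_Stmt := goodq fESER fGOOD
theorem fCLS : CLS_Stmt := cls
theorem fTOR : TOR_Stmt :=
  tor_mod fESER fMULT fMOP fFULL fLIFT fJMAP fALGC fCLS fOPINV fRINV fVOK fFPOWOK
theorem fCABJ : CABJ_Stmt := cabj fESER fBLK fBLKD fCABSUM fMOP fTOR fWRC fVOK fFPOWOK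
theorem fSUMR : SUMR_Stmt := sumr
theorem fCJ : CJ_Stmt := cj fESER fLIFT fGOODQ fMARK fFTB fJMAP fCABJ fSUMR
theorem fEVB : EVB_Stmt := evb fESER
theorem fEVI : EVI_Stmt := evi
theorem fXPA : XPA_Stmt := xpa
theorem fCONJE : CONJE_Stmt := conje fESER fXPA
theorem fSOLV : SOLV_Stmt := solv fESER fXPA fCONJE
theorem fEVREC : EVREC_Stmt := evrec fESER fEVB
theorem fLEADEQ : LEADEQ_Stmt := leadeq
theorem fUNKF : UNKF_Stmt := unkf fESER fEVB
theorem fTRC : TRC_Stmt := trc fESER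
theorem fTRANS : TRANS_Stmt := trans_mod fESER fTRC
theorem fTHMA : THMA_Stmt := thma fCJ fUNKF fSOLV fEVREC fLEADEQ fEVI fTRANS inj

end Fin

/-- Rational finite type invariants separate iterated torus knots. -/
theorem main_thm : MAIN_Stmt := by
  intro K K' h h' hF
  exact separate (fun K K' => ∀ u : Knot → ℚ, IsFiniteType u → u K = u K')
    (fun D D' K K' a b c d e => Fin.fTHMA D D' K K' a b c d e) K K' h h' hF

end Pool.Agent.IT
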