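import Pool.Agent.IT.TopStmts

/-!
ROW: the rows `A(s,m)` and `D(s,m)` shift the letters.
-/

namespace Pool.Agent.IT

open Pool.Agent.LibH11

namespace ROW

theorem Dw_succ (s m : ℕ) : Dw s (m + 1) = (s + m, true) :: Dw s m := by
  unfold Dw
  rw [List.range_succ_eq_map, List.map_cons, List.map_map]
  congr 1
  apply List.map_congr_left
  intro i _
  show (s + (m + 1) - 1 - (i + 1), true) = _
  congr 1
  omega

theorem Aw_succ (s m : ℕ) : Aw s (m + 1) = Aw s m ++ [(s + m, true)] := by
  unfold Aw
  rw [List.range_succ, List.map_append]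
  rfl

theorem mem_Dw {s m : ℕ} {x : ℕ × Bool} (h : x ∈ Dw s m) : s ≤ x.1 ∧ x.1 < s + m := by
  unfold Dw at h
  obtain ⟨i, hi, rfl⟩ := List.mem_map.mp h
  rw [List.mem_range] at hi
  simp only
  omega

theorem mem_Aw {s m : ℕ} {x : ℕ × Bool} (h : x ∈ Aw s m) : s ≤ x.1 ∧ x.1 < s + m := by
  unfold Aw at h
  obtain ⟨i, hi, rfl⟩ := List.mem_map.mp h
  rw [List.mem_range] at hi
  simp only
  omega

theorem comm_Dw (N s m j : ℕ) (h : s + m + 1 ≤ j) :
    Commute (ev N (Dw s m)) (gen N (j, true)) := by
  rw [← ev_single N (j, true)]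
  refine ev_far N _ _ fun x hx y hy => ?_
  rw [List.mem_singleton] at hy
  subst hy
  have := mem_Dw hx
  left
  simp only
  omega

theorem comm_Aw (N s m j : ℕ) (h : s + m + 1 ≤ j) :
    Commute (ev N (Aw s m)) (gen N (j, true)) := by
  rw [← ev_single N (j, true)]
  refine ev_far N _ _ fun x hx y hy => ?_
  rw [List.mem_singleton] at hy
  subst hy
  have := mem_Aw hx
  left
  simp only
  omega

theorem rowD (N s : ℕ) : ∀ m, s + m ≤ N → ∀ j, s < j → j < s + m →
    ev N (Dw s m) * gen N (j, true) = gen N (j - 1, true) * ev N (Dw s m) := by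
  intro m
  induction m with
  | zero => intro _ j h1 h2; omega
  | succ m ih =>
    intro hN j h1 h2
    by_cases hj : j < s + m
    · rw [Dw_succ, ev_cons, mul_assoc, ih (by omega) j h1 hj, ← mul_assoc, ← mul_assoc]
      congr 1
      exact gen_far N (Or.inr (by omega)) true true
    · have hj' : j = s + m := by omega
      subst hj'
      obtain ⟨l, rfl⟩ : ∃ l, m = l + 1 := ⟨m - 1, by omega⟩
      rw [Dw_succ, Dw_succ, ev_cons, ev_cons]
      have e1 : s + (l + 1) - 1 = s + l := by omega
      rw [e1]
      have hb := gen_braid (N := N) (i := s + l) (by omega)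
      have e2 : s + l + 1 = s + (l + 1) := by omega
      rw [e2] at hb
      have hc := comm_Dw N s l (s + (l + 1)) (by omega)
      calc gen N (s + (l + 1), true) * (gen N (s + l, true) * ev N (Dw s l)) *
            gen N (s + (l + 1), true)
          = gen N (s + (l + 1), true) * gen N (s + l, true) *
            (ev N (Dw s l) * gen N (s + (l + 1), true)) := by group
        _ = gen N (s + (l + 1), true) * gen N (s + l, true) *
            (gen N (s + (l + 1), true) * ev N (Dw s l)) := by rw [hc.eq]
        _ = (gen N (s + (l + 1), true) * gen N (s + l, true) * gen N (s + (l + 1), true)) *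
            ev N (Dw s l) := by group
        _ = _ := by rw [← hb]; group

theorem rowA (N s : ℕ) : ∀ m, s + m ≤ N → ∀ j, s ≤ j → j + 1 < s + m →
    ev N (Aw s m) * gen N (j, true) = gen N (j + 1, true) * ev N (Aw s m) := by
  intro m
  induction m with
  | zero => intro _ j h1 h2; omega
  | succ m ih =>
    intro hN j h1 h2
    by_cases hj : j + 1 < s + m
    · rw [Aw_succ, ev_append, ev_single, mul_assoc]
      have hf : Commute (gen N (s + m, true)) (gen N (j, true)) :=
        gen_far N (Or.inr (by omega)) true true
      rw [hf.eq, ← mul_assoc, ih (by omega) j h1 hj, mul_assoc]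
    · have hj' : j + 1 = s + m := by omega
      obtain ⟨l, rfl⟩ : ∃ l, m = l + 1 := ⟨m - 1, by omega⟩
      have hj2 : j = s + l := by omega
      subst hj2
      rw [Aw_succ, Aw_succ, ev_append, ev_append, ev_single, ev_single]
      have hb := gen_braid (N := N) (i := s + l) (by omega)
      have e2 : s + (l + 1) = s + l + 1 := by omega
      rw [e2]
      have hc := comm_Aw N s l (s + l + 1) (by omega)
      calc ev N (Aw s l) * gen N (s + l, true) * gen N (s + l + 1, true) * gen N (s + l, true)
          = ev N (Aw s l) *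
            (gen N (s + l, true) * gen N (s + l + 1, true) * gen N (s + l, true)) := by group
        _ = (ev N (Aw s l) * gen N (s + l + 1, true)) *
            (gen N (s + l, true) * gen N (s + l + 1, true)) := by rw [hb]; group
        _ = _ := by rw [hc.eq]; group

end ROW

theorem row : ROW_Stmt :=
  fun N s m h => ⟨ROW.rowD N s m h, ROW.rowA N s m h⟩

end Pool.Agent.IT
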