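import Pool.Agent.IT.Defs

/-!
# Iterated torus knots: statements of the modules of the quantum and of the formal part

All modules take the statements they need as hypotheses.
-/

namespace Pool.Agent.IT
open Pool.Agent.LibH11
open scoped BigOperators
open PowerSeries

/-! ## A. Braids and braiding matrices -/

/-- ATP: matrices acting at two positions. -/
def ATP_Stmt : Prop :=
  ∀ (A : Type) [CommRing A] (ι : Type) [Fintype ι] [DecidableEq ι] (P : Type) [Fintype P]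
    [DecidableEq P] (R S : Matrix (ι × ι) (ι × ι) A) (X Y : Matrix ι ι A) (x y z w : P), x ≠ y →
    atp (R * S) x y = atp R x y * atp S x y ∧
    atp (1 : Matrix (ι × ι) (ι × ι) A) x y = 1 ∧
    (x ≠ z → x ≠ w → y ≠ z → y ≠ w → z ≠ w → Commute (atp R x y) (atp S z w)) ∧
    at1 (X * Y) x = at1 X x * at1 Y x ∧
    at1 (1 : Matrix ι ι A) x = 1 ∧
    (z ≠ x → z ≠ y → Commute (at1 X z) (atp R x y)) ∧
    (x ≠ z → y ≠ z → (∀ a b c a' b' c' : ι,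
      ∑ x, ∑ y, ∑ z, R (a, b) (x, y) * R (y, c) (z, c') * R (x, z) (a', b') =
        ∑ x, ∑ y, ∑ z, R (b, c) (y, z) * R (a, y) (a', x) * R (x, z) (b', c')) →
      atp R x y * atp R y z * atp R x y = atp R y z * atp R x y * atp R y z)

/-- OPINV: the matrix of the inverse word. -/
def OPINV_Stmt : Prop :=
  ∀ (A : Type) [CommRing A] (ι : Type) [Fintype ι] [DecidableEq ι] (T : RData A ι),
    T.R * T.R' = 1 → T.R' * T.R = 1 → ∀ (n : ℕ) (w : Word),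
    op T n w * op T n (iw w) = 1 ∧ op T n (iw w) * op T n w = 1

/-- REP: the representation of the braid group. -/
def REP_Stmt : Prop :=
  ∀ (A : Type) [CommRing A] (ι : Type) [Fintype ι] [DecidableEq ι] (T : RData A ι) (θ : Aˣ),
    Good T θ → ∀ n : ℕ, ∃ ρ : Br n →* (Matrix (Fin (n + 1) → ι) (Fin (n + 1) → ι) A)ˣ,
      ∀ w : Word, ((ρ (ev n w) : (Matrix (Fin (n + 1) → ι) (Fin (n + 1) → ι) A)ˣ) :
        Matrix (Fin (n + 1) → ι) (Fin (n + 1) → ι) A) = op T n w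

/-- MARK: the knot invariant. -/
def MARK_Stmt : Prop :=
  ∀ (A : Type) [CommRing A] (ι : Type) [Fintype ι] [DecidableEq ι] (T : RData A ι) (θ : Aˣ),
    Good T θ → ∃ v : Knot → A, ∀ (n : ℕ) (w : Word) (h : IsKnot (ev n w)), Bd n w →
      v (closure (ev n w) h) = J T θ n w

/-- FTB: the coefficients of the invariant are of finite type. -/
def FTB_Stmt : Prop :=
  ∀ (ι : Type) [Fintype ι] [DecidableEq ι] (T : RData ℚ⟦X⟧ ι) (θ : ℚ⟦X⟧ˣ), Good T θ →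
    (∀ x y, constantCoeff (((θ⁻¹ : ℚ⟦X⟧ˣ) : ℚ⟦X⟧) * T.R x y) =
      constantCoeff ((θ : ℚ⟦X⟧) * T.R' x y)) →
    ∀ v : Knot → ℚ⟦X⟧, (∀ (n : ℕ) (w : Word) (h : IsKnot (ev n w)), Bd n w →
      v (closure (ev n w) h) = J T θ n w) →
    ∀ K K' : Knot, (∀ u : Knot → ℚ, IsFiniteType u → u K = u K') → v K = v K'

/-- BLK: the closure of a parallel word is the closure with block data. -/
def BLK_Stmt : Prop :=
  ∀ (A : Type) [CommRing A] (ι : Type) [Fintype ι] [DecidableEq ι] (T : RData A ι) (c n : ℕ)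
    (w v : Word), Bd n w → Bd c v →
    Jfr T ((c + 1) * n + c) (par (c + 1) w ++ v) = G (blkD T c) n w (op T c v)

/-- CONJ: change of basis. -/
def CONJ_Stmt : Prop :=
  ∀ (A : Type) [CommRing A] (ι ι' : Type) [Fintype ι] [DecidableEq ι] [Fintype ι']
    [DecidableEq ι'] (T : RData A ι) (T' : RData A ι') (g : Matrix ι ι' A) (g' : Matrix ι' ι A),
    g * g' = 1 → g' * g = 1 → T.R * kr g g = kr g g * T'.R → T.R' * kr g g = kr g g * T'.R' →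
    (∀ a b, T.κ a * g a b = g a b * T'.κ b) → ∀ (n : ℕ) (w : Word) (X : Matrix ι ι A),
    G T n w X = G T' n w (g' * X * g)

/-- TYPE: the closure of a knot with block diagonal data. -/
def TYPE_Stmt : Prop :=
  ∀ (A : Type) [CommRing A] (r : ℕ) (a : Fin r → ℕ) (T : RData A (Σ i : Fin r, Fin (a i))),
    (∀ x y, T.R x y ≠ 0 → x.1.1 = y.2.1 ∧ x.2.1 = y.1.1) →
    (∀ x y, T.R' x y ≠ 0 → x.1.1 = y.2.1 ∧ x.2.1 = y.1.1) →
    ∀ (n : ℕ) (w : Word), IsKnot (ev n w) →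
    ∀ X : Matrix (Σ i : Fin r, Fin (a i)) (Σ i : Fin r, Fin (a i)) A,
    G T n w X = ∑ i : Fin r, G (T.sub (inc a i)) n w (X.submatrix (inc a i) (inc a i))

/-- JMAP: base change. -/
def JMAP_Stmt : Prop :=
  ∀ (A C : Type) [CommRing A] [CommRing C] (φ : A →+* C) (ι : Type) [Fintype ι] [DecidableEq ι]
    (T : RData A ι) (θ : Aˣ) (n : ℕ) (w : Word),
    (op T n w).map φ = op (T.map φ) n w ∧
    φ (J T θ n w) = J (T.map φ) (Units.map (φ : A →* C) θ) n w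

/-- WRC: writhes. -/
def WRC_Stmt : Prop :=
  ∀ (c : ℕ) (q : ℤ) (w : Word),
    wr (par (c + 1) w) = ((c : ℤ) + 1) ^ 2 * wr w ∧ wr (tor (c + 1) q) = c * q ∧
    wr (cab (c + 1) q w) = ((c : ℤ) + 1) ^ 2 * wr w + c * (q - (c + 1) * wr w)

/-- TWG: the full twist on one more strand. -/
def TWG_Stmt : Prop :=
  ∀ N p : ℕ, p ≤ N → ev N (tor (p + 1) (p + 1)) = ev N (tor p p) * ev N (Dw 0 p) * ev N (Aw 0 p)

/-! ## B. Weight modules -/

/-- QNUM: identities for quantum integers. -/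
def QNUM_Stmt : Prop :=
  ∀ (K : Type) [Field K] (s : K), Gen s →
    (s ^ (2 : ℤ) - s ^ (-2 : ℤ) ≠ 0) ∧ (∀ w : ℤ, w ≠ 0 → qn s w ≠ 0) ∧ qn s 0 = 0 ∧ qn s 1 = 1 ∧
    (∀ w : ℤ, qn s (-w) = - qn s w) ∧
    (∀ a b c : ℤ, qn s (a + b) * qn s (a - b + c) =
      qn s a * qn s (a + c) - qn s b * qn s (b - c)) ∧
    (∀ a b : ℤ, qn s (a + b) = qn s a * s ^ (2 * b) + s ^ (-(2 * a)) * qn s b)

/-- QBIN: the quasi-R-matrix coefficients are inverse to each other. -/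
def QBIN_Stmt : Prop :=
  ∀ (K : Type) [Field K] (s : K), Gen s → ∀ n : ℕ, 0 < n →
    ∑ i ∈ Finset.range (n + 1), aq s i * aq' s (n - i) = 0 ∧
    ∑ i ∈ Finset.range (n + 1), aq' s i * aq s (n - i) = 0

/-- QEXP: the quantum exponential. -/
def QEXP_Stmt : Prop :=
  ∀ (K : Type) [Field K] (s : K), Gen s → ∀ (R : Type) [Ring R] [Algebra K R] (x y : R),
    x * y = (s ^ 4) • (y * x) → ∀ n : ℕ,
    aq s n • (x + y) ^ n = ∑ i ∈ Finset.range (n + 1), (aq s i * aq s (n - i)) •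
      (x ^ i * y ^ (n - i))

/-- NILP: powers of `E` and `F`. -/
def NILP_Stmt : Prop :=
  ∀ (K : Type) [Field K] (s : K) (ι : Type) [Fintype ι] [DecidableEq ι] (M : WM K ι), Ok s M →
    (∀ (n : ℕ) (a b : ι), (M.E ^ n) a b ≠ 0 → M.wt a = M.wt b + 2 * n) ∧
    (∀ (n : ℕ) (a b : ι), (M.F ^ n) a b ≠ 0 → M.wt a = M.wt b - 2 * n) ∧
    (∀ n : ℕ, Fintype.card ι ≤ n → M.E ^ n = 0 ∧ M.F ^ n = 0)

/-- BRK: commutators of powers. -/
def BRK_Stmt : Prop :=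
  ∀ (K : Type) [Field K] (s : K), Gen s → ∀ (ι : Type) [Fintype ι] [DecidableEq ι] (M : WM K ι),
    Ok s M → ∀ n : ℕ,
    M.E * M.F ^ (n + 1) = M.F ^ (n + 1) * M.E +
      qn s (n + 1) • (M.F ^ n * Matrix.diagonal fun a => qn s (M.wt a - n)) ∧
    M.E ^ (n + 1) * M.F = M.F * M.E ^ (n + 1) +
      qn s (n + 1) • (M.E ^ n * Matrix.diagonal fun a => qn s (M.wt a + n))

/-- VOK: the simple modules and their sums are weight modules. -/
def VOK_Stmt : Prop :=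
  ∀ (K : Type) [Field K] (s : K), Gen s → (∀ N : ℕ, Ok s (V s N)) ∧
    ∀ (r : ℕ) (a : Fin r → ℕ), Ok s (dsum s a)

/-- TENSOK: the tensor product is a weight module; tensor products of morphisms. -/
def TENSOK_Stmt : Prop :=
  ∀ (K : Type) [Field K] (s : K), Gen s → ∀ (ι κ ι' κ' : Type) [Fintype ι] [DecidableEq ι]
    [Fintype κ] [DecidableEq κ] [Fintype ι'] [DecidableEq ι'] [Fintype κ'] [DecidableEq κ']
    (M : WM K ι) (N : WM K κ) (M' : WM K ι') (N' : WM K κ'), Ok s M → Ok s N →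
    Ok s (tens s M N) ∧
    ∀ (f : Matrix ι' ι K) (g : Matrix κ' κ K), Mor M M' f → Mor N N' g →
      Mor (tens s M N) (tens s M' N') (kr f g)

/-- FPOWT: tensor powers are tensor products of tensor powers. -/
def FPOWT_Stmt : Prop :=
  ∀ (K : Type) [Field K] (s : K), Gen s → ∀ (ι : Type) [Fintype ι] [DecidableEq ι] (M : WM K ι),
    (∀ (a b : ℕ) (x u : Fin a → ι) (y v : Fin b → ι),
      (fpow s M (a + b)).wt (Fin.append x y) = (tens s (fpow s M a) (fpow s M b)).wt (x, y) ∧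
      (fpow s M (a + b)).E (Fin.append x y) (Fin.append u v) =
        (tens s (fpow s M a) (fpow s M b)).E (x, y) (u, v) ∧
      (fpow s M (a + b)).F (Fin.append x y) (Fin.append u v) =
        (tens s (fpow s M a) (fpow s M b)).F (x, y) (u, v)) ∧
    (∀ x u : Fin 1 → ι, (fpow s M 1).wt x = M.wt (x 0) ∧ (fpow s M 1).E x u = M.E (x 0) (u 0) ∧
      (fpow s M 1).F x u = M.F (x 0) (u 0))

/-- FPOWOK: tensor powers are weight modules. -/
def FPOWOK_Stmt : Prop :=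
  ∀ (K : Type) [Field K] (s : K), Gen s → ∀ (ι : Type) [Fintype ι] [DecidableEq ι] (M : WM K ι),
    Ok s M → ∀ c : ℕ, Ok s (fpow s M c)

/-- NAT: the braiding is natural. -/
def NAT_Stmt : Prop :=
  ∀ (K : Type) [Field K] (s : K), Gen s → ∀ (ι κ ι' κ' : Type) [Fintype ι] [DecidableEq ι]
    [Fintype κ] [DecidableEq κ] [Fintype ι'] [DecidableEq ι'] [Fintype κ'] [DecidableEq κ']
    (M : WM K ι) (N : WM K κ) (M' : WM K ι') (N' : WM K κ'), Ok s M → Ok s N → Ok s M' →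
    Ok s N' → ∀ (f : Matrix ι' ι K) (g : Matrix κ' κ K), Mor M M' f → Mor N N' g →
    Rm s M' N' * kr f g = kr g f * Rm s M N ∧ Rm' s M' N' * kr g f = kr f g * Rm' s M N

/-- RINV: the braiding is invertible. -/
def RINV_Stmt : Prop :=
  ∀ (K : Type) [Field K] (s : K), Gen s → ∀ (ι κ : Type) [Fintype ι] [DecidableEq ι]
    [Fintype κ] [DecidableEq κ] (M : WM K ι) (N : WM K κ), Ok s M → Ok s N →
    Rm' s M N * Rm s M N = 1 ∧ Rm s M N * Rm' s M N = 1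

/-- QT: the braiding is a morphism. -/
def QT_Stmt : Prop :=
  ∀ (K : Type) [Field K] (s : K), Gen s → ∀ (ι κ : Type) [Fintype ι] [DecidableEq ι]
    [Fintype κ] [DecidableEq κ] (M : WM K ι) (N : WM K κ), Ok s M → Ok s N →
    Mor (tens s M N) (tens s N M) (Rm s M N) ∧ Mor (tens s N M) (tens s M N) (Rm' s M N)

/-- HEX1: the braiding of a tensor product on the left. -/
def HEX1_Stmt : Prop :=
  ∀ (K : Type) [Field K] (s : K), Gen s → ∀ (ι κ ν : Type) [Fintype ι] [DecidableEq ι]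
    [Fintype κ] [DecidableEq κ] [Fintype ν] [DecidableEq ν] (M : WM K ι) (N : WM K κ)
    (L : WM K ν), Ok s M → Ok s N → Ok s L → ∀ (l k : ν) (a m : ι) (b n : κ),
    Rm s (tens s M N) L (l, (a, b)) ((m, n), k) =
      ∑ k' : ν, Rm s M L (l, a) (m, k') * Rm s N L (k', b) (n, k)

/-- HEX2: the braiding of a tensor product on the right. -/
def HEX2_Stmt : Prop :=
  ∀ (K : Type) [Field K] (s : K), Gen s → ∀ (ι κ ν : Type) [Fintype ι] [DecidableEq ι]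
    [Fintype κ] [DecidableEq κ] [Fintype ν] [DecidableEq ν] (M : WM K ι) (N : WM K κ)
    (L : WM K ν), Ok s M → Ok s N → Ok s L → ∀ (n n0 : κ) (l l0 : ν) (a m : ι),
    Rm s M (tens s N L) ((n, l), a) (m, (n0, l0)) =
      ∑ m' : ι, Rm s M L (l, a) (m', l0) * Rm s M N (n, m') (m, n0)

/-- HEXI: the same for the inverse braiding. -/
def HEXI_Stmt : Prop :=
  ∀ (K : Type) [Field K] (s : K), Gen s → ∀ (ι κ ν : Type) [Fintype ι] [DecidableEq ι]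
    [Fintype κ] [DecidableEq κ] [Fintype ν] [DecidableEq ν] (M : WM K ι) (N : WM K κ)
    (L : WM K ν), Ok s M → Ok s N → Ok s L →
    (∀ (l k : ν) (a m : ι) (b n : κ), Rm' s (tens s M N) L ((m, n), k) (l, (a, b)) =
      ∑ k' : ν, Rm' s N L (n, k) (k', b) * Rm' s M L (m, k') (l, a)) ∧
    (∀ (n n0 : κ) (l l0 : ν) (a m : ι), Rm' s M (tens s N L) (m, (n0, l0)) ((n, l), a) =
      ∑ m' : ι, Rm' s M N (m, n0) (n, m') * Rm' s M L (m', l0) (l, a))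

/-- YBE: the Yang-Baxter equation. -/
def YBE_Stmt : Prop :=
  ∀ (K : Type) [Field K] (s : K), Gen s → ∀ (ι : Type) [Fintype ι] [DecidableEq ι] (M : WM K ι),
    Ok s M → ∀ a b c a' b' c' : ι,
    ∑ x, ∑ y, ∑ z, Rm s M M (a, b) (x, y) * Rm s M M (y, c) (z, c') * Rm s M M (x, z) (a', b') =
      ∑ x, ∑ y, ∑ z, Rm s M M (b, c) (y, z) * Rm s M M (a, y) (a', x) * Rm s M M (x, z) (b', c')

/-- SCHUR: endomorphisms of the simple module. -/
def SCHUR_Stmt : Prop :=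
  ∀ (K : Type) [Field K] (s : K), Gen s → ∀ (N : ℕ) (X : Matrix (Fin N) (Fin N) K),
    Mor (V s N) (V s N) X → ∃ x : K, X = x • (1 : Matrix (Fin N) (Fin N) K)

/-- PTR: partial quantum traces of morphisms are morphisms. -/
def PTR_Stmt : Prop :=
  ∀ (K : Type) [Field K] (s : K), Gen s → ∀ (ι κ : Type) [Fintype ι] [DecidableEq ι]
    [Fintype κ] [DecidableEq κ] (M : WM K ι) (N : WM K κ), Ok s M → Ok s N →
    ∀ X : Matrix (ι × κ) (ι × κ) K, Mor (tens s M N) (tens s M N) X →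
    Mor M M (fun a c => ∑ b, X (a, b) (c, b) * s ^ (2 * N.wt b))

/-- GOOD: the braiding data of a simple module. -/
def GOOD_Stmt : Prop :=
  ∀ (K : Type) [Field K] (s : K), Gen s → ∀ (N : ℕ) (θ : Kˣ),
    (θ : K) = s ^ ((N : ℤ) ^ 2 - 1) → Good (RD s (V s N)) θ

/-- HEXP: the matrix of a block crossing. -/
def HEXP_Stmt : Prop :=
  ∀ (K : Type) [Field K] (s : K), Gen s → ∀ (ι : Type) [Fintype ι] [DecidableEq ι] (M : WM K ι),
    Ok s M → ∀ (a b n : ℕ) (h : n = a + b + 1) (X Y : Fin (n + 1) → ι),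
    op (RD s M) n (Cw 0 (a + 1) (b + 1)) X Y =
      Rm s (fpow s M (a + 1)) (fpow s M (b + 1))
        (fun i : Fin (b + 1) => X ⟨i, by omega⟩, fun j : Fin (a + 1) => X ⟨b + 1 + j, by omega⟩)
        (fun j : Fin (a + 1) => Y ⟨j, by omega⟩, fun i : Fin (b + 1) => Y ⟨a + 1 + i, by omega⟩) ∧
    op (RD s M) n (iw (Cw 0 (a + 1) (b + 1))) Y X =
      Rm' s (fpow s M (a + 1)) (fpow s M (b + 1))
        (fun j : Fin (a + 1) => Y ⟨j, by omega⟩, fun i : Fin (b + 1) => Y ⟨a + 1 + i, by omega⟩)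
        (fun i : Fin (b + 1) => X ⟨i, by omega⟩, fun j : Fin (a + 1) => X ⟨b + 1 + j, by omega⟩)

/-- BLKD: block data are the data of the tensor power. -/
def BLKD_Stmt : Prop :=
  ∀ (K : Type) [Field K] (s : K), Gen s → ∀ (ι : Type) [Fintype ι] [DecidableEq ι] (M : WM K ι),
    Ok s M → ∀ c : ℕ, blkD (RD s M) c = RD s (fpow s M (c + 1))

/-- MOP: braids act by morphisms. -/
def MOP_Stmt : Prop :=
  ∀ (K : Type) [Field K] (s : K), Gen s → ∀ (ι : Type) [Fintype ι] [DecidableEq ι] (M : WM K ι),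
    Ok s M → ∀ (n : ℕ) (w : Word),
    Mor (fpow s M (n + 1)) (fpow s M (n + 1)) (op (RD s M) n w)

/-- SURJ: `E` is surjective onto positive weights, injective on negative weights. -/
def SURJ_Stmt : Prop :=
  ∀ (K : Type) [Field K] (s : K), Gen s → ∀ (ι : Type) [Fintype ι] [DecidableEq ι] (M : WM K ι),
    Ok s M →
    (∀ m : ℤ, 1 ≤ m → ∀ v : ι → K, (∀ a, v a ≠ 0 → M.wt a = m) →
      ∃ u : ι → K, (∀ a, u a ≠ 0 → M.wt a = m - 2) ∧ M.E.mulVec u = v) ∧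
    (∀ m : ℤ, m ≤ -1 → ∀ v : ι → K, (∀ a, v a ≠ 0 → M.wt a = m) →
      ∃ u : ι → K, (∀ a, u a ≠ 0 → M.wt a = m + 2) ∧ M.F.mulVec u = v) ∧
    (∀ m : ℤ, m ≤ -1 → ∀ v : ι → K, (∀ a, v a ≠ 0 → M.wt a = m) → M.E.mulVec v = 0 → v = 0)

/-- DEC: complete reducibility. -/
def DEC_Stmt : Prop :=
  ∀ (K : Type) [Field K] (s : K), Gen s → ∀ (ι : Type) [Fintype ι] [DecidableEq ι] (M : WM K ι),
    Ok s M → ∃ (r : ℕ) (a : Fin r → ℕ) (g : Matrix ι (Σ i : Fin r, Fin (a i)) K)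
      (g' : Matrix (Σ i : Fin r, Fin (a i)) ι K), (∀ i, 1 ≤ a i) ∧ g * g' = 1 ∧ g' * g = 1 ∧
      Mor (dsum s a) M g

/-- MULT: the action of the endomorphisms on the highest weight vectors of weight `k`. -/
def MULT_Stmt : Prop :=
  ∀ (K : Type) [Field K] (s : K), Gen s → ∀ (ι : Type) [Fintype ι] [DecidableEq ι] (M : WM K ι),
    Ok s M → ∀ k : ℕ, ∃ (m : ℕ) (P : Matrix ι (Fin m) K) (Q : Matrix (Fin m) ι K),
      Q * P = 1 ∧ M.E * P = 0 ∧ (∀ a j, P a j ≠ 0 → M.wt a = k) ∧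
      ∀ X : Matrix ι ι K, Mor M M X → X * P = P * (Q * X * P) ∧
        (Q * X * P).trace = wtr M k X - wtr M (k + 2) X

/-- SUBD: the braiding data of a direct sum. -/
def SUBD_Stmt : Prop :=
  ∀ (K : Type) [Field K] (s : K), Gen s → ∀ (r : ℕ) (a : Fin r → ℕ),
    (∀ x y, (RD s (dsum s a)).R x y ≠ 0 → x.1.1 = y.2.1 ∧ x.2.1 = y.1.1) ∧
    (∀ x y, (RD s (dsum s a)).R' x y ≠ 0 → x.1.1 = y.2.1 ∧ x.2.1 = y.1.1) ∧
    (∀ i, (RD s (dsum s a)).sub (inc a i) = RD s (V s (a i))) ∧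
    (∀ X, Mor (dsum s a) (dsum s a) X → ∀ i,
      Mor (V s (a i)) (V s (a i)) (X.submatrix (inc a i) (inc a i)))

/-- CABSUM: the closure of a knot with an endomorphism inserted. -/
def CABSUM_Stmt : Prop :=
  ∀ (K : Type) [Field K] (s : K), Gen s → ∀ (ι : Type) [Fintype ι] [DecidableEq ι] (M : WM K ι),
    Ok s M → ∀ X : Matrix ι ι K, Mor M M X → ∀ (n : ℕ) (w : Word), IsKnot (ev n w) →
    ∀ b : ℕ, (∀ a, M.wt a < b) →
    G (RD s M) n w X = ∑ k ∈ Finset.range b,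
      (wtr M k X - wtr M (k + 2) X) * Jfr (RD s (V s (k + 1))) n w

/-- DBL: the double braiding on highest weight vectors. -/
def DBL_Stmt : Prop :=
  ∀ (K : Type) [Field K] (s : K), Gen s → ∀ (a b : ℕ) (k : ℤ) (y : Fin a × Fin b → K),
    (∀ x, y x ≠ 0 → (tens s (V s a) (V s b)).wt x = k) →
    (tens s (V s a) (V s b)).E.mulVec y = 0 →
    (Rm s (V s b) (V s a) * Rm s (V s a) (V s b)).mulVec y =
      s ^ ((k + 1) ^ 2 - 1 - ((a : ℤ) ^ 2 - 1) - ((b : ℤ) ^ 2 - 1)) • y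

/-- FULL: the full twist on highest weight vectors. -/
def FULL_Stmt : Prop :=
  ∀ (K : Type) [Field K] (s : K), Gen s → ∀ (N c : ℕ) (k : ℤ) (y : (Fin (c + 1) → Fin N) → K),
    (∀ x, y x ≠ 0 → (fpow s (V s N) (c + 1)).wt x = k) →
    (fpow s (V s N) (c + 1)).E.mulVec y = 0 →
    (op (RD s (V s N)) c (tor (c + 1) (c + 1))).mulVec y =
      s ^ ((k + 1) ^ 2 - 1 - ((c : ℤ) + 1) * ((N : ℤ) ^ 2 - 1)) • y

/-! ### Over the fraction field of `ℚ⟦X⟧` -/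

/-- ESER: the exponential series. -/
def ESER_Stmt : Prop :=
  E 0 = 1 ∧ (∀ a b : ℚ, E (a + b) = E a * E b) ∧ (∀ a : ℚ, constantCoeff (E a) = 1) ∧
    (∀ k : ℤ, sQ ^ k = toK (E (k / 2))) ∧ Gen sQ ∧ (∀ x a : ℚ, dl x (E a) = E (a * x)) ∧
    (∀ a : ℚ, dz (E a) = a • E a) ∧ (∀ x : ℚ, ∀ f g : ℚ⟦X⟧, dl x (f * g) = dl x f * dl x g) ∧
    (∀ f g : ℚ⟦X⟧, dz (f * g) = dz f * g + f * dz g) ∧
    (∀ (x : ℚ) (f : ℚ⟦X⟧), dz (dl x f) = x • dl x (dz f))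

/-- ALGC: the trace of a matrix of finite order is constant. -/
def ALGC_Stmt : Prop :=
  ∀ (m p : ℕ) (Y : Matrix (Fin m) (Fin m) KQ), 1 ≤ p → Y ^ p = 1 → ∀ f : ℚ⟦X⟧,
    toK f = Y.trace → f = C (constantCoeff f)

/-- LIFT: the braiding data are integral and trivial at `h = 0`. -/
def LIFT_Stmt : Prop :=
  ∀ N : ℕ, ∃ T : RData ℚ⟦X⟧ (Fin N), T.map toK = RD sQ (V sQ N) ∧
    (∀ x y, constantCoeff (T.R x y) = if x.1 = y.2 ∧ x.2 = y.1 then 1 else 0) ∧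
    (∀ x y, constantCoeff (T.R' x y) = if x.1 = y.2 ∧ x.2 = y.1 then 1 else 0) ∧
    (∀ i, constantCoeff (T.κ i) = 1)

/-- GOODQ: the integral braiding data are good. -/
def GOODQ_Stmt : Prop :=
  ∀ (N : ℕ) (T : RData ℚ⟦X⟧ (Fin N)), T.map toK = RD sQ (V sQ N) →
    ∀ θ : ℚ⟦X⟧ˣ, (θ : ℚ⟦X⟧) = E (((N : ℚ) ^ 2 - 1) / 2) → Good T θ

/-- CLS: the classical limit of the traces of the torus braids. -/
def CLS_Stmt : Prop :=
  ∀ (ι : Type) [Fintype ι] [DecidableEq ι] (T : RData ℚ⟦X⟧ ι),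
    (∀ x y, constantCoeff (T.R x y) = if x.1 = y.2 ∧ x.2 = y.1 then 1 else 0) →
    (∀ x y, constantCoeff (T.R' x y) = if x.1 = y.2 ∧ x.2 = y.1 then 1 else 0) →
    ∀ (f : ι → ℤ) (c : ℕ) (r : ℤ), Int.gcd (c + 1) r = 1 → ∀ j : ℤ,
    constantCoeff (∑ x ∈ Finset.univ.filter (fun x : Fin (c + 1) → ι => ∑ i, f (x i) = j),
      op T c (tor (c + 1) r) x x) =
      ((Finset.univ.filter fun i : ι => ((c : ℤ) + 1) * f i = j).card : ℚ)

/-- TOR: the traces of the torus braids. -/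
def TOR_Stmt : Prop :=
  ∀ (N c k : ℕ) (r : ℤ), Int.gcd (c + 1) r = 1 →
    wtr (fpow sQ (V sQ N) (c + 1)) k (op (RD sQ (V sQ N)) c (tor (c + 1) r)) -
      wtr (fpow sQ (V sQ N) (c + 1)) (k + 2) (op (RD sQ (V sQ N)) c (tor (c + 1) r)) =
    (cc N (c + 1) k : KQ) *
      toK (E (r * (((k + 1 : ℚ) ^ 2 - 1) / (c + 1) - ((N : ℚ) ^ 2 - 1)) / 2))

/-- CABJ: the invariant of a cable. -/
def CABJ_Stmt : Prop :=
  ∀ (θ : ℕ → KQˣ), (∀ N : ℕ, ((θ N : KQˣ) : KQ) = sQ ^ ((N : ℤ) ^ 2 - 1)) →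
    ∀ (N c n : ℕ) (q : ℤ) (w : Word), Bd n w → IsKnot (ev n w) → Int.gcd (c + 1) q = 1 →
    J (RD sQ (V sQ N)) (θ N) ((c + 1) * n + c) (cab (c + 1) q w) =
      ∑ k ∈ Finset.range ((c + 1) * N), (cc N (c + 1) k : KQ) *
        toK (E ((-(((N : ℚ) ^ 2 - 1) * (c + 1) * q) + ((k + 1 : ℚ) ^ 2 - 1) * q / (c + 1)) / 2)) *
        J (RD sQ (V sQ (k + 1))) (θ (k + 1)) n w

/-- SUMR: the recursion hidden in the cabling formula. -/
def SUMR_Stmt : Prop :=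
  ∀ (A : Type) [CommRing A] (e : ℚ → A), e 0 = 1 → (∀ a b, e (a + b) = e a * e b) →
    ∀ (JK : ℕ → A) (p : ℕ) (q : ℤ), 1 ≤ p → JK 0 = 0 → ∀ JC : ℕ → A,
    (∀ N, JC N = ∑ k ∈ Finset.range (p * N), (cc N p k : A) *
      e ((-(((N : ℚ) ^ 2 - 1) * p * q) + ((k + 1 : ℚ) ^ 2 - 1) * q / p) / 2) * JK (k + 1)) →
    ∀ N : ℕ, 1 ≤ N → e (p * q * N) * JC (N + 1) - e (-(p * q * N)) * JC (N - 1) =
      e (q * N) * JK (p * N + 1) - e (-(q * N)) * JK (p * N - 1)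

/-- CJ: the coloured Jones polynomials, their finite type property and the cabling recursion. -/
def CJ_Stmt : Prop :=
  ∃ v : ℕ → Knot → ℚ⟦X⟧,
    (∀ (N : ℕ) (K K' : Knot), (∀ u : Knot → ℚ, IsFiniteType u → u K = u K') → v N K = v N K') ∧
    (∀ K, v 0 K = 0) ∧ (∀ K, v 1 K = 1) ∧
    (∀ N : ℕ, (E 1 - E (-1)) * v N unknot = E N - E (-N)) ∧
    (∀ (n : ℕ) (w : Word) (h : IsKnot (ev n w)) (p : ℕ) (q : ℤ)
      (h' : IsKnot (ev (pn p n) (cab p q w))), Bd n w → 1 ≤ p → Int.gcd p q = 1 →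
      Recur p q (fun N => v N (closure (ev n w) h))
        (fun N => v N (closure (ev (pn p n) (cab p q w)) h')))

/-! ## C. The formal part -/

/-- EVB: evaluation of series in two variables. -/
def EVB_Stmt : Prop :=
  (∀ (x : ℚ) (F F' : B), evB x (F + F') = evB x F + evB x F') ∧
  (∀ (x : ℚ) (F F' : B), evB x (F - F') = evB x F - evB x F') ∧
  (∀ (x : ℚ) (g : ℚ⟦X⟧) (F : B), evB x (cw (ml g) F) = dl x g * evB x F) ∧
  (∀ (x t : ℚ) (F : B), evB x (sh t F) = evB (x + t) F) ∧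
  (∀ (x y : ℚ) (F : B), evB x (cw (dl y) F) = evB (x * y) F) ∧
  (∀ (x : ℚ) (F : B), OddB F → evB (-x) F = - evB x F)

/-- EVI: a series in two variables is determined by its values. -/
def EVI_Stmt : Prop := ∀ F F' : B, (∀ N : ℕ, evB N F = evB N F') → F = F'

/-- XPA: exponentials of commuting operators. -/
def XPA_Stmt : Prop :=
  (∀ (L L' : ℚ⟦X⟧ →ₗ[ℚ] ℚ⟦X⟧), Commute L L' → ∀ F : B, xp (L + L') F = xp L (xp L' F)) ∧
  (∀ F : B, xp 0 F = F) ∧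
  (∀ (L L' M : ℚ⟦X⟧ →ₗ[ℚ] ℚ⟦X⟧), M * L = L' * M → ∀ F : B, cw M (xp L F) = xp L' (cw M F)) ∧
  (∀ (L : ℚ⟦X⟧ →ₗ[ℚ] ℚ⟦X⟧) (F F' : B), xp L (F - F') = xp L F - xp L F')

/-- CONJE: the heat operator and exponential functions. -/
def CONJE_Stmt : Prop :=
  ∀ (a c : ℚ) (F : B),
    xp (a • dz ^ 2) (cw (ml (E c)) F) =
      cw (ml (E c)) (xp ((a * c ^ 2) • (1 : ℚ⟦X⟧ →ₗ[ℚ] ℚ⟦X⟧)) (xp (a • dz ^ 2) (sh (2 * a * c) F)))

/-- SOLV: the functional equation has an odd solution. -/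
def SOLV_Stmt : Prop :=
  ∀ (p : ℕ) (q : ℤ) (F : B), 1 ≤ p → q ≠ 0 → OddB F → ∃ F' : B, OddB F' ∧ FunEq p q F F'

/-- EVREC: the solution has the right values. -/
def EVREC_Stmt : Prop :=
  ∀ (p : ℕ) (q : ℤ) (F F' : B) (JK JC : ℕ → ℚ⟦X⟧), 1 ≤ p → OddB F → OddB F' → FunEq p q F F' →
    Recur p q JK JC → JK 1 = 1 → JC 0 = 0 → JC 1 = 1 → (∀ N : ℕ, evB N F = X * JK N) →
    ∀ N : ℕ, evB N F' = X * JC N

/-- LEADEQ: the first two terms of the functional equation. -/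
def LEADEQ_Stmt : Prop :=
  ∀ (p : ℕ) (q : ℤ) (F F' : B), FunEq p q F F' →
    Lead1 p q (coeff 0 F) (coeff 1 F) (coeff 0 F') (coeff 1 F')

/-- UNKF: the series of the unknot. -/
def UNKF_Stmt : Prop :=
  ∀ JU : ℕ → ℚ⟦X⟧, (∀ N : ℕ, (E 1 - E (-1)) * JU N = E N - E (-N)) →
    ∃ F : B, OddB F ∧ (∀ N : ℕ, evB N F = X * JU N) ∧
      coeff 0 F = (1 / 2 : ℚ) • (E 1 - E (-1)) ∧ coeff 1 F = 0

/-- TRC: the logarithmic derivative and the quotient are rational functions of `exp (2 z)`. -/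
def TRC_Stmt : Prop :=
  ∀ (D : List (ℕ × ℤ)) (f0 f1 : ℚ⟦X⟧), Lead D f0 f1 → f0 ≠ 0 ∧ ∃ a b c : Polynomial ℚ, b ≠ 0 ∧
    Polynomial.aeval (E 2) b * dz f0 = Polynomial.aeval (E 2) a * f0 ∧
    Polynomial.aeval (E 2) b * f1 = Polynomial.aeval (E 2) c * f0 ∧
    (b : ℚ⟦X⟧) * uS D = (a : ℚ⟦X⟧) ∧ (b : ℚ⟦X⟧) * rS D = (c : ℚ⟦X⟧)

/-- TRANS: the first two terms determine the expansions. -/
def TRANS_Stmt : Prop :=
  ∀ (D D' : List (ℕ × ℤ)) (f0 f1 : ℚ⟦X⟧), Lead D f0 f1 → Lead D' f0 f1 →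
    uS D = uS D' ∧ rS D = rS D'

/-- INJ: the expansions determine the parameters. -/
def INJ_Stmt : Prop :=
  ∀ D D' : List (ℕ × ℤ), Nml D → Nml D' → uS D = uS D' → rS D = rS D' → D = D'

/-- THMA: finite type invariants determine the parameters. -/
def THMA_Stmt : Prop :=
  ∀ (D D' : List (ℕ × ℤ)) (K K' : Knot), Nml D → Nml D' → ITD D K → ITD D' K' →
    (∀ u : Knot → ℚ, IsFiniteType u → u K = u K') → D = D'

/-- The theorem. -/
def MAIN_Stmt : Prop :=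
  ∀ K K' : Knot, IteratedTorus K → IteratedTorus K' →
    (∀ u : Knot → ℚ, IsFiniteType u → u K = u K') → K = K'

end Pool.Agent.IT
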