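import Pool.Agent.IT.WBase

/-!
Iterated torus knots: statements of the topological modules (cables of closed braids are well
defined, torus knots, connectedness).
-/

namespace Pool.Agent.IT

open Pool.Agent.LibH11

/-- `σ_s σ_(s+1) ⋯ σ_(s+m-1)` -/
def Aw (s m : ℕ) : Word := (List.range m).map fun i => (s + i, true)

/-- `σ_(s+m-1) ⋯ σ_(s+1) σ_s` -/
def Dw (s m : ℕ) : Word := (List.range m).map fun i => (s + m - 1 - i, true)

/-- the crossing of the `a` strands `s, …, s+a-1` with the `b` strands `s+a, …, s+a+b-1` -/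
def Cw (s a b : ℕ) : Word := (List.range a).flatMap fun r => Dw (s + r) b

/-- the number of strands minus one of the `p`-parallel of a braid on `n + 1` strands -/
def pn (p n : ℕ) : ℕ := p * (n + 1) - 1

/-- ROW: the rows shift the letters. -/
def ROW_Stmt : Prop :=
  ∀ N s m : ℕ, s + m ≤ N →
    (∀ j, s < j → j < s + m → ev N (Dw s m) * gen N (j, true) = gen N (j - 1, true) * ev N (Dw s m)) ∧
    (∀ j, s ≤ j → j + 1 < s + m →
      ev N (Aw s m) * gen N (j, true) = gen N (j + 1, true) * ev N (Aw s m))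

/-- GRID: the block crossing read by columns, and read backwards. -/
def GRID_Stmt : Prop :=
  ∀ N s a b : ℕ,
    ev N (Cw s a (b + 1)) = ev N (Aw (s + b) a) * ev N (Cw s a b) ∧
    ev N (Cw s a b).reverse = ev N (Cw s b a) ∧
    ev N (mir (Cw s a a)) = (ev N (Cw s a a))⁻¹

/-- NATC: the block crossing shifts the letters of the two groups of strands. -/
def NATC_Stmt : Prop :=
  ∀ N s a b : ℕ, s + a + b ≤ N + 1 →
    (∀ j, s + a ≤ j → j + 1 < s + a + b →
      ev N (Cw s a b) * gen N (j, true) = gen N (j - a, true) * ev N (Cw s a b)) ∧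
    (∀ j, s ≤ j → j + 1 < s + a →
      ev N (Cw s a b) * gen N (j, true) = gen N (j + b, true) * ev N (Cw s a b))

/-- PARH: the `p`-parallel is a homomorphism of braid groups; the exponent sum is well defined. -/
def PARH_Stmt : Prop :=
  (∀ p n : ℕ, 1 ≤ p → ∃ Φ : Br n →* Br (pn p n), ∀ w, Bd n w → ev (pn p n) (par p w) = Φ (ev n w)) ∧
  (∀ n : ℕ, ∀ u w, Bd n u → Bd n w → ev n u = ev n w → wr u = wr w)

/-- SLD: braids of `p` strands slide through the `p`-parallel. -/
def SLD_Stmt : Prop :=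
  ∀ p n : ℕ, 1 ≤ p → ∀ w, Bd n w → ∀ (k : Fin (n + 1)) (x : Word), Bd (p - 1) x →
    ev (pn p n) (par p w) * ev (pn p n) (shw (p * k) x) =
      ev (pn p n) (shw (p * (perm (ev n w) k : Fin (n + 1))) x) * ev (pn p n) (par p w)

/-- CNJ: the inserted braid may be put anywhere; conjugation. -/
def CNJ_Stmt : Prop :=
  ∀ p n : ℕ, 1 ≤ p →
    (∀ w, Bd n w → IsKnot (ev n w) → ∀ (k : Fin (n + 1)) (x : Word), Bd (p - 1) x →
      meq (pn p n) (par p w ++ shw (p * k) x) (pn p n) (par p w ++ x)) ∧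
    (∀ (q : ℤ) (u v : Word), Bd n u → Bd n v → IsKnot (ev n (u ++ v)) →
      meq (pn p n) (cab p q (u ++ v)) (pn p n) (cab p q (v ++ u)))

/-- STB: closing the last `p` strands after a block crossing gives a full twist. -/
def STB_Stmt : Prop :=
  ∀ (s p : ℕ) (Y : Word), 1 ≤ p → Bd (s + p - 1) Y →
    meq (s + 2 * p - 1) (Y ++ Cw s p p)
      (s + p - 1) (Y ++ (List.replicate p (Dw s (p - 1))).flatten)

/-- MIR: mirror images. -/
def MIR_Stmt : Prop :=
  (∀ N u w, ev N u = ev N w → ev N (mir u) = ev N (mir w)) ∧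
  (∀ N u M w, meq N u M w → meq N (mir u) M (mir w))

/-- FUL: the full twist. -/
def FUL_Stmt : Prop :=
  ∀ N s m : ℕ, s + m ≤ N →
    ev N (Dw s m) ^ (m + 1) = ev N (Aw s m) ^ (m + 1) ∧
    ∀ j, s ≤ j → j < s + m → Commute (ev N (Aw s m) ^ (m + 1)) (gen N (j, true))

/-- CST: the cable of a stabilised braid. -/
def CST_Stmt : Prop :=
  ∀ (p n : ℕ) (q : ℤ) (w : Word) (e : Bool), 1 ≤ p → Bd n w → IsKnot (ev n w) →
    meq (pn p (n + 1)) (cab p q (w ++ [(n, e)])) (pn p n) (cab p q w)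

/-- CWD: cables are well defined. -/
def CWD_Stmt : Prop :=
  ∀ (p n m : ℕ) (q : ℤ) (w u : Word), 1 ≤ p → Bd n w → Bd m u → IsKnot (ev n w) →
    meq n w m u → meq (pn p n) (cab p q w) (pn p m) (cab p q u)

/-- DEL: the half twist. -/
def DEL_Stmt : Prop :=
  ∀ N : ℕ, ∃ δ : Br N, ∀ i < N, δ * gen N (i, true) = gen N (N - 1 - i, true) * δ

/-- TPQ: the torus knots `T(p,q)` and `T(q,p)`. -/
def TPQ_Stmt : Prop :=
  ∀ p q : ℕ, 1 ≤ p → 1 ≤ q → meq (p - 1) (tor p q) (q - 1) (tor q p) ∧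
    meq (p - 1) (tor p (-q)) (q - 1) (tor q (-p))

/-- UNK: `T(p,1)` is the unknot. -/
def UNK_Stmt : Prop :=
  ∀ p : ℕ, 1 ≤ p → meq (p - 1) (tor p 1) 0 [] ∧ meq (p - 1) (tor p (-1)) 0 []

/-- PRM: the cable is connected if and only if the parameters are relatively prime. -/
def PRM_Stmt : Prop :=
  ∀ (p n : ℕ) (q : ℤ) (w : Word), 1 ≤ p → Bd n w → IsKnot (ev n w) →
    (IsKnot (ev (pn p n) (cab p q w)) ↔ Int.gcd p q = 1)

end Pool.Agent.IT
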