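import Pool.Agent.IT.TopStmts

/-!
The class of iterated torus knots, normal forms.
-/

namespace Pool.Agent.IT

open Pool.Agent.LibH11

theorem isKnot_zero (b : Br 0) : IsKnot b := by
  intro x y
  have : x = y := Subsingleton.elim (α := Fin 1) x y
  rw [this]

/-- The unknot: the closure of the braid with one strand. -/
def unknot : Knot := closure (1 : Br 0) (isKnot_zero 1)

/-- Iterated torus knots: the smallest class of knots which contains the unknot and all
`(p, q)`-cables, `p` and `q` relatively prime, of its members. -/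
inductive IteratedTorus : Knot → Prop
  | unknot : IteratedTorus unknot
  | cable (n : ℕ) (w : Word) (h : IsKnot (ev n w)) (p : ℕ) (q : ℤ)
      (h' : IsKnot (ev (p * (n + 1) - 1) (cab p q w))) : (∀ x ∈ w, x.1 < n) → 1 ≤ p →
      Int.gcd p q = 1 → IteratedTorus (closure (ev n w) h) →
      IteratedTorus (closure (ev (p * (n + 1) - 1) (cab p q w)) h')

/-- `K` is the iterated torus knot with the parameters `D` (outermost first). -/
inductive ITD : List (ℕ × ℤ) → Knot → Prop
  | nil : ITD [] unknot
  | cons (D : List (ℕ × ℤ)) (n : ℕ) (w : Word) (h : IsKnot (ev n w)) (p : ℕ) (q : ℤ)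
      (h' : IsKnot (ev (pn p n) (cab p q w))) : Bd n w → 1 ≤ p → Int.gcd p q = 1 →
      ITD D (closure (ev n w) h) → ITD ((p, q) :: D) (closure (ev (pn p n) (cab p q w)) h')

/-- Normal form of the parameters. -/
def Nml : List (ℕ × ℤ) → Prop
  | [] => True
  | [(p, q)] => 2 ≤ p ∧ Nat.Coprime p q.natAbs ∧ p < q.natAbs
  | (p, q) :: x :: D => 2 ≤ p ∧ Nat.Coprime p q.natAbs ∧ Nml (x :: D)

theorem coprime_of_gcd {p : ℕ} {q : ℤ} (h : Int.gcd p q = 1) : Nat.Coprime p q.natAbs := by
  unfold Nat.Coprime
  simpa [Int.gcd] using h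

/-- knots with the same parameters are equal -/
theorem ITD.uniq (hc : CWD_Stmt) : ∀ (D : List (ℕ × ℤ)) (K K' : Knot), ITD D K → ITD D K' →
    K = K' := by
  intro D
  induction D with
  | nil =>
    intro K K' h h'
    cases h
    cases h'
    rfl
  | cons x D ih =>
    intro K K' h h'
    cases h with
    | cons _ n w h1 p q h2 hb hp hg hK =>
      cases h' with
      | cons _ m u h3 _ _ h4 hb' _ _ hK' =>
        have e := ih _ _ hK hK'
        have e1 : meq n w m u :=
          exists_eqv (x := ⟨⟨n, ev n w⟩, h1⟩) (y := ⟨⟨m, ev m u⟩, h3⟩) e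
        exact (hc p n m q w u hp hb hb' h1 e1).closure_eq h2 h4

theorem tor_nonneg {p : ℕ} (r : ℕ) :
    tor p r = (List.replicate r ((List.range (p - 1)).map fun i => (i, true))).flatten := by
  unfold tor
  rw [if_pos (Int.natCast_nonneg r), Int.natAbs_natCast]

theorem par_nil (p : ℕ) : par p [] = [] := rfl

theorem cab_nil (p : ℕ) (q : ℤ) : cab p q [] = tor p q := by
  unfold cab
  rw [par_nil, wr_nil, mul_zero, sub_zero, List.nil_append]

theorem blk_one (x : ℕ × Bool) : blk 1 x = [x] := by
  rcases x with ⟨i, e⟩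
  cases e <;> simp [blk, iw]

theorem par_one (w : Word) : par 1 w = w := by
  unfold par
  have : blk 1 = fun x => [x] := funext blk_one
  rw [this]
  simp

theorem tor_one (r : ℤ) : tor 1 r = [] := by
  unfold tor
  split_ifs <;> simp [iw]

theorem cab_one (q : ℤ) (w : Word) : cab 1 q w = w := by
  unfold cab
  rw [par_one, tor_one, List.append_nil]

theorem isKnot_nil : IsKnot (ev 0 []) := isKnot_zero _

theorem Nml.cons {p : ℕ} {q : ℤ} {D : List (ℕ × ℤ)} (hp : 2 ≤ p) (hq : Nat.Coprime p q.natAbs)
    (hD : Nml D) (hne : D ≠ []) : Nml ((p, q) :: D) := by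
  cases D with
  | nil => exact absurd rfl hne
  | cons x D => exact ⟨hp, hq, hD⟩

theorem itd_torus (hp : PRM_Stmt) (p : ℕ) (q : ℤ) (h1 : 1 ≤ p) (hg : Int.gcd p q = 1) :
    ∃ h : IsKnot (ev (p - 1) (tor p q)), ITD [(p, q)] (closure (ev (p - 1) (tor p q)) h) := by
  have h2 : IsKnot (ev (pn p 0) (cab p q [])) :=
    (hp p 0 q [] h1 (bd_nil 0) isKnot_nil).mpr hg
  have h3 := ITD.cons [] 0 [] isKnot_nil p q h2 (bd_nil 0) h1 hg ITD.nil
  have e1 : pn p 0 = p - 1 := by
    unfold pn
    simp
  rw [cab_nil] at h2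
  simp only [cab_nil] at h3
  have key : ∀ (m : ℕ) (hm : m = p - 1) (h2 : IsKnot (ev m (tor p q))),
      ITD [(p, q)] (closure (ev m (tor p q)) h2) →
      ∃ h : IsKnot (ev (p - 1) (tor p q)), ITD [(p, q)] (closure (ev (p - 1) (tor p q)) h) := by
    intro m hm h2 h3
    subst hm
    exact ⟨h2, h3⟩
  exact key _ e1 h2 h3

theorem ITD.eq_unknot {K : Knot} (h : ITD [] K) : K = unknot := by
  cases h
  rfl

theorem closure_tor_one (q : ℤ) (h : IsKnot (ev (1 - 1) (tor 1 q))) :
    closure (ev (1 - 1) (tor 1 q)) h = unknot := by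
  have key : ∀ (w : Word) (hw : w = []) (h : IsKnot (ev 0 w)),
      closure (ev 0 w) h = unknot := by
    intro w hw h
    subst hw
    rfl
  exact key _ (tor_one q) h

/-- the `(p, q)`-cable of the unknot has a normal form -/
theorem nml_torus (hp : PRM_Stmt) (ht : TPQ_Stmt) (hu : UNK_Stmt) (p : ℕ) (q : ℤ) (h1 : 1 ≤ p)
    (hg : Int.gcd p q = 1) (h : IsKnot (ev (p - 1) (tor p q))) :
    ∃ D, Nml D ∧ ITD D (closure (ev (p - 1) (tor p q)) h) := by
  have hcop := coprime_of_gcd hg
  by_cases hp1 : p = 1
  · subst hp1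
    refine ⟨[], trivial, ?_⟩
    rw [closure_tor_one]
    exact ITD.nil
  rcases lt_trichotomy p q.natAbs with hlt | heq | hgt
  · refine ⟨[(p, q)], ⟨by omega, hcop, hlt⟩, ?_⟩
    obtain ⟨h', hI⟩ := itd_torus hp p q h1 hg
    exact hI
  · exfalso
    rw [← heq] at hcop
    exact hp1 ((Nat.coprime_self p).mp hcop)
  · by_cases hq0 : q.natAbs = 0
    · exfalso
      rw [hq0] at hcop
      exact hp1 ((Nat.coprime_zero_right p).mp hcop)
    by_cases hq1 : q.natAbs = 1
    · refine ⟨[], trivial, ?_⟩
      have : closure (ev (p - 1) (tor p q)) h = unknot := by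
        have hm : meq (p - 1) (tor p q) 0 [] := by
          rcases Int.natAbs_eq_iff.mp hq1 with h5 | h5
          · rw [h5]
            exact (hu p h1).1
          · rw [h5]
            exact (hu p h1).2
        exact hm.closure_eq h isKnot_nil
      rw [this]
      exact ITD.nil
    · -- exchange
      set r := q.natAbs with hr
      have hgr : ∀ z : ℤ, z.natAbs = p → Int.gcd r z = 1 := by
        intro z hz
        have : Int.gcd (r : ℤ) z = Nat.gcd r p := by
          simp [Int.gcd, hz]
        rw [this]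
        exact hcop.symm
      rcases Int.natAbs_eq q with h5 | h5
      · obtain ⟨h', hI⟩ := itd_torus hp r (p : ℤ) (by omega) (hgr _ (Int.natAbs_natCast p))
        refine ⟨[(r, (p : ℤ))], ⟨by omega, ?_, ?_⟩, ?_⟩
        · rw [Int.natAbs_natCast]
          exact hcop.symm
        · rw [Int.natAbs_natCast]
          exact hgt
        · have hm : meq (p - 1) (tor p q) (r - 1) (tor r p) := by
            have := (ht p r h1 (by omega)).1
            rwa [← h5] at this
          rw [hm.closure_eq h h']
          exact hI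
      · obtain ⟨h', hI⟩ := itd_torus hp r (-(p : ℤ)) (by omega)
          (hgr _ (by rw [Int.natAbs_neg, Int.natAbs_natCast]))
        refine ⟨[(r, -(p : ℤ))], ⟨by omega, ?_, ?_⟩, ?_⟩
        · rw [Int.natAbs_neg, Int.natAbs_natCast]
          exact hcop.symm
        · rw [Int.natAbs_neg, Int.natAbs_natCast]
          exact hgt
        · have hm : meq (p - 1) (tor p q) (r - 1) (tor r (-p)) := by
            have := (ht p r h1 (by omega)).2
            rwa [← h5] at this
          rw [hm.closure_eq h h']
          exact hI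

/-- every iterated torus knot has parameters in normal form -/
theorem nml_exists (hc : CWD_Stmt) (hp : PRM_Stmt) (ht : TPQ_Stmt) (hu : UNK_Stmt) (K : Knot)
    (hK : IteratedTorus K) : ∃ D, Nml D ∧ ITD D K := by
  induction hK with
  | unknot => exact ⟨[], trivial, ITD.nil⟩
  | cable n w h p q h' hb h1 hg _ ih =>
    obtain ⟨D, hD, hI⟩ := ih
    by_cases hp1 : p = 1
    · subst hp1
      refine ⟨D, hD, ?_⟩
      have key : ∀ (m : ℕ) (u : Word) (hm : m = n) (hu : u = w) (h' : IsKnot (ev m u)),
          closure (ev m u) h' = closure (ev n w) h := by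
        intro m u hm hu h'
        subst hm
        subst hu
        rfl
      rw [key _ _ (by omega) (cab_one q w) h']
      exact hI
    · by_cases hne : D = []
      · subst hne
        have hun : closure (ev n w) h = unknot := hI.eq_unknot
        have e1 : meq n w 0 [] :=
          exists_eqv (x := ⟨⟨n, ev n w⟩, h⟩) (y := ⟨⟨0, ev 0 []⟩, isKnot_nil⟩) hun
        have e2 := hc p n 0 q w [] h1 hb (bd_nil 0) h e1
        rw [cab_nil] at e2
        have e3 : pn p 0 = p - 1 := by
          unfold pn
          simp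
        rw [e3] at e2
        have h6 : IsKnot (ev (p - 1) (tor p q)) := e2.isKnot.mp h'
        obtain ⟨D, hD, hI⟩ := nml_torus hp ht hu p q h1 hg h6
        refine ⟨D, hD, ?_⟩
        have e4 : closure (ev (p * (n + 1) - 1) (cab p q w)) h' =
            closure (ev (p - 1) (tor p q)) h6 := e2.closure_eq h' h6
        rw [e4]
        exact hI
      · exact ⟨(p, q) :: D, Nml.cons (by omega) (coprime_of_gcd hg) hD hne,
          ITD.cons D n w h p q h' hb h1 hg hI⟩

end Pool.Agent.IT
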