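import Pool.Agent.IT.TopStmts

/-!
Iterated torus knots: the inserted braid of a cable may be put anywhere; conjugation.
-/

namespace Pool.Agent.IT

open Pool.Agent.LibH11

namespace CNJ

theorem shw_zero (x : Word) : shw 0 x = x := by
  unfold shw
  conv_rhs => rw [← List.map_id x]
  apply List.map_congr_left
  rintro ⟨i, e⟩ _
  simp

theorem par_append (p : ℕ) (u v : Word) : par p (u ++ v) = par p u ++ par p v := by
  unfold par
  rw [List.flatMap_append]

theorem bd_range (p : ℕ) : Bd (p - 1) ((List.range (p - 1)).map fun i => (i, true)) := by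
  intro x hx
  obtain ⟨i, hi, rfl⟩ := List.mem_map.mp hx
  exact List.mem_range.mp hi

theorem bd_replicate {N : ℕ} (k : ℕ) {w : Word} (h : Bd N w) :
    Bd N (List.replicate k w).flatten := by
  intro x hx
  obtain ⟨l, hl, hxl⟩ := List.mem_flatten.mp hx
  rw [List.mem_replicate] at hl
  rw [hl.2] at hxl
  exact h x hxl

theorem bd_tor (p : ℕ) (r : ℤ) : Bd (p - 1) (tor p r) := by
  unfold tor
  split_ifs
  · exact bd_replicate _ (bd_range p)
  · exact bd_replicate _ (bd_iw.mpr (bd_range p))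

theorem step (hs : SLD_Stmt) {p n : ℕ} (hp : 1 ≤ p) {w : Word} (hw : Bd n w) (k : Fin (n + 1))
    {x : Word} (hx : Bd (p - 1) x) :
    meq (pn p n) (par p w ++ shw (p * k) x)
      (pn p n) (par p w ++ shw (p * (perm (ev n w) k : Fin (n + 1))) x) := by
  have h1 := hs p n hp w hw k x hx
  have h2 : meq (pn p n) (par p w ++ shw (p * k) x)
      (pn p n) (shw (p * (perm (ev n w) k : Fin (n + 1))) x ++ par p w) := by
    apply meq_of_ev
    rw [ev_append, ev_append, h1]
  exact h2.trans (meq_conj _ _ _)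

theorem iter (hs : SLD_Stmt) {p n : ℕ} (hp : 1 ≤ p) {w : Word} (hw : Bd n w) (k : Fin (n + 1))
    {x : Word} (hx : Bd (p - 1) x) (m : ℕ) :
    meq (pn p n) (par p w ++ shw (p * k) x)
      (pn p n) (par p w ++ shw (p * (((perm (ev n w)) ^ m) k : Fin (n + 1))) x) := by
  induction m with
  | zero => exact meq_refl _ _
  | succ m ih =>
    refine ih.trans ?_
    rw [pow_succ', Equiv.Perm.mul_apply]
    exact step hs hp hw _ hx

theorem part1 (hs : SLD_Stmt) {p n : ℕ} (hp : 1 ≤ p) {w : Word} (hw : Bd n w)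
    (hk : IsKnot (ev n w)) (k : Fin (n + 1)) {x : Word} (hx : Bd (p - 1) x) :
    meq (pn p n) (par p w ++ shw (p * k) x) (pn p n) (par p w ++ x) := by
  obtain ⟨m, hm⟩ := (hk k 0).exists_nat_pow_eq
  have h := iter hs hp hw k hx m
  rw [hm] at h
  rw [show p * ((0 : Fin (n + 1)) : ℕ) = 0 by simp, shw_zero] at h
  exact h

theorem part2 (hs : SLD_Stmt) {p n : ℕ} (hp : 1 ≤ p) (q : ℤ) {u v : Word} (hu : Bd n u)
    (hv : Bd n v) (hk : IsKnot (ev n (u ++ v))) :
    meq (pn p n) (cab p q (u ++ v)) (pn p n) (cab p q (v ++ u)) := by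
  have hwr : wr (v ++ u) = wr (u ++ v) := by rw [wr_append, wr_append, add_comm]
  have hk2 : IsKnot (ev n (v ++ u)) := ((meq_conj n u v).isKnot).mp hk
  unfold cab
  rw [hwr]
  generalize hr : q - p * wr (u ++ v) = r
  have ht := bd_tor p r
  set t := tor p r
  obtain ⟨k, hkk⟩ : ∃ k : Fin (n + 1), perm (ev n u) k = 0 :=
    ⟨(perm (ev n u))⁻¹ 0, by simp⟩
  have h1 := hs p n hp u hu k t ht
  rw [hkk, show p * ((0 : Fin (n + 1)) : ℕ) = 0 by simp, shw_zero] at h1
  have e1 : meq (pn p n) (par p (u ++ v) ++ t) (pn p n) ((par p v ++ t) ++ par p u) := by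
    rw [par_append, List.append_assoc]
    exact meq_conj _ _ _
  have e2 : meq (pn p n) ((par p v ++ t) ++ par p u)
      (pn p n) (par p (v ++ u) ++ shw (p * k) t) := by
    apply meq_of_ev
    rw [par_append]
    simp only [ev_append]
    rw [mul_assoc, ← h1, mul_assoc]
  exact (e1.trans e2).trans (part1 hs hp (hv.append hu) hk2 k ht)

end CNJ

theorem cnj (hp : PARH_Stmt) (hs : SLD_Stmt) : CNJ_Stmt := by
  have _ := hp
  intro p n hpn
  exact ⟨fun w hw hk k x hx => CNJ.part1 hs hpn hw hk k hx,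
    fun q u v hu hv hk => CNJ.part2 hs hpn q hu hv hk⟩

end Pool.Agent.IT
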