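import Pool.Agent.IT.TopStmts

/-!
Iterated torus knots: the cable of a stabilised braid.
-/

namespace Pool.Agent.IT

open Pool.Agent.LibH11

namespace CST

theorem shw_zero (x : Word) : shw 0 x = x := by
  unfold shw
  conv_rhs => rw [← List.map_id x]
  apply List.map_congr_left
  rintro ⟨i, e⟩ _
  simp

theorem par_append (p : ℕ) (u v : Word) : par p (u ++ v) = par p u ++ par p v := by
  unfold par
  rw [List.flatMap_append]

theorem par_single (p : ℕ) (x : ℕ × Bool) : par p [x] = blk p x := by
  unfold par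
  simp

theorem bd_range (p : ℕ) : Bd (p - 1) ((List.range (p - 1)).map fun i => (i, true)) := by
  intro x hx
  obtain ⟨i, hi, rfl⟩ := List.mem_map.mp hx
  exact List.mem_range.mp hi

theorem bd_replicate {N : ℕ} (k : ℕ) {w : Word} (h : Bd N w) :
    Bd N (List.replicate k w).flatten := by
  intro x hx
  obtain ⟨l, hl, hxl⟩ := List.mem_flatten.mp hx
  rw [List.mem_replicate] at hl
  rw [hl.2] at hxl
  exact h x hxl

theorem bd_tor (p : ℕ) (r : ℤ) : Bd (p - 1) (tor p r) := by
  unfold tor
  split_ifs
  · exact bd_replicate _ (bd_range p)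
  · exact bd_replicate _ (bd_iw.mpr (bd_range p))

theorem bd_shw {N k : ℕ} {w : Word} (h : Bd N w) : Bd (k + N) (shw k w) := by
  intro x hx
  unfold shw at hx
  obtain ⟨y, hy, rfl⟩ := List.mem_map.mp hx
  have := h y hy
  simp only
  omega

theorem blk_true (p i : ℕ) : blk p (i, true) = Cw (p * i) p p := by
  unfold blk Cw Dw
  refine List.flatMap_congr fun a _ => ?_
  refine List.map_congr_left fun b hb => ?_
  have hb' : b < p := List.mem_range.mp hb
  simp only [Prod.mk.injEq, and_true]
  omega

theorem blk_false (p i : ℕ) : blk p (i, false) = iw (Cw (p * i) p p) := by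
  rw [← blk_true]
  rfl

theorem mem_Cw {s a b : ℕ} {y : ℕ × Bool} (hy : y ∈ Cw s a b) :
    s ≤ y.1 ∧ y.1 + 2 ≤ s + a + b := by
  unfold Cw Dw at hy
  simp only [List.mem_flatMap, List.mem_range, List.mem_map] at hy
  obtain ⟨r, hr, i, hi, rfl⟩ := hy
  simp only
  omega

theorem bd_blk {p n : ℕ} {x : ℕ × Bool} (hx : x.1 < n) : Bd (pn p n) (blk p x) := by
  have key : Bd (pn p n) (Cw (p * x.1) p p) := by
    intro y hy
    have h1 := (mem_Cw hy).2
    have h2 : p * (x.1 + 2) ≤ p * (n + 1) := Nat.mul_le_mul_left p (by omega)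
    have h3 : p * (x.1 + 2) = p * x.1 + p + p := by ring
    unfold pn
    omega
  obtain ⟨i, e⟩ := x
  cases e
  · rw [blk_false]
    exact bd_iw.mpr key
  · rw [blk_true]
    exact key

theorem bd_par {p n : ℕ} {w : Word} (hw : Bd n w) : Bd (pn p n) (par p w) := by
  intro y hy
  unfold par at hy
  obtain ⟨x, hx, hyx⟩ := List.mem_flatMap.mp hy
  exact bd_blk (hw x hx) y hyx

theorem shw_append (k : ℕ) (u v : Word) : shw k (u ++ v) = shw k u ++ shw k v := by
  unfold shw
  rw [List.map_append]

theorem shw_rep (k m : ℕ) (w : Word) :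
    shw k (List.replicate m w).flatten = (List.replicate m (shw k w)).flatten := by
  induction m with
  | zero => rfl
  | succ m ih => rw [List.replicate_succ, List.replicate_succ, List.flatten_cons,
      List.flatten_cons, shw_append, ih]

theorem mir_rep (m : ℕ) (w : Word) :
    mir (List.replicate m w).flatten = (List.replicate m (mir w)).flatten := by
  induction m with
  | zero => rfl
  | succ m ih => rw [List.replicate_succ, List.replicate_succ, List.flatten_cons,
      List.flatten_cons, mir_append, ih]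

theorem shw_iw (k : ℕ) (w : Word) : shw k (iw w) = iw (shw k w) := by
  unfold shw iw
  rw [List.map_reverse, List.map_map, List.map_map]
  rfl

theorem shw_row (s m : ℕ) : shw s ((List.range m).map fun i => (i, true)) = Aw s m := by
  unfold shw Aw
  rw [List.map_map]
  apply List.map_congr_left
  intro i _
  simp only [Function.comp, Prod.mk.injEq, and_true]
  omega

theorem ev_shw_tor (N s p : ℕ) (r : ℤ) : ev N (shw s (tor p r)) = ev N (Aw s (p - 1)) ^ r := by
  unfold tor
  split_ifs with h
  · rw [shw_rep, shw_row, ev_replicate]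
    obtain ⟨k, rfl⟩ := Int.eq_ofNat_of_zero_le h
    simp
  · rw [shw_rep, shw_iw, shw_row, ev_replicate, ev_iw]
    obtain ⟨k, hk⟩ := Int.eq_ofNat_of_zero_le (show 0 ≤ -r by omega)
    have hr : r = -(k : ℤ) := by
      rw [← Int.ofNat_eq_natCast] at *
      omega
    rw [hr]
    simp

theorem Dw_reverse (s m : ℕ) : (Aw s m).reverse = Dw s m := by
  induction m with
  | zero => rfl
  | succ m ih =>
    have h1 : Aw s (m + 1) = Aw s m ++ [(s + m, true)] := by
      unfold Aw
      rw [List.range_succ, List.map_append]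
      rfl
    have h2 : Dw s (m + 1) = (s + m, true) :: Dw s m := by
      unfold Dw
      rw [List.range_succ_eq_map, List.map_cons, List.map_map]
      congr 1
      apply List.map_congr_left
      intro i _
      simp only [Function.comp, Prod.mk.injEq, and_true]
      omega
    rw [h1, h2, List.reverse_append, ih]
    rfl

theorem mir_Dw (s m : ℕ) : mir (Dw s m) = iw (Aw s m) := by
  unfold iw mir
  rw [← Dw_reverse, List.map_reverse]

/-- the case of the positive crossing -/
theorem pos (hf : FUL_Stmt) (hs : STB_Stmt) {p n : ℕ} (hp : 1 ≤ p) (Y : Word)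
    (hY : Bd (p * n + p - 1) Y) :
    meq (p * n + 2 * p - 1) (Y ++ blk p (n, true))
      (p * n + p - 1) (Y ++ shw (p * n) (tor p (p : ℤ))) := by
  rw [blk_true]
  refine (hs (p * n) p Y hp hY).trans (meq_of_ev ?_)
  rw [ev_append, ev_append, ev_replicate, ev_shw_tor]
  have h := (hf (p * n + p - 1) (p * n) (p - 1) (by omega)).1
  have h1 : p - 1 + 1 = p := by omega
  rw [h1] at h
  rw [h, zpow_natCast]

/-- the case of the negative crossing -/
theorem neg (hg : GRID_Stmt) (hm : MIR_Stmt) (hs : STB_Stmt) {p n : ℕ} (hp : 1 ≤ p) (Y : Word)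
    (hY : Bd (p * n + p - 1) Y) :
    meq (p * n + 2 * p - 1) (Y ++ blk p (n, false))
      (p * n + p - 1) (Y ++ shw (p * n) (tor p (-(p : ℤ)))) := by
  have h1 := hm.2 _ _ _ _ (hs (p * n) p (mir Y) hp (bd_mir.mpr hY))
  rw [mir_append, mir_append, mir_mir, mir_rep, mir_Dw] at h1
  refine (meq_of_ev ?_).trans (h1.trans (meq_of_ev ?_))
  · rw [blk_false, ev_append, ev_append, ev_iw, (hg _ _ _ 0).2.2]
  · rw [ev_append, ev_append, ev_replicate, ev_iw, ev_shw_tor, zpow_neg, zpow_natCast, inv_pow]

theorem core (hc : CNJ_Stmt) {p n : ℕ} (q : ℤ) (w : Word) (e : Bool) (t : ℤ) (hp : 1 ≤ p)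
    (hw : Bd n w) (hk : IsKnot (ev n w)) (ht : wr (w ++ [(n, e)]) * p = wr w * p + t)
    (hb : ∀ Y : Word, Bd (p * n + p - 1) Y → meq (p * n + 2 * p - 1) (Y ++ blk p (n, e))
      (p * n + p - 1) (Y ++ shw (p * n) (tor p t))) :
    meq (pn p (n + 1)) (cab p q (w ++ [(n, e)])) (pn p n) (cab p q w) := by
  have hN : pn p n = p * n + p - 1 := by
    unfold pn
    rw [Nat.mul_add, Nat.mul_one]
  have hN' : pn p (n + 1) = p * n + 2 * p - 1 := by
    unfold pn
    have : p * (n + 1 + 1) = p * n + 2 * p := by ring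
    rw [this]
  have hw' : Bd (n + 1) (w ++ [(n, e)]) := by
    refine (hw.mono (Nat.le_succ n)).append ?_
    intro x hx
    rw [List.mem_singleton] at hx
    rw [hx]
    exact Nat.lt_succ_self n
  have hk' : IsKnot (ev (n + 1) (w ++ [(n, e)])) := by
    have h := (meq_destab n w [] e hw (bd_nil n)).isKnot
    rw [List.append_nil, List.append_nil] at h
    exact h.mpr hk
  set r : ℤ := q - p * wr w with hr
  set r' : ℤ := q - p * wr (w ++ [(n, e)]) with hr'
  have hrr : t + r' = r := by
    rw [hr, hr']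
    linarith
  have hA := (hc p (n + 1) hp).1 (w ++ [(n, e)]) hw' hk' ⟨n, by omega⟩ (tor p r') (bd_tor p r')
  simp only at hA
  have hG := (hc p n hp).1 w hw hk ⟨n, by omega⟩ (tor p r) (bd_tor p r)
  simp only at hG
  have hY : Bd (p * n + p - 1) (shw (p * n) (tor p r') ++ par p w) := by
    refine Bd.append ?_ ?_
    · refine (bd_shw (bd_tor p r')).mono ?_
      omega
    · rw [← hN]
      exact bd_par hw
  have hC := hb _ hY
  rw [← hN, ← hN'] at hC
  unfold cab
  rw [← hr, ← hr']
  refine hA.symm.trans ?_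
  rw [par_append, par_single]
  refine (meq_conj _ _ _).trans ?_
  rw [← List.append_assoc]
  refine hC.trans ?_
  rw [List.append_assoc]
  refine (meq_conj _ _ _).trans ?_
  refine (meq_of_ev ?_).trans hG
  rw [ev_append, ev_append, ev_append, ev_shw_tor, ev_shw_tor, ev_shw_tor, mul_assoc, ← zpow_add,
    hrr]

end CST

theorem cst (hg : GRID_Stmt) (hm : MIR_Stmt) (hf : FUL_Stmt) (_hp : PARH_Stmt) (hc : CNJ_Stmt)
    (hs : STB_Stmt) : CST_Stmt := by
  intro p n q w e hp hw hk
  cases e
  · refine CST.core hc q w false (-(p : ℤ)) hp hw hk ?_ fun Y hY => CST.neg hg hm hs hp Y hY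
    rw [wr_append]
    have : wr [(n, false)] = -1 := by
      unfold wr
      simp
    rw [this]
    ring
  · refine CST.core hc q w true (p : ℤ) hp hw hk ?_ fun Y hY => CST.pos hf hs hp Y hY
    rw [wr_append]
    have : wr [(n, true)] = 1 := by
      unfold wr
      simp
    rw [this]
    ring

end Pool.Agent.IT
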