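import Pool.Agent.IT.TopStmts

/-!
Iterated torus knots: cables of closed braids are well defined.
-/

namespace Pool.Agent.IT

open Pool.Agent.LibH11

namespace CWD

/-- words representing the same braid have the same cable -/
theorem same (hp : PARH_Stmt) {p n : ℕ} (q : ℤ) (h1 : 1 ≤ p) {w u : Word} (hw : Bd n w)
    (hu : Bd n u) (h : ev n w = ev n u) : meq (pn p n) (cab p q w) (pn p n) (cab p q u) := by
  obtain ⟨Φ, hΦ⟩ := hp.1 p n h1
  have hwr := hp.2 n w u hw hu h
  refine meq_of_ev ?_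
  unfold cab
  rw [ev_append, ev_append, hΦ w hw, hΦ u hu, h, hwr]

theorem bd_last {n : ℕ} {w : Word} (hw : Bd n w) (e : Bool) : Bd (n + 1) (w ++ [(n, e)]) := by
  refine (hw.mono (Nat.le_succ n)).append ?_
  intro x hx
  rw [List.mem_singleton] at hx
  rw [hx]
  exact Nat.lt_succ_self n

theorem move (hp : PARH_Stmt) (hc : CNJ_Stmt) (hs : CST_Stmt) {p : ℕ} (q : ℤ) (h1 : 1 ≤ p)
    {x y : Σ n : ℕ, Br n} (h : MarkovMove x y) (hx : IsKnot x.2) (w u : Word)
    (hw : Bd x.1 w) (hu : Bd y.1 u) (ew : ev x.1 w = x.2) (eu : ev y.1 u = y.2) :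
    meq (pn p x.1) (cab p q w) (pn p y.1) (cab p q u) := by
  have hy : IsKnot y.2 := (isKnot_move h).mp hx
  cases h with
  | conj n a b =>
    simp only at hx hy hw hu ew eu ⊢
    obtain ⟨v, hv, rfl⟩ := exists_word a
    have hiv : Bd n (iw v) := bd_iw.mpr hv
    have e1 : ev n (v ++ (w ++ iw v)) = ev n v * b * (ev n v)⁻¹ := by
      rw [ev_append, ev_append, ev_iw, ew, mul_assoc]
    have k1 : IsKnot (ev n (v ++ (w ++ iw v))) := by
      rw [e1]
      exact hy
    have c1 := (hc p n h1).2 q v (w ++ iw v) hv (hw.append hiv) k1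
    have c2 : meq (pn p n) (cab p q w) (pn p n) (cab p q ((w ++ iw v) ++ v)) := by
      refine same hp q h1 hw ((hw.append hiv).append hv) ?_
      rw [ev_append, ev_append, ev_iw]
      group
    have c3 : meq (pn p n) (cab p q (v ++ (w ++ iw v))) (pn p n) (cab p q u) := by
      refine same hp q h1 (hv.append (hw.append hiv)) hu ?_
      rw [e1, eu]
    exact (c2.trans c1.symm).trans c3
  | stabPos n b =>
    simp only at hx hy hw hu ew eu ⊢
    have k1 : IsKnot (ev n w) := by
      rw [ew]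
      exact hx
    have c1 := hs p n q w true h1 hw k1
    have c2 : meq (pn p (n + 1)) (cab p q (w ++ [(n, true)])) (pn p (n + 1)) (cab p q u) := by
      refine same hp q h1 (bd_last hw true) hu ?_
      rw [eu, ev_append, ← incl_ev hw, ev_single, ew, gen_true (Nat.lt_succ_self n)]
      rfl
    exact c1.symm.trans c2
  | stabNeg n b =>
    simp only at hx hy hw hu ew eu ⊢
    have k1 : IsKnot (ev n w) := by
      rw [ew]
      exact hx
    have c1 := hs p n q w false h1 hw k1
    have c2 : meq (pn p (n + 1)) (cab p q (w ++ [(n, false)])) (pn p (n + 1)) (cab p q u) := by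
      refine same hp q h1 (bd_last hw false) hu ?_
      rw [eu, ev_append, ← incl_ev hw, ev_single, ew, gen_false, gen_true (Nat.lt_succ_self n)]
      rfl
    exact c1.symm.trans c2

theorem eqv (hp : PARH_Stmt) (hc : CNJ_Stmt) (hs : CST_Stmt) {p : ℕ} (q : ℤ) (h1 : 1 ≤ p)
    {x y : Σ n : ℕ, Br n} (h : Relation.EqvGen MarkovMove x y) :
    IsKnot x.2 → ∀ w u : Word, Bd x.1 w → Bd y.1 u → ev x.1 w = x.2 → ev y.1 u = y.2 →
      meq (pn p x.1) (cab p q w) (pn p y.1) (cab p q u) := by
  induction h with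
  | rel x y h =>
    intro hx w u hw hu ew eu
    exact move hp hc hs q h1 h hx w u hw hu ew eu
  | refl x =>
    intro hx w u hw hu ew eu
    exact same hp q h1 hw hu (ew.trans eu.symm)
  | symm x y h ih =>
    intro hy w u hw hu ew eu
    exact (ih ((isKnot_eqv h).mpr hy) u w hu hw eu ew).symm
  | trans x y z hxy hyz ih1 ih2 =>
    intro hx w u hw hu ew eu
    obtain ⟨v, hv, ev'⟩ := exists_word y.2
    exact (ih1 hx w v hw hv ew ev').trans
      (ih2 ((isKnot_eqv hxy).mp hx) v u hv hu ev' eu)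

end CWD

/-- CWD: cables are well defined. -/
theorem cwd (hp : PARH_Stmt) (hc : CNJ_Stmt) (hs : CST_Stmt) : CWD_Stmt := by
  intro p n m q w u h1 hw hu hk h
  exact CWD.eqv hp hc hs q h1 (x := ⟨n, ev n w⟩) (y := ⟨m, ev m u⟩) h hk w u hw hu rfl rfl

end Pool.Agent.IT
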