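import Pool.Agent.IT.Cls

/-!
# Iterated torus knots: definitions of the quantum and of the formal part
-/

namespace Pool.Agent.IT
open Pool.Agent.LibH11
open scoped BigOperators

/-! ## Braiding matrices -/

/-- A braiding matrix on the free module with basis `ι`, its inverse, and the diagonal weights
used to close braids. -/
structure RData (A ι : Type) where
  R : Matrix (ι × ι) (ι × ι) A
  R' : Matrix (ι × ι) (ι × ι) A
  κ : ι → A

section RMat

variable {A : Type} [CommRing A] {ι : Type} [Fintype ι] [DecidableEq ι]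

/-- The matrices satisfy the Yang-Baxter equation and the Markov trace property with framing
factor `θ`. -/
structure Good (T : RData A ι) (θ : Aˣ) : Prop where
  mul_inv : T.R * T.R' = 1
  inv_mul : T.R' * T.R = 1
  ybe : ∀ a b c a' b' c' : ι,
    ∑ x, ∑ y, ∑ z, T.R (a, b) (x, y) * T.R (y, c) (z, c') * T.R (x, z) (a', b') =
      ∑ x, ∑ y, ∑ z, T.R (b, c) (y, z) * T.R (a, y) (a', x) * T.R (x, z) (b', c')
  comm : ∀ a b c d : ι, T.κ a * T.κ b * T.R (a, b) (c, d) = T.R (a, b) (c, d) * (T.κ c * T.κ d)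
  trace : ∀ a c : ι, ∑ b, T.R (a, b) (c, b) * T.κ b = if a = c then (θ : A) else 0
  trace' : ∀ a c : ι, ∑ b, T.R' (a, b) (c, b) * T.κ b = if a = c then ((θ⁻¹ : Aˣ) : A) else 0

open Classical in
/-- The matrix that acts by `R` on the positions `x, y`. -/
noncomputable def atp {P : Type} (R : Matrix (ι × ι) (ι × ι) A) (x y : P) :
    Matrix (P → ι) (P → ι) A :=
  fun s t => if ∀ z, z ≠ x → z ≠ y → s z = t z then R (s x, s y) (t x, t y) else 0

open Classical in
/-- The matrix that acts by `X` on the position `x`. -/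
noncomputable def at1 {P : Type} (X : Matrix ι ι A) (x : P) : Matrix (P → ι) (P → ι) A :=
  fun s t => if ∀ z, z ≠ x → s z = t z then X (s x) (t x) else 0

/-- The matrix of a letter on `n + 1` strands. -/
noncomputable def opl (T : RData A ι) (n : ℕ) (x : ℕ × Bool) :
    Matrix (Fin (n + 1) → ι) (Fin (n + 1) → ι) A :=
  if h : x.1 < n then
    atp (if x.2 then T.R else T.R') (⟨x.1, Nat.lt_succ_of_lt h⟩ : Fin (n + 1))
      ⟨x.1 + 1, Nat.succ_lt_succ h⟩
  else 1

/-- The matrix of a word on `n + 1` strands. -/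
noncomputable def op (T : RData A ι) (n : ℕ) (w : Word) :
    Matrix (Fin (n + 1) → ι) (Fin (n + 1) → ι) A := (w.map (opl T n)).prod

/-- The closure of the word with the matrix `X` inserted on the first strand. -/
noncomputable def G (T : RData A ι) (n : ℕ) (w : Word) (X : Matrix ι ι A) : A :=
  ∑ s : Fin (n + 1) → ι, (op T n w * at1 X (0 : Fin (n + 1))) s s * ∏ i, T.κ (s i)

/-- The framed invariant of the closure of the word. -/
noncomputable def Jfr (T : RData A ι) (n : ℕ) (w : Word) : A :=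
  ∑ s : Fin (n + 1) → ι, op T n w s s * ∏ i, T.κ (s i)

/-- The invariant of the closure of the word. -/
noncomputable def J (T : RData A ι) (θ : Aˣ) (n : ℕ) (w : Word) : A :=
  ((θ ^ (-wr w) : Aˣ) : A) * Jfr T n w

/-- The restriction of braiding data along a map of labels. -/
def RData.sub {A ι ι' : Type} (T : RData A ι) (f : ι' → ι) : RData A ι' where
  R := T.R.submatrix (Prod.map f f) (Prod.map f f)
  R' := T.R'.submatrix (Prod.map f f) (Prod.map f f)
  κ := T.κ ∘ f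

/-- The image of braiding data under a ring homomorphism. -/
def RData.map {A ι B : Type} [CommRing A] [CommRing B] (φ : A →+* B) (T : RData A ι) :
    RData B ι where
  R := T.R.map φ
  R' := T.R'.map φ
  κ := fun i => φ (T.κ i)

/-- The braiding data on `c + 1` parallel strands. -/
noncomputable def blkD (T : RData A ι) (c : ℕ) : RData A (Fin (c + 1) → ι) where
  R := fun x y => op T ((c + 1) + c) (blk (c + 1) (0, true))
    (Fin.append x.1 x.2 : Fin ((c + 1) + (c + 1)) → ι)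
    (Fin.append y.1 y.2 : Fin ((c + 1) + (c + 1)) → ι)
  R' := fun x y => op T ((c + 1) + c) (blk (c + 1) (0, false))
    (Fin.append x.1 x.2 : Fin ((c + 1) + (c + 1)) → ι)
    (Fin.append y.1 y.2 : Fin ((c + 1) + (c + 1)) → ι)
  κ := fun s => ∏ i, T.κ (s i)

end RMat

/-! ## Weight modules for quantum `sl_2` over a field, `q = s ^ 2` -/

section Weight

variable {K : Type} [Field K] (s : K)

/-- `q = s ^ 2` is not a root of unity. -/
def Gen (s : K) : Prop := s ≠ 0 ∧ ∀ n : ℕ, 0 < n → s ^ (4 * n) ≠ 1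

/-- The quantum integer `[w] = (q ^ w - q ^ (-w)) / (q - q⁻¹)`. -/
def qn (w : ℤ) : K := (s ^ (2 * w) - s ^ (-(2 * w))) / (s ^ (2 : ℤ) - s ^ (-2 : ℤ))

/-- The quantum factorial. -/
def qfac (n : ℕ) : K := ∏ i ∈ Finset.range n, qn s ((i : ℤ) + 1)

/-- The coefficients of the quasi-R-matrix. -/
def aq (n : ℕ) : K := s ^ ((n : ℤ) * (n - 1)) * (s ^ (2 : ℤ) - s ^ (-2 : ℤ)) ^ n / qfac s n

/-- The coefficients of its inverse. -/
def aq' (n : ℕ) : K :=
  s ^ (-((n : ℤ) * (n - 1))) * (s ^ (-2 : ℤ) - s ^ (2 : ℤ)) ^ n / qfac s n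

/-- A weight module, given by matrices of `E` and `F` in a basis of weight vectors. -/
structure WM (K ι : Type) where
  wt : ι → ℤ
  E : Matrix ι ι K
  F : Matrix ι ι K

variable {ι κ : Type} [Fintype ι] [DecidableEq ι] [Fintype κ] [DecidableEq κ]

/-- The relations of a weight module. -/
structure Ok (M : WM K ι) : Prop where
  wtE : ∀ a b, M.E a b ≠ 0 → M.wt a = M.wt b + 2
  wtF : ∀ a b, M.F a b ≠ 0 → M.wt a = M.wt b - 2
  comm : M.E * M.F - M.F * M.E = Matrix.diagonal fun a => qn s (M.wt a)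

omit [DecidableEq ι] [DecidableEq κ] in
/-- Morphisms of weight modules, as matrices. -/
structure Mor (M : WM K ι) (N : WM K κ) (f : Matrix κ ι K) : Prop where
  wt : ∀ b a, f b a ≠ 0 → N.wt b = M.wt a
  E : N.E * f = f * M.E
  F : N.F * f = f * M.F

/-- The tensor product: `E ↦ E ⊗ K + 1 ⊗ E`, `F ↦ F ⊗ 1 + K⁻¹ ⊗ F`. -/
def tens (M : WM K ι) (N : WM K κ) : WM K (ι × κ) where
  wt := fun x => M.wt x.1 + N.wt x.2
  E := fun x y => (if x.2 = y.2 then M.E x.1 y.1 * s ^ (2 * N.wt y.2) else 0) +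
    (if x.1 = y.1 then N.E x.2 y.2 else 0)
  F := fun x y => (if x.2 = y.2 then M.F x.1 y.1 else 0) +
    (if x.1 = y.1 then s ^ (-(2 * M.wt y.1)) * N.F x.2 y.2 else 0)

/-- The simple module of dimension `N`: `E e_i = [N - i] e_{i-1}`, `F e_i = [i + 1] e_{i+1}`. -/
def V (N : ℕ) : WM K (Fin N) where
  wt := fun i => (N : ℤ) - 1 - 2 * (i : ℕ)
  E := fun a b => if (a : ℕ) + 1 = b then qn s ((N : ℤ) - (b : ℕ)) else 0
  F := fun a b => if (a : ℕ) = b + 1 then qn s (a : ℕ) else 0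

omit [Fintype ι] [DecidableEq ι] [Fintype κ] [DecidableEq κ] in
/-- The inclusion of the labels of a summand. -/
def inc {r : ℕ} (a : Fin r → ℕ) (i : Fin r) (j : Fin (a i)) : Σ i : Fin r, Fin (a i) := ⟨i, j⟩

/-- The direct sum of simple modules. -/
def dsum {r : ℕ} (a : Fin r → ℕ) : WM K (Σ i : Fin r, Fin (a i)) where
  wt := fun x => (a x.1 : ℤ) - 1 - 2 * (x.2 : ℕ)
  E := fun x y => if x.1 = y.1 ∧ (x.2 : ℕ) + 1 = y.2 then qn s ((a y.1 : ℤ) - (y.2 : ℕ)) else 0
  F := fun x y => if x.1 = y.1 ∧ (x.2 : ℕ) = y.2 + 1 then qn s (x.2 : ℕ) else 0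

/-- The tensor power `M ⊗ ⋯ ⊗ M` with `c` factors. -/
def fpow (M : WM K ι) (c : ℕ) : WM K (Fin c → ι) where
  wt := fun x => ∑ i, M.wt (x i)
  E := fun x y => ∑ k : Fin c, if ∀ l, l ≠ k → x l = y l then
    M.E (x k) (y k) * s ^ (2 * ∑ l ∈ Finset.univ.filter (fun l => k < l), M.wt (y l)) else 0
  F := fun x y => ∑ k : Fin c, if ∀ l, l ≠ k → x l = y l then
    s ^ (-(2 * ∑ l ∈ Finset.univ.filter (fun l => l < k), M.wt (y l))) * M.F (x k) (y k) else 0

/-- The braiding `M ⊗ N → N ⊗ M`. -/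
def Rm (M : WM K ι) (N : WM K κ) : Matrix (κ × ι) (ι × κ) K :=
  fun x y => s ^ (M.wt x.2 * N.wt x.1) *
    ∑ n ∈ Finset.range (Fintype.card ι), aq s n * (M.E ^ n) x.2 y.1 * (N.F ^ n) x.1 y.2

/-- The inverse braiding `N ⊗ M → M ⊗ N`. -/
def Rm' (M : WM K ι) (N : WM K κ) : Matrix (ι × κ) (κ × ι) K :=
  fun x y => (∑ n ∈ Finset.range (Fintype.card ι),
    aq' s n * (M.E ^ n) x.1 y.2 * (N.F ^ n) x.2 y.1) * s ^ (-(M.wt y.2 * N.wt y.1))

/-- The braiding data of a weight module. -/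
def RD (M : WM K ι) : RData K ι where
  R := Rm s M M
  R' := Rm' s M M
  κ := fun i => s ^ (2 * M.wt i)

/-- The trace on the labels of weight `j`. -/
def wtr (M : WM K ι) (j : ℤ) (X : Matrix ι ι K) : K :=
  ∑ i ∈ Finset.univ.filter (fun i => M.wt i = j), X i i

/-- The Kronecker product of matrices. -/
def kr {A ι ι' κ κ' : Type} [Mul A] (f : Matrix ι ι' A) (g : Matrix κ κ' A) :
    Matrix (ι × κ) (ι' × κ') A := fun x y => f x.1 y.1 * g x.2 y.2

end Weight

/-! ## Power series -/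

open PowerSeries

/-- `E t = exp (t X)`. -/
noncomputable def E (t : ℚ) : ℚ⟦X⟧ := PowerSeries.mk fun n => t ^ n / (n.factorial : ℚ)

/-- The fraction field of the ring of power series. -/
abbrev KQ : Type := FractionRing ℚ⟦X⟧

/-- The image of a power series in the fraction field. -/
noncomputable abbrev toK : ℚ⟦X⟧ →+* KQ := algebraMap ℚ⟦X⟧ KQ

/-- The parameter `s = exp (X / 2)`, so that `q = s ^ 2 = exp X`. -/
noncomputable def sQ : KQ := toK (E (1 / 2))

/-- The number of weights `m` of the simple module of dimension `N` with `p m = k`, minus the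
number of those with `p m = k + 2`. -/
def cc (N p : ℕ) (k : ℤ) : ℤ :=
  ((Finset.univ.filter fun i : Fin N => (p : ℤ) * ((N : ℤ) - 1 - 2 * (i : ℕ)) = k).card : ℤ) -
  ((Finset.univ.filter fun i : Fin N => (p : ℤ) * ((N : ℤ) - 1 - 2 * (i : ℕ)) = k + 2).card : ℤ)

/-! ### Series in two variables: `ℚ⟦z⟧⟦h⟧` -/

/-- Formal power series in `h` whose coefficients are power series in `z`. -/
abbrev B : Type := PowerSeries ℚ⟦X⟧

/-- The substitution `z = x X`, `h = X`. -/
noncomputable def evB (x : ℚ) (F : B) : ℚ⟦X⟧ :=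
  PowerSeries.mk fun m => ∑ k ∈ Finset.range (m + 1), coeff (m - k) (coeff k F) * x ^ (m - k)

/-- The derivative `d/dz` on `ℚ⟦z⟧`. -/
noncomputable def dz : ℚ⟦X⟧ →ₗ[ℚ] ℚ⟦X⟧ where
  toFun f := PowerSeries.mk fun n => coeff (n + 1) f * (n + 1)
  map_add' f g := by ext n; simp [add_mul]
  map_smul' a f := by ext n; simp [mul_assoc]

/-- The dilation `f(z) ↦ f(x z)` on `ℚ⟦z⟧`. -/
noncomputable def dl (x : ℚ) : ℚ⟦X⟧ →ₗ[ℚ] ℚ⟦X⟧ where
  toFun f := PowerSeries.mk fun n => coeff n f * x ^ n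
  map_add' f g := by ext n; simp [add_mul]
  map_smul' a f := by ext n; simp [mul_assoc]

/-- The multiplication by `g` on `ℚ⟦z⟧`. -/
noncomputable def ml (g : ℚ⟦X⟧) : ℚ⟦X⟧ →ₗ[ℚ] ℚ⟦X⟧ := LinearMap.mulLeft ℚ g

/-- A linear map on `ℚ⟦z⟧` applied to all coefficients. -/
noncomputable def cw (L : ℚ⟦X⟧ →ₗ[ℚ] ℚ⟦X⟧) (F : B) : B := PowerSeries.mk fun k => L (coeff k F)

/-- The operator `exp (h L)`. -/
noncomputable def xp (L : ℚ⟦X⟧ →ₗ[ℚ] ℚ⟦X⟧) (F : B) : B :=
  PowerSeries.mk fun m => ∑ j ∈ Finset.range (m + 1),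
    ((j.factorial : ℚ)⁻¹) • (L ^ j) (coeff (m - j) F)

/-- The shift `F(z, h) ↦ F(z + t h, h)`. -/
noncomputable def sh (t : ℚ) (F : B) : B := xp (t • dz) F

/-- The series is odd in `z`. -/
def OddB (F : B) : Prop := ∀ k m : ℕ, Even m → coeff m (coeff k F) = 0

/-- The functional equation that relates the series of a knot to the series of its cable. -/
def FunEq (p : ℕ) (q : ℤ) (F F' : B) : Prop :=
  cw (ml (E (p * q))) (sh 1 F') - cw (ml (E (-(p * q)))) (sh (-1) F') =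
    cw (ml (E q)) (cw (dl p) (sh 1 F)) - cw (ml (E (-q))) (cw (dl p) (sh (-1) F))

/-- The relation between the first two terms of the series of a knot and of its cable. -/
structure Lead1 (p : ℕ) (q : ℤ) (f0 f1 g0 g1 : ℚ⟦X⟧) : Prop where
  zero : (E (p * q) - E (-(p * q))) * g0 = (E q - E (-q)) * dl p f0
  one : (E (p * q) - E (-(p * q))) * g1 + (E (p * q) + E (-(p * q))) * dz g0 =
    (E q - E (-q)) * dl p f1 + (E q + E (-q)) * dl p (dz f0)

/-- The first two terms of the series of an iterated torus knot. -/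
inductive Lead : List (ℕ × ℤ) → ℚ⟦X⟧ → ℚ⟦X⟧ → Prop
  | nil : Lead [] ((1 / 2 : ℚ) • (E 1 - E (-1))) 0
  | cons {p : ℕ} {q : ℤ} {D : List (ℕ × ℤ)} {f0 f1 g0 g1 : ℚ⟦X⟧} : 2 ≤ p → q ≠ 0 →
      Lead D f0 f1 → Lead1 p q f0 f1 g0 g1 → Lead ((p, q) :: D) g0 g1

/-- The cabling recursion for the values of the coloured Jones polynomials of `K` and of its
`(p, q)`-cable. -/
def Recur (p : ℕ) (q : ℤ) (JK JC : ℕ → ℚ⟦X⟧) : Prop :=
  ∀ N : ℕ, 1 ≤ N →
    E (p * q * N) * JC (N + 1) - E (-(p * q * N)) * JC (N - 1) =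
      E (q * N) * JK (p * N + 1) - E (-(q * N)) * JK (p * N - 1)

/-- `ex p f` is `f (X ^ p)`. -/
noncomputable def ex (p : ℕ) (f : ℚ⟦X⟧) : ℚ⟦X⟧ :=
  PowerSeries.mk fun n => if p ∣ n then coeff (n / p) f else 0

/-- The expansion `-1 - 2 ∑_{k ≥ 1} X ^ (b k)` of `coth (b z)` in `X = exp (2 z)`. -/
noncomputable def Cs (b : ℕ) : ℚ⟦X⟧ :=
  PowerSeries.mk fun n => if n = 0 then -1 else if b ∣ n then -2 else 0

/-- The expansion in `X = exp (2 z)` of the logarithmic derivative of the leading term. -/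
noncomputable def uS : List (ℕ × ℤ) → ℚ⟦X⟧
  | [] => Cs 1
  | x :: D => (x.2.natAbs : ℚ⟦X⟧) * Cs x.2.natAbs
      - ((x.1 * x.2.natAbs : ℕ) : ℚ⟦X⟧) * Cs (x.1 * x.2.natAbs)
      + (x.1 : ℚ⟦X⟧) * ex x.1 (uS D)

/-- The expansion in `X = exp (2 z)` of the second term divided by the leading term. -/
noncomputable def rS : List (ℕ × ℤ) → ℚ⟦X⟧
  | [] => 0
  | x :: D => ex x.1 (rS D) + ((x.2.sign : ℤ) : ℚ⟦X⟧) * Cs x.2.natAbs * ex x.1 (uS D)
      - ((x.2.sign : ℤ) : ℚ⟦X⟧) * Cs (x.1 * x.2.natAbs) * uS (x :: D)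

end Pool.Agent.IT
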