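import Pool.Agent.IT.TopStmts

/-!
The half twist: conjugation by it reverses the order of the letters.
-/

namespace Pool.Agent.IT

open Pool.Agent.LibH11

namespace DEL

theorem Aw_succ (s m : ℕ) : Aw s (m + 1) = Aw s m ++ [(s + m, true)] := by
  unfold Aw
  rw [List.range_succ, List.map_append]
  rfl

theorem Aw_succ' (s m : ℕ) : Aw s (m + 1) = (s, true) :: Aw (s + 1) m := by
  unfold Aw
  rw [List.range_succ_eq_map, List.map_cons, List.map_map]
  congr 1
  apply List.map_congr_left
  intro a _
  simp only [Function.comp]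
  congr 1
  omega

/-- the half twist on the letters `0, …, m-1` -/
def dl : ℕ → Word
  | 0 => []
  | m + 1 => Aw 0 (m + 1) ++ dl m

theorem bd_Aw (s m : ℕ) : Bd (s + m) (Aw s m) := by
  intro x hx
  unfold Aw at hx
  obtain ⟨i, hi, rfl⟩ := List.mem_map.mp hx
  have := List.mem_range.mp hi
  simp only
  omega

theorem bd_dl (m : ℕ) : Bd m (dl m) := by
  induction m with
  | zero => exact bd_nil 0
  | succ m ih =>
    have h := bd_Aw 0 (m + 1)
    rw [Nat.zero_add] at h
    exact h.append (ih.mono (Nat.le_succ m))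

/-- `A(0,m+1) A(0,k) = A(1,k) A(0,m+1)` for `k ≤ m`. -/
theorem shift (hr : ROW_Stmt) {N m : ℕ} (h : m + 1 ≤ N) (k : ℕ) (hk : k ≤ m) :
    ev N (Aw 0 (m + 1)) * ev N (Aw 0 k) = ev N (Aw 1 k) * ev N (Aw 0 (m + 1)) := by
  have h2 := (hr N 0 (m + 1) (by omega)).2
  induction k with
  | zero => simp [Aw]
  | succ k ih =>
    rw [Aw_succ 0 k, Aw_succ 1 k, ev_append, ev_append, ev_single, ev_single, ← mul_assoc,
      ih (by omega), mul_assoc, Nat.zero_add, h2 k (by omega) (by omega), mul_assoc,
      Nat.add_comm 1 k]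

theorem square (hr : ROW_Stmt) {N m : ℕ} (h : m + 1 ≤ N) :
    gen N (0, true) * (ev N (Aw 0 (m + 1)) * ev N (Aw 0 m)) =
      ev N (Aw 0 (m + 1)) * ev N (Aw 0 (m + 1)) := by
  rw [shift hr h m le_rfl, ← mul_assoc, ← ev_cons, ← Aw_succ' 0 m]

theorem main (hr : ROW_Stmt) (N : ℕ) : ∀ m : ℕ, m ≤ N → ∀ i < m,
    ev N (dl m) * gen N (i, true) = gen N (m - 1 - i, true) * ev N (dl m) := by
  intro m
  induction m with
  | zero => intro _ i hi; omega
  | succ m ih =>
    intro hm i hi
    have hd : dl (m + 1) = Aw 0 (m + 1) ++ dl m := rfl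
    rcases Nat.lt_or_ge i m with h | h
    · rw [hd, ev_append, mul_assoc, ih (by omega) i h, ← mul_assoc,
        (hr N 0 (m + 1) (by omega)).2 (m - 1 - i) (by omega) (by omega), mul_assoc,
        show m - 1 - i + 1 = m + 1 - 1 - i by omega]
    · obtain rfl : i = m := by omega
      rw [show i + 1 - 1 - i = 0 by omega]
      cases i with
      | zero =>
        rw [hd]
        simp [Aw, dl]
      | succ k =>
        have hd2 : dl (k + 1) = Aw 0 (k + 1) ++ dl k := rfl
        have hc : Commute (ev N (dl k)) (gen N (k + 1, true)) := by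
          rw [← ev_single]
          apply ev_far
          intro x hx y hy
          rw [List.mem_singleton] at hy
          subst hy
          have := bd_dl k x hx
          simp only
          omega
        have e1 : ev N (Aw 0 (k + 1)) * gen N (k + 1, true) = ev N (Aw 0 (k + 1 + 1)) := by
          rw [Aw_succ 0 (k + 1), ev_append, ev_single, Nat.zero_add]
        calc ev N (dl (k + 1 + 1)) * gen N (k + 1, true)
            = ev N (Aw 0 (k + 1 + 1)) * (ev N (Aw 0 (k + 1)) *
                (ev N (dl k) * gen N (k + 1, true))) := by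
              rw [hd, hd2, ev_append, ev_append]
              simp only [mul_assoc]
          _ = ev N (Aw 0 (k + 1 + 1)) * (ev N (Aw 0 (k + 1)) *
                (gen N (k + 1, true) * ev N (dl k))) := by rw [hc.eq]
          _ = ev N (Aw 0 (k + 1 + 1)) * ev N (Aw 0 (k + 1 + 1)) * ev N (dl k) := by
              rw [← mul_assoc (ev N (Aw 0 (k + 1))), e1, mul_assoc]
          _ = gen N (0, true) * ev N (dl (k + 1 + 1)) := by
              rw [← square hr (by omega : k + 1 + 1 ≤ N), hd, hd2, ev_append, ev_append]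
              simp only [mul_assoc]

end DEL

/-- The half twist. -/
theorem del (hr : ROW_Stmt) : DEL_Stmt := by
  intro N
  exact ⟨ev N (DEL.dl N), fun i hi => DEL.main hr N N le_rfl i hi⟩

end Pool.Agent.IT
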