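import Pool.Agent.IT.TopStmts

/-!
FUL: the full twist.
-/

namespace Pool.Agent.IT

open Pool.Agent.LibH11

namespace FUL

theorem Aw_succ (s m : ℕ) : Aw s (m + 1) = Aw s m ++ [(s + m, true)] := by
  unfold Aw
  rw [List.range_succ, List.map_append]
  rfl

theorem Aw_succ' (s m : ℕ) : Aw s (m + 1) = (s, true) :: Aw (s + 1) m := by
  unfold Aw
  rw [List.range_succ_eq_map, List.map_cons, List.map_map]
  congr 1
  apply List.map_congr_left
  intro a _
  simp only [Function.comp]
  congr 1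
  omega

theorem Dw_succ (s m : ℕ) : Dw s (m + 1) = (s + m, true) :: Dw s m := by
  unfold Dw
  rw [List.range_succ_eq_map, List.map_cons, List.map_map]
  congr 1
  apply List.map_congr_left
  intro i _
  show (s + (m + 1) - 1 - (i + 1), true) = _
  congr 1
  omega

theorem mem_Dw {s m : ℕ} {x : ℕ × Bool} (h : x ∈ Dw s m) : s ≤ x.1 ∧ x.1 < s + m ∧ x.2 = true := by
  unfold Dw at h
  obtain ⟨i, hi, rfl⟩ := List.mem_map.mp h
  rw [List.mem_range] at hi
  refine ⟨?_, ?_, rfl⟩
  · simp only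
    omega
  · simp only
    omega

theorem mem_Aw {s m : ℕ} {x : ℕ × Bool} (h : x ∈ Aw s m) : s ≤ x.1 ∧ x.1 < s + m := by
  unfold Aw at h
  obtain ⟨i, hi, rfl⟩ := List.mem_map.mp h
  rw [List.mem_range] at hi
  simp only
  omega

/-- `A(s,m) A(s,k) = A(s+1,k) A(s,m)` for `k < m`. -/
theorem shift (hr : ROW_Stmt) {N s m : ℕ} (h : s + m ≤ N) (k : ℕ) (hk : k < m) :
    ev N (Aw s m) * ev N (Aw s k) = ev N (Aw (s + 1) k) * ev N (Aw s m) := by
  have h2 := (hr N s m h).2
  induction k with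
  | zero => simp [Aw]
  | succ k ih =>
    rw [Aw_succ s k, Aw_succ (s + 1) k, ev_append, ev_append, ev_single, ev_single, ← mul_assoc,
      ih (by omega), mul_assoc, h2 (s + k) (by omega) (by omega), mul_assoc,
      show s + k + 1 = s + 1 + k by omega]

/-- `A(s,m)^2 σ_(s+m-1) = σ_s A(s,m)^2`. -/
theorem top (hr : ROW_Stmt) {N s m : ℕ} (h : s + (m + 1) ≤ N) :
    ev N (Aw s (m + 1)) ^ 2 * gen N (s + m, true) = gen N (s, true) * ev N (Aw s (m + 1)) ^ 2 := by
  have h1 := shift hr h m (Nat.lt_succ_self m)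
  have h2 : gen N (s, true) * (ev N (Aw s (m + 1)) * ev N (Aw s m)) =
      ev N (Aw s (m + 1)) * ev N (Aw s (m + 1)) := by
    rw [h1, ← mul_assoc, ← ev_cons, ← Aw_succ']
  have h3 : ev N (Aw s (m + 1)) = ev N (Aw s m) * gen N (s + m, true) := by
    rw [Aw_succ, ev_append, ev_single]
  have h4 : ev N (Aw s (m + 1)) ^ 2 = gen N (s, true) * (ev N (Aw s (m + 1)) * ev N (Aw s m)) := by
    rw [pow_two, h2]
  have h5 : ev N (Aw s (m + 1)) ^ 2 = ev N (Aw s (m + 1)) * (ev N (Aw s m) * gen N (s + m, true)) := by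
    rw [pow_two, ← h3]
  calc ev N (Aw s (m + 1)) ^ 2 * gen N (s + m, true)
      = gen N (s, true) * (ev N (Aw s (m + 1)) * (ev N (Aw s m) * gen N (s + m, true))) := by
        rw [h4]
        simp only [mul_assoc]
    _ = gen N (s, true) * ev N (Aw s (m + 1)) ^ 2 := by rw [← h5]

/-- `A^k σ_j = σ_(j+k) A^k`. -/
theorem up (hr : ROW_Stmt) {N s m : ℕ} (h : s + m ≤ N) (k : ℕ) :
    ∀ j, s ≤ j → j + k < s + m →
      ev N (Aw s m) ^ k * gen N (j, true) = gen N (j + k, true) * ev N (Aw s m) ^ k := by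
  induction k with
  | zero => intro j _ _; simp
  | succ k ih =>
    intro j hj hk
    rw [pow_succ, mul_assoc, (hr N s m h).2 j hj (by omega), ← mul_assoc,
      ih (j + 1) (by omega) (by omega), mul_assoc, show j + 1 + k = j + (k + 1) by omega]

theorem central (hr : ROW_Stmt) {N s m : ℕ} (h : s + m ≤ N) (j : ℕ) (hj : s ≤ j)
    (hj2 : j < s + m) : Commute (ev N (Aw s m) ^ (m + 1)) (gen N (j, true)) := by
  obtain ⟨m, rfl⟩ : ∃ m', m = m' + 1 := ⟨m - 1, by omega⟩
  unfold Commute SemiconjBy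
  have e1 := up hr h (s + m - j) j hj (by omega)
  have e2 := top hr h
  have e3 := up hr h (j - s) s le_rfl (by omega)
  rw [show j + (s + m - j) = s + m by omega] at e1
  rw [show s + (j - s) = j by omega] at e3
  rw [show m + 1 + 1 = (j - s) + (2 + (s + m - j)) by omega, pow_add, pow_add, mul_assoc, mul_assoc,
    e1, ← mul_assoc (ev N (Aw s (m + 1)) ^ 2), e2, mul_assoc, ← mul_assoc, e3, mul_assoc]

theorem comm_ev {N : ℕ} {z : Br N} {w : Word} (h : ∀ x ∈ w, Commute z (gen N x)) :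
    Commute z (ev N w) := by
  induction w with
  | nil => exact Commute.one_right _
  | cons x w ih =>
    rw [ev_cons]
    exact Commute.mul_right (h x List.mem_cons_self)
      (ih fun y hy => h y (List.mem_cons_of_mem _ hy))

theorem coxeter (hr : ROW_Stmt) {N s m : ℕ} (h : s + m ≤ N) (k : ℕ) (hk : k + 1 ≤ m) :
    (ev N (Dw s (k + 1)) * ev N (Aw (s + (k + 1)) (m - (k + 1)))) ^ (m + 1) =
      ev N (Aw s m) ^ (m + 1) := by
  induction k with
  | zero =>
    congr 1
    have h1 : Dw s (0 + 1) = [(s, true)] := by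
      unfold Dw
      simp
    obtain ⟨m, rfl⟩ : ∃ m', m = m' + 1 := ⟨m - 1, by omega⟩
    rw [h1, ev_single, Aw_succ', ev_cons]
    simp
  | succ k ih =>
    have ih' := ih (by omega)
    set X := ev N (Dw s (k + 1)) with hX
    have hc : Commute X (ev N (Aw (s + (k + 1 + 1)) (m - (k + 1 + 1)))) := by
      apply ev_far
      intro x hx y hy
      have := mem_Dw hx
      have := mem_Aw hy
      left
      omega
    have h2 : ev N (Dw s (k + 1 + 1)) = gen N (s + (k + 1), true) * X := by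
      rw [Dw_succ, ev_cons]
    have h3 : ev N (Aw (s + (k + 1)) (m - (k + 1))) =
        gen N (s + (k + 1), true) * ev N (Aw (s + (k + 1 + 1)) (m - (k + 1 + 1))) := by
      rw [show m - (k + 1) = m - (k + 1 + 1) + 1 by omega, Aw_succ', ev_cons]
      congr 1
    have h4 : ev N (Dw s (k + 1 + 1)) * ev N (Aw (s + (k + 1 + 1)) (m - (k + 1 + 1))) =
        X⁻¹ * (X * ev N (Aw (s + (k + 1)) (m - (k + 1)))) * X := by
      rw [h2, h3, mul_assoc, hc.eq]
      group
    rw [h4]
    have h5 : X⁻¹ * (X * ev N (Aw (s + (k + 1)) (m - (k + 1)))) * X =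
        X⁻¹ * (X * ev N (Aw (s + (k + 1)) (m - (k + 1)))) * X⁻¹⁻¹ := by rw [inv_inv]
    rw [h5, _root_.conj_pow, ih', inv_inv]
    have hz : Commute (ev N (Aw s m) ^ (m + 1)) X := by
      rw [hX]
      apply comm_ev
      rintro ⟨i, e⟩ hx
      have := mem_Dw hx
      simp only at this
      obtain ⟨h6, h7, rfl⟩ := this
      exact central hr h i h6 (by omega)
    rw [mul_assoc, hz.eq]
    group

end FUL

theorem ful (hr : ROW_Stmt) : FUL_Stmt := by
  intro N s m h
  refine ⟨?_, fun j hj hj2 => FUL.central hr h j hj hj2⟩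
  rcases Nat.eq_zero_or_pos m with h0 | h0
  · subst h0
    simp [Dw, Aw]
  · obtain ⟨m, rfl⟩ : ∃ m', m = m' + 1 := ⟨m - 1, by omega⟩
    have h1 := FUL.coxeter hr h m le_rfl
    rw [Nat.sub_self] at h1
    rw [← h1]
    simp [Aw]

end Pool.Agent.IT
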