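import Pool.Agent.IT.TopStmts

/-!
Iterated torus knots: the block crossing read by rows and by columns.
-/

namespace Pool.Agent.IT

open Pool.Agent.LibH11

namespace GRID

theorem Aw_zero (s : ℕ) : Aw s 0 = [] := rfl

theorem Dw_zero (s : ℕ) : Dw s 0 = [] := rfl

theorem Aw_succ (s m : ℕ) : Aw s (m + 1) = Aw s m ++ [(s + m, true)] := by
  unfold Aw
  rw [List.range_succ, List.map_append]
  rfl

theorem Dw_succ (s m : ℕ) : Dw s (m + 1) = (s + m, true) :: Dw s m := by
  unfold Dw
  rw [List.range_succ_eq_map, List.map_cons, List.map_map]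
  congr 1
  apply List.map_congr_left
  intro i _
  simp only [Function.comp, Prod.mk.injEq, and_true]
  omega

theorem Dw_reverse (s m : ℕ) : (Dw s m).reverse = Aw s m := by
  induction m with
  | zero => rfl
  | succ m ih => rw [Dw_succ, Aw_succ, List.reverse_cons, ih]

theorem Cw_zero_left (s b : ℕ) : Cw s 0 b = [] := rfl

theorem Cw_succ (s a b : ℕ) : Cw s (a + 1) b = Cw s a b ++ Dw (s + a) b := by
  unfold Cw
  rw [List.range_succ, List.flatMap_append]
  simp

theorem Cw_zero_right (s a : ℕ) : Cw s a 0 = [] := by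
  induction a with
  | zero => rfl
  | succ a ih => rw [Cw_succ, ih, Dw_zero]; rfl

theorem mem_Dw {s m : ℕ} {x : ℕ × Bool} (h : x ∈ Dw s m) : s ≤ x.1 ∧ x.1 < s + m := by
  unfold Dw at h
  obtain ⟨i, hi, rfl⟩ := List.mem_map.mp h
  rw [List.mem_range] at hi
  constructor <;> simp only <;> omega

theorem mem_Cw {s a b : ℕ} {x : ℕ × Bool} (h : x ∈ Cw s a b) :
    s ≤ x.1 ∧ x.1 + 2 ≤ s + a + b := by
  unfold Cw at h
  obtain ⟨r, hr, hx⟩ := List.mem_flatMap.mp h
  rw [List.mem_range] at hr
  have := mem_Dw hx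
  omega

theorem col (N s a b : ℕ) :
    ev N (Cw s a (b + 1)) = ev N (Aw (s + b) a) * ev N (Cw s a b) := by
  induction a with
  | zero => rw [Cw_zero_left, Cw_zero_left, Aw_zero, ev_nil, one_mul]
  | succ a ih =>
    have hc : Commute (ev N (Cw s a b)) (ev N [(s + b + a, true)]) := by
      apply ev_far
      intro x hx y hy
      rw [List.mem_singleton] at hy
      subst hy
      have := (mem_Cw hx).2
      left
      simp only
      omega
    rw [ev_single] at hc
    rw [Cw_succ, ev_append, ih, Dw_succ, ev_cons, Cw_succ s a b, ev_append, Aw_succ, ev_append,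
      ev_single]
    have h1 : s + a + b = s + b + a := by omega
    rw [h1]
    simp only [mul_assoc]
    rw [← mul_assoc (ev N (Cw s a b)) (gen N (s + b + a, true)), hc.eq, mul_assoc]

theorem rev (N s a b : ℕ) : ev N (Cw s a b).reverse = ev N (Cw s b a) := by
  induction a with
  | zero => rw [Cw_zero_left, Cw_zero_right]; rfl
  | succ a ih => rw [Cw_succ, List.reverse_append, Dw_reverse, ev_append, ih, col]

end GRID

theorem grid (hm : MIR_Stmt) : GRID_Stmt := by
  intro N s a b
  refine ⟨GRID.col N s a b, GRID.rev N s a b, ?_⟩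
  have h1 : iw (Cw s a a) = mir (Cw s a a).reverse := by
    unfold iw mir
    rw [List.map_reverse]
  rw [← ev_iw, h1]
  exact hm.1 N _ _ (GRID.rev N s a a).symm

end Pool.Agent.IT
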