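import Pool.Agent.IT.TopStmts

/-!
Iterated torus knots: mirror images (module MIR).
-/

namespace Pool.Agent.IT

open Pool.Agent.LibH11

namespace MIR

/-- the automorphism of the braid group that sends every standard generator to its inverse -/
def mr (N : ℕ) : Br N →* Br N :=
  liftBr (fun i => (sg i)⁻¹)
    (by
      intro i j hij
      rw [← mul_inv_rev, ← mul_inv_rev, sg_comm i j hij])
    (by
      intro i j hij
      have h := congrArg (fun x : Br N => x⁻¹) (sg_braid i j hij)
      simpa only [mul_inv_rev, mul_assoc] using h)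

theorem mr_sg {N : ℕ} (i : Fin N) : mr N (sg i) = (sg i)⁻¹ := by
  unfold mr
  rw [liftBr_sg]

theorem mr_gen (N : ℕ) (x : ℕ × Bool) : mr N (gen N x) = gen N (x.1, !x.2) := by
  rcases x with ⟨i, e⟩
  have h1 : mr N (gen N (i, true)) = (gen N (i, true))⁻¹ := by
    by_cases h : i < N
    · rw [gen_true h, mr_sg]
    · rw [gen_of_ge (by omega : N ≤ i), map_one, inv_one]
  cases e
  · rw [gen_false, map_inv, h1, inv_inv]
    rfl
  · rw [h1, ← gen_false]
    rfl

theorem mr_ev (N : ℕ) (w : Word) : mr N (ev N w) = ev N (mir w) := by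
  induction w with
  | nil => simp [mir]
  | cons x w ih =>
    rw [ev_cons, map_mul, ih, mr_gen]
    have : mir (x :: w) = (x.1, !x.2) :: mir w := rfl
    rw [this, ev_cons]

theorem mr_incl {N : ℕ} (b : Br N) : mr (N + 1) (incl b) = incl (mr N b) := by
  induction b using br_ind with
  | h1 => simp
  | hs i => rw [incl_sg, mr_sg, mr_sg, map_inv, incl_sg]
  | hm x y hx hy => simp only [map_mul, hx, hy]
  | hi x hx => simp only [map_inv, hx]

/-- the mirror image of a braid with its number of strands -/
def ms (x : Σ n : ℕ, Br n) : Σ n : ℕ, Br n := ⟨x.1, mr x.1 x.2⟩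

theorem move {x y : Σ n : ℕ, Br n} (h : MarkovMove x y) :
    Relation.EqvGen MarkovMove (ms x) (ms y) := by
  refine Relation.EqvGen.rel _ _ ?_
  cases h with
  | conj n a b =>
    have h := MarkovMove.conj n (mr n a) (mr n b)
    unfold ms
    simp only [map_mul, map_inv]
    exact h
  | stabPos n b =>
    have h := MarkovMove.stabNeg n (mr n b)
    unfold ms
    simp only [map_mul, mr_incl, mr_sg]
    exact h
  | stabNeg n b =>
    have h := MarkovMove.stabPos n (mr n b)
    unfold ms
    simp only [map_mul, map_inv, mr_incl, mr_sg, inv_inv]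
    exact h

theorem eqv {x y : Σ n : ℕ, Br n} (h : Relation.EqvGen MarkovMove x y) :
    Relation.EqvGen MarkovMove (ms x) (ms y) := by
  induction h with
  | rel x y h => exact move h
  | refl x => exact Relation.EqvGen.refl _
  | symm x y _ ih => exact Relation.EqvGen.symm _ _ ih
  | trans x y z _ _ ih1 ih2 => exact Relation.EqvGen.trans _ _ _ ih1 ih2

end MIR

theorem mir_thm : MIR_Stmt := by
  constructor
  · intro N u w h
    rw [← MIR.mr_ev, ← MIR.mr_ev, h]
  · intro N u M w h
    have h2 := MIR.eqv h
    unfold MIR.ms at h2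
    simp only [MIR.mr_ev] at h2
    exact h2

end Pool.Agent.IT
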