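import Pool.Agent.IT.TopStmts

/-!
Iterated torus knots, module NATC: the block crossing shifts the letters of the two groups of
strands.
-/

namespace Pool.Agent.IT

open Pool.Agent.LibH11

namespace NATC

theorem cw_succ (s a b : ℕ) : Cw s (a + 1) b = Cw s a b ++ Dw (s + a) b := by
  unfold Cw
  rw [List.range_succ, List.flatMap_append]
  simp

theorem cw_zero_right (s a : ℕ) : Cw s a 0 = [] := by
  unfold Cw
  simp [Dw]

end NATC

theorem natc (hr : ROW_Stmt) (hg : GRID_Stmt) : NATC_Stmt := by
  intro N s a b hN
  constructor
  · revert hN
    induction a with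
    | zero =>
      intro _ j _ _
      have h0 : Cw s 0 b = [] := rfl
      rw [h0, ev_nil, one_mul, mul_one, Nat.sub_zero]
    | succ a ih =>
      intro hN j h1 h2
      have hrow := (hr N (s + a) b (by omega)).1 j (by omega) (by omega)
      have hih := ih (by omega) (j - 1) (by omega) (by omega)
      have e : j - 1 - a = j - (a + 1) := by omega
      rw [e] at hih
      rw [NATC.cw_succ, ev_append, mul_assoc, hrow, ← mul_assoc, hih, mul_assoc]
  · revert hN
    induction b with
    | zero =>
      intro _ j _ _
      rw [NATC.cw_zero_right, ev_nil, one_mul, mul_one, Nat.add_zero]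
    | succ b ih =>
      intro hN j h1 h2
      have hrow := (hr N (s + b) a (by omega)).2 (j + b) (by omega) (by omega)
      have hih := ih (by omega) j h1 h2
      rw [(hg N s a b).1, mul_assoc, hih, ← mul_assoc, hrow, mul_assoc]
      rfl

end Pool.Agent.IT
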