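import Pool.Agent.IT.TopStmts

/-!
PARH: the parallel is a homomorphism of braid groups; the exponent sum is well defined.
-/

namespace Pool.Agent.IT

open Pool.Agent.LibH11

namespace PARH

theorem mem_Dw {s m : ℕ} {x : ℕ × Bool} (h : x ∈ Dw s m) :
    x.2 = true ∧ s ≤ x.1 ∧ x.1 + 1 ≤ s + m := by
  unfold Dw at h
  obtain ⟨i, hi, rfl⟩ := List.mem_map.mp h
  have hi' := List.mem_range.mp hi
  refine ⟨rfl, ?_, ?_⟩ <;> simp only <;> omega

theorem mem_Cw {s a b : ℕ} {x : ℕ × Bool} (h : x ∈ Cw s a b) :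
    x.2 = true ∧ s ≤ x.1 ∧ x.1 + 2 ≤ s + a + b := by
  unfold Cw at h
  obtain ⟨r, hr, hx⟩ := List.mem_flatMap.mp h
  have hr' := List.mem_range.mp hr
  obtain ⟨h1, h2, h3⟩ := mem_Dw hx
  refine ⟨h1, ?_, ?_⟩ <;> omega

theorem Cw_add (s a a' b : ℕ) : Cw s (a + a') b = Cw s a b ++ Cw (s + a) a' b := by
  unfold Cw
  rw [List.range_add, List.flatMap_append]
  congr 1
  rw [List.flatMap_map]
  apply List.flatMap_congr
  intro r _
  rw [Nat.add_assoc]

theorem shw_append (k : ℕ) (u v : Word) : shw k (u ++ v) = shw k u ++ shw k v := by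
  unfold shw
  simp

theorem shw_Dw (k s m : ℕ) : shw k (Dw s m) = Dw (s + k) m := by
  unfold shw Dw
  rw [List.map_map]
  apply List.map_congr_left
  intro i hi
  have := List.mem_range.mp hi
  simp only [Function.comp, Prod.mk.injEq, and_true]
  omega

theorem Cw_succ (s a b : ℕ) : Cw s (a + 1) b = Cw s a b ++ Dw (s + a) b := by
  rw [Cw_add]
  congr 1
  unfold Cw
  simp

theorem shw_Cw (k s a b : ℕ) : shw k (Cw s a b) = Cw (s + k) a b := by
  induction a with
  | zero => rfl
  | succ a ih =>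
    rw [Cw_succ, Cw_succ, shw_append, ih, shw_Dw]
    congr 2
    omega

/-- sliding a word of positive letters -/
theorem slide (N p : ℕ) (X : Br N) (w : Word)
    (h : ∀ x ∈ w, x.2 = true ∧ X * gen N (x.1, true) = gen N (x.1 + p, true) * X) :
    X * ev N w = ev N (shw p w) * X := by
  induction w with
  | nil => simp [shw]
  | cons x w ih =>
    have h1 : shw p (x :: w) = (x.1 + p, x.2) :: shw p w := rfl
    rw [h1, ev_cons, ev_cons]
    obtain ⟨h2, h3⟩ := h x List.mem_cons_self
    have h4 := ih fun y hy => h y (List.mem_cons_of_mem _ hy)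
    rcases x with ⟨i, e⟩
    simp only at h2
    subst h2
    simp only at h3
    rw [← mul_assoc, h3, mul_assoc, h4, ← mul_assoc]

theorem blk_true (p i : ℕ) : blk p (i, true) = Cw (p * i) p p := by
  unfold blk Cw Dw
  apply List.flatMap_congr
  intro a ha
  apply List.map_congr_left
  intro b hb
  have h1 := List.mem_range.mp ha
  have h2 := List.mem_range.mp hb
  simp only [Prod.mk.injEq, and_true]
  omega

theorem blk_false (p i : ℕ) : blk p (i, false) = iw (blk p (i, true)) := rfl

theorem pn_bound {p n i : ℕ} (hp : 1 ≤ p) (hi : i < n) : p * i + 2 * p ≤ pn p n + 1 := by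
  unfold pn
  have h1 : p * (i + 2) ≤ p * (n + 1) := Nat.mul_le_mul_left p (by omega)
  have h2 : p * (i + 2) = p * i + 2 * p := by ring
  omega

theorem far_rel {p i j : ℕ} (N : ℕ) (hij : i + 2 ≤ j) :
    ev N (Cw (p * i) p p) * ev N (Cw (p * j) p p) =
      ev N (Cw (p * j) p p) * ev N (Cw (p * i) p p) := by
  refine (ev_far N _ _ ?_).eq
  intro x hx y hy
  obtain ⟨_, _, h1⟩ := mem_Cw hx
  obtain ⟨_, h2, _⟩ := mem_Cw hy
  left
  have h3 : p * (i + 2) ≤ p * j := Nat.mul_le_mul_left p hij
  have h4 : p * (i + 2) = p * i + 2 * p := by ring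
  omega

theorem braid_rel (hn : NATC_Stmt) {p i N : ℕ} (h : p * i + 3 * p ≤ N + 1) :
    ev N (Cw (p * i) p p) * ev N (Cw (p * i + p) p p) * ev N (Cw (p * i) p p) =
      ev N (Cw (p * i + p) p p) * ev N (Cw (p * i) p p) * ev N (Cw (p * i + p) p p) := by
  have h1 : ev N (Cw (p * i) (p + p) p) =
      ev N (Cw (p * i) p p) * ev N (Cw (p * i + p) p p) := by
    rw [Cw_add, ev_append]
  have h2 := (hn N (p * i) (p + p) p (by omega)).2
  have h3 : ev N (Cw (p * i) (p + p) p) * ev N (Cw (p * i) p p) =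
      ev N (shw p (Cw (p * i) p p)) * ev N (Cw (p * i) (p + p) p) := by
    apply slide
    intro x hx
    obtain ⟨h4, h5, h6⟩ := mem_Cw hx
    exact ⟨h4, h2 x.1 h5 (by omega)⟩
  rw [shw_Cw, h1] at h3
  rw [h3, mul_assoc]

/-- The homomorphism. -/
theorem exists_hom (hn : NATC_Stmt) (p n : ℕ) (hp : 1 ≤ p) :
    ∃ Φ : Br n →* Br (pn p n), ∀ w, Bd n w → ev (pn p n) (par p w) = Φ (ev n w) := by
  have hb : ∀ i j : Fin n, (i : ℕ) + 1 = (j : ℕ) →
      ev (pn p n) (Cw (p * i) p p) * ev (pn p n) (Cw (p * j) p p) *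
        ev (pn p n) (Cw (p * i) p p) =
      ev (pn p n) (Cw (p * j) p p) * ev (pn p n) (Cw (p * i) p p) *
        ev (pn p n) (Cw (p * j) p p) := by
    intro i j hij
    have h1 : p * (j : ℕ) = p * i + p := by rw [← hij]; ring
    rw [h1]
    apply braid_rel hn
    have := pn_bound hp j.2
    omega
  refine ⟨liftBr (fun i : Fin n => ev (pn p n) (Cw (p * i) p p))
    (fun i j hij => far_rel _ hij) hb, ?_⟩
  intro w hw
  induction w with
  | nil => simp [par]
  | cons x w ih =>
    have h1 : par p (x :: w) = blk p x ++ par p w := rfl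
    have hx : x.1 < n := hw x List.mem_cons_self
    rw [h1, ev_append, ev_cons, map_mul, ih fun y hy => hw y (List.mem_cons_of_mem _ hy)]
    congr 1
    rcases x with ⟨i, e⟩
    simp only at hx
    cases e
    · rw [blk_false, ev_iw, gen_false, map_inv, gen_true hx, liftBr_sg, blk_true]
    · rw [gen_true hx, liftBr_sg, blk_true]

theorem wr_well (n : ℕ) (u w : Word) (hu : Bd n u) (hw : Bd n w) (h : ev n u = ev n w) :
    wr u = wr w := by
  let E : Br n →* Multiplicative ℤ := liftBr (fun _ => Multiplicative.ofAdd 1)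
    (fun _ _ _ => rfl) (fun _ _ _ => rfl)
  have key : ∀ v : Word, Bd n v → E (ev n v) = Multiplicative.ofAdd (wr v) := by
    intro v
    induction v with
    | nil => intro _; simp [wr]
    | cons x v ih =>
      intro hv
      have hx : x.1 < n := hv x List.mem_cons_self
      rw [ev_cons, map_mul, ih fun y hy => hv y (List.mem_cons_of_mem _ hy)]
      have h1 : x :: v = [x] ++ v := rfl
      rw [h1, wr_append, ofAdd_add]
      congr 1
      rcases x with ⟨i, e⟩
      simp only at hx
      cases e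
      · rw [gen_false, gen_true hx, map_inv]
        simp only [E, liftBr_sg]
        simp [wr]
      · rw [gen_true hx]
        simp only [E, liftBr_sg]
        simp [wr]
  have h2 := key u hu
  rw [h, key w hw] at h2
  exact (Multiplicative.ofAdd.injective h2).symm

end PARH

theorem parh (hn : NATC_Stmt) : PARH_Stmt :=
  ⟨fun p n hp => PARH.exists_hom hn p n hp, fun n u w hu hw h => PARH.wr_well n u w hu hw h⟩

end Pool.Agent.IT
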