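import Pool.Agent.IT.Stmts

/-!
# A series in two variables is determined by its values
-/

namespace Pool.Agent.IT

open PowerSeries

namespace EVI

/-- A polynomial written with decreasing exponents that vanishes at all natural numbers has only
zero coefficients. -/
theorem coeff_zero (m : ℕ) (c : ℕ → ℚ)
    (h : ∀ N : ℕ, ∑ i ∈ Finset.range (m + 1), c i * (N : ℚ) ^ (m - i) = 0) :
    ∀ k ≤ m, c k = 0 := by
  intro k hk
  have hP : (∑ i ∈ Finset.range (m + 1), Polynomial.C (c i) * Polynomial.X ^ (m - i) :
      Polynomial ℚ) = 0 := by
    apply Polynomial.eq_zero_of_infinite_isRoot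
    refine Set.infinite_of_injective_forall_mem (f := fun N : ℕ => (N : ℚ)) Nat.cast_injective ?_
    intro N
    change Polynomial.eval (N : ℚ) _ = 0
    rw [Polynomial.eval_finsetSum, ← h N]
    refine Finset.sum_congr rfl fun i _ => ?_
    rw [Polynomial.eval_mul, Polynomial.eval_C, Polynomial.eval_pow, Polynomial.eval_X]
  have h1 := congrArg (fun Q : Polynomial ℚ => Q.coeff (m - k)) hP
  simp only [Polynomial.finsetSum_coeff, Polynomial.coeff_C_mul, Polynomial.coeff_X_pow,
    Polynomial.coeff_zero] at h1
  rw [Finset.sum_eq_single k] at h1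
  · simpa using h1
  · intro i hi hik
    have hi' : i ≤ m := by
      have := Finset.mem_range.mp hi
      omega
    rw [if_neg (by omega), mul_zero]
  · intro hk'
    exact absurd (Finset.mem_range.mpr (by omega)) hk'

end EVI

theorem evi : EVI_Stmt := by
  intro F F' h
  ext k j
  have h1 := EVI.coeff_zero (k + j)
    (fun i => coeff (k + j - i) (coeff i F) - coeff (k + j - i) (coeff i F')) (fun N => by
      have h2 := congrArg (coeff (k + j)) (h N)
      unfold evB at h2
      rw [coeff_mk, coeff_mk] at h2
      simp only [sub_mul]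
      rw [Finset.sum_sub_distrib, h2, sub_self]) k (by omega)
  have h3 : k + j - k = j := by omega
  simp only [h3] at h1
  exact sub_eq_zero.mp h1

end Pool.Agent.IT
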