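import Pool.Agent.IT.Stmts

/-!
# Iterated torus knots: the inverse braiding of a tensor product
-/

namespace Pool.Agent.IT

open scoped BigOperators

namespace HEXI

section

variable {K : Type} [Field K]

theorem sum4 {α β γ δ : Type} [Fintype α] [Fintype β] [Fintype γ] [Fintype δ]
    (T : α → β → γ → δ → K) :
    ∑ n, ∑ k, ∑ c, ∑ d, T n k c d = ∑ c, ∑ d, ∑ n, ∑ k, T n k c d := by
  calc ∑ n, ∑ k, ∑ c, ∑ d, T n k c d = ∑ n, ∑ c, ∑ k, ∑ d, T n k c d :=
        Finset.sum_congr rfl fun n _ => Finset.sum_comm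
    _ = ∑ c, ∑ n, ∑ k, ∑ d, T n k c d := Finset.sum_comm
    _ = ∑ c, ∑ n, ∑ d, ∑ k, T n k c d :=
        Finset.sum_congr rfl fun c _ => Finset.sum_congr rfl fun n _ => Finset.sum_comm
    _ = ∑ c, ∑ d, ∑ n, ∑ k, T n k c d := Finset.sum_congr rfl fun c _ => Finset.sum_comm

theorem key {A B C D : Type} [Fintype A] [Fintype B] [Fintype C] [Fintype D] [DecidableEq C]
    (p p' : A → C → K) (q : C → B → D → K) (q' : B → D → C → K) (δ : Prop) [Decidable δ]
    (hq : ∀ c c', ∑ b, ∑ d, q c b d * q' b d c' = if c = c' ∧ δ then 1 else 0) :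
    ∑ a, ∑ b, ∑ d, (∑ c, p a c * q c b d) * (∑ c, q' b d c * p' a c) =
      if δ then ∑ a, ∑ c, p a c * p' a c else 0 := by
  have h1 : ∀ a, ∑ b, ∑ d, (∑ c, p a c * q c b d) * (∑ c, q' b d c * p' a c) =
      ∑ c, ∑ c', p a c * p' a c' * ∑ b, ∑ d, q c b d * q' b d c' := by
    intro a
    have h2 : ∀ b d, (∑ c, p a c * q c b d) * (∑ c, q' b d c * p' a c) =
        ∑ c, ∑ c', p a c * p' a c' * (q c b d * q' b d c') := by
      intro b d
      rw [Finset.sum_mul_sum]
      refine Finset.sum_congr rfl fun c _ => Finset.sum_congr rfl fun c' _ => ?_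
      ring
    simp only [h2]
    rw [sum4 (fun b d c c' => p a c * p' a c' * (q c b d * q' b d c'))]
    simp only [Finset.mul_sum]
  simp only [h1, hq]
  by_cases hδ : δ
  · rw [if_pos hδ]
    refine Finset.sum_congr rfl fun a _ => Finset.sum_congr rfl fun c _ => ?_
    rw [Finset.sum_eq_single c]
    · rw [if_pos ⟨rfl, hδ⟩, mul_one]
    · intro c' _ hc
      rw [if_neg (fun h => hc h.1.symm), mul_zero]
    · intro h
      exact (h (Finset.mem_univ c)).elim
  · rw [if_neg hδ]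
    refine Finset.sum_eq_zero fun a _ => Finset.sum_eq_zero fun c _ =>
      Finset.sum_eq_zero fun c' _ => ?_
    rw [if_neg (fun h => hδ h.2), mul_zero]

theorem entry {α β γ : Type} [Fintype β] [Fintype γ] [DecidableEq α]
    {P : Matrix α (β × γ) K} {P' : Matrix (β × γ) α K} (h : P * P' = 1) (x y : α) :
    ∑ b, ∑ c, P x (b, c) * P' (b, c) y = if x = y then 1 else 0 := by
  have h1 := congrFun (congrFun h x) y
  rw [Matrix.mul_apply, Fintype.sum_prod_type, Matrix.one_apply] at h1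
  exact h1

variable {ι κ ν : Type} [Fintype ι] [DecidableEq ι] [Fintype κ] [DecidableEq κ] [Fintype ν]
  [DecidableEq ν]

theorem inv1 {P : Matrix (ν × ι) (ι × ν) K} {P' : Matrix (ι × ν) (ν × ι) K}
    {Q : Matrix (ν × κ) (κ × ν) K} {Q' : Matrix (κ × ν) (ν × κ) K}
    {X : Matrix (ν × (ι × κ)) ((ι × κ) × ν) K} {X' : Matrix ((ι × κ) × ν) (ν × (ι × κ)) K}
    (hP : P * P' = 1) (hQ : Q * Q' = 1) (hX : X' * X = 1)
    (h : ∀ (l k : ν) (a m : ι) (b n : κ), X (l, (a, b)) ((m, n), k) =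
      ∑ k' : ν, P (l, a) (m, k') * Q (k', b) (n, k)) (l k : ν) (a m : ι) (b n : κ) :
    X' ((m, n), k) (l, (a, b)) = ∑ k' : ν, Q' (n, k) (k', b) * P' (m, k') (l, a) := by
  set Y : Matrix ((ι × κ) × ν) (ν × (ι × κ)) K := fun x y =>
    ∑ k' : ν, Q' (x.1.2, x.2) (k', y.2.2) * P' (x.1.1, k') (y.1, y.2.1) with hY
  have h1 : X * Y = 1 := by
    ext ⟨l, a, b⟩ ⟨l', a', b'⟩
    rw [Matrix.mul_apply, Fintype.sum_prod_type, Fintype.sum_prod_type]
    simp only [h, hY]
    rw [key (fun m k' => P (l, a) (m, k')) (fun m k' => P' (m, k') (l', a'))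
      (fun k' n k => Q (k', b) (n, k)) (fun n k k' => Q' (n, k) (k', b')) (b = b')]
    · rw [entry hP, Matrix.one_apply]
      by_cases h2 : b = b'
      · by_cases h3 : (l, a) = (l', a')
        · rw [if_pos h2, if_pos h3, if_pos]
          rw [Prod.mk.injEq] at h3
          rw [h2, h3.1, h3.2]
        · rw [if_pos h2, if_neg h3, if_neg]
          intro h4
          simp only [Prod.mk.injEq] at h4
          exact h3 (by rw [h4.1, h4.2.1])
      · rw [if_neg h2, if_neg]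
        intro h4
        simp only [Prod.mk.injEq] at h4
        exact h2 h4.2.2
    · intro c c'
      rw [entry hQ]
      simp only [Prod.mk.injEq]
  have h2 : X' = Y := by
    calc X' = X' * (X * Y) := by rw [h1, Matrix.mul_one]
      _ = (X' * X) * Y := by rw [Matrix.mul_assoc]
      _ = Y := by rw [hX, Matrix.one_mul]
  rw [h2]

theorem inv2 {P : Matrix (ν × ι) (ι × ν) K} {P' : Matrix (ι × ν) (ν × ι) K}
    {Q : Matrix (κ × ι) (ι × κ) K} {Q' : Matrix (ι × κ) (κ × ι) K}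
    {X : Matrix ((κ × ν) × ι) (ι × (κ × ν)) K} {X' : Matrix (ι × (κ × ν)) ((κ × ν) × ι) K}
    (hP : P * P' = 1) (hQ : Q * Q' = 1) (hX : X' * X = 1)
    (h : ∀ (n n0 : κ) (l l0 : ν) (a m : ι), X ((n, l), a) (m, (n0, l0)) =
      ∑ m' : ι, P (l, a) (m', l0) * Q (n, m') (m, n0)) (n n0 : κ) (l l0 : ν) (a m : ι) :
    X' (m, (n0, l0)) ((n, l), a) = ∑ m' : ι, Q' (m, n0) (n, m') * P' (m', l0) (l, a) := by
  set Y : Matrix (ι × (κ × ν)) ((κ × ν) × ι) K := fun x y =>
    ∑ m' : ι, Q' (x.1, x.2.1) (y.1.1, m') * P' (m', x.2.2) (y.1.2, y.2) with hY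
  have h1 : X * Y = 1 := by
    ext ⟨⟨n, l⟩, a⟩ ⟨⟨n', l'⟩, a'⟩
    rw [Matrix.mul_apply, Fintype.sum_prod_type]
    simp only [Fintype.sum_prod_type, h, hY]
    have h0 : ∀ F : ι → κ → ν → K, ∑ m, ∑ n0, ∑ l0, F m n0 l0 = ∑ l0, ∑ m, ∑ n0, F m n0 l0 := by
      intro F
      rw [Finset.sum_congr rfl fun m (_ : m ∈ Finset.univ) => Finset.sum_comm
        (s := Finset.univ) (t := Finset.univ) (f := fun n0 l0 => F m n0 l0), Finset.sum_comm]
    rw [h0, key (fun l0 m' => P (l, a) (m', l0)) (fun l0 m' => P' (m', l0) (l', a'))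
      (fun m' m n0 => Q (n, m') (m, n0)) (fun m n0 m' => Q' (m, n0) (n', m')) (n = n')]
    · rw [Finset.sum_comm, entry hP, Matrix.one_apply]
      by_cases h2 : n = n'
      · by_cases h3 : (l, a) = (l', a')
        · rw [if_pos h2, if_pos h3, if_pos]
          rw [Prod.mk.injEq] at h3
          rw [h2, h3.1, h3.2]
        · rw [if_pos h2, if_neg h3, if_neg]
          intro h4
          simp only [Prod.mk.injEq] at h4
          exact h3 (by rw [h4.1.2, h4.2])
      · rw [if_neg h2, if_neg]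
        intro h4
        simp only [Prod.mk.injEq] at h4
        exact h2 h4.1.1
    · intro c c'
      rw [entry hQ]
      simp only [Prod.mk.injEq]
      by_cases h2 : n = n' <;> by_cases h3 : c = c' <;> simp [h2, h3]
  have h2 : X' = Y := by
    calc X' = X' * (X * Y) := by rw [h1, Matrix.mul_one]
      _ = (X' * X) * Y := by rw [Matrix.mul_assoc]
      _ = Y := by rw [hX, Matrix.one_mul]
  rw [h2]

end

end HEXI

/-- HEXI: the inverse braiding of a tensor product. -/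
theorem hexi (ht : TENSOK_Stmt) (h1 : HEX1_Stmt) (h2 : HEX2_Stmt) (hr : RINV_Stmt) :
    HEXI_Stmt := by
  intro K _ s hs ι κ ν _ _ _ _ _ _ M N L hM hN hL
  have hML := hr K s hs ι ν M L hM hL
  have hNL := hr K s hs κ ν N L hN hL
  have hMN := hr K s hs ι κ M N hM hN
  have okMN := (ht K s hs ι κ ι κ M N M N hM hN).1
  have okNL := (ht K s hs κ ν κ ν N L N L hN hL).1
  have h3 := hr K s hs (ι × κ) ν (tens s M N) L okMN hL
  have h4 := hr K s hs ι (κ × ν) M (tens s N L) hM okNL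
  constructor
  · intro l k a m b n
    exact HEXI.inv1 hML.2 hNL.2 h3.1 (h1 K s hs ι κ ν M N L hM hN hL) l k a m b n
  · intro n n0 l l0 a m
    exact HEXI.inv2 hML.2 hMN.2 h4.1 (h2 K s hs ι κ ν M N L hM hN hL) n n0 l l0 a m

end Pool.Agent.IT
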