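import Pool.Agent.IT.Stmts

/-!
# NAT: the braiding is natural
-/

namespace Pool.Agent.IT
open Pool.Agent.LibH11
open scoped BigOperators

namespace NAT

variable {K : Type} [Field K]

theorem pow_comm {ι ι' : Type} [Fintype ι] [DecidableEq ι] [Fintype ι'] [DecidableEq ι']
    (E' : Matrix ι' ι' K) (E : Matrix ι ι K) (f : Matrix ι' ι K) (h : E' * f = f * E) (n : ℕ) :
    E' ^ n * f = f * E ^ n := by
  induction n with
  | zero => rw [pow_zero, pow_zero, Matrix.one_mul, Matrix.mul_one]
  | succ n ih =>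
    rw [pow_succ, Matrix.mul_assoc, h, ← Matrix.mul_assoc, ih, Matrix.mul_assoc, ← pow_succ]

theorem sum_range_ext (c L : ℕ) (h : c ≤ L) (F : ℕ → K) (hF : ∀ n, c ≤ n → F n = 0) :
    ∑ n ∈ Finset.range c, F n = ∑ n ∈ Finset.range L, F n := by
  apply Finset.sum_subset
  · intro n hn
    rw [Finset.mem_range] at hn ⊢
    omega
  · intro n _ hn
    rw [Finset.mem_range, not_lt] at hn
    exact hF n hn

/-- Composition on the right. -/
theorem sum_right {α β γ δ α' γ' : Type} [Fintype β] [Fintype δ] (S : Finset ℕ) (c : ℕ → K)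
    (P : ℕ → Matrix α β K) (Q : ℕ → Matrix γ δ K) (f : Matrix β α' K) (g : Matrix δ γ' K)
    (a : α) (l : γ) (x : α') (y : γ') :
    ∑ b, ∑ m, (∑ n ∈ S, c n * P n a b * Q n l m) * (f b x * g m y) =
      ∑ n ∈ S, c n * ((P n * f) a x * (Q n * g) l y) := by
  have h1 : ∀ n ∈ S, c n * ((P n * f) a x * (Q n * g) l y) =
      ∑ b, ∑ m, c n * P n a b * Q n l m * (f b x * g m y) := by
    intro n _
    rw [Matrix.mul_apply, Matrix.mul_apply, Finset.sum_mul_sum, Finset.mul_sum]
    refine Finset.sum_congr rfl fun b _ => ?_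
    rw [Finset.mul_sum]
    refine Finset.sum_congr rfl fun m _ => ?_
    ring
  symm
  rw [Finset.sum_congr rfl h1, Finset.sum_comm]
  refine Finset.sum_congr rfl fun b _ => ?_
  rw [Finset.sum_comm]
  refine Finset.sum_congr rfl fun m _ => ?_
  rw [Finset.sum_mul]

/-- Composition on the left. -/
theorem sum_left {α β γ δ α' γ' : Type} [Fintype β] [Fintype δ] (S : Finset ℕ) (c : ℕ → K)
    (P : ℕ → Matrix β α' K) (Q : ℕ → Matrix δ γ' K) (f : Matrix α β K) (g : Matrix γ δ K)
    (a : α) (l : γ) (x : α') (y : γ') :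
    ∑ b, ∑ m, (f a b * g l m) * (∑ n ∈ S, c n * P n b x * Q n m y) =
      ∑ n ∈ S, c n * ((f * P n) a x * (g * Q n) l y) := by
  have h1 : ∀ n ∈ S, c n * ((f * P n) a x * (g * Q n) l y) =
      ∑ b, ∑ m, (f a b * g l m) * (c n * P n b x * Q n m y) := by
    intro n _
    rw [Matrix.mul_apply, Matrix.mul_apply, Finset.sum_mul_sum, Finset.mul_sum]
    refine Finset.sum_congr rfl fun b _ => ?_
    rw [Finset.mul_sum]
    refine Finset.sum_congr rfl fun m _ => ?_
    ring
  symm
  rw [Finset.sum_congr rfl h1, Finset.sum_comm]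
  refine Finset.sum_congr rfl fun b _ => ?_
  rw [Finset.sum_comm]
  refine Finset.sum_congr rfl fun m _ => ?_
  rw [Finset.mul_sum]

end NAT

theorem nat_mod (hn : NILP_Stmt) : NAT_Stmt := by
  intro K _ s hs ι κ ι' κ' _ _ _ _ _ _ _ _ M N M' N' hM hN hM' hN' f g hf hg
  obtain ⟨L, hL1, hL2⟩ : ∃ L : ℕ, Fintype.card ι ≤ L ∧ Fintype.card ι' ≤ L :=
    ⟨Fintype.card ι + Fintype.card ι', by omega, by omega⟩
  have hE : ∀ n, M'.E ^ n * f = f * M.E ^ n := NAT.pow_comm _ _ _ hf.E
  have hF : ∀ n, N'.F ^ n * g = g * N.F ^ n := NAT.pow_comm _ _ _ hg.F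
  have hMn : ∀ n, Fintype.card ι ≤ n → M.E ^ n = 0 := fun n h =>
    ((hn K s ι M hM).2.2 n h).1
  have hMn' : ∀ n, Fintype.card ι' ≤ n → M'.E ^ n = 0 := fun n h =>
    ((hn K s ι' M' hM').2.2 n h).1
  constructor
  · ext ⟨l', a'⟩ ⟨a, l⟩
    have h1 : (Rm s M' N' * kr f g) (l', a') (a, l) =
        s ^ (M'.wt a' * N'.wt l') * ∑ n ∈ Finset.range L,
          aq s n * ((M'.E ^ n * f) a' a * (N'.F ^ n * g) l' l) := by
      rw [← NAT.sum_range_ext (Fintype.card ι') L hL2 _ (by
        intro n h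
        rw [hMn' n h, Matrix.zero_mul, Matrix.zero_apply, zero_mul, mul_zero])]
      rw [← NAT.sum_right, Matrix.mul_apply, Fintype.sum_prod_type, Finset.mul_sum]
      refine Finset.sum_congr rfl fun b _ => ?_
      rw [Finset.mul_sum]
      refine Finset.sum_congr rfl fun m _ => ?_
      simp only [Rm, kr]
      rw [mul_assoc]
    have h2 : (kr g f * Rm s M N) (l', a') (a, l) =
        s ^ (M'.wt a' * N'.wt l') * ∑ n ∈ Finset.range L,
          aq s n * ((f * M.E ^ n) a' a * (g * N.F ^ n) l' l) := by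
      rw [← NAT.sum_range_ext (Fintype.card ι) L hL1 _ (by
        intro n h
        rw [hMn n h, Matrix.mul_zero, Matrix.zero_apply, zero_mul, mul_zero])]
      rw [← NAT.sum_left, Matrix.mul_apply, Fintype.sum_prod_type, Finset.sum_comm,
        Finset.mul_sum]
      refine Finset.sum_congr rfl fun b _ => ?_
      rw [Finset.mul_sum]
      refine Finset.sum_congr rfl fun m _ => ?_
      simp only [Rm, kr]
      by_cases hfb : f a' b = 0
      · rw [hfb]
        ring
      by_cases hgm : g l' m = 0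
      · rw [hgm]
        ring
      rw [hf.wt a' b hfb, hg.wt l' m hgm]
      ring
    rw [h1, h2]
    congr 1
    refine Finset.sum_congr rfl fun n _ => ?_
    rw [hE, hF]
  · ext ⟨a', l'⟩ ⟨l, a⟩
    have h1 : (Rm' s M' N' * kr g f) (a', l') (l, a) =
        (∑ n ∈ Finset.range L,
          aq' s n * ((M'.E ^ n * f) a' a * (N'.F ^ n * g) l' l)) *
          s ^ (-(M.wt a * N.wt l)) := by
      rw [← NAT.sum_range_ext (Fintype.card ι') L hL2 _ (by
        intro n h
        rw [hMn' n h, Matrix.zero_mul, Matrix.zero_apply, zero_mul, mul_zero])]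
      rw [← NAT.sum_right, Matrix.mul_apply, Fintype.sum_prod_type, Finset.sum_comm,
        Finset.sum_mul]
      refine Finset.sum_congr rfl fun b _ => ?_
      rw [Finset.sum_mul]
      refine Finset.sum_congr rfl fun m _ => ?_
      simp only [Rm', kr]
      by_cases hfb : f b a = 0
      · rw [hfb]
        ring
      by_cases hgm : g m l = 0
      · rw [hgm]
        ring
      rw [hf.wt b a hfb, hg.wt m l hgm]
      ring
    have h2 : (kr f g * Rm' s M N) (a', l') (l, a) =
        (∑ n ∈ Finset.range L,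
          aq' s n * ((f * M.E ^ n) a' a * (g * N.F ^ n) l' l)) *
          s ^ (-(M.wt a * N.wt l)) := by
      rw [← NAT.sum_range_ext (Fintype.card ι) L hL1 _ (by
        intro n h
        rw [hMn n h, Matrix.mul_zero, Matrix.zero_apply, zero_mul, mul_zero])]
      rw [← NAT.sum_left, Matrix.mul_apply, Fintype.sum_prod_type, Finset.sum_mul]
      refine Finset.sum_congr rfl fun b _ => ?_
      rw [Finset.sum_mul]
      refine Finset.sum_congr rfl fun m _ => ?_
      simp only [Rm', kr]
      ring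
    rw [h1, h2]
    congr 1
    refine Finset.sum_congr rfl fun n _ => ?_
    rw [hE, hF]

end Pool.Agent.IT
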