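import Pool.Agent.IT.Stmts

/-!
# The first two terms determine the expansions
-/

namespace Pool.Agent.IT
open PowerSeries

namespace TRANS

/-- The powers of `E 2`. -/
theorem E_two_pow (he : ESER_Stmt) (i : ℕ) : E 2 ^ i = E (2 * (i : ℚ)) := by
  obtain ⟨h0, hadd, -⟩ := he
  induction i with
  | zero => simp [h0]
  | succ i ih =>
    rw [pow_succ, ih, ← hadd]
    congr 1
    push_cast
    ring

/-- The series `E 2` is transcendental over `ℚ`. -/
theorem aeval_inj (he : ESER_Stmt) (P : Polynomial ℚ) (hP : Polynomial.aeval (E 2) P = 0) :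
    P = 0 := by
  have hsum : ∀ m : ℕ, ∑ i : Fin (P.natDegree + 1), P.coeff i * (2 * ((i : ℕ) : ℚ)) ^ m = 0 := by
    intro m
    have h1 := congrArg (coeff m) hP
    rw [Polynomial.aeval_eq_sum_range, map_sum, map_zero] at h1
    have h2 : ∀ i ∈ Finset.range (P.natDegree + 1), coeff m (P.coeff i • E 2 ^ i) =
        (P.coeff i * (2 * (i : ℚ)) ^ m) * ((m.factorial : ℚ))⁻¹ := by
      intro i _
      rw [E_two_pow he, map_smul, E, coeff_mk, smul_eq_mul, div_eq_mul_inv, mul_assoc]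
    rw [Finset.sum_congr rfl h2, ← Finset.sum_mul] at h1
    have h3 : ((m.factorial : ℚ))⁻¹ ≠ 0 := inv_ne_zero (by exact_mod_cast m.factorial_ne_zero)
    have h4 := (mul_eq_zero.mp h1).resolve_right h3
    rw [Fin.sum_univ_eq_sum_range (fun i => P.coeff i * (2 * (i : ℚ)) ^ m)]
    exact h4
  have hz := Matrix.eq_zero_of_forall_pow_sum_mul_pow_eq_zero
    (f := fun i : Fin (P.natDegree + 1) => 2 * ((i : ℕ) : ℚ))
    (v := fun i : Fin (P.natDegree + 1) => P.coeff i)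
    (by
      intro i j hij
      have h1 : (2 : ℚ) * ((i : ℕ) : ℚ) = 2 * ((j : ℕ) : ℚ) := hij
      have h2 : ((i : ℕ) : ℚ) = ((j : ℕ) : ℚ) := by linarith
      exact Fin.ext (by exact_mod_cast h2))
    (fun i => hsum i)
  have h5 : P.leadingCoeff = 0 := by
    have := congrFun hz (Fin.last _)
    simpa using this
  exact Polynomial.leadingCoeff_eq_zero.mp h5

/-- Two relations for the same series give the same fraction. -/
theorem cross (he : ESER_Stmt) {f g : ℚ⟦X⟧} (hf : f ≠ 0) {a b a' b' : Polynomial ℚ}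
    (h : Polynomial.aeval (E 2) b * g = Polynomial.aeval (E 2) a * f)
    (h' : Polynomial.aeval (E 2) b' * g = Polynomial.aeval (E 2) a' * f) : b' * a = b * a' := by
  have h1 : Polynomial.aeval (E 2) (b' * a - b * a') * f = 0 := by
    rw [map_sub, map_mul, map_mul, sub_mul, mul_assoc, ← h, mul_assoc, ← h']
    ring
  have h2 := (mul_eq_zero.mp h1).resolve_right hf
  exact sub_eq_zero.mp (aeval_inj he _ h2)

/-- Equal fractions have equal expansions. -/
theorem expand {a b a' b' : Polynomial ℚ} {u u' : ℚ⟦X⟧} (hb : b ≠ 0) (hb' : b' ≠ 0)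
    (h : b' * a = b * a') (hu : (b : ℚ⟦X⟧) * u = (a : ℚ⟦X⟧))
    (hu' : (b' : ℚ⟦X⟧) * u' = (a' : ℚ⟦X⟧)) : u = u' := by
  have h1 : (b' : ℚ⟦X⟧) * (a : ℚ⟦X⟧) = (b : ℚ⟦X⟧) * (a' : ℚ⟦X⟧) := by
    rw [← Polynomial.coe_mul, ← Polynomial.coe_mul, h]
  have hb1 : (b : ℚ⟦X⟧) ≠ 0 := by
    intro h2
    exact hb (Polynomial.coe_injective ℚ (by rw [h2, Polynomial.coe_zero]))
  have hb2 : (b' : ℚ⟦X⟧) ≠ 0 := by
    intro h2
    exact hb' (Polynomial.coe_injective ℚ (by rw [h2, Polynomial.coe_zero]))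
  have h3 : (b : ℚ⟦X⟧) * (b' : ℚ⟦X⟧) * u = (b : ℚ⟦X⟧) * (b' : ℚ⟦X⟧) * u' := by
    rw [← hu, ← hu'] at h1
    linear_combination h1
  exact mul_left_cancel₀ (mul_ne_zero hb1 hb2) h3

end TRANS

theorem trans_mod (he : ESER_Stmt) (ht : TRC_Stmt) : TRANS_Stmt := by
  intro D D' f0 f1 hD hD'
  obtain ⟨hf, a, b, c, hb, h1, h2, h3, h4⟩ := ht D f0 f1 hD
  obtain ⟨-, a', b', c', hb', h1', h2', h3', h4'⟩ := ht D' f0 f1 hD'
  exact ⟨TRANS.expand hb hb' (TRANS.cross he hf h1 h1') h3 h3',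
    TRANS.expand hb hb' (TRANS.cross he hf h2 h2') h4 h4'⟩

end Pool.Agent.IT
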