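import Pool.Agent.IT.TopStmts

/-!
Iterated torus knots: braids of `p` strands slide through the `p`-parallel.
-/

namespace Pool.Agent.IT

open Pool.Agent.LibH11

namespace SLD

theorem blk_true (p i : ℕ) : blk p (i, true) = Cw (p * i) p p := by
  unfold blk Cw Dw
  refine List.flatMap_congr fun a _ => ?_
  refine List.map_congr_left fun b hb => ?_
  have hb' : b < p := List.mem_range.mp hb
  simp only [Prod.mk.injEq, and_true]
  omega

theorem blk_false (p i : ℕ) : blk p (i, false) = iw (Cw (p * i) p p) := by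
  rw [← blk_true]
  rfl

theorem mem_Cw {s a b : ℕ} {y : ℕ × Bool} (hy : y ∈ Cw s a b) :
    s ≤ y.1 ∧ y.1 + 2 ≤ s + a + b := by
  unfold Cw Dw at hy
  simp only [List.mem_flatMap, List.mem_range, List.mem_map] at hy
  obtain ⟨r, hr, i, hi, rfl⟩ := hy
  simp only
  omega

/-- semiconjugation letter by letter -/
theorem slide_word {N : ℕ} (C : Br N) (x : Word) (f g : ℕ → ℕ)
    (h : ∀ y ∈ x, C * gen N (f y.1, true) = gen N (g y.1, true) * C) :
    SemiconjBy C (ev N (x.map fun y => (f y.1, y.2))) (ev N (x.map fun y => (g y.1, y.2))) := by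
  induction x with
  | nil => exact SemiconjBy.one_right _
  | cons y x ih =>
    rw [List.map_cons, List.map_cons, ev_cons, ev_cons]
    refine SemiconjBy.mul_right ?_ (ih fun z hz => h z (List.mem_cons_of_mem _ hz))
    have h1 : SemiconjBy C (gen N (f y.1, true)) (gen N (g y.1, true)) :=
      h y List.mem_cons_self
    rcases y with ⟨j, e⟩
    cases e
    · simp only
      rw [gen_false, gen_false N (g j)]
      exact h1.inv_right
    · exact h1

theorem block_true (hn : NATC_Stmt) {p n i : ℕ} (hp : 1 ≤ p) (hi : i < n) (k : Fin (n + 1))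
    (x : Word) (hx : Bd (p - 1) x) :
    SemiconjBy (ev (pn p n) (Cw (p * i) p p)) (ev (pn p n) (shw (p * k) x))
      (ev (pn p n) (shw (p * (perm (gen n (i, true)) k : Fin (n + 1))) x)) := by
  have hN : p * i + p + p ≤ pn p n + 1 := by
    unfold pn
    have h1 : p * (i + 2) ≤ p * (n + 1) := Nat.mul_le_mul_left p (by omega)
    have h2 : p * (i + 2) = p * i + p + p := by ring
    omega
  obtain ⟨hA, hB⟩ := hn (pn p n) (p * i) p p hN
  rw [gen_true hi, perm_sg]
  by_cases h1 : k = (⟨i, hi⟩ : Fin n).castSucc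
  · have hk : ((k : Fin (n + 1)) : ℕ) = i := by rw [h1]; rfl
    have hσ : ((Equiv.swap (⟨i, hi⟩ : Fin n).castSucc (⟨i, hi⟩ : Fin n).succ k : Fin (n + 1)) : ℕ)
        = i + 1 := by
      rw [h1, Equiv.swap_apply_left]
      rfl
    rw [hσ, hk]
    unfold shw
    refine slide_word _ x (fun j => j + p * i) (fun j => j + p * (i + 1)) ?_
    intro y hy
    have hy' : y.1 < p - 1 := hx y hy
    have h2 := hB (y.1 + p * i) (by omega) (by omega)
    have h3 : y.1 + p * i + p = y.1 + p * (i + 1) := by ring
    rw [h3] at h2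
    exact h2
  · by_cases h2 : k = (⟨i, hi⟩ : Fin n).succ
    · have hk : ((k : Fin (n + 1)) : ℕ) = i + 1 := by rw [h2]; rfl
      have hσ : ((Equiv.swap (⟨i, hi⟩ : Fin n).castSucc (⟨i, hi⟩ : Fin n).succ k :
          Fin (n + 1)) : ℕ) = i := by
        rw [h2, Equiv.swap_apply_right]
        rfl
      rw [hσ, hk]
      unfold shw
      refine slide_word _ x (fun j => j + p * (i + 1)) (fun j => j + p * i) ?_
      intro y hy
      have hy' : y.1 < p - 1 := hx y hy
      have h3 : p * (i + 1) = p * i + p := by ring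
      have h4 := hA (y.1 + p * (i + 1)) (by omega) (by omega)
      have h5 : y.1 + p * (i + 1) - p = y.1 + p * i := by omega
      rw [h5] at h4
      exact h4
    · rw [Equiv.swap_apply_of_ne_of_ne h1 h2]
      have hk1 : (k : ℕ) ≠ i := fun h => h1 (Fin.ext h)
      have hk2 : (k : ℕ) ≠ i + 1 := fun h => h2 (Fin.ext h)
      refine ev_far _ _ _ ?_
      intro y hy z hz
      have h3 := mem_Cw hy
      unfold shw at hz
      obtain ⟨u, hu, rfl⟩ := List.mem_map.mp hz
      have hu' : u.1 < p - 1 := hx u hu
      simp only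
      rcases Nat.lt_or_ge (k : ℕ) i with h4 | h4
      · right
        have h5 : p * ((k : ℕ) + 1) ≤ p * i := Nat.mul_le_mul_left p (by omega)
        have h6 : p * ((k : ℕ) + 1) = p * (k : ℕ) + p := by ring
        omega
      · left
        have h5 : p * (i + 2) ≤ p * (k : ℕ) := Nat.mul_le_mul_left p (by omega)
        have h6 : p * (i + 2) = p * i + p + p := by ring
        omega

theorem block (hn : NATC_Stmt) {p n : ℕ} (hp : 1 ≤ p) (y : ℕ × Bool) (hy : y.1 < n)
    (k : Fin (n + 1)) (x : Word) (hx : Bd (p - 1) x) :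
    SemiconjBy (ev (pn p n) (blk p y)) (ev (pn p n) (shw (p * k) x))
      (ev (pn p n) (shw (p * (perm (gen n y) k : Fin (n + 1))) x)) := by
  rcases y with ⟨i, e⟩
  simp only at hy
  cases e
  · rw [blk_false, ev_iw]
    have h1 := block_true hn hp hy (perm (gen n (i, false)) k) x hx
    have h2 : perm (gen n (i, true)) (perm (gen n (i, false)) k) = k := by
      rw [gen_false, map_inv]
      simp
    rw [h2] at h1
    exact h1.inv_symm_left
  · rw [blk_true]
    exact block_true hn hp hy k x hx

end SLD

theorem sld (hn : NATC_Stmt) : SLD_Stmt := by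
  intro p n hp w
  induction w with
  | nil =>
    intro _ k x _
    simp [par]
  | cons y w ih =>
    intro hw k x hx
    have hw1 : y.1 < n := hw y List.mem_cons_self
    have hw2 : Bd n w := fun z hz => hw z (List.mem_cons_of_mem _ hz)
    have h1 : SemiconjBy (ev (pn p n) (par p w)) (ev (pn p n) (shw (p * k) x))
        (ev (pn p n) (shw (p * (perm (ev n w) k : Fin (n + 1))) x)) := ih hw2 k x hx
    have h2 := SLD.block hn hp y hw1 (perm (ev n w) k) x hx
    have h3 := h2.mul_left h1
    have h4 : par p (y :: w) = blk p y ++ par p w := by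
      unfold par
      rw [List.flatMap_cons]
    rw [h4, ev_append, ev_cons, map_mul, Equiv.Perm.mul_apply]
    exact h3

end Pool.Agent.IT
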