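import Pool.Agent.IT.TopStmts

/-!
Iterated torus knots: closing the last strands after a block crossing gives a full twist
(module IT_STB, by helper18).
-/

namespace Pool.Agent.IT

open Pool.Agent.LibH11

namespace STB

theorem dw_succ (t q : ℕ) : Dw t (q + 1) = (t + q, true) :: Dw t q := by
  unfold Dw
  rw [List.range_succ_eq_map, List.map_cons, List.map_map]
  have h1 : (t + (q + 1) - 1 - 0, true) = (t + q, true) := by
    rw [Prod.mk.injEq]
    exact ⟨by omega, rfl⟩
  rw [h1]
  congr 1
  apply List.map_congr_left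
  intro i _
  rw [Function.comp_apply, Prod.mk.injEq]
  exact ⟨by omega, rfl⟩

theorem cw_succ (s j b : ℕ) : Cw s (j + 1) b = Cw s j b ++ Dw (s + j) b := by
  unfold Cw
  rw [List.range_succ, List.flatMap_append]
  simp

theorem bd_dw {M t m : ℕ} (h : t + m ≤ M) : Bd M (Dw t m) := by
  intro x hx
  unfold Dw at hx
  rw [List.mem_map] at hx
  obtain ⟨i, hi, rfl⟩ := hx
  rw [List.mem_range] at hi
  simp only
  omega

theorem bd_cw {M s a b : ℕ} (h : s + a + b ≤ M + 1) : Bd M (Cw s a b) := by
  intro x hx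
  unfold Cw at hx
  rw [List.mem_flatMap] at hx
  obtain ⟨r, hr, hx⟩ := hx
  rw [List.mem_range] at hr
  exact bd_dw (M := M) (by omega) x hx

theorem bd_rep {M k : ℕ} {w : Word} (h : Bd M w) : Bd M (List.replicate k w).flatten := by
  intro x hx
  rw [List.mem_flatten] at hx
  obtain ⟨l, hl, hx⟩ := hx
  rw [(List.mem_replicate.mp hl).2] at hx
  exact h x hx

theorem row_word (hr : ROW_Stmt) {N t q : ℕ} (hN : t + (q + 1) ≤ N) (L : List ℕ)
    (hL : ∀ i ∈ L, i < q) :
    ev N (Dw t (q + 1)) * ev N (L.map fun i => (t + 1 + q - 1 - i, true)) =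
      ev N (L.map fun i => (t + q - 1 - i, true)) * ev N (Dw t (q + 1)) := by
  induction L with
  | nil => simp
  | cons i L ih =>
    have hi : i < q := hL i List.mem_cons_self
    have h1 := (hr N t (q + 1) hN).1 (t + 1 + q - 1 - i) (by omega) (by omega)
    have h2 : t + 1 + q - 1 - i - 1 = t + q - 1 - i := by omega
    rw [h2] at h1
    rw [List.map_cons, List.map_cons, ev_cons, ev_cons, ← mul_assoc, h1, mul_assoc, mul_assoc,
      ih fun i' hi' => hL i' (List.mem_cons_of_mem _ hi')]

theorem row_semi (hr : ROW_Stmt) {N t q : ℕ} (hN : t + (q + 1) ≤ N) :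
    SemiconjBy (ev N (Dw t (q + 1))) (ev N (Dw (t + 1) q)) (ev N (Dw t q)) := by
  have h := row_word hr hN (List.range q) fun i hi => List.mem_range.mp hi
  exact h

theorem step (hr : ROW_Stmt) (s q j k : ℕ) (Y : Word) (hY : Bd (s + q) Y) :
    meq (s + q + j + 1) (Y ++ Cw s (j + 1) (q + 1) ++
        (List.replicate k (Dw (s + (j + 1)) q)).flatten)
      (s + q + j) (Y ++ Cw s j (q + 1) ++ (List.replicate (k + 1) (Dw (s + j) q)).flatten) := by
  have hsemi := (row_semi hr (N := s + q + j + 1) (t := s + j) (q := q) (by omega)).pow_right k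
  have h1 : ev (s + q + j + 1) (Y ++ Cw s (j + 1) (q + 1) ++
        (List.replicate k (Dw (s + (j + 1)) q)).flatten) =
      ev (s + q + j + 1) ((Y ++ Cw s j (q + 1) ++ (List.replicate k (Dw (s + j) q)).flatten) ++
        [(s + q + j, true)] ++ Dw (s + j) q) := by
    rw [cw_succ]
    simp only [ev_append, ev_replicate, ev_nil, ev_cons, mul_one]
    have h2 : ev (s + q + j + 1) (Dw (s + j) (q + 1)) *
        ev (s + q + j + 1) (Dw (s + (j + 1)) q) ^ k =
        ev (s + q + j + 1) (Dw (s + j) q) ^ k * ev (s + q + j + 1) (Dw (s + j) (q + 1)) := hsemi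
    have h3 : ev (s + q + j + 1) (Dw (s + j) (q + 1)) =
        gen (s + q + j + 1) (s + q + j, true) * ev (s + q + j + 1) (Dw (s + j) q) := by
      rw [dw_succ, ev_cons]
      have h4 : s + j + q = s + q + j := by omega
      rw [h4]
    rw [mul_assoc, mul_assoc (ev (s + q + j + 1) (Cw s j (q + 1))), h2, h3]
    group
  refine (meq_of_ev h1).trans ?_
  refine (meq_destab (s + q + j) _ _ true ?_ ?_).trans ?_
  · refine ((hY.mono (by omega)).append (bd_cw (by omega))).append (bd_rep (bd_dw (by omega)))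
  · exact bd_dw (by omega)
  · apply meq_of_ev
    simp only [ev_append, ev_replicate, pow_succ, mul_assoc]

theorem main (hr : ROW_Stmt) (s q : ℕ) (Y : Word) (hY : Bd (s + q) Y) :
    ∀ k j : ℕ, j + k = q + 1 →
      meq (s + 2 * q + 1) (Y ++ Cw s (q + 1) (q + 1))
        (s + q + j) (Y ++ Cw s j (q + 1) ++ (List.replicate k (Dw (s + j) q)).flatten) := by
  intro k
  induction k with
  | zero =>
    intro j hj
    obtain rfl : j = q + 1 := by omega
    have h1 : s + 2 * q + 1 = s + q + (q + 1) := by omega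
    rw [h1]
    apply meq_of_ev
    simp
  | succ k ih =>
    intro j hj
    have h1 := ih (j + 1) (by omega)
    exact h1.trans (step hr s q j k Y hY)

end STB

theorem stb (hr : ROW_Stmt) : STB_Stmt := by
  intro s p Y hp hY
  obtain ⟨q, rfl⟩ : ∃ q, p = q + 1 := ⟨p - 1, by omega⟩
  have h1 : s + (q + 1) - 1 = s + q := by omega
  have h2 : s + 2 * (q + 1) - 1 = s + 2 * q + 1 := by omega
  have h3 : q + 1 - 1 = q := by omega
  rw [h1] at hY ⊢
  rw [h2, h3]
  have h4 := STB.main hr s q Y hY (q + 1) 0 (by omega)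
  have h5 : Cw s 0 (q + 1) = [] := rfl
  rw [h5, List.append_nil] at h4
  exact h4

end Pool.Agent.IT
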