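import Pool.Agent.IT.TopStmts

/-!
Iterated torus knots: the torus knots `T(p,q)` and `T(q,p)`.
-/

namespace Pool.Agent.IT

open Pool.Agent.LibH11

namespace TPQ

theorem Cw_succ_last (s a b : ℕ) : Cw s (a + 1) b = Cw s a b ++ Dw (s + a) b := by
  unfold Cw
  rw [List.range_succ, List.flatMap_append]
  simp

theorem Cw_succ_first (s a b : ℕ) : Cw s (a + 1) b = Dw s b ++ Cw (s + 1) a b := by
  unfold Cw
  rw [List.range_succ_eq_map, List.flatMap_cons, List.flatMap_map]
  congr 1
  apply List.flatMap_congr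
  intro r _
  have : s + Nat.succ r = s + 1 + r := by omega
  rw [this]

theorem Cw_zero_left (s b : ℕ) : Cw s 0 b = [] := by
  unfold Cw
  simp

theorem Cw_zero_right (s a : ℕ) : Cw s a 0 = [] := by
  unfold Cw Dw
  simp

theorem Dw_succ (s m : ℕ) : Dw s (m + 1) = [(s + m, true)] ++ Dw s m := by
  unfold Dw
  rw [List.range_succ_eq_map, List.map_cons, List.map_map]
  simp only [List.singleton_append, List.cons.injEq, Prod.mk.injEq, and_true]
  refine ⟨by omega, ?_⟩
  apply List.map_congr_left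
  intro r _
  simp only [Function.comp, Prod.mk.injEq, and_true]
  omega

theorem bd_Dw {N s m : ℕ} (h : s + m ≤ N) : Bd N (Dw s m) := by
  intro x hx
  unfold Dw at hx
  obtain ⟨i, hi, rfl⟩ := List.mem_map.mp hx
  rw [List.mem_range] at hi
  simp only
  omega

theorem bd_Cw {N s a b : ℕ} (h : s + a + b ≤ N + 1) : Bd N (Cw s a b) := by
  intro x hx
  unfold Cw at hx
  obtain ⟨r, hr, hx⟩ := List.mem_flatMap.mp hx
  rw [List.mem_range] at hr
  exact bd_Dw (by omega) x hx

theorem bd_rep {N : ℕ} {w : Word} (h : Bd N w) (k : ℕ) :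
    Bd N (List.replicate k w).flatten := by
  intro x hx
  obtain ⟨l, hl, hx⟩ := List.mem_flatten.mp hx
  rw [(List.mem_replicate.mp hl).2] at hx
  exact h x hx

/-- the rows slide -/
theorem row_slide (hr : ROW_Stmt) {N s b : ℕ} (h : s + b + 1 ≤ N) :
    ev N (Dw s (b + 1)) * ev N (Dw (s + 1) b) = ev N (Dw s b) * ev N (Dw s (b + 1)) := by
  have h1 := (hr N s (b + 1) (by omega)).1
  have key : ∀ L : List ℕ, (∀ i ∈ L, i < b) →
      ev N (Dw s (b + 1)) * ev N (L.map fun i => (s + 1 + b - 1 - i, true)) =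
        ev N (L.map fun i => (s + b - 1 - i, true)) * ev N (Dw s (b + 1)) := by
    intro L
    induction L with
    | nil => intro _; simp
    | cons i L ih =>
      intro hL
      have hi : i < b := hL i List.mem_cons_self
      rw [List.map_cons, List.map_cons, ev_cons, ev_cons, ← mul_assoc,
        h1 (s + 1 + b - 1 - i) (by omega) (by omega), mul_assoc,
        ih fun j hj => hL j (List.mem_cons_of_mem _ hj), ← mul_assoc]
      have : s + 1 + b - 1 - i - 1 = s + b - 1 - i := by omega
      rw [this]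
  exact key (List.range b) fun i hi => List.mem_range.mp hi

theorem row_slide_pow (hr : ROW_Stmt) {N s b : ℕ} (h : s + b + 1 ≤ N) (k : ℕ) :
    ev N (Dw s (b + 1)) * ev N (Dw (s + 1) b) ^ k = ev N (Dw s b) ^ k * ev N (Dw s (b + 1)) := by
  induction k with
  | zero => simp
  | succ k ih =>
    rw [pow_succ, ← mul_assoc, ih, mul_assoc, row_slide hr h, ← mul_assoc, ← pow_succ]

/-- one destabilisation -/
theorem step (hr : ROW_Stmt) (m b k : ℕ) :
    meq (m + b + 1) (Cw 0 (m + 1) (b + 1) ++ (List.replicate k (Dw (m + 1) b)).flatten)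
      (m + b) (Cw 0 m (b + 1) ++ (List.replicate (k + 1) (Dw m b)).flatten) := by
  have h1 : ev (m + b + 1) (Cw 0 (m + 1) (b + 1) ++ (List.replicate k (Dw (m + 1) b)).flatten) =
      ev (m + b + 1) ((Cw 0 m (b + 1) ++ (List.replicate k (Dw m b)).flatten) ++
        [(m + b, true)] ++ Dw m b) := by
    rw [Cw_succ_last, ev_append, ev_append, ev_replicate, List.append_assoc _ [(m + b, true)],
      ← Dw_succ, ev_append, ev_append, ev_replicate, mul_assoc, mul_assoc, Nat.zero_add,
      row_slide_pow hr (le_refl _)]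
  have h2 := meq_destab (m + b) (Cw 0 m (b + 1) ++ (List.replicate k (Dw m b)).flatten) (Dw m b)
    true ((bd_Cw (by omega)).append (bd_rep (bd_Dw (by omega)) k)) (bd_Dw (by omega))
  have h3 : ev (m + b) ((Cw 0 m (b + 1) ++ (List.replicate k (Dw m b)).flatten) ++ Dw m b) =
      ev (m + b) (Cw 0 m (b + 1) ++ (List.replicate (k + 1) (Dw m b)).flatten) := by
    rw [ev_append, ev_append, ev_append, ev_replicate, ev_replicate, mul_assoc, pow_succ]
  exact ((meq_of_ev h1).trans h2).trans (meq_of_ev h3)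

theorem steps (hr : ROW_Stmt) (b : ℕ) : ∀ m k : ℕ,
    meq (m + b) (Cw 0 m (b + 1) ++ (List.replicate k (Dw m b)).flatten)
      b (List.replicate (m + k) (Dw 0 b)).flatten := by
  intro m
  induction m with
  | zero =>
    intro k
    rw [Cw_zero_left, Nat.zero_add, Nat.zero_add, List.nil_append]
    exact meq_refl _ _
  | succ m ih =>
    intro k
    have h1 := (step hr m b k).trans (ih (k + 1))
    have h2 : m + 1 + b = m + b + 1 := by omega
    have h3 : m + 1 + k = m + (k + 1) := by omega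
    rw [h2, h3]
    exact h1

theorem steps0 (hr : ROW_Stmt) (b m : ℕ) :
    meq (m + b) (Cw 0 m (b + 1)) b (List.replicate m (Dw 0 b)).flatten := by
  have h := steps hr b m 0
  simpa using h

/-! ### the half twist -/

theorem delta_Dw {N : ℕ} {δ : Br N}
    (hδ : ∀ i < N, δ * gen N (i, true) = gen N (N - 1 - i, true) * δ) {s m : ℕ}
    (h : s + m ≤ N) : δ * ev N (Dw s m) = ev N (Aw (N - s - m) m) * δ := by
  have key : ∀ L : List ℕ, (∀ i ∈ L, i < m) →
      δ * ev N (L.map fun i => (s + m - 1 - i, true)) =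
        ev N (L.map fun i => (N - s - m + i, true)) * δ := by
    intro L
    induction L with
    | nil => intro _; simp
    | cons i L ih =>
      intro hL
      have hi : i < m := hL i List.mem_cons_self
      rw [List.map_cons, List.map_cons, ev_cons, ev_cons, ← mul_assoc,
        hδ (s + m - 1 - i) (by omega), mul_assoc,
        ih fun j hj => hL j (List.mem_cons_of_mem _ hj), ← mul_assoc]
      have : N - 1 - (s + m - 1 - i) = N - s - m + i := by omega
      rw [this]
  exact key (List.range m) fun i hi => List.mem_range.mp hi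

theorem delta_Cw (hg : GRID_Stmt) {N : ℕ} {δ : Br N}
    (hδ : ∀ i < N, δ * gen N (i, true) = gen N (N - 1 - i, true) * δ) (a b : ℕ)
    (hN : a + b = N + 1) : ∀ m ≤ a, δ * ev N (Cw (a - m) m b) = ev N (Cw 0 b m) * δ := by
  intro m
  induction m with
  | zero =>
    intro _
    rw [Cw_zero_left, Cw_zero_right]
    simp
  | succ m ih =>
    intro hm
    have h1 : a - (m + 1) + 1 = a - m := by omega
    rw [Cw_succ_first, h1, ev_append, ← mul_assoc, delta_Dw hδ (by omega), mul_assoc,
      ih (by omega), ← mul_assoc, (hg N 0 b m).1]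
    have h2 : N - (a - (m + 1)) - b = 0 + m := by omega
    rw [h2]

theorem meq_of_delta {N : ℕ} {u w : Word} (δ : Br N) (h : δ * ev N u = ev N w * δ) :
    meq N u N w := by
  unfold meq
  have h1 := MarkovMove.conj N δ (ev N u)
  have h2 : δ * ev N u * δ⁻¹ = ev N w := by
    rw [h, mul_inv_cancel_right]
  rw [h2] at h1
  exact Relation.EqvGen.rel _ _ h1

theorem swapC (hg : GRID_Stmt) (hd : DEL_Stmt) (a b : ℕ) :
    meq (a + 1 + b) (Cw 0 (a + 1) (b + 1)) (a + 1 + b) (Cw 0 (b + 1) (a + 1)) := by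
  obtain ⟨δ, hδ⟩ := hd (a + 1 + b)
  have h := delta_Cw hg hδ (a + 1) (b + 1) (by omega) (a + 1) (le_refl _)
  rw [Nat.sub_self] at h
  exact meq_of_delta δ h

/-- the torus knots with descending rows -/
theorem torD (hr : ROW_Stmt) (hg : GRID_Stmt) (hd : DEL_Stmt) (a b : ℕ) :
    meq b (List.replicate (a + 1) (Dw 0 b)).flatten a (List.replicate (b + 1) (Dw 0 a)).flatten := by
  have h1 := steps0 hr b (a + 1)
  have h2 := steps0 hr a (b + 1)
  have h3 : b + 1 + a = a + 1 + b := by omega
  rw [h3] at h2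
  exact (h1.symm.trans (swapC hg hd a b)).trans h2

theorem pow_semiconj {G : Type} [Group G] {δ x y : G} (h : δ * x = y * δ) (k : ℕ) :
    δ * x ^ k = y ^ k * δ := by
  induction k with
  | zero => simp
  | succ k ih => rw [pow_succ, ← mul_assoc, ih, mul_assoc, h, ← mul_assoc, ← pow_succ]

theorem DtoA (hd : DEL_Stmt) (b k : ℕ) :
    meq b (List.replicate k (Dw 0 b)).flatten b (List.replicate k (Aw 0 b)).flatten := by
  obtain ⟨δ, hδ⟩ := hd b
  have h := delta_Dw hδ (s := 0) (m := b) (by omega)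
  have h2 : b - 0 - b = 0 := by omega
  rw [h2] at h
  refine meq_of_delta δ ?_
  rw [ev_replicate, ev_replicate]
  exact pow_semiconj h k

theorem Aw_zero (b : ℕ) : (List.range b).map (fun i => (i, true)) = Aw 0 b := by
  unfold Aw
  simp

theorem Aw_reverse (s b : ℕ) : (Aw s b).reverse = Dw s b := by
  induction b with
  | zero => rfl
  | succ b ih =>
    rw [Dw_succ, ← ih]
    unfold Aw
    rw [List.range_succ, List.map_append, List.reverse_append]
    rfl

theorem tor_pos (b a : ℕ) :
    tor (b + 1) ((a + 1 : ℕ) : ℤ) = (List.replicate (a + 1) (Aw 0 b)).flatten := by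
  unfold tor
  rw [if_pos (Int.natCast_nonneg _), Int.natAbs_natCast, Nat.add_sub_cancel, Aw_zero]

theorem tor_neg (b a : ℕ) :
    tor (b + 1) (-((a + 1 : ℕ) : ℤ)) = mir (List.replicate (a + 1) (Dw 0 b)).flatten := by
  unfold tor
  rw [if_neg (by push_cast; omega), Int.natAbs_neg, Int.natAbs_natCast, Nat.add_sub_cancel,
    Aw_zero]
  have h1 : iw (Aw 0 b) = mir (Dw 0 b) := by
    rw [← Aw_reverse]
    unfold iw mir
    rw [List.map_reverse]
  rw [h1]
  unfold mir
  rw [List.map_flatten, List.map_replicate]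

end TPQ

open TPQ in
/-- The torus knots `T(p,q)` and `T(q,p)`. -/
theorem tpq (hr : ROW_Stmt) (hg : GRID_Stmt) (hm : MIR_Stmt) (hd : DEL_Stmt) : TPQ_Stmt := by
  intro p q hp hq
  obtain ⟨b, rfl⟩ : ∃ b, p = b + 1 := ⟨p - 1, by omega⟩
  obtain ⟨a, rfl⟩ : ∃ a, q = a + 1 := ⟨q - 1, by omega⟩
  rw [Nat.add_sub_cancel, Nat.add_sub_cancel, tor_pos, tor_pos, tor_neg, tor_neg]
  refine ⟨?_, hm.2 _ _ _ _ (torD hr hg hd a b)⟩
  exact ((DtoA hd b (a + 1)).symm.trans (torD hr hg hd a b)).trans (DtoA hd a (b + 1))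

end Pool.Agent.IT
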