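import Pool.Agent.IT.TopStmts

/-!
Iterated torus knots: `T(p, 1)` and `T(p, -1)` are unknots (module UNK).
-/

namespace Pool.Agent.IT

open Pool.Agent.LibH11

namespace UNK

/-- the word `σ_0 ⋯ σ_(m-1)` -/
def lw (m : ℕ) : Word := (List.range m).map fun i => (i, true)

theorem lw_succ (m : ℕ) : lw (m + 1) = lw m ++ [(m, true)] := by
  unfold lw
  rw [List.range_succ, List.map_append]
  rfl

theorem bd_lw (m : ℕ) : Bd m (lw m) := by
  intro x hx
  unfold lw at hx
  rw [List.mem_map] at hx
  obtain ⟨i, hi, rfl⟩ := hx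
  exact List.mem_range.mp hi

theorem pos (m : ℕ) : meq m (lw m) 0 [] := by
  induction m with
  | zero => exact meq_refl 0 _
  | succ m ih =>
    rw [lw_succ]
    have h := meq_destab m (lw m) [] true (bd_lw m) (bd_nil m)
    rw [List.append_nil, List.append_nil] at h
    exact h.trans ih

theorem neg (m : ℕ) : meq m (iw (lw m)) 0 [] := by
  induction m with
  | zero => exact meq_refl 0 _
  | succ m ih =>
    rw [lw_succ, iw_append]
    have h := meq_destab m [] (iw (lw m)) false (bd_nil m) (bd_iw.mpr (bd_lw m))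
    rw [List.nil_append, List.nil_append] at h
    exact h.trans ih

theorem tor_one (p : ℕ) : tor p 1 = lw (p - 1) := by
  unfold tor
  rw [if_pos (by norm_num)]
  show (List.replicate 1 (lw (p - 1))).flatten = lw (p - 1)
  simp

theorem tor_neg_one (p : ℕ) : tor p (-1) = iw (lw (p - 1)) := by
  unfold tor
  rw [if_neg (by norm_num)]
  show (List.replicate 1 (iw (lw (p - 1)))).flatten = iw (lw (p - 1))
  simp

end UNK

/-- `T(p, 1)` is the unknot. -/
theorem unk : UNK_Stmt := by
  intro p _
  rw [UNK.tor_one, UNK.tor_neg_one]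
  exact ⟨UNK.pos (p - 1), UNK.neg (p - 1)⟩

end Pool.Agent.IT
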