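import Pool.Agent.IT.Cls
import Pool.Agent.IT.Row
import Pool.Agent.IT.Grid
import Pool.Agent.IT.Natc
import Pool.Agent.IT.Parh
import Pool.Agent.IT.Sld
import Pool.Agent.IT.Cnj
import Pool.Agent.IT.Stb
import Pool.Agent.IT.Mir
import Pool.Agent.IT.Ful
import Pool.Agent.IT.Cst
import Pool.Agent.IT.Cwd
import Pool.Agent.IT.Del
import Pool.Agent.IT.Tpq
import Pool.Agent.IT.Unk
import Pool.Agent.IT.Prm

/-!
Iterated torus knots: assembly of the topological half.
-/

namespace Pool.Agent.IT

open Pool.Agent.LibH11

theorem topRow : ROW_Stmt := row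
theorem topMir : MIR_Stmt := mir_thm
theorem topGrid : GRID_Stmt := grid topMir
theorem topNatc : NATC_Stmt := natc topRow topGrid
theorem topParh : PARH_Stmt := parh topNatc
theorem topSld : SLD_Stmt := sld topNatc
theorem topCnj : CNJ_Stmt := cnj topParh topSld
theorem topStb : STB_Stmt := stb topRow
theorem topFul : FUL_Stmt := ful topRow
theorem topCst : CST_Stmt := cst topGrid topMir topFul topParh topCnj topStb
theorem topCwd : CWD_Stmt := cwd topParh topCnj topCst
theorem topDel : DEL_Stmt := del topRow
theorem topTpq : TPQ_Stmt := tpq topRow topGrid topMir topDel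
theorem topUnk : UNK_Stmt := unk
theorem topPrm : PRM_Stmt := prm

/-- Knots with the same parameters are equal. -/
theorem itd_uniq {D : List (ℕ × ℤ)} {K K' : Knot} (h : ITD D K) (h' : ITD D K') : K = K' :=
  ITD.uniq topCwd D K K' h h'

/-- Every iterated torus knot has parameters in normal form. -/
theorem itd_normal {K : Knot} (h : IteratedTorus K) : ∃ D, Nml D ∧ ITD D K :=
  nml_exists topCwd topPrm topTpq topUnk K h

/-- If a family of invariants determines the normal parameters, then it separates iterated torus
knots. -/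
theorem separate (F : Knot → Knot → Prop)
    (hA : ∀ (D D' : List (ℕ × ℤ)) (K K' : Knot), Nml D → Nml D' → ITD D K → ITD D' K' → F K K' →
      D = D') (K K' : Knot) (h : IteratedTorus K) (h' : IteratedTorus K') (hF : F K K') :
    K = K' := by
  obtain ⟨D, hD, hI⟩ := itd_normal h
  obtain ⟨D', hD', hI'⟩ := itd_normal h'
  have := hA D D' K K' hD hD' hI hI' hF
  subst this
  exact itd_uniq hI hI'

/-- The sign free criterion for the existence of cables: the `(p, q)`-cable is connected if and
only if `p` and `q` are relatively prime. -/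
theorem isKnot_cab {p n : ℕ} {q : ℤ} {w : Word} (hp : 1 ≤ p) (hw : Bd n w)
    (h : IsKnot (ev n w)) : IsKnot (ev (pn p n) (cab p q w)) ↔ Int.gcd p q = 1 :=
  topPrm p n q w hp hw h

end Pool.Agent.IT
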