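import Pool.Agent.IT.WDefs

/-!
Iterated torus knots: basic facts on braid words and Markov equivalence.
-/

namespace Pool.Agent.IT

open Pool.Agent.LibH11

/-- all letters of the word are smaller than `N` -/
def Bd (N : ℕ) (w : Word) : Prop := ∀ x ∈ w, x.1 < N

/-- the mirror image -/
def mir (w : Word) : Word := w.map fun x => (x.1, !x.2)

/-- the shifted word -/
def shw (k : ℕ) (w : Word) : Word := w.map fun x => (x.1 + k, x.2)

theorem Bd.mono {N M : ℕ} {w : Word} (h : Bd N w) (hNM : N ≤ M) : Bd M w :=
  fun x hx => lt_of_lt_of_le (h x hx) hNM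

theorem Bd.append {N : ℕ} {u v : Word} (hu : Bd N u) (hv : Bd N v) : Bd N (u ++ v) := by
  intro x hx
  rcases List.mem_append.mp hx with h | h
  · exact hu x h
  · exact hv x h

theorem Bd.left {N : ℕ} {u v : Word} (h : Bd N (u ++ v)) : Bd N u :=
  fun x hx => h x (List.mem_append_left _ hx)

theorem Bd.right {N : ℕ} {u v : Word} (h : Bd N (u ++ v)) : Bd N v :=
  fun x hx => h x (List.mem_append_right _ hx)

theorem bd_append {N : ℕ} {u v : Word} : Bd N (u ++ v) ↔ Bd N u ∧ Bd N v :=
  ⟨fun h => ⟨h.left, h.right⟩, fun h => h.1.append h.2⟩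

theorem bd_nil (N : ℕ) : Bd N [] := by
  intro x hx
  simp at hx

theorem bd_mir {N : ℕ} {w : Word} : Bd N (mir w) ↔ Bd N w := by
  unfold Bd mir
  constructor
  · intro h x hx
    exact h (x.1, !x.2) (List.mem_map.mpr ⟨x, hx, rfl⟩)
  · intro h x hx
    obtain ⟨y, hy, rfl⟩ := List.mem_map.mp hx
    exact h y hy

theorem bd_reverse {N : ℕ} {w : Word} : Bd N w.reverse ↔ Bd N w := by
  unfold Bd
  simp only [List.mem_reverse]

theorem bd_iw {N : ℕ} {w : Word} : Bd N (iw w) ↔ Bd N w := by
  have : iw w = (mir w).reverse := rfl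
  rw [this, bd_reverse, bd_mir]

@[simp] theorem ev_nil (N : ℕ) : ev N [] = 1 := rfl

@[simp] theorem ev_append (N : ℕ) (u v : Word) : ev N (u ++ v) = ev N u * ev N v := by
  unfold ev
  simp

@[simp] theorem ev_cons (N : ℕ) (x : ℕ × Bool) (v : Word) : ev N (x :: v) = gen N x * ev N v := by
  unfold ev
  simp

theorem ev_single (N : ℕ) (x : ℕ × Bool) : ev N [x] = gen N x := by simp

theorem gen_not (N : ℕ) (i : ℕ) (e : Bool) : gen N (i, !e) = (gen N (i, e))⁻¹ := by
  unfold gen
  simp only
  by_cases h : i < N
  · rw [dif_pos h, dif_pos h]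
    cases e <;> simp
  · rw [dif_neg h, dif_neg h, inv_one]

theorem gen_of_ge {N i : ℕ} (h : N ≤ i) (e : Bool) : gen N (i, e) = 1 := by
  unfold gen
  simp only
  rw [dif_neg (by omega)]

theorem gen_true {N i : ℕ} (h : i < N) : gen N (i, true) = sg ⟨i, h⟩ := by
  unfold gen
  simp [h]

theorem gen_false (N i : ℕ) : gen N (i, false) = (gen N (i, true))⁻¹ := gen_not N i true

theorem ev_flatten (N : ℕ) (L : List Word) : ev N L.flatten = (L.map (ev N)).prod := by
  induction L with
  | nil => rfl
  | cons a L ih => simp [ih]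

theorem ev_replicate (N k : ℕ) (w : Word) : ev N (List.replicate k w).flatten = ev N w ^ k := by
  rw [ev_flatten, List.map_replicate, List.prod_replicate]

theorem iw_append (u v : Word) : iw (u ++ v) = iw v ++ iw u := by
  unfold iw
  simp

theorem iw_nil : iw [] = [] := rfl

theorem iw_iw (w : Word) : iw (iw w) = w := by
  unfold iw
  rw [List.map_reverse, List.reverse_reverse, List.map_map]
  conv_rhs => rw [← List.map_id w]
  apply List.map_congr_left
  rintro ⟨i, e⟩ _
  simp

theorem ev_iw (N : ℕ) (w : Word) : ev N (iw w) = (ev N w)⁻¹ := by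
  induction w with
  | nil => simp [iw]
  | cons x w ih =>
    have : iw (x :: w) = iw w ++ [(x.1, !x.2)] := by
      unfold iw
      simp
    rw [this, ev_append, ih, ev_single, ev_cons N x w, mul_inv_rev, gen_not]

theorem mir_append (u v : Word) : mir (u ++ v) = mir u ++ mir v := by
  unfold mir
  simp

theorem mir_mir (w : Word) : mir (mir w) = w := by
  unfold mir
  rw [List.map_map]
  conv_rhs => rw [← List.map_id w]
  apply List.map_congr_left
  rintro ⟨i, e⟩ _
  simp

theorem wr_append (u v : Word) : wr (u ++ v) = wr u + wr v := by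
  unfold wr
  simp

theorem wr_nil : wr [] = 0 := rfl

theorem wr_iw (w : Word) : wr (iw w) = - wr w := by
  induction w with
  | nil => simp [iw, wr]
  | cons x w ih =>
    have h1 : iw (x :: w) = iw w ++ [(x.1, !x.2)] := by
      unfold iw
      simp
    rw [h1, wr_append, ih]
    unfold wr
    rcases x with ⟨i, e⟩
    cases e <;> simp <;> ring

theorem wr_mir (w : Word) : wr (mir w) = - wr w := by
  induction w with
  | nil => simp [mir, wr]
  | cons x w ih =>
    have h1 : mir (x :: w) = [(x.1, !x.2)] ++ mir w := by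
      unfold mir
      simp
    rw [h1, wr_append, ih]
    unfold wr
    rcases x with ⟨i, e⟩
    cases e <;> simp <;> ring

/-! ### Relations -/

theorem gen_far (N : ℕ) {i j : ℕ} (h : i + 2 ≤ j ∨ j + 2 ≤ i) (e e' : Bool) :
    Commute (gen N (i, e)) (gen N (j, e')) := by
  have key : ∀ i j : ℕ, i + 2 ≤ j → Commute (gen N (i, true)) (gen N (j, true)) := by
    intro i j hij
    by_cases hj : j < N
    · rw [gen_true hj, gen_true (by omega : i < N)]
      exact sg_comm _ _ hij
    · rw [gen_of_ge (by omega : N ≤ j)]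
      exact Commute.one_right _
  have key2 : Commute (gen N (i, true)) (gen N (j, true)) := by
    rcases h with h | h
    · exact key i j h
    · exact (key j i h).symm
  cases e <;> cases e'
  · rw [gen_false, gen_false]
    exact (key2.inv_left).inv_right
  · rw [gen_false]
    exact key2.inv_left
  · rw [gen_false N j]
    exact key2.inv_right
  · exact key2

theorem gen_braid {N i : ℕ} (h : i + 1 < N) :
    gen N (i, true) * gen N (i + 1, true) * gen N (i, true) =
      gen N (i + 1, true) * gen N (i, true) * gen N (i + 1, true) := by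
  rw [gen_true h, gen_true (by omega : i < N)]
  exact sg_braid _ _ rfl

/-- words with distant letters commute -/
theorem ev_far (N : ℕ) (u v : Word) (h : ∀ x ∈ u, ∀ y ∈ v, x.1 + 2 ≤ y.1 ∨ y.1 + 2 ≤ x.1) :
    Commute (ev N u) (ev N v) := by
  induction u with
  | nil => exact Commute.one_left _
  | cons x u ih =>
    rw [ev_cons]
    refine Commute.mul_left ?_ (ih fun x' hx' => h x' (List.mem_cons_of_mem _ hx'))
    clear ih
    induction v with
    | nil => exact Commute.one_right _
    | cons y v ih =>
      rw [ev_cons]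
      refine Commute.mul_right ?_ (ih fun x' hx' y' hy' =>
        h x' hx' y' (List.mem_cons_of_mem _ hy'))
      exact gen_far N (h x List.mem_cons_self y List.mem_cons_self) x.2 y.2

/-! ### Markov equivalence -/

/-- the closures of the two words are Markov equivalent -/
def meq (N : ℕ) (w : Word) (M : ℕ) (u : Word) : Prop :=
  Relation.EqvGen MarkovMove ⟨N, ev N w⟩ ⟨M, ev M u⟩

theorem meq.symm {N M : ℕ} {w u : Word} (h : meq N w M u) : meq M u N w :=
  Relation.EqvGen.symm _ _ h

theorem meq.trans {N M L : ℕ} {w u v : Word} (h : meq N w M u) (h' : meq M u L v) :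
    meq N w L v := Relation.EqvGen.trans _ _ _ h h'

theorem meq_of_ev {N : ℕ} {w u : Word} (h : ev N w = ev N u) : meq N w N u := by
  unfold meq
  rw [h]
  exact Relation.EqvGen.refl _

theorem meq_refl (N : ℕ) (w : Word) : meq N w N w := meq_of_ev rfl

theorem meq_conj (N : ℕ) (u v : Word) : meq N (u ++ v) N (v ++ u) := by
  unfold meq
  have h := MarkovMove.conj N (ev N v) (ev N (u ++ v))
  have h2 : ev N v * ev N (u ++ v) * (ev N v)⁻¹ = ev N (v ++ u) := by
    rw [ev_append, ev_append]
    group
  rw [h2] at h
  exact Relation.EqvGen.rel _ _ h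

theorem incl_ev {N : ℕ} {u : Word} (h : Bd N u) : incl (ev N u) = ev (N + 1) u := by
  induction u with
  | nil => simp
  | cons x u ih =>
    rw [ev_cons, ev_cons, map_mul, ih fun y hy => h y (List.mem_cons_of_mem _ hy)]
    congr 1
    have hx : x.1 < N := h x List.mem_cons_self
    rcases x with ⟨i, e⟩
    simp only at hx
    have h1 : incl (gen N (i, true)) = gen (N + 1) (i, true) := by
      rw [gen_true hx, gen_true (by omega : i < N + 1)]
      unfold incl
      rw [liftBr_sg]
      rfl
    cases e
    · rw [gen_false, gen_false, map_inv, h1]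
    · exact h1

theorem meq_destab (N : ℕ) (u v : Word) (e : Bool) (hu : Bd N u) (hv : Bd N v) :
    meq (N + 1) (u ++ [(N, e)] ++ v) N (u ++ v) := by
  have h1 : meq (N + 1) (u ++ [(N, e)] ++ v) (N + 1) ((v ++ u) ++ [(N, e)]) := by
    have := meq_conj (N + 1) (u ++ [(N, e)]) v
    rwa [← List.append_assoc] at this
  have h2 : meq (N + 1) ((v ++ u) ++ [(N, e)]) N (v ++ u) := by
    refine meq.symm ?_
    unfold meq
    refine Relation.EqvGen.rel _ _ ?_
    rw [ev_append (N + 1), ← incl_ev (hv.append hu), ev_single]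
    have h3 : gen (N + 1) (N, true) = sg (Fin.last N) := gen_true (Nat.lt_succ_self N)
    cases e
    · rw [gen_false, h3]
      exact MarkovMove.stabNeg N _
    · rw [h3]
      exact MarkovMove.stabPos N _
  exact (h1.trans h2).trans (meq_conj N v u)

/-! ### Connected closures -/

theorem sameCycle_map {X Y : Type} [Finite X] [Finite Y] (σ : Equiv.Perm X) (τ : Equiv.Perm Y)
    (f : X → Y) (h : ∀ x, τ.SameCycle (f x) (f (σ x))) {x y : X} (hxy : σ.SameCycle x y) :
    τ.SameCycle (f x) (f y) := by
  obtain ⟨n, hn⟩ := hxy.exists_nat_pow_eq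
  rw [← hn]
  clear hn hxy
  induction n with
  | zero => exact Equiv.Perm.SameCycle.refl _ _
  | succ n ih =>
    rw [pow_succ', Equiv.Perm.mul_apply]
    exact ih.trans (h _)

theorem br_ind {n : ℕ} {P : Br n → Prop} (h1 : P 1) (hs : ∀ i, P (sg i))
    (hm : ∀ x y, P x → P y → P (x * y)) (hi : ∀ x, P x → P x⁻¹) (b : Br n) : P b := by
  have : b ∈ Subgroup.closure (Set.range (PresentedGroup.of (rels := braidRels n))) := by
    rw [PresentedGroup.closure_range_of]; trivial
  induction this using Subgroup.closure_induction with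
  | mem x hx => obtain ⟨i, rfl⟩ := hx; exact hs i
  | one => exact h1
  | mul x y _ _ hx hy => exact hm x y hx hy
  | inv x _ hx => exact hi x hx

theorem perm_sg {M : ℕ} (i : Fin M) : perm (sg i : Br M) = Equiv.swap i.castSucc i.succ := by
  unfold perm
  rw [liftBr_sg]

theorem incl_sg {M : ℕ} (i : Fin M) : incl (sg i : Br M) = sg i.castSucc := by
  unfold incl
  rw [liftBr_sg]

theorem perm_incl {N : ℕ} (b : Br N) :
    (∀ x : Fin (N + 1), perm (incl b) x.castSucc = (perm b x).castSucc) ∧
      perm (incl b) (Fin.last (N + 1)) = Fin.last (N + 1) := by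
  induction b using br_ind with
  | h1 => simp
  | hs i =>
    rw [incl_sg, perm_sg, perm_sg]
    constructor
    · intro x
      rw [Equiv.swap_apply_def, Equiv.swap_apply_def]
      simp only [Fin.castSucc_inj]
      have h3 : (x.castSucc = i.castSucc.succ) ↔ x = i.succ := by
        rw [Fin.ext_iff, Fin.ext_iff]
        simp
      simp only [h3]
      split_ifs <;> first | rfl | (ext; simp)
    · rw [Equiv.swap_apply_of_ne_of_ne]
      · rw [Fin.ne_iff_vne]
        simp
        omega
      · rw [Fin.ne_iff_vne]
        simp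
        omega
  | hm a b iha ihb =>
    rw [map_mul, map_mul, map_mul]
    constructor
    · intro x
      rw [Equiv.Perm.mul_apply, ihb.1, iha.1, Equiv.Perm.mul_apply]
    · rw [Equiv.Perm.mul_apply, ihb.2, iha.2]
  | hi b ih =>
    rw [map_inv, map_inv, map_inv]
    constructor
    · intro x
      rw [Equiv.Perm.inv_eq_iff_eq, ih.1]
      simp
    · rw [Equiv.Perm.inv_eq_iff_eq, ih.2]

theorem isKnot_stab_aux {N : ℕ} (b : Br N) (c : Br (N + 1))
    (hc : perm c = perm (incl b) * Equiv.swap (Fin.last N).castSucc (Fin.last (N + 1))) :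
    IsKnot b ↔ IsKnot c := by
  have hL : (Fin.last N).castSucc ≠ Fin.last (N + 1) := Fin.castSucc_lt_last _ |>.ne
  have e1 : perm c (Fin.last N).castSucc = Fin.last (N + 1) := by
    rw [hc, Equiv.Perm.mul_apply, Equiv.swap_apply_left, (perm_incl b).2]
  have e2 : perm c (Fin.last (N + 1)) = (perm b (Fin.last N)).castSucc := by
    rw [hc, Equiv.Perm.mul_apply, Equiv.swap_apply_right, (perm_incl b).1]
  have e3 : ∀ x : Fin (N + 1), x ≠ Fin.last N → perm c x.castSucc = (perm b x).castSucc := by
    intro x hx
    rw [hc, Equiv.Perm.mul_apply, Equiv.swap_apply_of_ne_of_ne, (perm_incl b).1]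
    · intro h
      exact hx (Fin.castSucc_injective _ h)
    · exact (Fin.castSucc_lt_last _).ne
  constructor
  · intro h
    have h1 : ∀ x y : Fin (N + 1), (perm c).SameCycle x.castSucc y.castSucc := by
      intro x y
      refine sameCycle_map (perm b) (perm c) Fin.castSucc ?_ (h x y)
      intro z
      by_cases hz : z = Fin.last N
      · rw [hz, ← e2, ← e1]
        exact (Equiv.Perm.SameCycle.refl _ _).apply_right.apply_right
      · rw [← e3 z hz]
        exact (Equiv.Perm.SameCycle.refl _ _).apply_right
    have h2 : (perm c).SameCycle (Fin.last N).castSucc (Fin.last (N + 1)) := by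
      rw [← e1]
      exact (Equiv.Perm.SameCycle.refl _ _).apply_right
    intro x y
    have h3 : ∀ x : Fin (N + 2), (perm c).SameCycle (Fin.last N).castSucc x := by
      intro x
      induction x using Fin.lastCases with
      | last => exact h2
      | cast x => exact h1 _ _
    exact (h3 x).symm.trans (h3 y)
  · intro h x y
    have h4 := sameCycle_map (perm c) (perm b)
      (fun z : Fin (N + 2) => (Fin.lastCases (Fin.last N) (fun x => x) z : Fin (N + 1))) ?_
      (h x.castSucc y.castSucc)
    · simpa using h4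
    · intro z
      induction z using Fin.lastCases with
      | last =>
        rw [e2]
        simp only [Fin.lastCases_last, Fin.lastCases_castSucc]
        exact (Equiv.Perm.SameCycle.refl _ _).apply_right
      | cast z =>
        by_cases hz : z = Fin.last N
        · rw [hz, e1]
          simp only [Fin.lastCases_last, Fin.lastCases_castSucc]
          exact Equiv.Perm.SameCycle.refl _ _
        · rw [e3 z hz]
          simp only [Fin.lastCases_castSucc]
          exact (Equiv.Perm.SameCycle.refl _ _).apply_right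

theorem isKnot_move {x y : Σ n : ℕ, Br n} (h : MarkovMove x y) : IsKnot x.2 ↔ IsKnot y.2 := by
  have hlast : ∀ N : ℕ, perm (sg (Fin.last N) : Br (N + 1)) =
      Equiv.swap (Fin.last N).castSucc (Fin.last (N + 1)) := by
    intro N
    rw [perm_sg, Fin.succ_last]
  induction h with
  | conj n a b =>
    unfold IsKnot
    simp only [map_mul, map_inv, Equiv.Perm.sameCycle_conj]
    constructor
    · intro h x y
      exact h _ _
    · intro h x y
      have := h (perm a x) (perm a y)
      simpa using this
  | stabPos n b =>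
    apply isKnot_stab_aux
    rw [map_mul, hlast]
  | stabNeg n b =>
    apply isKnot_stab_aux
    rw [map_mul, map_inv, hlast, Equiv.swap_inv]

theorem isKnot_eqv {x y : Σ n : ℕ, Br n} (h : Relation.EqvGen MarkovMove x y) :
    IsKnot x.2 ↔ IsKnot y.2 := by
  induction h with
  | rel x y h => exact isKnot_move h
  | refl x => exact Iff.rfl
  | symm x y _ ih => exact ih.symm
  | trans x y z _ _ ih1 ih2 => exact ih1.trans ih2

theorem closure_eqv {x y : Σ n : ℕ, Br n} (h : Relation.EqvGen MarkovMove x y) :
    ∀ (hx : IsKnot x.2) (hy : IsKnot y.2), closure x.2 hx = closure y.2 hy := by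
  induction h with
  | rel x y h =>
    intro hx hy
    exact Quot.sound h
  | refl x => exact fun _ _ => rfl
  | symm x y _ ih => exact fun hx hy => (ih hy hx).symm
  | trans x y z hxy _ ih1 ih2 =>
    intro hx hz
    exact (ih1 hx ((isKnot_eqv hxy).mp hx)).trans (ih2 _ hz)

theorem meq.isKnot {N M : ℕ} {w u : Word} (h : meq N w M u) :
    IsKnot (ev N w) ↔ IsKnot (ev M u) := isKnot_eqv h

theorem meq.closure_eq {N M : ℕ} {w u : Word} (h : meq N w M u) (hw : IsKnot (ev N w))
    (hu : IsKnot (ev M u)) : closure (ev N w) hw = closure (ev M u) hu := closure_eqv h hw hu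

theorem exists_eqv {x y : KnotBraid} (h : closure x.1.2 x.2 = closure y.1.2 y.2) :
    Relation.EqvGen MarkovMove x.1 y.1 := by
  have h1 := Quot.eqvGen_exact h
  have h2 : ∀ a b : KnotBraid, Relation.EqvGen (fun x y : KnotBraid => MarkovMove x.1 y.1) a b →
      Relation.EqvGen MarkovMove a.1 b.1 := by
    intro a b hab
    induction hab with
    | rel a b h => exact Relation.EqvGen.rel _ _ h
    | refl a => exact Relation.EqvGen.refl _
    | symm a b _ ih => exact Relation.EqvGen.symm _ _ ih
    | trans a b c _ _ ih1 ih2 => exact Relation.EqvGen.trans _ _ _ ih1 ih2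
  exact h2 x y h1

theorem exists_word {N : ℕ} (b : Br N) : ∃ w : Word, Bd N w ∧ ev N w = b := by
  induction b using br_ind with
  | h1 => exact ⟨[], bd_nil N, rfl⟩
  | hs i =>
    refine ⟨[((i : ℕ), true)], ?_, ?_⟩
    · intro x hx
      rw [List.mem_singleton] at hx
      rw [hx]
      exact i.2
    · rw [ev_single, gen_true i.2]
  | hm a b iha ihb =>
    obtain ⟨u, hu, rfl⟩ := iha
    obtain ⟨v, hv, rfl⟩ := ihb
    exact ⟨u ++ v, hu.append hv, ev_append N u v⟩
  | hi a ih =>
    obtain ⟨u, hu, rfl⟩ := ih
    exact ⟨iw u, bd_iw.mpr hu, ev_iw N u⟩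

end Pool.Agent.IT
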