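import Pool.Agent.LibH11.BraidKnots

/-!
Iterated torus knots: words in the generators of the braid groups, cables of braids.
-/

namespace Pool.Agent.IT

open Pool.Agent.LibH11

/-- A braid word: letters `(i, true)` for `σ_i` and `(i, false)` for its inverse. -/
abbrev Word := List (ℕ × Bool)

/-- The letter as an element of the braid group on `N + 1` strands (`1` if it does not occur). -/
def gen (N : ℕ) (x : ℕ × Bool) : Br N :=
  if h : x.1 < N then (if x.2 then sg ⟨x.1, h⟩ else (sg ⟨x.1, h⟩)⁻¹) else 1

/-- The word as an element of the braid group on `N + 1` strands. -/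
def ev (N : ℕ) (w : Word) : Br N := (w.map (gen N)).prod

/-- The inverse word. -/
def iw (w : Word) : Word := (w.map fun x => (x.1, !x.2)).reverse

/-- The exponent sum. -/
def wr (w : Word) : ℤ := (w.map fun x => if x.2 then (1 : ℤ) else -1).sum

/-- The crossing `(i, e)` replaced by the crossings of `p` parallel strands with `p` parallel
strands. -/
def blk (p : ℕ) : ℕ × Bool → Word
  | (i, true) => (List.range p).flatMap fun a => (List.range p).map fun b => (p * i + p - 1 + a - b, true)
  | (i, false) => iw ((List.range p).flatMap fun a =>
      (List.range p).map fun b => (p * i + p - 1 + a - b, true))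

/-- The `p`-parallel of a braid word. -/
def par (p : ℕ) (w : Word) : Word := w.flatMap (blk p)

/-- The torus braid `(σ_0 ⋯ σ_(p-2))^r` on the first `p` strands. -/
def tor (p : ℕ) (r : ℤ) : Word :=
  if 0 ≤ r then (List.replicate r.natAbs ((List.range (p - 1)).map fun i => (i, true))).flatten
  else (List.replicate r.natAbs (iw ((List.range (p - 1)).map fun i => (i, true)))).flatten

/-- The `(p, q)`-cable of a closed braid. -/
def cab (p : ℕ) (q : ℤ) (w : Word) : Word := par p w ++ tor p (q - p * wr w)

end Pool.Agent.IT
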